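import Pool.Agent.H33.MB2.Closing

/-!
# MB2 ARS: the strikes are within the budgets; hits by dirty sets

* `os_bound`: `GeoH.os_le` with `g.log`.
* `ars_bound`: choose `𝒟 ⊆ {D ∈ s.J : arith Y D A}` (a finset) pairwise not close (`¬ close Y D D'` for `D ≠ D'`), of maximal
  cardinality.  Claim `#𝒟 < tm`: otherwise take `tm` of them as a list `l` (any order) with root `A`: `ValidL`: for each member
  `D`, `2 ≤ #(D ∩ A) ≤ #(D ∩ stars Y A l')` (so it is tight), not close to the other members, not in the list; the sets are ripe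
  (`g.Jr`), `ntight = tm`, `nfree = 0`, length `tm ≤ smax`: contradiction with `gc_contra`.
  By maximality every `T ∈ s.J` with `arith Y T A` is close to some `D ∈ 𝒟` (if `T ∈ 𝒟`: `close Y T T` since
  `#T = k > t1`).  The targets of the log lie in `s.J` (`g.logJ`).  `GeoH.ars_le` gives
  `ars ≤ #𝒟 * cA ≤ tm * cA ≤ am`.
* `dirty_bound`: `closing` with `E = H = A`, `l0 = []`, second alternative: `Xf v = C`, `Yf v = D ∈ s.J` with `arith Y D C`: `gr` differ, a point
  `p ≠ v` of `C ∩ D` exists since `#(D ∩ C) ≥ 2`, and `2 ≤ #(D ∩ C)`.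
-/

set_option linter.unusedSectionVars false

namespace Pool.H33.MB2

open Finset
open scoped Classical

variable {X Γ : Type*} [DecidableEq X] {Y : Sys X Γ} {Q : Num2}
  {Lg : List (Entry X) → Finset X → Finset X → Prop} {s : State X}

theorem os_bound (hG : GeoH Y Lg) (g : Good Y Lg s) {A : Finset X} (hA : A ∈ Y.F)
    (hal : alive s A) : os Y s A ≤ Y.bs :=
  hG.os_le s.log s.M s.B g.log A hA hal

private theorem list_aux {𝒟 : Finset (Finset X)} {A : Finset X} (hDF : ∀ D ∈ 𝒟, D ∈ Y.F)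
    (hDA : ∀ D ∈ 𝒟, 2 ≤ #(D ∩ A))
    (hnc : ∀ D ∈ 𝒟, ∀ D' ∈ 𝒟, D ≠ D' → ¬ close Y D D') (l : List (Finset X))
    (hl : l.Nodup) (hm : ∀ D ∈ l, D ∈ 𝒟) :
    ValidL Y A l ∧ ntight Y A l = l.length ∧ nfree Y A l = 0 := by
  induction l with
  | nil => exact ⟨trivial, rfl, rfl⟩
  | cons D l ih =>
    obtain ⟨hDl, hl'⟩ := List.nodup_cons.1 hl
    obtain ⟨h1, h2, h3⟩ := ih hl' (fun E hE => hm E (List.mem_cons_of_mem _ hE))
    have hD : D ∈ 𝒟 := hm D List.mem_cons_self
    have h4 : 2 ≤ #(D ∩ stars Y A l) :=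
      (hDA D hD).trans (card_le_card (inter_subset_inter_left (subset_stars Y A l (Or.inl rfl))))
    have h5 : ∀ Z ∈ l, ¬ close Y Z D := by
      intro Z hZ
      refine hnc Z (hm Z (List.mem_cons_of_mem _ hZ)) D hD ?_
      rintro rfl
      exact hDl hZ
    refine ⟨⟨h1, hDl, hDF D hD, by omega, fun Z hZ hc => absurd hc (h5 Z hZ),
      fun Z hZ Z' _ hc _ => absurd hc (h5 Z hZ)⟩, ?_, ?_⟩
    · simp only [ntight, h4, if_true, h2, List.length_cons]
    · simp only [nfree, h4, if_true, h3]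

/-- Pairwise not close. -/
private def sepP (Y : Sys X Γ) (𝒟 : Finset (Finset X)) : Prop :=
  ∀ D ∈ 𝒟, ∀ D' ∈ 𝒟, D ≠ D' → ¬ close Y D D'

theorem ars_bound (hF : FamH Y) (hN : NumH Y Q) (hG : GeoH Y Lg) (g : Good Y Lg s)
    (hΦ : Phi Y s ≤ 1 / 16) {A : Finset X} (hA : A ∈ Y.F) : ars Y s A ≤ Y.am := by
  obtain ⟨𝒟, hD, hmax⟩ := exists_max_image
    ((s.J.toFinset.filter (fun D => arith Y D A)).powerset.filter (sepP Y)) (fun 𝒟 => #𝒟)
    ⟨∅, mem_filter.2 ⟨by simp, by simp [sepP]⟩⟩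
  obtain ⟨hD1, hD2⟩ := mem_filter.1 hD
  rw [mem_powerset] at hD1
  have hDJ : ∀ D ∈ 𝒟, D ∈ s.J ∧ arith Y D A := by
    intro D hD
    have := mem_filter.1 (hD1 hD)
    exact ⟨List.mem_toFinset.1 this.1, this.2⟩
  have hDF : ∀ D ∈ 𝒟, D ∈ Y.F := fun D hD => g.JF D (hDJ D hD).1
  have hsm : #𝒟 ≤ Y.tm := by
    by_contra hc
    push Not at hc
    obtain ⟨𝒯, hT, hTc⟩ := exists_subset_card_eq hc.le
    obtain ⟨h1, h2, h3⟩ := list_aux (A := A) (fun D hD => hDF D (hT hD))
      (fun D hD => (hDJ D (hT hD)).2.2) (fun D hD D' hD' => hD2 D (hT hD) D' (hT hD'))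
      𝒯.toList 𝒯.nodup_toList (fun D hD => Finset.mem_toList.1 hD)
    have hlen : 𝒯.toList.length = Y.tm := by rw [Finset.length_toList, hTc]
    refine gc_contra hN g hΦ hA h1 (fun D hD => g.Jr D (hDJ D (hT (Finset.mem_toList.1 hD))).1)
      (by omega) (by rw [hlen]; unfold smax; omega) (by omega)
  have hcov : ∀ e ∈ s.log, e.y ∈ A → arith Y e.T A → ∃ D ∈ 𝒟, close Y D e.T := by
    intro e he _ har
    by_contra hno
    push Not at hno
    have heJ := g.logJ e he
    have heD : e.T ∉ 𝒟 := by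
      intro hmem
      refine hno _ hmem ?_
      unfold close
      rw [inter_self, hF.card _ (g.JF _ heJ)]
      exact hN.tk
    have hmem : insert e.T 𝒟 ∈
        (s.J.toFinset.filter (fun D => arith Y D A)).powerset.filter (sepP Y) := by
      refine mem_filter.2 ⟨mem_powerset.2 ?_, ?_⟩
      · intro x hx
        rcases mem_insert.1 hx with rfl | hx
        · exact mem_filter.2 ⟨List.mem_toFinset.2 heJ, har⟩
        · exact hD1 hx
      · intro D hD D' hD' hne hcl
        rcases mem_insert.1 hD with h | h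
        · rcases mem_insert.1 hD' with h' | h'
          · exact hne (h.trans h'.symm)
          · subst h
            refine hno D' h' ?_
            unfold close at hcl ⊢
            rwa [inter_comm]
        · rcases mem_insert.1 hD' with h' | h'
          · subst h'
            exact hno D h hcl
          · exact hD2 D h D' h' hne hcl
    have := hmax _ hmem
    rw [card_insert_of_notMem heD] at this
    omega
  have h1 := hG.ars_le s.log s.M s.B g.log A hA 𝒟 hDF hcov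
  have h2 : #𝒟 * Y.cA ≤ Y.tm * Y.cA := Nat.mul_le_mul_right _ hsm
  exact h1.trans (h2.trans hN.ham)

theorem dirty_bound (hF : FamH Y) (hN : NumH Y Q) (g : Good Y Lg s) (hΦ : Phi Y s ≤ 1 / 16)
    {A : Finset X} (hA : A ∈ Y.F) :
    #(A.filter (fun v => ∃ C ∈ s.ripe, gen Y A C ∧ v ∈ C ∧ ∃ D ∈ s.J, arith Y D C)) < Cg Y := by
  set V := A.filter (fun v => ∃ C ∈ s.ripe, gen Y A C ∧ v ∈ C ∧ ∃ D ∈ s.J, arith Y D C) with hV
  have hch : ∀ v, ∃ C D, v ∈ V → C ∈ s.ripe ∧ gen Y A C ∧ v ∈ C ∧ D ∈ s.J ∧ arith Y D C := by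
    intro v
    by_cases hv : v ∈ V
    · obtain ⟨C, hC, hg, hvC, D, hD, har⟩ := (mem_filter.1 hv).2
      exact ⟨C, D, fun _ => ⟨hC, hg, hvC, hD, har⟩⟩
    · exact ⟨∅, ∅, fun h => absurd h hv⟩
  choose Xf Yf hXY using hch
  refine closing hF hN g hΦ (E := A) (l0 := []) hA trivial (by simp) (by simp) (Or.inl rfl) V Xf Yf
    (fun v hv => ?_) (fun v hv => Or.inr ?_)
  · obtain ⟨h1, h2, h3, -, -⟩ := hXY v hv
    exact ⟨h1, h2, (mem_filter.1 hv).1, h3⟩
  · obtain ⟨h1, h2, h3, h4, h5, h6⟩ := hXY v hv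
    refine ⟨g.Jr _ h4, fun h => h5 h.symm, ?_, ?_⟩
    · obtain ⟨p, hp, hpv⟩ := exists_mem_ne (show 1 < #(Yf v ∩ Xf v) by omega) v
      rw [inter_comm] at hp
      exact ⟨p, hp, hpv⟩
    · exact h6.trans (card_le_card (inter_subset_inter_left subset_union_right))

end Pool.H33.MB2
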