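import Pool.Agent.H33.MB2.Hyp

/-!
# Basic lemmas
-/

set_option linter.unusedSectionVars false

namespace Pool.H33.MB2

open Finset
open scoped Classical

variable {X Γ : Type*} [DecidableEq X] {Y : Sys X Γ} {Q : Num2}
  {Lg : List (Entry X) → Finset X → Finset X → Prop} {s : State X}

theorem gen_symm {A C : Finset X} (h : gen Y A C) : gen Y C A :=
  ⟨h.1.symm, by rw [inter_comm]; exact h.2⟩

theorem arith_symm {A C : Finset X} (h : arith Y A C) : arith Y C A :=
  ⟨h.1.symm, by rw [inter_comm]; exact h.2⟩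

/-- Two sets of different grids with a common point are generic or arithmetic. -/
theorem gen_or_arith {A C : Finset X} (h : Y.gr A ≠ Y.gr C) {v : X} (hA : v ∈ A) (hC : v ∈ C) :
    gen Y A C ∨ arith Y A C := by
  have h1 : 0 < #(A ∩ C) := card_pos.2 ⟨v, mem_inter.2 ⟨hA, hC⟩⟩
  by_cases h2 : #(A ∩ C) = 1
  · exact Or.inl ⟨h, h2⟩
  · exact Or.inr ⟨h, by omega⟩

theorem gen_eq {A C : Finset X} (h : gen Y A C) {v w : X} (hA : v ∈ A) (hC : v ∈ C) (hA' : w ∈ A)
    (hC' : w ∈ C) : v = w :=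
  card_le_one.1 (le_of_eq h.2) v (mem_inter.2 ⟨hA, hC⟩) w (mem_inter.2 ⟨hA', hC'⟩)

theorem gen_inter {A C : Finset X} (h : gen Y A C) {v : X} (hA : v ∈ A) (hC : v ∈ C) :
    A ∩ C = {v} := by
  refine eq_singleton_iff_unique_mem.2 ⟨mem_inter.2 ⟨hA, hC⟩, fun w hw => ?_⟩
  rw [mem_inter] at hw
  exact gen_eq h hw.1 hw.2 hA hC

theorem mem_free {p : X} : p ∈ free Y s ↔ p ∈ Y.S ∧ p ∉ s.M ∧ p ∉ s.B := by
  simp [free, not_or]

theorem K_ge (hN : NumH Y Q) : 800 ≤ Y.K := by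
  have h1 := hN.δpos
  have h2 := hN.δle
  have h3 := hN.Kδ
  by_contra hc
  push Not at hc
  have h4 : Y.K * Y.δ < 800 * Y.δ := mul_lt_mul_of_pos_right hc h1
  nlinarith

theorem K_pos (hN : NumH Y Q) : 0 < Y.K := lt_of_lt_of_le (by norm_num) (K_ge hN)

theorem kb_pos (hN : NumH Y Q) (n o : ℕ) : 0 < kb Y n o := by
  have := K_pos hN
  unfold kb
  positivity

theorem kb_le (hN : NumH Y Q) (n o : ℕ) : kb Y n o ≤ Y.K ^ n := by
  have h0 := K_pos hN
  have h1 : 1 ≤ Y.K ^ o := one_le_pow₀ (by have := K_ge hN; linarith)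
  unfold kb
  exact div_le_self (by positivity) h1

theorem one_le_kb (hN : NumH Y Q) {n o : ℕ} (h : o ≤ n) : 1 ≤ kb Y n o := by
  have h0 := K_pos hN
  unfold kb
  rw [one_le_div (by positivity)]
  exact pow_le_pow_right₀ (by have := K_ge hN; linarith) h

theorem kb_succ (hN : NumH Y Q) (n o : ℕ) : kb Y n (o + 1) = kb Y n o / Y.K := by
  have h0 := K_pos hN
  unfold kb
  rw [pow_succ]
  field_simp

theorem kb_anti (hN : NumH Y Q) (n : ℕ) {o o' : ℕ} (h : o ≤ o') : kb Y n o' ≤ kb Y n o := by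
  have h0 := K_pos hN
  unfold kb
  exact div_le_div_of_nonneg_left (by positivity) (by positivity)
    (pow_le_pow_right₀ (by have := K_ge hN; linarith) h)

theorem rw_ge (hN : NumH Y Q) : 13 / 10 ≤ rw Y := by
  have h2 := hN.δle
  unfold rw
  linarith

theorem rw_le (hN : NumH Y Q) : rw Y ≤ 4 / 3 := by
  have h2 := hN.δpos
  unfold rw
  linarith

theorem rw_le_rc : rw Y ≤ rc Y := by
  unfold rw rc
  linarith

theorem rc_le (hN : NumH Y Q) : rc Y ≤ 3 / 2 := by
  have h2 := hN.δpos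
  unfold rc
  linarith

theorem b1_pos (hN : NumH Y Q) (A : Finset X) : 0 < b1 Y s A :=
  mul_pos (mul_pos hN.c1pos (kb_pos hN _ _)) (hN.a1pos _)

theorem b2_pos (hN : NumH Y Q) (A : Finset X) : 0 < b2 Y s A :=
  mul_pos (mul_pos hN.ρ2pos (kb_pos hN _ _)) (hN.a2pos _)

theorem a1_anti (hN : NumH Y Q) : Antitone Y.a1 := antitone_nat_of_succ_le hN.a1anti

theorem a2_anti (hN : NumH Y Q) : Antitone Y.a2 := antitone_nat_of_succ_le hN.a2anti

theorem a1_le_one (hN : NumH Y Q) (u : ℕ) : Y.a1 u ≤ 1 := by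
  rw [← hN.a1one 0 (Nat.zero_le _)]
  exact a1_anti hN (Nat.zero_le u)

theorem a2_le_one (hN : NumH Y Q) (u : ℕ) : Y.a2 u ≤ 1 := by
  rw [← hN.a2one 0 (Nat.zero_le _)]
  exact a2_anti hN (Nat.zero_le u)

theorem b1_le (hN : NumH Y Q) (A : Finset X) : b1 Y s A ≤ Y.c1 * Y.K ^ Y.bs := by
  have h1 := hN.c1pos
  have h2 := kb_le hN Y.bs (os Y s A)
  have h3 := a1_le_one hN (lev s A)
  have h4 := kb_pos hN Y.bs (os Y s A)
  unfold b1
  calc Y.c1 * kb Y Y.bs (os Y s A) * Y.a1 (lev s A) ≤ Y.c1 * kb Y Y.bs (os Y s A) * 1 :=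
        mul_le_mul_of_nonneg_left h3 (by positivity)
    _ ≤ Y.c1 * Y.K ^ Y.bs := by
        rw [mul_one]
        exact mul_le_mul_of_nonneg_left h2 h1.le

theorem sv_nonneg (hN : NumH Y Q) (g : Good Y Lg s) (A : Finset X) (l : X × Finset X) :
    0 ≤ sv Y s A l := by
  unfold sv
  split_ifs
  · exact g.s1n _
  · exact (b1_pos hN _).le
  · exact le_rfl

theorem ev_nonneg (hN : NumH Y Q) (g : Good Y Lg s) (E : Finset X) (e : El X) :
    0 ≤ ev Y s E e := by
  unfold ev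
  split_ifs
  · exact mul_nonneg (g.s2n _) (prod_nonneg fun l _ => g.ssn _ _)
  · exact g.s1n _
  · exact mul_nonneg (b2_pos hN _).le (prod_nonneg fun l _ => sv_nonneg hN g _ _)
  · exact (b1_pos hN _).le
  · exact le_rfl

theorem UW_pos (hN : NumH Y Q) (𝒳 : Finset (Finset X)) : 0 < UW Y s 𝒳 := by
  have h1 := rw_ge hN
  unfold UW
  refine mul_pos (prod_pos fun A _ => mul_pos (kb_pos hN _ _) (kb_pos hN _ _)) ?_
  have : 0 < rw Y := by linarith
  positivity

theorem mpW_nonneg (hN : NumH Y Q) (g : Good Y Lg s) (T : MPt X) : 0 ≤ mpW Y s T := by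
  unfold mpW
  split_ifs
  · exact mul_nonneg hN.ρpos.le (prod_nonneg fun e _ => ev_nonneg hN g _ _)
  · exact le_rfl

theorem psW_nonneg (hN : NumH Y Q) (T : PSt X) : 0 ≤ psW Y s T := by
  unfold psW
  split_ifs
  · exact mul_nonneg hN.ρPpos.le (prod_nonneg fun e _ => (b1_pos hN _).le)
  · exact le_rfl

theorem gcW_nonneg (hN : NumH Y Q) (T : GCt X) : 0 ≤ gcW Y s T := by
  have h1 := rw_ge hN
  have h2 : 0 < rw Y := by linarith
  have h3 := hN.ρGpos
  have h4 := hN.gt1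
  unfold gcW
  split_ifs
  · have := UW_pos (s := s) hN (T.2.toFinset \ s.ripe)
    positivity
  · exact le_rfl

theorem cpW_nonneg (hN : NumH Y Q) (p : Finset X × Finset X) : 0 ≤ cpW Y s p := by
  unfold cpW
  split_ifs
  · exact mul_nonneg hN.ρCpos.le (UW_pos hN _).le
  · exact le_rfl

theorem smW_nonneg (hN : NumH Y Q) (A : Finset X) : 0 ≤ smW Y s A := by
  have h1 := hN.δle
  unfold smW
  split_ifs
  · have := kb_pos hN Y.bs (os Y s A)
    have := kb_pos hN Y.am (ars Y s A)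
    have : 0 < 2 - Y.δ := by linarith
    positivity
  · have := kb_pos hN Y.bs (os Y s A)
    have : 0 < 2 - Y.δ := by linarith
    positivity
  · exact le_rfl

theorem W_nonneg (hN : NumH Y Q) (g : Good Y Lg s) (T : Big X) : 0 ≤ W Y s T := by
  rcases T with T | T | T | T
  · exact mpW_nonneg hN g T
  · exact psW_nonneg hN T
  · exact gcW_nonneg hN T
  · exact cpW_nonneg hN T

theorem phi_nonneg (hN : NumH Y Q) (g : Good Y Lg s) (p : X) : 0 ≤ phi Y s p :=
  sum_nonneg fun T _ => W_nonneg hN g T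

theorem Sm_nonneg (hN : NumH Y Q) : 0 ≤ Sm Y s := sum_nonneg fun A _ => smW_nonneg hN A

theorem sp_nonneg (hN : NumH Y Q) (p : X) : 0 ≤ sp Y s p := sum_nonneg fun A _ => smW_nonneg hN A

/-- Each big structure has weight at most the potential. -/
theorem W_le_Phi (hN : NumH Y Q) (g : Good Y Lg s) {T : Big X} (hT : T ∈ bigI Y) :
    W Y s T ≤ Phi Y s := by
  have h1 : W Y s T ≤ ∑ T ∈ bigI Y, W Y s T :=
    single_le_sum (f := fun T => W Y s T) (fun T _ => W_nonneg hN g T) hT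
  have h2 := Sm_nonneg (s := s) hN
  unfold Phi
  linarith

/-- Each joined set has weight at most the potential. -/
theorem smW_le_Phi (hN : NumH Y Q) (g : Good Y Lg s) {A : Finset X} (hA : A ∈ s.J) :
    smW Y s A ≤ Phi Y s := by
  have h1 : smW Y s A ≤ ∑ A ∈ s.J.toFinset, smW Y s A :=
    single_le_sum (f := fun A => smW Y s A) (fun T _ => smW_nonneg hN T)
    (List.mem_toFinset.2 hA)
  have h2 : 0 ≤ ∑ T ∈ bigI Y, W Y s T := sum_nonneg fun T _ => W_nonneg hN g T
  unfold Phi Sm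
  linarith

theorem mem_bigI_mp {T : MPt X} : (Sum.inl T : Big X) ∈ bigI Y ↔ T ∈ mpI Y := by
  simp [bigI]

theorem mem_bigI_ps {T : PSt X} : (Sum.inr (Sum.inl T) : Big X) ∈ bigI Y ↔ T ∈ psI Y := by
  simp [bigI]

theorem mem_bigI_gc {T : GCt X} : (Sum.inr (Sum.inr (Sum.inl T)) : Big X) ∈ bigI Y ↔ T ∈ gcI Y := by
  simp [bigI]

theorem mem_bigI_cp {T : Finset X × Finset X} :
    (Sum.inr (Sum.inr (Sum.inr T)) : Big X) ∈ bigI Y ↔ T ∈ cpI Y := by
  simp [bigI]

theorem mem_elI (hF : FamH Y) {E : Finset X} {e : El X} (h : ValidEl Y E e) : e ∈ elI Y := by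
  simp only [elI, mem_product, mem_univ, mem_powerset, true_and]
  refine ⟨⟨hF.sub _ h.hB h.hv, h.hB⟩, fun l hl => ?_⟩
  have := h.hl l hl
  exact mem_product.2 ⟨hF.sub _ this.1 this.2.2.2.1, this.1⟩

theorem mem_mpI (hF : FamH Y) {T : MPt X} : T ∈ mpI Y ↔ ValidMP Y T := by
  simp only [mpI, mem_filter, mem_product, mem_powerset]
  refine ⟨fun h => h.2, fun h => ⟨⟨h.1, fun e he => mem_elI hF (h.2.1 e he)⟩, h⟩⟩

theorem mem_psI {T : PSt X} : T ∈ psI Y ↔ T.1 ∈ Y.S ∧ T.2 ⊆ Y.F ∧ ValidPS T := by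
  simp only [psI, mem_filter, mem_product, mem_powerset, and_assoc]

theorem mem_lists {n : ℕ} {l : List (Finset X)} :
    l ∈ lists Y n ↔ l.length ≤ n ∧ ∀ A ∈ l, A ∈ Y.F := by
  induction n generalizing l with
  | zero =>
    simp only [lists, mem_singleton, Nat.le_zero, List.length_eq_zero_iff]
    constructor
    · rintro rfl
      simp
    · exact fun h => h.1
  | succ n ih =>
    simp only [lists, mem_union, mem_image, mem_product, Prod.exists, ih]
    constructor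
    · rintro (⟨h1, h2⟩ | ⟨A, l', ⟨hA, h1, h2⟩, rfl⟩)
      · exact ⟨by omega, h2⟩
      · refine ⟨by simpa using h1, ?_⟩
        simpa using ⟨hA, h2⟩
    · rintro ⟨h1, h2⟩
      rcases l with _ | ⟨A, l'⟩
      · exact Or.inl ⟨by simp, by simp⟩
      · refine Or.inr ⟨A, l', ⟨?_, ?_, ?_⟩, rfl⟩
        · exact h2 A (by simp)
        · simpa using h1
        · exact fun B hB => h2 B (by simp [hB])

theorem mem_gcI {T : GCt X} : T ∈ gcI Y ↔ T.1 ∈ Y.F ∧ (T.2.length ≤ smax Y ∧ ∀ A ∈ T.2, A ∈ Y.F) ∧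
    ValidL Y T.1 T.2 ∧ nfree Y T.1 T.2 ≤ ntight Y T.1 T.2 + 3 := by
  simp only [gcI, mem_filter, mem_product, mem_lists, and_assoc]

theorem mem_cpI {p : Finset X × Finset X} :
    p ∈ cpI Y ↔ p.1 ∈ Y.F ∧ p.2 ∈ Y.F ∧ arith Y p.1 p.2 := by
  simp only [cpI, mem_filter, mem_product, and_assoc]

theorem subset_stars (Y : Sys X Γ) (E : Finset X) (l : List (Finset X)) {A : Finset X}
    (h : A = E ∨ A ∈ l) : A ⊆ stars Y E l := by
  have h1 : star Y A ⊆ stars Y E l := by
    unfold stars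
    refine subset_biUnion_of_mem (star Y) ?_
    rcases h with rfl | h
    · exact mem_insert_self _ _
    · exact mem_insert_of_mem (List.mem_toFinset.2 h)
  exact (subset_union_left).trans h1

theorem close_subset_stars {E : Finset X} {l : List (Finset X)} {A C : Finset X}
    (h : A = E ∨ A ∈ l) (hC : C ∈ Y.F) (hc : close Y A C) : C ⊆ stars Y E l := by
  have h1 : star Y A ⊆ stars Y E l := by
    unfold stars
    refine subset_biUnion_of_mem (star Y) ?_
    rcases h with rfl | h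
    · exact mem_insert_self _ _
    · exact mem_insert_of_mem (List.mem_toFinset.2 h)
  refine Subset.trans ?_ h1
  unfold star
  refine Subset.trans ?_ subset_union_right
  exact subset_biUnion_of_mem id (mem_filter.2 ⟨hC, hc⟩ : C ∈ Y.F.filter (close Y A))

theorem stars_mono (Y : Sys X Γ) (E A : Finset X) (l : List (Finset X)) :
    stars Y E l ⊆ stars Y E (A :: l) := by
  unfold stars
  refine biUnion_subset_biUnion_of_subset_left _ (insert_subset_insert _ ?_)
  intro Z hZ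
  simp only [List.mem_toFinset, List.mem_cons] at hZ ⊢
  exact Or.inr hZ

end Pool.H33.MB2
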