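import Pool.Agent.H33.MB2.Rates

/-!
# MB2 CLSM: joined sets: claims, Breaker's points, strikes

* Claims: `#(s.box A \ s.M)` drops by the number of `p ∈ {y, z}` in `s.box A` (both unclaimed), so the weight
  grows by `(2 - δ)` for each.
* Breaker's point: `alive` only gets harder; strikes are counted in the log only.
* Strike: `A ∈ s.J` alive with `y ∈ s.box A` and `tgt s y = some T`.  `T ∈ s.J`, alive, `y ∈ s.box T`
  (`tgt_spec`), so by `g.rel` `T = A` or `gr T = gr A` or `arith T A`.  In the first two cases `os`
  increases by one (the new entry has `e.y = y ∈ A`, as `s.box A ⊆ A`), so `kb` is divided by `K`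
  (`kb_succ`), `kb` of `am` does not increase.  If `arith Y T A` (so `T ≠ A`): `T` is the last element of the
  filtered list (`getLast?`) and `A` is another element of it, so `A` stands before `T` in `s.J`, and
  `g.old` gives `s.newc A` (otherwise `¬ arith Y T A`); then `ars` increases by one and
  the factor `kb am` is divided by `K`.  If `x ∈ A` the weight becomes 0.
  (`g.old : s.J.Pairwise ..`; filter preserves `Pairwise`; for a list with `getLast? = some T` and
  `A` in it, `A ≠ T`, no duplicates, `Pairwise R` gives `R A T`: write the list as `l ++ [T]`.)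
-/

set_option linter.unusedSectionVars false

namespace Pool.H33.MB2

open Finset
open scoped Classical

variable {X Γ : Type*} [DecidableEq X] {Y : Sys X Γ} {Q : Num2}
  {Lg : List (Entry X) → Finset X → Finset X → Prop} {s : State X}

theorem clSm_card (b M : Finset X) {p : X} (hp : p ∉ M) :
    #(b \ M) = #(b \ insert p M) + (if p ∈ b then 1 else 0) := by
  split_ifs with h
  · have h1 : b \ insert p M = (b \ M).erase p := by
      ext v
      simp only [mem_sdiff, mem_insert, mem_erase, not_or]
      tauto
    have h2 : p ∈ b \ M := mem_sdiff.2 ⟨h, hp⟩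
    rw [h1, card_erase_add_one h2]
  · have h1 : b \ insert p M = b \ M := by
      ext v
      simp only [mem_sdiff, mem_insert, not_or]
      constructor
      · exact fun h' => ⟨h'.1, h'.2.2⟩
      · exact fun h' => ⟨h'.1, fun h2 => h (h2 ▸ h'.1), h'.2⟩
    rw [h1, add_zero]

theorem clSm_os (e : Entry X) (A : Finset X) : os Y s A ≤ os Y (reply s e) A := by
  show List.countP _ _ ≤ List.countP _ (_ :: _)
  rw [List.countP_cons]
  exact Nat.le_add_right _ _

theorem clSm_ars (e : Entry X) (A : Finset X) : ars Y s A ≤ ars Y (reply s e) A := by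
  show List.countP _ _ ≤ List.countP _ (_ :: _)
  rw [List.countP_cons]
  exact Nat.le_add_right _ _

theorem cl_sm (hN : NumH Y Q) {y z : X} (hyz : y ≠ z) (hy : y ∈ free Y s) (hz : z ∈ free Y s)
    (A : Finset X) : smW Y (afterM s y z) A ≤
      (if y ∈ s.box A then 2 - Y.δ else 1) * (if z ∈ s.box A then 2 - Y.δ else 1) * smW Y s A := by
  have hyM : y ∉ s.M := (mem_free.1 hy).2.1
  have hzM : z ∉ s.M := (mem_free.1 hz).2.1
  have hd : 0 < 2 - Y.δ := by have := hN.δle; linarith
  have h1 : #(s.box A \ s.M) = #(s.box A \ insert y (insert z s.M)) +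
      (if y ∈ s.box A then 1 else 0) + (if z ∈ s.box A then 1 else 0) := by
    rw [clSm_card (s.box A) s.M hzM, clSm_card (s.box A) (insert z s.M)
      (by rw [mem_insert, not_or]; exact ⟨hyz, hyM⟩)]
  have e1 : smW Y (afterM s y z) A = if alive s A then kb Y Y.bs (os Y s A) *
      (if s.newc A then kb Y Y.am (ars Y s A) else 1) /
        (2 - Y.δ) ^ #(s.box A \ insert y (insert z s.M)) else 0 := rfl
  have e2 : smW Y s A = if alive s A then kb Y Y.bs (os Y s A) *
      (if s.newc A then kb Y Y.am (ars Y s A) else 1) /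
        (2 - Y.δ) ^ #(s.box A \ s.M) else 0 := rfl
  rw [e1, e2]
  by_cases ha : alive s A
  · rw [if_pos ha, if_pos ha, h1]
    apply le_of_eq
    rw [pow_add, pow_add]
    have hne : (2 - Y.δ) ≠ 0 := hd.ne'
    split_ifs <;> field_simp
  · rw [if_neg ha, if_neg ha, mul_zero]

theorem smW_addB (hN : NumH Y Q) (x : X) (A : Finset X) : smW Y (addB s x) A ≤ smW Y s A := by
  by_cases ha : alive (addB s x) A
  · have ha' : alive s A := Disjoint.mono_right (subset_insert x s.B) ha
    have e1 : smW Y (addB s x) A = if alive (addB s x) A then kb Y Y.bs (os Y s A) *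
      (if s.newc A then kb Y Y.am (ars Y s A) else 1) /
        (2 - Y.δ) ^ #(s.box A \ s.M) else 0 := rfl
    have e2 : smW Y s A = if alive s A then kb Y Y.bs (os Y s A) *
      (if s.newc A then kb Y Y.am (ars Y s A) else 1) /
        (2 - Y.δ) ^ #(s.box A \ s.M) else 0 := rfl
    rw [e1, e2, if_pos ha, if_pos ha']
  · have e1 : smW Y (addB s x) A = 0 := by
      unfold smW
      rw [if_neg ha]
    rw [e1]
    exact smW_nonneg hN A

theorem smW_reply (hN : NumH Y Q) (e : Entry X) (A : Finset X) :
    smW Y (reply s e) A ≤ smW Y (addB s e.x) A := by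
  have e1 : smW Y (reply s e) A = if alive (addB s e.x) A then kb Y Y.bs (os Y (reply s e) A) *
      (if s.newc A then kb Y Y.am (ars Y (reply s e) A) else 1) /
        (2 - Y.δ) ^ #(s.box A \ s.M) else 0 := rfl
  have e2 : smW Y (addB s e.x) A = if alive (addB s e.x) A then kb Y Y.bs (os Y s A) *
      (if s.newc A then kb Y Y.am (ars Y s A) else 1) /
        (2 - Y.δ) ^ #(s.box A \ s.M) else 0 := rfl
  rw [e1, e2]
  by_cases ha : alive (addB s e.x) A
  · rw [if_pos ha, if_pos ha]
    have hd : 0 < 2 - Y.δ := by have := hN.δle; linarith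
    refine div_le_div_of_nonneg_right ?_ (by positivity)
    refine mul_le_mul (kb_anti hN _ (clSm_os e A)) ?_ ?_ (kb_pos hN _ _).le
    · split_ifs
      · exact kb_anti hN _ (clSm_ars e A)
      · exact le_rfl
    · split_ifs
      · exact (kb_pos hN _ _).le
      · exact zero_le_one
  · rw [if_neg ha, if_neg ha]

theorem st_sm (hN : NumH Y Q) (g : Good Y Lg s) {y z : X} (hy : y ∈ free Y s)
    (hz : z ∈ free Y s) {T : Finset X} (ht : tgt s y = some T) (x : X) {A : Finset X}
    (hA : A ∈ s.J) (hyA : y ∈ s.box A) :
    smW Y (reply (afterM s y z) ⟨y, T, x⟩) A ≤ smW Y (afterM s y z) A / Y.K := by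
  have hK := K_pos hN
  by_cases ha : alive (reply (afterM s y z) ⟨y, T, x⟩) A
  · have ha' : alive (afterM s y z) A := Disjoint.mono_right (subset_insert x s.B) ha
    have hyA' : y ∈ A := (g.bx A hA).1 hyA
    obtain ⟨hTJ, hTa, hyT⟩ := tgt_spec ht
    have hd : 0 < 2 - Y.δ := by have := hN.δle; linarith
    set s' := afterM s y z with hs'
    have e1 : smW Y (reply s' ⟨y, T, x⟩) A =
        kb Y Y.bs (os Y (reply s' ⟨y, T, x⟩) A) *
          (if s'.newc A then kb Y Y.am (ars Y (reply s' ⟨y, T, x⟩) A) else 1) /
        (2 - Y.δ) ^ #(s'.box A \ s'.M) := by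
      unfold smW
      rw [if_pos ha]
      rfl
    have e2 : smW Y s' A = kb Y Y.bs (os Y s' A) *
        (if s'.newc A then kb Y Y.am (ars Y s' A) else 1) /
        (2 - Y.δ) ^ #(s'.box A \ s'.M) := by
      unfold smW
      rw [if_pos ha']
    rw [e1, e2, div_right_comm]
    refine div_le_div_of_nonneg_right ?_ (by positivity)
    have hos : os Y s' A ≤ os Y (reply s' ⟨y, T, x⟩) A := clSm_os _ A
    have hars : ars Y s' A ≤ ars Y (reply s' ⟨y, T, x⟩) A := clSm_ars _ A
    have hk1 := kb_pos hN Y.bs (os Y s' A)
    have hk2 := kb_pos hN Y.am (ars Y s' A)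
    by_cases hgr : Y.gr T = Y.gr A
    · have h1 : os Y (reply s' ⟨y, T, x⟩) A = os Y s' A + 1 := by
        show List.countP _ (_ :: _) = _
        rw [List.countP_cons_of_pos]
        · rfl
        · simpa using ⟨hyA', hgr⟩
      rw [h1, kb_succ hN, mul_div_right_comm]
      refine mul_le_mul_of_nonneg_left ?_ (by positivity)
      split_ifs
      · exact kb_anti hN _ hars
      · exact le_rfl
    · have har : arith Y T A := by
        rcases g.rel T hTJ A hA y hyT hyA with h | h | h
        · rw [h] at hgr
          exact absurd rfl hgr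
        · exact absurd h hgr
        · exact h
      have hnew : s.newc A := by
        by_contra hn
        have hl : (s.J.filter (fun A => decide (alive s A ∧ y ∈ s.box A))).getLast? = some T := ht
        have hpw := g.old.filter (fun A => decide (alive s A ∧ y ∈ s.box A))
        have hAmem : A ∈ s.J.filter (fun A => decide (alive s A ∧ y ∈ s.box A)) := by
          rw [List.mem_filter]
          exact ⟨hA, by simpa using ⟨ha', hyA⟩⟩
        obtain ⟨l', hl'⟩ := List.getLast?_eq_some_iff.1 hl
        rw [hl'] at hpw hAmem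
        rw [List.pairwise_append] at hpw
        rw [List.mem_append, List.mem_singleton] at hAmem
        rcases hAmem with h | h
        · exact hpw.2.2 A h T (List.mem_singleton.2 rfl) hn hTa har
        · rw [h] at hgr
          exact hgr rfl
      have hnew' : s'.newc A := hnew
      have h1 : ars Y (reply s' ⟨y, T, x⟩) A = ars Y s' A + 1 := by
        show List.countP _ (_ :: _) = _
        rw [List.countP_cons_of_pos]
        · rfl
        · simpa using ⟨hyA', har⟩
      rw [if_pos hnew', if_pos hnew', h1, kb_succ hN, mul_div_assoc]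
      exact mul_le_mul_of_nonneg_right (kb_anti hN _ hos) (by positivity)
  · have e1 : smW Y (reply (afterM s y z) ⟨y, T, x⟩) A = 0 := by
      unfold smW
      rw [if_neg ha]
    rw [e1]
    exact div_nonneg (smW_nonneg hN A) hK.le

end Pool.H33.MB2
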