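import Pool.Agent.H33.MB2.Rates

/-!
# MB2 CLUW: Maker's claims and collections (macro tuples and arithmetic pairs)

`s1 = afterM s y z`.  The strikes do not change.  `ulev s 𝒳` counts the points of the union of `𝒳` which
are not progress.  If `p ∈ {y, z}` is active for some member of `𝒳` (`∃ A ∈ 𝒳, actN s A p`) then `p` is no
progress before and progress after the claim, otherwise `p` is no progress after the claim; so
`ulev s 𝒳 = ulev s1 𝒳 + #{p ∈ {y, z} : ∃ A ∈ 𝒳, actN s A p}` and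
`(rw⁻¹) ^ (ulev s1 𝒳 - n)  ≤ rw ^ #{...} * (rw⁻¹) ^ (ulev s 𝒳 - n)` (truncated subtraction, `rw ≥ 1`).
For macro tuples the collection is `T.2.toFinset \ s.ripe`, and `ripe`, `alive` do not change, so the
activity condition is exactly `act`; `cact` is false (`not_cact_gc`, `not_cact_cp`).
`mono_*`: `ulev` does not increase.
-/

set_option linter.unusedSectionVars false

namespace Pool.H33.MB2

open Finset
open scoped Classical

variable {X Γ : Type*} [DecidableEq X] {Y : Sys X Γ} {Q : Num2}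
  {Lg : List (Entry X) → Finset X → Finset X → Prop} {s : State X}

/-- The state with Maker's set replaced by `M'` (for `ClUw`). -/
def msetU (s : State X) (M' : Finset X) : State X := { s with M := M' }

theorem ulev_msetU_le (s : State X) {M' : Finset X} (hM : s.M ⊆ M') (𝒳 : Finset (Finset X)) :
    ulev (msetU s M') 𝒳 ≤ ulev s 𝒳 := by
  unfold ulev
  refine card_le_card fun v hv => ?_
  rw [mem_filter] at hv ⊢
  exact ⟨hv.1, fun h => hv.2 ⟨hM h.1, h.2⟩⟩

theorem ulev_claim (s : State X) {p : X} (hp : p ∉ s.M) (𝒳 : Finset (Finset X)) :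
    ulev s 𝒳 = ulev (msetU s (insert p s.M)) 𝒳 + if ∃ A ∈ 𝒳, actN s A p then 1 else 0 := by
  unfold ulev
  split_ifs with ha
  · obtain ⟨A, hA, hpA, hl⟩ := ha
    have h2 : (𝒳.biUnion id).filter (fun v => ¬ prog s 𝒳 v) =
        insert p ((𝒳.biUnion id).filter fun v => ¬ prog (msetU s (insert p s.M)) 𝒳 v) := by
      ext v
      rw [mem_insert, mem_filter, mem_filter]
      constructor
      · rintro ⟨h3, h4⟩
        by_cases h5 : v = p
        · exact Or.inl h5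
        · refine Or.inr ⟨h3, fun h6 => h4 ⟨?_, h6.2⟩⟩
          exact (mem_insert.1 h6.1).resolve_left h5
      · rintro (rfl | ⟨h3, h4⟩)
        · exact ⟨mem_biUnion.2 ⟨A, hA, hpA⟩, fun h => hp h.1⟩
        · exact ⟨h3, fun h => h4 ⟨mem_insert_of_mem h.1, h.2⟩⟩
    rw [h2, card_insert_of_notMem]
    intro h3
    rw [mem_filter] at h3
    exact h3.2 ⟨mem_insert_self _ _, A, hA, hpA, hl⟩
  · rw [add_zero]
    congr 1
    ext v
    rw [mem_filter, mem_filter]
    constructor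
    · rintro ⟨h3, h4⟩
      refine ⟨h3, fun h6 => ?_⟩
      rcases mem_insert.1 h6.1 with h7 | h7
      · subst h7
        obtain ⟨A, hA, h8, h9⟩ := h6.2
        exact ha ⟨A, hA, h8, h9⟩
      · exact h4 ⟨h7, h6.2⟩
    · rintro ⟨h3, h4⟩
      exact ⟨h3, fun h => h4 ⟨mem_insert_of_mem h.1, h.2⟩⟩

theorem UW_msetU (hN : NumH Y Q) {M' : Finset X} (hM : s.M ⊆ M') (𝒳 : Finset (Finset X)) :
    UW Y s 𝒳 ≤ UW Y (msetU s M') 𝒳 := by
  have hrw := rw_ge hN
  have h0 : (0 : ℝ) < ∏ A ∈ 𝒳, kb Y Y.bs (os Y s A) * kb Y Y.am (ars Y s A) :=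
    prod_pos fun A _ => mul_pos (kb_pos hN _ _) (kb_pos hN _ _)
  unfold UW
  refine mul_le_mul_of_nonneg_left ?_ h0.le
  refine pow_le_pow_of_le_one (inv_nonneg.2 (by linarith)) (inv_le_one_of_one_le₀ (by linarith)) ?_
  have := ulev_msetU_le s hM 𝒳
  omega

theorem UW_claim (hN : NumH Y Q) {p : X} (hp : p ∉ s.M) (𝒳 : Finset (Finset X)) :
    UW Y (msetU s (insert p s.M)) 𝒳 ≤
      (if ∃ A ∈ 𝒳, actN s A p then rw Y else 1) * UW Y s 𝒳 := by
  have hrw := rw_ge hN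
  have hrw0 : 0 < rw Y := by linarith
  have h0 : (0 : ℝ) < ∏ A ∈ 𝒳, kb Y Y.bs (os Y s A) * kb Y Y.am (ars Y s A) :=
    prod_pos fun A _ => mul_pos (kb_pos hN _ _) (kb_pos hN _ _)
  have h1 := ulev_claim s hp 𝒳
  have h2 : UW Y (msetU s (insert p s.M)) 𝒳 =
      (∏ A ∈ 𝒳, kb Y Y.bs (os Y s A) * kb Y Y.am (ars Y s A)) *
        (rw Y)⁻¹ ^ (ulev (msetU s (insert p s.M)) 𝒳 - #𝒳 * Y.jb) := rfl
  have h3 : UW Y s 𝒳 = (∏ A ∈ 𝒳, kb Y Y.bs (os Y s A) * kb Y Y.am (ars Y s A)) *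
        (rw Y)⁻¹ ^ (ulev s 𝒳 - #𝒳 * Y.jb) := rfl
  rw [h2, h3]
  split_ifs at h1 ⊢ with h4
  · have h5 : (rw Y)⁻¹ ^ (ulev (msetU s (insert p s.M)) 𝒳 - #𝒳 * Y.jb) ≤
        rw Y * (rw Y)⁻¹ ^ (ulev s 𝒳 - #𝒳 * Y.jb) := by
      rw [h1]
      rcases Nat.lt_or_ge (ulev (msetU s (insert p s.M)) 𝒳) (#𝒳 * Y.jb) with h6 | h6
      · have h7 : ulev (msetU s (insert p s.M)) 𝒳 - #𝒳 * Y.jb = 0 := by omega
        have h8 : ulev (msetU s (insert p s.M)) 𝒳 + 1 - #𝒳 * Y.jb = 0 := by omega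
        rw [h7, h8, pow_zero, mul_one]
        linarith
      · have h8 : ulev (msetU s (insert p s.M)) 𝒳 + 1 - #𝒳 * Y.jb =
            (ulev (msetU s (insert p s.M)) 𝒳 - #𝒳 * Y.jb) + 1 := by omega
        rw [h8, pow_succ, mul_comm (_ ^ _), ← mul_assoc, mul_inv_cancel₀ hrw0.ne', one_mul]
    have h6 := mul_le_mul_of_nonneg_left h5 h0.le
    linarith
  · rw [one_mul, h1, add_zero]

theorem rf_gc (p : X) (T : GCt X) : rf Y s p (.inr (.inr (.inl T))) =
    if ∃ A ∈ T.2.toFinset \ s.ripe, actN s A p then rw Y else 1 := by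
  have h1 : act Y s p (.inr (.inr (.inl T))) ↔ ∃ A ∈ T.2.toFinset \ s.ripe, actN s A p := by
    constructor
    · rintro ⟨⟨A, hA, hr, h⟩, -⟩
      exact ⟨A, mem_sdiff.2 ⟨List.mem_toFinset.2 hA, hr⟩, h⟩
    · rintro ⟨A, hA, h⟩
      rw [mem_sdiff, List.mem_toFinset] at hA
      exact ⟨⟨A, hA.1, hA.2, h⟩, trivial⟩
  unfold rf
  rw [if_neg not_cact_gc]
  by_cases h2 : act Y s p (.inr (.inr (.inl T)))
  · rw [if_pos h2, if_pos (h1.1 h2)]
  · rw [if_neg h2, if_neg (fun h => h2 (h1.2 h))]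

theorem rf_cp (p : X) (T : Finset X × Finset X) : rf Y s p (.inr (.inr (.inr T))) =
    if ∃ A ∈ ({T.1, T.2} : Finset (Finset X)), actN s A p then rw Y else 1 := by
  have h1 : act Y s p (.inr (.inr (.inr T))) ↔
      ∃ A ∈ ({T.1, T.2} : Finset (Finset X)), actN s A p := by
    constructor
    · rintro ⟨h, -⟩
      exact h
    · intro h
      exact ⟨h, trivial⟩
  unfold rf
  rw [if_neg not_cact_cp]
  by_cases h2 : act Y s p (.inr (.inr (.inr T)))
  · rw [if_pos h2, if_pos (h1.1 h2)]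
  · rw [if_neg h2, if_neg (fun h => h2 (h1.2 h))]

/-- Growth of the weight of a collection. -/
theorem cl_UW (hN : NumH Y Q) {y z : X} (hyz : y ≠ z) (hy : y ∈ free Y s) (hz : z ∈ free Y s)
    (𝒳 : Finset (Finset X)) : UW Y (afterM s y z) 𝒳 ≤
      (if ∃ A ∈ 𝒳, actN s A y then rw Y else 1) * (if ∃ A ∈ 𝒳, actN s A z then rw Y else 1) *
        UW Y s 𝒳 := by
  have hyM : y ∉ s.M := (mem_free.1 hy).2.1
  have hzM : z ∉ s.M := (mem_free.1 hz).2.1
  have hyM' : y ∉ (msetU s (insert z s.M)).M := by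
    simp only [msetU, mem_insert, not_or]
    exact ⟨hyz, hyM⟩
  have h1 := UW_claim (s := msetU s (insert z s.M)) hN hyM' 𝒳
  have h2 := UW_claim (s := s) hN hzM 𝒳
  have hrw := rw_ge hN
  have h4 : 0 ≤ (if ∃ A ∈ 𝒳, actN s A y then rw Y else 1) := by
    split_ifs <;> linarith
  calc UW Y (afterM s y z) 𝒳 = UW Y (msetU (msetU s (insert z s.M))
        (insert y (msetU s (insert z s.M)).M)) 𝒳 := rfl
    _ ≤ (if ∃ A ∈ 𝒳, actN s A y then rw Y else 1) * UW Y (msetU s (insert z s.M)) 𝒳 := h1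
    _ ≤ (if ∃ A ∈ 𝒳, actN s A y then rw Y else 1) *
        ((if ∃ A ∈ 𝒳, actN s A z then rw Y else 1) * UW Y s 𝒳) :=
        mul_le_mul_of_nonneg_left h2 h4
    _ = _ := by ring

theorem UW_mono (hN : NumH Y Q) (y z : X) (𝒳 : Finset (Finset X)) :
    UW Y s 𝒳 ≤ UW Y (afterM s y z) 𝒳 := by
  exact UW_msetU hN (M' := insert y (insert z s.M))
    ((subset_insert _ _).trans (subset_insert _ _)) 𝒳

theorem cl_gc (hN : NumH Y Q) {y z : X} (hyz : y ≠ z) (hy : y ∈ free Y s)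
    (hz : z ∈ free Y s) (T : GCt X) :
    gcW Y (afterM s y z) T ≤
      rf Y s y (.inr (.inr (.inl T))) * rf Y s z (.inr (.inr (.inl T))) * gcW Y s T := by
  rw [rf_gc, rf_gc]
  have hrw := rw_ge hN
  have h3 := hN.ρGpos
  have h4 := hN.gt1
  by_cases h : ∀ A ∈ T.2, A ∈ s.ripe ∨ alive s A
  · have h1 : gcW Y (afterM s y z) T = Y.ρG * Y.gt ^ ntight Y T.1 T.2 *
        (rw Y)⁻¹ ^ (Y.H1 * #(T.2.toFinset ∩ s.ripe)) *
        UW Y (afterM s y z) (T.2.toFinset \ s.ripe) := by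
      unfold gcW
      exact if_pos h
    have h2 : gcW Y s T = Y.ρG * Y.gt ^ ntight Y T.1 T.2 *
        (rw Y)⁻¹ ^ (Y.H1 * #(T.2.toFinset ∩ s.ripe)) * UW Y s (T.2.toFinset \ s.ripe) := by
      unfold gcW
      exact if_pos h
    rw [h1, h2]
    have h5 := cl_UW (s := s) hN hyz hy hz (T.2.toFinset \ s.ripe)
    have h6 : 0 ≤ Y.ρG * Y.gt ^ ntight Y T.1 T.2 *
        (rw Y)⁻¹ ^ (Y.H1 * #(T.2.toFinset ∩ s.ripe)) := by
      have : 0 < rw Y := by linarith
      positivity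
    have h7 := mul_le_mul_of_nonneg_left h5 h6
    refine h7.trans (le_of_eq ?_)
    ring
  · have h1 : gcW Y (afterM s y z) T = 0 := by
      unfold gcW
      exact if_neg h
    rw [h1]
    have h5 := gcW_nonneg (s := s) hN T
    refine mul_nonneg (mul_nonneg ?_ ?_) h5
    · split_ifs <;> linarith
    · split_ifs <;> linarith

theorem mono_gc (hN : NumH Y Q) (y z : X) (T : GCt X) : gcW Y s T ≤ gcW Y (afterM s y z) T := by
  have hrw := rw_ge hN
  have h3 := hN.ρGpos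
  have h4 := hN.gt1
  by_cases h : ∀ A ∈ T.2, A ∈ s.ripe ∨ alive s A
  · have h1 : gcW Y (afterM s y z) T = Y.ρG * Y.gt ^ ntight Y T.1 T.2 *
        (rw Y)⁻¹ ^ (Y.H1 * #(T.2.toFinset ∩ s.ripe)) *
        UW Y (afterM s y z) (T.2.toFinset \ s.ripe) := by
      unfold gcW
      exact if_pos h
    have h2 : gcW Y s T = Y.ρG * Y.gt ^ ntight Y T.1 T.2 *
        (rw Y)⁻¹ ^ (Y.H1 * #(T.2.toFinset ∩ s.ripe)) * UW Y s (T.2.toFinset \ s.ripe) := by
      unfold gcW
      exact if_pos h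
    rw [h1, h2]
    have h5 := UW_mono (s := s) hN y z (T.2.toFinset \ s.ripe)
    have h6 : 0 ≤ Y.ρG * Y.gt ^ ntight Y T.1 T.2 *
        (rw Y)⁻¹ ^ (Y.H1 * #(T.2.toFinset ∩ s.ripe)) := by
      have : 0 < rw Y := by linarith
      positivity
    exact mul_le_mul_of_nonneg_left h5 h6
  · have h1 : gcW Y s T = 0 := by
      unfold gcW
      exact if_neg h
    rw [h1]
    exact gcW_nonneg hN T

theorem act_gc (y z : X) {T : GCt X} {p : X} :
    act Y (afterM s y z) p (.inr (.inr (.inl T))) ↔ act Y s p (.inr (.inr (.inl T))) := by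
  exact Iff.rfl

theorem cl_cp (hN : NumH Y Q) {y z : X} (hyz : y ≠ z) (hy : y ∈ free Y s)
    (hz : z ∈ free Y s) (T : Finset X × Finset X) :
    cpW Y (afterM s y z) T ≤
      rf Y s y (.inr (.inr (.inr T))) * rf Y s z (.inr (.inr (.inr T))) * cpW Y s T := by
  rw [rf_cp, rf_cp]
  have hrw := rw_ge hN
  have h3 := hN.ρCpos
  by_cases h : alive s T.1 ∧ alive s T.2 ∧ ¬ (T.1 ∈ s.J ∧ T.2 ∈ s.J)
  · have h1 : cpW Y (afterM s y z) T = Y.ρC * UW Y (afterM s y z) {T.1, T.2} := by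
      unfold cpW
      exact if_pos h
    have h2 : cpW Y s T = Y.ρC * UW Y s {T.1, T.2} := by
      unfold cpW
      exact if_pos h
    rw [h1, h2]
    have h5 := cl_UW (s := s) hN hyz hy hz {T.1, T.2}
    have h7 := mul_le_mul_of_nonneg_left h5 h3.le
    refine h7.trans (le_of_eq ?_)
    ring
  · have h1 : cpW Y (afterM s y z) T = 0 := by
      unfold cpW
      exact if_neg h
    rw [h1]
    have h5 := cpW_nonneg (s := s) hN T
    refine mul_nonneg (mul_nonneg ?_ ?_) h5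
    · split_ifs <;> linarith
    · split_ifs <;> linarith

theorem mono_cp (hN : NumH Y Q) (y z : X) (T : Finset X × Finset X) :
    cpW Y s T ≤ cpW Y (afterM s y z) T := by
  have h3 := hN.ρCpos
  by_cases h : alive s T.1 ∧ alive s T.2 ∧ ¬ (T.1 ∈ s.J ∧ T.2 ∈ s.J)
  · have h1 : cpW Y (afterM s y z) T = Y.ρC * UW Y (afterM s y z) {T.1, T.2} := by
      unfold cpW
      exact if_pos h
    have h2 : cpW Y s T = Y.ρC * UW Y s {T.1, T.2} := by
      unfold cpW
      exact if_pos h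
    rw [h1, h2]
    exact mul_le_mul_of_nonneg_left (UW_mono (s := s) hN y z {T.1, T.2}) h3.le
  · have h1 : cpW Y s T = 0 := by
      unfold cpW
      exact if_neg h
    rw [h1]
    exact cpW_nonneg hN T

theorem act_cp (y z : X) {T : Finset X × Finset X} {p : X} :
    act Y (afterM s y z) p (.inr (.inr (.inr T))) ↔ act Y s p (.inr (.inr (.inr T))) := by
  exact Iff.rfl

end Pool.H33.MB2
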