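import Pool.Agent.H33.MB2.Rates

/-!
# MB2 KIMP: Breaker's points and strikes: micro tuples and stars

`addB s x` changes only `B`; `reply s e` changes `B` and the log.
* `addB`: `lev`, `os`, `lb`, `J`, `clean`, the frozen values are unchanged; `alive` and `att` get harder.  So all
  values `sv`, `ev` do not increase.  If the structure is active at `x` (`act Y s x`), the set `C` through `x`
  (`e.1.2` or the leaf set) is no longer alive, so `att` fails; the first branch of `ev` / `sv` is excluded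
  because `att Y s ..` gives `s.lb .. = none`; hence the value of the element is 0 (a leaf exists only for
  type 2 elements by `ValidEl.h1`, so the product over the leaves is there).  If `x ∈ T.1` the root is dead.
* `reply`: strikes only increase, so `b1`, `b2` do not increase (`kb_anti`); nothing else changes
  compared with `addB s e.x`.
* `st_mp`: let `s1 = afterM s y z`, `tgt s y = some A` (`tgt_spec`: `A ∈ s.J`, `alive s A`, `y ∈ s.box A`) and
  let the element `e` be attached in `s` (root `E = T.1`) and `y` active for `C` (`C = e.1.2` or `C = l.2`).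
  `C ∉ s.J`, `clean Y s C`, `s.lb C y = none`, so `rel_unj` gives `gr A = gr C`.  After the reply either `x ∈ C` and
  the value is 0, or `os` of `C` has increased by one and `b1`/`b2` of `C` is divided by `K` (`kb_succ`).
  All other factors do not increase (`reply` against `s1`).  If in `s1` the element is not attached any more its value
  in `s1` is 0 (the frozen branch is impossible) and so is the value after the reply.
-/

set_option linter.unusedSectionVars false

namespace Pool.H33.MB2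

open Finset
open scoped Classical

variable {X Γ : Type*} [DecidableEq X] {Y : Sys X Γ} {Q : Num2}
  {Lg : List (Entry X) → Finset X → Finset X → Prop} {s : State X}

/-- `s'` differs from `s` by more points of Breaker and more strikes. -/
private structure LeS (Y : Sys X Γ) (s s' : State X) : Prop where
  M : s'.M = s.M
  J : s'.J = s.J
  lb : s'.lb = s.lb
  s1 : s'.s1 = s.s1
  s2 : s'.s2 = s.s2
  ss : s'.ss = s.ss
  B : s.B ⊆ s'.B
  os : ∀ A, os Y s A ≤ os Y s' A

/-- The frozen values are nonnegative. -/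
private structure Nn (s : State X) : Prop where
  s1 : ∀ A, 0 ≤ s.s1 A
  s2 : ∀ A, 0 ≤ s.s2 A
  ss : ∀ A l, 0 ≤ s.ss A l

private theorem nn_of_good (g : Good Y Lg s) : Nn s := ⟨g.s1n, g.s2n, g.ssn⟩

private theorem LeS.nn {s s' : State X} (h : LeS Y s s') (n : Nn s) : Nn s' :=
  ⟨fun A => by rw [h.s1]; exact n.s1 A, fun A => by rw [h.s2]; exact n.s2 A,
    fun A l => by rw [h.ss]; exact n.ss A l⟩

private theorem leS_addB (s : State X) (x : X) : LeS Y s (addB s x) :=
  ⟨rfl, rfl, rfl, rfl, rfl, rfl, subset_insert _ _, fun _ => le_rfl⟩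

private theorem leS_reply (s : State X) (e : Entry X) : LeS Y (addB s e.x) (reply s e) :=
  ⟨rfl, rfl, rfl, rfl, rfl, rfl, Subset.refl _, fun A => by
    unfold Pool.H33.MB2.os
    exact (List.sublist_cons_self e s.log).countP_le⟩

private theorem LeS.trans {s s' s'' : State X} (h : LeS Y s s') (h' : LeS Y s' s'') :
    LeS Y s s'' :=
  ⟨h'.M.trans h.M, h'.J.trans h.J, h'.lb.trans h.lb, h'.s1.trans h.s1, h'.s2.trans h.s2,
    h'.ss.trans h.ss, h.B.trans h'.B, fun A => (h.os A).trans (h'.os A)⟩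

private theorem LeS.alive {s s' : State X} (h : LeS Y s s') {A : Finset X} (ha : alive s' A) :
    Pool.H33.MB2.alive s A := Disjoint.mono_right h.B ha

private theorem LeS.lev {s s' : State X} (h : LeS Y s s') (A : Finset X) : lev s' A = lev s A := by
  unfold Pool.H33.MB2.lev
  rw [h.M, h.lb]

private theorem LeS.b1 (hN : NumH Y Q) {s s' : State X} (h : LeS Y s s') (A : Finset X) :
    b1 Y s' A ≤ b1 Y s A := by
  unfold Pool.H33.MB2.b1
  rw [h.lev]
  have h1 := hN.c1pos
  have h2 := hN.a1pos (Pool.H33.MB2.lev s A)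
  have h3 := kb_anti hN Y.bs (h.os A)
  exact mul_le_mul_of_nonneg_right (mul_le_mul_of_nonneg_left h3 h1.le) h2.le

private theorem LeS.b2 (hN : NumH Y Q) {s s' : State X} (h : LeS Y s s') (A : Finset X) :
    b2 Y s' A ≤ b2 Y s A := by
  unfold Pool.H33.MB2.b2
  rw [h.lev]
  have h1 := hN.ρ2pos
  have h2 := hN.a2pos (Pool.H33.MB2.lev s A)
  have h3 := kb_anti hN Y.bs (h.os A)
  exact mul_le_mul_of_nonneg_right (mul_le_mul_of_nonneg_left h3 h1.le) h2.le

private theorem LeS.att {s s' : State X} (h : LeS Y s s') {A C : Finset X} {v : X}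
    (ha : att Y s' A C v) : Pool.H33.MB2.att Y s A C v := by
  obtain ⟨h1, h2, h3, h4, h5, h6, h7⟩ := ha
  rw [h.M] at h1
  rw [h.lb] at h3 h4
  rw [h.J] at h6
  refine ⟨h1, fun h' => h2 (h.B h'), h3, h4, h.alive h5, h6, ?_⟩
  unfold clean at h7 ⊢
  rwa [h.J] at h7

private theorem sv_nn (hN : NumH Y Q) {s : State X} (n : Nn s) (A : Finset X) (l : X × Finset X) :
    0 ≤ sv Y s A l := by
  unfold sv
  split_ifs
  · exact n.s1 _
  · exact (b1_pos hN _).le
  · exact le_rfl

private theorem ev_nn (hN : NumH Y Q) {s : State X} (n : Nn s) (E : Finset X) (e : El X) :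
    0 ≤ ev Y s E e := by
  unfold ev
  split_ifs
  · exact mul_nonneg (n.s2 _) (prod_nonneg fun l _ => n.ss _ _)
  · exact n.s1 _
  · exact mul_nonneg (b2_pos hN _).le (prod_nonneg fun l _ => sv_nn hN n _ _)
  · exact (b1_pos hN _).le
  · exact le_rfl

private theorem mpW_nn (hN : NumH Y Q) {s : State X} (n : Nn s) (T : MPt X) : 0 ≤ mpW Y s T := by
  unfold mpW
  split_ifs
  · exact mul_nonneg hN.ρpos.le (prod_nonneg fun e _ => ev_nn hN n _ _)
  · exact le_rfl

private theorem LeS.sv (hN : NumH Y Q) {s s' : State X} (h : LeS Y s s') (n : Nn s)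
    (A : Finset X) (l : X × Finset X) : sv Y s' A l ≤ Pool.H33.MB2.sv Y s A l := by
  have h0 := sv_nn hN n A l
  unfold Pool.H33.MB2.sv at h0 ⊢
  rw [h.lb, h.s1]
  by_cases h1 : s.lb A l.1 = some l.2
  · rw [if_pos h1, if_pos h1]
  · rw [if_neg h1, if_neg h1]
    rw [if_neg h1] at h0
    by_cases h2 : Pool.H33.MB2.att Y s' A l.2 l.1
    · rw [if_pos h2, if_pos (h.att h2)]
      exact h.b1 hN _
    · rw [if_neg h2]
      exact h0

private theorem LeS.ev (hN : NumH Y Q) {s s' : State X} (h : LeS Y s s') (n : Nn s)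
    (E : Finset X) (e : El X) : ev Y s' E e ≤ Pool.H33.MB2.ev Y s E e := by
  have h0 := ev_nn hN n E e
  unfold Pool.H33.MB2.ev at h0 ⊢
  rw [h.lb, h.s1, h.s2, h.ss]
  by_cases h1 : s.lb E e.1.1 = some e.1.2
  · rw [if_pos h1, if_pos h1]
  · rw [if_neg h1, if_neg h1]
    rw [if_neg h1] at h0
    by_cases h2 : Pool.H33.MB2.att Y s' E e.1.2 e.1.1
    · rw [if_pos h2, if_pos (h.att h2)]
      by_cases h3 : e.2.1 = true
      · rw [if_pos h3, if_pos h3]
        refine mul_le_mul (h.b2 hN _) ?_ (prod_nonneg fun l _ => sv_nn hN (h.nn n) _ _)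
          (b2_pos hN _).le
        exact prod_le_prod (fun l _ => sv_nn hN (h.nn n) _ _) fun l _ => h.sv hN n _ _
      · rw [if_neg h3, if_neg h3]
        exact h.b1 hN _
    · rw [if_neg h2]
      exact h0

private theorem LeS.mp (hN : NumH Y Q) {s s' : State X} (h : LeS Y s s') (n : Nn s) (T : MPt X) :
    mpW Y s' T ≤ mpW Y s T := by
  have h0 := mpW_nn hN n T
  unfold mpW at h0 ⊢
  rw [h.J]
  by_cases h1 : Pool.H33.MB2.alive s' T.1 ∧ T.1 ∉ s.J
  · rw [if_pos h1, if_pos ⟨h.alive h1.1, h1.2⟩]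
    exact mul_le_mul_of_nonneg_left (prod_le_prod (fun e _ => ev_nn hN (h.nn n) _ _)
      fun e _ => h.ev hN n _ _) hN.ρpos.le
  · rw [if_neg h1]
    exact h0

private theorem not_alive_addB {x : X} {C : Finset X} (h : x ∈ C) : ¬ alive (addB s x) C := by
  intro h'
  exact disjoint_left.1 h' h (mem_insert_self _ _)

private theorem mpW_eq_zero {s : State X} {T : MPt X} {e : El X} (he : e ∈ T.2)
    (h : ev Y s T.1 e = 0) : mpW Y s T = 0 := by
  unfold mpW
  split_ifs
  · rw [prod_eq_zero he h, mul_zero]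
  · rfl

theorem addB_mp (hN : NumH Y Q) (g : Good Y Lg s) (x : X) (T : MPt X) :
    mpW Y (addB s x) T ≤ mpW Y s T :=
  (leS_addB s x).mp hN (nn_of_good g) T

theorem kill_mp (x : X) {T : MPt X} (hT : ValidMP Y T) (h : act Y s x (.inl T)) :
    mpW Y (addB s x) T = 0 := by
  obtain ⟨-, -, e, he, ha, h⟩ := h
  refine mpW_eq_zero he ?_
  have hlb : (addB s x).lb T.1 e.1.1 ≠ some e.1.2 := by
    show s.lb T.1 e.1.1 ≠ some e.1.2
    rw [ha.2.2.1]
    exact fun h' => by cases h'
  unfold ev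
  rw [if_neg hlb]
  rcases h with ⟨h1, -⟩ | ⟨l, hl, h1, h2, -⟩
  · rw [if_neg]
    exact fun h' => not_alive_addB h1.1 h'.2.2.2.2.1
  · by_cases h3 : att Y (addB s x) T.1 e.1.2 e.1.1
    · rw [if_pos h3]
      have h4 : e.2.1 = true := by
        by_contra h4
        have h5 := (hT.2.1 e he).h1 (by simpa using h4)
        rw [h5] at hl
        simp at hl
      rw [if_pos h4, prod_eq_zero hl, mul_zero]
      unfold sv
      have hlb' : (addB s x).lb e.1.2 l.1 ≠ some l.2 := by
        show s.lb e.1.2 l.1 ≠ some l.2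
        rw [h1.2.2.1]
        exact fun h' => by cases h'
      rw [if_neg hlb', if_neg]
      exact fun h' => not_alive_addB h2.1 h'.2.2.2.2.1
    · rw [if_neg h3]

theorem root_mp {x : X} {T : MPt X} (h : x ∈ T.1) : mpW Y (addB s x) T = 0 := by
  unfold mpW
  rw [if_neg]
  exact fun h' => not_alive_addB h h'.1

theorem acts_mp {x p : X} {T : MPt X} (h : act Y (addB s x) p (.inl T)) : act Y s p (.inl T) := by
  have hL : LeS Y s (addB s x) := leS_addB s x
  obtain ⟨h1, h2, e, he, ha, h⟩ := h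
  refine ⟨hL.alive h1, h2, e, he, hL.att ha, ?_⟩
  rcases h with h | ⟨l, hl, h3, h4, h5, h6⟩
  · exact Or.inl h
  · exact Or.inr ⟨l, hl, hL.att h3, h4, h5, h6⟩

theorem reply_mp (hN : NumH Y Q) (g : Good Y Lg s) (e : Entry X) (T : MPt X) :
    mpW Y (reply s e) T ≤ mpW Y (addB s e.x) T :=
  (leS_reply s e).mp hN ((leS_addB (Y := Y) s e.x).nn (nn_of_good g)) T

/-- The reply is a strike for `C`. -/
private theorem os_succ {y z x : X} {A C : Finset X} (hy : y ∈ C) (hg : Y.gr A = Y.gr C) :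
    os Y (reply (afterM s y z) ⟨y, A, x⟩) C = os Y (afterM s y z) C + 1 := by
  unfold os
  show List.countP _ (⟨y, A, x⟩ :: s.log) = List.countP _ s.log + 1
  rw [List.countP_cons_of_pos]
  simpa using ⟨hy, hg⟩

private theorem gr_eq (g : Good Y Lg s) {y : X} {A C : Finset X} (ht : tgt s y = some A)
    (hJ : C ∉ s.J) (hc : clean Y s C) (hy : y ∈ C) (hl : s.lb C y = none) :
    Y.gr A = Y.gr C := by
  obtain ⟨h1, h2, h3⟩ := tgt_spec ht
  rcases rel_unj g h1 h3 hJ hy hl with h | h
  · exact h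
  · exact absurd h (hc A h1)

private theorem b1_K (hN : NumH Y Q) {y z x : X} {A C : Finset X} (hy : y ∈ C)
    (hg : Y.gr A = Y.gr C) :
    b1 Y (reply (afterM s y z) ⟨y, A, x⟩) C = b1 Y (afterM s y z) C / Y.K := by
  unfold b1
  rw [os_succ hy hg, kb_succ hN]
  show Y.c1 * (_ / Y.K) * Y.a1 (lev (afterM s y z) C) = _
  ring

private theorem b2_K (hN : NumH Y Q) {y z x : X} {A C : Finset X} (hy : y ∈ C)
    (hg : Y.gr A = Y.gr C) :
    b2 Y (reply (afterM s y z) ⟨y, A, x⟩) C = b2 Y (afterM s y z) C / Y.K := by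
  unfold b2
  rw [os_succ hy hg, kb_succ hN]
  show Y.ρ2 * (_ / Y.K) * Y.a2 (lev (afterM s y z) C) = _
  ring

theorem st_mp (hN : NumH Y Q) (g : Good Y Lg s) {y z : X} (hy : y ∈ free Y s) (hz : z ∈ free Y s)
    {A : Finset X} (ht : tgt s y = some A) (x : X) {T : MPt X} (hT : ValidMP Y T)
    (ha : act Y s y (.inl T)) :
    mpW Y (reply (afterM s y z) ⟨y, A, x⟩) T ≤ mpW Y (afterM s y z) T / Y.K := by
  have hK := K_pos hN
  have n1 : Nn (afterM s y z) := ⟨g.s1n, g.s2n, g.ssn⟩
  have hL : LeS Y (afterM s y z) (reply (afterM s y z) ⟨y, A, x⟩) :=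
    (leS_addB (Y := Y) (afterM s y z) x).trans (leS_reply (Y := Y) (afterM s y z) ⟨y, A, x⟩)
  have n2 := hL.nn n1
  obtain ⟨-, -, e, he, hae, h⟩ := ha
  -- the value of the active element
  have hkey : ev Y (reply (afterM s y z) ⟨y, A, x⟩) T.1 e ≤ ev Y (afterM s y z) T.1 e / Y.K := by
    have hlb : (afterM s y z).lb T.1 e.1.1 ≠ some e.1.2 := by
      show s.lb T.1 e.1.1 ≠ some e.1.2
      rw [hae.2.2.1]
      exact fun h' => by cases h'
    have hlb' : (reply (afterM s y z) ⟨y, A, x⟩).lb T.1 e.1.1 ≠ some e.1.2 := hlb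
    have h0 : 0 ≤ ev Y (afterM s y z) T.1 e / Y.K := div_nonneg (ev_nn hN n1 _ _) hK.le
    by_cases h3 : att Y (reply (afterM s y z) ⟨y, A, x⟩) T.1 e.1.2 e.1.1
    · have h3' := hL.att h3
      unfold ev
      rw [if_neg hlb, if_neg hlb', if_pos h3, if_pos h3']
      rcases h with ⟨h1, -⟩ | ⟨l, hl, h1, h2, -⟩
      · have hg := gr_eq g ht hae.2.2.2.2.2.1 hae.2.2.2.2.2.2 h1.1 h1.2
        by_cases h4 : e.2.1 = true
        · rw [if_pos h4, if_pos h4, b2_K hN h1.1 hg, div_mul_eq_mul_div]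
          refine div_le_div_of_nonneg_right ?_ hK.le
          refine mul_le_mul_of_nonneg_left ?_ (b2_pos hN _).le
          exact prod_le_prod (fun l _ => sv_nn hN n2 _ _) fun l _ => hL.sv hN n1 _ _
        · rw [if_neg h4, if_neg h4, b1_K hN h1.1 hg]
      · have h4 : e.2.1 = true := by
          by_contra h4
          have h5 := (hT.2.1 e he).h1 (by simpa using h4)
          rw [h5] at hl
          simp at hl
        rw [if_pos h4, if_pos h4]
        have hg := gr_eq g ht h1.2.2.2.2.2.1 h1.2.2.2.2.2.2 h2.1 h2.2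
        have hsv : sv Y (reply (afterM s y z) ⟨y, A, x⟩) e.1.2 l ≤
            sv Y (afterM s y z) e.1.2 l / Y.K := by
          have hlb1 : (afterM s y z).lb e.1.2 l.1 ≠ some l.2 := by
            show s.lb e.1.2 l.1 ≠ some l.2
            rw [h1.2.2.1]
            exact fun h' => by cases h'
          have hlb2 : (reply (afterM s y z) ⟨y, A, x⟩).lb e.1.2 l.1 ≠ some l.2 := hlb1
          have h0' : 0 ≤ sv Y (afterM s y z) e.1.2 l / Y.K := div_nonneg (sv_nn hN n1 _ _) hK.le
          by_cases h5 : att Y (reply (afterM s y z) ⟨y, A, x⟩) e.1.2 l.2 l.1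
          · have h5' := hL.att h5
            unfold sv
            rw [if_neg hlb1, if_neg hlb2, if_pos h5, if_pos h5', b1_K hN h2.1 hg]
          · calc sv Y (reply (afterM s y z) ⟨y, A, x⟩) e.1.2 l = 0 := by
                  unfold sv
                  rw [if_neg hlb2, if_neg h5]
              _ ≤ _ := h0'
        rw [← mul_prod_erase e.2.2 _ hl, ← mul_prod_erase e.2.2 _ hl]
        have hb2 := hL.b2 hN e.1.2
        have hpr : ∏ l' ∈ e.2.2.erase l, sv Y (reply (afterM s y z) ⟨y, A, x⟩) e.1.2 l' ≤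
            ∏ l' ∈ e.2.2.erase l, sv Y (afterM s y z) e.1.2 l' :=
          prod_le_prod (fun l _ => sv_nn hN n2 _ _) fun l _ => hL.sv hN n1 _ _
        have hp0 : 0 ≤ ∏ l' ∈ e.2.2.erase l, sv Y (reply (afterM s y z) ⟨y, A, x⟩) e.1.2 l' :=
          prod_nonneg fun l _ => sv_nn hN n2 _ _
        have hs0 : 0 ≤ sv Y (afterM s y z) e.1.2 l / Y.K := div_nonneg (sv_nn hN n1 _ _) hK.le
        calc b2 Y (reply (afterM s y z) ⟨y, A, x⟩) e.1.2 *
              (sv Y (reply (afterM s y z) ⟨y, A, x⟩) e.1.2 l *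
                ∏ l' ∈ e.2.2.erase l, sv Y (reply (afterM s y z) ⟨y, A, x⟩) e.1.2 l')
            ≤ b2 Y (afterM s y z) e.1.2 * (sv Y (afterM s y z) e.1.2 l / Y.K *
                ∏ l' ∈ e.2.2.erase l, sv Y (afterM s y z) e.1.2 l') :=
              mul_le_mul hb2 (mul_le_mul hsv hpr hp0 hs0)
                (mul_nonneg (sv_nn hN n2 _ _) hp0) (b2_pos hN _).le
          _ = _ := by ring
    · calc ev Y (reply (afterM s y z) ⟨y, A, x⟩) T.1 e = 0 := by
            unfold ev
            rw [if_neg hlb', if_neg h3]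
        _ ≤ _ := h0
  have h00 : 0 ≤ mpW Y (afterM s y z) T / Y.K := div_nonneg (mpW_nn hN n1 _) hK.le
  by_cases h6 : alive (reply (afterM s y z) ⟨y, A, x⟩) T.1 ∧
      T.1 ∉ (reply (afterM s y z) ⟨y, A, x⟩).J
  · have h7 : alive (afterM s y z) T.1 ∧ T.1 ∉ (afterM s y z).J := ⟨hL.alive h6.1, h6.2⟩
    unfold mpW
    rw [if_pos h6, if_pos h7, ← mul_prod_erase T.2 _ he, ← mul_prod_erase T.2 _ he]
    have hpr : ∏ e' ∈ T.2.erase e, ev Y (reply (afterM s y z) ⟨y, A, x⟩) T.1 e' ≤
        ∏ e' ∈ T.2.erase e, ev Y (afterM s y z) T.1 e' :=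
      prod_le_prod (fun l _ => ev_nn hN n2 _ _) fun l _ => hL.ev hN n1 _ _
    have hp0 : 0 ≤ ∏ e' ∈ T.2.erase e, ev Y (reply (afterM s y z) ⟨y, A, x⟩) T.1 e' :=
      prod_nonneg fun l _ => ev_nn hN n2 _ _
    calc Y.ρ * (ev Y (reply (afterM s y z) ⟨y, A, x⟩) T.1 e *
          ∏ e' ∈ T.2.erase e, ev Y (reply (afterM s y z) ⟨y, A, x⟩) T.1 e')
        ≤ Y.ρ * (ev Y (afterM s y z) T.1 e / Y.K *
          ∏ e' ∈ T.2.erase e, ev Y (afterM s y z) T.1 e') :=
          mul_le_mul_of_nonneg_left (mul_le_mul hkey hpr hp0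
            (div_nonneg (ev_nn hN n1 _ _) hK.le)) hN.ρpos.le
      _ = _ := by ring
  · calc mpW Y (reply (afterM s y z) ⟨y, A, x⟩) T = 0 := by
          unfold mpW
          rw [if_neg h6]
      _ ≤ _ := h00

end Pool.H33.MB2
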