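import Pool.Agent.H33.MB2.Rates

/-!
# MB2 KIPS: Breaker's points and strikes: stars

`addB s x` changes only `B`; `reply s e` changes `B` and the log.
* `addB`: `lev`, `os`, `lb`, `J`, `clean` are unchanged; `alive` gets harder: the weight does not increase.  If `T` is active at `x`
  then `x` lies in a set of `T.2`, which is dead in `addB s x`; if `T.1 = x` the centre is claimed.
* `reply`: strikes only increase, so `b1` does not increase (`kb_anti`); nothing else changes compared with `addB s e.x`.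
* `st_ps`: let `s1 = afterM s y z`, `tgt s y = some A` (`tgt_spec`: `A ∈ s.J`, `alive s A`, `y ∈ s.box A`), `y` active for `C ∈ T.2`
  (`y ∈ C`, `s.lb C y = none`).  If the weight in `s1` is 0 then so is the weight after the reply.  Otherwise `C ∉ s.J`,
  `clean Y s C`, so `rel_unj` gives `gr A = gr C`.  After the reply either `x ∈ C` and the weight is 0, or `os` of `C` has increased by
  one and `b1` of `C` is divided by `K` (`kb_succ`).  All other factors do not increase.
-/

set_option linter.unusedSectionVars false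

namespace Pool.H33.MB2

open Finset
open scoped Classical

variable {X Γ : Type*} [DecidableEq X] {Y : Sys X Γ} {Q : Num2}
  {Lg : List (Entry X) → Finset X → Finset X → Prop} {s : State X}

private theorem alive_of_addB {x : X} {A : Finset X} (h : alive (addB s x) A) : alive s A :=
  Disjoint.mono_right (subset_insert _ _) h

private theorem not_alive_addB' {x : X} {C : Finset X} (h : x ∈ C) : ¬ alive (addB s x) C := by
  intro h'
  exact disjoint_left.1 h' h (mem_insert_self _ _)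

theorem addB_ps (hN : NumH Y Q) (x : X) (T : PSt X) : psW Y (addB s x) T ≤ psW Y s T := by
  by_cases h : T.1 ∉ (addB s x).M ∧ T.1 ∉ (addB s x).B ∧ ∀ C ∈ T.2, (addB s x).lb C T.1 = none ∧
      alive (addB s x) C ∧ C ∉ (addB s x).J ∧ clean Y (addB s x) C
  · have h' : T.1 ∉ s.M ∧ T.1 ∉ s.B ∧ ∀ C ∈ T.2, s.lb C T.1 = none ∧
        alive s C ∧ C ∉ s.J ∧ clean Y s C :=
      ⟨h.1, fun h1 => h.2.1 (mem_insert_of_mem h1), fun C hC =>
        ⟨(h.2.2 C hC).1, alive_of_addB (h.2.2 C hC).2.1, (h.2.2 C hC).2.2.1, (h.2.2 C hC).2.2.2⟩⟩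
    unfold psW
    rw [if_pos h, if_pos h']
    exact le_rfl
  · calc psW Y (addB s x) T = 0 := by
          unfold psW
          rw [if_neg h]
      _ ≤ _ := psW_nonneg hN T

theorem kill_ps (x : X) {T : PSt X} (h : act Y s x (.inr (.inl T))) :
    psW Y (addB s x) T = 0 := by
  obtain ⟨-, C, hC, h1, -⟩ := h
  unfold psW
  rw [if_neg]
  exact fun h' => not_alive_addB' h1.1 (h'.2.2 C hC).2.1

theorem root_ps {x : X} {T : PSt X} (h : T.1 = x) : psW Y (addB s x) T = 0 := by
  unfold psW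
  rw [if_neg]
  intro h'
  apply h'.2.1
  rw [h]
  exact mem_insert_self _ _

private theorem os_reply_le (e : Entry X) (A : Finset X) :
    os Y (addB s e.x) A ≤ os Y (reply s e) A := by
  unfold os
  exact (List.sublist_cons_self e s.log).countP_le

private theorem b1_reply_le (hN : NumH Y Q) (e : Entry X) (A : Finset X) :
    b1 Y (reply s e) A ≤ b1 Y (addB s e.x) A := by
  unfold b1
  have h1 := hN.c1pos
  have h2 := hN.a1pos (lev s A)
  have h3 := kb_anti hN Y.bs (os_reply_le (Y := Y) (s := s) e A)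
  exact mul_le_mul_of_nonneg_right (mul_le_mul_of_nonneg_left h3 h1.le) h2.le

theorem reply_ps (hN : NumH Y Q) (e : Entry X) (T : PSt X) :
    psW Y (reply s e) T ≤ psW Y (addB s e.x) T := by
  by_cases h : T.1 ∉ (reply s e).M ∧ T.1 ∉ (reply s e).B ∧ ∀ C ∈ T.2, (reply s e).lb C T.1 = none ∧
      alive (reply s e) C ∧ C ∉ (reply s e).J ∧ clean Y (reply s e) C
  · have h' : T.1 ∉ (addB s e.x).M ∧ T.1 ∉ (addB s e.x).B ∧ ∀ C ∈ T.2,
        (addB s e.x).lb C T.1 = none ∧
        alive (addB s e.x) C ∧ C ∉ (addB s e.x).J ∧ clean Y (addB s e.x) C := h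
    unfold psW
    rw [if_pos h, if_pos h']
    refine mul_le_mul_of_nonneg_left ?_ hN.ρPpos.le
    exact prod_le_prod (fun C _ => (b1_pos hN _).le) fun C _ => b1_reply_le hN e C
  · calc psW Y (reply s e) T = 0 := by
          unfold psW
          rw [if_neg h]
      _ ≤ _ := psW_nonneg hN T

private theorem os_succ' {y z x : X} {A C : Finset X} (hy : y ∈ C) (hg : Y.gr A = Y.gr C) :
    os Y (reply (afterM s y z) ⟨y, A, x⟩) C = os Y (afterM s y z) C + 1 := by
  unfold os
  show List.countP _ (⟨y, A, x⟩ :: s.log) = List.countP _ s.log + 1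
  rw [List.countP_cons_of_pos]
  simpa using ⟨hy, hg⟩

private theorem b1_K' (hN : NumH Y Q) {y z x : X} {A C : Finset X} (hy : y ∈ C)
    (hg : Y.gr A = Y.gr C) :
    b1 Y (reply (afterM s y z) ⟨y, A, x⟩) C = b1 Y (afterM s y z) C / Y.K := by
  unfold b1
  rw [os_succ' hy hg, kb_succ hN]
  show Y.c1 * (_ / Y.K) * Y.a1 (lev (afterM s y z) C) = _
  ring

theorem st_ps (hN : NumH Y Q) (g : Good Y Lg s) {y z : X} (hy : y ∈ free Y s) (hz : z ∈ free Y s)
    {A : Finset X} (ht : tgt s y = some A) (x : X) {T : PSt X} (hT : ValidPS T)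
    (ha : act Y s y (.inr (.inl T))) :
    psW Y (reply (afterM s y z) ⟨y, A, x⟩) T ≤ psW Y (afterM s y z) T / Y.K := by
  have hK := K_pos hN
  obtain ⟨-, C, hC, h1, -⟩ := ha
  have h00 : 0 ≤ psW Y (afterM s y z) T / Y.K := div_nonneg (psW_nonneg hN T) hK.le
  by_cases h : T.1 ∉ (reply (afterM s y z) ⟨y, A, x⟩).M ∧ T.1 ∉ (reply (afterM s y z) ⟨y, A, x⟩).B ∧
      ∀ C ∈ T.2, (reply (afterM s y z) ⟨y, A, x⟩).lb C T.1 = none ∧
      alive (reply (afterM s y z) ⟨y, A, x⟩) C ∧ C ∉ (reply (afterM s y z) ⟨y, A, x⟩).J ∧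
      clean Y (reply (afterM s y z) ⟨y, A, x⟩) C
  · have h' : T.1 ∉ (afterM s y z).M ∧ T.1 ∉ (afterM s y z).B ∧
        ∀ C ∈ T.2, (afterM s y z).lb C T.1 = none ∧ alive (afterM s y z) C ∧
        C ∉ (afterM s y z).J ∧ clean Y (afterM s y z) C :=
      ⟨h.1, fun h1 => h.2.1 (mem_insert_of_mem h1), fun C hC =>
        ⟨(h.2.2 C hC).1, alive_of_addB (x := x) (h.2.2 C hC).2.1, (h.2.2 C hC).2.2.1,
          (h.2.2 C hC).2.2.2⟩⟩
    obtain ⟨hA1, hA2, hA3⟩ := tgt_spec ht
    have hcl : clean Y s C := (h'.2.2 C hC).2.2.2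
    have hg : Y.gr A = Y.gr C := by
      rcases rel_unj g hA1 hA3 (h'.2.2 C hC).2.2.1 h1.1 h1.2 with h2 | h2
      · exact h2
      · exact absurd h2 (hcl A hA1)
    have hb : ∀ C, b1 Y (reply (afterM s y z) ⟨y, A, x⟩) C ≤ b1 Y (afterM s y z) C :=
      fun C => b1_reply_le (s := afterM s y z) hN ⟨y, A, x⟩ C
    unfold psW
    rw [if_pos h, if_pos h', ← mul_prod_erase T.2 _ hC, ← mul_prod_erase T.2 _ hC,
      b1_K' hN h1.1 hg]
    have hpr : ∏ C' ∈ T.2.erase C, b1 Y (reply (afterM s y z) ⟨y, A, x⟩) C' ≤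
        ∏ C' ∈ T.2.erase C, b1 Y (afterM s y z) C' :=
      prod_le_prod (fun C _ => (b1_pos hN _).le) fun C _ => hb C
    calc Y.ρP * (b1 Y (afterM s y z) C / Y.K *
          ∏ C' ∈ T.2.erase C, b1 Y (reply (afterM s y z) ⟨y, A, x⟩) C')
        ≤ Y.ρP * (b1 Y (afterM s y z) C / Y.K * ∏ C' ∈ T.2.erase C, b1 Y (afterM s y z) C') :=
          mul_le_mul_of_nonneg_left (mul_le_mul_of_nonneg_left hpr
            (div_nonneg (b1_pos hN _).le hK.le)) hN.ρPpos.le
      _ = _ := by ring
  · calc psW Y (reply (afterM s y z) ⟨y, A, x⟩) T = 0 := by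
          unfold psW
          rw [if_neg h]
      _ ≤ _ := h00

end Pool.H33.MB2
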