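import Pool.Agent.H33.MB2.Rates

/-!
# MB2 KIUW: Breaker's points and strikes: macro tuples and arithmetic pairs

* `addB` does not change `UW` (`B` does not occur in it); `gcW`, `cpW` can only become 0.
* If `T` is active at `x`: some `A ∈ T.2`, `A ∉ ripe`, `x ∈ A` (macro) or some member of the pair
  contains `x`: it is dead after `addB s x` and the weight is 0.
* `reply`: strikes only increase.
* Strike: `s1 = afterM s y z`, `tgt s y = some D` (`D ∈ s.J` alive, `y ∈ s.box D`), `A` in the collection with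
  `y ∈ A`, `s.lb A y = none`.  Macro: `A ∉ s.ripe`, so `A ∉ s.J` (`g.Jr`), and `rel_unj` gives
  `gr D = gr A` or `arith D A`.  Pair: if `A ∉ s.J` the same; if `A ∈ s.J` then `y ∈ s.box A` (`g.bx`, `y` unclaimed),
  and `g.rel` gives `D = A` or `gr D = gr A` or `arith D A`.  So if `x ∉ A`, `os` or `ars` of `A` increases by one and
  the factor of `A` in `UW` is divided by `K` (`kb_succ`), the other factors do not increase (`kb_anti`), `ulev`
  is the same.  If `x ∈ A` the weight after the reply is 0 (`A` not ripe / member of the pair).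
-/

set_option linter.unusedSectionVars false

namespace Pool.H33.MB2

open Finset
open scoped Classical

variable {X Γ : Type*} [DecidableEq X] {Y : Sys X Γ} {Q : Num2}
  {Lg : List (Entry X) → Finset X → Finset X → Prop} {s : State X}

theorem ki_alive {x : X} {A : Finset X} (h : alive (addB s x) A) : alive s A := by
  unfold alive addB at h
  unfold alive
  exact h.mono_right (subset_insert _ _)

theorem ki_dead {x : X} {A : Finset X} (h : x ∈ A) : ¬ alive (addB s x) A := by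
  intro h1
  unfold alive addB at h1
  exact disjoint_left.1 h1 h (mem_insert_self _ _)

theorem ki_ite {P P' : Prop} [Decidable P] [Decidable P'] {a b : ℝ} (h : P' → P) (hab : P' → b ≤ a) (ha : 0 ≤ a) :
    (if P' then b else 0) ≤ (if P then a else 0) := by
  by_cases h' : P'
  · rw [if_pos h', if_pos (h h')]
    exact hab h'
  · rw [if_neg h']
    split_ifs
    · exact ha
    · exact le_rfl

theorem ki_os (s : State X) (e : Entry X) (A : Finset X) : os Y s A ≤ os Y (reply s e) A := by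
  unfold os reply
  rw [List.countP_cons]
  exact Nat.le_add_right _ _

theorem ki_ars (s : State X) (e : Entry X) (A : Finset X) : ars Y s A ≤ ars Y (reply s e) A := by
  unfold ars reply
  rw [List.countP_cons]
  exact Nat.le_add_right _ _

theorem ki_os' (s : State X) (e : Entry X) (A : Finset X) (h : e.y ∈ A) (h' : Y.gr e.T = Y.gr A) :
    os Y (reply s e) A = os Y s A + 1 := by
  unfold os reply
  rw [List.countP_cons]
  simp [h, h']

theorem ki_ars' (s : State X) (e : Entry X) (A : Finset X) (h : e.y ∈ A) (h' : arith Y e.T A) :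
    ars Y (reply s e) A = ars Y s A + 1 := by
  unfold ars reply
  rw [List.countP_cons]
  simp [h, h']

theorem ki_fac (hN : NumH Y Q) (s : State X) (e : Entry X) (A : Finset X) :
    kb Y Y.bs (os Y (reply s e) A) * kb Y Y.am (ars Y (reply s e) A) ≤
      kb Y Y.bs (os Y s A) * kb Y Y.am (ars Y s A) :=
  mul_le_mul (kb_anti hN _ (ki_os s e A)) (kb_anti hN _ (ki_ars s e A)) (kb_pos hN _ _).le
    (kb_pos hN _ _).le

theorem ki_fac' (hN : NumH Y Q) (s : State X) (e : Entry X) (A : Finset X) (h : e.y ∈ A)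
    (h' : Y.gr e.T = Y.gr A ∨ arith Y e.T A) :
    kb Y Y.bs (os Y (reply s e) A) * kb Y Y.am (ars Y (reply s e) A) ≤
      kb Y Y.bs (os Y s A) * kb Y Y.am (ars Y s A) / Y.K := by
  have hK := K_pos hN
  have h0 := kb_pos hN Y.bs (os Y s A)
  have h1 := kb_pos hN Y.am (ars Y s A)
  rcases h' with h' | h'
  · rw [ki_os' s e A h h', kb_succ hN]
    calc kb Y Y.bs (os Y s A) / Y.K * kb Y Y.am (ars Y (reply s e) A)
        ≤ kb Y Y.bs (os Y s A) / Y.K * kb Y Y.am (ars Y s A) :=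
          mul_le_mul_of_nonneg_left (kb_anti hN _ (ki_ars s e A)) (by positivity)
      _ = kb Y Y.bs (os Y s A) * kb Y Y.am (ars Y s A) / Y.K := by ring
  · rw [ki_ars' s e A h h', kb_succ hN]
    calc kb Y Y.bs (os Y (reply s e) A) * (kb Y Y.am (ars Y s A) / Y.K)
        ≤ kb Y Y.bs (os Y s A) * (kb Y Y.am (ars Y s A) / Y.K) :=
          mul_le_mul_of_nonneg_right (kb_anti hN _ (ki_os s e A)) (by positivity)
      _ = kb Y Y.bs (os Y s A) * kb Y Y.am (ars Y s A) / Y.K := by ring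

theorem ki_UW (hN : NumH Y Q) (s : State X) (e : Entry X) (𝒳 : Finset (Finset X)) :
    UW Y (reply s e) 𝒳 ≤ UW Y s 𝒳 := by
  have h1 := rw_ge hN
  have h2 : 0 < rw Y := by linarith
  unfold UW
  have h3 : ulev (reply s e) 𝒳 = ulev s 𝒳 := rfl
  rw [h3]
  refine mul_le_mul_of_nonneg_right ?_ (by positivity)
  exact prod_le_prod (fun A _ => (mul_pos (kb_pos hN _ _) (kb_pos hN _ _)).le)
    fun A _ => ki_fac hN s e A

theorem ki_UW' (hN : NumH Y Q) (s : State X) (e : Entry X) (𝒳 : Finset (Finset X))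
    {A : Finset X} (hA : A ∈ 𝒳) (h : e.y ∈ A) (h' : Y.gr e.T = Y.gr A ∨ arith Y e.T A) :
    UW Y (reply s e) 𝒳 ≤ UW Y s 𝒳 / Y.K := by
  have h1 := rw_ge hN
  have h2 : 0 < rw Y := by linarith
  have hK := K_pos hN
  unfold UW
  have h3 : ulev (reply s e) 𝒳 = ulev s 𝒳 := rfl
  rw [h3, mul_div_right_comm]
  refine mul_le_mul_of_nonneg_right ?_ (by positivity)
  rw [← mul_prod_erase 𝒳 _ hA, ← mul_prod_erase 𝒳 _ hA, mul_div_right_comm]
  refine mul_le_mul (ki_fac' hN s e A h h') ?_ ?_ ?_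
  · exact prod_le_prod (fun A _ => (mul_pos (kb_pos hN _ _) (kb_pos hN _ _)).le)
      fun A _ => ki_fac hN s e A
  · exact prod_nonneg fun A _ => (mul_pos (kb_pos hN _ _) (kb_pos hN _ _)).le
  · exact div_nonneg (mul_pos (kb_pos hN _ _) (kb_pos hN _ _)).le hK.le

theorem ki_rel (g : Good Y Lg s) {y : X} (hy : y ∈ free Y s) {D : Finset X}
    (ht : tgt s y = some D) {A : Finset X} (hA : actN s A y) :
    Y.gr D = Y.gr A ∨ arith Y D A := by
  obtain ⟨hD, -, hyD⟩ := tgt_spec ht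
  obtain ⟨hyA, hl⟩ := hA
  by_cases hJ : A ∈ s.J
  · have h1 : y ∈ s.box A := (g.bx A hJ).2.2 y hyA (mem_free.1 hy).2.1 hl
    rcases g.rel D hD A hJ y hyD h1 with h | h | h
    · left
      rw [h]
    · exact Or.inl h
    · exact Or.inr h
  · exact rel_unj g hD hyD hJ hyA hl

theorem ki_gcnn (hN : NumH Y Q) (s : State X) (T : GCt X) :
    0 ≤ Y.ρG * Y.gt ^ ntight Y T.1 T.2 * (rw Y)⁻¹ ^ (Y.H1 * #(T.2.toFinset ∩ s.ripe)) *
      UW Y s (T.2.toFinset \ s.ripe) := by
  have h1 := rw_ge hN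
  have h2 : 0 < rw Y := by linarith
  have h3 := hN.ρGpos
  have h4 := hN.gt1
  have := UW_pos (s := s) hN (T.2.toFinset \ s.ripe)
  positivity

theorem ki_gcc (hN : NumH Y Q) (s : State X) (T : GCt X) :
    0 ≤ Y.ρG * Y.gt ^ ntight Y T.1 T.2 * (rw Y)⁻¹ ^ (Y.H1 * #(T.2.toFinset ∩ s.ripe)) := by
  have h1 := rw_ge hN
  have h2 : 0 < rw Y := by linarith
  have h3 := hN.ρGpos
  have h4 := hN.gt1
  positivity

theorem addB_gc (hN : NumH Y Q) (x : X) (T : GCt X) : gcW Y (addB s x) T ≤ gcW Y s T := by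
  unfold gcW
  refine ki_ite (fun h A hA => ?_) (fun _ => le_rfl) (ki_gcnn hN s T)
  exact (h A hA).imp id ki_alive

theorem kill_gc (x : X) {T : GCt X} (h : act Y s x (.inr (.inr (.inl T)))) :
    gcW Y (addB s x) T = 0 := by
  obtain ⟨⟨A, hA, hr, hx, -⟩, -⟩ := h
  unfold gcW
  rw [if_neg]
  intro h1
  rcases h1 A hA with h2 | h2
  · exact hr h2
  · exact ki_dead hx h2

theorem reply_gc (hN : NumH Y Q) (e : Entry X) (T : GCt X) :
    gcW Y (reply s e) T ≤ gcW Y (addB s e.x) T := by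
  unfold gcW
  refine ki_ite (fun h => h) (fun _ => ?_) (ki_gcnn hN (addB s e.x) T)
  exact mul_le_mul_of_nonneg_left (ki_UW hN s e _) (ki_gcc hN s T)

theorem st_gc (hN : NumH Y Q) (g : Good Y Lg s) {y z : X} (hy : y ∈ free Y s) (hz : z ∈ free Y s)
    {D : Finset X} (ht : tgt s y = some D) (x : X) {T : GCt X}
    (ha : act Y s y (.inr (.inr (.inl T)))) :
    gcW Y (reply (afterM s y z) ⟨y, D, x⟩) T ≤ gcW Y (afterM s y z) T / Y.K := by
  obtain ⟨⟨A, hA, hr, hact⟩, -⟩ := ha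
  have hK := K_pos hN
  have hrel := ki_rel g hy ht hact
  by_cases hP : ∀ A ∈ T.2, A ∈ (reply (afterM s y z) ⟨y, D, x⟩).ripe ∨
      alive (reply (afterM s y z) ⟨y, D, x⟩) A
  · have hP' : ∀ A ∈ T.2, A ∈ (afterM s y z).ripe ∨ alive (afterM s y z) A := by
      intro A hA
      refine (hP A hA).imp id fun h => ?_
      exact ki_alive (s := afterM s y z) (x := x) h
    unfold gcW
    rw [if_pos hP, if_pos hP', mul_div_assoc]
    refine mul_le_mul_of_nonneg_left ?_ (ki_gcc hN s T)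
    exact ki_UW' hN (afterM s y z) ⟨y, D, x⟩ _
      (mem_sdiff.2 ⟨List.mem_toFinset.2 hA, hr⟩) hact.1 hrel
  · have h0 : gcW Y (reply (afterM s y z) ⟨y, D, x⟩) T = 0 := by
      unfold gcW
      rw [if_neg hP]
    rw [h0]
    exact div_nonneg (gcW_nonneg hN T) hK.le

theorem addB_cp (hN : NumH Y Q) (x : X) (T : Finset X × Finset X) :
    cpW Y (addB s x) T ≤ cpW Y s T := by
  unfold cpW
  refine ki_ite (fun h => ⟨ki_alive h.1, ki_alive h.2.1, h.2.2⟩) (fun _ => le_rfl) ?_
  exact mul_nonneg hN.ρCpos.le (UW_pos hN _).le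

theorem kill_cp (x : X) {T : Finset X × Finset X} (h : act Y s x (.inr (.inr (.inr T)))) :
    cpW Y (addB s x) T = 0 := by
  obtain ⟨⟨A, hA, hx, -⟩, -⟩ := h
  unfold cpW
  rw [if_neg]
  rintro ⟨h1, h2, -⟩
  rw [mem_insert, mem_singleton] at hA
  rcases hA with rfl | rfl
  · exact ki_dead hx h1
  · exact ki_dead hx h2

theorem reply_cp (hN : NumH Y Q) (e : Entry X) (T : Finset X × Finset X) :
    cpW Y (reply s e) T ≤ cpW Y (addB s e.x) T := by
  unfold cpW
  refine ki_ite (fun h => h) (fun _ => ?_) (mul_nonneg hN.ρCpos.le (UW_pos hN _).le)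
  exact mul_le_mul_of_nonneg_left (ki_UW hN s e _) hN.ρCpos.le

theorem st_cp (hN : NumH Y Q) (g : Good Y Lg s) {y z : X} (hy : y ∈ free Y s) (hz : z ∈ free Y s)
    {D : Finset X} (ht : tgt s y = some D) (x : X) {T : Finset X × Finset X}
    (ha : act Y s y (.inr (.inr (.inr T)))) :
    cpW Y (reply (afterM s y z) ⟨y, D, x⟩) T ≤ cpW Y (afterM s y z) T / Y.K := by
  obtain ⟨⟨A, hA, hact⟩, -⟩ := ha
  have hK := K_pos hN
  have hrel := ki_rel g hy ht hact
  by_cases hP : alive (reply (afterM s y z) ⟨y, D, x⟩) T.1 ∧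
      alive (reply (afterM s y z) ⟨y, D, x⟩) T.2 ∧
      ¬ (T.1 ∈ (reply (afterM s y z) ⟨y, D, x⟩).J ∧ T.2 ∈ (reply (afterM s y z) ⟨y, D, x⟩).J)
  · have hP' : alive (afterM s y z) T.1 ∧
      alive (afterM s y z) T.2 ∧ ¬ (T.1 ∈ (afterM s y z).J ∧ T.2 ∈ (afterM s y z).J) :=
      ⟨ki_alive (s := afterM s y z) (x := x) hP.1, ki_alive (s := afterM s y z) (x := x) hP.2.1,
        hP.2.2⟩
    unfold cpW
    rw [if_pos hP, if_pos hP', mul_div_assoc]
    refine mul_le_mul_of_nonneg_left ?_ hN.ρCpos.le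
    exact ki_UW' hN (afterM s y z) ⟨y, D, x⟩ _ hA hact.1 hrel
  · have h0 : cpW Y (reply (afterM s y z) ⟨y, D, x⟩) T = 0 := by
      unfold cpW
      rw [if_neg hP]
    rw [h0]
    exact div_nonneg (cpW_nonneg hN T) hK.le

end Pool.H33.MB2
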