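import Pool.Agent.H33.MB2.ClPs

/-!
# MB2 TIPS: the tiny lemma for stars

`s1 = afterM s y z`, `u` and `x` free in `s`, `u ≠ x`.  Let `𝒯` be the stars `T = (v, 𝒞) ∈ psI Y` with
`psW Y s1 T ≠ 0` which are cold active at `u` and active at `x`.  Then `psW Y s T ≠ 0` and for the cold set
`C ∋ u` (`C ∈ 𝒞`, `u ≠ v`, `s.lb C u = none`, `jb + L1 < lev s C`): `b1 Y s C ≤ c1 * K^bs * a1 (jb + L1 + 1)` (call it `t`;
`k^4 L t ≤ τ`).  Let `T' = (v, 𝒞.erase C)`: again in `psI Y`, `psW Y s1 T' ≠ 0`, `psW Y s T = b1 Y s C * psW Y s T'`.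
* If `x ∈ C`: `C` contains `u ≠ x` (at most `L` sets), `v ∈ C` (at most `k` points; `v` is free in `s1`), and the sum of
  `psW Y s T' ≤ psW Y s1 T'` (`mono_ps`) over the stars with centre `v` is at most `Rt Y s1 v ≤ κ`.  Total `≤ L k t κ`.
* If not, `T` is active at `x` by another set `C' ∈ 𝒞`, so `T'` is active at `x` and survives; given `T'`,
  `C` contains `v ≠ u`: at most `L` sets.  Total `≤ L t * Σ_{T' surviving, active at x} psW Y s T'`.
The map `T ↦ (C, T')` is injective (choose one cold `C` for each `T`; `𝒞 = insert C (𝒞.erase C)`).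
-/

set_option linter.unusedSectionVars false

namespace Pool.H33.MB2

open Finset
open scoped Classical

variable {X Γ : Type*} [DecidableEq X] {Y : Sys X Γ} {Q : Num2}
  {Lg : List (Entry X) → Finset X → Finset X → Prop} {s : State X}

private theorem tp_mpW_nonneg (hN : NumH Y Q) (g : Good Y Lg s) (y z : X) (T : MPt X) :
    0 ≤ mpW Y (afterM s y z) T := by
  have hsv : ∀ A l, 0 ≤ sv Y (afterM s y z) A l := by
    intro A l
    unfold sv
    split_ifs
    · exact g.s1n _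
    · exact (b1_pos hN _).le
    · exact le_rfl
  unfold mpW
  split_ifs
  · refine mul_nonneg hN.ρpos.le (prod_nonneg fun e _ => ?_)
    unfold ev
    split_ifs
    · exact mul_nonneg (g.s2n _) (prod_nonneg fun l _ => g.ssn _ _)
    · exact g.s1n _
    · exact mul_nonneg (b2_pos hN _).le (prod_nonneg fun l _ => hsv _ _)
    · exact (b1_pos hN _).le
    · exact le_rfl
  · exact le_rfl

private theorem tp_root (hN : NumH Y Q) (g : Good Y Lg s) (y z v : X) :
    ∑ T ∈ (psI Y).filter (fun T => T.1 = v), psW Y (afterM s y z) T ≤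
      Rt Y (afterM s y z) v := by
  have h1 : 0 ≤ ∑ T ∈ (mpI Y).filter (fun T => v ∈ T.1), mpW Y (afterM s y z) T :=
    sum_nonneg fun T _ => tp_mpW_nonneg hN g y z T
  unfold Rt
  linarith

private theorem tp_b1 (hN : NumH Y Q) {C : Finset X} (h : Y.jb + Y.L1 < lev s C) :
    b1 Y s C ≤ Y.c1 * Y.K ^ Y.bs * Y.a1 (Y.jb + Y.L1 + 1) := by
  have h1 := hN.c1pos
  have h2 := kb_le hN Y.bs (os Y s C)
  have h3 := a1_anti hN (show Y.jb + Y.L1 + 1 ≤ lev s C by omega)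
  have h4 := kb_pos hN Y.bs (os Y s C)
  have h5 := hN.a1pos (lev s C)
  have h6 := K_pos hN
  unfold b1
  refine mul_le_mul (mul_le_mul_of_nonneg_left h2 h1.le) h3 h5.le (by positivity)

theorem tiny_ps (hF : FamH Y) (hN : NumH Y Q) (g : Good Y Lg s) {y z : X} (hy : y ∈ free Y s)
    (hz : z ∈ free Y s) {u x : X} (hu : u ∈ free Y s) (hx : x ∈ free Y s) (hux : u ≠ x) {κ : ℝ}
    (hκ0 : 0 ≤ κ) (hκ : ∀ p ∈ free Y (afterM s y z), Rt Y (afterM s y z) p ≤ κ) :
    ∑ T ∈ (psI Y).filter (fun T => psW Y (afterM s y z) T ≠ 0 ∧ cact Y s u (.inr (.inl T)) ∧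
      act Y s x (.inr (.inl T))), psW Y s T ≤
    Q.τ * (κ + ∑ T ∈ (psI Y).filter (fun T => psW Y (afterM s y z) T ≠ 0 ∧
      act Y s x (.inr (.inl T))), psW Y s T) := by
  set 𝒯 := (psI Y).filter (fun T => psW Y (afterM s y z) T ≠ 0 ∧ cact Y s u (.inr (.inl T)) ∧
      act Y s x (.inr (.inl T))) with h𝒯
  set 𝒰 := (psI Y).filter (fun T => psW Y (afterM s y z) T ≠ 0 ∧
      act Y s x (.inr (.inl T))) with h𝒰
  set t : ℝ := Y.c1 * Y.K ^ Y.bs * Y.a1 (Y.jb + Y.L1 + 1) with ht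
  have hK := K_pos hN
  have ht0 : 0 ≤ t := by
    have := hN.c1pos
    have := hN.a1pos (Y.jb + Y.L1 + 1)
    positivity
  have hM : s.M ⊆ (afterM s y z).M := (subset_insert _ _).trans (subset_insert _ _)
  -- the cold set
  have hch : ∀ T : PSt X, ∃ C : Finset X, T ∈ 𝒯 → C ∈ T.2 ∧ u ∈ C ∧ Y.jb + Y.L1 < lev s C := by
    intro T
    by_cases hT : T ∈ 𝒯
    · obtain ⟨-, C, hC, h1, h2⟩ := (mem_filter.1 hT).2.2.1
      refine ⟨C, fun _ => ⟨hC, h1.1, ?_⟩⟩
      simpa [coldlv] using h2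
    · exact ⟨∅, fun h => absurd h hT⟩
  choose cC hcC using hch
  have hpsC : ∀ T ∈ 𝒯, psC Y (afterM s y z) T := by
    intro T hT
    by_contra h
    exact (mem_filter.1 hT).2.1 (psW_neg h)
  have hsub : ∀ T ∈ 𝒯, psC Y (afterM s y z) (T.1, T.2.erase (cC T)) := by
    intro T hT
    obtain ⟨h1, h2, h3⟩ := hpsC T hT
    exact ⟨h1, h2, fun C hC => h3 C (mem_of_mem_erase hC)⟩
  have hmono : ∀ T : PSt X, psC Y (afterM s y z) T → psC Y s T := by
    rintro T ⟨h1, h2, h3⟩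
    exact ⟨fun h => h1 (hM h), h2, h3⟩
  have hfac : ∀ T ∈ 𝒯, psW Y s T ≤ t * psW Y s (T.1, T.2.erase (cC T)) := by
    intro T hT
    rw [psW_pos (hmono _ (hpsC T hT)), psW_pos (hmono _ (hsub T hT)),
      ← mul_prod_erase T.2 (fun C => b1 Y s C) (hcC T hT).1]
    have h1 := tp_b1 hN (hcC T hT).2.2
    have h2 : 0 ≤ Y.ρP * ∏ C ∈ T.2.erase (cC T), b1 Y s C :=
      mul_nonneg hN.ρPpos.le (prod_nonneg fun C _ => (b1_pos hN _).le)
    calc Y.ρP * (b1 Y s (cC T) * ∏ C ∈ T.2.erase (cC T), b1 Y s C)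
        = b1 Y s (cC T) * (Y.ρP * ∏ C ∈ T.2.erase (cC T), b1 Y s C) := by ring
      _ ≤ t * (Y.ρP * ∏ C ∈ T.2.erase (cC T), b1 Y s C) := mul_le_mul_of_nonneg_right h1 h2
  have hmem : ∀ T ∈ 𝒯, (T.1, T.2.erase (cC T)) ∈ psI Y := by
    intro T hT
    obtain ⟨h1, h2, h3, h4⟩ := mem_psI.1 (mem_filter.1 hT).1
    refine mem_psI.2 ⟨h1, (erase_subset _ _).trans h2, fun C hC => h3 C (mem_of_mem_erase hC),
      fun C hC C' hC' hne => h4 C (mem_of_mem_erase hC) C' (mem_of_mem_erase hC') hne⟩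
  have hCF : ∀ T ∈ 𝒯, cC T ∈ Y.F ∧ T.1 ∈ cC T := by
    intro T hT
    obtain ⟨h1, h2, h3, h4⟩ := mem_psI.1 (mem_filter.1 hT).1
    exact ⟨h2 (hcC T hT).1, h3 _ (hcC T hT).1⟩
  have hne : ∀ T ∈ 𝒯, psW Y (afterM s y z) (T.1, T.2.erase (cC T)) ≠ 0 := by
    intro T hT
    rw [psW_pos (hsub T hT)]
    exact (mul_pos hN.ρPpos (prod_pos fun C _ => b1_pos hN _)).ne'
  have hinj : ∀ T ∈ 𝒯, ∀ T' ∈ 𝒯, cC T = cC T' →
      (T.1, T.2.erase (cC T)) = (T'.1, T'.2.erase (cC T')) → T = T' := by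
    intro T hT T' hT' h1 h2
    have h3 := (Prod.ext_iff.1 h2).1
    have h4 := (Prod.ext_iff.1 h2).2
    refine Prod.ext h3 ?_
    rw [← insert_erase (hcC T hT).1, ← insert_erase (hcC T' hT').1]
    rw [h1] at h4 ⊢
    simp only at h4
    rw [h4]
  have hsplit := sum_filter_add_sum_filter_not 𝒯 (fun T => x ∈ cC T) (fun T => psW Y s T)
  rw [← hsplit]
  -- the first part
  have hA : ∑ T ∈ 𝒯.filter (fun T => x ∈ cC T), psW Y s T ≤ Y.L * (Y.k * (t * κ)) := by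
    set CU := Y.F.filter (fun C => u ∈ C ∧ x ∈ C) with hCU
    set tg : Finset (Σ _ : Finset X, Σ _ : X, PSt X) :=
      CU.sigma (fun C => (C ∩ free Y (afterM s y z)).sigma
        (fun v => (psI Y).filter (fun T => T.1 = v))) with htg
    set i : PSt X → (Σ _ : Finset X, Σ _ : X, PSt X) :=
      fun T => ⟨cC T, T.1, (T.1, T.2.erase (cC T))⟩ with hi
    have hinj' : Set.InjOn i (𝒯.filter (fun T => x ∈ cC T) : Finset (PSt X)) := by
      intro T hT T' hT' h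
      have hT1 := (mem_filter.1 hT).1
      have hT1' := (mem_filter.1 hT').1
      have e1 : cC T = cC T' := congrArg Sigma.fst h
      have e2 : (T.1, T.2.erase (cC T)) = (T'.1, T'.2.erase (cC T')) :=
        congrArg (fun w : (Σ _ : Finset X, Σ _ : X, PSt X) => w.2.2) h
      exact hinj T hT1 T' hT1' e1 e2
    have himg : (𝒯.filter (fun T => x ∈ cC T)).image i ⊆ tg := by
      intro w hw
      obtain ⟨T, hT, rfl⟩ := mem_image.1 hw
      obtain ⟨hT1, hT2⟩ := mem_filter.1 hT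
      obtain ⟨c1, c2⟩ := hCF T hT1
      have hS := (mem_psI.1 (mem_filter.1 hT1).1).1
      obtain ⟨p1, p2, -⟩ := hpsC T hT1
      refine mem_sigma.2 ⟨mem_filter.2 ⟨c1, (hcC T hT1).2.1, hT2⟩, mem_sigma.2
        ⟨mem_inter.2 ⟨c2, mem_free.2 ⟨hS, p1, p2⟩⟩, mem_filter.2 ⟨hmem T hT1, rfl⟩⟩⟩
    calc ∑ T ∈ 𝒯.filter (fun T => x ∈ cC T), psW Y s T
        ≤ ∑ T ∈ 𝒯.filter (fun T => x ∈ cC T), t * psW Y (afterM s y z) (i T).2.2 := by
          refine sum_le_sum fun T hT => ?_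
          have hT1 := (mem_filter.1 hT).1
          exact (hfac T hT1).trans (mul_le_mul_of_nonneg_left (mono_ps hN y z (hne T hT1)) ht0)
      _ = ∑ w ∈ (𝒯.filter (fun T => x ∈ cC T)).image i, t * psW Y (afterM s y z) w.2.2 :=
          (sum_image (f := fun w => t * psW Y (afterM s y z) w.2.2) hinj').symm
      _ ≤ ∑ w ∈ tg, t * psW Y (afterM s y z) w.2.2 :=
          sum_le_sum_of_subset_of_nonneg himg fun w _ _ => mul_nonneg ht0 (psW_nonneg hN _)
      _ = ∑ C ∈ CU, ∑ v ∈ C ∩ free Y (afterM s y z),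
            ∑ T ∈ (psI Y).filter (fun T => T.1 = v), t * psW Y (afterM s y z) T := by
          rw [htg, sum_sigma]
          refine sum_congr rfl fun C _ => ?_
          rw [sum_sigma]
      _ ≤ ∑ C ∈ CU, ∑ v ∈ C ∩ free Y (afterM s y z), t * κ := by
          refine sum_le_sum fun C _ => sum_le_sum fun v hv => ?_
          rw [← mul_sum]
          exact mul_le_mul_of_nonneg_left
            ((tp_root hN g y z v).trans (hκ v (mem_inter.1 hv).2)) ht0
      _ ≤ ∑ C ∈ CU, (Y.k : ℝ) * (t * κ) := by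
          refine sum_le_sum fun C hC => ?_
          rw [sum_const, nsmul_eq_mul]
          refine mul_le_mul_of_nonneg_right ?_ (mul_nonneg ht0 hκ0)
          have h1 : #(C ∩ free Y (afterM s y z)) ≤ Y.k := by
            rw [← hF.card C (mem_filter.1 hC).1]
            exact card_le_card inter_subset_left
          exact_mod_cast h1
      _ ≤ Y.L * (Y.k * (t * κ)) := by
          rw [sum_const, nsmul_eq_mul]
          refine mul_le_mul_of_nonneg_right ?_ (by positivity)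
          have h1 := hF.codeg u x hux
          exact_mod_cast h1
  -- the second part
  have hB : ∑ T ∈ 𝒯.filter (fun T => ¬ x ∈ cC T), psW Y s T ≤
      Y.L * t * ∑ T ∈ 𝒰, psW Y s T := by
    set tg : Finset (Σ _ : PSt X, Finset X) :=
      𝒰.sigma (fun T => Y.F.filter (fun C => T.1 ∈ C ∧ u ∈ C ∧ T.1 ≠ u)) with htg
    set i : PSt X → (Σ _ : PSt X, Finset X) :=
      fun T => ⟨(T.1, T.2.erase (cC T)), cC T⟩ with hi
    have hinj' : Set.InjOn i (𝒯.filter (fun T => ¬ x ∈ cC T) : Finset (PSt X)) := by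
      intro T hT T' hT' h
      have hT1 := (mem_filter.1 hT).1
      have hT1' := (mem_filter.1 hT').1
      have e1 : cC T = cC T' := congrArg (fun w : (Σ _ : PSt X, Finset X) => w.2) h
      have e2 : (T.1, T.2.erase (cC T)) = (T'.1, T'.2.erase (cC T')) :=
        congrArg Sigma.fst h
      exact hinj T hT1 T' hT1' e1 e2
    have himg : (𝒯.filter (fun T => ¬ x ∈ cC T)).image i ⊆ tg := by
      intro w hw
      obtain ⟨T, hT, rfl⟩ := mem_image.1 hw
      obtain ⟨hT1, hT2⟩ := mem_filter.1 hT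
      obtain ⟨c1, c2⟩ := hCF T hT1
      obtain ⟨a1, C', a2, a3, -⟩ := (mem_filter.1 hT1).2.2.2
      have hxu : u ≠ T.1 := (mem_filter.1 hT1).2.2.1.1
      refine mem_sigma.2 ⟨mem_filter.2 ⟨hmem T hT1, hne T hT1, a1, C', mem_erase.2 ⟨?_, a2⟩, a3,
        trivial⟩, mem_filter.2 ⟨c1, c2, (hcC T hT1).2.1, fun h => hxu h.symm⟩⟩
      rintro rfl
      exact hT2 a3.1
    calc ∑ T ∈ 𝒯.filter (fun T => ¬ x ∈ cC T), psW Y s T
        ≤ ∑ T ∈ 𝒯.filter (fun T => ¬ x ∈ cC T), t * psW Y s (i T).1 := by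
          refine sum_le_sum fun T hT => ?_
          exact hfac T (mem_filter.1 hT).1
      _ = ∑ w ∈ (𝒯.filter (fun T => ¬ x ∈ cC T)).image i, t * psW Y s w.1 :=
          (sum_image (f := fun w => t * psW Y s w.1) hinj').symm
      _ ≤ ∑ w ∈ tg, t * psW Y s w.1 :=
          sum_le_sum_of_subset_of_nonneg himg fun w _ _ => mul_nonneg ht0 (psW_nonneg hN _)
      _ = ∑ T ∈ 𝒰, ∑ _C ∈ Y.F.filter (fun C => T.1 ∈ C ∧ u ∈ C ∧ T.1 ≠ u), t * psW Y s T := by
          rw [htg, sum_sigma]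
      _ ≤ ∑ T ∈ 𝒰, Y.L * (t * psW Y s T) := by
          refine sum_le_sum fun T hT => ?_
          rw [sum_const, nsmul_eq_mul]
          refine mul_le_mul_of_nonneg_right ?_ (mul_nonneg ht0 (psW_nonneg hN _))
          have h1 : #(Y.F.filter (fun C => T.1 ∈ C ∧ u ∈ C ∧ T.1 ≠ u)) ≤ Y.L := by
            by_cases h : T.1 = u
            · have : Y.F.filter (fun C => T.1 ∈ C ∧ u ∈ C ∧ T.1 ≠ u) = ∅ :=
                filter_eq_empty_iff.2 fun C _ hC => hC.2.2 h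
              rw [this]
              exact Nat.zero_le _
            · refine le_trans (card_le_card fun C hC => ?_) (hF.codeg T.1 u h)
              obtain ⟨h1, h2, h3, -⟩ := mem_filter.1 hC
              exact mem_filter.2 ⟨h1, h2, h3⟩
          exact_mod_cast h1
      _ = Y.L * t * ∑ T ∈ 𝒰, psW Y s T := by
          rw [mul_sum]
          exact sum_congr rfl fun T _ => by ring
  have hU : 0 ≤ ∑ T ∈ 𝒰, psW Y s T := sum_nonneg fun T _ => psW_nonneg hN _
  have hk1 : (1 : ℝ) ≤ Y.k := by exact_mod_cast hN.k1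
  have hL0 : (0 : ℝ) ≤ Y.L := Nat.cast_nonneg _
  have hτ1 : (Y.L : ℝ) * Y.k * t ≤ Q.τ := by
    refine le_trans ?_ hN.t1τ
    have h1 : (Y.k : ℝ) ≤ (Y.k : ℝ) ^ 4 := le_self_pow₀ hk1 (by norm_num)
    calc (Y.L : ℝ) * Y.k * t = Y.k * (Y.L * t) := by ring
      _ ≤ (Y.k : ℝ) ^ 4 * (Y.L * t) := mul_le_mul_of_nonneg_right h1 (by positivity)
      _ = _ := by rw [ht]; ring
  have hτ2 : (Y.L : ℝ) * t ≤ Q.τ := by
    refine le_trans ?_ hτ1
    calc (Y.L : ℝ) * t = Y.L * 1 * t := by ring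
      _ ≤ Y.L * Y.k * t := by gcongr
  calc ∑ T ∈ 𝒯.filter (fun T => x ∈ cC T), psW Y s T +
        ∑ T ∈ 𝒯.filter (fun T => ¬ x ∈ cC T), psW Y s T
      ≤ Y.L * (Y.k * (t * κ)) + Y.L * t * ∑ T ∈ 𝒰, psW Y s T := add_le_add hA hB
    _ = (Y.L * Y.k * t) * κ + (Y.L * t) * ∑ T ∈ 𝒰, psW Y s T := by ring
    _ ≤ Q.τ * κ + Q.τ * ∑ T ∈ 𝒰, psW Y s T :=
        add_le_add (mul_le_mul_of_nonneg_right hτ1 hκ0) (mul_le_mul_of_nonneg_right hτ2 hU)
    _ = _ := by ring

end Pool.H33.MB2
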