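import Pool.Agent.H33.MB2.TinyMp
import Pool.Agent.H33.MB2.TinyPs
import Pool.Agent.H33.MB2.ClUw
import Pool.Agent.H33.MB2.ClSm
import Pool.Agent.H33.MB2.KiMp
import Pool.Agent.H33.MB2.KiPs
import Pool.Agent.H33.MB2.KiUw

/-!
# The four families together
-/

set_option linter.unusedSectionVars false

namespace Pool.H33.MB2

open Finset
open scoped Classical

variable {X Γ : Type*} [DecidableEq X] {Y : Sys X Γ} {Q : Num2}
  {Lg : List (Entry X) → Finset X → Finset X → Prop} {s : State X}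

theorem cl_W (hF : FamH Y) (hN : NumH Y Q) (g : Good Y Lg s) {y z : X} (hyz : y ≠ z)
    (hy : y ∈ free Y s) (hz : z ∈ free Y s) {T : Big X} (hT : T ∈ bigI Y) :
    W Y (afterM s y z) T ≤ rf Y s y T * rf Y s z T * W Y s T := by
  rcases T with T | T | T | T
  · exact cl_mp hN g hyz hy hz ((mem_mpI hF).1 (mem_bigI_mp.1 hT))
  · exact cl_ps hN hyz hy hz (mem_psI.1 (mem_bigI_ps.1 hT)).2.2
  · exact cl_gc hN hyz hy hz T
  · exact cl_cp hN hyz hy hz T

theorem mono_W (hF : FamH Y) (hN : NumH Y Q) (g : Good Y Lg s) (y z : X) {T : Big X}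
    (hT : T ∈ bigI Y) (h : W Y (afterM s y z) T ≠ 0) : W Y s T ≤ W Y (afterM s y z) T := by
  rcases T with T | T | T | T
  · exact mono_mp hN g y z ((mem_mpI hF).1 (mem_bigI_mp.1 hT)) h
  · exact mono_ps hN y z h
  · exact mono_gc hN y z T
  · exact mono_cp hN y z T

theorem act_W (hF : FamH Y) (hN : NumH Y Q) (g : Good Y Lg s) (y z : X) {T : Big X}
    (hT : T ∈ bigI Y) (h : W Y (afterM s y z) T ≠ 0) {p : X} (ha : act Y s p T) :
    act Y (afterM s y z) p T := by
  rcases T with T | T | T | T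
  · exact act_mp hN g y z ((mem_mpI hF).1 (mem_bigI_mp.1 hT)) h ha
  · exact (act_ps y z).2 ha
  · exact (act_gc y z).2 ha
  · exact (act_cp y z).2 ha

theorem act_W' (y z : X) {T : Big X} {p : X} (ha : act Y (afterM s y z) p T) : act Y s p T := by
  rcases T with T | T | T | T
  · exact act_mp' y z ha
  · exact (act_ps y z).1 ha
  · exact (act_gc y z).1 ha
  · exact (act_cp y z).1 ha

theorem addB_W (hN : NumH Y Q) (g : Good Y Lg s) (x : X) (T : Big X) :
    W Y (addB s x) T ≤ W Y s T := by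
  rcases T with T | T | T | T
  · exact addB_mp hN g x T
  · exact addB_ps hN x T
  · exact addB_gc hN x T
  · exact addB_cp hN x T

theorem kill_W (hF : FamH Y) (x : X) {T : Big X} (hT : T ∈ bigI Y) (h : act Y s x T) :
    W Y (addB s x) T = 0 := by
  rcases T with T | T | T | T
  · exact kill_mp x ((mem_mpI hF).1 (mem_bigI_mp.1 hT)) h
  · exact kill_ps x h
  · exact kill_gc x h
  · exact kill_cp x h

theorem acts_W {x p : X} {T : Big X} (h : act Y (addB s x) p T) : act Y s p T := by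
  rcases T with T | T | T | T
  · exact acts_mp h
  · exact h
  · exact h
  · exact h

theorem reply_W (hN : NumH Y Q) (g : Good Y Lg s) (e : Entry X) (T : Big X) :
    W Y (reply s e) T ≤ W Y (addB s e.x) T := by
  rcases T with T | T | T | T
  · exact reply_mp hN g e T
  · exact reply_ps hN e T
  · exact reply_gc hN e T
  · exact reply_cp hN e T

theorem reply_act {e : Entry X} {p : X} {T : Big X} :
    act Y (reply s e) p T ↔ act Y (addB s e.x) p T := by
  rcases T with T | T | T | T <;> exact Iff.rfl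

theorem st_W (hF : FamH Y) (hN : NumH Y Q) (g : Good Y Lg s) {y z : X} (hy : y ∈ free Y s)
    (hz : z ∈ free Y s) {A : Finset X} (ht : tgt s y = some A) (x : X) {T : Big X}
    (hT : T ∈ bigI Y) (ha : act Y s y T) :
    W Y (reply (afterM s y z) ⟨y, A, x⟩) T ≤ W Y (afterM s y z) T / Y.K := by
  rcases T with T | T | T | T
  · exact st_mp hN g hy hz ht x ((mem_mpI hF).1 (mem_bigI_mp.1 hT)) ha
  · exact st_ps hN g hy hz ht x (mem_psI.1 (mem_bigI_ps.1 hT)).2.2 ha
  · exact st_gc hN g hy hz ht x ha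
  · exact st_cp hN g hy hz ht x ha

/-- The sum over the surviving structures with a property, by families. -/
theorem sum_sur (s : State X) (y z : X) (P : Big X → Prop) [DecidablePred P] :
    ∑ T ∈ (sur Y s y z).filter P, W Y s T =
      ∑ T ∈ (mpS Y s y z).filter (fun T => P (.inl T)), mpW Y s T +
      (∑ T ∈ (psI Y).filter (fun T => psW Y (afterM s y z) T ≠ 0 ∧ P (.inr (.inl T))), psW Y s T +
      (∑ T ∈ (gcI Y).filter (fun T => gcW Y (afterM s y z) T ≠ 0 ∧ P (.inr (.inr (.inl T)))),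
        gcW Y s T +
      ∑ T ∈ (cpI Y).filter (fun T => cpW Y (afterM s y z) T ≠ 0 ∧ P (.inr (.inr (.inr T)))),
        cpW Y s T)) := by
  simp only [sur, mpS, filter_filter, sum_filter, bigI, sum_disjSum]
  congr 1

/-- The tiny lemma. -/
theorem tiny_W (hF : FamH Y) (hN : NumH Y Q) (hG : GeoH Y Lg) (g : Good Y Lg s)
    (hgs : ∀ v ∈ free Y s, gs Y s v ≤ Y.M1) {y z : X} (hy : y ∈ free Y s) (hz : z ∈ free Y s)
    {u x : X} (hu : u ∈ free Y s) (hx : x ∈ free Y s) (hux : u ≠ x) {κ : ℝ} (hκ0 : 0 ≤ κ)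
    (hκ : ∀ p ∈ free Y (afterM s y z), Rt Y (afterM s y z) p ≤ κ)
    (hκ' : ∀ p ∈ free Y (afterM s y z), phi Y (afterM s y z) p ≤ κ) :
    ∑ T ∈ (sur Y s y z).filter (fun T => cact Y s u T ∧ act Y s x T), W Y s T ≤
      6 * Q.τ * (κ + phr Y s y z x) := by
  have h1 := tiny_mp hF hN hG g hgs hy hz hu hx hux hκ0 hκ hκ'
  have h2 := tiny_ps hF hN g hy hz hu hx hux hκ0 hκ
  have hτ := hN.τpos
  rw [sum_sur, phr, sum_sur]
  have e3 : ∑ T ∈ (gcI Y).filter (fun T => gcW Y (afterM s y z) T ≠ 0 ∧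
      (cact Y s u (.inr (.inr (.inl T))) ∧ act Y s x (.inr (.inr (.inl T))))), gcW Y s T = 0 := by
    apply sum_eq_zero
    intro T hT
    rw [mem_filter] at hT
    exact absurd hT.2.2.1 not_cact_gc
  have e4 : ∑ T ∈ (cpI Y).filter (fun T => cpW Y (afterM s y z) T ≠ 0 ∧
      (cact Y s u (.inr (.inr (.inr T))) ∧ act Y s x (.inr (.inr (.inr T))))), cpW Y s T = 0 := by
    apply sum_eq_zero
    intro T hT
    rw [mem_filter] at hT
    exact absurd hT.2.2.1 not_cact_cp
  have n3 : 0 ≤ ∑ T ∈ (gcI Y).filter (fun T => gcW Y (afterM s y z) T ≠ 0 ∧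
      act Y s x (.inr (.inr (.inl T)))), gcW Y s T := sum_nonneg fun T _ => gcW_nonneg hN T
  have n4 : 0 ≤ ∑ T ∈ (cpI Y).filter (fun T => cpW Y (afterM s y z) T ≠ 0 ∧
      act Y s x (.inr (.inr (.inr T)))), cpW Y s T := sum_nonneg fun T _ => cpW_nonneg hN T
  have n1 : 0 ≤ ∑ T ∈ (mpS Y s y z).filter (fun T => act Y s x (.inl T)), mpW Y s T :=
    sum_nonneg fun T _ => mpW_nonneg hN g T
  have n2 : 0 ≤ ∑ T ∈ (psI Y).filter (fun T => psW Y (afterM s y z) T ≠ 0 ∧
      act Y s x (.inr (.inl T))), psW Y s T := sum_nonneg fun T _ => psW_nonneg hN T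
  rw [e3, e4]
  nlinarith [mul_nonneg hτ.le n1, mul_nonneg hτ.le n2, mul_nonneg hτ.le n3, mul_nonneg hτ.le n4]

theorem phi_eq (s : State X) (p : X) : phi Y s p =
    ∑ T ∈ bigI Y, (if act Y s p T then W Y s T else 0) := by
  rw [phi, sum_filter]

end Pool.H33.MB2
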