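import Pool.Agent.H33.MB2.Rates

/-!
# MB2 CLB: Maker's claims and the values of the sets

`s1 = afterM s y z` (only `M` changes, so `os`, `alive`, `clean`, `s.J`, `s.lb` are the same; `lev s1 C` is `lev s C` minus the
number of `p ∈ {y, z}` with `p ∈ C`, `s.lb C p = none`; `y`, `z` are unclaimed in `s` where needed).
`b1 Y s1 C ≤ g_y * g_z * b1 Y s C` where `g_p = 1` if `¬ actN s C p`, and otherwise `rc` if `Y.jb + Y.L1 < lev s C` and `rw` if not
(`a1rc`, `a1rw`, `rw ≤ rc`; when both points are active the level drops by two; if `lev s C ≤ jb + L1` both steps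
are warm, and `u - 1 < jb + L1` is what `a1rw` wants; if `jb + L1 < lev s C` use `a1rc` twice).  Same for `b2` with `L2`.
(Levels never drop below 0: an active unclaimed point of `C` is counted in the level.)
-/

set_option linter.unusedSectionVars false

namespace Pool.H33.MB2

open Finset
open scoped Classical

variable {X Γ : Type*} [DecidableEq X] {Y : Sys X Γ} {Q : Num2}
  {Lg : List (Entry X) → Finset X → Finset X → Prop} {s : State X}

/-- The state with Maker's set replaced by `M'`. -/
def mset (s : State X) (M' : Finset X) : State X := { s with M := M' }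

theorem lev_mset_le (s : State X) {M' : Finset X} (hM : s.M ⊆ M') (C : Finset X) :
    lev (mset s M') C ≤ lev s C := by
  unfold lev
  refine card_le_card fun v hv => ?_
  rw [mem_filter] at hv ⊢
  refine ⟨hv.1, hv.2.imp (fun h h' => h (hM h')) fun h => h⟩

theorem lev_claim (s : State X) {p : X} (hp : p ∉ s.M) (C : Finset X) :
    lev s C = lev (mset s (insert p s.M)) C + if actN s C p then 1 else 0 := by
  have h1 : ∀ v, (v ∉ (mset s (insert p s.M)).M ∨ (mset s (insert p s.M)).lb C v ≠ none) ↔
      ((v ∉ s.M ∧ v ≠ p) ∨ s.lb C v ≠ none) := by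
    intro v
    simp only [mset, mem_insert, not_or]
    tauto
  unfold lev
  simp only [h1]
  split_ifs with ha
  · obtain ⟨hpC, hl⟩ := ha
    have h2 : C.filter (fun v => v ∉ s.M ∨ s.lb C v ≠ none) =
        insert p (C.filter fun v => (v ∉ s.M ∧ v ≠ p) ∨ s.lb C v ≠ none) := by
      ext v
      simp only [mem_filter, mem_insert]
      constructor
      · rintro ⟨h3, h4⟩
        by_cases h5 : v = p
        · exact Or.inl h5
        · exact Or.inr ⟨h3, h4.imp (fun h => ⟨h, h5⟩) fun h => h⟩
      · rintro (rfl | ⟨h3, h4⟩)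
        · exact ⟨hpC, Or.inl hp⟩
        · exact ⟨h3, h4.imp (fun h => h.1) fun h => h⟩
    rw [h2, card_insert_of_notMem]
    intro h3
    rw [mem_filter] at h3
    rcases h3.2 with h4 | h4
    · exact h4.2 rfl
    · exact h4 hl
  · rw [add_zero]
    congr 1
    ext v
    simp only [mem_filter]
    constructor
    · rintro ⟨h3, h4⟩
      refine ⟨h3, ?_⟩
      by_cases h5 : v = p
      · subst h5
        by_cases h6 : s.lb C v = none
        · exact absurd ⟨h3, h6⟩ ha
        · exact Or.inr h6
      · exact h4.imp (fun h => ⟨h, h5⟩) fun h => h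
    · rintro ⟨h3, h4⟩
      exact ⟨h3, h4.imp (fun h => h.1) fun h => h⟩

theorem lev_claim_add (s : State X) (p : X) (C : Finset X) :
    lev s C ≤ lev (mset s (insert p s.M)) C + 1 := by
  by_cases hp : p ∈ s.M
  · rw [insert_eq_of_mem hp]
    exact Nat.le_succ _
  · rw [lev_claim s hp C]
    split_ifs <;> omega

theorem b1_mset (hN : NumH Y Q) {M' : Finset X} (hM : s.M ⊆ M') (C : Finset X) :
    b1 Y s C ≤ b1 Y (mset s M') C := by
  unfold b1
  exact mul_le_mul_of_nonneg_left (a1_anti hN (lev_mset_le s hM C))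
    (mul_pos hN.c1pos (kb_pos hN _ _)).le

theorem b2_mset (hN : NumH Y Q) {M' : Finset X} (hM : s.M ⊆ M') (C : Finset X) :
    b2 Y s C ≤ b2 Y (mset s M') C := by
  unfold b2
  exact mul_le_mul_of_nonneg_left (a2_anti hN (lev_mset_le s hM C))
    (mul_pos hN.ρ2pos (kb_pos hN _ _)).le

theorem b1_claim (hN : NumH Y Q) {p : X} (hp : p ∉ s.M) (C : Finset X) :
    b1 Y (mset s (insert p s.M)) C ≤
      (if actN s C p then (if Y.jb + Y.L1 < lev s C then rc Y else rw Y) else 1) * b1 Y s C := by
  have h1 := lev_claim s hp C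
  have hc : 0 < Y.c1 * kb Y Y.bs (os Y s C) := mul_pos hN.c1pos (kb_pos hN _ _)
  have ho : os Y (mset s (insert p s.M)) C = os Y s C := rfl
  unfold b1
  rw [ho]
  split_ifs at h1 ⊢ with ha hl
  · have h2 := hN.a1rc (lev (mset s (insert p s.M)) C)
    rw [← h1] at h2
    have := mul_le_mul_of_nonneg_left h2 hc.le
    linarith
  · have h2 := hN.a1rw (lev (mset s (insert p s.M)) C) (by omega)
    rw [← h1] at h2
    have := mul_le_mul_of_nonneg_left h2 hc.le
    linarith
  · rw [one_mul, h1, add_zero]

theorem b2_claim (hN : NumH Y Q) {p : X} (hp : p ∉ s.M) (C : Finset X) :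
    b2 Y (mset s (insert p s.M)) C ≤
      (if actN s C p then (if Y.jb + Y.L2 < lev s C then rc Y else rw Y) else 1) * b2 Y s C := by
  have h1 := lev_claim s hp C
  have hc : 0 < Y.ρ2 * kb Y Y.bs (os Y s C) := mul_pos hN.ρ2pos (kb_pos hN _ _)
  have ho : os Y (mset s (insert p s.M)) C = os Y s C := rfl
  unfold b2
  rw [ho]
  split_ifs at h1 ⊢ with ha hl
  · have h2 := hN.a2rc (lev (mset s (insert p s.M)) C)
    rw [← h1] at h2
    have := mul_le_mul_of_nonneg_left h2 hc.le
    linarith
  · have h2 := hN.a2rw (lev (mset s (insert p s.M)) C) (by omega)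
    rw [← h1] at h2
    have := mul_le_mul_of_nonneg_left h2 hc.le
    linarith
  · rw [one_mul, h1, add_zero]

/-- the factors grow with the level -/
theorem ite_rc_mono (Y : Sys X Γ) {n u u' : ℕ} (h : u ≤ u') :
    (if n < u then rc Y else rw Y) ≤ (if n < u' then rc Y else rw Y) := by
  have := rw_le_rc (Y := Y)
  split_ifs
  · exact le_rfl
  · omega
  · exact this
  · exact le_rfl

/-- Levels after the claims. -/
theorem lev_afterM_le (s : State X) (y z : X) (C : Finset X) : lev (afterM s y z) C ≤ lev s C := by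
  refine (lev_mset_le s (M' := insert y (insert z s.M)) ?_ C)
  exact (subset_insert _ _).trans (subset_insert _ _)

theorem lev_le_afterM (s : State X) (y z : X) (C : Finset X) :
    lev s C ≤ lev (afterM s y z) C + 2 := by
  have h1 := lev_claim_add s z C
  have h2 := lev_claim_add (mset s (insert z s.M)) y C
  have h3 : lev (afterM s y z) C =
      lev (mset (mset s (insert z s.M)) (insert y (mset s (insert z s.M)).M)) C := rfl
  omega

/-- Growth of the value of a set. -/
theorem cl_b1 (hN : NumH Y Q) {y z : X} (hyz : y ≠ z) (hy : y ∈ free Y s) (hz : z ∈ free Y s)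
    (C : Finset X) : b1 Y (afterM s y z) C ≤
      (if actN s C y then (if Y.jb + Y.L1 < lev s C then rc Y else rw Y) else 1) *
      (if actN s C z then (if Y.jb + Y.L1 < lev s C then rc Y else rw Y) else 1) * b1 Y s C := by
  have hyM : y ∉ s.M := (mem_free.1 hy).2.1
  have hzM : z ∉ s.M := (mem_free.1 hz).2.1
  have hyM' : y ∉ (mset s (insert z s.M)).M := by
    simp only [mset, mem_insert, not_or]
    exact ⟨hyz, hyM⟩
  have h1 := b1_claim (s := mset s (insert z s.M)) hN hyM' C
  have h2 := b1_claim (s := s) hN hzM C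
  have h3 : lev (mset s (insert z s.M)) C ≤ lev s C := lev_mset_le s (subset_insert _ _) C
  have hrw := rw_ge hN
  have hrc := rw_le_rc (Y := Y)
  have h4 : (if actN (mset s (insert z s.M)) C y then
      (if Y.jb + Y.L1 < lev (mset s (insert z s.M)) C then rc Y else rw Y) else 1) ≤
      (if actN s C y then (if Y.jb + Y.L1 < lev s C then rc Y else rw Y) else 1) := by
    have h5 : actN (mset s (insert z s.M)) C y ↔ actN s C y := Iff.rfl
    by_cases h6 : actN s C y
    · rw [if_pos h6, if_pos (h5.2 h6)]
      exact ite_rc_mono Y h3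
    · rw [if_neg h6, if_neg (fun h => h6 (h5.1 h))]
  have h7 : 0 ≤ (if actN s C y then (if Y.jb + Y.L1 < lev s C then rc Y else rw Y) else 1) := by
    split_ifs <;> linarith
  have h8 : 0 ≤ b1 Y (mset s (insert z s.M)) C := (b1_pos hN C).le
  calc b1 Y (afterM s y z) C = b1 Y (mset (mset s (insert z s.M))
        (insert y (mset s (insert z s.M)).M)) C := rfl
    _ ≤ _ := h1
    _ ≤ (if actN s C y then (if Y.jb + Y.L1 < lev s C then rc Y else rw Y) else 1) *
        b1 Y (mset s (insert z s.M)) C := mul_le_mul_of_nonneg_right h4 h8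
    _ ≤ (if actN s C y then (if Y.jb + Y.L1 < lev s C then rc Y else rw Y) else 1) *
        ((if actN s C z then (if Y.jb + Y.L1 < lev s C then rc Y else rw Y) else 1) *
          b1 Y s C) := mul_le_mul_of_nonneg_left h2 h7
    _ = _ := by ring

theorem cl_b2 (hN : NumH Y Q) {y z : X} (hyz : y ≠ z) (hy : y ∈ free Y s) (hz : z ∈ free Y s)
    (C : Finset X) : b2 Y (afterM s y z) C ≤
      (if actN s C y then (if Y.jb + Y.L2 < lev s C then rc Y else rw Y) else 1) *
      (if actN s C z then (if Y.jb + Y.L2 < lev s C then rc Y else rw Y) else 1) * b2 Y s C := by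
  have hyM : y ∉ s.M := (mem_free.1 hy).2.1
  have hzM : z ∉ s.M := (mem_free.1 hz).2.1
  have hyM' : y ∉ (mset s (insert z s.M)).M := by
    simp only [mset, mem_insert, not_or]
    exact ⟨hyz, hyM⟩
  have h1 := b2_claim (s := mset s (insert z s.M)) hN hyM' C
  have h2 := b2_claim (s := s) hN hzM C
  have h3 : lev (mset s (insert z s.M)) C ≤ lev s C := lev_mset_le s (subset_insert _ _) C
  have hrw := rw_ge hN
  have hrc := rw_le_rc (Y := Y)
  have h4 : (if actN (mset s (insert z s.M)) C y then
      (if Y.jb + Y.L2 < lev (mset s (insert z s.M)) C then rc Y else rw Y) else 1) ≤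
      (if actN s C y then (if Y.jb + Y.L2 < lev s C then rc Y else rw Y) else 1) := by
    have h5 : actN (mset s (insert z s.M)) C y ↔ actN s C y := Iff.rfl
    by_cases h6 : actN s C y
    · rw [if_pos h6, if_pos (h5.2 h6)]
      exact ite_rc_mono Y h3
    · rw [if_neg h6, if_neg (fun h => h6 (h5.1 h))]
  have h7 : 0 ≤ (if actN s C y then (if Y.jb + Y.L2 < lev s C then rc Y else rw Y) else 1) := by
    split_ifs <;> linarith
  have h8 : 0 ≤ b2 Y (mset s (insert z s.M)) C := (b2_pos hN C).le
  calc b2 Y (afterM s y z) C = b2 Y (mset (mset s (insert z s.M))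
        (insert y (mset s (insert z s.M)).M)) C := rfl
    _ ≤ _ := h1
    _ ≤ (if actN s C y then (if Y.jb + Y.L2 < lev s C then rc Y else rw Y) else 1) *
        b2 Y (mset s (insert z s.M)) C := mul_le_mul_of_nonneg_right h4 h8
    _ ≤ (if actN s C y then (if Y.jb + Y.L2 < lev s C then rc Y else rw Y) else 1) *
        ((if actN s C z then (if Y.jb + Y.L2 < lev s C then rc Y else rw Y) else 1) *
          b2 Y s C) := mul_le_mul_of_nonneg_left h2 h7
    _ = _ := by ring

theorem b1_mono (hN : NumH Y Q) (y z : X) (C : Finset X) : b1 Y s C ≤ b1 Y (afterM s y z) C := by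
  exact b1_mset hN (M' := insert y (insert z s.M))
    ((subset_insert _ _).trans (subset_insert _ _)) C

theorem b2_mono (hN : NumH Y Q) (y z : X) (C : Finset X) : b2 Y s C ≤ b2 Y (afterM s y z) C := by
  exact b2_mset hN (M' := insert y (insert z s.M))
    ((subset_insert _ _).trans (subset_insert _ _)) C

end Pool.H33.MB2
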