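import Pool.Agent.H33.MB2.ClB

/-!
# MB2 CLMP: Maker's claims and micro tuples

Write `s1 = afterM s y z` (only `M` changes, so `os`, `alive`, `clean`, `s.J`, `s.lb`, `s1`, `s2`, `ss`
are the same; `lev s1 C` is `lev s C` minus the number of `p ∈ {y, z}` with `p ∈ C`, `s.lb C p = none`).

* Value of a set: `b1 Y s1 C ≤ g_y * g_z * b1 Y s C` where `g_p = 1` if `¬ actN s C p`, and otherwise
  `rc` if `Y.jb + Y.L1 < lev s C` and `rw` if not (`a1rc`, `a1rw`, `rw ≤ rc`; when both points are
  active the level drops by two; if `lev s C ≤ jb + L1` both steps are warm, and `u - 1 < jb + L1`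
  is what `a1rw` wants).  Same for `b2` with `L2`.  (Levels never drop below 0: an active unclaimed
  point of `C` is counted in the level.)
* Let `mpW Y s1 T ≠ 0` (otherwise the claim follows from nonnegativity).  Then `alive s T.1`,
  `T.1 ∉ s.J`, and each `ev Y s1 T.1 e ≠ 0`.  So either `s.lb T.1 e.1.1 = some e.1.2` (frozen, the value
  is the same in `s` and `s1`) or `att Y s1 ..` holds, hence `att Y s ..` (fewer claimed points), and for
  the leaves `l` of a type 2 element `sv Y s1 e.1.2 l ≠ 0`, so either frozen or `att`; in particular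
  `y, z` are not the link of an attached element or of an attached leaf.
* For an attached element `e` of the root `E` and `p ∈ {y, z}`: if `p` is active for `e.1.2`
  (`actN s e.1.2 p`) then `p ≠ e.1.1` (the link is unclaimed in `s1`) and `p ≠ l.1` for all leaves
  (an attached leaf has its link unclaimed in `s1`; for a frozen leaf `s.lb e.1.2 l.1 ≠ none`), so
  `actEl` holds by its first part.  If `p` is active for the leaf set `l.2` and the leaf is attached
  then `actEl` holds by its second part.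
* `p` lies in `supp e` for at most one `e ∈ T.2` (disjoint supports) and inside `supp e` in at most one
  of the sets `e.1.2`, `l.2` (`l ∈ e.2.2`) unless `p` is the link `l.1` of the leaf
  (`e.1.2 ∩ l.2 = {l.1}` by `gen`, leaves pairwise disjoint).  So for each `p ∈ {y, z}` at most one
  factor grows, by at most `rf Y s p (.inl T)` (if the set is cold, `cact` holds with this set).
* Therefore `mpW Y s1 T ≤ rf Y s y (.inl T) * rf Y s z (.inl T) * mpW Y s T`.
  Convenient form: prove by `Finset.prod_le_prod` and `Finset.prod_ite_eq`-like splitting that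
  `∏ e, ev s1 e ≤ (∏ e, gy e * gz e) * ∏ e, ev s e` and `∏ e, gy e ≤ rf y`, where `gy e = 1` unless
  `y ∈ supp e`.
-/

set_option linter.unusedSectionVars false

namespace Pool.H33.MB2

open Finset
open scoped Classical

variable {X Γ : Type*} [DecidableEq X] {Y : Sys X Γ} {Q : Num2}
  {Lg : List (Entry X) → Finset X → Finset X → Prop} {s : State X}

theorem att_mset {M' : Finset X} (hM : s.M ⊆ M') {A C : Finset X} {v : X}
    (h : att Y (mset s M') A C v) : att Y s A C v :=
  ⟨fun h' => h.1 (hM h'), h.2⟩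

/-- A surviving leaf does not lose weight. -/
theorem sv_mset (hN : NumH Y Q) {M' : Finset X} (hM : s.M ⊆ M') {A : Finset X} {l : X × Finset X}
    (h : sv Y (mset s M') A l ≠ 0) : sv Y s A l ≤ sv Y (mset s M') A l := by
  unfold sv at h ⊢
  have h1 : (mset s M').lb A l.1 = s.lb A l.1 := rfl
  have h2 : (mset s M').s1 l.2 = s.s1 l.2 := rfl
  rw [h1, h2] at h
  rw [h1, h2]
  by_cases h3 : s.lb A l.1 = some l.2
  · rw [if_pos h3, if_pos h3]
  · rw [if_neg h3] at h
    rw [if_neg h3, if_neg h3]
    have h4 : att Y (mset s M') A l.2 l.1 := by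
      by_contra h5
      rw [if_neg h5] at h
      exact h rfl
    rw [if_pos h4, if_pos (att_mset hM h4)]
    exact b1_mset hN hM _

/-- A surviving element does not lose weight. -/
theorem ev_mset (hN : NumH Y Q) (hs1 : ∀ A, 0 ≤ s.s1 A) {M' : Finset X} (hM : s.M ⊆ M')
    {E : Finset X} {e : El X} (h : ev Y (mset s M') E e ≠ 0) :
    ev Y s E e ≤ ev Y (mset s M') E e := by
  unfold ev at h ⊢
  have h1 : (mset s M').lb E e.1.1 = s.lb E e.1.1 := rfl
  have h2 : (mset s M').s1 e.1.2 = s.s1 e.1.2 := rfl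
  have h2' : (mset s M').s2 e.1.2 = s.s2 e.1.2 := rfl
  have h2'' : (mset s M').ss e.1.2 = s.ss e.1.2 := rfl
  rw [h1, h2, h2', h2''] at h
  rw [h1, h2, h2', h2'']
  by_cases h3 : s.lb E e.1.1 = some e.1.2
  · rw [if_pos h3, if_pos h3]
  · rw [if_neg h3] at h
    rw [if_neg h3, if_neg h3]
    have h4 : att Y (mset s M') E e.1.2 e.1.1 := by
      by_contra h5
      rw [if_neg h5] at h
      exact h rfl
    rw [if_pos h4] at h
    rw [if_pos h4, if_pos (att_mset hM h4)]
    by_cases h5 : e.2.1 = true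
    · rw [if_pos h5] at h
      rw [if_pos h5, if_pos h5]
      have h6 := right_ne_zero_of_mul h
      rw [prod_ne_zero_iff] at h6
      refine mul_le_mul (b2_mset hN hM _) (prod_le_prod (fun l _ => ?_) fun l hl =>
        sv_mset hN hM (h6 l hl)) (prod_nonneg fun l _ => ?_) (b2_pos hN _).le
      · unfold sv
        split_ifs
        · exact hs1 _
        · exact (b1_pos hN _).le
        · exact le_rfl
      · unfold sv
        split_ifs
        · exact hs1 _
        · exact (b1_pos hN _).le
        · exact le_rfl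
    · rw [if_neg h5, if_neg h5]
      exact b1_mset hN hM _

/-- Growth of a surviving leaf when Maker claims `p`. -/
theorem sv_claim (hN : NumH Y Q) {p : X} (hp : p ∉ s.M) {A : Finset X} {l : X × Finset X}
    (hs1 : ∀ A, 0 ≤ s.s1 A)
    (h : sv Y (mset s (insert p s.M)) A l ≠ 0) :
    sv Y (mset s (insert p s.M)) A l ≤
      (if att Y s A l.2 l.1 ∧ actN s l.2 p ∧ p ≠ l.1 then
        (if Y.jb + Y.L1 < lev s l.2 then rc Y else rw Y) else 1) * sv Y s A l := by
  have hrw := rw_ge hN
  have hrc := rw_le_rc (Y := Y)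
  have hge : 1 ≤ (if att Y s A l.2 l.1 ∧ actN s l.2 p ∧ p ≠ l.1 then
        (if Y.jb + Y.L1 < lev s l.2 then rc Y else rw Y) else 1) := by
    split_ifs <;> linarith
  have h1 : (mset s (insert p s.M)).lb A l.1 = s.lb A l.1 := rfl
  have h2 : (mset s (insert p s.M)).s1 l.2 = s.s1 l.2 := rfl
  unfold sv at h ⊢
  rw [h1, h2] at h
  rw [h1, h2]
  by_cases h3 : s.lb A l.1 = some l.2
  · rw [if_pos h3, if_pos h3]
    exact le_mul_of_one_le_left (hs1 _) hge
  · rw [if_neg h3] at h
    rw [if_neg h3, if_neg h3]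
    have h4 : att Y (mset s (insert p s.M)) A l.2 l.1 := by
      by_contra h5
      rw [if_neg h5] at h
      exact h rfl
    have h5 : att Y s A l.2 l.1 := att_mset (subset_insert _ _) h4
    rw [if_pos h4, if_pos h5]
    refine (b1_claim hN hp l.2).trans (mul_le_mul_of_nonneg_right ?_ (b1_pos hN _).le)
    have h6 : p ≠ l.1 := fun h' => h4.1 (by
      rw [← h']
      exact mem_insert_self _ _)
    by_cases h7 : actN s l.2 p
    · have h8 : att Y s A l.2 l.1 ∧ actN s l.2 p ∧ p ≠ l.1 := ⟨h5, h7, h6⟩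
      rw [if_pos h7, if_pos h8]
    · rw [if_neg h7, if_neg (fun h => h7 h.2.1)]

/-- A product with at most one factor larger than `1`. -/
theorem prod_le_of_one {ι : Type*} {t : Finset ι} {a b : ι → ℝ} {R : ℝ} (hR : 1 ≤ R)
    (hb : ∀ i ∈ t, 0 ≤ b i) (ha : ∀ i ∈ t, 0 ≤ a i) (P : ι → Prop)
    (hu : ∀ i ∈ t, ∀ j ∈ t, P i → P j → i = j) (h1 : ∀ i ∈ t, ¬ P i → a i ≤ b i)
    (h2 : ∀ i ∈ t, P i → a i ≤ R * b i) : ∏ i ∈ t, a i ≤ R * ∏ i ∈ t, b i := by
  classical
  by_cases h3 : ∃ i ∈ t, P i
  · obtain ⟨i, hi, hPi⟩ := h3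
    rw [← mul_prod_erase t a hi, ← mul_prod_erase t b hi, ← mul_assoc]
    refine mul_le_mul (h2 i hi hPi) (prod_le_prod (fun j hj => ha j (mem_of_mem_erase hj))
      fun j hj => h1 j (mem_of_mem_erase hj) fun hPj => ?_)
      (prod_nonneg fun j hj => ha j (mem_of_mem_erase hj))
      (mul_nonneg (by linarith) (hb i hi))
    exact ne_of_mem_erase hj (hu j (mem_of_mem_erase hj) i hi hPj hPi)
  · push Not at h3
    have h4 : ∏ i ∈ t, a i ≤ ∏ i ∈ t, b i := prod_le_prod ha fun i hi => h1 i hi (h3 i hi)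
    exact h4.trans (le_mul_of_one_le_left (prod_nonneg hb) hR)

theorem sv_nonneg' (hN : NumH Y Q) (hs1 : ∀ A, 0 ≤ s.s1 A) (A : Finset X) (l : X × Finset X) :
    0 ≤ sv Y s A l := by
  unfold sv
  split_ifs
  · exact hs1 _
  · exact (b1_pos hN _).le
  · exact le_rfl

theorem ev_nonneg' (hN : NumH Y Q) (hs1 : ∀ A, 0 ≤ s.s1 A) (hs2 : ∀ A, 0 ≤ s.s2 A)
    (hss : ∀ A l, 0 ≤ s.ss A l) (E : Finset X) (e : El X) :
    0 ≤ ev Y s E e := by
  unfold ev
  split_ifs
  · exact mul_nonneg (hs2 _) (prod_nonneg fun l _ => hss _ _)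
  · exact hs1 _
  · exact mul_nonneg (b2_pos hN _).le (prod_nonneg fun l _ => sv_nonneg' hN hs1 _ _)
  · exact (b1_pos hN _).le
  · exact le_rfl

/-- The growth factor of an element. -/
noncomputable def gEl (Y : Sys X Γ) (s : State X) (E : Finset X) (e : El X) (p : X) : ℝ :=
  if actEl Y s (fun _ _ => True) E e p then (if actEl Y s (coldlv Y) E e p then rc Y else rw Y)
  else 1

theorem gEl_ge (hN : NumH Y Q) (E : Finset X) (e : El X) (p : X) : 1 ≤ gEl Y s E e p := by
  have hrw := rw_ge hN
  have hrc := rw_le_rc (Y := Y)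
  unfold gEl
  split_ifs <;> linarith

/-- Growth of a surviving element when Maker claims `p`. -/
theorem ev_claim (hN : NumH Y Q) (hs1 : ∀ A, 0 ≤ s.s1 A) (hs2 : ∀ A, 0 ≤ s.s2 A)
    (hss : ∀ A l, 0 ≤ s.ss A l) {p : X} (hp : p ∉ s.M) {E : Finset X} {e : El X}
    (he : ValidEl Y E e) (h : ev Y (mset s (insert p s.M)) E e ≠ 0) :
    ev Y (mset s (insert p s.M)) E e ≤ gEl Y s E e p * ev Y s E e := by
  have hrw := rw_ge hN
  have hrc := rw_le_rc (Y := Y)
  have hge := gEl_ge (s := s) hN E e p
  have h1 : (mset s (insert p s.M)).lb E e.1.1 = s.lb E e.1.1 := rfl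
  have h2 : (mset s (insert p s.M)).s1 e.1.2 = s.s1 e.1.2 := rfl
  have h2' : (mset s (insert p s.M)).s2 e.1.2 = s.s2 e.1.2 := rfl
  have h2'' : (mset s (insert p s.M)).ss e.1.2 = s.ss e.1.2 := rfl
  by_cases h3 : s.lb E e.1.1 = some e.1.2
  · have h4 : ev Y (mset s (insert p s.M)) E e = ev Y s E e := by
      unfold ev
      rw [h1, h2, h2', h2'', if_pos h3, if_pos h3]
    rw [h4]
    exact le_mul_of_one_le_left (ev_nonneg' hN hs1 hs2 hss E e) hge
  · have h4 : att Y (mset s (insert p s.M)) E e.1.2 e.1.1 := by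
      by_contra h5
      apply h
      unfold ev
      rw [h1, if_neg h3, if_neg h5]
    have h5 : att Y s E e.1.2 e.1.1 := att_mset (subset_insert _ _) h4
    have h6 : p ≠ e.1.1 := fun h' => h4.1 (by
      rw [← h']
      exact mem_insert_self _ _)
    by_cases hκ : e.2.1 = true
    · -- type 2
      have h7 : ev Y (mset s (insert p s.M)) E e = b2 Y (mset s (insert p s.M)) e.1.2 *
          ∏ l ∈ e.2.2, sv Y (mset s (insert p s.M)) e.1.2 l := by
        unfold ev
        rw [h1, if_neg h3, if_pos h4, if_pos hκ]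
      have h8 : ev Y s E e = b2 Y s e.1.2 * ∏ l ∈ e.2.2, sv Y s e.1.2 l := by
        unfold ev
        rw [if_neg h3, if_pos h5, if_pos hκ]
      rw [h7] at h ⊢
      rw [h8]
      have h9 := right_ne_zero_of_mul h
      rw [prod_ne_zero_iff] at h9
      have hsv : ∀ l ∈ e.2.2, sv Y (mset s (insert p s.M)) e.1.2 l ≤
        (if att Y s e.1.2 l.2 l.1 ∧ actN s l.2 p ∧ p ≠ l.1 then
          (if Y.jb + Y.L1 < lev s l.2 then rc Y else rw Y) else 1) * sv Y s e.1.2 l :=
        fun l hl => sv_claim hN hp hs1 (h9 l hl)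
      have hsn : ∀ l, 0 ≤ sv Y s e.1.2 l := fun l => sv_nonneg' hN hs1 _ _
      have hsn' : ∀ l, 0 ≤ sv Y (mset s (insert p s.M)) e.1.2 l := fun l =>
        sv_nonneg' (s := mset s (insert p s.M)) hN hs1 _ _
      by_cases hact : actN s e.1.2 p
      · -- `p` active for the main set
        have hleaf : ∀ l ∈ e.2.2, l.1 ≠ p := by
          intro l hl hlp
          have h10 := h9 l hl
          unfold sv at h10
          have h11 : (mset s (insert p s.M)).lb e.1.2 l.1 = s.lb e.1.2 l.1 := rfl
          rw [h11, hlp, hact.2] at h10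
          rw [if_neg (by simp)] at h10
          have h12 : att Y (mset s (insert p s.M)) e.1.2 l.2 p := by
            by_contra h13
            rw [if_neg h13] at h10
            exact h10 rfl
          exact h12.1 (mem_insert_self _ _)
        have hb : b2 Y (mset s (insert p s.M)) e.1.2 ≤ gEl Y s E e p * b2 Y s e.1.2 := by
          refine (b2_claim hN hp _).trans (mul_le_mul_of_nonneg_right ?_ (b2_pos hN _).le)
          rw [if_pos hact]
          have h10 : actEl Y s (fun _ _ => True) E e p :=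
            ⟨h5, Or.inl ⟨hact, h6, hleaf, trivial⟩⟩
          unfold gEl
          rw [if_pos h10]
          by_cases h11 : Y.jb + Y.L2 < lev s e.1.2
          · have h12 : actEl Y s (coldlv Y) E e p := by
              refine ⟨h5, Or.inl ⟨hact, h6, hleaf, ?_⟩⟩
              unfold coldlv
              rw [if_pos hκ]
              exact h11
            rw [if_pos h11, if_pos h12]
          · rw [if_neg h11]
            split_ifs
            · exact hrc
            · exact le_rfl
        have hpr : ∏ l ∈ e.2.2, sv Y (mset s (insert p s.M)) e.1.2 l ≤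
            ∏ l ∈ e.2.2, sv Y s e.1.2 l := by
          refine prod_le_prod (fun l _ => hsn' l) fun l hl => ?_
          have h10 := hsv l hl
          rw [if_neg, one_mul] at h10
          · exact h10
          · rintro ⟨-, h11, h12⟩
            obtain ⟨-, h13, h14, h15, -⟩ := he.hl l hl
            exact h12 (gen_eq h13 hact.1 h11.1 h14 h15)
        calc b2 Y (mset s (insert p s.M)) e.1.2 * ∏ l ∈ e.2.2, sv Y (mset s (insert p s.M)) e.1.2 l
            ≤ (gEl Y s E e p * b2 Y s e.1.2) * ∏ l ∈ e.2.2, sv Y s e.1.2 l :=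
              mul_le_mul hb hpr (prod_nonneg fun l _ => hsn' l)
                (mul_nonneg (by linarith) (b2_pos hN _).le)
          _ = _ := by ring
      · have hb : b2 Y (mset s (insert p s.M)) e.1.2 ≤ b2 Y s e.1.2 := by
          have := b2_claim (s := s) hN hp e.1.2
          rwa [if_neg hact, one_mul] at this
        have hpr : ∏ l ∈ e.2.2, sv Y (mset s (insert p s.M)) e.1.2 l ≤
            gEl Y s E e p * ∏ l ∈ e.2.2, sv Y s e.1.2 l := by
          refine prod_le_of_one hge (fun l _ => hsn l) (fun l _ => hsn' l)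
            (fun l => att Y s e.1.2 l.2 l.1 ∧ actN s l.2 p ∧ p ≠ l.1) ?_ ?_ ?_
          · intro l hl l' hl' hP hP'
            by_contra hne
            exact disjoint_left.1 (he.hd l hl l' hl' hne) hP.2.1.1 hP'.2.1.1
          · intro l hl hP
            have h10 := hsv l hl
            rwa [if_neg hP, one_mul] at h10
          · intro l hl hP
            have h10 := hsv l hl
            rw [if_pos hP] at h10
            refine h10.trans (mul_le_mul_of_nonneg_right ?_ (hsn l))
            have h11 : actEl Y s (fun _ _ => True) E e p :=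
              ⟨h5, Or.inr ⟨l, hl, hP.1, hP.2.1, hP.2.2, trivial⟩⟩
            unfold gEl
            rw [if_pos h11]
            by_cases h12 : Y.jb + Y.L1 < lev s l.2
            · have h13 : actEl Y s (coldlv Y) E e p := by
                refine ⟨h5, Or.inr ⟨l, hl, hP.1, hP.2.1, hP.2.2, ?_⟩⟩
                unfold coldlv
                rw [if_neg (by simp)]
                exact h12
              rw [if_pos h12, if_pos h13]
            · rw [if_neg h12]
              split_ifs
              · exact hrc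
              · exact le_rfl
        calc b2 Y (mset s (insert p s.M)) e.1.2 * ∏ l ∈ e.2.2, sv Y (mset s (insert p s.M)) e.1.2 l
            ≤ b2 Y s e.1.2 * (gEl Y s E e p * ∏ l ∈ e.2.2, sv Y s e.1.2 l) :=
              mul_le_mul hb hpr (prod_nonneg fun l _ => hsn' l) (b2_pos hN _).le
          _ = _ := by ring
    · -- type 1
      have hκ' : e.2.1 = false := by simpa using hκ
      have h7 : ev Y (mset s (insert p s.M)) E e = b1 Y (mset s (insert p s.M)) e.1.2 := by
        unfold ev
        rw [h1, if_neg h3, if_pos h4, if_neg hκ]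
      have h8 : ev Y s E e = b1 Y s e.1.2 := by
        unfold ev
        rw [if_neg h3, if_pos h5, if_neg hκ]
      rw [h7, h8]
      refine (b1_claim hN hp _).trans (mul_le_mul_of_nonneg_right ?_ (b1_pos hN _).le)
      by_cases hact : actN s e.1.2 p
      · rw [if_pos hact]
        have hleaf : ∀ l ∈ e.2.2, l.1 ≠ p := by
          intro l hl
          rw [he.h1 hκ'] at hl
          simp at hl
        have h10 : actEl Y s (fun _ _ => True) E e p :=
          ⟨h5, Or.inl ⟨hact, h6, hleaf, trivial⟩⟩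
        unfold gEl
        rw [if_pos h10]
        by_cases h11 : Y.jb + Y.L1 < lev s e.1.2
        · have h12 : actEl Y s (coldlv Y) E e p := by
            refine ⟨h5, Or.inl ⟨hact, h6, hleaf, ?_⟩⟩
            unfold coldlv
            rw [if_neg hκ]
            exact h11
          rw [if_pos h11, if_pos h12]
        · rw [if_neg h11]
          split_ifs
          · exact hrc
          · exact le_rfl
      · rw [if_neg hact]
        exact hge

theorem actEl_supp {lv : Bool → ℕ → Prop} {E : Finset X} {e : El X} {p : X}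
    (h : actEl Y s lv E e p) : p ∈ supp e := by
  obtain ⟨-, h1 | ⟨l, hl, -, h2, -⟩⟩ := h
  · exact mem_union_left _ h1.1.1
  · exact mem_union_right _ (mem_biUnion.2 ⟨l, hl, h2.1⟩)

/-- Growth of a micro tuple, one claim. -/
theorem mp_claim (hN : NumH Y Q) (hs1 : ∀ A, 0 ≤ s.s1 A) (hs2 : ∀ A, 0 ≤ s.s2 A)
    (hss : ∀ A l, 0 ≤ s.ss A l) {p : X} (hp : p ∉ s.M) {T : MPt X} (hT : ValidMP Y T) :
    mpW Y (mset s (insert p s.M)) T ≤ rf Y s p (.inl T) * mpW Y s T := by
  have hrw := rw_ge hN
  have hrc := rw_le_rc (Y := Y)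
  have hrf := rf_ge (s := s) hN p (.inl T)
  have hev := ev_nonneg' (s := s) hN hs1 hs2 hss
  have hev' := ev_nonneg' (s := mset s (insert p s.M)) hN hs1 hs2 hss
  have hn : 0 ≤ mpW Y s T := by
    unfold mpW
    split_ifs
    · exact mul_nonneg hN.ρpos.le (prod_nonneg fun e _ => hev _ _)
    · exact le_rfl
  by_cases h0 : mpW Y (mset s (insert p s.M)) T = 0
  · rw [h0]
    exact mul_nonneg (by linarith) hn
  have h1 : alive s T.1 ∧ T.1 ∉ s.J := by
    by_contra h2
    apply h0
    unfold mpW
    exact if_neg h2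
  have h2 : mpW Y (mset s (insert p s.M)) T =
      Y.ρ * ∏ e ∈ T.2, ev Y (mset s (insert p s.M)) T.1 e := by
    unfold mpW
    exact if_pos h1
  have h3 : mpW Y s T = Y.ρ * ∏ e ∈ T.2, ev Y s T.1 e := by
    unfold mpW
    exact if_pos h1
  rw [h2] at h0 ⊢
  rw [h3]
  have h4 := right_ne_zero_of_mul h0
  rw [prod_ne_zero_iff] at h4
  have h5 : ∏ e ∈ T.2, ev Y (mset s (insert p s.M)) T.1 e ≤
      rf Y s p (.inl T) * ∏ e ∈ T.2, ev Y s T.1 e := by
    refine prod_le_of_one hrf (fun e _ => hev _ _) (fun e _ => hev' _ _)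
      (fun e => actEl Y s (fun _ _ => True) T.1 e p) ?_ ?_ ?_
    · intro e he e' he' hP hP'
      by_contra hne
      exact disjoint_left.1 (hT.2.2 e he e' he' hne) (actEl_supp hP) (actEl_supp hP')
    · intro e he hP
      have h6 := ev_claim hN hs1 hs2 hss hp (hT.2.1 e he) (h4 e he)
      unfold gEl at h6
      rwa [if_neg hP, one_mul] at h6
    · intro e he hP
      refine (ev_claim hN hs1 hs2 hss hp (hT.2.1 e he) (h4 e he)).trans
        (mul_le_mul_of_nonneg_right ?_ (hev _ _))
      have h6 : act Y s p (.inl T) := ⟨h1.1, h1.2, e, he, hP⟩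
      unfold gEl rf
      rw [if_pos hP, if_pos h6]
      by_cases h7 : actEl Y s (coldlv Y) T.1 e p
      · have h8 : cact Y s p (.inl T) := ⟨h1.1, h1.2, e, he, h7⟩
        rw [if_pos h7, if_pos h8]
      · rw [if_neg h7]
        split_ifs
        · exact hrc
        · exact le_rfl
  calc Y.ρ * ∏ e ∈ T.2, ev Y (mset s (insert p s.M)) T.1 e
      ≤ Y.ρ * (rf Y s p (.inl T) * ∏ e ∈ T.2, ev Y s T.1 e) :=
        mul_le_mul_of_nonneg_left h5 hN.ρpos.le
    _ = _ := by ring

theorem actEl_mset {lv : Bool → ℕ → Prop} (hlv : ∀ κ u u', u ≤ u' → lv κ u → lv κ u')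
    {M' : Finset X} (hM : s.M ⊆ M') {E : Finset X} {e : El X} {p : X}
    (h : actEl Y (mset s M') lv E e p) : actEl Y s lv E e p := by
  obtain ⟨h0, h1 | ⟨l, hl, h2, h3, h4, h5⟩⟩ := h
  · exact ⟨att_mset hM h0, Or.inl ⟨h1.1, h1.2.1, h1.2.2.1,
      hlv _ _ _ (lev_mset_le s hM _) h1.2.2.2⟩⟩
  · exact ⟨att_mset hM h0, Or.inr ⟨l, hl, att_mset hM h2, h3, h4,
      hlv _ _ _ (lev_mset_le s hM _) h5⟩⟩

theorem coldlv_mono (κ : Bool) (u u' : ℕ) (h : u ≤ u') (h' : coldlv Y κ u) : coldlv Y κ u' :=
  lt_of_lt_of_le h' h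

/-- Growth rates do not increase. -/
theorem rf_mset_mp (hN : NumH Y Q) {M' : Finset X} (hM : s.M ⊆ M') (p : X) (T : MPt X) :
    rf Y (mset s M') p (.inl T) ≤ rf Y s p (.inl T) := by
  have hrw := rw_ge hN
  have hrc := rw_le_rc (Y := Y)
  have h1 : act Y (mset s M') p (.inl T) → act Y s p (.inl T) := by
    rintro ⟨h2, h3, e, he, h4⟩
    exact ⟨h2, h3, e, he, actEl_mset (fun _ _ _ _ h => h) hM h4⟩
  have h2 : cact Y (mset s M') p (.inl T) → cact Y s p (.inl T) := by
    rintro ⟨h2, h3, e, he, h4⟩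
    exact ⟨h2, h3, e, he, actEl_mset coldlv_mono hM h4⟩
  unfold rf
  by_cases h3 : act Y (mset s M') p (.inl T)
  · rw [if_pos h3, if_pos (h1 h3)]
    by_cases h4 : cact Y (mset s M') p (.inl T)
    · rw [if_pos h4, if_pos (h2 h4)]
    · rw [if_neg h4]
      split_ifs
      · exact hrc
      · exact le_rfl
  · rw [if_neg h3]
    split_ifs <;> linarith

/-- Growth of a micro tuple. -/
theorem cl_mp (hN : NumH Y Q) (g : Good Y Lg s) {y z : X} (hyz : y ≠ z) (hy : y ∈ free Y s)
    (hz : z ∈ free Y s) {T : MPt X} (hT : ValidMP Y T) :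
    mpW Y (afterM s y z) T ≤ rf Y s y (.inl T) * rf Y s z (.inl T) * mpW Y s T := by
  have hyM : y ∉ s.M := (mem_free.1 hy).2.1
  have hzM : z ∉ s.M := (mem_free.1 hz).2.1
  have hyM' : y ∉ (mset s (insert z s.M)).M := by
    simp only [mset, mem_insert, not_or]
    exact ⟨hyz, hyM⟩
  have h1 := mp_claim (s := mset s (insert z s.M)) hN g.s1n g.s2n g.ssn hyM' hT
  have h2 := mp_claim (s := s) hN g.s1n g.s2n g.ssn hzM hT
  have h3 := rf_mset_mp (s := s) hN (subset_insert z s.M) y T
  have h4 := rf_ge (s := s) hN y (.inl T)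
  have h5 : 0 ≤ mpW Y (mset s (insert z s.M)) T := by
    unfold mpW
    split_ifs
    · exact mul_nonneg hN.ρpos.le (prod_nonneg fun e _ =>
        ev_nonneg' (s := mset s (insert z s.M)) hN g.s1n g.s2n g.ssn _ _)
    · exact le_rfl
  calc mpW Y (afterM s y z) T = mpW Y (mset (mset s (insert z s.M))
        (insert y (mset s (insert z s.M)).M)) T := rfl
    _ ≤ _ := h1
    _ ≤ rf Y s y (.inl T) * mpW Y (mset s (insert z s.M)) T := mul_le_mul_of_nonneg_right h3 h5
    _ ≤ rf Y s y (.inl T) * (rf Y s z (.inl T) * mpW Y s T) :=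
        mul_le_mul_of_nonneg_left h2 (by linarith)
    _ = _ := by ring

/-- A surviving micro tuple does not lose weight. -/
theorem mono_mp (hN : NumH Y Q) (g : Good Y Lg s) (y z : X) {T : MPt X} (hT : ValidMP Y T)
    (h : mpW Y (afterM s y z) T ≠ 0) : mpW Y s T ≤ mpW Y (afterM s y z) T := by
  have hM : s.M ⊆ insert y (insert z s.M) := (subset_insert _ _).trans (subset_insert _ _)
  have h0 : mpW Y (mset s (insert y (insert z s.M))) T ≠ 0 := h
  have h1 : alive s T.1 ∧ T.1 ∉ s.J := by
    by_contra h2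
    apply h0
    unfold mpW
    exact if_neg h2
  have h2 : mpW Y (mset s (insert y (insert z s.M))) T =
      Y.ρ * ∏ e ∈ T.2, ev Y (mset s (insert y (insert z s.M))) T.1 e := by
    unfold mpW
    exact if_pos h1
  have h3 : mpW Y s T = Y.ρ * ∏ e ∈ T.2, ev Y s T.1 e := by
    unfold mpW
    exact if_pos h1
  change mpW Y s T ≤ mpW Y (mset s (insert y (insert z s.M))) T
  rw [h2] at h0 ⊢
  rw [h3]
  have h4 := right_ne_zero_of_mul h0
  rw [prod_ne_zero_iff] at h4
  exact mul_le_mul_of_nonneg_left (prod_le_prod (fun e _ => ev_nonneg hN g _ _) fun e he =>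
    ev_mset hN g.s1n hM (h4 e he)) hN.ρpos.le

/-- Activity of a surviving micro tuple does not change. -/
theorem act_mp (hN : NumH Y Q) (g : Good Y Lg s) (y z : X) {T : MPt X} (hT : ValidMP Y T)
    (h : mpW Y (afterM s y z) T ≠ 0) {p : X} (ha : act Y s p (.inl T)) :
    act Y (afterM s y z) p (.inl T) := by
  have h0 : mpW Y (mset s (insert y (insert z s.M))) T ≠ 0 := h
  obtain ⟨h1, h2, e, he, h3, h4⟩ := ha
  have h5 : ∀ e ∈ T.2, ev Y (mset s (insert y (insert z s.M))) T.1 e ≠ 0 := by
    have h6 : mpW Y (mset s (insert y (insert z s.M))) T =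
        Y.ρ * ∏ e ∈ T.2, ev Y (mset s (insert y (insert z s.M))) T.1 e := by
      unfold mpW
      exact if_pos ⟨h1, h2⟩
    rw [h6] at h0
    have h7 := right_ne_zero_of_mul h0
    rwa [prod_ne_zero_iff] at h7
  have h6 := h5 e he
  have hlb : (mset s (insert y (insert z s.M))).lb T.1 e.1.1 = s.lb T.1 e.1.1 := rfl
  have hatt : att Y (mset s (insert y (insert z s.M))) T.1 e.1.2 e.1.1 := by
    by_contra h7
    apply h6
    unfold ev
    rw [hlb, h3.2.2.1, if_neg (by simp), if_neg h7]
  refine ⟨h1, h2, e, he, hatt, ?_⟩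
  rcases h4 with h4 | ⟨l, hl, h7, h8, h9, h10⟩
  · exact Or.inl h4
  · refine Or.inr ⟨l, hl, ?_, h8, h9, h10⟩
    have hκ : e.2.1 = true := by
      by_contra hκ
      have hκ' : e.2.1 = false := by simpa using hκ
      rw [(hT.2.1 e he).h1 hκ'] at hl
      simp at hl
    have h11 : ev Y (mset s (insert y (insert z s.M))) T.1 e =
        b2 Y (mset s (insert y (insert z s.M))) e.1.2 *
          ∏ l ∈ e.2.2, sv Y (mset s (insert y (insert z s.M))) e.1.2 l := by
      unfold ev
      rw [hlb, h3.2.2.1, if_neg (by simp), if_pos hatt, if_pos hκ]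
    rw [h11] at h6
    have h12 := right_ne_zero_of_mul h6
    rw [prod_ne_zero_iff] at h12
    have h13 := h12 l hl
    have hlb' : (mset s (insert y (insert z s.M))).lb e.1.2 l.1 = s.lb e.1.2 l.1 := rfl
    by_contra h14
    have h14' : ¬ att Y (mset s (insert y (insert z s.M))) e.1.2 l.2 l.1 := h14
    apply h13
    unfold sv
    rw [hlb', h7.2.2.1, if_neg (by simp), if_neg h14']

theorem act_mp' (y z : X) {T : MPt X} {p : X} (ha : act Y (afterM s y z) p (.inl T)) :
    act Y s p (.inl T) := by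
  have hM : s.M ⊆ insert y (insert z s.M) := (subset_insert _ _).trans (subset_insert _ _)
  obtain ⟨h2, h3, e, he, h4⟩ := ha
  exact ⟨h2, h3, e, he, actEl_mset (s := s) (M' := insert y (insert z s.M))
    (fun _ _ _ _ h => h) hM h4⟩

end Pool.H33.MB2
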