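import Pool.Agent.H33.MB2.ClMp

/-!
# MB2 CLPS: Maker's claims and stars

`T = (v, 𝒞)` with `T ∈ psI Y`, `s1 = afterM s y z`.  If `psW Y s1 T ≠ 0` then `v` is not claimed in `s1`,
so `y ≠ v ≠ z`, and all conditions also hold in `s`.  `psW Y s1 T = ρP * ∏ b1 Y s1 C`.  By `cl_b1`
each factor grows by `g_y C * g_z C`; as the sets of `𝒞` pairwise meet only in `v`, each of `y`, `z` lies in
at most one `C ∈ 𝒞`, and if it is active there, `act` (and `cact` if the level of `C` is more than
`jb + L1`) holds for `T`.  So `psW Y s1 T ≤ rf y * rf z * psW Y s T`.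
-/

set_option linter.unusedSectionVars false

namespace Pool.H33.MB2

open Finset
open scoped Classical

variable {X Γ : Type*} [DecidableEq X] {Y : Sys X Γ} {Q : Num2}
  {Lg : List (Entry X) → Finset X → Finset X → Prop} {s : State X}

/-- The condition under which a star has positive weight. -/
def psC (Y : Sys X Γ) (s : State X) (T : PSt X) : Prop :=
  T.1 ∉ s.M ∧ T.1 ∉ s.B ∧ ∀ C ∈ T.2, s.lb C T.1 = none ∧ alive s C ∧ C ∉ s.J ∧ clean Y s C

theorem psW_pos {T : PSt X} (h : psC Y s T) : psW Y s T = Y.ρP * ∏ C ∈ T.2, b1 Y s C := by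
  unfold psW
  exact if_pos h

theorem psW_neg {T : PSt X} (h : ¬ psC Y s T) : psW Y s T = 0 := by
  unfold psW
  exact if_neg h

theorem psC_mset {M' : Finset X} (hM : s.M ⊆ M') {T : PSt X} (h : psC Y (mset s M') T) :
    psC Y s T := ⟨fun h' => h.1 (hM h'), h.2⟩

theorem ps_claim (hN : NumH Y Q) {p : X} (hp : p ∉ s.M) {T : PSt X} (hT : ValidPS T) :
    psW Y (mset s (insert p s.M)) T ≤ rf Y s p (.inr (.inl T)) * psW Y s T := by
  have hrw := rw_ge hN
  have hrc := rw_le_rc (Y := Y)
  have hrf := rf_ge (s := s) hN p (.inr (.inl T))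
  have hn := psW_nonneg (s := s) hN T
  by_cases h0 : psC Y (mset s (insert p s.M)) T
  · have h1 := psC_mset (subset_insert _ _) h0
    have hpT : p ≠ T.1 := fun h' => h0.1 (by
      rw [← h']
      exact mem_insert_self _ _)
    rw [psW_pos h0, psW_pos h1]
    have h5 : ∏ C ∈ T.2, b1 Y (mset s (insert p s.M)) C ≤
        rf Y s p (.inr (.inl T)) * ∏ C ∈ T.2, b1 Y s C := by
      refine prod_le_of_one hrf (fun e _ => (b1_pos hN _).le) (fun e _ => (b1_pos hN _).le)
        (fun C => actN s C p) ?_ ?_ ?_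
      · intro C hC C' hC' hP hP'
        by_contra hne
        have h2 : p ∈ C ∩ C' := mem_inter.2 ⟨hP.1, hP'.1⟩
        rw [hT.2 C hC C' hC' hne, mem_singleton] at h2
        exact hpT h2
      · intro C hC hP
        have h6 := b1_claim (s := s) hN hp C
        rwa [if_neg hP, one_mul] at h6
      · intro C hC hP
        refine (b1_claim (s := s) hN hp C).trans (mul_le_mul_of_nonneg_right ?_ (b1_pos hN _).le)
        have h6 : act Y s p (.inr (.inl T)) := ⟨hpT, C, hC, hP, trivial⟩
        unfold rf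
        rw [if_pos hP, if_pos h6]
        by_cases h7 : Y.jb + Y.L1 < lev s C
        · have h8 : cact Y s p (.inr (.inl T)) := by
            refine ⟨hpT, C, hC, hP, ?_⟩
            unfold coldlv
            rw [if_neg (by simp)]
            exact h7
          rw [if_pos h7, if_pos h8]
        · rw [if_neg h7]
          split_ifs
          · exact hrc
          · exact le_rfl
    calc Y.ρP * ∏ C ∈ T.2, b1 Y (mset s (insert p s.M)) C
        ≤ Y.ρP * (rf Y s p (.inr (.inl T)) * ∏ C ∈ T.2, b1 Y s C) :=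
          mul_le_mul_of_nonneg_left h5 hN.ρPpos.le
      _ = _ := by ring
  · rw [psW_neg h0]
    exact mul_nonneg (by linarith) hn

theorem rf_mset_ps (hN : NumH Y Q) {M' : Finset X} (hM : s.M ⊆ M') (p : X) (T : PSt X) :
    rf Y (mset s M') p (.inr (.inl T)) ≤ rf Y s p (.inr (.inl T)) := by
  have hrw := rw_ge hN
  have hrc := rw_le_rc (Y := Y)
  have h1 : act Y (mset s M') p (.inr (.inl T)) → act Y s p (.inr (.inl T)) := fun h => h
  have h2 : cact Y (mset s M') p (.inr (.inl T)) → cact Y s p (.inr (.inl T)) := by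
    rintro ⟨h2, C, hC, h3, h4⟩
    exact ⟨h2, C, hC, h3, coldlv_mono _ _ _ (lev_mset_le s hM _) h4⟩
  unfold rf
  by_cases h3 : act Y (mset s M') p (.inr (.inl T))
  · rw [if_pos h3, if_pos (h1 h3)]
    by_cases h4 : cact Y (mset s M') p (.inr (.inl T))
    · rw [if_pos h4, if_pos (h2 h4)]
    · rw [if_neg h4]
      split_ifs
      · exact hrc
      · exact le_rfl
  · rw [if_neg h3]
    split_ifs <;> linarith

theorem cl_ps (hN : NumH Y Q) {y z : X} (hyz : y ≠ z) (hy : y ∈ free Y s)
    (hz : z ∈ free Y s) {T : PSt X} (hT : ValidPS T) :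
    psW Y (afterM s y z) T ≤ rf Y s y (.inr (.inl T)) * rf Y s z (.inr (.inl T)) * psW Y s T := by
  have hyM : y ∉ s.M := (mem_free.1 hy).2.1
  have hzM : z ∉ s.M := (mem_free.1 hz).2.1
  have hyM' : y ∉ (mset s (insert z s.M)).M := by
    simp only [mset, mem_insert, not_or]
    exact ⟨hyz, hyM⟩
  have h1 := ps_claim (s := mset s (insert z s.M)) hN hyM' hT
  have h2 := ps_claim (s := s) hN hzM hT
  have h3 := rf_mset_ps (s := s) hN (subset_insert z s.M) y T
  have h4 := rf_ge (s := s) hN y (.inr (.inl T))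
  have h5 : 0 ≤ psW Y (mset s (insert z s.M)) T := psW_nonneg hN T
  calc psW Y (afterM s y z) T = psW Y (mset (mset s (insert z s.M))
        (insert y (mset s (insert z s.M)).M)) T := rfl
    _ ≤ _ := h1
    _ ≤ rf Y s y (.inr (.inl T)) * psW Y (mset s (insert z s.M)) T :=
        mul_le_mul_of_nonneg_right h3 h5
    _ ≤ rf Y s y (.inr (.inl T)) * (rf Y s z (.inr (.inl T)) * psW Y s T) :=
        mul_le_mul_of_nonneg_left h2 (by linarith)
    _ = _ := by ring

theorem mono_ps (hN : NumH Y Q) (y z : X) {T : PSt X} (h : psW Y (afterM s y z) T ≠ 0) :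
    psW Y s T ≤ psW Y (afterM s y z) T := by
  have hM : s.M ⊆ insert y (insert z s.M) := (subset_insert _ _).trans (subset_insert _ _)
  have h0 : psC Y (mset s (insert y (insert z s.M))) T := by
    by_contra h1
    exact h (psW_neg h1)
  change psW Y s T ≤ psW Y (mset s (insert y (insert z s.M))) T
  rw [psW_pos h0, psW_pos (psC_mset hM h0)]
  exact mul_le_mul_of_nonneg_left (prod_le_prod (fun e _ => (b1_pos hN _).le) fun e he =>
    b1_mset hN hM _) hN.ρPpos.le

theorem act_ps (y z : X) {T : PSt X} {p : X} :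
    act Y (afterM s y z) p (.inr (.inl T)) ↔ act Y s p (.inr (.inl T)) := by
  exact Iff.rfl

end Pool.H33.MB2
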