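import Pool.Agent.H33.MB2.Rates

/-!
# MB2 GPL: closed cycles are bounded

* `gc_contra`: `(E, l) ∈ gcI Y` (`mem_gcI`; the length is at most `smax`), all its sets are ripe, so
  `gcW Y s (E, l) = ρG * gt ^ ntight * rw⁻¹ ^ (H1 * #l.toFinset) * UW Y s ∅`, `UW Y s ∅ = 1`, which is at least
  `ρG * gt ^ tm * rw⁻¹ ^ (H1 * smax) > 1/16` (`hN.gc`), but it is at most `Phi Y s ≤ 1/16` (`W_le_Phi`).
* `closing`.  Suppose `#V ≥ Cg Y = tm + cE * smax + 1`.  Build lists `l_i` (`i ≤ tm`) with `ValidL Y E l_i`, all sets ripe,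
  `l0 ⊆ l_i`, length at most `l0.length + 2 i`, `nfree + i ≤ ...`: `nfree l_i ≤ ntight l_i + 3`, `ntight l_i ≥ i`, and a set of
  at most `i` used points `v ∈ V`.  Start: `l0` (`nfree ≤ length ≤ 3`).
  Step: the number of `v ∈ V` for which `Xf v` is close to some member of `l_i` is at most `cE * length ≤ cE * smax`
  (`hF.hits` with `H`, `D ∈ l_i`: `gen Y H (Xf v)`, `v ∈ Xf v`, `Xf v ∈ F`); so there is an unused
  `v ∈ V` with `¬ close Y Z (Xf v)` for all `Z ∈ l_i`.  `v ∈ H ⊆ stars Y E l_i` (`subset_stars`), `v ∈ Xf v`.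
  (1) If `2 ≤ #(Xf v ∩ stars Y E l_i)` add `Xf v` (tight).  This is so in the first case of `hc` (`stars_mono`, `l0 ⊆ l_i` as a
      suffix: let `l_i = k ++ l0`), and in the second case if `Yf v` is close to `E` or to a member of `l_i`: then
      `Yf v ⊆ stars Y E l_i` (`close_subset_stars`) and `p ∈ Xf v ∩ Yf v`, `p ≠ v`, gives a second point.
  (2) Otherwise add `Xf v` and then `Yf v`: `Xf v` is free or tight; `Yf v` is not close to the members of `l_i`, it may be close to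
      `Xf v` but `gr (Xf v) ≠ gr (Yf v)`; `2 ≤ #(Yf v ∩ (stars Y E l0 ∪ Xf v)) ≤ #(Yf v ∩ stars Y E (Xf v :: l_i))`.
  Non-membership in the list: a member `Z` is close to itself (`#(Z ∩ Z) = k > t1`, `hN.tk`).
  After `tm` steps: contradiction with `gc_contra` (length `≤ 3 + 2 tm = smax`).
-/

set_option linter.unusedSectionVars false

namespace Pool.H33.MB2

open Finset
open scoped Classical

variable {X Γ : Type*} [DecidableEq X] {Y : Sys X Γ} {Q : Num2}
  {Lg : List (Entry X) → Finset X → Finset X → Prop} {s : State X}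

theorem gc_contra (hN : NumH Y Q) (g : Good Y Lg s) (hΦ : Phi Y s ≤ 1 / 16) {E : Finset X}
    {l : List (Finset X)} (hE : E ∈ Y.F) (hl : ValidL Y E l) (hr : ∀ A ∈ l, A ∈ s.ripe)
    (hf : nfree Y E l ≤ ntight Y E l + 3) (hlen : l.length ≤ smax Y) (ht : Y.tm ≤ ntight Y E l) :
    False := by
  have hmem : (E, l) ∈ gcI Y := by
    rw [mem_gcI]
    exact ⟨hE, ⟨hlen, fun A hA => g.rF (hr A hA)⟩, hl, hf⟩
  have h1 := W_le_Phi hN g (mem_bigI_gc.2 hmem)
  have h2 : gcW Y s (E, l) ≤ 1 / 16 := le_trans h1 hΦ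
  have hcond : ∀ A ∈ (E, l).2, A ∈ s.ripe ∨ alive s A := fun A hA => Or.inl (hr A hA)
  have hsub : l.toFinset ⊆ s.ripe := by
    intro A hA
    exact hr A (List.mem_toFinset.1 hA)
  have hU : UW Y s (l.toFinset \ s.ripe) = 1 := by
    rw [sdiff_eq_empty_iff_subset.2 hsub]
    unfold UW ulev
    simp
  have h3 : gcW Y s (E, l) = Y.ρG * Y.gt ^ ntight Y E l *
      (rw Y)⁻¹ ^ (Y.H1 * #l.toFinset) := by
    unfold gcW
    rw [if_pos hcond]
    show Y.ρG * Y.gt ^ ntight Y E l * (rw Y)⁻¹ ^ (Y.H1 * #(l.toFinset ∩ s.ripe)) *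
      UW Y s (l.toFinset \ s.ripe) = _
    rw [hU, mul_one, inter_eq_left.2 hsub]
  have h4 := hN.gc
  have hrw := rw_ge hN
  have hrw0 : 0 < (rw Y)⁻¹ := inv_pos.2 (by linarith)
  have hrw1 : (rw Y)⁻¹ ≤ 1 := inv_le_one_of_one_le₀ (by linarith)
  have h5 : (rw Y)⁻¹ ^ (Y.H1 * smax Y) ≤ (rw Y)⁻¹ ^ (Y.H1 * #l.toFinset) := by
    apply pow_le_pow_of_le_one hrw0.le hrw1
    exact Nat.mul_le_mul_left _ ((List.toFinset_card_le l).trans hlen)
  have h6 : Y.gt ^ Y.tm ≤ Y.gt ^ ntight Y E l := pow_le_pow_right₀ hN.gt1 ht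
  have hρ := hN.ρGpos
  have hgt : 0 ≤ Y.gt ^ Y.tm := pow_nonneg (by linarith [hN.gt1]) _
  have h7 : Y.ρG * Y.gt ^ Y.tm * (rw Y)⁻¹ ^ (Y.H1 * smax Y) ≤
      Y.ρG * Y.gt ^ ntight Y E l * (rw Y)⁻¹ ^ (Y.H1 * #l.toFinset) := by
    apply mul_le_mul _ h5 (pow_nonneg hrw0.le _)
    · exact mul_nonneg hρ.le (pow_nonneg (by linarith [hN.gt1]) _)
    · exact mul_le_mul_of_nonneg_left h6 hρ.le
  linarith

theorem gpl_close_self (hF : FamH Y) (hN : NumH Y Q) {Z : Finset X} (hZ : Z ∈ Y.F) :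
    close Y Z Z := by
  unfold close
  rw [inter_self, hF.card Z hZ]
  exact hN.tk

theorem gpl_stars_mono (Y : Sys X Γ) (E : Finset X) (k l : List (Finset X)) :
    stars Y E l ⊆ stars Y E (k ++ l) := by
  induction k with
  | nil => exact Subset.refl _
  | cons A k ih => exact ih.trans (stars_mono Y E A (k ++ l))

theorem gpl_step (hF : FamH Y) (hN : NumH Y Q) (g : Good Y Lg s)
    {E : Finset X} {l0 : List (Finset X)} (hE : E ∈ Y.F)
    (hr : ∀ A ∈ l0, A ∈ s.ripe) {H : Finset X} (hH : H = E ∨ H ∈ l0)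
    (V : Finset X) (Xf Yf : X → Finset X)
    (hX : ∀ v ∈ V, Xf v ∈ s.ripe ∧ gen Y H (Xf v) ∧ v ∈ H ∧ v ∈ Xf v)
    (hc : ∀ v ∈ V, 2 ≤ #(Xf v ∩ stars Y E l0) ∨
      (Yf v ∈ s.ripe ∧ Y.gr (Xf v) ≠ Y.gr (Yf v) ∧ (∃ p ∈ Xf v ∩ Yf v, p ≠ v) ∧
        2 ≤ #(Yf v ∩ (stars Y E l0 ∪ Xf v)))) (hV : Cg Y ≤ #V)
    (k : List (Finset X)) (hl : ValidL Y E (k ++ l0)) (hkr : ∀ A ∈ k ++ l0, A ∈ s.ripe)
    (hlen : (k ++ l0).length ≤ smax Y) :
    ∃ k' : List (Finset X), ValidL Y E (k' ++ l0) ∧ (∀ A ∈ k' ++ l0, A ∈ s.ripe) ∧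
      (k' ++ l0).length ≤ (k ++ l0).length + 2 ∧
      ntight Y E (k ++ l0) + 1 ≤ ntight Y E (k' ++ l0) ∧
      nfree Y E (k' ++ l0) + ntight Y E (k ++ l0) + 1 ≤
        nfree Y E (k ++ l0) + ntight Y E (k' ++ l0) + 1 := by
  set l := k ++ l0 with hld
  have hHF : H ∈ Y.F := by
    rcases hH with rfl | h
    · exact hE
    · exact g.rF (hr H h)
  have hHl : H = E ∨ H ∈ l := by
    rcases hH with h | h
    · exact Or.inl h
    · exact Or.inr (List.mem_append_right k h)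
  -- a point whose set is not close to the list
  have hex : ∃ v ∈ V, ∀ Z ∈ l, ¬ close Y Z (Xf v) := by
    by_contra hcon
    push Not at hcon
    have hsub : V ⊆ l.toFinset.biUnion
        (fun D => H.filter (fun v => ∃ C ∈ Y.F, gen Y H C ∧ v ∈ C ∧ close Y D C)) := by
      intro v hv
      obtain ⟨Z, hZ, hZc⟩ := hcon v hv
      obtain ⟨h1, h2, h3, h4⟩ := hX v hv
      rw [mem_biUnion]
      refine ⟨Z, List.mem_toFinset.2 hZ, ?_⟩
      rw [mem_filter]
      exact ⟨h3, Xf v, g.rF h1, h2, h4, hZc⟩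
    have h1 : #V ≤ #l.toFinset * Y.cE := by
      refine (card_le_card hsub).trans (card_biUnion_le_card_mul _ _ _ ?_)
      intro D hD
      exact hF.hits H hHF D (g.rF (hkr D (List.mem_toFinset.1 hD)))
    have h2 : #l.toFinset * Y.cE ≤ smax Y * Y.cE :=
      Nat.mul_le_mul_right _ ((List.toFinset_card_le l).trans hlen)
    unfold Cg at hV
    have h3 : smax Y * Y.cE = Y.cE * smax Y := mul_comm _ _
    omega
  obtain ⟨v, hv, hvc⟩ := hex
  obtain ⟨hv1, hv2, hv3, hv4⟩ := hX v hv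
  have hXF : Xf v ∈ Y.F := g.rF hv1
  have hvs : v ∈ Xf v ∩ stars Y E l :=
    mem_inter.2 ⟨hv4, subset_stars Y E l hHl hv3⟩
  have hXl : Xf v ∉ l := fun h => hvc _ h (gpl_close_self hF hN hXF)
  have hval1 : ValidL Y E (Xf v :: l) := by
    refine ⟨hl, hXl, hXF, card_pos.2 ⟨v, hvs⟩, ?_, ?_⟩
    · intro Z hZ hZc
      exact absurd hZc (hvc Z hZ)
    · intro Z hZ Z' _ hZc
      exact absurd hZc (hvc Z hZ)
  by_cases h2 : 2 ≤ #(Xf v ∩ stars Y E l)
  · refine ⟨Xf v :: k, ?_, ?_, ?_, ?_, ?_⟩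
    · exact hval1
    · intro A hA
      rw [List.cons_append, List.mem_cons] at hA
      rcases hA with rfl | hA
      · exact hv1
      · exact hkr A hA
    · show l.length + 1 ≤ l.length + 2
      omega
    · show ntight Y E l + 1 ≤ ntight Y E l + (if 2 ≤ #(Xf v ∩ stars Y E l) then 1 else 0)
      rw [if_pos h2]
    · show nfree Y E l + (if 2 ≤ #(Xf v ∩ stars Y E l) then 0 else 1) + ntight Y E l + 1 ≤
        nfree Y E l + (ntight Y E l + (if 2 ≤ #(Xf v ∩ stars Y E l) then 1 else 0)) + 1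
      rw [if_pos h2, if_pos h2]
      omega
  · have hmono : stars Y E l0 ⊆ stars Y E l := gpl_stars_mono Y E k l0
    have hc2 := (hc v hv).resolve_left (fun h => h2 (h.trans (card_le_card
      (inter_subset_inter_left hmono))))
    obtain ⟨hy1, hy2, ⟨p, hp, hpv⟩, hy3⟩ := hc2
    rw [mem_inter] at hp
    have hYF : Yf v ∈ Y.F := g.rF hy1
    have hYc : ∀ Z, Z = E ∨ Z ∈ l → ¬ close Y Z (Yf v) := by
      intro Z hZ hZc
      apply h2
      have h3 := close_subset_stars hZ hYF hZc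
      have h4 : ({v, p} : Finset X) ⊆ Xf v ∩ stars Y E l := by
        intro w hw
        simp only [mem_insert, mem_singleton] at hw
        rcases hw with rfl | rfl
        · exact hvs
        · exact mem_inter.2 ⟨hp.1, h3 hp.2⟩
      have h5 := card_le_card h4
      rw [card_pair hpv.symm] at h5
      exact h5
    have hXst : Xf v ⊆ stars Y E (Xf v :: l) :=
      subset_stars Y E _ (Or.inr List.mem_cons_self)
    have hsub2 : Yf v ∩ (stars Y E l0 ∪ Xf v) ⊆ Yf v ∩ stars Y E (Xf v :: l) := by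
      apply inter_subset_inter_left
      apply union_subset _ hXst
      exact hmono.trans (stars_mono Y E (Xf v) l)
    have hY2 : 2 ≤ #(Yf v ∩ stars Y E (Xf v :: l)) := hy3.trans (card_le_card hsub2)
    have hval2 : ValidL Y E (Yf v :: Xf v :: l) := by
      refine ⟨hval1, ?_, hYF, by omega, ?_, ?_⟩
      · rw [List.mem_cons, not_or]
        refine ⟨?_, ?_⟩
        · intro h
          exact hy2 (by rw [h])
        · intro h
          exact hYc _ (Or.inr h) (gpl_close_self hF hN hYF)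
      · intro Z hZ hZc
        rw [List.mem_cons] at hZ
        rcases hZ with rfl | hZ
        · exact hy2
        · exact absurd hZc (hYc Z (Or.inr hZ))
      · intro Z hZ Z' hZ' hZc hZc'
        rw [List.mem_cons] at hZ hZ'
        have e1 : Z = Xf v := by
          rcases hZ with h | h
          · exact h
          · exact absurd hZc (hYc Z (Or.inr h))
        have e2 : Z' = Xf v := by
          rcases hZ' with h | h
          · exact h
          · exact absurd hZc' (hYc Z' (Or.inr h))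
        rw [e1, e2]
    refine ⟨Yf v :: Xf v :: k, ?_, ?_, ?_, ?_, ?_⟩
    · exact hval2
    · intro A hA
      rw [List.cons_append, List.cons_append, List.mem_cons, List.mem_cons] at hA
      rcases hA with rfl | rfl | hA
      · exact hy1
      · exact hv1
      · exact hkr A hA
    · show l.length + 1 + 1 ≤ l.length + 2
      omega
    · show ntight Y E l + 1 ≤ (ntight Y E l + (if 2 ≤ #(Xf v ∩ stars Y E l) then 1 else 0)) +
        (if 2 ≤ #(Yf v ∩ stars Y E (Xf v :: l)) then 1 else 0)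
      rw [if_pos hY2, if_neg h2]
    · show (nfree Y E l + (if 2 ≤ #(Xf v ∩ stars Y E l) then 0 else 1)) +
        (if 2 ≤ #(Yf v ∩ stars Y E (Xf v :: l)) then 0 else 1) + ntight Y E l + 1 ≤
        nfree Y E l + ((ntight Y E l + (if 2 ≤ #(Xf v ∩ stars Y E l) then 1 else 0)) +
        (if 2 ≤ #(Yf v ∩ stars Y E (Xf v :: l)) then 1 else 0)) + 1
      rw [if_pos hY2, if_pos hY2, if_neg h2, if_neg h2]
      omega

theorem gpl_nfree_le (Y : Sys X Γ) (E : Finset X) (l : List (Finset X)) : nfree Y E l ≤ l.length := by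
  induction l with
  | nil => exact le_rfl
  | cons A l ih =>
    show nfree Y E l + (if 2 ≤ #(A ∩ stars Y E l) then 0 else 1) ≤ l.length + 1
    split_ifs <;> omega

theorem closing (hF : FamH Y) (hN : NumH Y Q) (g : Good Y Lg s) (hΦ : Phi Y s ≤ 1 / 16)
    {E : Finset X} {l0 : List (Finset X)} (hE : E ∈ Y.F) (hl : ValidL Y E l0)
    (hr : ∀ A ∈ l0, A ∈ s.ripe) (hlen : l0.length ≤ 3) {H : Finset X} (hH : H = E ∨ H ∈ l0)
    (V : Finset X) (Xf Yf : X → Finset X)
    (hX : ∀ v ∈ V, Xf v ∈ s.ripe ∧ gen Y H (Xf v) ∧ v ∈ H ∧ v ∈ Xf v)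
    (hc : ∀ v ∈ V, 2 ≤ #(Xf v ∩ stars Y E l0) ∨
      (Yf v ∈ s.ripe ∧ Y.gr (Xf v) ≠ Y.gr (Yf v) ∧ (∃ p ∈ Xf v ∩ Yf v, p ≠ v) ∧
        2 ≤ #(Yf v ∩ (stars Y E l0 ∪ Xf v)))) : #V < Cg Y := by
  by_contra hcon
  push Not at hcon
  have hind : ∀ i : ℕ, i ≤ Y.tm → ∃ k : List (Finset X), ValidL Y E (k ++ l0) ∧
      (∀ A ∈ k ++ l0, A ∈ s.ripe) ∧ (k ++ l0).length ≤ 3 + 2 * i ∧
      i ≤ ntight Y E (k ++ l0) ∧ nfree Y E (k ++ l0) ≤ ntight Y E (k ++ l0) + 3 := by
    intro i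
    induction i with
    | zero =>
      intro _
      refine ⟨[], hl, hr, by simpa using hlen, Nat.zero_le _, ?_⟩
      have := gpl_nfree_le Y E ([] ++ l0)
      rw [List.nil_append] at this ⊢
      omega
    | succ i ih =>
      intro hi
      obtain ⟨k, h1, h2, h3, h4, h5⟩ := ih (by omega)
      obtain ⟨k', h1', h2', h3', h4', h5'⟩ := gpl_step hF hN g hE hr hH V Xf Yf hX hc hcon k
        h1 h2 (by unfold smax; omega)
      exact ⟨k', h1', h2', by omega, by omega, by omega⟩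
  obtain ⟨k, h1, h2, h3, h4, h5⟩ := hind Y.tm le_rfl
  exact gc_contra hN g hΦ hE h1 h2 h5 (by unfold smax; omega) h4

end Pool.H33.MB2
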