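import Pool.Agent.H68.MB.Game

/-!
# The (2:1) game, sharp upper bound: definitions

`Sys`: board `S`, winning sets `F` (all of size `k`), grid label `gr`, and the numerical parameters.
`State`: Maker's points `M`, Breaker's points `B`, the list `J` of joined sets (newest first) with
their boxes, lost points with their causes (`lb A v = some C`: the point `v` of the non-joined set `A`
became lost when `C` joined), ripe sets, flags of joined sets, values frozen when a set joins, and
the log of the replies to hot points.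
-/

namespace Pool.H33.MB2

open Finset
open scoped Classical

variable {X Γ : Type*} [DecidableEq X]

/-- Numerical parameters. -/
structure Par where
  k : ℕ
  D : ℕ
  L : ℕ
  jb : ℕ
  h6 : ℕ
  H1 : ℕ
  jm : ℕ
  bs : ℕ
  am : ℕ
  L1 : ℕ
  L2 : ℕ
  m : ℕ
  t1 : ℕ
  kap : ℕ
  cE : ℕ
  cA : ℕ
  tm : ℕ
  δ : ℝ
  K : ℝ
  c1 : ℝ
  ρ2 : ℝ
  ρ : ℝ
  ρP : ℝ
  ρC : ℝ
  ρG : ℝ
  gt : ℝ
  M1 : ℝ
  G : ℝ
  β : ℝ
  a1 : ℕ → ℝ
  a2 : ℕ → ℝ

/-- The system: board, winning sets, grid labels, parameters. -/
structure Sys (X Γ : Type*) extends Par where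
  S : Finset X
  F : Finset (Finset X)
  gr : Finset X → Γ

/-- A logged reply: Maker's point `y`, the target `T`, Breaker's point `x`. -/
structure Entry (X : Type*) where
  y : X
  T : Finset X
  x : X

/-- The state of the game. -/
structure State (X : Type*) where
  M : Finset X
  B : Finset X
  J : List (Finset X)
  box : Finset X → Finset X
  lb : Finset X → X → Option (Finset X)
  ripe : Finset (Finset X)
  newc : Finset X → Prop
  bad : Finset X → Prop
  cln : Finset X → Prop
  s1 : Finset X → ℝ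
  s2 : Finset X → ℝ
  ss : Finset X → X × Finset X → ℝ
  log : List (Entry X)

variable (Y : Sys X Γ) (s : State X)

/-- Different grids, exactly one common point. -/
def gen (A C : Finset X) : Prop := Y.gr A ≠ Y.gr C ∧ #(A ∩ C) = 1

/-- Different grids, at least two common points. -/
def arith (A C : Finset X) : Prop := Y.gr A ≠ Y.gr C ∧ 2 ≤ #(A ∩ C)

/-- Many common points. -/
def close (A C : Finset X) : Prop := Y.t1 < #(A ∩ C)

omit [DecidableEq X] in
/-- Breaker owns no point of `A`. -/
def alive (A : Finset X) : Prop := Disjoint A s.B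

/-- The unclaimed points. -/
def free : Finset X := Y.S \ (s.M ∪ s.B)

/-- No joined set is arithmetically related to `A`. -/
def clean (A : Finset X) : Prop := ∀ D ∈ s.J, ¬ arith Y D A

/-- The level: points of `A` which are not claimed by Maker or which are lost. -/
noncomputable def lev (A : Finset X) : ℕ := #(A.filter (fun v => v ∉ s.M ∨ s.lb A v ≠ none))

/-- Own strikes. -/
noncomputable def os (A : Finset X) : ℕ :=
  s.log.countP (fun e => decide (e.y ∈ A ∧ Y.gr e.T = Y.gr A))

/-- Arithmetic strikes. -/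
noncomputable def ars (A : Finset X) : ℕ :=
  s.log.countP (fun e => decide (e.y ∈ A ∧ arith Y e.T A))

/-- `K ^ (n - o)`. -/
noncomputable def kb (n o : ℕ) : ℝ := Y.K ^ n / Y.K ^ o

/-- Growth rate of warm structures. -/
noncomputable def rw : ℝ := 4 / 3 - Y.δ

/-- Growth rate of cold structures. -/
noncomputable def rc : ℝ := 3 / 2 - Y.δ

/-- Value of a set (type 1). -/
noncomputable def b1 (A : Finset X) : ℝ := Y.c1 * kb Y Y.bs (os Y s A) * Y.a1 (lev s A)

/-- Value of a set (type 2). -/
noncomputable def b2 (A : Finset X) : ℝ := Y.ρ2 * kb Y Y.bs (os Y s A) * Y.a2 (lev s A)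

/-- `C` is attached to `A` at `v`: the link `v` is unclaimed and lost for none of them, `C` is alive,
not joined and clean. -/
def att (A C : Finset X) (v : X) : Prop :=
  v ∉ s.M ∧ v ∉ s.B ∧ s.lb A v = none ∧ s.lb C v = none ∧ alive s C ∧ C ∉ s.J ∧ clean Y s C

/-- Value of the leaf `l = (v, C)` of `A`. -/
noncomputable def sv (A : Finset X) (l : X × Finset X) : ℝ :=
  if s.lb A l.1 = some l.2 then s.s1 l.2 else if att Y s A l.2 l.1 then b1 Y s l.2 else 0

/-- An element of a micro tuple: `((v, B), κ, leaves)`. -/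
abbrev El (X : Type*) := (X × Finset X) × Bool × Finset (X × Finset X)

/-- Value of the element `e` at the root `E`. -/
noncomputable def ev (E : Finset X) (e : El X) : ℝ :=
  if s.lb E e.1.1 = some e.1.2 then
    (if e.2.1 then s.s2 e.1.2 * ∏ l ∈ e.2.2, s.ss e.1.2 l else s.s1 e.1.2)
  else if att Y s E e.1.2 e.1.1 then
    (if e.2.1 then b2 Y s e.1.2 * ∏ l ∈ e.2.2, sv Y s e.1.2 l else b1 Y s e.1.2)
  else 0

/-- The points covered by an element. -/
def supp (e : El X) : Finset X := e.1.2 ∪ e.2.2.biUnion Prod.snd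

/-- Valid elements. -/
structure ValidEl (E : Finset X) (e : El X) : Prop where
  hB : e.1.2 ∈ Y.F
  hg : gen Y E e.1.2
  hE : e.1.1 ∈ E
  hv : e.1.1 ∈ e.1.2
  h1 : e.2.1 = false → e.2.2 = ∅
  hm : #e.2.2 ≤ Y.m
  hl : ∀ l ∈ e.2.2, l.2 ∈ Y.F ∧ gen Y e.1.2 l.2 ∧ l.1 ∈ e.1.2 ∧ l.1 ∈ l.2 ∧ l.1 ≠ e.1.1 ∧
    Disjoint l.2 E
  hd : ∀ l ∈ e.2.2, ∀ l' ∈ e.2.2, l ≠ l' → Disjoint l.2 l'.2

/-- A micro tuple: root and elements. -/
abbrev MPt (X : Type*) := Finset X × Finset (El X)

/-- Valid micro tuples. -/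
def ValidMP (T : MPt X) : Prop :=
  T.1 ∈ Y.F ∧ (∀ e ∈ T.2, ValidEl Y T.1 e) ∧
    ∀ e ∈ T.2, ∀ e' ∈ T.2, e ≠ e' → Disjoint (supp e) (supp e')

/-- All possible elements. -/
def elI : Finset (El X) := (Y.S ×ˢ Y.F) ×ˢ (univ : Finset Bool) ×ˢ (Y.S ×ˢ Y.F).powerset

/-- The micro tuples. -/
noncomputable def mpI : Finset (MPt X) := (Y.F ×ˢ (elI Y).powerset).filter (ValidMP Y)

/-- Weight of a micro tuple. -/
noncomputable def mpW (T : MPt X) : ℝ :=
  if alive s T.1 ∧ T.1 ∉ s.J then Y.ρ * ∏ e ∈ T.2, ev Y s T.1 e else 0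

/-- A star: centre and sets through it. -/
abbrev PSt (X : Type*) := X × Finset (Finset X)

/-- Valid stars. -/
def ValidPS (T : PSt X) : Prop :=
  (∀ C ∈ T.2, T.1 ∈ C) ∧ ∀ C ∈ T.2, ∀ C' ∈ T.2, C ≠ C' → C ∩ C' = {T.1}

/-- The stars. -/
noncomputable def psI : Finset (PSt X) := (Y.S ×ˢ Y.F.powerset).filter ValidPS

/-- Weight of a star. -/
noncomputable def psW (T : PSt X) : ℝ :=
  if T.1 ∉ s.M ∧ T.1 ∉ s.B ∧ ∀ C ∈ T.2, s.lb C T.1 = none ∧ alive s C ∧ C ∉ s.J ∧ clean Y s C then
    Y.ρP * ∏ C ∈ T.2, b1 Y s C else 0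

/-- The sum of the values of the attached sets at `v`. -/
noncomputable def gs (v : X) : ℝ :=
  ∑ C ∈ Y.F.filter (fun C => v ∈ C ∧ s.lb C v = none ∧ alive s C ∧ C ∉ s.J ∧ clean Y s C), b1 Y s C

/-- `v` is progress for Maker in the collection `𝒳`. -/
def prog (𝒳 : Finset (Finset X)) (v : X) : Prop := v ∈ s.M ∧ ∃ A ∈ 𝒳, v ∈ A ∧ s.lb A v = none

/-- The union level of a collection. -/
noncomputable def ulev (𝒳 : Finset (Finset X)) : ℕ :=
  #((𝒳.biUnion id).filter (fun v => ¬ prog s 𝒳 v))

/-- The weight of a collection. -/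
noncomputable def UW (𝒳 : Finset (Finset X)) : ℝ :=
  (∏ A ∈ 𝒳, kb Y Y.bs (os Y s A) * kb Y Y.am (ars Y s A)) *
    (rw Y)⁻¹ ^ (ulev s 𝒳 - #𝒳 * Y.jb)

/-- `A` with all sets close to it. -/
noncomputable def star (A : Finset X) : Finset X := A ∪ (Y.F.filter (close Y A)).biUnion id

/-- The union of the stars of the members of the list. -/
noncomputable def stars (E : Finset X) (l : List (Finset X)) : Finset X :=
  (insert E l.toFinset).biUnion (star Y)

/-- Valid macro lists with root `E` (newest set first). -/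
def ValidL (E : Finset X) : List (Finset X) → Prop
  | [] => True
  | A :: l => ValidL E l ∧ A ∉ l ∧ A ∈ Y.F ∧ 1 ≤ #(A ∩ stars Y E l) ∧
      (∀ Z ∈ l, close Y Z A → Y.gr Z ≠ Y.gr A) ∧
      (∀ Z ∈ l, ∀ Z' ∈ l, close Y Z A → close Y Z' A → Z = Z')

/-- Number of tight sets. -/
noncomputable def ntight (E : Finset X) : List (Finset X) → ℕ
  | [] => 0
  | A :: l => ntight E l + (if 2 ≤ #(A ∩ stars Y E l) then 1 else 0)

/-- Number of free sets. -/
noncomputable def nfree (E : Finset X) : List (Finset X) → ℕ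
  | [] => 0
  | A :: l => nfree E l + (if 2 ≤ #(A ∩ stars Y E l) then 0 else 1)

/-- The maximal length of a macro list. -/
def smax : ℕ := 2 * Y.tm + 3

/-- All lists of length at most `n` of winning sets. -/
noncomputable def lists : ℕ → Finset (List (Finset X))
  | 0 => {[]}
  | n + 1 => lists n ∪ (Y.F ×ˢ lists n).image (fun p => p.1 :: p.2)

/-- A macro tuple: root and list. -/
abbrev GCt (X : Type*) := Finset X × List (Finset X)

/-- The macro tuples. -/
noncomputable def gcI : Finset (GCt X) :=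
  (Y.F ×ˢ lists Y (smax Y)).filter (fun T => ValidL Y T.1 T.2 ∧ nfree Y T.1 T.2 ≤ ntight Y T.1 T.2 + 3)

/-- Weight of a macro tuple. -/
noncomputable def gcW (T : GCt X) : ℝ :=
  if ∀ A ∈ T.2, A ∈ s.ripe ∨ alive s A then
    Y.ρG * Y.gt ^ ntight Y T.1 T.2 * (rw Y)⁻¹ ^ (Y.H1 * #(T.2.toFinset ∩ s.ripe)) *
      UW Y s (T.2.toFinset \ s.ripe) else 0

/-- The arithmetic pairs. -/
noncomputable def cpI : Finset (Finset X × Finset X) :=
  (Y.F ×ˢ Y.F).filter (fun p => arith Y p.1 p.2)

/-- Weight of an arithmetic pair. -/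
noncomputable def cpW (p : Finset X × Finset X) : ℝ :=
  if alive s p.1 ∧ alive s p.2 ∧ ¬ (p.1 ∈ s.J ∧ p.2 ∈ s.J) then Y.ρC * UW Y s {p.1, p.2} else 0

/-- Weight of a joined set. -/
noncomputable def smW (A : Finset X) : ℝ :=
  if alive s A then kb Y Y.bs (os Y s A) * (if s.newc A then kb Y Y.am (ars Y s A) else 1) /
    (2 - Y.δ) ^ #(s.box A \ s.M) else 0

/-- The big structures. -/
abbrev Big (X : Type*) := MPt X ⊕ PSt X ⊕ GCt X ⊕ (Finset X × Finset X)

/-- The finite set of big structures. -/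
noncomputable def bigI : Finset (Big X) :=
  (mpI Y).disjSum ((psI Y).disjSum ((gcI Y).disjSum (cpI Y)))

/-- Weight of a big structure. -/
noncomputable def W : Big X → ℝ
  | .inl T => mpW Y s T
  | .inr (.inl T) => psW Y s T
  | .inr (.inr (.inl T)) => gcW Y s T
  | .inr (.inr (.inr T)) => cpW Y s T

/-- `p` is an active point of the set `C`. -/
def actN (C : Finset X) (p : X) : Prop := p ∈ C ∧ s.lb C p = none

/-- `p` is an active point of the attached element `e` of the root `E`; `lv` is a condition on the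
type (`true` for type 2) and the level of the set through `p`. -/
def actEl (lv : Bool → ℕ → Prop) (E : Finset X) (e : El X) (p : X) : Prop :=
  att Y s E e.1.2 e.1.1 ∧
    ((actN s e.1.2 p ∧ p ≠ e.1.1 ∧ (∀ l ∈ e.2.2, l.1 ≠ p) ∧ lv e.2.1 (lev s e.1.2)) ∨
      ∃ l ∈ e.2.2, att Y s e.1.2 l.2 l.1 ∧ actN s l.2 p ∧ p ≠ l.1 ∧ lv false (lev s l.2))

/-- Activity with a level condition. -/
def actL (lv : Bool → ℕ → Prop) (p : X) : Big X → Prop
  | .inl T => alive s T.1 ∧ T.1 ∉ s.J ∧ ∃ e ∈ T.2, actEl Y s lv T.1 e p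
  | .inr (.inl T) => p ≠ T.1 ∧ ∃ C ∈ T.2, actN s C p ∧ lv false (lev s C)
  | .inr (.inr (.inl T)) => (∃ A ∈ T.2, A ∉ s.ripe ∧ actN s A p) ∧ lv true 0
  | .inr (.inr (.inr T)) => (∃ A ∈ ({T.1, T.2} : Finset (Finset X)), actN s A p) ∧ lv true 0

/-- `p` is active in the structure. -/
def act (p : X) (T : Big X) : Prop := actL Y s (fun _ _ => True) p T

/-- The level condition for cold sets. -/
def coldlv (κ : Bool) (u : ℕ) : Prop := Y.jb + (if κ then Y.L2 else Y.L1) < u

/-- `p` is cold active in the structure. -/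
def cact (p : X) (T : Big X) : Prop := actL Y s (coldlv Y) p T

/-- The price of a point. -/
noncomputable def phi (p : X) : ℝ := ∑ T ∈ (bigI Y).filter (act Y s p), W Y s T

/-- The weight of the joined sets. -/
noncomputable def Sm : ℝ := ∑ A ∈ s.J.toFinset, smW Y s A

/-- The total potential. -/
noncomputable def Phi : ℝ := Sm Y s + ∑ T ∈ bigI Y, W Y s T

/-- The weight of the joined sets whose box contains `p`. -/
noncomputable def sp (p : X) : ℝ := ∑ A ∈ s.J.toFinset.filter (fun A => p ∈ s.box A), smW Y s A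

/-- Almost joined sets. -/
def near (A : Finset X) : Prop := A ∈ Y.F ∧ alive s A ∧ A ∉ s.J ∧ lev s A ≤ Y.jb + Y.h6

/-- `v` is heated for `A`. -/
def heat (A : Finset X) (v : X) : Prop :=
  ∃ C, near Y s C ∧ gen Y A C ∧ v ∈ C ∧ s.lb C v = none

/-- The reduced size of `A`. -/
noncomputable def uh (A : Finset X) : ℕ :=
  #(A.filter (fun v => v ∉ s.M ∧ s.lb A v = none ∧ ¬ heat Y s A v))

/-- The state is stable. -/
def stable : Prop := ∀ A ∈ Y.F, alive s A → A ∉ s.J → Y.jb < uh Y s A

/-- `p` lies in an alive box. -/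
def hot (p : X) : Prop := ∃ A ∈ s.J, alive s A ∧ p ∈ s.box A

/-- The target of `p`: the oldest alive joined set whose box contains `p`. -/
noncomputable def tgt (p : X) : Option (Finset X) :=
  (s.J.filter (fun A => decide (alive s A ∧ p ∈ s.box A))).getLast?

/-! ### Moves -/

/-- Maker claims `y` and `z`. -/
def afterM (y z : X) : State X := { s with M := insert y (insert z s.M) }

/-- Breaker claims `x`. -/
def addB (x : X) : State X := { s with B := insert x s.B }

/-- Breaker replies `x` to the hot point `y` with target `T`. -/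
def reply (e : Entry X) : State X := { s with B := insert e.x s.B, log := e :: s.log }

/-- The almost joined sets become ripe. -/
noncomputable def ripen : State X := { s with ripe := s.ripe ∪ Y.F.filter (near Y s) }

/-- The new box. -/
noncomputable def nbox (A : Finset X) : Finset X := A.filter (fun v => v ∉ s.M ∧ s.lb A v = none)

/-- `A` joins. -/
noncomputable def join (A : Finset X) : State X where
  M := s.M
  B := s.B
  J := A :: s.J
  box := fun C => if C = A then nbox s A else s.box C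
  lb := fun C v => if s.lb C v = none ∧ C ≠ A ∧ C ∉ s.J ∧ v ∈ C ∧ v ∈ nbox s A ∧ gen Y A C
    then some A else s.lb C v
  ripe := insert A s.ripe
  newc := fun C => if C = A then ∃ D ∈ s.J, alive s D ∧ arith Y D A else s.newc C
  bad := fun C => if C = A then Y.jb + Y.h6 < lev s A + 2 else s.bad C
  cln := fun C => if C = A then clean Y s A else s.cln C
  s1 := fun C => if C = A then (if clean Y s A then b1 Y s A else 0) else s.s1 C
  s2 := fun C => if C = A then (if clean Y s A then b2 Y s A else 0) else s.s2 C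
  ss := fun C => if C = A then sv Y s A else s.ss C
  log := s.log

/-- The starting state. -/
def start : State X where
  M := ∅
  B := ∅
  J := []
  box := fun _ => ∅
  lb := fun _ _ => none
  ripe := ∅
  newc := fun _ => False
  bad := fun _ => False
  cln := fun _ => False
  s1 := fun _ => 0
  s2 := fun _ => 0
  ss := fun _ _ => 0
  log := []

end Pool.H33.MB2
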