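import Pool.Agent.H33.MB2.Rates

/-!
# MB2 STCP: start values of the arithmetic pairs

At the start `ulev start {A, C} = #(A ∪ C) = 2 k - #(A ∩ C) ≥ 2 k - kap`, no strikes (`kb n 0 = K^n`), so
`cpW ≤ ρC * (K^(bs + am))^2 * rw⁻¹ ^ (2 k - kap - 2 jb)` for `(A, C) ∈ cpI` (`A ≠ C` since the grids differ).
Number of pairs: `A ∈ F`, two points of `A` (at most `k^2` ordered pairs), `C` through both (`L`): `#F * k^2 * L`.
Use `hN.st4`.
-/

set_option linter.unusedSectionVars false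

namespace Pool.H33.MB2

open Finset
open scoped Classical

variable {X Γ : Type*} [DecidableEq X] {Y : Sys X Γ} {Q : Num2}
  {Lg : List (Entry X) → Finset X → Finset X → Prop}

theorem stcp_card (hF : FamH Y) : #(cpI Y) ≤ #Y.F * (Y.k ^ 2 * Y.L) := by
  have h1 : cpI Y ⊆ Y.F.biUnion (fun A => (Y.F.filter (fun C => arith Y A C)).image
      (fun C => (A, C))) := by
    intro p hp
    unfold cpI at hp
    rw [mem_filter, mem_product] at hp
    rw [mem_biUnion]
    refine ⟨p.1, hp.1.1, ?_⟩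
    rw [mem_image]
    exact ⟨p.2, mem_filter.2 ⟨hp.1.2, hp.2⟩, rfl⟩
  refine (card_le_card h1).trans (card_biUnion_le_card_mul _ _ _ (fun A hA => ?_))
  refine card_image_le.trans ?_
  have h2 : Y.F.filter (fun C => arith Y A C) ⊆ (A ×ˢ A).biUnion
      (fun q => if q.1 ≠ q.2 then Y.F.filter (fun C => q.1 ∈ C ∧ q.2 ∈ C) else ∅) := by
    intro C hC
    rw [mem_filter] at hC
    have h3 : 1 < #(A ∩ C) := hC.2.2
    obtain ⟨a, ha, b, hb, hab⟩ := one_lt_card.1 h3
    rw [mem_inter] at ha hb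
    rw [mem_biUnion]
    refine ⟨(a, b), mem_product.2 ⟨ha.1, hb.1⟩, ?_⟩
    simp only
    rw [if_pos hab, mem_filter]
    exact ⟨hC.1, ha.2, hb.2⟩
  refine (card_le_card h2).trans ?_
  have h4 : #(A ×ˢ A) = Y.k ^ 2 := by
    rw [card_product, hF.card A hA, pow_two]
  rw [← h4]
  refine card_biUnion_le_card_mul _ _ _ (fun q _ => ?_)
  split_ifs with h5
  · exact hF.codeg q.1 q.2 h5
  · simp

theorem stcp_weight (hF : FamH Y) (hN : NumH Y Q) (T : Finset X × Finset X) (hT : T ∈ cpI Y) :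
    cpW Y (start : State X) T ≤ Y.ρC * (Y.K ^ (2 * (Y.bs + Y.am)) *
      (rw Y)⁻¹ ^ (2 * Y.k - Y.kap - 2 * Y.jb)) := by
  obtain ⟨A, C⟩ := T
  unfold cpI at hT
  rw [mem_filter, mem_product] at hT
  obtain ⟨⟨hA, hC⟩, hgr, hcard⟩ := hT
  simp only at hA hC hgr hcard
  have hAC : A ≠ C := by
    intro h
    exact hgr (by rw [h])
  have hK := K_pos hN
  have hrw := rw_ge hN
  have hρ := hN.ρCpos
  have hos : ∀ E : Finset X, os Y (start : State X) E = 0 := fun E => rfl
  have hars : ∀ E : Finset X, ars Y (start : State X) E = 0 := fun E => rfl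
  have hkb : ∀ n, kb Y n 0 = Y.K ^ n := by
    intro n
    unfold kb
    rw [pow_zero, div_one]
  have hul : ulev (start : State X) {A, C} = #(A ∪ C) := by
    unfold ulev
    congr 1
    rw [filter_true_of_mem]
    · ext v
      simp
    · intro v _ h
      have h1 : v ∈ (start : State X).M := h.1
      exact absurd h1 (notMem_empty v)
  have hunion : 2 * Y.k - Y.kap ≤ #(A ∪ C) := by
    have h1 := card_union_add_card_inter A C
    have h2 := hF.kap A hA C hC hgr
    rw [hF.card A hA, hF.card C hC] at h1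
    omega
  have hUW : UW Y (start : State X) {A, C} ≤ Y.K ^ (2 * (Y.bs + Y.am)) *
      (rw Y)⁻¹ ^ (2 * Y.k - Y.kap - 2 * Y.jb) := by
    unfold UW
    rw [prod_pair hAC, hos, hos, hars, hars, hkb, hkb, hul, card_pair hAC]
    have h1 : Y.K ^ Y.bs * Y.K ^ Y.am * (Y.K ^ Y.bs * Y.K ^ Y.am) =
        Y.K ^ (2 * (Y.bs + Y.am)) := by
      rw [← pow_add, ← pow_add]
      congr 1
      ring
    rw [h1]
    refine mul_le_mul_of_nonneg_left ?_ (by positivity)
    refine pow_le_pow_of_le_one (by positivity) ?_ (by omega)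
    exact inv_le_one_of_one_le₀ (by linarith)
  unfold cpW
  split_ifs
  · exact mul_le_mul_of_nonneg_left hUW hρ.le
  · have : 0 < rw Y := by linarith
    positivity

theorem start_cp (hF : FamH Y) (hN : NumH Y Q) :
    ∑ T ∈ cpI Y, cpW Y (start : State X) T ≤ 1 / 1024 := by
  set w : ℝ := Y.ρC * (Y.K ^ (2 * (Y.bs + Y.am)) *
    (rw Y)⁻¹ ^ (2 * Y.k - Y.kap - 2 * Y.jb)) with hw
  have hw0 : 0 ≤ w := by
    have h1 := hN.ρCpos
    have h2 := K_pos hN
    have h3 : 0 < rw Y := lt_of_lt_of_le (by norm_num) (rw_ge hN)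
    rw [hw]
    positivity
  have h1 : ∑ T ∈ cpI Y, cpW Y (start : State X) T ≤ ∑ T ∈ cpI Y, w :=
    Finset.sum_le_sum (fun T hT => stcp_weight hF hN T hT)
  refine h1.trans ?_
  rw [Finset.sum_const, nsmul_eq_mul]
  have h2 := stcp_card (Y := Y) hF
  have h3 : (#(cpI Y) : ℝ) ≤ #Y.F * (Y.k ^ 2 * Y.L) := by exact_mod_cast h2
  calc (#(cpI Y) : ℝ) * w ≤ #Y.F * (Y.k ^ 2 * Y.L) * w := mul_le_mul_of_nonneg_right h3 hw0
    _ = (#Y.F : ℝ) * (Y.k ^ 2 * Y.L * w) := by ring
    _ ≤ 1 / 1024 := hN.st4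

end Pool.H33.MB2
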