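import Pool.Agent.H33.MB2.Rates

/-!
# MB2 STGC: start values of the macro tuples

At the start `ripe = ∅`, no strikes, `ulev start 𝒳 = #(𝒳.biUnion id)`.  For `(E, l) ∈ gcI Y` let `l = A_n :: .. :: A_1`
(`A_1` added first), `o_i = #(A_i ∩ (A_1 ∪ .. ∪ A_(i-1)))`.  `#(union) = Σ (k - o_i)`.
* If `A_i` is free (`#(A_i ∩ stars) ≤ 1`) then `o_i ≤ 1` (`subset_stars`).
* If it is tight: at most one earlier set is close to `A_i`; that one is in another grid, intersection `≤ kap`; the others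
  meet `A_i` in at most `t1` points: `o_i ≤ kap + smax * t1`.
So `rw⁻¹ ^ (#union - n jb) ≤ ∏ rw ^ o_i * (rw⁻¹) ^ (k - jb)` (`jb < k`; truncated subtraction is at least the
true difference).
* Number of choices of `A_i` given the earlier ones: `#stars ≤ stn` (`#star A ≤ k + k^3 L`: a close set has at least two points
  in common with `A`, so there are at most `k^2 L` of them, each with `k` points).  Free: a point of `stars` and a set through it:
  `≤ stn * D`.  Tight: two points of `stars`: `≤ stn^2 * L`.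
So the sum over the lists with `nfree = a`, `ntight = b` (all orders) is at most `#F * ρG * 2^(a+b) * ffr^a * fti^b`; prove by induction on the
length `n`: for every weight function, e.g. `Σ_{l of length n, valid} x^nfree y^ntight (stuff) ≤ ...`; or directly
`Σ_{valid l, length n} ∏_i w_i ≤ ...` where one keeps the generating function `Σ_l ρ ∏_i (if free then f * s else t * u)`.
A convenient way: for `n`, `a`, `b` let `N(n, a, b)` be the sum of `∏` over the valid lists of length `n` with `a` free and `b` tight sets; then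
`N(n+1, a, b) ≤ ffr * N(n, a-1, b) + fti * N(n, a, b-1)`, so `N(n, a, b) ≤ C(n, a) ffr^a fti^b` (`a + b = n`).
If `a ≤ b + 3`: `ffr^a fti^b ≤ (1 + ffr)^3` (`st3`, `st3'`).  Sum over `a`, `b`, `n ≤ smax`: `≤ 2^(smax+1) (1 + ffr)^3`; `st3''`.
-/

set_option linter.unusedSectionVars false

namespace Pool.H33.MB2

open Finset
open scoped Classical

variable {X Γ : Type*} [DecidableEq X] {Y : Sys X Γ} {Q : Num2}
  {Lg : List (Entry X) → Finset X → Finset X → Prop}

/-- sets through two points of `S` -/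
theorem stgc_two (hF : FamH Y) (S : Finset X) :
    #(Y.F.filter (fun A => 2 ≤ #(A ∩ S))) ≤ #S ^ 2 * Y.L := by
  have hsub : Y.F.filter (fun A => 2 ≤ #(A ∩ S)) ⊆
      S.offDiag.biUnion (fun p => Y.F.filter (fun A => p.1 ∈ A ∧ p.2 ∈ A)) := by
    intro A hA
    rw [mem_filter] at hA
    obtain ⟨p, hp, q, hq, hpq⟩ := one_lt_card.1 (show 1 < #(A ∩ S) by omega)
    rw [mem_inter] at hp hq
    rw [mem_biUnion]
    refine ⟨(p, q), ?_, ?_⟩
    · rw [mem_offDiag]
      exact ⟨hp.2, hq.2, hpq⟩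
    · rw [mem_filter]
      exact ⟨hA.1, hp.1, hq.1⟩
  refine (card_le_card hsub).trans ((card_biUnion_le_card_mul _ _ Y.L ?_).trans ?_)
  · intro p hp
    rw [mem_offDiag] at hp
    exact hF.codeg p.1 p.2 hp.2.2
  · apply Nat.mul_le_mul_right
    rw [offDiag_card, sq]
    exact Nat.sub_le _ _

/-- sets through one point of `S` -/
theorem stgc_one (hF : FamH Y) (S : Finset X) :
    #(Y.F.filter (fun A => 1 ≤ #(A ∩ S))) ≤ #S * Y.D := by
  have hsub : Y.F.filter (fun A => 1 ≤ #(A ∩ S)) ⊆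
      S.biUnion (fun p => Y.F.filter (fun A => p ∈ A)) := by
    intro A hA
    rw [mem_filter] at hA
    obtain ⟨p, hp⟩ := card_pos.1 (show 0 < #(A ∩ S) by omega)
    rw [mem_inter] at hp
    rw [mem_biUnion]
    exact ⟨p, hp.2, mem_filter.2 ⟨hA.1, hp.1⟩⟩
  exact (card_le_card hsub).trans (card_biUnion_le_card_mul _ _ Y.D (fun p _ => hF.deg p))

theorem stgc_star (hF : FamH Y) (hN : NumH Y Q) {A : Finset X} (hA : A ∈ Y.F) :
    #(star Y A) ≤ Y.k + Y.k ^ 3 * Y.L := by
  unfold star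
  refine (card_union_le _ _).trans ?_
  rw [hF.card A hA]
  apply Nat.add_le_add_left
  have h1 : #((Y.F.filter (close Y A)).biUnion id) ≤ #(Y.F.filter (close Y A)) * Y.k := by
    apply card_biUnion_le_card_mul
    intro C hC
    rw [mem_filter] at hC
    exact (hF.card C hC.1).le
  have h2 : #(Y.F.filter (close Y A)) ≤ Y.k ^ 2 * Y.L := by
    refine (card_le_card ?_).trans ((stgc_two hF A).trans (by rw [hF.card A hA]))
    intro C hC
    rw [mem_filter] at hC ⊢
    refine ⟨hC.1, ?_⟩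
    have h3 : Y.t1 < #(A ∩ C) := hC.2
    rw [inter_comm] at h3
    have := hN.t11
    omega
  calc #((Y.F.filter (close Y A)).biUnion id) ≤ #(Y.F.filter (close Y A)) * Y.k := h1
    _ ≤ Y.k ^ 2 * Y.L * Y.k := Nat.mul_le_mul_right _ h2
    _ = Y.k ^ 3 * Y.L := by ring

theorem stgc_stars (hF : FamH Y) (hN : NumH Y Q) {E : Finset X} (hE : E ∈ Y.F)
    {l : List (Finset X)} (hl : ∀ A ∈ l, A ∈ Y.F) (hlen : l.length ≤ smax Y) :
    #(stars Y E l) ≤ stn Y := by
  unfold stars stn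
  refine (card_biUnion_le_card_mul _ _ (Y.k + Y.k ^ 3 * Y.L) ?_).trans ?_
  · intro A hA
    rw [mem_insert, List.mem_toFinset] at hA
    rcases hA with rfl | hA
    · exact stgc_star hF hN hE
    · exact stgc_star hF hN (hl A hA)
  · apply Nat.mul_le_mul_right
    refine (card_insert_le _ _).trans ?_
    have := List.toFinset_card_le l
    omega

/-- number of choices for a free set -/
def stcf (Y : Sys X Γ) : ℕ := stn Y * Y.D

/-- number of choices for a tight set -/
def stct (Y : Sys X Γ) : ℕ := stn Y ^ 2 * Y.L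

/-- normalized weight of a list -/
noncomputable def stvv (Y : Sys X Γ) (E : Finset X) : List (Finset X) → ℝ
  | [] => 1
  | A :: l => stvv Y E l *
      (if 2 ≤ #(A ∩ stars Y E l) then ((stct Y : ℕ) : ℝ)⁻¹ else ((stcf Y : ℕ) : ℝ)⁻¹)

theorem stvv_nonneg (Y : Sys X Γ) (E : Finset X) (l : List (Finset X)) : 0 ≤ stvv Y E l := by
  induction l with
  | nil => exact zero_le_one
  | cons A l ih =>
    show 0 ≤ stvv Y E l *
      (if 2 ≤ #(A ∩ stars Y E l) then ((stct Y : ℕ) : ℝ)⁻¹ else ((stcf Y : ℕ) : ℝ)⁻¹)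
    apply mul_nonneg ih
    split_ifs <;> positivity

/-- lists of length `n` -/
noncomputable def stLL (Y : Sys X Γ) : ℕ → Finset (List (Finset X))
  | 0 => {[]}
  | n + 1 => (Y.F ×ˢ stLL Y n).image (fun p => p.1 :: p.2)

theorem mem_stLL {n : ℕ} {l : List (Finset X)} :
    l ∈ stLL Y n ↔ l.length = n ∧ ∀ A ∈ l, A ∈ Y.F := by
  induction n generalizing l with
  | zero =>
    simp only [stLL, mem_singleton, List.length_eq_zero_iff]
    constructor
    · rintro rfl
      simp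
    · exact fun h => h.1
  | succ n ih =>
    simp only [stLL, mem_image, mem_product, Prod.exists, ih]
    constructor
    · rintro ⟨A, l', ⟨hA, h1, h2⟩, rfl⟩
      refine ⟨by simpa using h1, ?_⟩
      simpa using ⟨hA, h2⟩
    · rintro ⟨h1, h2⟩
      rcases l with _ | ⟨A, l'⟩
      · simp at h1
      · refine ⟨A, l', ⟨?_, ?_, ?_⟩, rfl⟩
        · exact h2 A (by simp)
        · simpa using h1
        · exact fun B hB => h2 B (by simp [hB])

theorem stgc_count (hF : FamH Y) (hN : NumH Y Q) {E : Finset X} (hE : E ∈ Y.F) (n : ℕ)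
    (hn : n ≤ smax Y) : ∑ l ∈ (stLL Y n).filter (ValidL Y E), stvv Y E l ≤ 2 ^ n := by
  induction n with
  | zero =>
    have h1 : (stLL Y 0).filter (ValidL Y E) = {[]} := by
      show ({[]} : Finset (List (Finset X))).filter (ValidL Y E) = {[]}
      rw [filter_singleton, if_pos (show ValidL Y E [] from trivial)]
    rw [h1, sum_singleton]
    exact le_of_eq (pow_zero _).symm
  | succ n ih =>
    have ih' := ih (by omega)
    have h1 : ∑ l ∈ (stLL Y (n + 1)).filter (ValidL Y E), stvv Y E l =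
        ∑ p ∈ (Y.F ×ˢ stLL Y n).filter (fun p => ValidL Y E (p.1 :: p.2)),
          stvv Y E (p.1 :: p.2) := by
      have h2 : (stLL Y (n + 1)).filter (ValidL Y E) =
          ((Y.F ×ˢ stLL Y n).filter (fun p => ValidL Y E (p.1 :: p.2))).image
            (fun p => p.1 :: p.2) := by
        ext l
        simp only [stLL, mem_filter, mem_image]
        constructor
        · rintro ⟨⟨p, hp, rfl⟩, hl⟩
          exact ⟨p, ⟨hp, hl⟩, rfl⟩
        · rintro ⟨p, ⟨hp, hl⟩, rfl⟩
          exact ⟨⟨p, hp, rfl⟩, hl⟩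
      rw [h2, sum_image]
      intro p _ q _ h
      simp only [List.cons.injEq] at h
      exact Prod.ext h.1 h.2
    rw [h1]
    have h3 : ∑ p ∈ (Y.F ×ˢ stLL Y n).filter (fun p => ValidL Y E (p.1 :: p.2)),
          stvv Y E (p.1 :: p.2) ≤
        ∑ l ∈ (stLL Y n).filter (ValidL Y E), ∑ A ∈ Y.F,
          (if 1 ≤ #(A ∩ stars Y E l) then stvv Y E (A :: l) else 0) := by
      rw [sum_filter, sum_product_right, sum_filter]
      apply sum_le_sum
      intro l _
      by_cases hv : ValidL Y E l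
      · rw [if_pos hv]
        apply sum_le_sum
        intro A _
        by_cases hv2 : ValidL Y E (A :: l)
        · rw [if_pos hv2, if_pos hv2.2.2.2.1]
        · rw [if_neg hv2]
          split_ifs
          · exact stvv_nonneg Y E _
          · exact le_rfl
      · rw [if_neg hv]
        apply le_of_eq
        apply sum_eq_zero
        intro A _
        rw [if_neg]
        exact fun h => hv h.1
    refine h3.trans ?_
    have h4 : ∀ l ∈ (stLL Y n).filter (ValidL Y E), ∑ A ∈ Y.F,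
          (if 1 ≤ #(A ∩ stars Y E l) then stvv Y E (A :: l) else 0) ≤ 2 * stvv Y E l := by
      intro l hl
      rw [mem_filter, mem_stLL] at hl
      have hst := stgc_stars hF hN hE hl.1.2 (by rw [hl.1.1]; omega)
      have hv0 := stvv_nonneg Y E l
      have c1 : ((#(Y.F.filter (fun A => 1 ≤ #(A ∩ stars Y E l))) : ℕ) : ℝ) *
          ((stcf Y : ℕ) : ℝ)⁻¹ ≤ 1 := by
        have e1 : #(Y.F.filter (fun A => 1 ≤ #(A ∩ stars Y E l))) ≤ stcf Y :=
          (stgc_one hF _).trans (Nat.mul_le_mul_right _ hst)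
        exact mul_inv_le_one_of_le₀ (by exact_mod_cast e1) (Nat.cast_nonneg _)
      have c2 : ((#(Y.F.filter (fun A => 2 ≤ #(A ∩ stars Y E l))) : ℕ) : ℝ) *
          ((stct Y : ℕ) : ℝ)⁻¹ ≤ 1 := by
        have e1 : #(Y.F.filter (fun A => 2 ≤ #(A ∩ stars Y E l))) ≤ stct Y :=
          (stgc_two hF _).trans (Nat.mul_le_mul_right _ (Nat.pow_le_pow_left hst 2))
        exact mul_inv_le_one_of_le₀ (by exact_mod_cast e1) (Nat.cast_nonneg _)
      have h5 : ∀ A ∈ Y.F, (if 1 ≤ #(A ∩ stars Y E l) then stvv Y E (A :: l) else 0) ≤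
          (if 1 ≤ #(A ∩ stars Y E l) then stvv Y E l * ((stcf Y : ℕ) : ℝ)⁻¹ else 0) +
          (if 2 ≤ #(A ∩ stars Y E l) then stvv Y E l * ((stct Y : ℕ) : ℝ)⁻¹ else 0) := by
        intro A _
        have i1 : 0 ≤ ((stcf Y : ℕ) : ℝ)⁻¹ := by positivity
        have i2 : 0 ≤ ((stct Y : ℕ) : ℝ)⁻¹ := by positivity
        have j1 := mul_nonneg hv0 i1
        have j2 := mul_nonneg hv0 i2
        have e2 : stvv Y E (A :: l) = stvv Y E l *
          (if 2 ≤ #(A ∩ stars Y E l) then ((stct Y : ℕ) : ℝ)⁻¹ else ((stcf Y : ℕ) : ℝ)⁻¹) := rfl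
        rw [e2]
        split_ifs <;> linarith
      refine (sum_le_sum h5).trans ?_
      rw [sum_add_distrib, ← sum_filter, ← sum_filter, sum_const, sum_const, nsmul_eq_mul,
        nsmul_eq_mul]
      have f1 := mul_le_mul_of_nonneg_left c1 hv0
      have f2 := mul_le_mul_of_nonneg_left c2 hv0
      linarith
    refine (sum_le_sum h4).trans ?_
    rw [← mul_sum, pow_succ, mul_comm]
    linarith

/-- the intersection of a new set with the old ones -/
theorem stgc_inter (hF : FamH Y) {E A : Finset X} {l : List (Finset X)}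
    (hl : ∀ Z ∈ l, Z ∈ Y.F) (hA : ValidL Y E (A :: l)) (hlen : l.length ≤ smax Y) :
    #(A ∩ l.toFinset.biUnion id) ≤ Y.kap + smax Y * Y.t1 := by
  obtain ⟨-, -, hAF, -, h5, h6⟩ := hA
  have hlt : #l.toFinset ≤ smax Y := (List.toFinset_card_le l).trans hlen
  have hsmall : #((l.toFinset.filter (fun Z => ¬ close Y Z A)).biUnion (fun Z => A ∩ Z)) ≤
      smax Y * Y.t1 := by
    refine (card_biUnion_le_card_mul _ _ Y.t1 ?_).trans
      (Nat.mul_le_mul_right _ ((card_filter_le _ _).trans hlt))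
    intro Z hZ
    have h1 := (mem_filter.1 hZ).2
    unfold close at h1
    rw [inter_comm] at h1
    omega
  by_cases hc : ∃ Z ∈ l, close Y Z A
  · obtain ⟨Z0, hZ0, hZc⟩ := hc
    have hsub : A ∩ l.toFinset.biUnion id ⊆
        (Z0 ∩ A) ∪ (l.toFinset.filter (fun Z => ¬ close Y Z A)).biUnion (fun Z => A ∩ Z) := by
      intro x hx
      rw [mem_inter, mem_biUnion] at hx
      obtain ⟨hxA, Z, hZ, hxZ⟩ := hx
      rw [mem_union]
      by_cases h : close Y Z A
      · left
        have := h6 Z (List.mem_toFinset.1 hZ) Z0 hZ0 h hZc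
        subst this
        exact mem_inter.2 ⟨hxZ, hxA⟩
      · right
        rw [mem_biUnion]
        exact ⟨Z, mem_filter.2 ⟨hZ, h⟩, mem_inter.2 ⟨hxA, hxZ⟩⟩
    refine (card_le_card hsub).trans ((card_union_le _ _).trans ?_)
    exact Nat.add_le_add (hF.kap Z0 (hl Z0 hZ0) A hAF (h5 Z0 hZ0 hZc)) hsmall
  · push Not at hc
    have hsub : A ∩ l.toFinset.biUnion id ⊆
        (l.toFinset.filter (fun Z => ¬ close Y Z A)).biUnion (fun Z => A ∩ Z) := by
      intro x hx
      rw [mem_inter, mem_biUnion] at hx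
      obtain ⟨hxA, Z, hZ, hxZ⟩ := hx
      rw [mem_biUnion]
      exact ⟨Z, mem_filter.2 ⟨hZ, hc Z (List.mem_toFinset.1 hZ)⟩, mem_inter.2 ⟨hxA, hxZ⟩⟩
    exact (card_le_card hsub).trans (hsmall.trans (Nat.le_add_left _ _))

theorem stgc_free {E A : Finset X} {l : List (Finset X)} (h : ¬ 2 ≤ #(A ∩ stars Y E l)) :
    #(A ∩ l.toFinset.biUnion id) ≤ 1 := by
  have hsub : A ∩ l.toFinset.biUnion id ⊆ A ∩ stars Y E l := by
    apply inter_subset_inter_left
    intro x hx
    rw [mem_biUnion] at hx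
    obtain ⟨Z, hZ, hxZ⟩ := hx
    exact subset_stars Y E l (Or.inr (List.mem_toFinset.1 hZ)) hxZ
  have := card_le_card hsub
  omega

/-- the value of a list -/
noncomputable def stP (Y : Sys X Γ) (E : Finset X) (l : List (Finset X)) : ℝ :=
  Y.gt ^ ntight Y E l * (Y.K ^ (Y.bs + Y.am)) ^ l.length *
    (rw Y)⁻¹ ^ (#(l.toFinset.biUnion id)) * rw Y ^ (l.length * Y.jb)

theorem stP_cons (hF : FamH Y) (hN : NumH Y Q) {E A : Finset X} {l : List (Finset X)}
    (hA : A ∈ Y.F) :
    stP Y E (A :: l) = stP Y E l * (Y.gt ^ (if 2 ≤ #(A ∩ stars Y E l) then 1 else 0) *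
      Y.K ^ (Y.bs + Y.am) * rw Y ^ (#(A ∩ l.toFinset.biUnion id)) *
        (rw Y)⁻¹ ^ (Y.k - Y.jb)) := by
  have hrw := rw_ge hN
  have hrw0 : rw Y ≠ 0 := by linarith
  have hjk : Y.jb ≤ Y.k := by have := hN.jk; omega
  have h1 : #((A :: l).toFinset.biUnion id) + #(A ∩ l.toFinset.biUnion id) =
      Y.k + #(l.toFinset.biUnion id) := by
    rw [List.toFinset_cons, biUnion_insert, id, card_union_add_card_inter, hF.card A hA]
  have h2 : (rw Y)⁻¹ ^ (#((A :: l).toFinset.biUnion id)) =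
      (rw Y)⁻¹ ^ Y.k * (rw Y)⁻¹ ^ (#(l.toFinset.biUnion id)) *
        rw Y ^ (#(A ∩ l.toFinset.biUnion id)) := by
    rw [← pow_add, ← h1, pow_add, mul_assoc, ← mul_pow, inv_mul_cancel₀ hrw0, one_pow, mul_one]
  have h3 : (rw Y)⁻¹ ^ Y.k * rw Y ^ Y.jb = (rw Y)⁻¹ ^ (Y.k - Y.jb) := by
    have e : Y.k = (Y.k - Y.jb) + Y.jb := by omega
    conv_lhs => rw [e]
    rw [pow_add, mul_assoc, ← mul_pow, inv_mul_cancel₀ hrw0, one_pow, mul_one]
  unfold stP
  rw [h2, List.length_cons, ← h3]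
  show Y.gt ^ (ntight Y E l + (if 2 ≤ #(A ∩ stars Y E l) then 1 else 0)) * _ * _ * _ = _
  rw [pow_add, pow_succ, Nat.add_mul, pow_add, one_mul]
  ring

theorem stP_le (hF : FamH Y) (hN : NumH Y Q) (hD : 1 ≤ Y.D) {E : Finset X}
    (l : List (Finset X)) (hl : ∀ Z ∈ l, Z ∈ Y.F) (hv : ValidL Y E l) (hlen : l.length ≤ smax Y) :
    stP Y E l ≤ stvv Y E l * ffr Y ^ nfree Y E l * fti Y ^ ntight Y E l := by
  have hrw := rw_ge hN
  have hrw0 : 0 < rw Y := by linarith
  have hrwi : 0 < (rw Y)⁻¹ := inv_pos.2 hrw0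
  have hK := K_pos hN
  have hgt := hN.gt1
  have hgt0 : 0 < Y.gt := by linarith
  have hstn : 0 < stn Y := by
    unfold stn
    have := hN.k1
    apply Nat.mul_pos (Nat.succ_pos _)
    omega
  have hcf : ((stcf Y : ℕ) : ℝ) ≠ 0 := by
    have : 0 < stcf Y := Nat.mul_pos hstn (by omega)
    exact_mod_cast this.ne'
  have hct : ((stct Y : ℕ) : ℝ) ≠ 0 := by
    have : 0 < stct Y := Nat.mul_pos (pow_pos hstn 2) (by have := hN.L1'; omega)
    exact_mod_cast this.ne'
  have hffr0 : 0 ≤ ffr Y := by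
    unfold ffr
    positivity
  have hfti0 : 0 ≤ fti Y := by
    unfold fti
    positivity
  induction l with
  | nil =>
    unfold stP stvv
    simp [ntight, nfree]
  | cons A l ih =>
    have hAF : A ∈ Y.F := hl A (by simp)
    have hl' : ∀ Z ∈ l, Z ∈ Y.F := fun Z hZ => hl Z (by simp [hZ])
    have hlen' : l.length ≤ smax Y := by
      rw [List.length_cons] at hlen
      omega
    have ih' := ih hl' hv.1 hlen'
    rw [stP_cons hF hN hAF]
    have hP0 : 0 ≤ stvv Y E l * ffr Y ^ nfree Y E l * fti Y ^ ntight Y E l := by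
      have := stvv_nonneg Y E l
      positivity
    have e1 : stvv Y E (A :: l) = stvv Y E l *
      (if 2 ≤ #(A ∩ stars Y E l) then ((stct Y : ℕ) : ℝ)⁻¹ else ((stcf Y : ℕ) : ℝ)⁻¹) := rfl
    have e2 : nfree Y E (A :: l) = nfree Y E l + (if 2 ≤ #(A ∩ stars Y E l) then 0 else 1) := rfl
    have e3 : ntight Y E (A :: l) = ntight Y E l + (if 2 ≤ #(A ∩ stars Y E l) then 1 else 0) := rfl
    rw [e1, e2, e3]
    by_cases h2 : 2 ≤ #(A ∩ stars Y E l)
    · rw [if_pos h2, if_pos h2, if_pos h2, pow_one, add_zero, pow_succ]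
      have h3 : rw Y ^ (#(A ∩ l.toFinset.biUnion id)) ≤ rw Y ^ (Y.kap + smax Y * Y.t1) :=
        pow_le_pow_right₀ (by linarith) (stgc_inter hF hl' hv hlen')
      have h4 : Y.gt * Y.K ^ (Y.bs + Y.am) * rw Y ^ (#(A ∩ l.toFinset.biUnion id)) *
          (rw Y)⁻¹ ^ (Y.k - Y.jb) ≤ ((stct Y : ℕ) : ℝ)⁻¹ * fti Y := by
        have h5 : ((stct Y : ℕ) : ℝ)⁻¹ * fti Y = Y.gt * Y.K ^ (Y.bs + Y.am) *
            rw Y ^ (Y.kap + smax Y * Y.t1) * (rw Y)⁻¹ ^ (Y.k - Y.jb) := by
          have h6 : fti Y = ((stct Y : ℕ) : ℝ) * (Y.gt * Y.K ^ (Y.bs + Y.am) *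
            rw Y ^ (Y.kap + smax Y * Y.t1) * (rw Y)⁻¹ ^ (Y.k - Y.jb)) := by
            unfold fti stct
            push_cast
            ring
          rw [h6, inv_mul_cancel_left₀ hct]
        rw [h5]
        gcongr
      calc stP Y E l * (Y.gt * Y.K ^ (Y.bs + Y.am) * rw Y ^ (#(A ∩ l.toFinset.biUnion id)) *
            (rw Y)⁻¹ ^ (Y.k - Y.jb))
          ≤ (stvv Y E l * ffr Y ^ nfree Y E l * fti Y ^ ntight Y E l) *
            (((stct Y : ℕ) : ℝ)⁻¹ * fti Y) :=
            mul_le_mul ih' h4 (by positivity) hP0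
        _ = _ := by ring
    · rw [if_neg h2, if_neg h2, if_neg h2, pow_zero, add_zero, one_mul, pow_succ]
      have h3 : rw Y ^ (#(A ∩ l.toFinset.biUnion id)) ≤ rw Y := by
        calc rw Y ^ (#(A ∩ l.toFinset.biUnion id)) ≤ rw Y ^ 1 :=
              pow_le_pow_right₀ (by linarith) (stgc_free h2)
          _ = rw Y := pow_one _
      have h4 : Y.K ^ (Y.bs + Y.am) * rw Y ^ (#(A ∩ l.toFinset.biUnion id)) *
          (rw Y)⁻¹ ^ (Y.k - Y.jb) ≤ ((stcf Y : ℕ) : ℝ)⁻¹ * ffr Y := by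
        have h5 : ((stcf Y : ℕ) : ℝ)⁻¹ * ffr Y = Y.K ^ (Y.bs + Y.am) *
            rw Y * (rw Y)⁻¹ ^ (Y.k - Y.jb) := by
          have h6 : ffr Y = ((stcf Y : ℕ) : ℝ) * (Y.K ^ (Y.bs + Y.am) *
            rw Y * (rw Y)⁻¹ ^ (Y.k - Y.jb)) := by
            unfold ffr stcf
            push_cast
            ring
          rw [h6, inv_mul_cancel_left₀ hcf]
        rw [h5]
        gcongr
      calc stP Y E l * (Y.K ^ (Y.bs + Y.am) * rw Y ^ (#(A ∩ l.toFinset.biUnion id)) *
            (rw Y)⁻¹ ^ (Y.k - Y.jb))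
          ≤ (stvv Y E l * ffr Y ^ nfree Y E l * fti Y ^ ntight Y E l) *
            (((stcf Y : ℕ) : ℝ)⁻¹ * ffr Y) :=
            mul_le_mul ih' h4 (by positivity) hP0
        _ = _ := by ring

theorem stgc_nodup {E : Finset X} {l : List (Finset X)} (h : ValidL Y E l) : l.Nodup := by
  induction l with
  | nil => exact List.nodup_nil
  | cons A l ih => exact List.nodup_cons.2 ⟨h.2.1, ih h.1⟩

theorem stgc_gcW (hN : NumH Y Q) {E : Finset X} {l : List (Finset X)} (h : ValidL Y E l) :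
    gcW Y (start : State X) (E, l) ≤ Y.ρG * stP Y E l := by
  have hrw := rw_ge hN
  have hrw0 : 0 < rw Y := by linarith
  have hrwi : 0 < (rw Y)⁻¹ := inv_pos.2 hrw0
  have hK := K_pos hN
  have hgt := hN.gt1
  have hgt0 : 0 < Y.gt := by linarith
  have hρ := hN.ρGpos
  have hcond : ∀ A ∈ (E, l).2, A ∈ (start : State X).ripe ∨ alive (start : State X) A := by
    intro A _
    right
    show Disjoint A ∅
    exact disjoint_empty_right A
  have hcard : #l.toFinset = l.length := List.toFinset_card_of_nodup (stgc_nodup h)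
  have h1 : l.toFinset \ (start : State X).ripe = l.toFinset := by
    show l.toFinset \ ∅ = l.toFinset
    rw [sdiff_empty]
  have h2 : l.toFinset ∩ (start : State X).ripe = ∅ := by
    show l.toFinset ∩ ∅ = ∅
    rw [inter_empty]
  have h3 : ulev (start : State X) l.toFinset = #(l.toFinset.biUnion id) := by
    unfold ulev
    rw [filter_true_of_mem]
    intro v _ hv
    have : v ∈ (∅ : Finset X) := hv.1
    simp at this
  have h4 : UW Y (start : State X) l.toFinset = (Y.K ^ (Y.bs + Y.am)) ^ l.length *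
      (rw Y)⁻¹ ^ (#(l.toFinset.biUnion id) - l.length * Y.jb) := by
    unfold UW
    rw [h3, hcard]
    congr 1
    have e1 : ∀ A ∈ l.toFinset, kb Y Y.bs (os Y (start : State X) A) *
        kb Y Y.am (ars Y (start : State X) A) = Y.K ^ (Y.bs + Y.am) := by
      intro A _
      have o1 : os Y (start : State X) A = 0 := rfl
      have o2 : ars Y (start : State X) A = 0 := rfl
      rw [o1, o2]
      unfold kb
      rw [pow_zero, div_one, div_one, pow_add]
    rw [prod_congr rfl e1, prod_const, hcard]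
  have h5 : (rw Y)⁻¹ ^ (#(l.toFinset.biUnion id) - l.length * Y.jb) ≤
      (rw Y)⁻¹ ^ (#(l.toFinset.biUnion id)) * rw Y ^ (l.length * Y.jb) := by
    rcases le_total (l.length * Y.jb) (#(l.toFinset.biUnion id)) with h6 | h6
    · have e : #(l.toFinset.biUnion id) =
          (#(l.toFinset.biUnion id) - l.length * Y.jb) + l.length * Y.jb := by omega
      conv_rhs => rw [e]
      rw [pow_add, mul_assoc, ← mul_pow, inv_mul_cancel₀ hrw0.ne', one_pow, mul_one]
    · rw [Nat.sub_eq_zero_of_le h6, pow_zero]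
      have e : l.length * Y.jb = (l.length * Y.jb - #(l.toFinset.biUnion id)) +
          #(l.toFinset.biUnion id) := by omega
      rw [e, pow_add, mul_comm, mul_assoc, ← mul_pow, mul_inv_cancel₀ hrw0.ne', one_pow, mul_one]
      exact one_le_pow₀ (by linarith)
  unfold gcW
  rw [if_pos hcond]
  show Y.ρG * Y.gt ^ ntight Y E l * (rw Y)⁻¹ ^ (Y.H1 * #(l.toFinset ∩ (start : State X).ripe)) *
      UW Y (start : State X) (l.toFinset \ (start : State X).ripe) ≤ _
  rw [h1, h2, card_empty, mul_zero, pow_zero, mul_one, h4]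
  unfold stP
  calc Y.ρG * Y.gt ^ ntight Y E l * ((Y.K ^ (Y.bs + Y.am)) ^ l.length *
      (rw Y)⁻¹ ^ (#(l.toFinset.biUnion id) - l.length * Y.jb))
      ≤ Y.ρG * Y.gt ^ ntight Y E l * ((Y.K ^ (Y.bs + Y.am)) ^ l.length *
        ((rw Y)⁻¹ ^ (#(l.toFinset.biUnion id)) * rw Y ^ (l.length * Y.jb))) := by
        gcongr
    _ = _ := by ring

theorem stgc_pow {x y : ℝ} (hx : 0 ≤ x) (hy : 0 ≤ y) (hy1 : y ≤ 1) (hxy : x * y ≤ 1) (a b : ℕ)
    (h : a ≤ b + 3) : x ^ a * y ^ b ≤ (1 + x) ^ 3 := by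
  have h1x : (1 : ℝ) ≤ 1 + x := by linarith
  rcases le_total a b with hab | hab
  · have e : b = a + (b - a) := by omega
    rw [e, pow_add, ← mul_assoc, ← mul_pow]
    have h1 : (x * y) ^ a ≤ 1 := pow_le_one₀ (mul_nonneg hx hy) hxy
    have h2 : y ^ (b - a) ≤ 1 := pow_le_one₀ hy hy1
    have h3 : (1 : ℝ) ≤ (1 + x) ^ 3 := one_le_pow₀ h1x
    calc (x * y) ^ a * y ^ (b - a) ≤ 1 * 1 :=
          mul_le_mul h1 h2 (pow_nonneg hy _) zero_le_one
      _ ≤ _ := by linarith
  · have e : a = (a - b) + b := by omega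
    rw [e, pow_add, mul_assoc, ← mul_pow]
    have h1 : (x * y) ^ b ≤ 1 := pow_le_one₀ (mul_nonneg hx hy) hxy
    have h2 : x ^ (a - b) ≤ (1 + x) ^ 3 := by
      calc x ^ (a - b) ≤ (1 + x) ^ (a - b) := pow_le_pow_left₀ hx (by linarith) _
        _ ≤ (1 + x) ^ 3 := pow_le_pow_right₀ h1x (by omega)
    calc x ^ (a - b) * (x * y) ^ b ≤ (1 + x) ^ 3 * 1 :=
          mul_le_mul h2 h1 (pow_nonneg (mul_nonneg hx hy) _) (by positivity)
      _ = _ := mul_one _

theorem start_gc (hF : FamH Y) (hN : NumH Y Q) :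
    ∑ T ∈ gcI Y, gcW Y (start : State X) T ≤ 1 / 1024 := by
  rcases Nat.eq_zero_or_pos Y.D with hD | hD
  · have hemp : Y.F = ∅ := by
      rw [eq_empty_iff_forall_notMem]
      intro A hA
      have h1 := hF.card A hA
      have h2 := hN.k1
      obtain ⟨p, hp⟩ := card_pos.1 (show 0 < #A by omega)
      have h3 := hF.deg p
      rw [hD, Nat.le_zero, card_eq_zero] at h3
      have h4 : A ∈ Y.F.filter (fun A => p ∈ A) := mem_filter.2 ⟨hA, hp⟩
      rw [h3] at h4
      simp at h4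
    have h1 : gcI Y = ∅ := by
      unfold gcI
      rw [hemp, empty_product, filter_empty]
    rw [h1, sum_empty]
    norm_num
  have hrw := rw_ge hN
  have hrw0 : 0 < rw Y := by linarith
  have hrwi : 0 < (rw Y)⁻¹ := inv_pos.2 hrw0
  have hK := K_pos hN
  have hgt := hN.gt1
  have hgt0 : 0 < Y.gt := by linarith
  have hρ := hN.ρGpos
  have hffr0 : 0 ≤ ffr Y := by
    unfold ffr
    positivity
  have hfti0 : 0 ≤ fti Y := by
    unfold fti
    positivity
  have hpt : ∀ T ∈ gcI Y, gcW Y (start : State X) T ≤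
      Y.ρG * (stvv Y T.1 T.2 * (1 + ffr Y) ^ 3) := by
    rintro ⟨E, l⟩ hT
    rw [mem_gcI] at hT
    obtain ⟨-, ⟨h2, h3⟩, h4, h5⟩ := hT
    simp only at h2 h3 h4 h5 ⊢
    refine (stgc_gcW hN h4).trans (mul_le_mul_of_nonneg_left ?_ hρ.le)
    refine (stP_le hF hN hD l h3 h4 h2).trans ?_
    rw [mul_assoc]
    apply mul_le_mul_of_nonneg_left _ (stvv_nonneg Y E l)
    exact stgc_pow hffr0 hfti0 hN.st3 hN.st3' _ _ h5
  refine (sum_le_sum hpt).trans ?_
  have hsub : gcI Y ⊆ (Y.F.sigma (fun E => (range (smax Y + 1)).biUnion (fun n =>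
      (stLL Y n).filter (ValidL Y E)))).image (fun x => ((x.1, x.2) : GCt X)) := by
    rintro ⟨E, l⟩ hT
    rw [mem_gcI] at hT
    obtain ⟨h1, ⟨h2, h3⟩, h4, h5⟩ := hT
    rw [mem_image]
    refine ⟨⟨E, l⟩, ?_, rfl⟩
    rw [mem_sigma, mem_biUnion]
    refine ⟨h1, l.length, mem_range.2 (by simp only at h2 ⊢; omega), ?_⟩
    rw [mem_filter, mem_stLL]
    exact ⟨⟨rfl, h3⟩, h4⟩
  have hnn : ∀ T : GCt X, 0 ≤ Y.ρG * (stvv Y T.1 T.2 * (1 + ffr Y) ^ 3) := by
    intro T
    have := stvv_nonneg Y T.1 T.2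
    positivity
  refine (sum_le_sum_of_subset_of_nonneg hsub (fun T _ _ => hnn T)).trans ?_
  rw [sum_image (by
    rintro ⟨E, l⟩ _ ⟨E', l'⟩ _ h
    simp only [Prod.mk.injEq] at h
    obtain ⟨rfl, rfl⟩ := h
    rfl), sum_sigma]
  have hE : ∀ E ∈ Y.F, ∑ l ∈ (range (smax Y + 1)).biUnion (fun n =>
      (stLL Y n).filter (ValidL Y E)), Y.ρG * (stvv Y E l * (1 + ffr Y) ^ 3) ≤
      Y.ρG * (2 ^ (smax Y + 1) * (1 + ffr Y) ^ 3) := by
    intro E hE
    rw [← mul_sum, ← sum_mul]
    apply mul_le_mul_of_nonneg_left _ hρ.le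
    apply mul_le_mul_of_nonneg_right _ (by positivity)
    have h1 : ∑ l ∈ (range (smax Y + 1)).biUnion (fun n => (stLL Y n).filter (ValidL Y E)),
        stvv Y E l ≤ ∑ n ∈ range (smax Y + 1), ∑ l ∈ (stLL Y n).filter (ValidL Y E),
          stvv Y E l := by
      rw [sum_biUnion]
      intro n _ m _ hnm
      rw [Function.onFun, disjoint_left]
      intro l hl hl'
      rw [mem_filter, mem_stLL] at hl hl'
      exact hnm (hl.1.1.symm.trans hl'.1.1)
    refine h1.trans ?_
    have h2 : ∑ n ∈ range (smax Y + 1), ∑ l ∈ (stLL Y n).filter (ValidL Y E),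
          stvv Y E l ≤ ∑ n ∈ range (smax Y + 1), (2 : ℝ) ^ n := by
      apply sum_le_sum
      intro n hn
      rw [mem_range] at hn
      exact stgc_count hF hN hE n (by omega)
    refine h2.trans ?_
    rw [geom_sum_eq (by norm_num)]
    norm_num
  refine (sum_le_sum hE).trans ?_
  rw [sum_const, nsmul_eq_mul]
  exact hN.st3''

end Pool.H33.MB2
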