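import Pool.Agent.H33.MB2.Rates

/-!
# MB2 STMP: start values of the micro tuples and the stars

In the starting state nothing is claimed, `lb = none`, `J = []`, the log is empty: `lev start C = #C = k`, `os = 0`,
`b1 Y start C = c1 * K^bs * a1 k =: β1` for `C ∈ F`, `b2 = ρ2 * K^bs * a2 k =: β2`, every `att` holds.
* For a root `E`: let `𝒰` be the set of the valid elements at `E` (a finset, filter `elI`).  The sum of `∏ ev` over the valid
  tuples with root `E` is at most `Σ_{els ⊆ 𝒰} ∏_{e ∈ els} ev e = ∏_{e ∈ 𝒰} (1 + ev e) ≤ exp (Σ_{e ∈ 𝒰} ev e)`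
  (`Finset.prod_one_add` / `Finset.prod_add`, `Real.add_one_le_exp`).  `Σ ev e ≤ k * D * (β1 + β2 * exp (k D β1))`: link
  `v ∈ E` (`k`), `B ∋ v` (`D`), type 1: `S = ∅`, value `β1`; type 2: `β2 * ∏_{l ∈ S} β1` summed over the sets `S` of pairs
  `(v', C)`, `v' ∈ B`, `v' ∈ C ∈ F` (at most `k D` pairs): `≤ β2 * (1 + β1)^(k D) ≤ β2 * exp (k D β1)`.
* Stars: centre `p ∈ S`, `𝒞` a set of sets of `F` through `p`: `Σ ∏ β1 ≤ (1 + β1)^D ≤ exp (D β1)`.
-/

set_option linter.unusedSectionVars false

namespace Pool.H33.MB2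

open Finset
open scoped Classical

variable {X Γ : Type*} [DecidableEq X] {Y : Sys X Γ} {Q : Num2}
  {Lg : List (Entry X) → Finset X → Finset X → Prop}

/-! ### the starting state -/

theorem stmp_alive (A : Finset X) : alive (start : State X) A := by
  unfold alive start
  simp

theorem stmp_clean (A : Finset X) : clean Y (start : State X) A := by
  intro D hD
  exact absurd hD (by simp [start])

theorem stmp_lev (A : Finset X) : lev (start : State X) A = #A := by
  unfold lev start
  simp

theorem stmp_os (A : Finset X) : os Y (start : State X) A = 0 := by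
  unfold os start
  simp

theorem stmp_b1 (A : Finset X) : b1 Y (start : State X) A = Y.c1 * Y.K ^ Y.bs * Y.a1 (#A) := by
  unfold b1
  rw [stmp_os, stmp_lev]
  unfold kb
  rw [pow_zero, div_one]

theorem stmp_b2 (A : Finset X) : b2 Y (start : State X) A = Y.ρ2 * Y.K ^ Y.bs * Y.a2 (#A) := by
  unfold b2
  rw [stmp_os, stmp_lev]
  unfold kb
  rw [pow_zero, div_one]

theorem stmp_b1F (hF : FamH Y) {A : Finset X} (hA : A ∈ Y.F) :
    b1 Y (start : State X) A = Y.c1 * Y.K ^ Y.bs * Y.a1 Y.k := by
  rw [stmp_b1, hF.card A hA]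

theorem stmp_b2F (hF : FamH Y) {A : Finset X} (hA : A ∈ Y.F) :
    b2 Y (start : State X) A = Y.ρ2 * Y.K ^ Y.bs * Y.a2 Y.k := by
  rw [stmp_b2, hF.card A hA]

theorem stmp_att (A C : Finset X) (v : X) : att Y (start : State X) A C v := by
  refine ⟨?_, ?_, rfl, rfl, stmp_alive C, ?_, stmp_clean C⟩
  · simp [start]
  · simp [start]
  · simp [start]

theorem stmp_sv (A : Finset X) (l : X × Finset X) :
    sv Y (start : State X) A l = b1 Y (start : State X) l.2 := by
  unfold sv
  rw [if_neg (by simp [start]), if_pos (stmp_att _ _ _)]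

theorem stmp_ev (E : Finset X) (e : El X) : ev Y (start : State X) E e =
    if e.2.1 then b2 Y (start : State X) e.1.2 * ∏ l ∈ e.2.2, b1 Y (start : State X) l.2
    else b1 Y (start : State X) e.1.2 := by
  unfold ev
  rw [if_neg (by simp [start]), if_pos (stmp_att _ _ _)]
  simp only [stmp_sv]

/-- sums over all subsets -/
theorem stmp_exp {ι : Type*} (P : Finset ι) (f : ι → ℝ) (hf : ∀ i ∈ P, 0 ≤ f i) :
    ∑ S ∈ P.powerset, ∏ i ∈ S, f i ≤ Real.exp (∑ i ∈ P, f i) := by
  rw [← Finset.prod_one_add, Real.exp_sum]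
  apply prod_le_prod
  · intro i hi
    have := hf i hi
    linarith
  · intro i _
    have := Real.add_one_le_exp (f i)
    linarith

theorem stmp_pairs (hF : FamH Y) (E : Finset X) (hE : #E ≤ Y.k) :
    #((E ×ˢ Y.F).filter (fun q => q.1 ∈ q.2)) ≤ Y.k * Y.D := by
  have h1 : (E ×ˢ Y.F).filter (fun q => q.1 ∈ q.2) ⊆
      E.biUnion (fun v => (Y.F.filter (fun C => v ∈ C)).image (fun C => (v, C))) := by
    rintro ⟨v, C⟩ h
    rw [mem_filter, mem_product] at h
    rw [mem_biUnion]
    exact ⟨v, h.1.1, mem_image.2 ⟨C, mem_filter.2 ⟨h.1.2, h.2⟩, rfl⟩⟩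
  calc _ ≤ _ := card_le_card h1
    _ ≤ #E * Y.D := card_biUnion_le_card_mul _ _ _ fun v _ => card_image_le.trans (hF.deg v)
    _ ≤ Y.k * Y.D := Nat.mul_le_mul_right _ hE

theorem start_mp (hF : FamH Y) (hN : NumH Y Q) :
    ∑ T ∈ mpI Y, mpW Y (start : State X) T ≤ 1 / 1024 := by
  have hKpos := K_pos hN
  set β1 : ℝ := Y.c1 * Y.K ^ Y.bs * Y.a1 Y.k with hβ1
  set β2 : ℝ := Y.ρ2 * Y.K ^ Y.bs * Y.a2 Y.k with hβ2
  have hβ1pos : 0 < β1 := mul_pos (mul_pos hN.c1pos (pow_pos hKpos _)) (hN.a1pos _)
  have hβ2pos : 0 < β2 := mul_pos (mul_pos hN.ρ2pos (pow_pos hKpos _)) (hN.a2pos _)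
  have hb1 : ∀ A, 0 < b1 Y (start : State X) A := fun A => b1_pos hN A
  have hb2 : ∀ A, 0 < b2 Y (start : State X) A := fun A => b2_pos hN A
  have hev : ∀ E e, 0 ≤ ev Y (start : State X) E e := by
    intro E e
    rw [stmp_ev]
    split_ifs
    · exact mul_nonneg (hb2 _).le (prod_nonneg fun l _ => (hb1 _).le)
    · exact (hb1 _).le
  have hmpW : ∀ T : MPt X, mpW Y (start : State X) T =
      Y.ρ * ∏ e ∈ T.2, ev Y (start : State X) T.1 e := by
    intro T
    unfold mpW
    rw [if_pos ⟨stmp_alive _, by simp [start]⟩]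
  -- the valid elements at a root
  set V : Finset X → Finset (El X) := fun E => (elI Y).filter (ValidEl Y E) with hV
  set Z : ℝ := β2 * Real.exp (Y.k * (Y.D * β1)) with hZ
  have hZ0 : 0 ≤ Z := by positivity
  have hleaf : ∀ B ∈ Y.F, ∑ S ∈ ((B ×ˢ Y.F).filter (fun q => q.1 ∈ q.2)).powerset,
      b2 Y (start : State X) B * ∏ l ∈ S, b1 Y (start : State X) l.2 ≤ Z := by
    intro B hB
    rw [← Finset.mul_sum, stmp_b2F hF hB, ← hβ2, hZ]
    apply mul_le_mul_of_nonneg_left _ hβ2pos.le
    refine (stmp_exp _ _ fun l _ => (hb1 _).le).trans (Real.exp_le_exp.2 ?_)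
    have h1 : ∑ l ∈ (B ×ˢ Y.F).filter (fun q => q.1 ∈ q.2), b1 Y (start : State X) l.2 =
        #((B ×ˢ Y.F).filter (fun q => q.1 ∈ q.2)) * β1 := by
      rw [← nsmul_eq_mul, ← sum_const]
      apply sum_congr rfl
      intro l hl
      rw [mem_filter, mem_product] at hl
      exact stmp_b1F hF hl.1.2
    have h2 : (#((B ×ˢ Y.F).filter (fun q => q.1 ∈ q.2)) : ℝ) ≤ Y.k * Y.D := by
      exact_mod_cast stmp_pairs hF B (hF.card B hB).le
    rw [h1]
    calc _ ≤ (Y.k * Y.D : ℝ) * β1 := mul_le_mul_of_nonneg_right h2 hβ1pos.le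
      _ = Y.k * (Y.D * β1) := by ring
  have hVsum : ∀ E ∈ Y.F, ∑ e ∈ V E, ev Y (start : State X) E e ≤
      Y.k * (Y.D * (β1 + Z)) := by
    intro E hE
    have hmaps : ∀ e ∈ V E, e.1 ∈ (E ×ˢ Y.F).filter (fun q => q.1 ∈ q.2) := by
      intro e he
      rw [hV] at he
      simp only [mem_filter] at he
      rw [mem_filter, mem_product]
      exact ⟨⟨he.2.hE, he.2.hB⟩, he.2.hv⟩
    rw [← sum_fiberwise_of_maps_to hmaps]
    have hfib : ∀ q ∈ (E ×ˢ Y.F).filter (fun q => q.1 ∈ q.2),
        ∑ e ∈ (V E).filter (fun e => e.1 = q), ev Y (start : State X) E e ≤ β1 + Z := by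
      intro q hq
      rw [mem_filter, mem_product] at hq
      set P := (q.2 ×ˢ Y.F).filter (fun q => q.1 ∈ q.2) with hP
      have hsub : (V E).filter (fun e => e.1 = q) ⊆
          insert ((q, false, ∅) : El X) (P.powerset.image (fun S => ((q, true, S) : El X))) := by
        rintro ⟨q', κ, S⟩ he
        rw [mem_filter, hV] at he
        simp only [mem_filter] at he
        obtain ⟨⟨_, hval⟩, rfl⟩ := he
        rw [mem_insert]
        cases κ with
        | false =>
          left
          have := hval.h1 rfl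
          simp only at this
          rw [this]
        | true =>
          right
          rw [mem_image]
          refine ⟨S, ?_, rfl⟩
          rw [mem_powerset]
          intro l hl
          have h1 := hval.hl l hl
          rw [hP, mem_filter, mem_product]
          exact ⟨⟨h1.2.2.1, h1.1⟩, h1.2.2.2.1⟩
      have hnot : ((q, false, ∅) : El X) ∉ P.powerset.image (fun S => ((q, true, S) : El X)) := by
        rw [mem_image]
        rintro ⟨S, _, hS⟩
        have := congrArg (fun e : El X => e.2.1) hS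
        simp at this
      calc _ ≤ ∑ e ∈ insert ((q, false, ∅) : El X)
            (P.powerset.image (fun S => ((q, true, S) : El X))), ev Y (start : State X) E e :=
            sum_le_sum_of_subset_of_nonneg hsub fun e _ _ => hev E e
        _ = ev Y (start : State X) E (q, false, ∅) +
            ∑ S ∈ P.powerset, ev Y (start : State X) E (q, true, S) := by
            rw [sum_insert hnot, sum_image]
            intro a _ b _ h
            exact (Prod.mk.inj (Prod.mk.inj h).2).2
        _ ≤ β1 + Z := by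
            apply add_le_add
            · rw [stmp_ev]
              simp only [Bool.false_eq_true, if_false]
              rw [stmp_b1F hF hq.1.2]
            · refine le_trans (le_of_eq ?_) (hleaf q.2 hq.1.2)
              apply sum_congr rfl
              intro S _
              rw [stmp_ev]
              simp only [if_true]
    refine (sum_le_sum hfib).trans ?_
    have h2 : (#((E ×ˢ Y.F).filter (fun q => q.1 ∈ q.2)) : ℝ) ≤ Y.k * Y.D := by
      exact_mod_cast stmp_pairs hF E (hF.card E hE).le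
    rw [sum_const, nsmul_eq_mul]
    calc _ ≤ (Y.k * Y.D : ℝ) * (β1 + Z) := mul_le_mul_of_nonneg_right h2 (by linarith)
      _ = Y.k * (Y.D * (β1 + Z)) := by ring
  -- the sum over the roots
  have hmaps : ∀ T ∈ mpI Y, T.1 ∈ Y.F := by
    intro T hT
    rw [mem_mpI hF] at hT
    exact hT.1
  rw [← sum_fiberwise_of_maps_to hmaps]
  have hroot : ∀ E ∈ Y.F, ∑ T ∈ (mpI Y).filter (fun T => T.1 = E),
      mpW Y (start : State X) T ≤ Y.ρ * Real.exp (Y.k * (Y.D * (β1 + Z))) := by
    intro E hE
    have hsub : (mpI Y).filter (fun T => T.1 = E) ⊆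
        (V E).powerset.image (fun els => ((E, els) : MPt X)) := by
      rintro ⟨E', els⟩ hT
      rw [mem_filter, mem_mpI hF] at hT
      obtain ⟨hval, rfl⟩ := hT
      rw [mem_image]
      refine ⟨els, ?_, rfl⟩
      rw [mem_powerset]
      intro e he
      rw [hV]
      simp only [mem_filter]
      have := hval.2.1 e he
      exact ⟨mem_elI hF this, this⟩
    calc _ ≤ ∑ T ∈ (V E).powerset.image (fun els => ((E, els) : MPt X)),
          mpW Y (start : State X) T :=
          sum_le_sum_of_subset_of_nonneg hsub fun T _ _ => by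
            rw [hmpW]
            exact mul_nonneg hN.ρpos.le (prod_nonneg fun e _ => hev _ _)
      _ = ∑ els ∈ (V E).powerset, Y.ρ * ∏ e ∈ els, ev Y (start : State X) E e := by
          rw [sum_image]
          · apply sum_congr rfl
            intro els _
            rw [hmpW]
          · intro a _ b _ h
            exact (Prod.mk.inj h).2
      _ = Y.ρ * ∑ els ∈ (V E).powerset, ∏ e ∈ els, ev Y (start : State X) E e := by
          rw [Finset.mul_sum]
      _ ≤ Y.ρ * Real.exp (Y.k * (Y.D * (β1 + Z))) := by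
          apply mul_le_mul_of_nonneg_left _ hN.ρpos.le
          exact (stmp_exp _ _ fun e _ => hev E e).trans (Real.exp_le_exp.2 (hVsum E hE))
  refine (sum_le_sum hroot).trans ?_
  rw [sum_const, nsmul_eq_mul]
  exact hN.st1

theorem start_ps (hF : FamH Y) (hN : NumH Y Q) :
    ∑ T ∈ psI Y, psW Y (start : State X) T ≤ 1 / 1024 := by
  have hKpos := K_pos hN
  set β1 : ℝ := Y.c1 * Y.K ^ Y.bs * Y.a1 Y.k with hβ1
  have hβ1pos : 0 < β1 := mul_pos (mul_pos hN.c1pos (pow_pos hKpos _)) (hN.a1pos _)
  have hb1 : ∀ A, 0 < b1 Y (start : State X) A := fun A => b1_pos hN A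
  have hpsW : ∀ T : PSt X, psW Y (start : State X) T =
      Y.ρP * ∏ C ∈ T.2, b1 Y (start : State X) C := by
    intro T
    unfold psW
    rw [if_pos]
    refine ⟨by simp [start], by simp [start], fun C _ => ⟨rfl, stmp_alive C, by simp [start],
      stmp_clean C⟩⟩
  have hmaps : ∀ T ∈ psI Y, T.1 ∈ Y.S := by
    intro T hT
    rw [mem_psI] at hT
    exact hT.1
  rw [← sum_fiberwise_of_maps_to hmaps]
  have hroot : ∀ p ∈ Y.S, ∑ T ∈ (psI Y).filter (fun T => T.1 = p),
      psW Y (start : State X) T ≤ Y.ρP * Real.exp (Y.D * β1) := by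
    intro p _
    have hsub : (psI Y).filter (fun T => T.1 = p) ⊆
        (Y.F.filter (fun C => p ∈ C)).powerset.image (fun 𝒞 => ((p, 𝒞) : PSt X)) := by
      rintro ⟨p', 𝒞⟩ hT
      rw [mem_filter, mem_psI] at hT
      obtain ⟨hval, rfl⟩ := hT
      rw [mem_image]
      refine ⟨𝒞, ?_, rfl⟩
      rw [mem_powerset]
      intro C hC
      rw [mem_filter]
      exact ⟨hval.2.1 hC, hval.2.2.1 C hC⟩
    calc _ ≤ ∑ T ∈ (Y.F.filter (fun C => p ∈ C)).powerset.image (fun 𝒞 => ((p, 𝒞) : PSt X)),
          psW Y (start : State X) T :=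
          sum_le_sum_of_subset_of_nonneg hsub fun T _ _ => psW_nonneg hN T
      _ = ∑ 𝒞 ∈ (Y.F.filter (fun C => p ∈ C)).powerset,
          Y.ρP * ∏ C ∈ 𝒞, b1 Y (start : State X) C := by
          rw [sum_image]
          · apply sum_congr rfl
            intro 𝒞 _
            rw [hpsW]
          · intro a _ b _ h
            exact (Prod.mk.inj h).2
      _ = Y.ρP * ∑ 𝒞 ∈ (Y.F.filter (fun C => p ∈ C)).powerset,
          ∏ C ∈ 𝒞, b1 Y (start : State X) C := by rw [Finset.mul_sum]
      _ ≤ Y.ρP * Real.exp (Y.D * β1) := by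
          apply mul_le_mul_of_nonneg_left _ hN.ρPpos.le
          refine (stmp_exp _ _ fun e _ => (hb1 e).le).trans (Real.exp_le_exp.2 ?_)
          have h1 : ∑ C ∈ Y.F.filter (fun C => p ∈ C), b1 Y (start : State X) C =
              #(Y.F.filter (fun C => p ∈ C)) * β1 := by
            rw [← nsmul_eq_mul, ← sum_const]
            apply sum_congr rfl
            intro C hC
            rw [mem_filter] at hC
            exact stmp_b1F hF hC.1
          rw [h1]
          apply mul_le_mul_of_nonneg_right _ hβ1pos.le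
          exact_mod_cast hF.deg p
  refine (sum_le_sum hroot).trans ?_
  rw [sum_const, nsmul_eq_mul]
  exact hN.st2

end Pool.H33.MB2
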