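import Pool.Agent.H33.MB2.Play
import Pool.Agent.H33.MB2.StMp
import Pool.Agent.H33.MB2.StGc
import Pool.Agent.H33.MB2.StCp

/-!
# The abstract theorem
-/

set_option linter.unusedSectionVars false

namespace Pool.H33.MB2

open Finset
open scoped Classical
open Pool.H68.MB (MakerWins)

variable {X Γ : Type*} [DecidableEq X] {Y : Sys X Γ} {Q : Num2}
  {Lg : List (Entry X) → Finset X → Finset X → Prop}

theorem inv_start (hF : FamH Y) (hN : NumH Y Q) (hG : GeoH Y Lg) :
    Inv Y Lg (start : State X) := by
  have g := good_start (X := X) hN hG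
  refine ⟨g, stable_start hF hN, ?_⟩
  have h1 := start_mp hF hN
  have h2 := start_ps hF hN
  have h3 := start_gc hF hN
  have h4 := start_cp hF hN
  have e : Phi Y (start : State X) = ∑ T ∈ mpI Y, mpW Y start T + (∑ T ∈ psI Y, psW Y start T +
      (∑ T ∈ gcI Y, gcW Y start T + ∑ p ∈ cpI Y, cpW Y start p)) := by
    unfold Phi bigI Sm
    rw [sum_disjSum, sum_disjSum, sum_disjSum]
    simp only [W]
    have : (start : State X).J.toFinset = ∅ := rfl
    rw [this, sum_empty, zero_add]
  refine ⟨1 / 128, by norm_num, ?_, ?_⟩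
  · intro p _
    have h5 : phi Y (start : State X) p ≤ Phi Y start := by
      have h6 : phi Y (start : State X) p ≤ ∑ T ∈ bigI Y, W Y start T := by
        unfold phi
        exact sum_le_sum_of_subset_of_nonneg (filter_subset _ _) fun T _ _ => W_nonneg hN g T
      have h7 := Sm_nonneg (s := (start : State X)) hN
      unfold Phi
      linarith
    linarith
  · have h8 : (start : State X).J.length = 0 := rfl
    rw [h8]
    push_cast
    linarith

/-- Maker cannot win. -/
theorem no_win (hF : FamH Y) (hN : NumH Y Q) (hG : GeoH Y Lg) :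
    ¬ MakerWins Y.S (↑Y.F : Set (Finset X)) ∅ ∅ := fun h =>
  no_win_aux hF hN hG h start rfl rfl (inv_start hF hN hG)

end Pool.H33.MB2
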