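import Mathlib

/-!
# MB2 EXT: two greedy lemmas (pure combinatorics)

* `indep`: by induction on `#V`: take `v ∈ V`, remove `v` and its at most `c - 1` conflict partners, apply induction,
  add `v`.  (`c ≥ 1` as `#(..) < c` if `V` is nonempty.)
* `extract`: classes `v ∈ V` with candidate sets `cand v`, a conflict relation `r` between candidates of all
  classes, a set of forbidden candidates `pre`.  Call a pair `(W, S)` with `W ⊆ V` admissible if it has the listed properties
  without the inequality `#V ≤ 2 #W`; take one with `#W` maximal (`(∅, _)` is admissible).  Let `v ∈ V \ W`.  Let `Uv` be the set of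
  `l ∈ cand v` with `¬ pre v l` and no conflict with the chosen candidates (`u ∈ W`, `b ∈ S u`).  If
  `#Uv ≥ (Δ + 1) m` then by `indep` (degree at most `Δ`) `Uv` contains `m` pairwise conflict-free candidates, and `v` could be added to
  `W`.  So `#Uv < (Δ + 1) m`, hence at least `M - (Δ + 1) m + 1 > 2 Δ (m + 1)` candidates of `v` are forbidden or in conflict with a
  chosen one.  The number of forbidden candidates is at most `Δ #V`, and each of the `m #W ≤ m #V` chosen candidates is in
  conflict with at most `Δ` candidates (`r` is symmetric).  So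
  `#(V \ W) * (2 Δ (m + 1)) ≤ Δ #V + Δ m #V = Δ (m + 1) #V`; as `Δ ≥ 1` this gives `2 #(V \ W) ≤ #V`, i.e. `#V ≤ 2 #W`.
-/

namespace Pool.H33.MB2

open Finset
open scoped Classical

theorem indep {α : Type*} (V : Finset α) (r : α → α → Prop) (c : ℕ)
    (h : ∀ v ∈ V, #(V.filter (fun u => u ≠ v ∧ (r v u ∨ r u v))) < c) :
    ∃ W ⊆ V, #V ≤ c * #W ∧ ∀ u ∈ W, ∀ v ∈ W, u ≠ v → ¬ r u v := by
  induction V using Finset.strongInduction with
  | H V ih =>
    rcases V.eq_empty_or_nonempty with hV | ⟨v, hv⟩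
    · exact ⟨∅, by simp [hV], by simp [hV], by simp⟩
    · set V' := V.filter (fun u => u ≠ v ∧ ¬ (r v u ∨ r u v)) with hV'
      have hsub : V' ⊆ V := filter_subset _ _
      have hss : V' ⊂ V := by
        refine (Finset.ssubset_iff_of_subset hsub).2 ⟨v, hv, ?_⟩
        simp [hV']
      obtain ⟨W, hW, hc, hr⟩ := ih V' hss (fun u hu =>
        lt_of_le_of_lt (card_le_card (filter_subset_filter _ hsub)) (h u (hsub hu)))
      have hvW : v ∉ W := fun hvW => by
        have := hW hvW
        simp [hV'] at this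
      refine ⟨insert v W, ?_, ?_, ?_⟩
      · intro x hx
        rcases mem_insert.1 hx with rfl | hx
        · exact hv
        · exact hsub (hW hx)
      · have hcov : V ⊆ insert v (V.filter (fun u => u ≠ v ∧ (r v u ∨ r u v)) ∪ V') := by
          intro x hx
          by_cases hxv : x = v
          · simp [hxv]
          · refine mem_insert_of_mem ?_
            by_cases hrx : r v x ∨ r x v
            · exact mem_union_left _ (mem_filter.2 ⟨hx, hxv, hrx⟩)
            · exact mem_union_right _ (mem_filter.2 ⟨hx, hxv, hrx⟩)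
        have h1 := card_le_card hcov
        have h2 := card_insert_le v (V.filter (fun u => u ≠ v ∧ (r v u ∨ r u v)) ∪ V')
        have h3 := card_union_le (V.filter (fun u => u ≠ v ∧ (r v u ∨ r u v))) V'
        have h4 := h v hv
        rw [card_insert_of_notMem hvW]
        have h5 : c * (#W + 1) = c * #W + c := by ring
        omega
      · intro a ha b hb hab
        rcases mem_insert.1 ha with rfl | ha'
        · rcases mem_insert.1 hb with rfl | hb'
          · exact absurd rfl hab
          · have := (mem_filter.1 (hW hb')).2.2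
            exact fun hh => this (Or.inl hh)
        · rcases mem_insert.1 hb with rfl | hb'
          · have := (mem_filter.1 (hW ha')).2.2
            exact fun hh => this (Or.inr hh)
          · exact hr a ha' b hb' hab

theorem extract {ι L : Type*} (V : Finset ι) (cand : ι → Finset L) (r : ι × L → ι × L → Prop)
    (hsym : ∀ a b, r a b → r b a) (pre : ι × L → Prop) (Δ m M : ℕ) (hΔ : 1 ≤ Δ)
    (hdeg : ∀ v ∈ V, ∀ l ∈ cand v, ¬ pre (v, l) →
      #((V.sigma cand).filter (fun x => ¬ pre (x.1, x.2) ∧ (x.1, x.2) ≠ (v, l) ∧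
        r (v, l) (x.1, x.2))) ≤ Δ)
    (hpre : #((V.sigma cand).filter (fun x => pre (x.1, x.2))) ≤ Δ * #V)
    (hM : ∀ v ∈ V, M ≤ #(cand v)) (hbig : (Δ + 1) * m + 2 * Δ * (m + 1) ≤ M) :
    ∃ W ⊆ V, #V ≤ 2 * #W ∧ ∃ S : ι → Finset L,
      (∀ v ∈ W, S v ⊆ cand v ∧ #(S v) = m ∧ ∀ l ∈ S v, ¬ pre (v, l)) ∧
      ∀ v ∈ W, ∀ u ∈ W, ∀ l ∈ S v, ∀ b ∈ S u, (v, l) ≠ (u, b) → ¬ r (v, l) (u, b) := by
  set P : Finset ι → Prop := fun W => ∃ S : ι → Finset L,
      (∀ v ∈ W, S v ⊆ cand v ∧ #(S v) = m ∧ ∀ l ∈ S v, ¬ pre (v, l)) ∧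
      ∀ v ∈ W, ∀ u ∈ W, ∀ l ∈ S v, ∀ b ∈ S u, (v, l) ≠ (u, b) → ¬ r (v, l) (u, b) with hP
  obtain ⟨W, hWm, hmax⟩ := exists_max_image (V.powerset.filter P) (fun W => #W)
    ⟨∅, mem_filter.2 ⟨by simp, fun _ => ∅, by simp, by simp⟩⟩
  obtain ⟨hWV, S, hS1, hS2⟩ := mem_filter.1 hWm
  rw [mem_powerset] at hWV
  refine ⟨W, hWV, ?_, S, hS1, hS2⟩
  set B : ι → Finset L := fun v => (cand v).filter
    (fun l => pre (v, l) ∨ ∃ u ∈ W, ∃ b ∈ S u, r (v, l) (u, b)) with hB
  have hkey : ∀ v ∈ V \ W, 2 * Δ * (m + 1) ≤ #(B v) := by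
    intro v hv
    obtain ⟨hvV, hvW⟩ := mem_sdiff.1 hv
    by_contra hlt
    push Not at hlt
    set U : Finset L := (cand v).filter
      (fun l => ¬ (pre (v, l) ∨ ∃ u ∈ W, ∃ b ∈ S u, r (v, l) (u, b))) with hU
    have hsum : #(B v) + #U = #(cand v) := card_filter_add_card_filter_not _
    have hMv := hM v hvV
    have hUbig : (Δ + 1) * m ≤ #U := by omega
    obtain ⟨W0, hW0, hW0c, hW0r⟩ := indep U (fun l l' => r (v, l) (v, l')) (Δ + 1) (by
      intro l hl
      obtain ⟨hlc, hlp⟩ := mem_filter.1 hl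
      push Not at hlp
      have hd := hdeg v hvV l hlc hlp.1
      have hle : #(U.filter (fun u => u ≠ l ∧ (r (v, l) (v, u) ∨ r (v, u) (v, l)))) ≤
          #((V.sigma cand).filter (fun x => ¬ pre (x.1, x.2) ∧ (x.1, x.2) ≠ (v, l) ∧
            r (v, l) (x.1, x.2))) := by
        refine card_le_card_of_injOn (fun u => (⟨v, u⟩ : (_ : ι) × L)) ?_ ?_
        · intro u hu
          obtain ⟨hu1, hu2, hu3⟩ := mem_filter.1 hu
          obtain ⟨huc, hup⟩ := mem_filter.1 hu1
          push Not at hup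
          refine mem_filter.2 ⟨mem_sigma.2 ⟨hvV, huc⟩, hup.1, ?_, ?_⟩
          · intro hh
            exact hu2 (Prod.ext_iff.1 hh).2
          · rcases hu3 with h | h
            · exact h
            · exact hsym _ _ h
        · intro a _ b _ hab
          simpa using hab
      omega)
    have hm0 : m ≤ #W0 := by
      have : (Δ + 1) * m ≤ (Δ + 1) * #W0 := hUbig.trans hW0c
      exact Nat.le_of_mul_le_mul_left this (Nat.succ_pos _)
    obtain ⟨T, hT, hTm⟩ := exists_subset_card_eq hm0
    have hTU : ∀ l ∈ T, l ∈ cand v ∧ ¬ pre (v, l) ∧ ∀ u ∈ W, ∀ b ∈ S u, ¬ r (v, l) (u, b) := by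
      intro l hl
      obtain ⟨h1, h2⟩ := mem_filter.1 (hW0 (hT hl))
      push Not at h2
      exact ⟨h1, h2.1, h2.2⟩
    have hnew : insert v W ∈ V.powerset.filter P := by
      refine mem_filter.2 ⟨mem_powerset.2 ?_, Function.update S v T, ?_, ?_⟩
      · intro x hx
        rcases mem_insert.1 hx with rfl | hx
        · exact hvV
        · exact hWV hx
      · intro x hx
        by_cases hxv : x = v
        · subst hxv
          rw [Function.update_self]
          exact ⟨fun l hl => (hTU l hl).1, hTm, fun l hl => (hTU l hl).2.1⟩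
        · rw [Function.update_of_ne hxv]
          exact hS1 x ((mem_insert.1 hx).resolve_left hxv)
      · intro x hx y hy l hl b hb hne
        by_cases hxv : x = v
        · subst hxv
          rw [Function.update_self] at hl
          by_cases hyv : y = x
          · subst hyv
            rw [Function.update_self] at hb
            have hlb : l ≠ b := fun h => hne (by rw [h])
            exact hW0r l (hT hl) b (hT hb) hlb
          · rw [Function.update_of_ne hyv] at hb
            exact (hTU l hl).2.2 y ((mem_insert.1 hy).resolve_left hyv) b hb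
        · rw [Function.update_of_ne hxv] at hl
          have hxW := (mem_insert.1 hx).resolve_left hxv
          by_cases hyv : y = v
          · subst hyv
            rw [Function.update_self] at hb
            exact fun h => (hTU b hb).2.2 x hxW l hl (hsym _ _ h)
          · rw [Function.update_of_ne hyv] at hb
            exact hS2 x hxW y ((mem_insert.1 hy).resolve_left hyv) l hl b hb hne
    have := hmax _ hnew
    rw [card_insert_of_notMem hvW] at this
    omega
  have h1 : #(V \ W) * (2 * Δ * (m + 1)) ≤ #((V \ W).sigma B) := by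
    rw [card_sigma]
    have := card_nsmul_le_sum (V \ W) (fun v => #(B v)) _ hkey
    simpa using this
  have h2 : (V \ W).sigma B ⊆ (V.sigma cand).filter (fun x => pre (x.1, x.2)) ∪
      (W.sigma S).biUnion (fun y => (V.sigma cand).filter (fun x => ¬ pre (x.1, x.2) ∧
        (x.1, x.2) ≠ (y.1, y.2) ∧ r (y.1, y.2) (x.1, x.2))) := by
    rintro ⟨v, l⟩ hx
    obtain ⟨hv, hl⟩ := mem_sigma.1 hx
    simp only at hv hl
    obtain ⟨hvV, hvW⟩ := mem_sdiff.1 hv
    obtain ⟨hlc, hl2⟩ := mem_filter.1 hl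
    have hmem : (⟨v, l⟩ : (_ : ι) × L) ∈ V.sigma cand := mem_sigma.2 ⟨hvV, hlc⟩
    by_cases hp : pre (v, l)
    · exact mem_union_left _ (mem_filter.2 ⟨hmem, hp⟩)
    · obtain ⟨u, hu, b, hb, hr⟩ := hl2.resolve_left hp
      refine mem_union_right _ (mem_biUnion.2 ⟨⟨u, b⟩, mem_sigma.2 ⟨hu, hb⟩,
        mem_filter.2 ⟨hmem, hp, ?_, hsym _ _ hr⟩⟩)
      intro h
      have hvu : v = u := (Prod.ext_iff.1 h).1
      exact hvW (hvu ▸ hu)
  have h3 := card_le_card h2
  have h4 := card_union_le ((V.sigma cand).filter (fun x => pre (x.1, x.2)))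
    ((W.sigma S).biUnion (fun y => (V.sigma cand).filter (fun x => ¬ pre (x.1, x.2) ∧
        (x.1, x.2) ≠ (y.1, y.2) ∧ r (y.1, y.2) (x.1, x.2))))
  have h5 : #((W.sigma S).biUnion (fun y => (V.sigma cand).filter (fun x => ¬ pre (x.1, x.2) ∧
        (x.1, x.2) ≠ (y.1, y.2) ∧ r (y.1, y.2) (x.1, x.2)))) ≤ #(W.sigma S) * Δ := by
    refine card_biUnion_le_card_mul _ _ _ ?_
    rintro ⟨u, b⟩ hy
    obtain ⟨hu, hb⟩ := mem_sigma.1 hy
    obtain ⟨hc, -, hp⟩ := hS1 u hu
    exact hdeg u (hWV hu) b (hc hb) (hp b hb)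
  have h6 : #(W.sigma S) = #W * m := by
    rw [card_sigma, sum_congr rfl (fun v hv => (hS1 v hv).2.1)]
    simp
  have h7 : #W ≤ #V := card_le_card hWV
  have h8 : #(V \ W) + #W = #V := card_sdiff_add_card_eq_card hWV
  have h9 : #(V \ W) * (2 * Δ * (m + 1)) ≤ Δ * #V + #V * m * Δ := by
    calc #(V \ W) * (2 * Δ * (m + 1)) ≤ Δ * #V + #W * m * Δ := by
          rw [h6] at h5; omega
      _ ≤ Δ * #V + #V * m * Δ := by gcongr
  have h10 : (Δ * (m + 1)) * (2 * #(V \ W)) ≤ (Δ * (m + 1)) * #V := by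
    calc (Δ * (m + 1)) * (2 * #(V \ W)) = #(V \ W) * (2 * Δ * (m + 1)) := by ring
      _ ≤ Δ * #V + #V * m * Δ := h9
      _ = (Δ * (m + 1)) * #V := by ring
  have h11 : 2 * #(V \ W) ≤ #V := Nat.le_of_mul_le_mul_left h10 (by positivity)
  omega

end Pool.H33.MB2
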