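import Pool.Agent.H33.MB2.GkOne

/-!
# MB2 GKCE: logged points in a fixed cell

Deep entries in `cell c`: `gk_deep`.  Let `E` be the set of the points `e.y ∈ cell c` of the shallow entries (distinct by `pw`).
For such an entry `e`, `lg = l1 ++ e :: l2`: `#(E ∩ cell e.T) ≤ cnt l1 e.T + 1 + cnt l2 e.T ≤ 4 D0 q + 1 + bs` (`sh`, `od`; `e.y ∈ cell e.T`
by `ent`).  `dominance`.
-/

namespace Pool.H33.MB2.Gk

open Finset
open scoped Classical

variable {P : GP} {η : ℝ} {S : ℕ} {Wn : Finset (ℤ × ℤ)} {lg : List GE} {M B : Finset (ℤ × ℤ)}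

theorem gk_cell (H : GH P η S) (h : GOK P Wn lg M B) (c : ℤ × ℤ) {r : ℕ} (hr : 1 ≤ r) :
    cnt P lg c ≤ (2 * P.q / (P.D0 + 1) + 1) ^ 2 +
      8 * (P.q / r + 1) * (P.bs + 4 * P.D0 * P.q + 1 + r ^ 2) := by
  have h1 := go_cnt_le (P := P) lg c
  have h2 := gk_deep h c
  suffices h3 : gsn P lg c ≤ 8 * (P.q / r + 1) * (P.bs + 4 * P.D0 * P.q + 1 + r ^ 2) by
    omega
  unfold gsn
  rw [List.countP_eq_length_filter]
  obtain ⟨L, hL⟩ : ∃ L, L = lg.filter (fun e => decide (¬ deep P e ∧ e.y ∈ cell P.q c)) :=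
    ⟨_, rfl⟩
  rw [← hL]
  have hmem : ∀ e ∈ L, e ∈ lg ∧ ¬ deep P e ∧ e.y ∈ cell P.q c := by
    intro e he
    rw [hL, List.mem_filter, decide_eq_true_iff] at he
    exact ⟨he.1, he.2.1, he.2.2⟩
  have hpw0 : L.Pairwise (fun e' e => e'.y ≠ e.y ∧ e.x ∉ cell P.q e'.T) := by
    rw [hL]
    exact h.pw.filter _
  have hnd : (L.map GE.y).Nodup := by
    unfold List.Nodup
    rw [List.pairwise_map]
    exact hpw0.imp (fun hh => hh.1)
  have hcard : #((L.map GE.y).toFinset) = L.length := by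
    rw [List.toFinset_card_of_nodup hnd, List.length_map]
  rw [← hcard]
  refine dominance hr c _ ?_ ?_
  · intro y hy
    rw [List.mem_toFinset, List.mem_map] at hy
    obtain ⟨e, he, rfl⟩ := hy
    exact (hmem e he).2.2
  · intro y hy
    rw [List.mem_toFinset, List.mem_map] at hy
    obtain ⟨e, he, rfl⟩ := hy
    obtain ⟨k1, k2, _⟩ := hmem e he
    refine ⟨e.T, (h.ent e k1).2.1, ?_⟩
    obtain ⟨l1, l2, hl⟩ := List.append_of_mem k1
    have k3 := h.sh l1 e l2 hl k2
    have k4 := h.od l1 e l2 hl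
    have k5 : #((L.map GE.y).toFinset ∩ cell P.q e.T) ≤ cnt P lg e.T := by
      have hsub : (L.map GE.y).toFinset ∩ cell P.q e.T ⊆
          ((lg.filter (fun e' => decide (e'.y ∈ cell P.q e.T))).map GE.y).toFinset := by
        intro z hz
        rw [mem_inter, List.mem_toFinset, List.mem_map] at hz
        obtain ⟨⟨e', he', rfl⟩, hz2⟩ := hz
        rw [List.mem_toFinset, List.mem_map]
        exact ⟨e', List.mem_filter.2 ⟨(hmem e' he').1, decide_eq_true hz2⟩, rfl⟩
      refine (card_le_card hsub).trans ((List.toFinset_card_le _).trans ?_)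
      rw [List.length_map, ← List.countP_eq_length_filter]
      exact le_rfl
    have k6 : cnt P lg e.T ≤ cnt P l1 e.T + 1 + cnt P l2 e.T := by
      unfold cnt
      rw [hl, List.countP_append, List.countP_cons]
      split_ifs <;> omega
    omega

end Pool.H33.MB2.Gk
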