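import Pool.Agent.H33.MB2.GkDefs

/-!
# MB2 GKGE: the reply lemma

`𝒲`: windows through `y` with positive weights, each with more than `4 S^2` points of `U`.  Then some `x ∈ U` lies in windows
of `𝒲` of total weight at least `η * (total weight)`.

Proof.  Let `tot` be the total weight and suppose each `x ∈ U` has weight `< η tot` (weight of the windows of `𝒲` through
`x`).  For `w ∈ 𝒲` let `a = y.1 - w.1`, `b = y.2 - w.2`, both in `[0, q-1]`.  Consider the quadrant of the points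
`x = (y.1 + i, y.2 + j)`, `i, j ≥ 0`: `x ∈ cell w` iff `a + i ≤ q - 1` and `b + j ≤ q - 1`.  With `A = q-1-i`, `B = q-1-j` this is `a ≤ A`,
`b ≤ B`.  Let `μ(A, B)` be the weight of the `w' ∈ 𝒲` with `a' ≤ A`, `b' ≤ B`.
The points of `U ∩ cell w` in the quadrant correspond to pairs `(A, B)`, `a ≤ A ≤ q-1`, `b ≤ B ≤ q-1`, with
`μ(A, B) < η tot`; then `μ(A, b) < η tot` and `μ(a, B) < η tot`.  Let `s(w)` be the number of `A ∈ [a, q-1]` with
`μ(A, b) < η tot` (an initial segment of `[a, q-1]`), `t(w)` the number of `B ∈ [b, q-1]` with `μ(a, B) < η tot`.  So `U ∩ cell w` has at most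
`s(w) t(w)` points in the quadrant.
Call `w` s-bad if `s(w) > S`.  Divide `[0, q)` into at most `q / S + 1` strips of length `S`.  Let the strip `I` contain `a` for some s-bad
`w`; take the s-bad `w*` with `a* ∈ I` and `b*` maximal.  As `s(w*) > S`, `μ(a* + S, b*) < η tot`, and `I ⊆ [0, a* + S]`, so the
s-bad windows with `a ∈ I` (they have `b ≤ b*`) have total weight `< η tot`.  So the s-bad windows have weight
`< η tot (q / S + 1)` (or there are none); same for t-bad.  The other three quadrants are reflections (replace `a` by `q-1-a`,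
`b` by `q-1-b`; the points with `i ≤ 0` resp. `j ≤ 0`).
Total bad weight `< 8 η (q / S + 1) tot ≤ tot` (if no window is bad at all this is clear since `tot > 0`), so some `w ∈ 𝒲` is not bad
for any quadrant and direction, hence `#(U ∩ cell w) ≤ 4 S^2`: contradiction.
(Here `q / S` is the real quotient.)
It is advisable to prove a one-quadrant lemma for an abstract finite set with two coordinate functions
`a, b : 𝒲 → {0..q-1}`, and apply it four times.
-/

namespace Pool.H33.MB2.Gk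

open Finset
open scoped Classical

/-- weight of the windows reaching `(i, j)` -/
private noncomputable def gg_mu {ι : Type} (𝒲 : Finset ι) (wt : ι → ℝ) (α β : ι → ℕ) (i j : ℕ) :
    ℝ :=
  ∑ w' ∈ 𝒲.filter (fun w' => i ≤ α w' ∧ j ≤ β w'), wt w'

private theorem gg_mu_anti {ι : Type} {𝒲 : Finset ι} {wt : ι → ℝ} (hwt : ∀ w ∈ 𝒲, 0 < wt w)
    (α β : ι → ℕ) {i j i' j' : ℕ} (hi : i ≤ i') (hj : j ≤ j') :
    gg_mu 𝒲 wt α β i' j' ≤ gg_mu 𝒲 wt α β i j := by
  unfold gg_mu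
  refine sum_le_sum_of_subset_of_nonneg ?_ (fun w hw _ => (hwt w (mem_filter.1 hw).1).le)
  intro w hw
  rw [mem_filter] at hw ⊢
  exact ⟨hw.1, hi.trans hw.2.1, hj.trans hw.2.2⟩

/-- bad windows -/
private noncomputable def gg_bad {ι : Type} (𝒲 : Finset ι) (wt : ι → ℝ) (α β : ι → ℕ) (S : ℕ)
    (τ : ℝ) : Finset ι :=
  𝒲.filter (fun w => S ≤ α w ∧ gg_mu 𝒲 wt α β (α w - S) (β w) < τ)

private theorem gg_dir {ι : Type} {𝒲 : Finset ι} {wt : ι → ℝ} (hwt : ∀ w ∈ 𝒲, 0 < wt w)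
    (α β : ι → ℕ) {q S : ℕ} (hS : 1 ≤ S) (hα : ∀ w ∈ 𝒲, α w < q) {τ : ℝ} (hτ : 0 < τ) :
    ∑ w ∈ gg_bad 𝒲 wt α β S τ, wt w < τ * ((q : ℝ) / S + 1) := by
  have hmaps : ∀ w ∈ gg_bad 𝒲 wt α β S τ, α w / S ∈ range (q / S + 1) := by
    intro w hw
    unfold gg_bad at hw
    rw [mem_range]
    exact Nat.lt_succ_of_le (Nat.div_le_div_right (hα w (mem_filter.1 hw).1).le)
  rw [← sum_fiberwise_of_maps_to hmaps]
  have hstrip : ∀ k ∈ range (q / S + 1),
      ∑ w ∈ (gg_bad 𝒲 wt α β S τ).filter (fun w => α w / S = k), wt w < τ := by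
    intro k _
    by_cases hne : ((gg_bad 𝒲 wt α β S τ).filter (fun w => α w / S = k)).Nonempty
    swap
    · rw [not_nonempty_iff_eq_empty] at hne
      rw [hne, sum_empty]
      exact hτ
    obtain ⟨v, hv, hmin⟩ := exists_min_image _ β hne
    rw [mem_filter] at hv
    have hvb := hv.1
    unfold gg_bad at hvb
    rw [mem_filter] at hvb
    refine lt_of_le_of_lt ?_ hvb.2.2
    unfold gg_mu
    refine sum_le_sum_of_subset_of_nonneg ?_ (fun w hw _ => (hwt w (mem_filter.1 hw).1).le)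
    intro w hw
    have h1 := hmin w hw
    rw [mem_filter] at hw
    have hwb := hw.1
    unfold gg_bad at hwb
    rw [mem_filter] at hwb ⊢
    refine ⟨hwb.1, ?_, h1⟩
    have h2 := Nat.div_add_mod (α w) S
    have h3 := Nat.div_add_mod (α v) S
    have h4 := Nat.mod_lt (α v) (show 0 < S by omega)
    rw [hw.2] at h2
    rw [hv.2] at h3
    generalize S * k = m at h2 h3
    omega
  have h1 := sum_lt_sum_of_nonempty (s := range (q / S + 1)) ⟨0, mem_range.2 (Nat.succ_pos _)⟩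
    hstrip
  refine lt_of_lt_of_le h1 ?_
  rw [sum_const, card_range, nsmul_eq_mul, mul_comm]
  refine mul_le_mul_of_nonneg_left ?_ hτ.le
  push_cast
  have : ((q / S : ℕ) : ℝ) ≤ (q : ℝ) / S := Nat.cast_div_le
  linarith

private theorem gg_quad {ι : Type} {𝒲 : Finset ι} {wt : ι → ℝ} (hwt : ∀ w ∈ 𝒲, 0 < wt w)
    (α β : ι → ℕ) {S : ℕ} {τ : ℝ} {w : ι} (hw : w ∈ 𝒲)
    (h1 : w ∉ gg_bad 𝒲 wt α β S τ) (h2 : w ∉ gg_bad 𝒲 wt β α S τ) (F : Finset (ℕ × ℕ))
    (hF : ∀ p ∈ F, p.1 ≤ α w ∧ p.2 ≤ β w ∧ gg_mu 𝒲 wt α β p.1 p.2 < τ) : #F ≤ S ^ 2 := by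
  have hsub : F ⊆ Icc (α w + 1 - S) (α w) ×ˢ Icc (β w + 1 - S) (β w) := by
    intro p hp
    obtain ⟨a1, a2, a3⟩ := hF p hp
    rw [mem_product, mem_Icc, mem_Icc]
    refine ⟨⟨?_, a1⟩, ?_, a2⟩
    · by_contra hlt
      apply h1
      unfold gg_bad
      rw [mem_filter]
      refine ⟨hw, by omega, lt_of_le_of_lt ?_ a3⟩
      exact gg_mu_anti hwt α β (by omega) a2
    · by_contra hlt
      apply h2
      unfold gg_bad
      rw [mem_filter]
      refine ⟨hw, by omega, lt_of_le_of_lt ?_ a3⟩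
      have e : ∀ i j, gg_mu 𝒲 wt β α i j = gg_mu 𝒲 wt α β j i := by
        intro i j
        unfold gg_mu
        refine sum_congr ?_ (fun _ _ => rfl)
        ext w'
        rw [mem_filter, mem_filter]
        tauto
      rw [e]
      exact gg_mu_anti hwt α β a1 (by omega)
  have h3 := card_le_card hsub
  rw [card_product, Nat.card_Icc, Nat.card_Icc] at h3
  rw [sq]
  exact h3.trans (Nat.mul_le_mul (by omega) (by omega))

/-- extent of a window on one side of the point -/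
private def gg_ex (σ : Bool) (y0 : ℤ) (q : ℕ) (w0 : ℤ) : ℕ :=
  if σ then (w0 + q - 1 - y0).toNat else (y0 - w0).toNat

/-- distance of a point on one side -/
private def gg_off (σ : Bool) (y0 x0 : ℤ) : ℕ := if σ then (x0 - y0).toNat else (y0 - x0).toNat

private def gg_side (σ : Bool) (y0 x0 : ℤ) : Prop := if σ then y0 ≤ x0 else x0 ≤ y0

private theorem gg_iff {σ : Bool} {y0 x0 w0 : ℤ} {q : ℕ} (hy : w0 ≤ y0 ∧ y0 < w0 + q)
    (hs : gg_side σ y0 x0) :
    (w0 ≤ x0 ∧ x0 < w0 + q) ↔ gg_off σ y0 x0 ≤ gg_ex σ y0 q w0 := by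
  unfold gg_side at hs
  unfold gg_off gg_ex
  cases σ
  · simp only [Bool.false_eq_true, if_false] at hs ⊢
    omega
  · simp only [if_true] at hs ⊢
    omega

private theorem gg_ex_lt {σ : Bool} {y0 w0 : ℤ} {q : ℕ} (hy : w0 ≤ y0 ∧ y0 < w0 + q) :
    gg_ex σ y0 q w0 < q := by
  unfold gg_ex
  cases σ
  · simp only [Bool.false_eq_true, if_false]
    omega
  · simp only [if_true]
    omega

private theorem gg_off_inj {σ : Bool} {y0 x0 x0' : ℤ} (hs : gg_side σ y0 x0)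
    (hs' : gg_side σ y0 x0') (h : gg_off σ y0 x0 = gg_off σ y0 x0') : x0 = x0' := by
  unfold gg_side at hs hs'
  unfold gg_off at h
  cases σ
  · simp only [Bool.false_eq_true, if_false] at hs hs' h
    omega
  · simp only [if_true] at hs hs' h
    omega

theorem geo_lemma {q S : ℕ} (hq : 1 ≤ q) (hS : 1 ≤ S) {η : ℝ} (hη : 0 < η)
    (hηS : 8 * η * (q / S + 1) ≤ 1) (y : ℤ × ℤ) (𝒲 : Finset (ℤ × ℤ)) (hne : 𝒲.Nonempty)
    (hW : ∀ w ∈ 𝒲, y ∈ cell q w) (wt : ℤ × ℤ → ℝ) (hwt : ∀ w ∈ 𝒲, 0 < wt w)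
    (U : Finset (ℤ × ℤ)) (hU : ∀ w ∈ 𝒲, 4 * S ^ 2 < #(cell q w ∩ U)) :
    ∃ x ∈ U, η * ∑ w ∈ 𝒲, wt w ≤ ∑ w ∈ 𝒲.filter (fun w => x ∈ cell q w), wt w := by
  by_contra hcon
  push Not at hcon
  have hy : ∀ w ∈ 𝒲, (w.1 ≤ y.1 ∧ y.1 < w.1 + q) ∧ (w.2 ≤ y.2 ∧ y.2 < w.2 + q) := by
    intro w hw
    have := hW w hw
    unfold cell at this
    rwa [mem_product, mem_Ico, mem_Ico] at this
  obtain ⟨tot, htot⟩ : ∃ tot, tot = ∑ w ∈ 𝒲, wt w := ⟨_, rfl⟩
  rw [← htot] at hcon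
  have htot0 : 0 < tot := by
    rw [htot]
    exact sum_pos hwt hne
  obtain ⟨τ, hτ⟩ : ∃ τ, τ = η * tot := ⟨_, rfl⟩
  rw [← hτ] at hcon
  have hτ0 : 0 < τ := by
    rw [hτ]
    positivity
  obtain ⟨α, hα⟩ : ∃ α : Bool → ℤ × ℤ → ℕ, ∀ σ w, α σ w = gg_ex σ y.1 q w.1 :=
    ⟨_, fun _ _ => rfl⟩
  obtain ⟨β, hβ⟩ : ∃ β : Bool → ℤ × ℤ → ℕ, ∀ σ w, β σ w = gg_ex σ y.2 q w.2 :=
    ⟨_, fun _ _ => rfl⟩
  obtain ⟨bad, hbad⟩ : ∃ bad : Bool × Bool × Bool → Finset (ℤ × ℤ), ∀ c, bad c =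
      if c.2.2 then gg_bad 𝒲 wt (α c.1) (β c.2.1) S τ else gg_bad 𝒲 wt (β c.2.1) (α c.1) S τ :=
    ⟨_, fun _ => rfl⟩
  have hbadsub : ∀ c, bad c ⊆ 𝒲 := by
    intro c
    rw [hbad]
    split_ifs
    · exact filter_subset _ _
    · exact filter_subset _ _
  have hbadw : ∀ c, ∑ w ∈ bad c, wt w < τ * ((q : ℝ) / S + 1) := by
    intro c
    rw [hbad]
    split_ifs
    · refine gg_dir hwt _ _ hS (fun w hw => ?_) hτ0
      rw [hα]
      exact gg_ex_lt (hy w hw).1
    · refine gg_dir hwt _ _ hS (fun w hw => ?_) hτ0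
      rw [hβ]
      exact gg_ex_lt (hy w hw).2
  -- a good window
  obtain ⟨w, hw, hgood⟩ : ∃ w ∈ 𝒲, ∀ c, w ∉ bad c := by
    by_contra hall
    push Not at hall
    have h1 : ∀ w ∈ 𝒲, wt w ≤ ∑ c : Bool × Bool × Bool, if w ∈ bad c then wt w else 0 := by
      intro w hw
      obtain ⟨c, hc⟩ := hall w hw
      have h2 : (if w ∈ bad c then wt w else 0) = wt w := if_pos hc
      calc wt w = if w ∈ bad c then wt w else 0 := h2.symm
        _ ≤ _ := single_le_sum (f := fun c => if w ∈ bad c then wt w else 0)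
          (fun c _ => by
            show 0 ≤ if w ∈ bad c then wt w else 0
            split_ifs
            · exact (hwt w hw).le
            · exact le_rfl) (mem_univ c)
    have h2 : tot ≤ ∑ c : Bool × Bool × Bool, ∑ w ∈ bad c, wt w := by
      rw [htot]
      refine (sum_le_sum h1).trans (le_of_eq ?_)
      rw [sum_comm]
      refine sum_congr rfl (fun c _ => ?_)
      rw [sum_ite_mem, inter_eq_right.2 (hbadsub c)]
    have h3 : ∑ c : Bool × Bool × Bool, ∑ w ∈ bad c, wt w <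
        ∑ _c : Bool × Bool × Bool, τ * ((q : ℝ) / S + 1) :=
      sum_lt_sum_of_nonempty ⟨(true, true, true), mem_univ _⟩ (fun c _ => hbadw c)
    rw [sum_const, card_univ, nsmul_eq_mul] at h3
    have h4 : ((Fintype.card (Bool × Bool × Bool) : ℕ) : ℝ) = 8 := by
      simp
    rw [h4, hτ] at h3
    have h5 : 8 * (η * tot * ((q : ℝ) / S + 1)) = 8 * η * ((q : ℝ) / S + 1) * tot := by ring
    rw [h5] at h3
    have h6 := mul_le_mul_of_nonneg_right hηS htot0.le
    linarith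
  -- the four quadrants of this window
  have hq1 : ∀ σ₁ σ₂ : Bool, #((cell q w ∩ U).filter (fun x => gg_side σ₁ y.1 x.1 ∧
      gg_side σ₂ y.2 x.2)) ≤ S ^ 2 := by
    intro σ₁ σ₂
    obtain ⟨E, hE⟩ : ∃ E, E = (cell q w ∩ U).filter (fun x => gg_side σ₁ y.1 x.1 ∧
      gg_side σ₂ y.2 x.2) := ⟨_, rfl⟩
    rw [← hE]
    have hEm : ∀ x ∈ E, x ∈ U ∧ ((w.1 ≤ x.1 ∧ x.1 < w.1 + q) ∧ (w.2 ≤ x.2 ∧ x.2 < w.2 + q)) ∧
        gg_side σ₁ y.1 x.1 ∧ gg_side σ₂ y.2 x.2 := by
      intro x hx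
      rw [hE, mem_filter, mem_inter] at hx
      unfold cell at hx
      rw [mem_product, mem_Ico, mem_Ico] at hx
      exact ⟨hx.1.2, hx.1.1, hx.2⟩
    have hcard : #E = #(E.image (fun x => (gg_off σ₁ y.1 x.1, gg_off σ₂ y.2 x.2))) := by
      rw [card_image_of_injOn]
      intro x hx x' hx' h
      rw [mem_coe] at hx hx'
      have h1 : gg_off σ₁ y.1 x.1 = gg_off σ₁ y.1 x'.1 := congrArg Prod.fst h
      have h2 : gg_off σ₂ y.2 x.2 = gg_off σ₂ y.2 x'.2 := congrArg Prod.snd h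
      exact Prod.ext (gg_off_inj (hEm x hx).2.2.1 (hEm x' hx').2.2.1 h1)
        (gg_off_inj (hEm x hx).2.2.2 (hEm x' hx').2.2.2 h2)
    rw [hcard]
    have hg1 := hgood (σ₁, σ₂, true)
    have hg2 := hgood (σ₁, σ₂, false)
    rw [hbad] at hg1 hg2
    simp only [if_true, Bool.false_eq_true, if_false] at hg1 hg2
    refine gg_quad hwt (α σ₁) (β σ₂) hw hg1 hg2 _ ?_
    intro p hp
    obtain ⟨x, hx, rfl⟩ := mem_image.1 hp
    obtain ⟨hxU, ⟨hx1, hx2⟩, hs1, hs2⟩ := hEm x hx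
    refine ⟨?_, ?_, ?_⟩
    · rw [hα]
      exact (gg_iff (hy w hw).1 hs1).1 hx1
    · rw [hβ]
      exact (gg_iff (hy w hw).2 hs2).1 hx2
    · refine lt_of_le_of_lt (le_of_eq ?_) (hcon x hxU)
      unfold gg_mu
      refine sum_congr ?_ (fun _ _ => rfl)
      ext w'
      rw [mem_filter, mem_filter]
      refine and_congr_right (fun hw' => ?_)
      rw [hα, hβ]
      unfold cell
      rw [mem_product, mem_Ico, mem_Ico, gg_iff (hy w' hw').1 hs1, gg_iff (hy w' hw').2 hs2]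
  have hcov : cell q w ∩ U ⊆
      ((cell q w ∩ U).filter (fun x => gg_side true y.1 x.1 ∧ gg_side true y.2 x.2) ∪
      (cell q w ∩ U).filter (fun x => gg_side true y.1 x.1 ∧ gg_side false y.2 x.2)) ∪
      ((cell q w ∩ U).filter (fun x => gg_side false y.1 x.1 ∧ gg_side true y.2 x.2) ∪
      (cell q w ∩ U).filter (fun x => gg_side false y.1 x.1 ∧ gg_side false y.2 x.2)) := by
    intro x hx
    simp only [mem_union, mem_filter, gg_side, if_true, Bool.false_eq_true, if_false]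
    rcases le_total y.1 x.1 with h1 | h1 <;> rcases le_total y.2 x.2 with h2 | h2
    · exact Or.inl (Or.inl ⟨hx, h1, h2⟩)
    · exact Or.inl (Or.inr ⟨hx, h1, h2⟩)
    · exact Or.inr (Or.inl ⟨hx, h1, h2⟩)
    · exact Or.inr (Or.inr ⟨hx, h1, h2⟩)
  have h1 := (card_le_card hcov).trans ((card_union_le _ _).trans
    (Nat.add_le_add (card_union_le _ _) (card_union_le _ _)))
  have h2 := h1.trans (Nat.add_le_add (Nat.add_le_add (hq1 true true) (hq1 true false))
    (Nat.add_le_add (hq1 false true) (hq1 false false)))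
  have h3 := hU w hw
  generalize S ^ 2 = s2 at h2 h3
  omega

end Pool.H33.MB2.Gk
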