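import Pool.Agent.H33.MB2.GkOne
import Pool.Agent.H33.MB2.GkGeo

/-!
# MB2 GKRE: the invariants of one grid are kept by the replies

`gk_mono`: `bigW` shrinks; `sh`: `unc` decreases; `sm`: if `w` is big in the new position fine; if it was big in the old one, then
`gsn ≤ Gm` (`gk_gsn`) and now `unc ≤ us`; otherwise `unc` decreases.
`gk_rep`.  Let `D` be the set of the unclaimed points `x ∈ cell T \ (M' ∪ B)` with `deep ⟨y, T, x⟩`.
(1) If `D` is nonempty take `x ∈ D`: `gsn` does not change; `bigW` shrinks.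
(2) Otherwise the unclaimed points of `T` lie in four strips of width `D0`: `unc P M' B T ≤ 4 D0 q`, and no unclaimed `x` makes the
    entry deep (outside `T` it is not deep either, as deep implies `x ∈ cell T`).
    (2a) If `𝒲 = {w ∈ bigW P Wn M' B : y ∈ cell w}` is nonempty apply `geo_lemma` with `wt w = lam^(gsn w)` and
         `U = (⋃_{w ∈ 𝒲} cell w) \ (M' ∪ B)` (`#(cell w ∩ U) = unc > us = 4 S^2`): `x ∈ U` with
         `κ ≥ η W`, `W = Σ_𝒲 wt`, `κ = Σ_{w ∈ 𝒲, x ∈ cell w} wt`.  For `A0 ∈ Wn`: two windows through `y` have distance `≤ q - 1`, so their factors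
         `(1/2)^(dst / q)` differ at most by a factor 2: let `m0` be the smallest; all are in `[m0, 2 m0]`.  New minus old `Psi` is at most
         `(lam - 1) * 2 m0 * W - m0 * κ ≤ (η / 2) 2 m0 W - m0 η W = 0`.
    (2b) If `𝒲 = ∅` take any unclaimed point of `cell T` (nonempty: `cell T \ M'` is nonempty and `T` is alive): `gsn w` does not
         change for `w ∈ bigW P Wn M' B`.
`ent`, `pw`: `y ∉ M`, older `e.y ∈ M`; older `e.x ∈ B`, `cell T` disjoint from `B`.
`sh`: new entry: `l1 = []`; old entries: if `y ∈ cell e.T` the count grows by one but `y` was unclaimed (`y ∉ M`, `y ∉ B` because `M'`, `B` are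
disjoint) and is claimed now.  `od`: new entry: `gk_os` in the old position (`T` alive).
`sm`: `w` alive now, not big now: if it was not big before: if `y ∈ cell w` the count grows by at most one and `unc` drops
by at least one; if it was big before: `gsn ≤ Gm` before, so `≤ Gm + 1` now, and `unc ≤ us` now.
-/

namespace Pool.H33.MB2.Gk

open Finset
open scoped Classical

variable {P : GP} {η : ℝ} {S : ℕ} {Wn : Finset (ℤ × ℤ)} {lg : List GE} {M B : Finset (ℤ × ℤ)}

private theorem gr_unc {M' B' : Finset (ℤ × ℤ)} (hM : M ⊆ M') (hB : B ⊆ B') (w : ℤ × ℤ) :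
    unc P M' B' w ≤ unc P M B w :=
  card_le_card (sdiff_subset_sdiff (Subset.refl _) (union_subset_union hM hB))

private theorem gr_bigW {M' B' : Finset (ℤ × ℤ)} (hM : M ⊆ M') (hB : B ⊆ B') :
    bigW P Wn M' B' ⊆ bigW P Wn M B := by
  intro w hw
  unfold bigW at hw ⊢
  rw [mem_filter] at hw ⊢
  exact ⟨hw.1, hw.2.1.mono_right hB, lt_of_lt_of_le hw.2.2 (gr_unc hM hB w)⟩

private theorem gr_lam (H : GH P η S) : 1 < P.lam := by
  rw [H.lam]
  linarith [H.η0]

theorem gk_mono (H : GH P η S) (h : GOK P Wn lg M B) {M' B' : Finset (ℤ × ℤ)} (hM : M ⊆ M')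
    (hB : B ⊆ B') : GOK P Wn lg M' B' where
  ent := by
    intro e he
    obtain ⟨h1, h2, h3, h4⟩ := h.ent e he
    exact ⟨h1, h2, hM h3, hB h4⟩
  pw := h.pw
  sh := by
    intro l1 e l2 hl hd
    have h1 := h.sh l1 e l2 hl hd
    have h2 := gr_unc (P := P) hM hB e.T
    omega
  od := h.od
  psi := by
    intro A0 hA0
    refine le_trans ?_ (h.psi A0 hA0)
    unfold Psi
    have hlam := gr_lam H
    exact sum_le_sum_of_subset_of_nonneg (gr_bigW hM hB) (fun w _ _ => by positivity)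
  sm := by
    intro w hw hd
    by_cases h1 : P.us < unc P M' B' w
    · exact Or.inl h1
    · right
      have h2 := gr_unc (P := P) hM hB w
      have hd' : Disjoint (cell P.q w) B := hd.mono_right hB
      rcases h.sm w hw hd' with h3 | h3
      · have h4 := (gk_gsn H h hw hd').2 h3
        omega
      · omega

private theorem gr_gsn_cons (e : GE) (lg : List GE) (w : ℤ × ℤ) :
    gsn P (e :: lg) w = gsn P lg w + if ¬ deep P e ∧ e.y ∈ cell P.q w then 1 else 0 := by
  unfold gsn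
  rw [List.countP_cons]
  simp only [decide_eq_true_eq]

private theorem gr_cnt_cons (e : GE) (lg : List GE) (w : ℤ × ℤ) :
    cnt P (e :: lg) w = cnt P lg w + if e.y ∈ cell P.q w then 1 else 0 := by
  unfold cnt
  rw [List.countP_cons]
  simp only [decide_eq_true_eq]

/-- one more claimed point -/
private theorem gr_unc_lt {M' B' : Finset (ℤ × ℤ)} (hM : M ⊆ M') (hB : B ⊆ B') {y : ℤ × ℤ}
    (hy : y ∈ M') (hyM : y ∉ M) (hyB : y ∉ B) (w : ℤ × ℤ) :
    unc P M' B' w + (if y ∈ cell P.q w then 1 else 0) ≤ unc P M B w := by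
  split_ifs with h
  · unfold unc
    have h1 : insert y (cell P.q w \ (M' ∪ B')) ⊆ cell P.q w \ (M ∪ B) := by
      intro z hz
      rw [mem_insert] at hz
      rcases hz with rfl | hz
      · rw [mem_sdiff, mem_union]
        exact ⟨h, fun hc => hc.elim hyM hyB⟩
      · rw [mem_sdiff, mem_union] at hz ⊢
        exact ⟨hz.1, fun hc => hz.2 (hc.imp (fun a => hM a) (fun a => hB a))⟩
    have h2 := card_le_card h1
    rw [card_insert_of_notMem] at h2
    · exact h2
    · rw [mem_sdiff, mem_union]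
      exact fun hc => hc.2 (Or.inl hy)
  · exact gr_unc hM hB w

/-- if no unclaimed point is deep there are few unclaimed points -/
private theorem gr_strip {T y : ℤ × ℤ} (hD : ∀ x ∈ cell P.q T, x ∉ M → x ∉ B →
    ¬ deep P ⟨y, T, x⟩) : unc P M B T ≤ 4 * P.D0 * P.q := by
  unfold unc
  have hsub : cell P.q T \ (M ∪ B) ⊆
      ((Ico T.1 (T.1 + P.D0) ×ˢ Ico T.2 (T.2 + P.q)) ∪
        (Ico (T.1 + P.q - P.D0) (T.1 + P.q) ×ˢ Ico T.2 (T.2 + P.q))) ∪
      ((Ico T.1 (T.1 + P.q) ×ˢ Ico T.2 (T.2 + P.D0)) ∪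
        (Ico T.1 (T.1 + P.q) ×ˢ Ico (T.2 + P.q - P.D0) (T.2 + P.q))) := by
    intro x hx
    rw [mem_sdiff, mem_union] at hx
    have h1 := hD x hx.1 (fun a => hx.2 (Or.inl a)) (fun a => hx.2 (Or.inr a))
    have h2 := hx.1
    rw [go_mem_cell] at h2
    unfold deep at h1
    dsimp only at h1
    simp only [mem_union, mem_product, mem_Ico]
    omega
  have h1 := (card_le_card hsub).trans ((card_union_le _ _).trans
    (Nat.add_le_add (card_union_le _ _) (card_union_le _ _)))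
  simp only [card_product, Int.card_Ico] at h1
  have e1 : (T.1 + (P.D0 : ℤ) - T.1).toNat = P.D0 := by omega
  have e2 : (T.2 + (P.q : ℤ) - T.2).toNat = P.q := by omega
  have e3 : (T.1 + (P.q : ℤ) - (T.1 + P.q - P.D0)).toNat = P.D0 := by omega
  have e4 : (T.1 + (P.q : ℤ) - T.1).toNat = P.q := by omega
  have e5 : (T.2 + (P.D0 : ℤ) - T.2).toNat = P.D0 := by omega
  have e6 : (T.2 + (P.q : ℤ) - (T.2 + P.q - P.D0)).toNat = P.D0 := by omega
  rw [e1, e2, e3, e4, e5, e6] at h1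
  refine h1.trans (le_of_eq ?_)
  ring

/-- the new potential, if the entry does not count -/
private theorem gr_psi_same (H : GH P η S) {M' : Finset (ℤ × ℤ)} {y T x : ℤ × ℤ}
    (hg : ∀ w ∈ bigW P Wn M' (insert x B), gsn P (⟨y, T, x⟩ :: lg) w = gsn P lg w) (A0 : ℤ × ℤ) :
    Psi P Wn (⟨y, T, x⟩ :: lg) M' (insert x B) A0 ≤ Psi P Wn lg M' B A0 := by
  unfold Psi
  have hlam := gr_lam H
  have h1 : ∑ w ∈ bigW P Wn M' (insert x B), (1 / 2 : ℝ) ^ (dst w A0 / P.q) *
      P.lam ^ gsn P (⟨y, T, x⟩ :: lg) w =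
      ∑ w ∈ bigW P Wn M' (insert x B), (1 / 2 : ℝ) ^ (dst w A0 / P.q) * P.lam ^ gsn P lg w :=
    sum_congr rfl (fun w hw => by rw [hg w hw])
  rw [h1]
  exact sum_le_sum_of_subset_of_nonneg (gr_bigW (Subset.refl _) (subset_insert _ _))
    (fun w _ _ => by positivity)

/-- distances of windows through one point -/
private theorem gr_dst {q : ℕ} (hq : 1 ≤ q) {y w v A0 : ℤ × ℤ} (hw : y ∈ cell q w)
    (hv : y ∈ cell q v) : dst v A0 / q ≤ dst w A0 / q + 1 := by
  have h1 : dst v A0 ≤ dst w A0 + q := by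
    rw [go_mem_cell] at hw hv
    unfold dst
    omega
  calc dst v A0 / q ≤ (dst w A0 + q) / q := Nat.div_le_div_right h1
    _ = dst w A0 / q + 1 := Nat.add_div_right _ (by omega)

/-- the new potential, if the reply is chosen by the geometric lemma -/
private theorem gr_psi_geo (H : GH P η S) {M' : Finset (ℤ × ℤ)} {y T x : ℤ × ℤ}
    (hne : ((bigW P Wn M' B).filter (fun w => y ∈ cell P.q w)).Nonempty)
    (hx : η * ∑ w ∈ (bigW P Wn M' B).filter (fun w => y ∈ cell P.q w), P.lam ^ gsn P lg w ≤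
      ∑ w ∈ ((bigW P Wn M' B).filter (fun w => y ∈ cell P.q w)).filter
        (fun w => x ∈ cell P.q w), P.lam ^ gsn P lg w) (A0 : ℤ × ℤ) :
    Psi P Wn (⟨y, T, x⟩ :: lg) M' (insert x B) A0 ≤ Psi P Wn lg M' B A0 := by
  have hlam := gr_lam H
  have hlam0 : 0 < P.lam := by linarith
  obtain ⟨𝒲, h𝒲⟩ : ∃ 𝒲, 𝒲 = (bigW P Wn M' B).filter (fun w => y ∈ cell P.q w) := ⟨_, rfl⟩
  rw [← h𝒲] at hne hx
  obtain ⟨v, hv, hvmax⟩ := exists_max_image 𝒲 (fun w => dst w A0 / P.q) hne
  obtain ⟨m0, hm0⟩ : ∃ m0 : ℝ, m0 = (1 / 2 : ℝ) ^ (dst v A0 / P.q) := ⟨_, rfl⟩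
  have hm0p : 0 < m0 := by
    rw [hm0]
    positivity
  have hmem : ∀ w ∈ 𝒲, y ∈ cell P.q w := by
    intro w hw
    rw [h𝒲] at hw
    exact (mem_filter.1 hw).2
  have hlow : ∀ w ∈ 𝒲, m0 ≤ (1 / 2 : ℝ) ^ (dst w A0 / P.q) := by
    intro w hw
    rw [hm0]
    exact pow_le_pow_of_le_one (by norm_num) (by norm_num) (hvmax w hw)
  have hup : ∀ w ∈ 𝒲, (1 / 2 : ℝ) ^ (dst w A0 / P.q) ≤ 2 * m0 := by
    intro w hw
    have h1 := gr_dst (A0 := A0) H.q1 (hmem w hw) (hmem v hv)
    have h2 : (1 / 2 : ℝ) ^ (dst w A0 / P.q + 1) ≤ m0 := by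
      rw [hm0]
      exact pow_le_pow_of_le_one (by norm_num) (by norm_num) h1
    rw [pow_succ] at h2
    linarith
  obtain ⟨c, hc⟩ : ∃ c : ℤ × ℤ → ℝ, ∀ w, c w = (1 / 2 : ℝ) ^ (dst w A0 / P.q) :=
    ⟨_, fun _ => rfl⟩
  obtain ⟨wt, hwt⟩ : ∃ wt : ℤ × ℤ → ℝ, ∀ w, wt w = P.lam ^ gsn P lg w := ⟨_, fun _ => rfl⟩
  have hc0 : ∀ w, 0 < c w := fun w => by
    rw [hc]
    positivity
  have hwt0 : ∀ w, 0 < wt w := fun w => by
    rw [hwt]
    positivity
  simp only [← hwt] at hx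
  simp only [← hc] at hlow hup
  obtain ⟨Big, hBig⟩ : ∃ Big, Big = bigW P Wn M' B := ⟨_, rfl⟩
  -- the new potential
  have h1 : Psi P Wn (⟨y, T, x⟩ :: lg) M' (insert x B) A0 ≤
      ∑ w ∈ Big.filter (fun w => x ∉ cell P.q w),
        (c w * wt w + (P.lam - 1) * (if y ∈ cell P.q w then c w * wt w else 0)) := by
    unfold Psi
    have h2 : ∀ w ∈ bigW P Wn M' (insert x B), (1 / 2 : ℝ) ^ (dst w A0 / P.q) *
        P.lam ^ gsn P (⟨y, T, x⟩ :: lg) w ≤
        c w * wt w + (P.lam - 1) * (if y ∈ cell P.q w then c w * wt w else 0) := by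
      intro w _
      rw [gr_gsn_cons, ← hc, pow_add, ← hwt]
      have h3 : 0 < c w * wt w := mul_pos (hc0 w) (hwt0 w)
      by_cases h4 : y ∈ cell P.q w
      · rw [if_pos h4]
        split_ifs
        · rw [pow_one]
          linarith
        · rw [pow_zero, mul_one]
          nlinarith
      · rw [if_neg h4, if_neg (fun a => h4 a.2), pow_zero, mul_one, mul_zero, add_zero]
    refine (sum_le_sum h2).trans ?_
    refine sum_le_sum_of_subset_of_nonneg ?_ (fun w _ _ => ?_)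
    · intro w hw
      rw [mem_filter, hBig]
      refine ⟨gr_bigW (Subset.refl _) (subset_insert _ _) hw, ?_⟩
      intro hxw
      unfold bigW at hw
      rw [mem_filter] at hw
      exact (disjoint_left.1 hw.2.1 hxw) (mem_insert_self _ _)
    · have h3 : 0 < c w * wt w := mul_pos (hc0 w) (hwt0 w)
      have h4 : 0 ≤ (if y ∈ cell P.q w then c w * wt w else 0) := by
        split_ifs
        · exact h3.le
        · exact le_rfl
      have h5 : 0 ≤ (P.lam - 1) * (if y ∈ cell P.q w then c w * wt w else 0) :=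
        mul_nonneg (by linarith) h4
      linarith
  have h2 : Psi P Wn lg M' B A0 = ∑ w ∈ Big, c w * wt w := by
    unfold Psi
    rw [hBig]
    refine sum_congr rfl (fun w _ => ?_)
    rw [hc, hwt]
  rw [h2]
  refine h1.trans ?_
  rw [sum_add_distrib, ← mul_sum]
  -- the gain
  have h3 : ∑ w ∈ Big, c w * wt w = ∑ w ∈ Big.filter (fun w => x ∉ cell P.q w), c w * wt w +
      ∑ w ∈ Big.filter (fun w => ¬ x ∉ cell P.q w), c w * wt w :=
    (sum_filter_add_sum_filter_not _ _ _).symm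
  rw [h3]
  have h4 : m0 * ∑ w ∈ 𝒲.filter (fun w => x ∈ cell P.q w), wt w ≤
      ∑ w ∈ Big.filter (fun w => ¬ x ∉ cell P.q w), c w * wt w := by
    rw [mul_sum]
    have h5 : ∑ w ∈ 𝒲.filter (fun w => x ∈ cell P.q w), m0 * wt w ≤
        ∑ w ∈ 𝒲.filter (fun w => x ∈ cell P.q w), c w * wt w :=
      sum_le_sum (fun w hw => mul_le_mul_of_nonneg_right (hlow w (mem_filter.1 hw).1) (hwt0 w).le)
    refine h5.trans ?_
    refine sum_le_sum_of_subset_of_nonneg ?_ (fun w _ _ => (mul_pos (hc0 w) (hwt0 w)).le)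
    intro w hw
    rw [mem_filter, h𝒲, mem_filter] at hw
    rw [mem_filter, hBig, not_not]
    exact ⟨hw.1.1, hw.2⟩
  -- the loss
  have h5 : ∑ w ∈ Big.filter (fun w => x ∉ cell P.q w), (if y ∈ cell P.q w then c w * wt w else 0) ≤
      2 * m0 * ∑ w ∈ 𝒲, wt w := by
    have h6 : ∑ w ∈ Big.filter (fun w => x ∉ cell P.q w),
        (if y ∈ cell P.q w then c w * wt w else 0) ≤
        ∑ w ∈ Big, (if y ∈ cell P.q w then c w * wt w else 0) := by
      refine sum_le_sum_of_subset_of_nonneg (filter_subset _ _) (fun w _ _ => ?_)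
      split_ifs
      · exact (mul_pos (hc0 w) (hwt0 w)).le
      · exact le_rfl
    refine h6.trans ?_
    rw [← sum_filter, mul_sum, hBig, ← h𝒲]
    exact sum_le_sum (fun w hw => mul_le_mul_of_nonneg_right (hup w hw) (hwt0 w).le)
  have h6 : (P.lam - 1) * ∑ w ∈ Big.filter (fun w => x ∉ cell P.q w),
      (if y ∈ cell P.q w then c w * wt w else 0) ≤ (P.lam - 1) * (2 * m0 * ∑ w ∈ 𝒲, wt w) :=
    mul_le_mul_of_nonneg_left h5 (by linarith)
  have h7 : (P.lam - 1) * (2 * m0 * ∑ w ∈ 𝒲, wt w) = m0 * (η * ∑ w ∈ 𝒲, wt w) := by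
    rw [H.lam]
    ring
  have h8 := mul_le_mul_of_nonneg_left hx hm0p.le
  linarith

/-- choice of the reply -/
private theorem gr_choice (H : GH P η S) {M' : Finset (ℤ × ℤ)} {y T : ℤ × ℤ} (hT : T ∈ Wn)
    (ha : Disjoint (cell P.q T) B) (hne : (cell P.q T \ M').Nonempty) :
    ∃ x, (∃ w ∈ Wn, x ∈ cell P.q w) ∧ x ∉ M' ∧ x ∉ B ∧
      (¬ deep P ⟨y, T, x⟩ → unc P M' B T ≤ 4 * P.D0 * P.q) ∧
      ∀ A0, Psi P Wn (⟨y, T, x⟩ :: lg) M' (insert x B) A0 ≤ Psi P Wn lg M' B A0 := by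
  by_cases hD : ∃ x ∈ cell P.q T, x ∉ M' ∧ x ∉ B ∧ deep P ⟨y, T, x⟩
  · obtain ⟨x, hx, hxM, hxB, hd⟩ := hD
    refine ⟨x, ⟨T, hT, hx⟩, hxM, hxB, fun h => absurd hd h, ?_⟩
    refine gr_psi_same H (fun w _ => ?_)
    rw [gr_gsn_cons, if_neg (fun a => a.1 hd), add_zero]
  · push Not at hD
    have hstrip : unc P M' B T ≤ 4 * P.D0 * P.q := gr_strip (y := y) hD
    by_cases hW : ((bigW P Wn M' B).filter (fun w => y ∈ cell P.q w)).Nonempty
    · obtain ⟨𝒲, h𝒲⟩ : ∃ 𝒲, 𝒲 = (bigW P Wn M' B).filter (fun w => y ∈ cell P.q w) := ⟨_, rfl⟩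
      have hlam := gr_lam H
      have hbig : ∀ w ∈ 𝒲, w ∈ Wn ∧ P.us < unc P M' B w ∧ y ∈ cell P.q w := by
        intro w hw
        rw [h𝒲, mem_filter] at hw
        unfold bigW at hw
        rw [mem_filter] at hw
        exact ⟨hw.1.1, hw.1.2.2, hw.2⟩
      obtain ⟨x, hxU, hx⟩ := geo_lemma H.q1 H.S1 H.η0 H.hS y 𝒲 (by rw [h𝒲]; exact hW)
        (fun w hw => (hbig w hw).2.2) (fun w => P.lam ^ gsn P lg w)
        (fun w _ => pow_pos (by linarith) _) ((𝒲.biUnion (cell P.q)) \ (M' ∪ B)) (by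
          intro w hw
          have h1 := (hbig w hw).2.1
          rw [← H.us]
          refine lt_of_lt_of_le h1 (card_le_card ?_)
          intro z hz
          rw [mem_sdiff] at hz
          rw [mem_inter, mem_sdiff, mem_biUnion]
          exact ⟨hz.1, ⟨w, hw, hz.1⟩, hz.2⟩)
      rw [mem_sdiff, mem_biUnion, mem_union] at hxU
      obtain ⟨⟨w, hw, hxw⟩, hxn⟩ := hxU
      refine ⟨x, ⟨w, (hbig w hw).1, hxw⟩, fun a => hxn (Or.inl a), fun a => hxn (Or.inr a),
        fun _ => hstrip, ?_⟩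
      rw [h𝒲] at hx
      exact gr_psi_geo H hW hx
    · obtain ⟨x, hx⟩ := hne
      rw [mem_sdiff] at hx
      refine ⟨x, ⟨T, hT, hx.1⟩, hx.2, disjoint_left.1 ha hx.1, fun _ => hstrip, ?_⟩
      refine gr_psi_same H (fun w hw => ?_)
      rw [gr_gsn_cons, if_neg, add_zero]
      rintro ⟨-, h1⟩
      apply hW
      exact ⟨w, mem_filter.2 ⟨gr_bigW (Subset.refl _) (subset_insert _ _) hw, h1⟩⟩

theorem gk_rep (H : GH P η S) (h : GOK P Wn lg M B) {M' : Finset (ℤ × ℤ)} (hM : M ⊆ M')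
    (hMB : Disjoint M' B) {y T : ℤ × ℤ} (hy : y ∈ M') (hy' : y ∉ M) (hT : T ∈ Wn)
    (hyT : y ∈ cell P.q T) (ha : Disjoint (cell P.q T) B) (hne : (cell P.q T \ M').Nonempty) :
    ∃ x, (∃ w ∈ Wn, x ∈ cell P.q w) ∧ x ∉ M' ∧ x ∉ B ∧
      GOK P Wn (⟨y, T, x⟩ :: lg) M' (insert x B) := by
  obtain ⟨x, hx1, hx2, hx3, hx4, hx5⟩ := gr_choice (lg := lg) (y := y) H hT ha hne
  refine ⟨x, hx1, hx2, hx3, ?_⟩
  have h1 : GOK P Wn lg M' B := gk_mono H h hM (Subset.refl B)
  have hyB : y ∉ B := disjoint_left.1 hMB hy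
  have hBs : B ⊆ insert x B := subset_insert _ _
  refine ⟨?_, ?_, ?_, ?_, ?_, ?_⟩
  · intro e he
    rw [List.mem_cons] at he
    rcases he with rfl | he
    · exact ⟨hT, hyT, hy, mem_insert_self _ _⟩
    · obtain ⟨a1, a2, a3, a4⟩ := h1.ent e he
      exact ⟨a1, a2, a3, hBs a4⟩
  · rw [List.pairwise_cons]
    refine ⟨fun e he => ?_, h.pw⟩
    obtain ⟨a1, a2, a3, a4⟩ := h.ent e he
    refine ⟨?_, ?_⟩
    · intro hye
      apply hy'
      have : y = e.y := hye
      rw [this]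
      exact a3
    · intro hex
      exact disjoint_left.1 ha hex a4
  · intro l1 e l2 hl hd
    cases l1 with
    | nil =>
      rw [List.nil_append, List.cons.injEq] at hl
      obtain ⟨rfl, rfl⟩ := hl
      have h2 := hx4 hd
      have h3 := gr_unc (P := P) (Subset.refl M') hBs T
      have h4 : cnt P [] T = 0 := by simp [cnt]
      show cnt P [] T + unc P M' (insert x B) T ≤ 4 * P.D0 * P.q
      omega
    | cons e1 l1 =>
      rw [List.cons_append, List.cons.injEq] at hl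
      obtain ⟨rfl, hl⟩ := hl
      have h2 := h.sh l1 e l2 hl hd
      have h3 := gr_unc_lt (P := P) hM hBs hy hy' hyB e.T
      rw [gr_cnt_cons]
      show cnt P l1 e.T + (if y ∈ cell P.q e.T then 1 else 0) + unc P M' (insert x B) e.T ≤ _
      omega
  · intro l1 e l2 hl
    cases l1 with
    | nil =>
      rw [List.nil_append, List.cons.injEq] at hl
      obtain ⟨rfl, rfl⟩ := hl
      exact gk_os H h hT ha
    | cons e1 l1 =>
      rw [List.cons_append, List.cons.injEq] at hl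
      exact h.od l1 e l2 hl.2
  · intro A0 hA0
    exact (hx5 A0).trans (h1.psi A0 hA0)
  · intro w hw hd
    by_cases hbig : P.us < unc P M' (insert x B) w
    · exact Or.inl hbig
    · right
      have hd' : Disjoint (cell P.q w) B := hd.mono_right hBs
      have h3 := gr_unc_lt (P := P) hM hBs hy hy' hyB w
      have h4 : gsn P (⟨y, T, x⟩ :: lg) w ≤ gsn P lg w + (if y ∈ cell P.q w then 1 else 0) := by
        rw [gr_gsn_cons]
        refine Nat.add_le_add_left ?_ _
        by_cases h5 : y ∈ cell P.q w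
        · rw [if_pos h5]
          split_ifs <;> omega
        · rw [if_neg h5, if_neg (fun a => h5 a.2)]
      have h5 : (if y ∈ cell P.q w then 1 else 0) ≤ 1 := by split_ifs <;> omega
      rcases h.sm w hw hd' with h6 | h6
      · have h7 := (gk_gsn H h hw hd').2 h6
        omega
      · omega

end Pool.H33.MB2.Gk
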