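import Pool.Agent.H33.MB2.GkNil
import Pool.Agent.H33.MB2.GkRep
import Pool.Agent.H33.MB2.GkCell

/-!
# The windows of one grid: all results
-/
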