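import Pool.Agent.H33.MB2.LtA

/-!
# MB2 LTH: closeness: grids, hits, clusters

Let `D`, `T` be members with more than `t1` common points, `ζ q^2 ≤ t1 + 1`, `2 ≤ ζ q`, `C = ⌊2 / ζ⌋₊`.  `D = lat q a b d`, `T = lat q a' b' d'`.
* As in the proof of `H68.MB.core_rel`: `#(X ∩ X') ≥ ζ q` and `#(Y ∩ Y') ≥ ζ q` (`#(D ∩ T) ≤ #(X ∩ X') * q`), so by `LR.gap_le` with
  `g = gcd d d'`, `d' = α g`, `d = β g`: `1 ≤ α, β ≤ C`, and `α d = β d'`.  In particular `d ≤ C d'`.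
* `close_grids`: for given `D` the grid of `T` is one of at most `(C + 1)^4`: `d' = α d / β`; a common point `a + i d = a' + i' d'` gives
  `a' % d' = (a + i d) % d' = (a + (i % α) d) % d'` (`α d = β d'`), `i % α < α ≤ C`; same for `b'`.
* `fam_hits`.  Fix `D` and a grid `g' = (x0, y0, d')`, and let `T` be a member with this grid, close to `D`, with `#(H ∩ T) = 1`, `v ∈ H ∩ T`.
  Let `I` be the set of the first coordinates of `H` which are `≡ x0 mod d'` (an arithmetic progression with gap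
  `L' = lcm d_H d'`), `J` the same for the second coordinates.  `H ∩ T = (I ∩ R1) × (J ∩ R2)`, where `R1`, `R2` are the ranges of `T`
  (length `(q-1) d'`), so `I ∩ R1 = {v.1}`, `J ∩ R2 = {v.2}`.
  If `2 L' ≤ (q - 1) d'`: `R1` contains `v.1 - L'` or `v.1 + L'` (it contains `v.1` and has length `≥ 2 L'`... so at least `L'` on one side),
  so one of these is not in `I`, i.e. `v.1` is the smallest or the largest element of `I`: at most 2 values.
  If `2 L' > (q - 1) d'`: `R1` contains `v.1` and meets the range `[a, a + (q-1) d]` of `D`, so `v.1` lies in an interval of length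
  `(q-1)(d + 2 d') ≤ (q-1) (C + 2) d'`, and elements of `I` differ by at least `L'`: at most `2 (C + 2) + 1` values.
  So at most `2 C + 5` values of `v.1`, the same for `v.2`: at most `(2 C + 5)^2` points `v` for each grid, `(C+1)^4 (2C+5)^2` in total.
* `fam_cluster`: for each of the at most `(C + 1)^4` grids: `T` meets `D`, so for `y ∈ T`: `y.1 ∈ [a - (q-1) d', a + (q-1)(d + d')]`, so `y.1 / d'` lies in
  an interval of at most `(q-1)(C+2) + 2 ≤ q (C + 3)` integers, covered by `C + 3` intervals of length `q`; same for `y.2`.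
-/

namespace Pool.H33.MB2

open Finset
open scoped Classical
open Pool.H68.MB (lat board coreFam)

theorem lth_grq {N q : ℕ} (hq : 2 ≤ q) {A : Finset (ℕ × ℕ)} (hA : A ∈ coreFam N q 1) :
    ∃ a b d, 1 ≤ d ∧ A = lat q a b d ∧ grq q A = (a % d, b % d, d) := by
  obtain ⟨a, b, d, hd, hAe, hp⟩ := fam_par hq hA
  exact ⟨a, b, d, hd, hAe, by unfold grq; rw [hp]⟩

/-- Close lattices: the gaps are related by small numbers, and there is a common point. -/
theorem lth_close {q t1 a b d a' b' d' : ℕ} {ζ : ℝ} (hq : 2 ≤ q) (hζ : 0 < ζ)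
    (hζq : 2 ≤ ζ * q) (ht : ζ * (q : ℝ) ^ 2 ≤ t1 + 1) (hd : 1 ≤ d) (hd' : 1 ≤ d')
    (h : t1 < #(lat q a b d ∩ lat q a' b' d')) :
    ∃ α β, 1 ≤ α ∧ α ≤ ⌊2 / ζ⌋₊ ∧ 1 ≤ β ∧ β ≤ ⌊2 / ζ⌋₊ ∧ α * d = β * d' ∧
      (∃ i i', i < q ∧ i' < q ∧ a + i * d = a' + i' * d') ∧
      ∃ j j', j < q ∧ j' < q ∧ b + j * d = b' + j' * d' := by
  have hqR : (0 : ℝ) < q := by exact_mod_cast (by omega : 0 < q)
  have hbig : ζ * (q : ℝ) ^ 2 ≤ (#(lat q a b d ∩ lat q a' b' d') : ℝ) := by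
    refine ht.trans ?_
    exact_mod_cast h
  have hprod : (#(lat q a b d ∩ lat q a' b' d') : ℝ) ≤
      (#(Pool.H68.MB.LR.ap q a d ∩ Pool.H68.MB.LR.ap q a' d') : ℝ) * (#(Pool.H68.MB.LR.ap q b d ∩ Pool.H68.MB.LR.ap q b' d') : ℝ) := by
    have := card_le_card (Pool.H68.MB.LR.lat_inter_subset q a b d a' b' d')
    rw [card_product] at this
    exact_mod_cast this
  have hYm : (#(Pool.H68.MB.LR.ap q b d ∩ Pool.H68.MB.LR.ap q b' d') : ℝ) ≤ q := by
    exact_mod_cast (card_le_card inter_subset_left).trans (Pool.H68.MB.LR.card_ap_le q b d)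
  have hX : ζ * q ≤ (#(Pool.H68.MB.LR.ap q a d ∩ Pool.H68.MB.LR.ap q a' d') : ℝ) := by
    refine le_of_mul_le_mul_right ?_ hqR
    calc ζ * q * q = ζ * (q : ℝ) ^ 2 := by ring
      _ ≤ _ := hbig.trans hprod
      _ ≤ _ := mul_le_mul_of_nonneg_left hYm (Nat.cast_nonneg _)
  have hαC : d' / Nat.gcd d d' ≤ ⌊2 / ζ⌋₊ := Pool.H68.MB.LR.gap_le hζ hζq hd hd' hX
  have hβC : d / Nat.gcd d' d ≤ ⌊2 / ζ⌋₊ := by
    refine Pool.H68.MB.LR.gap_le (a := a') (a' := a) hζ hζq hd' hd ?_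
    rwa [inter_comm]
  rw [Nat.gcd_comm d' d] at hβC
  have hgpos : 0 < Nat.gcd d d' := Nat.gcd_pos_of_pos_left _ (by omega)
  obtain ⟨α, hα⟩ : Nat.gcd d d' ∣ d' := Nat.gcd_dvd_right d d'
  obtain ⟨β, hβ⟩ : Nat.gcd d d' ∣ d := Nat.gcd_dvd_left d d'
  have hαe : d' / Nat.gcd d d' = α := by
    rw [Nat.div_eq_iff_eq_mul_right hgpos (Nat.gcd_dvd_right d d')]
    exact hα
  have hβe : d / Nat.gcd d d' = β := by
    rw [Nat.div_eq_iff_eq_mul_right hgpos (Nat.gcd_dvd_left d d')]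
    exact hβ
  rw [hαe] at hαC
  rw [hβe] at hβC
  have hαβ : α * d = β * d' := by
    calc α * d = α * (Nat.gcd d d' * β) := by rw [← hβ]
      _ = β * (Nat.gcd d d' * α) := by ring
      _ = β * d' := by rw [← hα]
  have hα1 : 1 ≤ α := by
    rcases Nat.eq_zero_or_pos α with h | h
    · rw [h, mul_zero] at hα
      omega
    · exact h
  have hβ1 : 1 ≤ β := by
    rcases Nat.eq_zero_or_pos β with h | h
    · rw [h, mul_zero] at hβ
      omega
    · exact h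
  have hne : (lat q a b d ∩ lat q a' b' d').Nonempty := by
    rw [← card_pos]
    omega
  obtain ⟨p, hp⟩ := hne
  rw [mem_inter] at hp
  obtain ⟨i, j, hi, hj, e1⟩ := Pool.H68.MB.Lt.mem_lat.1 hp.1
  obtain ⟨i', j', hi', hj', e2⟩ := Pool.H68.MB.Lt.mem_lat.1 hp.2
  rw [e1, Prod.mk.injEq] at e2
  exact ⟨α, β, hα1, hαC, hβ1, hβC, hαβ, ⟨i, i', hi, hi', e2.1⟩, ⟨j, j', hj, hj', e2.2⟩⟩

theorem lth_res {a d a' d' i i' α β : ℕ} (hαβ : α * d = β * d')
    (hx : a + i * d = a' + i' * d') : (a + (i % α) * d) % d' = a' % d' := by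
  have h1 : (i % α) * d + (i / α) * β * d' = i * d := by
    have h2 : (i / α) * β * d' = (i / α) * (α * d) := by rw [hαβ]; ring
    rw [h2]
    conv_rhs => rw [← Nat.div_add_mod i α]
    ring
  have h3 : (a + (i % α) * d) + (i / α) * β * d' = a' + i' * d' := by
    rw [← hx]
    omega
  calc (a + (i % α) * d) % d' = ((a + (i % α) * d) + (i / α) * β * d') % d' :=
        (Nat.add_mul_mod_self_right _ _ _).symm
    _ = (a' + i' * d') % d' := by rw [h3]
    _ = a' % d' := Nat.add_mul_mod_self_right _ _ _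

theorem close_grids {N q t1 : ℕ} {ζ : ℝ} (hq : 2 ≤ q) (hζ : 0 < ζ) (hζq : 2 ≤ ζ * q)
    (ht : ζ * (q : ℝ) ^ 2 ≤ t1 + 1) {D : Finset (ℕ × ℕ)} (hD : D ∈ coreFam N q 1) :
    ∃ 𝒢 : Finset (ℕ × ℕ × ℕ), #𝒢 ≤ (⌊2 / ζ⌋₊ + 1) ^ 4 ∧
      ∀ T ∈ coreFam N q 1, t1 < #(D ∩ T) → grq q T ∈ 𝒢 ∧
        (grq q D).2.2 ≤ ⌊2 / ζ⌋₊ * (grq q T).2.2 := by
  obtain ⟨a, b, d, hd, hDe, hDg⟩ := lth_grq hq hD
  set C := ⌊2 / ζ⌋₊ with hC
  refine ⟨((range (C + 1) ×ˢ range (C + 1)) ×ˢ (range (C + 1) ×ˢ range (C + 1))).image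
    (fun t => ((a + t.2.1 * d) % (t.1.1 * d / t.1.2), (b + t.2.2 * d) % (t.1.1 * d / t.1.2),
      t.1.1 * d / t.1.2)), ?_, ?_⟩
  · refine card_image_le.trans (le_of_eq ?_)
    simp only [card_product, card_range]
    ring
  · intro T hT hDT
    obtain ⟨a', b', d', hd', hTe, hTg⟩ := lth_grq hq hT
    rw [hDe, hTe] at hDT
    obtain ⟨α, β, hα1, hαC, hβ1, hβC, hαβ, ⟨i, i', hi, hi', e1⟩, ⟨j, j', hj, hj', e2⟩⟩ :=
      lth_close hq hζ hζq ht hd hd' hDT
    have hdd : α * d / β = d' := by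
      rw [hαβ, Nat.mul_div_cancel_left _ (by omega)]
    constructor
    · rw [mem_image]
      refine ⟨((α, β), (i % α, j % α)), ?_, ?_⟩
      · have m1 := Nat.mod_lt i (show α > 0 by omega)
        have m2 := Nat.mod_lt j (show α > 0 by omega)
        simp only [mem_product, mem_range]
        refine ⟨⟨by omega, by omega⟩, by omega, by omega⟩
      · simp only [hdd]
        rw [lth_res hαβ e1, lth_res hαβ e2, hTg]
    · rw [hDg, hTg]
      simp only
      calc d = 1 * d := (one_mul d).symm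
        _ ≤ α * d := Nat.mul_le_mul_right _ hα1
        _ = β * d' := hαβ
        _ ≤ C * d' := Nat.mul_le_mul_right _ hβC

/-- One coordinate of `fam_hits`. -/
theorem hits_one {q C aH dH a d x0 d' : ℕ} (hq : 2 ≤ q) (hdH : 1 ≤ dH) (hd' : 1 ≤ d')
    (hC : d ≤ C * d') (S : Finset ℕ)
    (hS : ∀ x ∈ S, ∃ a', a' % d' = x0 ∧ x ∈ Pool.H68.MB.LR.ap q aH dH ∧ x ∈ Pool.H68.MB.LR.ap q a' d' ∧
      (∀ z, z ∈ Pool.H68.MB.LR.ap q aH dH → z ∈ Pool.H68.MB.LR.ap q a' d' → z = x) ∧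
      a ≤ a' + (q - 1) * d' ∧ a' ≤ a + (q - 1) * d) : #S ≤ 2 * C + 5 := by
  obtain ⟨k, hk⟩ : dH ∣ Nat.lcm dH d' := Nat.dvd_lcm_left dH d'
  obtain ⟨l, hl⟩ : d' ∣ Nat.lcm dH d' := Nat.dvd_lcm_right dH d'
  have hLpos : 0 < Nat.lcm dH d' := Nat.lcm_pos (by omega) (by omega)
  have hdvd : ∀ x ∈ S, ∀ y ∈ S, x < y → x + Nat.lcm dH d' ≤ y := by
    intro x hx y hy hxy
    obtain ⟨a1, h1, h2, h3, -⟩ := hS x hx
    obtain ⟨a2, h1', h2', h3', -⟩ := hS y hy
    rw [Pool.H68.MB.LR.mem_ap] at h2 h3 h2' h3'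
    obtain ⟨i, -, hi⟩ := h2
    obtain ⟨i', -, hi'⟩ := h3
    obtain ⟨j, -, hj⟩ := h2'
    obtain ⟨j', -, hj'⟩ := h3'
    have m1 : x ≡ y [MOD dH] := by
      unfold Nat.ModEq
      rw [hi, hj, Nat.add_mul_mod_self_right, Nat.add_mul_mod_self_right]
    have m2 : x ≡ y [MOD d'] := by
      unfold Nat.ModEq
      rw [hi', hj', Nat.add_mul_mod_self_right, Nat.add_mul_mod_self_right, h1, h1']
    have m3 : Nat.lcm dH d' ∣ y - x :=
      Nat.lcm_dvd ((Nat.modEq_iff_dvd' hxy.le).1 m1) ((Nat.modEq_iff_dvd' hxy.le).1 m2)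
    have := Nat.le_of_dvd (by omega) m3
    omega
  generalize Nat.lcm dH d' = L at hk hl hLpos hdvd
  by_cases hcase : 2 * L ≤ (q - 1) * d'
  · have h1 : ∀ x ∈ S, aH + (q - 1) * dH < x + L ∨ x < aH + L := by
      intro x hx
      obtain ⟨a', -, h2, h3, h4, -⟩ := hS x hx
      rw [Pool.H68.MB.LR.mem_ap] at h2 h3
      obtain ⟨i, hi, hxi⟩ := h2
      obtain ⟨i', hi', hxi'⟩ := h3
      by_contra hcon
      push Not at hcon
      obtain ⟨c1, c2⟩ := hcon
      by_cases hx2 : x + L ≤ a' + (q - 1) * d'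
      · have e1 : (i' + l) * d' = i' * d' + L := by rw [hl]; ring
        have e2 : (i + k) * dH = i * dH + L := by rw [hk]; ring
        have e3 : i' + l < q := by
          by_contra hh
          have := Nat.mul_le_mul_right d' (show (q - 1) + 1 ≤ i' + l by omega)
          rw [add_mul, one_mul] at this
          omega
        have e4 : i + k < q := by
          by_contra hh
          have := Nat.mul_le_mul_right dH (show (q - 1) + 1 ≤ i + k by omega)
          rw [add_mul, one_mul] at this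
          omega
        have := h4 (x + L) (Pool.H68.MB.LR.mem_ap.2 ⟨i + k, e4, by omega⟩)
          (Pool.H68.MB.LR.mem_ap.2 ⟨i' + l, e3, by omega⟩)
        omega
      · have e5 : l ≤ i' := by
          by_contra hh
          have := Nat.mul_le_mul_right d' (show i' ≤ l by omega)
          rw [mul_comm l d', ← hl] at this
          omega
        have e6 : k ≤ i := by
          by_contra hh
          have h7 := Nat.mul_le_mul_right dH (show i + 1 ≤ k by omega)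
          rw [mul_comm k dH, ← hk, add_mul, one_mul] at h7
          omega
        have e1 : (i' - l) * d' = i' * d' - L := by rw [Nat.sub_mul, hl, mul_comm l d']
        have e2 : (i - k) * dH = i * dH - L := by rw [Nat.sub_mul, hk, mul_comm k dH]
        have := h4 (x - L) (Pool.H68.MB.LR.mem_ap.2 ⟨i - k, by omega, by omega⟩)
          (Pool.H68.MB.LR.mem_ap.2 ⟨i' - l, by omega, by
            have : L ≤ i' * d' := by
              have := Nat.mul_le_mul_right d' e5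
              rw [mul_comm l d', ← hl] at this
              exact this
            omega⟩)
        omega
    have h2 : S ⊆ S.filter (fun x => aH + (q - 1) * dH < x + L) ∪
        S.filter (fun x => x < aH + L) := by
      intro x hx
      rw [mem_union, mem_filter, mem_filter]
      rcases h1 x hx with h | h
      · exact Or.inl ⟨hx, h⟩
      · exact Or.inr ⟨hx, h⟩
    have hup : ∀ x ∈ S, aH ≤ x ∧ x ≤ aH + (q - 1) * dH := by
      intro x hx
      obtain ⟨a', -, h2, -⟩ := hS x hx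
      rw [Pool.H68.MB.LR.mem_ap] at h2
      obtain ⟨i, hi, hxi⟩ := h2
      have := Nat.mul_le_mul_right dH (show i ≤ q - 1 by omega)
      omega
    have c1 : #(S.filter (fun x => aH + (q - 1) * dH < x + L)) ≤ 1 := by
      rw [card_le_one]
      intro x hx y hy
      rw [mem_filter] at hx hy
      have u1 := hup x hx.1
      have u2 := hup y hy.1
      rcases lt_trichotomy x y with h | h | h
      · have := hdvd x hx.1 y hy.1 h
        omega
      · exact h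
      · have := hdvd y hy.1 x hx.1 h
        omega
    have c2 : #(S.filter (fun x => x < aH + L)) ≤ 1 := by
      rw [card_le_one]
      intro x hx y hy
      rw [mem_filter] at hx hy
      have u1 := hup x hx.1
      have u2 := hup y hy.1
      rcases lt_trichotomy x y with h | h | h
      · have := hdvd x hx.1 y hy.1 h
        omega
      · exact h
      · have := hdvd y hy.1 x hx.1 h
        omega
    have h3 := (card_le_card h2).trans (card_union_le _ _)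
    omega
  · have hb : ∀ x ∈ S, a ≤ x + (q - 1) * d' ∧
        x + (q - 1) * d' - a ≤ (C + 2) * ((q - 1) * d') := by
      intro x hx
      obtain ⟨a', -, -, h3, -, h5, h6⟩ := hS x hx
      rw [Pool.H68.MB.LR.mem_ap] at h3
      obtain ⟨i', hi', hxi'⟩ := h3
      have e1 := Nat.mul_le_mul_right d' (show i' ≤ q - 1 by omega)
      have e2 := Nat.mul_le_mul_left (q - 1) hC
      have e3 : (q - 1) * (C * d') = C * ((q - 1) * d') := by ring
      have e4 : (C + 2) * ((q - 1) * d') = C * ((q - 1) * d') + 2 * ((q - 1) * d') := by ring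
      omega
    have h1 : #S ≤ #(range (2 * (C + 2))) := by
      refine card_le_card_of_injOn (fun x => (x + (q - 1) * d' - a) / L) ?_ ?_
      · intro x hx
        rw [mem_coe, mem_range]
        simp only
        rw [Nat.div_lt_iff_lt_mul hLpos]
        have e1 := (hb x hx).2
        have e2 : (C + 2) * ((q - 1) * d') < (C + 2) * (2 * L) :=
          Nat.mul_lt_mul_of_pos_left (by omega) (by omega)
        have e3 : 2 * (C + 2) * L = (C + 2) * (2 * L) := by ring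
        omega
      · intro x hx y hy hxy
        simp only at hxy
        have key : ∀ x ∈ S, ∀ y ∈ S, x < y →
            (x + (q - 1) * d' - a) / L < (y + (q - 1) * d' - a) / L := by
          intro x hx y hy h
          have h2 := hdvd x hx y hy h
          have h3 := (hb x hx).1
          calc (x + (q - 1) * d' - a) / L < (x + (q - 1) * d' - a) / L + 1 := Nat.lt_succ_self _
            _ = ((x + (q - 1) * d' - a) + L) / L := (Nat.add_div_right _ hLpos).symm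
            _ ≤ (y + (q - 1) * d' - a) / L := Nat.div_le_div_right (by omega)
        rcases lt_trichotomy x y with h | h | h
        · have := key x hx y hy h
          omega
        · exact h
        · have := key y hy x hx h
          omega
    rw [card_range] at h1
    omega

theorem fam_hits {N q t1 : ℕ} {ζ : ℝ} (hq : 2 ≤ q) (hζ : 0 < ζ) (hζq : 2 ≤ ζ * q)
    (ht : ζ * (q : ℝ) ^ 2 ≤ t1 + 1) {H D : Finset (ℕ × ℕ)} (hH : H ∈ coreFam N q 1)
    (hD : D ∈ coreFam N q 1) :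
    #(H.filter (fun v => ∃ T ∈ coreFam N q 1, (grq q H ≠ grq q T ∧ #(H ∩ T) = 1) ∧ v ∈ T ∧
      t1 < #(D ∩ T))) ≤ (⌊2 / ζ⌋₊ + 1) ^ 4 * (2 * ⌊2 / ζ⌋₊ + 5) ^ 2 := by
  obtain ⟨𝒢, hG1, hG2⟩ := close_grids hq hζ hζq ht hD
  obtain ⟨a, b, d, hd, hDe, hDg⟩ := lth_grq hq hD
  obtain ⟨aH, bH, dH, hdH, hHe, -⟩ := lth_grq hq hH
  obtain ⟨F, hF⟩ : ∃ F : ℕ × ℕ × ℕ → Finset (ℕ × ℕ), ∀ g, F g = H.filter (fun v =>
    ∃ T ∈ coreFam N q 1, grq q T = g ∧ #(H ∩ T) = 1 ∧ v ∈ T ∧ t1 < #(D ∩ T)) :=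
    ⟨_, fun _ => rfl⟩
  have hsub : H.filter (fun v => ∃ T ∈ coreFam N q 1, (grq q H ≠ grq q T ∧ #(H ∩ T) = 1) ∧
      v ∈ T ∧ t1 < #(D ∩ T)) ⊆ 𝒢.biUnion F := by
    intro v hv
    rw [mem_filter] at hv
    obtain ⟨h1, T, hT, ⟨-, h2⟩, h3, h4⟩ := hv
    rw [mem_biUnion]
    refine ⟨grq q T, (hG2 T hT h4).1, ?_⟩
    rw [hF, mem_filter]
    exact ⟨h1, T, hT, rfl, h2, h3, h4⟩
  refine (card_le_card hsub).trans ((card_biUnion_le_card_mul _ _
    ((2 * ⌊2 / ζ⌋₊ + 5) ^ 2) ?_).trans (Nat.mul_le_mul_right _ hG1))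
  intro g hg
  by_cases hne : (F g).Nonempty
  swap
  · rw [not_nonempty_iff_eq_empty] at hne
    rw [hne, card_empty]
    exact Nat.zero_le _
  obtain ⟨v0, hv0⟩ := hne
  have hinfo : ∀ v ∈ F g, ∃ a' b', a' % g.2.2 = g.1 ∧ b' % g.2.2 = g.2.1 ∧ 1 ≤ g.2.2 ∧
      d ≤ ⌊2 / ζ⌋₊ * g.2.2 ∧ v ∈ lat q aH bH dH ∧ v ∈ lat q a' b' g.2.2 ∧
      #(lat q aH bH dH ∩ lat q a' b' g.2.2) = 1 ∧
      t1 < #(lat q a b d ∩ lat q a' b' g.2.2) := by
    intro v hv
    rw [hF, mem_filter] at hv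
    obtain ⟨h1, T, hT, h2, h3, h4, h5⟩ := hv
    obtain ⟨a', b', d', hd', hTe, hTg⟩ := lth_grq hq hT
    have h6 := (hG2 T hT h5).2
    rw [h2, hDg] at h6
    rw [h2] at hTg
    have e : g.2.2 = d' := by rw [hTg]
    refine ⟨a', b', by rw [hTg], by rw [hTg], by omega, h6, by rw [← hHe]; exact h1, ?_, ?_, ?_⟩
    · rw [e, ← hTe]; exact h4
    · rw [e, ← hTe, ← hHe]; exact h3
    · rw [e, ← hTe, ← hDe]; exact h5
  obtain ⟨-, -, -, -, hd'1, hdC, -⟩ := hinfo v0 hv0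
  have hS1 : #((F g).image Prod.fst) ≤ 2 * ⌊2 / ζ⌋₊ + 5 := by
    refine hits_one (aH := aH) (dH := dH) (a := a) (d := d) (x0 := g.1) (d' := g.2.2) hq hdH
      hd'1 hdC _ ?_
    intro x hx
    rw [mem_image] at hx
    obtain ⟨v, hv, rfl⟩ := hx
    obtain ⟨a', b', h1, h2, -, -, h3, h4, h5, h6⟩ := hinfo v hv
    obtain ⟨-, -, -, -, -, -, -, ⟨i, i', hi, hi', e1⟩, -⟩ :=
      lth_close hq hζ hζq ht hd hd'1 h6
    obtain ⟨k, l, hk, hl, e2⟩ := Pool.H68.MB.Lt.mem_lat.1 h3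
    obtain ⟨k', l', hk', hl', e3⟩ := Pool.H68.MB.Lt.mem_lat.1 h4
    refine ⟨a', h1, Pool.H68.MB.LR.mem_ap.2 ⟨k, hk, by rw [e2]⟩, Pool.H68.MB.LR.mem_ap.2 ⟨k', hk', by rw [e3]⟩, ?_, ?_, ?_⟩
    · intro z hz hz'
      rw [Pool.H68.MB.LR.mem_ap] at hz hz'
      obtain ⟨m, hm, hzm⟩ := hz
      obtain ⟨m', hm', hzm'⟩ := hz'
      have z1 : (z, v.2) ∈ lat q aH bH dH ∩ lat q a' b' g.2.2 := by
        rw [mem_inter]
        constructor
        · exact Pool.H68.MB.Lt.mem_lat.2 ⟨m, l, hm, hl, Prod.ext hzm (by rw [e2])⟩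
        · exact Pool.H68.MB.Lt.mem_lat.2 ⟨m', l', hm', hl', Prod.ext hzm' (by rw [e3])⟩
      have z2 : v ∈ lat q aH bH dH ∩ lat q a' b' g.2.2 := mem_inter.2 ⟨h3, h4⟩
      have z3 := card_le_one.1 h5.le _ z1 _ z2
      exact congrArg Prod.fst z3
    · have := Nat.mul_le_mul_right g.2.2 (show i' ≤ q - 1 by omega)
      omega
    · have := Nat.mul_le_mul_right d (show i ≤ q - 1 by omega)
      omega
  have hS2 : #((F g).image Prod.snd) ≤ 2 * ⌊2 / ζ⌋₊ + 5 := by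
    refine hits_one (aH := bH) (dH := dH) (a := b) (d := d) (x0 := g.2.1) (d' := g.2.2) hq hdH
      hd'1 hdC _ ?_
    intro x hx
    rw [mem_image] at hx
    obtain ⟨v, hv, rfl⟩ := hx
    obtain ⟨a', b', h1, h2, -, -, h3, h4, h5, h6⟩ := hinfo v hv
    obtain ⟨-, -, -, -, -, -, -, -, ⟨i, i', hi, hi', e1⟩⟩ :=
      lth_close hq hζ hζq ht hd hd'1 h6
    obtain ⟨l, k, hl, hk, e2⟩ := Pool.H68.MB.Lt.mem_lat.1 h3
    obtain ⟨l', k', hl', hk', e3⟩ := Pool.H68.MB.Lt.mem_lat.1 h4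
    refine ⟨b', h2, Pool.H68.MB.LR.mem_ap.2 ⟨k, hk, by rw [e2]⟩, Pool.H68.MB.LR.mem_ap.2 ⟨k', hk', by rw [e3]⟩, ?_, ?_, ?_⟩
    · intro z hz hz'
      rw [Pool.H68.MB.LR.mem_ap] at hz hz'
      obtain ⟨m, hm, hzm⟩ := hz
      obtain ⟨m', hm', hzm'⟩ := hz'
      have z1 : (v.1, z) ∈ lat q aH bH dH ∩ lat q a' b' g.2.2 := by
        rw [mem_inter]
        constructor
        · exact Pool.H68.MB.Lt.mem_lat.2 ⟨l, m, hl, hm, Prod.ext (by rw [e2]) hzm⟩
        · exact Pool.H68.MB.Lt.mem_lat.2 ⟨l', m', hl', hm', Prod.ext (by rw [e3]) hzm'⟩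
      have z2 : v ∈ lat q aH bH dH ∩ lat q a' b' g.2.2 := mem_inter.2 ⟨h3, h4⟩
      have z3 := card_le_one.1 h5.le _ z1 _ z2
      exact congrArg Prod.snd z3
    · have := Nat.mul_le_mul_right g.2.2 (show i' ≤ q - 1 by omega)
      omega
    · have := Nat.mul_le_mul_right d (show i ≤ q - 1 by omega)
      omega
  have hsub2 : F g ⊆ (F g).image Prod.fst ×ˢ (F g).image Prod.snd := by
    intro v hv
    rw [mem_product]
    exact ⟨mem_image_of_mem _ hv, mem_image_of_mem _ hv⟩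
  have h1 := card_le_card hsub2
  rw [card_product] at h1
  rw [sq]
  exact h1.trans (Nat.mul_le_mul hS1 hS2)

/-- One coordinate of `fam_cluster`. -/
theorem cluster_one {q C a d a' d' i i' k : ℕ} (hq : 2 ≤ q) (hd' : 1 ≤ d') (hC : d ≤ C * d')
    (hi : i < q) (hi' : i' < q) (hk : k < q) (h : a + i * d = a' + i' * d') :
    ∃ t < C + 3, ((a / d' : ℕ) : ℤ) - (q - 1) + t * q ≤ (((a' + k * d') / d' : ℕ) : ℤ) ∧
      (((a' + k * d') / d' : ℕ) : ℤ) < ((a / d' : ℕ) : ℤ) - (q - 1) + t * q + q := by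
  have h1 : a / d' ≤ a' / d' + (q - 1) := by
    rw [← Nat.add_mul_div_right _ _ (show 0 < d' by omega)]
    refine Nat.div_le_div_right ?_
    have := Nat.mul_le_mul_right d' (show i' ≤ q - 1 by omega)
    omega
  have h2 : a' / d' ≤ a / d' + (q - 1) * C := by
    rw [← Nat.add_mul_div_right _ _ (show 0 < d' by omega)]
    refine Nat.div_le_div_right ?_
    have e1 := Nat.mul_le_mul (show i ≤ q - 1 by omega) hC
    rw [← mul_assoc] at e1
    omega
  have h3 : (a' + k * d') / d' = a' / d' + k := Nat.add_mul_div_right _ _ (by omega)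
  rw [h3]
  generalize a' / d' = u at h1 h2
  generalize a / d' = w at h1 h2
  obtain ⟨n, hn⟩ : ∃ n, u + k + (q - 1) = w + n := ⟨u + k + (q - 1) - w, by omega⟩
  refine ⟨n / q, ?_, ?_, ?_⟩
  · rw [Nat.div_lt_iff_lt_mul (by omega)]
    have e1 : n ≤ (q - 1) * C + (q - 1) + (q - 1) := by omega
    have e2 : (q - 1) * C ≤ q * C := Nat.mul_le_mul_right _ (by omega)
    have e3 : (C + 3) * q = q * C + 3 * q := by ring
    omega
  · have e1 := Nat.div_mul_le_self n q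
    have e2 : ((n / q : ℕ) : ℤ) * q ≤ n := by exact_mod_cast e1
    have e3 : ((q - 1 : ℕ) : ℤ) = (q : ℤ) - 1 := by
      rw [Nat.cast_sub (by omega)]; simp
    have e4 : (u : ℤ) + k + ((q : ℤ) - 1) = w + n := by
      rw [← e3]; exact_mod_cast hn
    push_cast
    linarith
  · have e1 : n < n / q * q + q := Nat.lt_div_mul_add (by omega)
    have e2 : (n : ℤ) < ((n / q : ℕ) : ℤ) * q + q := by exact_mod_cast e1
    have e3 : ((q - 1 : ℕ) : ℤ) = (q : ℤ) - 1 := by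
      rw [Nat.cast_sub (by omega)]; simp
    have e4 : (u : ℤ) + k + ((q : ℤ) - 1) = w + n := by
      rw [← e3]; exact_mod_cast hn
    push_cast
    linarith

theorem fam_cluster {N q t1 : ℕ} {ζ : ℝ} (hq : 2 ≤ q) (hζ : 0 < ζ) (hζq : 2 ≤ ζ * q)
    (ht : ζ * (q : ℝ) ^ 2 ≤ t1 + 1) {D : Finset (ℕ × ℕ)} (hD : D ∈ coreFam N q 1) :
    ∃ 𝒞 : Finset ((ℕ × ℕ × ℕ) × (ℤ × ℤ)), #𝒞 ≤ (⌊2 / ζ⌋₊ + 1) ^ 4 * (⌊2 / ζ⌋₊ + 3) ^ 2 ∧
      ∀ T ∈ coreFam N q 1, t1 < #(D ∩ T) → ∀ y ∈ T, ∃ c ∈ 𝒞, c.1 = grq q T ∧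
        crd c.1.2.2 y ∈ Gk.cell q c.2 := by
  obtain ⟨𝒢, hG1, hG2⟩ := close_grids hq hζ hζq ht hD
  obtain ⟨a, b, d, hd, hDe, hDg⟩ := lth_grq hq hD
  set C := ⌊2 / ζ⌋₊ with hC
  refine ⟨(𝒢 ×ˢ (range (C + 3) ×ˢ range (C + 3))).image (fun t => (t.1,
    (((a / t.1.2.2 : ℕ) : ℤ) - (q - 1) + t.2.1 * q,
      ((b / t.1.2.2 : ℕ) : ℤ) - (q - 1) + t.2.2 * q))), ?_, ?_⟩
  · refine card_image_le.trans ?_
    rw [card_product, card_product, card_range, sq]
    exact Nat.mul_le_mul_right _ hG1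
  · intro T hT hDT y hy
    obtain ⟨a', b', d', hd', hTe, hTg⟩ := lth_grq hq hT
    have h6 := hG2 T hT hDT
    rw [hTg, hDg] at h6
    simp only at h6
    rw [hTe] at hy
    rw [hDe, hTe] at hDT
    obtain ⟨-, -, -, -, -, -, -, ⟨i, i', hi, hi', e1⟩, ⟨j, j', hj, hj', e2⟩⟩ :=
      lth_close hq hζ hζq ht hd hd' hDT
    obtain ⟨k, l, hk, hl, rfl⟩ := Pool.H68.MB.Lt.mem_lat.1 hy
    obtain ⟨s, hs, s1, s2⟩ := cluster_one hq hd' h6.2 hi hi' hk e1
    obtain ⟨t, ht', t1', t2'⟩ := cluster_one hq hd' h6.2 hj hj' hl e2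
    refine ⟨((a' % d', b' % d', d'), (((a / d' : ℕ) : ℤ) - (q - 1) + s * q,
      ((b / d' : ℕ) : ℤ) - (q - 1) + t * q)), ?_, ?_, ?_⟩
    · rw [mem_image]
      exact ⟨((a' % d', b' % d', d'), (s, t)), mem_product.2 ⟨h6.1,
        mem_product.2 ⟨mem_range.2 hs, mem_range.2 ht'⟩⟩, rfl⟩
    · rw [hTg]
    · unfold crd Gk.cell
      rw [mem_product, mem_Ico, mem_Ico]
      exact ⟨⟨s1, s2⟩, ⟨t1', t2'⟩⟩

end Pool.H33.MB2
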