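import Pool.Agent.H33.MB2.Hyp
import Pool.Agent.H33.MB2.GkMain
import Pool.Agent.H33.MB2.LtHits

/-!
# The lattice game satisfies the abstract hypotheses
-/

set_option linter.unusedSectionVars false

namespace Pool.H33.MB2

open Finset
open scoped Classical
open Pool.H68.MB (lat board coreFam core_sub core_card core_deg core_codeg)

/-- The points of `M` in the grid `g`. -/
noncomputable def gridM (g : ℕ × ℕ × ℕ) (M : Finset (ℕ × ℕ)) : Finset (ℤ × ℤ) :=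
  (M.filter (inG g)).image (crd g.2.2)

/-- The log of the grid `g`. -/
noncomputable def gridL (q : ℕ) (g : ℕ × ℕ × ℕ) (lg : List (Entry (ℕ × ℕ))) : List Gk.GE :=
  (lg.filter (fun e => decide (grq q e.T = g))).map
    (fun e => ⟨crd g.2.2 e.y, posq q e.T, crd g.2.2 e.x⟩)

/-- The windows of the grid `g`. -/
noncomputable def Wnd (N q : ℕ) (g : ℕ × ℕ × ℕ) : Finset (ℤ × ℤ) :=
  ((coreFam N q 1).filter (fun A => grq q A = g)).image (posq q)

/-- The admissible logs. -/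
def LgOK (N q : ℕ) (P : Gk.GP) (lg : List (Entry (ℕ × ℕ))) (M B : Finset (ℕ × ℕ)) : Prop :=
  (∀ e ∈ lg, e.T ∈ coreFam N q 1 ∧ e.y ∈ e.T) ∧
    ∀ g, Gk.GOK P (Wnd N q g) (gridL q g lg) (gridM g M) (gridM g B)

theorem mem_gridM {g : ℕ × ℕ × ℕ} {M : Finset (ℕ × ℕ)} {p : ℕ × ℕ} (hp : inG g p) :
    crd g.2.2 p ∈ gridM g M ↔ p ∈ M := by
  unfold gridM
  rw [mem_image]
  constructor
  · rintro ⟨p', h1, h2⟩
    rw [mem_filter] at h1
    rw [← crd_inj h1.2 hp h2]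
    exact h1.1
  · intro h
    exact ⟨p, mem_filter.2 ⟨h, hp⟩, rfl⟩

theorem gridM_mono {g : ℕ × ℕ × ℕ} {M M' : Finset (ℕ × ℕ)} (h : M ⊆ M') :
    gridM g M ⊆ gridM g M' :=
  image_subset_image (filter_subset_filter _ h)

theorem gridM_disj {g : ℕ × ℕ × ℕ} {M B : Finset (ℕ × ℕ)} (h : Disjoint M B) :
    Disjoint (gridM g M) (gridM g B) := by
  rw [disjoint_left]
  intro v hv hv'
  unfold gridM at hv
  rw [mem_image] at hv
  obtain ⟨p, hp, rfl⟩ := hv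
  rw [mem_filter] at hp
  exact disjoint_left.1 h hp.1 ((mem_gridM hp.2).1 hv')

theorem gridM_insert {g : ℕ × ℕ × ℕ} {B : Finset (ℕ × ℕ)} {x : ℕ × ℕ} (hx : inG g x) :
    gridM g (insert x B) = insert (crd g.2.2 x) (gridM g B) := by
  unfold gridM
  rw [filter_insert, if_pos hx, image_insert]

variable {N q : ℕ}

theorem cell_surj (hq : 2 ≤ q) {A : Finset (ℕ × ℕ)} (hA : A ∈ coreFam N q 1) {x' : ℤ × ℤ}
    (hx : x' ∈ Gk.cell q (posq q A)) : ∃ x ∈ A, crd (grq q A).2.2 x = x' := by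
  obtain ⟨a, b, d, hd, hAe, hp⟩ := fam_par hq hA
  unfold Gk.cell at hx
  simp only [posq, hp, mem_product, mem_Ico] at hx
  obtain ⟨⟨h1, h2⟩, h3, h4⟩ := hx
  have e1 : ∃ i : ℕ, x'.1 = (a / d : ℕ) + i ∧ i < q := ⟨(x'.1 - (a / d : ℕ)).toNat, by omega, by omega⟩
  have e2 : ∃ j : ℕ, x'.2 = (b / d : ℕ) + j ∧ j < q := ⟨(x'.2 - (b / d : ℕ)).toNat, by omega, by omega⟩
  obtain ⟨i, hi, hi'⟩ := e1
  obtain ⟨j, hj, hj'⟩ := e2
  refine ⟨(a + i * d, b + j * d), ?_, ?_⟩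
  · rw [hAe]
    exact Pool.H68.MB.Lt.mem_lat.2 ⟨i, j, hi', hj', rfl⟩
  · unfold crd grq
    rw [hp]
    simp only [Nat.add_mul_div_right _ _ (show 0 < d by omega)]
    ext
    · simp only
      rw [hi]
      push_cast
      ring
    · simp only
      rw [hj]
      push_cast
      ring

theorem cell_disj (hq : 2 ≤ q) {A B : Finset (ℕ × ℕ)} (hA : A ∈ coreFam N q 1)
    (h : Disjoint A B) : Disjoint (Gk.cell q (posq q A)) (gridM (grq q A) B) := by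
  rw [disjoint_left]
  intro v hv hv'
  unfold gridM at hv'
  rw [mem_image] at hv'
  obtain ⟨p, hp, rfl⟩ := hv'
  rw [mem_filter] at hp
  exact disjoint_left.1 h ((fam_mem hq hA).2 ⟨hp.2, hv⟩) hp.1

theorem countP_le_sum {α ι : Type*} (lg : List α) (p : α → Prop) [DecidablePred p] (S : Finset ι)
    (f : ι → α → Prop) [∀ i, DecidablePred (f i)] (h : ∀ e ∈ lg, p e → ∃ i ∈ S, f i e) :
    lg.countP (fun e => decide (p e)) ≤ ∑ i ∈ S, lg.countP (fun e => decide (f i e)) := by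
  induction lg with
  | nil => simp
  | cons e lg ih =>
    have h1 := ih (fun e he => h e (List.mem_cons_of_mem _ he))
    simp only [List.countP_cons]
    rw [sum_add_distrib]
    refine Nat.add_le_add h1 ?_
    by_cases hp : p e
    · obtain ⟨i, hi, hf⟩ := h e (by simp) hp
      have h2 : (if decide (f i e) = true then 1 else 0) ≤
          ∑ i ∈ S, (if decide (f i e) = true then 1 else 0) :=
        single_le_sum (f := fun i => if decide (f i e) = true then 1 else 0)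
          (fun _ _ => Nat.zero_le _) hi
      simp only [hf, decide_true, if_true] at h2
      simp only [hp, decide_true, if_true]
      exact h2
    · simp [hp]

theorem countP_gridL (g : ℕ × ℕ × ℕ) (lg : List (Entry (ℕ × ℕ))) (c : ℤ × ℤ) (P : Gk.GP) :
    Gk.cnt P (gridL q g lg) c =
      lg.countP (fun e => decide (grq q e.T = g ∧ crd g.2.2 e.y ∈ Gk.cell P.q c)) := by
  unfold Gk.cnt gridL
  rw [List.countP_map, List.countP_filter]
  refine List.countP_congr ?_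
  intro e _
  simp [and_comm]

/-- The bound for the number of logged points in a cell. -/
def cellB (P : Gk.GP) (r : ℕ) : ℕ :=
  (2 * P.q / (P.D0 + 1) + 1) ^ 2 + 8 * (P.q / r + 1) * (P.bs + 4 * P.D0 * P.q + 1 + r ^ 2)

/-- The lattice system. -/
noncomputable def LS (N q : ℕ) (P : Par) : Sys (ℕ × ℕ) (ℕ × ℕ × ℕ) :=
  { P with S := board N, F := coreFam N q 1, gr := grq q }

theorem geoH_lat {P : Par} {GP : Gk.GP} {η ζ : ℝ} {S r : ℕ} (hq : 2 ≤ q) (H : Gk.GH GP η S)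
    (hGq : GP.q = q) (hr : 1 ≤ r) (hζ : 0 < ζ) (hζq : 2 ≤ ζ * q)
    (ht : ζ * (q : ℝ) ^ 2 ≤ P.t1 + 1) (hbs : P.bs = GP.bs)
    (hcA : (⌊2 / ζ⌋₊ + 1) ^ 4 * (⌊2 / ζ⌋₊ + 3) ^ 2 * cellB GP r ≤ P.cA) :
    GeoH (LS N q P) (LgOK N q GP) := by
  subst hGq
  refine ⟨?_, ?_, ?_, ?_, ?_⟩
  · refine ⟨by simp, fun g => ?_⟩
    have h1 : gridL GP.q g [] = [] := rfl
    have h2 : gridM g ∅ = ∅ := by simp [gridM]
    rw [h1, h2]
    exact Gk.gk_nil H _
  · rintro lg M B M' B' ⟨h1, h2⟩ hM hB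
    exact ⟨h1, fun g => Gk.gk_mono H (h2 g) (gridM_mono hM) (gridM_mono hB)⟩
  · rintro lg M B M' y T ⟨h1, h2⟩ hM hMS hMB hy hy' hT hyT hTB hne
    have hT' : T ∈ coreFam N GP.q 1 := hT
    have hyG := (fam_mem hq hT').1 hyT
    set g := grq GP.q T with hg
    have hTW : posq GP.q T ∈ Wnd N GP.q g := mem_image_of_mem _ (mem_filter.2 ⟨hT', hg.symm⟩)
    obtain ⟨x', ⟨w, hw, hxw⟩, hxM, hxB, hok⟩ := Gk.gk_rep H (h2 g) (M' := gridM g M')
      (gridM_mono hM) (gridM_disj hMB) ((mem_gridM hyG.1).2 hy)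
      (fun h => hy' ((mem_gridM hyG.1).1 h)) hTW hyG.2 (cell_disj hq hT' hTB) (by
        obtain ⟨p, hp⟩ := hne
        rw [mem_sdiff] at hp
        have hpG := (fam_mem hq hT').1 hp.1
        exact ⟨crd g.2.2 p, mem_sdiff.2 ⟨hpG.2, fun h => hp.2 ((mem_gridM hpG.1).1 h)⟩⟩)
    obtain ⟨A, hA, rfl⟩ := mem_image.1 hw
    rw [mem_filter] at hA
    obtain ⟨hA, hAg⟩ := hA
    obtain ⟨x, hxA, hxx⟩ := cell_surj hq hA hxw
    rw [hAg] at hxx
    have hxG : inG g x := by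
      rw [← hAg]
      exact ((fam_mem hq hA).1 hxA).1
    subst hxx
    rw [mem_gridM hxG] at hxM hxB
    refine ⟨x, mem_sdiff.2 ⟨core_sub hA hxA, ?_⟩, ?_, ?_⟩
    · rw [mem_union, not_or]
      exact ⟨hxM, hxB⟩
    · intro e he
      rcases List.mem_cons.1 he with rfl | he
      · exact ⟨hT', hyT⟩
      · exact h1 e he
    · intro g'
      by_cases hgg : g' = g
      · subst hgg
        have e1 : gridL GP.q g (⟨y, T, x⟩ :: lg) =
            ⟨crd g.2.2 y, posq GP.q T, crd g.2.2 x⟩ :: gridL GP.q g lg := by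
          unfold gridL
          rw [List.filter_cons_of_pos (by simp [hg]), List.map_cons]
        rw [e1, gridM_insert hxG]
        exact hok
      · have e1 : gridL GP.q g' (⟨y, T, x⟩ :: lg) = gridL GP.q g' lg := by
          unfold gridL
          rw [List.filter_cons_of_neg]
          simp only [decide_eq_true_eq]
          exact fun h => hgg h.symm
        rw [e1]
        exact Gk.gk_mono H (h2 g') (gridM_mono hM) (gridM_mono (subset_insert _ _))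
  · rintro lg M B ⟨h1, h2⟩ A hA hAB
    have hA' : A ∈ coreFam N GP.q 1 := hA
    have h3 := Gk.gk_os H (h2 (grq GP.q A)) (w := posq GP.q A)
      (mem_image_of_mem _ (mem_filter.2 ⟨hA', rfl⟩)) (cell_disj hq hA' hAB)
    rw [countP_gridL] at h3
    have h4 : (LS N GP.q P).bs = GP.bs := hbs
    rw [h4]
    refine le_trans (List.countP_mono_left ?_) h3
    intro e he hp
    simp only [decide_eq_true_eq] at hp ⊢
    have hgr : grq GP.q e.T = grq GP.q A := hp.2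
    exact ⟨hgr, ((fam_mem hq hA').1 hp.1).2⟩
  · rintro lg M B ⟨h1, h2⟩ A hA 𝒟 h𝒟 hc
    have hA' : A ∈ coreFam N GP.q 1 := hA
    have hex : ∀ D, ∃ 𝒞 : Finset ((ℕ × ℕ × ℕ) × (ℤ × ℤ)), D ∈ coreFam N GP.q 1 →
        #𝒞 ≤ (⌊2 / ζ⌋₊ + 1) ^ 4 * (⌊2 / ζ⌋₊ + 3) ^ 2 ∧
        ∀ T ∈ coreFam N GP.q 1, P.t1 < #(D ∩ T) → ∀ y ∈ T, ∃ c ∈ 𝒞, c.1 = grq GP.q T ∧
          crd c.1.2.2 y ∈ Gk.cell GP.q c.2 := by
      intro D
      by_cases hD : D ∈ coreFam N GP.q 1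
      · obtain ⟨𝒞, h⟩ := fam_cluster hq hζ hζq ht hD
        exact ⟨𝒞, fun _ => h⟩
      · exact ⟨∅, fun h => absurd h hD⟩
    choose 𝒞 h𝒞 using hex
    have h3 : lg.countP (fun e => decide (e.y ∈ A ∧ arith (LS N GP.q P) e.T A)) ≤
        ∑ x ∈ 𝒟.sigma (fun D => 𝒞 D), lg.countP (fun e => decide (grq GP.q e.T = x.2.1 ∧
          crd x.2.1.2.2 e.y ∈ Gk.cell GP.q x.2.2)) := by
      refine countP_le_sum lg _ _ (fun (x : Σ _ : Finset (ℕ × ℕ), (ℕ × ℕ × ℕ) × (ℤ × ℤ)) e =>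
        grq GP.q e.T = x.2.1 ∧ crd x.2.1.2.2 e.y ∈ Gk.cell GP.q x.2.2) ?_
      rintro e he ⟨hyA, har⟩
      obtain ⟨D, hD, hcl⟩ := hc e he hyA har
      obtain ⟨c, hcC, hc1, hc2⟩ := (h𝒞 D (h𝒟 hD)).2 e.T (h1 e he).1 hcl e.y (h1 e he).2
      exact ⟨⟨D, c⟩, mem_sigma.2 ⟨hD, hcC⟩, hc1.symm, hc2⟩
    refine h3.trans ?_
    have h4 : ∀ x ∈ 𝒟.sigma (fun D => 𝒞 D), lg.countP (fun e => decide (grq GP.q e.T = x.2.1 ∧
          crd x.2.1.2.2 e.y ∈ Gk.cell GP.q x.2.2)) ≤ cellB GP r := by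
      intro x _
      have := Gk.gk_cell H (h2 x.2.1) x.2.2 hr
      rw [countP_gridL] at this
      exact this
    refine (sum_le_card_nsmul _ _ _ h4).trans ?_
    rw [smul_eq_mul, card_sigma]
    have h5 : ∑ D ∈ 𝒟, #(𝒞 D) ≤ #𝒟 * ((⌊2 / ζ⌋₊ + 1) ^ 4 * (⌊2 / ζ⌋₊ + 3) ^ 2) := by
      refine (sum_le_card_nsmul _ _ _ fun D hD => (h𝒞 D (h𝒟 hD)).1).trans ?_
      rw [smul_eq_mul]
    calc (∑ D ∈ 𝒟, #(𝒞 D)) * cellB GP r
        ≤ #𝒟 * ((⌊2 / ζ⌋₊ + 1) ^ 4 * (⌊2 / ζ⌋₊ + 3) ^ 2) * cellB GP r := Nat.mul_le_mul_right _ h5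
      _ = #𝒟 * ((⌊2 / ζ⌋₊ + 1) ^ 4 * (⌊2 / ζ⌋₊ + 3) ^ 2 * cellB GP r) := by ring
      _ ≤ #𝒟 * (LS N GP.q P).cA := Nat.mul_le_mul_left _ hcA

theorem famH_lat {P : Par} {ζ : ℝ} (hq : 2 ≤ q) (hζ : 0 < ζ) (hζq : 2 ≤ ζ * q)
    (ht : ζ * (q : ℝ) ^ 2 ≤ P.t1 + 1) (hk : P.k = q ^ 2) (hD : P.D = N * q ^ 2)
    (hL : P.L = (q ^ 2) ^ 2) (hkap : P.kap = ((q + 1) / 2) ^ 2)
    (hcE : P.cE = (⌊2 / ζ⌋₊ + 1) ^ 4 * (2 * ⌊2 / ζ⌋₊ + 5) ^ 2) : FamH (LS N q P) := by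
  refine ⟨?_, ?_, ?_, ?_, ?_, ?_, ?_⟩
  · intro A hA
    exact core_sub hA
  · intro A hA
    exact (core_card hA).trans hk.symm
  · intro p
    exact (core_deg N q 1 p).trans (le_of_eq hD.symm)
  · intro p p' hp
    exact (core_codeg N q 1 hp).trans (le_of_eq hL.symm)
  · intro p A _
    have h := (fam_ownc (N := N) hq p A).trans (le_of_eq hk.symm)
    refine le_trans (le_of_eq ?_) h
    congr 1
    refine filter_congr_decidable _ _ _ |>.trans ?_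
    rfl
  · intro A hA C hC h
    exact (fam_kap hq hA hC h).trans (le_of_eq hkap.symm)
  · intro H hH D hD'
    refine le_trans (card_le_card ?_) ((fam_hits hq hζ hζq ht hH hD').trans (le_of_eq hcE.symm))
    intro v hv
    rw [mem_filter] at hv ⊢
    exact hv

end Pool.H33.MB2
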