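import Pool.Agent.H33.MB2.GkDefs

/-!
# Parameters of the reply strategy

For `q = a^20`, `a` large, take `D0 = ⌈a^18⌉`, `S = ⌈16 a^8⌉`, `η = a^(-12)`, `lam = 1 + η/2`, `Gm = ⌈a^13⌉`, `us = 4 S^2`,
`bs = Gm + 1 + us + (2 q/(D0+1) + 1)^2 ≤ 2000 a^16`, `r = ⌈a^19⌉`, `cellv ≤ 40000 a^39`.
-/

namespace Pool.H33.MB2.Gk

open Real

/-- The bound for the number of logged points in a cell. -/
def cellv (P : GP) (r : ℕ) : ℕ :=
  (2 * P.q / (P.D0 + 1) + 1) ^ 2 + 8 * (P.q / r + 1) * (P.bs + 4 * P.D0 * P.q + 1 + r ^ 2)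

/-- The bounds for given `a = q^(1/20)`. -/
theorem gk_at {q : ℕ} {a c : ℝ} (ha : 2 ≤ a) (hq : (q : ℝ) = a ^ 20)
    (h48 : log 48 + 40 * log a < a / 4) {σ1 σ2 C C1 : ℝ} (hC : 1 ≤ C) (hC1 : 0 ≤ C1)
    (hc0 : 0 < c) (hc1 : 2000 * c ≤ σ1 * a ^ 3) (hc2 : (2000 + 40000 * C1) * c ≤ σ2)
    (hlog : log (C * q) ≤ c * a) :
    ∃ (P : GP) (η : ℝ) (S r : ℕ), GH P η S ∧ P.q = q ∧ 1 ≤ r ∧
      (P.bs : ℝ) * log (C * q) ≤ σ1 * q ∧
      ((P.bs : ℝ) + C1 * cellv P r) * log (C * q) ≤ σ2 * (q : ℝ) ^ 2 := by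
  have ha0 : 0 < a := by linarith
  have ha1 : 1 ≤ a := by linarith
  have hp : ∀ i j : ℕ, i ≤ j → a ^ i ≤ a ^ j := fun i j h => pow_le_pow_right₀ ha1 h
  have hp1 : ∀ i : ℕ, 1 ≤ a ^ i := fun i => one_le_pow₀ ha1
  set S : ℕ := ⌈16 * a ^ 8⌉₊ with hS
  set D0 : ℕ := ⌈a ^ 18⌉₊ with hD0
  set Gm : ℕ := ⌈a ^ 13⌉₊ with hGm
  set r : ℕ := ⌈a ^ 19⌉₊ with hr
  set bs : ℕ := Gm + 1 + 4 * S ^ 2 + (2 * q / (D0 + 1) + 1) ^ 2 with hbs
  have hSl : 16 * a ^ 8 ≤ S := Nat.le_ceil _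
  have hSu : (S : ℝ) ≤ 17 * a ^ 8 := by
    have h1 : (S : ℝ) < 16 * a ^ 8 + 1 := Nat.ceil_lt_add_one (by positivity)
    linarith [hp1 8]
  have hDl : a ^ 18 ≤ D0 := Nat.le_ceil _
  have hDu : (D0 : ℝ) ≤ 2 * a ^ 18 := by
    have h1 : (D0 : ℝ) < a ^ 18 + 1 := Nat.ceil_lt_add_one (by positivity)
    linarith [hp1 18]
  have hGl : a ^ 13 ≤ Gm := Nat.le_ceil _
  have hGu : (Gm : ℝ) ≤ a ^ 13 + 1 := (Nat.ceil_lt_add_one (by positivity)).le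
  have hrl : a ^ 19 ≤ r := Nat.le_ceil _
  have hru : (r : ℝ) ≤ 2 * a ^ 19 := by
    have h1 : (r : ℝ) < a ^ 19 + 1 := Nat.ceil_lt_add_one (by positivity)
    linarith [hp1 19]
  have hdiv1 : ((2 * q / (D0 + 1) : ℕ) : ℝ) ≤ 2 * a ^ 2 := by
    have h1 := @Nat.cast_div_le ℝ _ _ _ (2 * q) (D0 + 1)
    push_cast at h1
    refine h1.trans ?_
    rw [div_le_iff₀ (by positivity), hq]
    calc 2 * a ^ 20 = 2 * a ^ 2 * a ^ 18 := by ring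
      _ ≤ 2 * a ^ 2 * ((D0 : ℝ) + 1) := by
        have : a ^ 18 ≤ (D0 : ℝ) + 1 := by linarith
        gcongr
  have hdiv2 : ((q / r : ℕ) : ℝ) ≤ a := by
    have h1 := @Nat.cast_div_le ℝ _ _ _ q r
    refine h1.trans ?_
    have hr0 : (0 : ℝ) < r := lt_of_lt_of_le (by positivity) hrl
    rw [div_le_iff₀ hr0, hq]
    calc a ^ 20 = a * a ^ 19 := by ring
      _ ≤ a * r := by gcongr
  have hsq1 : (((2 * q / (D0 + 1) : ℕ) : ℝ) + 1) ^ 2 ≤ 9 * a ^ 4 := by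
    calc (((2 * q / (D0 + 1) : ℕ) : ℝ) + 1) ^ 2 ≤ (2 * a ^ 2 + a ^ 2) ^ 2 := by
          have := hp1 2
          gcongr
      _ = 9 * a ^ 4 := by ring
  have hS2 : (S : ℝ) ^ 2 ≤ 289 * a ^ 16 := by
    calc (S : ℝ) ^ 2 ≤ (17 * a ^ 8) ^ 2 := by gcongr
      _ = 289 * a ^ 16 := by ring
  have hbsu : (bs : ℝ) ≤ 2000 * a ^ 16 := by
    rw [hbs]
    push_cast
    have e1 := hp 13 16 (by norm_num)
    have e2 := hp 4 16 (by norm_num)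
    have e3 := hp1 16
    linarith
  have hr2 : (r : ℝ) ^ 2 ≤ 4 * a ^ 38 := by
    calc (r : ℝ) ^ 2 ≤ (2 * a ^ 19) ^ 2 := by gcongr
      _ = 4 * a ^ 38 := by ring
  let P : GP := ⟨q, D0, 4 * S ^ 2, Gm, bs, 1 + (a ^ 12)⁻¹ / 2⟩
  have hcell : (cellv P r : ℝ) ≤ 40000 * a ^ 39 := by
    have e0 : (cellv P r : ℝ) = (((2 * q / (D0 + 1) : ℕ) : ℝ) + 1) ^ 2 +
        8 * (((q / r : ℕ) : ℝ) + 1) * ((bs : ℝ) + 4 * D0 * q + 1 + (r : ℝ) ^ 2) := by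
      change ((((2 * q / (D0 + 1) + 1) ^ 2 + 8 * (q / r + 1) * (bs + 4 * D0 * q + 1 + r ^ 2) : ℕ)) : ℝ)
        = _
      push_cast
      ring
    rw [e0]
    have e1 : (D0 : ℝ) * q ≤ 2 * a ^ 38 := by
      rw [hq]
      calc (D0 : ℝ) * a ^ 20 ≤ 2 * a ^ 18 * a ^ 20 := by gcongr
        _ = 2 * a ^ 38 := by ring
    have e2 := hp 16 38 (by norm_num)
    have e3 := hp1 38
    have e4 : (bs : ℝ) + 4 * D0 * q + 1 + (r : ℝ) ^ 2 ≤ 2013 * a ^ 38 := by linarith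
    have e5 : 8 * (((q / r : ℕ) : ℝ) + 1) ≤ 16 * a := by linarith
    have e6 : 8 * (((q / r : ℕ) : ℝ) + 1) * ((bs : ℝ) + 4 * D0 * q + 1 + (r : ℝ) ^ 2) ≤
        16 * a * (2013 * a ^ 38) := by
      gcongr
    have e7 : 16 * a * (2013 * a ^ 38) = 32208 * a ^ 39 := by ring
    have e8 := hp 4 39 (by norm_num)
    linarith
  have hq1 : 1 ≤ q := by
    have : (1 : ℝ) ≤ q := by
      rw [hq]
      exact hp1 20
    exact_mod_cast this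
  have hlog0 : 0 ≤ log (C * q) := by
    apply Real.log_nonneg
    have : (1 : ℝ) ≤ q := by exact_mod_cast hq1
    nlinarith
  refine ⟨P, (a ^ 12)⁻¹, S, r, ?_, rfl, ?_, ?_, ?_⟩
  · refine ⟨hq1, by positivity, ?_, rfl, ?_, rfl, ?_, rfl⟩
    · have : (1 : ℝ) ≤ S := by linarith [hp1 8]
      exact_mod_cast this
    · change 8 * (a ^ 12)⁻¹ * ((q : ℝ) / S + 1) ≤ 1
      have e1 : (q : ℝ) / S ≤ a ^ 12 / 16 := by
        have hS0 : (0 : ℝ) < S := lt_of_lt_of_le (by positivity) hSl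
        rw [div_le_div_iff₀ hS0 (by norm_num), hq]
        calc a ^ 20 * 16 = a ^ 12 * (16 * a ^ 8) := by ring
          _ ≤ a ^ 12 * S := by gcongr
      have e2 : (16 : ℝ) ≤ a ^ 12 := by
        calc (16 : ℝ) ≤ 2 ^ 12 := by norm_num
          _ ≤ a ^ 12 := by gcongr
      calc 8 * (a ^ 12)⁻¹ * ((q : ℝ) / S + 1) ≤ 8 * (a ^ 12)⁻¹ * (a ^ 12 / 16 + a ^ 12 / 16) := by
            gcongr
            linarith
        _ = 1 := by field_simp; norm_num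
    · change 48 * (q : ℝ) ^ 2 < (1 + (a ^ 12)⁻¹ / 2) ^ (Gm + 1)
      have hη : 0 < (a ^ 12)⁻¹ / 2 := by positivity
      have hη1 : (a ^ 12)⁻¹ / 2 ≤ 1 := by
        have : (a ^ 12)⁻¹ ≤ 1 := inv_le_one_of_one_le₀ (hp1 12)
        linarith
      have e1 := Real.le_log_one_add_of_nonneg hη.le
      have e2 : (a ^ 12)⁻¹ / 2 / 2 ≤ 2 * ((a ^ 12)⁻¹ / 2) / ((a ^ 12)⁻¹ / 2 + 2) := by
        rw [div_le_div_iff₀ (by norm_num) (by positivity)]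
        nlinarith
      have e3 : (a ^ 12)⁻¹ / 4 ≤ log (1 + (a ^ 12)⁻¹ / 2) := by linarith
      have e4 : a / 4 ≤ ((Gm + 1 : ℕ) : ℝ) * log (1 + (a ^ 12)⁻¹ / 2) := by
        calc a / 4 = a ^ 13 * ((a ^ 12)⁻¹ / 4) := by field_simp
          _ ≤ ((Gm + 1 : ℕ) : ℝ) * log (1 + (a ^ 12)⁻¹ / 2) := by
            have : a ^ 13 ≤ ((Gm + 1 : ℕ) : ℝ) := by
              push_cast
              linarith
            gcongr
      have e5 : log (48 * (q : ℝ) ^ 2) = log 48 + 40 * log a := by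
        rw [hq, Real.log_mul (by norm_num) (by positivity), ← pow_mul, Real.log_pow]
        norm_num
      rw [← Real.log_lt_log_iff (by positivity) (by positivity), Real.log_pow, e5]
      linarith
  · have : (1 : ℝ) ≤ r := by linarith [hp1 19]
    exact_mod_cast this
  · change (bs : ℝ) * log (C * q) ≤ σ1 * q
    calc (bs : ℝ) * log (C * q) ≤ 2000 * a ^ 16 * (c * a) := by gcongr
      _ = 2000 * c * a ^ 17 := by ring
      _ ≤ σ1 * a ^ 3 * a ^ 17 := by gcongr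
      _ = σ1 * q := by rw [hq]; ring
  · change ((bs : ℝ) + C1 * cellv P r) * log (C * q) ≤ σ2 * (q : ℝ) ^ 2
    have e1 := hp 16 39 (by norm_num)
    have e2 : (bs : ℝ) + C1 * cellv P r ≤ (2000 + 40000 * C1) * a ^ 39 := by
      have : C1 * cellv P r ≤ C1 * (40000 * a ^ 39) := by gcongr
      linarith
    calc ((bs : ℝ) + C1 * cellv P r) * log (C * q) ≤
          (2000 + 40000 * C1) * a ^ 39 * (c * a) := by gcongr
      _ = ((2000 + 40000 * C1) * c) * (a ^ 20) ^ 2 := by ring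
      _ ≤ σ2 * (q : ℝ) ^ 2 := by rw [hq]; gcongr

end Pool.H33.MB2.Gk
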