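import Pool.Agent.H33.MB2.NumDefs
import Pool.Agent.H33.MB2.NumGk
import Pool.Agent.H33.MB2.LtGeo

/-!
# Existence of the parameters
-/

set_option linter.unusedSectionVars false

namespace Pool.H33.MB2

open Finset Real
open Pool.H68.MB (board coreFam core_count)

noncomputable def zt : ℝ := 1 / 202500
noncomputable def cz : ℕ := ⌊2 / zt⌋₊
noncomputable def cE0 : ℕ := (cz + 1) ^ 4 * (2 * cz + 5) ^ 2
noncomputable def Cg0 : ℕ := 180 + cE0 * 363 + 1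
noncomputable def Mc0 (m : ℕ) : ℕ :=
  Cg0 + 1 + ((Cg0 + 1) ^ 2 + 1) * m + 2 * (Cg0 + 1) ^ 2 * (m + 1)
noncomputable def κ20 (ε : ℝ) : ℝ := ε / (200 * (Cg0 + 1))
noncomputable def κH0 (ε : ℝ) : ℝ := (Cg0 + 1) * (40 / (3 * ε)) + 1
noncomputable def m0 (ε : ℝ) : ℕ := ⌈(1 / κ20 ε + κH0 ε + 1) / (9 / 200 * ε)⌉₊
noncomputable def n1v (ε : ℝ) (q : ℕ) : ℕ := ⌊40 / (3 * ε) * q⌋₊ + 1
noncomputable def n2v (ε : ℝ) (q : ℕ) : ℕ := ⌊κ20 ε * q⌋₊ + 1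
noncomputable def nbv (ε : ℝ) (q : ℕ) : ℕ := 2 * (Cg0 + 1) * n2v ε q + Cg0
noncomputable def jmv (ε ℓ : ℝ) (q : ℕ) : ℕ := ⌈2 * ℓ / log 2 + ε * q / 20⌉₊
noncomputable def jbv (ε ℓ : ℝ) (q : ℕ) : ℕ := jmv ε ℓ q + 1 + nbv ε q
noncomputable def h6v (ε : ℝ) (q : ℕ) : ℕ := ⌊ε * q / 12⌋₊
noncomputable def H1v (ε : ℝ) (q : ℕ) : ℕ := (Cg0 + 1) * n1v ε q + nbv ε q + Cg0
noncomputable def L1v (ε : ℝ) (q : ℕ) : ℕ := ⌈ε * q / 2⌉₊
noncomputable def L2v (ε : ℝ) (q : ℕ) : ℕ := ⌈5 / 2 * ((m0 ε + 1) * ε / 10 + 1) * q⌉₊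
noncomputable def δv (ε : ℝ) (q : ℕ) : ℝ := ε / (100 * q)
noncomputable def Kv (ε : ℝ) (q : ℕ) : ℝ := 800 * q / ε
noncomputable def rwv (ε : ℝ) (q : ℕ) : ℝ := 4 / 3 - δv ε q
noncomputable def rcv (ε : ℝ) (q : ℕ) : ℝ := 3 / 2 - δv ε q
noncomputable def Gv (ε : ℝ) (q : ℕ) : ℝ := exp (3 * ε / 40 * q)
noncomputable def c1v (ε : ℝ) (q : ℕ) : ℝ := Gv ε q * (4 / 3) ^ h6v ε q
noncomputable def ρ2v (ε : ℝ) (q : ℕ) : ℝ := (rwv ε q / rcv ε q) ^ L2v ε q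

/-- The parameters. -/
noncomputable def prm (ε ℓ : ℝ) (N q bs cA : ℕ) : Par where
  k := q ^ 2
  D := N * q ^ 2
  L := (q ^ 2) ^ 2
  jb := jbv ε ℓ q
  h6 := h6v ε q
  H1 := H1v ε q
  jm := jmv ε ℓ q
  bs := bs
  am := 180 * cA
  L1 := L1v ε q
  L2 := L2v ε q
  m := m0 ε
  t1 := ⌊(q : ℝ) ^ 2 / 202500⌋₊
  kap := ((q + 1) / 2) ^ 2
  cE := cE0
  cA := cA
  tm := 180
  δ := δv ε q
  K := Kv ε q
  c1 := c1v ε q
  ρ2 := ρ2v ε q
  ρ := exp (-(16 / 5) * ℓ)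
  ρP := exp (-(11 / 5) * ℓ)
  ρC := exp (-(99 / 50) * ℓ)
  ρG := exp (-(21 / 5) * ℓ)
  gt := exp (ℓ / 40)
  M1 := 2 * ((n1v ε q : ℝ) * (((q ^ 2 : ℕ) : ℝ) * (((q ^ 2) ^ 2 : ℕ) : ℝ) *
    (c1v ε q * Kv ε q ^ bs)))
  G := Gv ε q
  β := ρ2v ε q * (2 / 3) ^ H1v ε q
  a1 := av (rwv ε q) (rcv ε q) (jbv ε ℓ q) (L1v ε q)
  a2 := av (rwv ε q) (rcv ε q) (jbv ε ℓ q) (L2v ε q)

/-- The extra numbers. -/
noncomputable def qrm (ε : ℝ) (q : ℕ) : Num2 := ⟨n1v ε q, n2v ε q, n1v ε q, δv ε q / 200⟩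

theorem cg_eq (ε ℓ : ℝ) (N q bs cA : ℕ) : Cg (LS N q (prm ε ℓ N q bs cA)) = Cg0 := rfl

theorem pf_mk {ε : ℝ} {N q bs cA : ℕ} (hε0 : 0 < ε) (hε1 : ε ≤ 1) (hN : 1 ≤ N)
    (F1 : log N / log (3 / 2) + 2 * log N / log 2 + 2 * ε * q - ε ^ 2 ≤ (q : ℝ) ^ 2)
    (F2 : (q : ℝ) ^ 2 ≤ log N / log (3 / 2) + 2 * log N / log 2 + 4 * q)
    (q1 : 6000 ≤ q) (q2 : 100000 ≤ ε * q) (q3 : log q ≤ ε * q / 20000)
    (q4 : (bs : ℝ) * log (800 / ε * q) ≤ ε * q / 2000)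
    (q5 : ((bs : ℝ) + 180 * cA) * log (800 / ε * q) ≤ (q : ℝ) ^ 2 / 10000)
    (q6 : (Mc0 (m0 ε) : ℝ) + 4 * Cg0 + 4 ≤ ε * q / 20)
    (q7 : 2400 * κH0 ε ≤ q)
    (q8 : 5 / 2 * ((m0 ε + 1) * ε / 10 + 1) * 3 + 3 ≤ (q : ℝ)) :
    PF ε (log N) q (LS N q (prm ε (log N) N q bs cA)) (qrm ε q) := by
  have hN0 : (0 : ℝ) < N := by exact_mod_cast hN
  have hℓ0 : 0 ≤ log N := Real.log_nonneg (by exact_mod_cast hN)
  have hq0 : (6000 : ℝ) ≤ q := by exact_mod_cast q1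
  have hK : (800 : ℝ) * q / ε = 800 / ε * q := by ring
  have hexp : exp (log N) = N := Real.exp_log hN0
  -- `ℓ ≥ q^2 / 6`
  have hℓ : (q : ℝ) ^ 2 / 6 ≤ log N := by
    have h4 := log32_ge
    have h6 := log2_gt
    have e1 : log N / log (3 / 2) ≤ log N / 0.4053 := by gcongr
    have e3 : 2 * log N / log 2 ≤ 2 * log N / 0.6931 := by gcongr
    have e4 : log N / 0.4053 + 2 * log N / 0.6931 ≤ 5.38 * log N := by
      rw [div_add_div _ _ (by norm_num) (by norm_num), div_le_iff₀ (by norm_num)]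
      nlinarith
    nlinarith
  have hκ0 : 0 < κ20 ε := by unfold κ20; positivity
  have hκH : 0 < κH0 ε := by unfold κH0; positivity
  exact {
    ε0 := hε0
    ε1 := hε1
    F1 := F1
    F2 := F2
    q1 := by omega
    q2 := q2
    q3 := q3
    q4 := by
      change (bs : ℝ) * log (800 * q / ε) ≤ ε * q / 2000
      rw [hK]
      exact q4
    q5 := by
      change ((bs : ℝ) + ((180 * cA : ℕ) : ℝ)) * log (800 * q / ε) ≤ (q : ℝ) ^ 2 / 10000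
      rw [hK]
      push_cast
      exact q5
    q6 := q6
    q7 := by
      change 400 * κH0 ε * q ≤ log N
      nlinarith
    q8 := by
      change 5 / 2 * ((m0 ε + 1) * ε / 10 + 1) * q + 1 ≤ 2 * log N
      have : (5 / 2 * ((m0 ε + 1) * ε / 10 + 1) * 3 + 3) * q ≤ q * q := by gcongr
      nlinarith
    q9 := by nlinarith
    k := rfl
    L := rfl
    D := by
      change ((N * q ^ 2 : ℕ) : ℝ) = exp (log N) * (q : ℝ) ^ 2
      rw [hexp]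
      push_cast
      ring
    F := by
      change (#(coreFam N q 1) : ℝ) ≤ exp (3 * log N)
      rw [mul_comm, Real.exp_mul, hexp]
      have h := core_count N q 1
      have h' : (#(coreFam N q 1) : ℝ) ≤ (N : ℝ) ^ 3 := by exact_mod_cast h
      refine h'.trans (le_of_eq ?_)
      norm_num
    S := by
      change (#(board N) : ℝ) = exp (2 * log N)
      rw [mul_comm, Real.exp_mul, hexp]
      unfold board
      rw [card_product, Nat.card_Icc, Nat.add_sub_cancel]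
      push_cast
      norm_num
      ring
    kap := rfl
    δ := rfl
    K := rfl
    tm := rfl
    t1 := rfl
    n1 := rfl
    n2 := rfl
    nP := rfl
    τ := rfl
    m := by
      change 1 / κ20 ε + κH0 ε + 1 ≤ 9 / 200 * ε * (m0 ε : ℕ)
      have h1 : (1 / κ20 ε + κH0 ε + 1) / (9 / 200 * ε) ≤ (m0 ε : ℝ) := Nat.le_ceil _
      rw [div_le_iff₀ (by positivity)] at h1
      linarith
    jm1 := Nat.le_ceil _
    jm2 := by
      change ((jmv ε (log N) q : ℕ) : ℝ) ≤ _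
      have h1 : 0 ≤ 2 * log N / log 2 + ε * q / 20 := by
        have := log2_gt
        positivity
      have h2 := Nat.ceil_lt_add_one h1
      unfold jmv
      linarith
    jb := rfl
    h6 := rfl
    H1 := rfl
    L1 := rfl
    L2 := rfl
    G := rfl
    c1 := rfl
    ρ2 := rfl
    β := rfl
    M1 := rfl
    ρ := rfl
    ρP := rfl
    ρC := rfl
    ρG := rfl
    gt := rfl
    am := rfl
    a1 := fun _ => rfl
    a2 := fun _ => rfl }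

end Pool.H33.MB2
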