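import Pool.Agent.H33.MB2.NumB

/-!
# MB2 NUD: joined sets and cold sets are light

All inequalities are proved by writing both sides as exponentials.  `K^bs ≤ exp (εq/2000)` (`Kpow`, `q4`), `log q ≤ εq/20000` (`q3`),
`εq ≥ 10^5` (`q2`), `k = q^2`, `L = q^4`, `log (1/ε) ≤ log q`.
* `sm`: the logarithm of the left side is at most `log 2 + 10 log q + 2 ℓ + εq/2000 - jm (log 2 - δ)`; `jm log 2 ≥ 2 ℓ + (εq/20) log 2` (`jm1`),
  `jm ≤ jb ≤ k` so `jm δ ≤ εq/100` (`δk`); `0.6931/20 = 0.0346 > 0.01 + 0.0005 + 0.0005 + ...`.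
* `t1τ`: `a1 (jb + L1 + 1) ≤ rw⁻¹ ^ L1` (`av_cold`), `L1 ≥ εq/2`, `log rw ≥ 0.2873 - δ ≥ 0.287`, so it is `≤ exp (-0.1435 εq)`;
  `c1 ≤ exp (0.099 εq)` (`c1_le`); `k^4 L = exp (12 log q)`; `τ = ε / (20000 q)`, `log (1/τ) ≤ log 20000 + 2 log q ≤ 10 + 2 log q`.
* `t2τ`: `ρ2 a2 (jb + L2 + 1) ≤ (rw/rc)^L2 rw⁻¹^L2 = rc⁻¹^L2 ≤ exp (-0.405 L2)`, `L2 ≥ 5/2 ((m+1) ε/10 + 1) q`, so it is
  `≤ exp (-0.10125 (m+1) εq - 1.0125 q)`.  `(1 + k M1)^m (1 + M1) ≤ (2 k M1)^(m+1)` and `log (2 k M1) ≤ 2 log 2 + 10 log q + 0.099 εq + εq/2000` (`M1_le`),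
  which is at most `0.1005 εq`.  So the total is at most `exp (14 log q + 10 + εq/2000 - 1.0125 q) ≤ 1`.
-/

set_option linter.unusedSectionVars false

namespace Pool.H33.MB2

open Finset Real

variable {X Γ : Type*} [DecidableEq X] {ε ℓ : ℝ} {q : ℕ} {Y : Sys X Γ} {Q : Num2}

/-- `τ` is not too small. -/
theorem PF.numd_τ (h : PF ε ℓ q Y Q) : exp (-(15 * log 2 + 2 * log q)) ≤ Q.τ := by
  have hq := h.q0
  have hq' : (0 : ℝ) < q := by linarith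
  have h2 := h.q2
  have hε := h.ε0
  have e1 : exp (-(15 * log 2 + 2 * log q)) = 1 / (2 ^ 15 * (q : ℝ) ^ 2) := by
    rw [Real.exp_neg, Real.exp_add, pow_eq_exp (by norm_num : (0 : ℝ) < 2) 15, pow_eq_exp hq' 2,
      one_div]
    norm_num
  rw [e1, h.τ, h.δ, div_div, div_le_div_iff₀ (by positivity) (by positivity)]
  nlinarith

/-- `k^4 L = q^12`. -/
theorem PF.numd_kL (h : PF ε ℓ q Y Q) : (Y.k : ℝ) ^ 4 * Y.L = exp (12 * log q) := by
  have hq := h.q0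
  have hq' : (0 : ℝ) < q := by linarith
  have h6 : (Y.L : ℝ) = (q : ℝ) ^ 4 := by
    rw [h.L]
    push_cast
    ring
  have h7 := pow_eq_exp hq' 12
  push_cast at h7
  rw [h.kq, h6, ← h7]
  ring

theorem PF.numd_Kbs (h : PF ε ℓ q Y Q) : Y.K ^ Y.bs ≤ exp (ε * q / 2000) := by
  rw [h.Kpow Y.bs]
  exact Real.exp_le_exp.2 h.q4

theorem PF.sm (h : PF ε ℓ q Y Q) :
    (2 * Y.k ^ 3 * Y.L * #Y.S : ℝ) * (Y.K ^ Y.bs / (2 - Y.δ) ^ Y.jm) ≤ 1 / 64 := by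
  have hq := h.q0
  have hq' : (0 : ℝ) < q := by linarith
  have h2 := h.q2
  have h3 := h.q3
  have h4 := h.q4
  have hε := h.ε0
  have hδ0 := h.δ0
  have hδ1 := h.δ1
  have hl2 := h.l2
  have hj := h.jm1
  have hg := log2_gt
  have hlt := log2_lt
  have hdk := h.δk
  have h6 : (Y.L : ℝ) = (q : ℝ) ^ 4 := by
    rw [h.L]
    push_cast
    ring
  have e1 : (2 * Y.k ^ 3 * Y.L * #Y.S : ℝ) = exp (log 2 + 10 * log q + 2 * ℓ) := by
    have h7 := pow_eq_exp hq' 10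
    push_cast at h7
    rw [Real.exp_add, Real.exp_add, Real.exp_log (by norm_num), ← h7, h.kq, h6, h.S]
    ring
  have e2 : Y.K ^ Y.bs / (2 - Y.δ) ^ Y.jm =
      exp (Y.bs * log Y.K - Y.jm * log (2 - Y.δ)) := by
    rw [Real.exp_sub, ← h.Kpow, ← pow_eq_exp (by linarith : (0 : ℝ) < 2 - Y.δ)]
  have e3 : (1 / 64 : ℝ) = exp (-(6 * log 2)) := by
    have h7 := pow_eq_exp (by norm_num : (0 : ℝ) < 2) 6
    push_cast at h7
    rw [Real.exp_neg, ← h7]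
    norm_num
  rw [e1, e2, e3, ← Real.exp_add]
  refine Real.exp_le_exp.2 ?_
  have f1 : (Y.jm : ℝ) ≤ Y.k := by
    have h7 := h.jk
    have h8 := h.jb
    have : Y.jm ≤ Y.k := by omega
    exact_mod_cast this
  have f2 : (Y.jm : ℝ) * (log 2 - Y.δ) ≤ Y.jm * log (2 - Y.δ) :=
    mul_le_mul_of_nonneg_left hl2.1 (Nat.cast_nonneg _)
  have f3 : Y.δ * (Y.jm : ℝ) ≤ ε * q / 100 := by
    rw [← hdk]
    exact mul_le_mul_of_nonneg_left f1 hδ0.le
  have f4 : 2 * ℓ + ε * q / 20 * log 2 ≤ Y.jm * log 2 := by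
    have h8 := mul_le_mul_of_nonneg_right hj (by linarith : (0 : ℝ) ≤ log 2)
    have h9 : (2 * ℓ / log 2 + ε * q / 20) * log 2 = 2 * ℓ + ε * q / 20 * log 2 := by
      have : log 2 ≠ 0 := by linarith
      field_simp
    rw [h9] at h8
    exact h8
  have f5 : ε * q / 20 * 0.6931 ≤ ε * q / 20 * log 2 :=
    mul_le_mul_of_nonneg_left hg (by positivity)
  nlinarith

theorem PF.t1τ (h : PF ε ℓ q Y Q) :
    (Y.k : ℝ) ^ 4 * Y.L * (Y.c1 * Y.K ^ Y.bs * Y.a1 (Y.jb + Y.L1 + 1)) ≤ Q.τ := by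
  have hq := h.q0
  have h2 := h.q2
  have h3 := h.q3
  have hε := h.ε0
  have hδ1 := h.δ1
  have hrw := h.rw0
  have hlrw := h.lrw
  have hg := log43_ge
  have hlt := log2_lt
  have hc0 := h.pos.1
  have hK0 := h.K0
  refine le_trans ?_ h.numd_τ
  have e1 : Y.a1 (Y.jb + Y.L1 + 1) ≤ exp (-(0.1435 * (ε * q))) := by
    rw [h.a1]
    refine (av_cold (by linarith) rw_le_rc _ _).trans ?_
    rw [inv_pow_eq_exp (by linarith)]
    refine Real.exp_le_exp.2 ?_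
    have f1 : ε * q / 2 ≤ (Y.L1 : ℝ) := by
      rw [h.L1]
      exact Nat.le_ceil _
    have f2 : ε * q / 2 * 0.287 ≤ (Y.L1 : ℝ) * log (rw Y) :=
      mul_le_mul f1 (by linarith) (by norm_num) (Nat.cast_nonneg _)
    linarith
  have e0 : 0 ≤ Y.a1 (Y.jb + Y.L1 + 1) := by
    rw [h.a1]
    exact (av_pos (by linarith) rw_le_rc _ _ _).le
  rw [h.numd_kL]
  calc exp (12 * log q) * (Y.c1 * Y.K ^ Y.bs * Y.a1 (Y.jb + Y.L1 + 1))
      ≤ exp (12 * log q) * (exp (0.099 * (ε * q)) * exp (ε * q / 2000) *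
        exp (-(0.1435 * (ε * q)))) := by
        refine mul_le_mul_of_nonneg_left ?_ (Real.exp_pos _).le
        refine mul_le_mul ?_ e1 e0 (by positivity)
        exact mul_le_mul h.c1_le h.numd_Kbs (by positivity) (Real.exp_pos _).le
    _ = exp (12 * log q + (0.099 * (ε * q) + ε * q / 2000 + -(0.1435 * (ε * q)))) := by
        rw [Real.exp_add, Real.exp_add, Real.exp_add]
    _ ≤ exp (-(15 * log 2 + 2 * log q)) := by
        refine Real.exp_le_exp.2 ?_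
        nlinarith

theorem PF.numd_2kM (h : PF ε ℓ q Y Q) : 2 * Y.k * Y.M1 ≤ exp (0.1005 * (ε * q)) := by
  have hq := h.q0
  have hq' : (0 : ℝ) < q := by linarith
  have h2 := h.q2
  have h3 := h.q3
  have hlt := log2_lt
  have h7 := pow_eq_exp hq' 2
  push_cast at h7
  calc 2 * Y.k * Y.M1 = 2 * (q : ℝ) ^ 2 * Y.M1 := by rw [h.kq]
    _ ≤ 2 * (q : ℝ) ^ 2 * exp (log 2 + 8 * log q + 0.099 * (ε * q) + ε * q / 2000) :=
        mul_le_mul_of_nonneg_left h.M1_le (by positivity)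
    _ = exp (log 2 + 2 * log q + (log 2 + 8 * log q + 0.099 * (ε * q) + ε * q / 2000)) := by
        rw [Real.exp_add (log 2 + 2 * log q), Real.exp_add (log 2), Real.exp_log (by norm_num),
          h7]
    _ ≤ exp (0.1005 * (ε * q)) := by
        refine Real.exp_le_exp.2 ?_
        nlinarith

theorem PF.numd_prod (h : PF ε ℓ q Y Q) :
    (1 + Y.k * Y.M1) ^ Y.m * (1 + Y.M1) ≤ exp (0.1005 * (ε * q) * (Y.m + 1)) := by
  have hM := h.M1_ge.1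
  have hk : (1 : ℝ) ≤ Y.k := by
    rw [h.kq]
    have := h.q0
    nlinarith
  have hkM : 1 ≤ Y.k * Y.M1 := by nlinarith
  have hkM' : Y.M1 ≤ Y.k * Y.M1 := by nlinarith
  have h1 := h.numd_2kM
  calc (1 + Y.k * Y.M1) ^ Y.m * (1 + Y.M1) ≤ (2 * Y.k * Y.M1) ^ Y.m * (2 * Y.k * Y.M1) := by
        refine mul_le_mul ?_ (by linarith) (by linarith) (by positivity)
        exact pow_le_pow_left₀ (by linarith) (by linarith) _
    _ = (2 * Y.k * Y.M1) ^ (Y.m + 1) := (pow_succ _ _).symm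
    _ ≤ exp (0.1005 * (ε * q)) ^ (Y.m + 1) := pow_le_pow_left₀ (by positivity) h1 _
    _ = exp (0.1005 * (ε * q) * (Y.m + 1)) := by
        rw [← Real.exp_nat_mul]
        congr 1
        push_cast
        ring

theorem PF.numd_ρa (h : PF ε ℓ q Y Q) :
    Y.ρ2 * Y.a2 (Y.jb + Y.L2 + 1) ≤ exp (-(0.10125 * (ε * q) * (Y.m + 1) + 1.0125 * q)) := by
  have hq := h.q0
  have hε := h.ε0
  have hδ1 := h.δ1
  have hrw := h.rw0
  have hrc := h.rc0
  have hlrc := h.lrc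
  have hg := log32_ge
  have hw : 0 < rw Y := by linarith
  have hc : 0 < rc Y := by linarith
  have e1 : Y.a2 (Y.jb + Y.L2 + 1) ≤ (rw Y)⁻¹ ^ Y.L2 := by
    rw [h.a2]
    exact av_cold (by linarith) rw_le_rc _ _
  calc Y.ρ2 * Y.a2 (Y.jb + Y.L2 + 1) ≤ (rw Y / rc Y) ^ Y.L2 * (rw Y)⁻¹ ^ Y.L2 := by
        rw [h.ρ2]
        exact mul_le_mul_of_nonneg_left e1 (by positivity)
    _ = (rc Y)⁻¹ ^ Y.L2 := by
        rw [← mul_pow]
        congr 1
        field_simp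
    _ = exp (-(Y.L2 * log (rc Y))) := inv_pow_eq_exp hc _
    _ ≤ exp (-(0.10125 * (ε * q) * (Y.m + 1) + 1.0125 * q)) := by
        refine Real.exp_le_exp.2 ?_
        have f1 : 5 / 2 * ((Y.m + 1) * ε / 10 + 1) * q ≤ (Y.L2 : ℝ) := by
          rw [h.L2]
          exact Nat.le_ceil _
        have f2 : 5 / 2 * ((Y.m + 1) * ε / 10 + 1) * q * 0.405 ≤ (Y.L2 : ℝ) * log (rc Y) :=
          mul_le_mul f1 (by linarith) (by norm_num) (Nat.cast_nonneg _)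
        have f3 : 5 / 2 * ((Y.m + 1) * ε / 10 + 1) * q * 0.405 =
            0.10125 * (ε * q) * (Y.m + 1) + 1.0125 * q := by ring
        linarith

theorem PF.t2τ (h : PF ε ℓ q Y Q) :
    (Y.k : ℝ) ^ 4 * Y.L * (Y.ρ2 * Y.K ^ Y.bs * Y.a2 (Y.jb + Y.L2 + 1) *
      ((1 + Y.k * Y.M1) ^ Y.m * (1 + Y.M1))) ≤ Q.τ := by
  have hq := h.q0
  have h2 := h.q2
  have h3 := h.q3
  have hε := h.ε0
  have hε1 := h.ε1
  have hlt := log2_lt
  have hrw := h.rw0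
  have hK0 := h.K0
  have hM := h.M1_ge.1
  refine le_trans ?_ h.numd_τ
  have e0 : 0 ≤ Y.a2 (Y.jb + Y.L2 + 1) := by
    rw [h.a2]
    exact (av_pos (by linarith) rw_le_rc _ _ _).le
  have e3 : 0 < Y.ρ2 := h.pos.2.1
  rw [h.numd_kL]
  have e1 : Y.ρ2 * Y.K ^ Y.bs * Y.a2 (Y.jb + Y.L2 + 1) *
      ((1 + Y.k * Y.M1) ^ Y.m * (1 + Y.M1)) ≤
      exp (-(0.10125 * (ε * q) * (Y.m + 1) + 1.0125 * q)) * exp (ε * q / 2000) *
        exp (0.1005 * (ε * q) * (Y.m + 1)) := by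
    have e2 : Y.ρ2 * Y.K ^ Y.bs * Y.a2 (Y.jb + Y.L2 + 1) =
        Y.ρ2 * Y.a2 (Y.jb + Y.L2 + 1) * Y.K ^ Y.bs := by ring
    rw [e2]
    refine mul_le_mul ?_ h.numd_prod (by positivity) (by positivity)
    exact mul_le_mul h.numd_ρa h.numd_Kbs (by positivity) (Real.exp_pos _).le
  refine (mul_le_mul_of_nonneg_left e1 (Real.exp_pos _).le).trans ?_
  rw [← Real.exp_add, ← Real.exp_add, ← Real.exp_add]
  refine Real.exp_le_exp.2 ?_
  have e4 : 0 ≤ (ε * q) * (Y.m + 1) := by positivity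
  have e5 : ε * q ≤ 1 * q := mul_le_mul_of_nonneg_right hε1 (by linarith)
  nlinarith

end Pool.H33.MB2
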