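import Pool.Agent.H33.MB2.NumB

/-!
# MB2 NUE: start values of the micro tuples

`D = exp ℓ q^2`, `k - jb ≥ ℓ / log (3/2) + 1.8 εq` (`kj`, `kjc`), `log rc ≥ log (3/2) - δ` (`lrc`), `(k - jb) δ ≤ k δ = εq/100` (`δk`), so
`rc⁻¹ ^ (k - jb) ≤ exp (-ℓ - 1.8 * 0.4053 εq + 0.01 εq) ≤ exp (-ℓ - 0.719 εq)`.
* `jb + L1 ≤ k`, `jb + L2 ≤ k`: `k - jb ≥ ℓ / 0.4058 + 1.8 εq ≥ 2 ℓ + εq`, `L1 ≤ εq/2 + 1`, `L2 ≤ 2 ℓ` (`q8`).
* `sA`: `a1 k = (rc/rw)^L1 rc⁻¹^(k - jb)` (`av_far`), `log (rc/rw) ≤ 0.12`, `L1 ≤ εq/2 + 1`; `c1 ≤ exp (0.099 εq)` (`c1_le`), `K^bs ≤ exp (εq/2000)`: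
  `k D c1 K^bs a1 k ≤ exp (4 log q + 0.099 εq + 0.0005 εq + 0.06 εq + 0.12 - 0.719 εq) ≤ exp (-1) ≤ 1/2` (`log q ≤ εq/20000`, `εq ≥ 10^5`).
* `sB`: `ρ2 a2 k = rc⁻¹^(k - jb)` (`av_far`: `(rw/rc)^L2 (rc/rw)^L2 = 1`): `k D ρ2 K^bs a2 k ≤ exp (4 log q + 0.0005 εq - 0.719 εq) ≤ 1/8`.
* `st1`: the inner exponential is `exp (k (D (c1 K^bs a1 k))) ≤ exp (1/2) ≤ 2`, the outer exponent is `≤ 1/2 + 1/8 * 2 ≤ 1`, `exp 1 ≤ 3`;
  `#F ρ ≤ exp (3 ℓ - 3.2 ℓ)`, `ℓ ≥ 10^6` (`ℓ0`).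
* `st2`: `#S ρP = exp (-0.2 ℓ)`; `D c1 K^bs a1 k ≤ k D c1 K^bs a1 k ≤ 1/2`.
-/

set_option linter.unusedSectionVars false

namespace Pool.H33.MB2

open Finset Real

variable {X Γ : Type*} [DecidableEq X] {ε ℓ : ℝ} {q : ℕ} {Y : Sys X Γ} {Q : Num2}

theorem PF.jL (h : PF ε ℓ q Y Q) : Y.jb + Y.L1 ≤ Y.k ∧ Y.jb + Y.L2 ≤ Y.k := by
  have hq := h.q0
  have hε := h.ε0
  have hℓ := h.ℓ0
  have h1 := h.kj
  have h2 := h.q2
  have h3 : 2 * ℓ ≤ ℓ / log (3 / 2) := by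
    have := log32_ge
    have := log32_le
    rw [le_div_iff₀ (by linarith)]
    nlinarith
  have e1 : (Y.L1 : ℝ) ≤ ε * q / 2 + 1 := by
    rw [h.L1]
    exact (Nat.ceil_lt_add_one (by positivity)).le
  have e2 : (Y.L2 : ℝ) ≤ 2 * ℓ := by
    rw [h.L2]
    exact (Nat.ceil_lt_add_one (by positivity)).le.trans h.q8
  constructor
  · have : (Y.jb : ℝ) + Y.L1 ≤ Y.k := by linarith
    exact_mod_cast this
  · have : (Y.jb : ℝ) + Y.L2 ≤ Y.k := by linarith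
    exact_mod_cast this

theorem PF.rck (h : PF ε ℓ q Y Q) :
    (rc Y)⁻¹ ^ (Y.k - Y.jb) ≤ exp (-ℓ - 0.719 * (ε * q)) := by
  have hq := h.q0
  have hε := h.ε0
  have hℓ := h.ℓ0
  have h1 := h.kj
  have h2 := h.lrc
  have h3 := log32_ge
  have h4 := h.δk
  have h5 := h.δ0
  have hc := h.rc0
  have hcp : 0 < rc Y := by linarith
  rw [inv_pow_eq_exp hcp, h.kjc]
  refine Real.exp_le_exp.2 ?_
  have e0 : 0 ≤ (Y.k : ℝ) - Y.jb := by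
    rw [← h.kjc]
    exact Nat.cast_nonneg _
  have e1 : ((Y.k : ℝ) - Y.jb) * (log (3 / 2) - Y.δ) ≤ ((Y.k : ℝ) - Y.jb) * log (rc Y) := by
    have := h2.1
    gcongr
  have e2 : (ℓ / log (3 / 2) + 1.8 * (ε * q)) * log (3 / 2) ≤
      ((Y.k : ℝ) - Y.jb) * log (3 / 2) := by
    gcongr
  have e3 : (ℓ / log (3 / 2) + 1.8 * (ε * q)) * log (3 / 2) =
      ℓ + 1.8 * (ε * q) * log (3 / 2) := by
    have : log (3 / 2) ≠ 0 := by
      intro h0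
      rw [h0] at h3
      norm_num at h3
    field_simp
  have e4 : 1.8 * (ε * q) * 0.4053 ≤ 1.8 * (ε * q) * log (3 / 2) := by gcongr
  have e5 : ((Y.k : ℝ) - Y.jb) * Y.δ ≤ Y.δ * Y.k := by
    have : (0 : ℝ) ≤ Y.jb := Nat.cast_nonneg _
    nlinarith
  have e6 : 0 < ε * q := by positivity
  nlinarith

theorem PF.Kbs (h : PF ε ℓ q Y Q) : Y.K ^ Y.bs ≤ exp (ε * q / 2000) := by
  rw [h.Kpow]
  exact Real.exp_le_exp.2 h.q4

theorem PF.kD (h : PF ε ℓ q Y Q) : (Y.k : ℝ) * Y.D = exp (4 * log q + ℓ) := by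
  have hq := h.q0
  have hq' : (0 : ℝ) < q := by linarith
  have e : exp (4 * log q) = (q : ℝ) ^ 4 := by
    rw [pow_eq_exp hq' 4]
    norm_num
  rw [h.kq, h.D, Real.exp_add, e]
  ring

theorem PF.sA (h : PF ε ℓ q Y Q) :
    (Y.k : ℝ) * (Y.D * (Y.c1 * Y.K ^ Y.bs * Y.a1 Y.k)) ≤ 1 / 2 := by
  have hq := h.q0
  have hε := h.ε0
  have hw := h.rw0
  have hc := h.rc0
  have hwp : 0 < rw Y := by linarith
  have hcp : 0 < rc Y := by linarith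
  have hK := h.K0
  have h1 := h.rck
  have h2 := h.c1_le
  have h3 := h.Kbs
  have h4 := h.lrw
  have h5 := h.lrc
  have h6 := log43_ge
  have h7 := log32_le
  have h8 := h.δ1
  have h9 := h.q3
  have h10 := h.q2
  have hpos := h.pos.1
  have e1 : (Y.L1 : ℝ) ≤ ε * q / 2 + 1 := by
    rw [h.L1]
    exact (Nat.ceil_lt_add_one (by positivity)).le
  have e2 : (rc Y / rw Y) ^ Y.L1 ≤ exp ((ε * q / 2 + 1) * 0.12) := by
    rw [pow_eq_exp (by positivity), Real.log_div hcp.ne' hwp.ne']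
    refine Real.exp_le_exp.2 ?_
    have e3 : log (rc Y) - log (rw Y) ≤ 0.12 := by linarith
    calc (Y.L1 : ℝ) * (log (rc Y) - log (rw Y)) ≤ Y.L1 * 0.12 := by gcongr
      _ ≤ (ε * q / 2 + 1) * 0.12 := by gcongr
  have e3 : Y.a1 Y.k = (rc Y / rw Y) ^ Y.L1 * (rc Y)⁻¹ ^ (Y.k - Y.jb) := by
    rw [h.a1]
    exact av_far (by linarith) rw_le_rc h.jL.1
  have e4 : (Y.k : ℝ) * (Y.D * (Y.c1 * Y.K ^ Y.bs * Y.a1 Y.k)) =
      (Y.k : ℝ) * Y.D * (Y.c1 * Y.K ^ Y.bs *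
        ((rc Y / rw Y) ^ Y.L1 * (rc Y)⁻¹ ^ (Y.k - Y.jb))) := by
    rw [e3]
    ring
  rw [e4, h.kD]
  have hK0 : 0 ≤ Y.K ^ Y.bs := by positivity
  calc exp (4 * log q + ℓ) * (Y.c1 * Y.K ^ Y.bs *
        ((rc Y / rw Y) ^ Y.L1 * (rc Y)⁻¹ ^ (Y.k - Y.jb)))
      ≤ exp (4 * log q + ℓ) * (exp (0.099 * (ε * q)) * exp (ε * q / 2000) *
        (exp ((ε * q / 2 + 1) * 0.12) * exp (-ℓ - 0.719 * (ε * q)))) := by gcongr
    _ = exp (4 * log q + ℓ + (0.099 * (ε * q) + ε * q / 2000 +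
        ((ε * q / 2 + 1) * 0.12 + (-ℓ - 0.719 * (ε * q))))) := by
        simp only [← Real.exp_add]
    _ ≤ exp (-1) := by
        refine Real.exp_le_exp.2 ?_
        linarith
    _ ≤ 1 / 2 := by
        have := Real.exp_one_gt_d9
        rw [Real.exp_neg, ← one_div]
        apply one_div_le_one_div_of_le (by norm_num)
        linarith

theorem PF.sB (h : PF ε ℓ q Y Q) :
    (Y.k : ℝ) * (Y.D * (Y.ρ2 * Y.K ^ Y.bs * Y.a2 Y.k)) ≤ 1 / 8 := by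
  have hq := h.q0
  have hε := h.ε0
  have hw := h.rw0
  have hc := h.rc0
  have hwp : 0 < rw Y := by linarith
  have hcp : 0 < rc Y := by linarith
  have hK := h.K0
  have h1 := h.rck
  have h3 := h.Kbs
  have h9 := h.q3
  have h10 := h.q2
  have e3 : Y.ρ2 * Y.a2 Y.k = (rc Y)⁻¹ ^ (Y.k - Y.jb) := by
    rw [h.a2, av_far (by linarith) rw_le_rc h.jL.2, h.ρ2, ← mul_assoc, ← mul_pow]
    have : rw Y / rc Y * (rc Y / rw Y) = 1 := by field_simp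
    rw [this, one_pow, one_mul]
  have e4 : (Y.k : ℝ) * (Y.D * (Y.ρ2 * Y.K ^ Y.bs * Y.a2 Y.k)) =
      (Y.k : ℝ) * Y.D * (Y.K ^ Y.bs * (Y.ρ2 * Y.a2 Y.k)) := by ring
  rw [e4, e3, h.kD]
  calc exp (4 * log q + ℓ) * (Y.K ^ Y.bs * (rc Y)⁻¹ ^ (Y.k - Y.jb))
      ≤ exp (4 * log q + ℓ) * (exp (ε * q / 2000) * exp (-ℓ - 0.719 * (ε * q))) := by gcongr
    _ = exp (4 * log q + ℓ + (ε * q / 2000 + (-ℓ - 0.719 * (ε * q)))) := by
        simp only [← Real.exp_add]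
    _ ≤ exp (-3) := by
        refine Real.exp_le_exp.2 ?_
        linarith
    _ ≤ 1 / 8 := by
        have h2 := Real.exp_one_gt_d9
        have h3 : exp (-3) = (exp 1 ^ 3)⁻¹ := by
          rw [← Real.exp_nat_mul, ← Real.exp_neg]
          norm_num
        rw [h3, ← one_div]
        apply one_div_le_one_div_of_le (by norm_num)
        calc (8 : ℝ) = 2 ^ 3 := by norm_num
          _ ≤ exp 1 ^ 3 := by gcongr; linarith

theorem PF.st1 (h : PF ε ℓ q Y Q) : (#Y.F : ℝ) * (Y.ρ * Real.exp (Y.k * (Y.D *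
    (Y.c1 * Y.K ^ Y.bs * Y.a1 Y.k + Y.ρ2 * Y.K ^ Y.bs * Y.a2 Y.k *
      Real.exp (Y.k * (Y.D * (Y.c1 * Y.K ^ Y.bs * Y.a1 Y.k))))))) ≤ 1 / 1024 := by
  have hℓ := h.ℓ0
  have hA := h.sA
  have hB := h.sB
  have hK := h.K0
  have hA0 : 0 ≤ (Y.k : ℝ) * (Y.D * (Y.c1 * Y.K ^ Y.bs * Y.a1 Y.k)) := by
    have := h.pos.1
    have : 0 < Y.a1 Y.k := by
      rw [h.a1]
      exact av_pos (by linarith [h.rw0.1]) rw_le_rc _ _ _
    positivity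
  have hB0 : 0 ≤ (Y.k : ℝ) * (Y.D * (Y.ρ2 * Y.K ^ Y.bs * Y.a2 Y.k)) := by
    have := h.pos.2.1
    have : 0 < Y.a2 Y.k := by
      rw [h.a2]
      exact av_pos (by linarith [h.rw0.1]) rw_le_rc _ _ _
    positivity
  set A := (Y.k : ℝ) * (Y.D * (Y.c1 * Y.K ^ Y.bs * Y.a1 Y.k)) with hAd
  set B := (Y.k : ℝ) * (Y.D * (Y.ρ2 * Y.K ^ Y.bs * Y.a2 Y.k)) with hBd
  have e1 : (Y.k : ℝ) * (Y.D * (Y.c1 * Y.K ^ Y.bs * Y.a1 Y.k +
      Y.ρ2 * Y.K ^ Y.bs * Y.a2 Y.k * exp A)) = A + B * exp A := by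
    rw [hAd, hBd]
    ring
  rw [e1, h.ρ]
  have he := Real.exp_one_lt_d9
  have e2 : exp A ≤ 3 := by
    calc exp A ≤ exp 1 := Real.exp_le_exp.2 (by linarith)
      _ ≤ 3 := by linarith
  have e3 : A + B * exp A ≤ 1 := by nlinarith
  have e4 : exp (A + B * exp A) ≤ 3 := by
    calc exp (A + B * exp A) ≤ exp 1 := Real.exp_le_exp.2 e3
      _ ≤ 3 := by linarith
  have e5 := h.F
  calc (#Y.F : ℝ) * (exp (-(16 / 5) * ℓ) * exp (A + B * exp A))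
      ≤ exp (3 * ℓ) * (exp (-(16 / 5) * ℓ) * 3) := by gcongr
    _ = 3 * exp (-(1 / 5) * ℓ) := by
        rw [← mul_assoc, ← Real.exp_add]
        ring_nf
    _ ≤ 1 / 1024 := by
        have e6 : (1 / 5) * ℓ ≤ exp ((1 / 5) * ℓ) := by
          have := Real.add_one_le_exp ((1 / 5) * ℓ)
          linarith
        have e7 : exp (-(1 / 5) * ℓ) * exp ((1 / 5) * ℓ) = 1 := by
          rw [← Real.exp_add]
          ring_nf
          exact Real.exp_zero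
        have e8 := Real.exp_pos (-(1 / 5) * ℓ)
        nlinarith

theorem PF.st2 (h : PF ε ℓ q Y Q) :
    (#Y.S : ℝ) * (Y.ρP * Real.exp (Y.D * (Y.c1 * Y.K ^ Y.bs * Y.a1 Y.k))) ≤ 1 / 1024 := by
  have hℓ := h.ℓ0
  have hA := h.sA
  have hK := h.K0
  have hc := h.pos.1
  have ha : 0 < Y.a1 Y.k := by
    rw [h.a1]
    exact av_pos (by linarith [h.rw0.1]) rw_le_rc _ _ _
  have h0 : 0 ≤ (Y.D : ℝ) * (Y.c1 * Y.K ^ Y.bs * Y.a1 Y.k) := by positivity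
  have hk : (1 : ℝ) ≤ Y.k := by
    rw [h.kq]
    have := h.q0
    nlinarith
  have e1 : (Y.D : ℝ) * (Y.c1 * Y.K ^ Y.bs * Y.a1 Y.k) ≤ 1 := by nlinarith
  have he := Real.exp_one_lt_d9
  have e2 : exp (Y.D * (Y.c1 * Y.K ^ Y.bs * Y.a1 Y.k)) ≤ 3 := by
    calc exp (Y.D * (Y.c1 * Y.K ^ Y.bs * Y.a1 Y.k)) ≤ exp 1 := Real.exp_le_exp.2 e1
      _ ≤ 3 := by linarith
  rw [h.S, h.ρP]
  calc exp (2 * ℓ) * (exp (-(11 / 5) * ℓ) * exp (Y.D * (Y.c1 * Y.K ^ Y.bs * Y.a1 Y.k)))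
      ≤ exp (2 * ℓ) * (exp (-(11 / 5) * ℓ) * 3) := by gcongr
    _ = 3 * exp (-(1 / 5) * ℓ) := by
        rw [← mul_assoc, ← Real.exp_add]
        ring_nf
    _ ≤ 1 / 1024 := by
        have e6 : (1 / 5) * ℓ ≤ exp ((1 / 5) * ℓ) := by
          have := Real.add_one_le_exp ((1 / 5) * ℓ)
          linarith
        have e7 : exp (-(1 / 5) * ℓ) * exp ((1 / 5) * ℓ) = 1 := by
          rw [← Real.exp_add]
          ring_nf
          exact Real.exp_zero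
        have e8 := Real.exp_pos (-(1 / 5) * ℓ)
        nlinarith

end Pool.H33.MB2
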