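import Pool.Agent.H33.MB2.NumDefs

/-!
# MB2 NUF: start values of the macro tuples

Notation: `x = log (4/3)`, `z = log (3/2)`, `t = log 2`, `u = ℓ x / z`, `v = ℓ x / t`.  Facts: `u ≥ (17/24) ℓ`, `v ≤ (22/53) ℓ` (`log_ratio1`, `log_ratio2`);
`K^(bs + am) ≤ exp (q^2/10000)` (`Kpow`, `q5`), `q^2 ≤ 5.4 ℓ` (`qq`), so `≤ exp (0.00054 ℓ)`; `q ≤ ℓ/1000`, `log q ≤ q/20000`, `κH q ≤ ℓ/400`, `H1 ≤ κH q`,
`smax = 363` (`tm = 180`).
* `rwk`: `(k - jb)(x - δ) ≥ ℓ x / z + 1.8 εq x - εq/100 ≥ u`, so `rw⁻¹^(k - jb) ≤ exp (-u)`.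
* `stnb`: `stn = 364 (k + k^3 L) = 364 (q^2 + q^10) ≤ 728 q^10 ≤ exp (7 + 10 log q)`.
* `ffr_le`: `log ffr ≤ 7 + 10 log q + ℓ + 2 log q + 0.00054 ℓ + x - u ≤ ℓ - u + 0.0006 ℓ` (`ℓ ≥ 10^6`, `log q ≤ q/20000 ≤ ℓ / (2 * 10^7)`).
* `fti_le`: `kap = ((q+1)/2)^2 ≤ q^2/4 + q/2 + 1/4`, `t1 ≤ q^2/202500`, `363/202500 ≤ 0.0018`: `(kap + 363 t1) log rw ≤ (0.2518 q^2 + q/2 + 1/4) x`, and
  `q^2 x ≤ u + 2 v + 4 q x` (`F2`), so this is `≤ 0.2518 u + 0.5036 v + 0.5 q`.  So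
  `log fti ≤ 14 + 20 log q + 4 log q + ℓ/40 + 0.00054 ℓ + 0.2518 u + 0.5036 v + 0.5 q - u ≤ 0.0263 ℓ - 0.7482 u + 0.5036 v` (`q ≤ ℓ/1000`).
* `st3`: `0.0263 - 0.7482 * 17/24 + 0.5036 * 22/53 < 0`.
* `st3'`: `1.0006 ℓ - u + 0.0263 ℓ - 0.7482 u + 0.5036 v ≤ (1.0269 - 1.7482 * 17/24 + 0.5036 * 22/53) ℓ < 0`
  (`1.0269 - 1.23831 + 0.20905 = -0.00236`).
* `st3''`: `1 + ffr ≤ 2 exp (0.2924 ℓ)` (`ℓ - u + 0.0006 ℓ ≤ (7/24 + 0.0006) ℓ`), `3 ℓ - 4.2 ℓ + 364 log 2 + 3 log 2 + 0.8772 ℓ < -7`.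
-/

set_option linter.unusedSectionVars false

namespace Pool.H33.MB2

open Finset Real

variable {X Γ : Type*} [DecidableEq X] {ε ℓ : ℝ} {q : ℕ} {Y : Sys X Γ} {Q : Num2}

theorem PF.ulow (h : PF ε ℓ q Y Q) :
    17 / 24 * ℓ ≤ ℓ * log (4 / 3) / log (3 / 2) := by
  have h1 := log_ratio1
  have h2 := log32_ge
  have h3 := h.ℓ0
  rw [le_div_iff₀ (by linarith)]
  nlinarith

theorem PF.vup (h : PF ε ℓ q Y Q) :
    ℓ * log (4 / 3) / log 2 ≤ 22 / 53 * ℓ := by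
  have h1 := log_ratio2
  have h2 := log2_gt
  have h3 := h.ℓ0
  rw [div_le_iff₀ (by linarith)]
  nlinarith

theorem PF.qx (h : PF ε ℓ q Y Q) :
    (q : ℝ) ^ 2 * log (4 / 3) ≤ ℓ * log (4 / 3) / log (3 / 2) +
      2 * (ℓ * log (4 / 3) / log 2) + 4 * q * log (4 / 3) := by
  have h1 := h.F2
  have h2 := log43_ge
  calc (q : ℝ) ^ 2 * log (4 / 3)
      ≤ (ℓ / log (3 / 2) + 2 * ℓ / log 2 + 4 * q) * log (4 / 3) :=
        mul_le_mul_of_nonneg_right h1 (by linarith)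
    _ = _ := by ring

/-- `log q ≤ ℓ / (2 * 10^7)`. -/
theorem PF.lqb (h : PF ε ℓ q Y Q) : 20000000 * log q ≤ ℓ := by
  have h1 := h.q3
  have h2 := h.ε1
  have h3 := h.q0
  have h4 := h.q9
  have h5 : ε * q ≤ q := by nlinarith
  linarith

theorem PF.rwk (h : PF ε ℓ q Y Q) :
    (rw Y)⁻¹ ^ (Y.k - Y.jb) ≤ exp (-(ℓ * log (4 / 3) / log (3 / 2))) := by
  have h1 := h.rw0
  have h2 := h.lrw
  have h3 := h.kj
  have h4 := h.kjc
  have h5 := h.δk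
  have h6 := h.δ0
  have h7 := h.δ1
  have h8 := log43_ge
  have h9 := h.q2
  have h10 : (0 : ℝ) ≤ Y.jb := Nat.cast_nonneg _
  have h11 := log32_ge
  have h12 := h.ℓ0
  rw [inv_pow_eq_exp (by linarith)]
  apply Real.exp_le_exp.2
  apply neg_le_neg
  rw [h4]
  have e0 : 0 ≤ (Y.k : ℝ) - Y.jb := by
    have : 0 ≤ ℓ / log (3 / 2) := by positivity
    linarith
  have e1 : ((Y.k : ℝ) - Y.jb) * (log (4 / 3) - Y.δ) ≤ ((Y.k : ℝ) - Y.jb) * log (rw Y) :=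
    mul_le_mul_of_nonneg_left h2.1 e0
  have e2 : (ℓ / log (3 / 2) + 1.8 * (ε * q)) * log (4 / 3) ≤
      ((Y.k : ℝ) - Y.jb) * log (4 / 3) := mul_le_mul_of_nonneg_right h3 (by linarith)
  have e3 : Y.δ * ((Y.k : ℝ) - Y.jb) ≤ ε * q / 100 := by
    rw [← h5]
    exact mul_le_mul_of_nonneg_left (by linarith) h6.le
  have e4 : 0.2873 * (ε * q) ≤ (ε * q) * log (4 / 3) := by nlinarith
  have e5 : ℓ * log (4 / 3) / log (3 / 2) = ℓ / log (3 / 2) * log (4 / 3) := by ring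
  rw [e5]
  nlinarith

theorem PF.stnb (h : PF ε ℓ q Y Q) : (stn Y : ℝ) ≤ exp (7 + 10 * log q) := by
  have h1 := h.q0
  have hq : (0 : ℝ) < q := by linarith
  have e1 : (stn Y : ℝ) = 364 * ((q : ℝ) ^ 2 + (q : ℝ) ^ 10) := by
    unfold stn smax
    rw [h.k, h.L, h.tm]
    push_cast
    ring
  have e2 : (q : ℝ) ^ 2 ≤ (q : ℝ) ^ 10 := pow_le_pow_right₀ (by linarith) (by norm_num)
  have e3 : (q : ℝ) ^ 10 = exp (10 * log q) := by
    rw [pow_eq_exp hq]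
    norm_num
  have e4 : (728 : ℝ) ≤ exp 7 := by
    have := Real.exp_one_gt_d9
    have e : exp 7 = exp 1 ^ 7 := by
      rw [← Real.exp_nat_mul]
      norm_num
    rw [e]
    calc (728 : ℝ) ≤ 2.7 ^ 7 := by norm_num
      _ ≤ exp 1 ^ 7 := by gcongr; linarith
  rw [e1, Real.exp_add, ← e3]
  have e5 : 0 ≤ (q : ℝ) ^ 10 := by positivity
  nlinarith

theorem PF.Kb (h : PF ε ℓ q Y Q) : Y.K ^ (Y.bs + Y.am) ≤ exp (0.00054 * ℓ) := by
  have h1 := h.q5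
  have h2 := h.qq
  rw [h.Kpow]
  apply Real.exp_le_exp.2
  push_cast
  linarith

theorem PF.rwx (h : PF ε ℓ q Y Q) : rw Y ≤ exp (log (4 / 3)) := by
  rw [Real.exp_log (by norm_num)]
  exact h.rw0.2

theorem PF.ffr_le (h : PF ε ℓ q Y Q) :
    ffr Y ≤ exp (1.0006 * ℓ - ℓ * log (4 / 3) / log (3 / 2)) := by
  have h1 := h.rwk
  have h2 := h.stnb
  have h3 := h.Kb
  have h4 := h.rwx
  have h5 := h.lqb
  have h6 := h.ℓ0
  have h7 := log43_le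
  have h8 := h.q0
  have h9 := h.K0
  have h10 := h.rw0
  have hq : (0 : ℝ) < q := by linarith
  have e1 : (Y.D : ℝ) = exp (ℓ + 2 * log q) := by
    rw [h.D, Real.exp_add, pow_eq_exp hq]
    norm_num
  unfold ffr
  have hK : 0 ≤ Y.K ^ (Y.bs + Y.am) := by
    have : 0 ≤ Y.K := by linarith
    positivity
  have hr : 0 ≤ rw Y := by linarith
  have hri : 0 ≤ (rw Y)⁻¹ ^ (Y.k - Y.jb) := by positivity
  calc (stn Y : ℝ) * Y.D * Y.K ^ (Y.bs + Y.am) * rw Y * (rw Y)⁻¹ ^ (Y.k - Y.jb)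
      ≤ exp (7 + 10 * log q) * exp (ℓ + 2 * log q) * exp (0.00054 * ℓ) * exp (log (4 / 3)) *
        exp (-(ℓ * log (4 / 3) / log (3 / 2))) := by
        rw [e1]
        gcongr
    _ = exp (7 + 10 * log q + (ℓ + 2 * log q) + 0.00054 * ℓ + log (4 / 3) +
          -(ℓ * log (4 / 3) / log (3 / 2))) := by
        simp only [Real.exp_add]
    _ ≤ _ := by
        apply Real.exp_le_exp.2
        linarith

theorem PF.fti_le (h : PF ε ℓ q Y Q) :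
    fti Y ≤ exp (0.0263 * ℓ - 0.7482 * (ℓ * log (4 / 3) / log (3 / 2)) +
      0.5036 * (ℓ * log (4 / 3) / log 2)) := by
  have h1 := h.rwk
  have h2 := h.stnb
  have h3 := h.Kb
  have h5 := h.lqb
  have h6 := h.ℓ0
  have h7 := log43_le
  have h7' := log43_ge
  have h8 := h.q0
  have h9 := h.K0
  have h10 := h.rw0
  have h11 := h.lrw
  have h12 := h.qx
  have h13 := h.q9
  have hq : (0 : ℝ) < q := by linarith
  have hK : 0 ≤ Y.K ^ (Y.bs + Y.am) := by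
    have : 0 ≤ Y.K := by linarith
    positivity
  have hr : 0 < rw Y := by linarith
  have hri : 0 ≤ (rw Y)⁻¹ ^ (Y.k - Y.jb) := by positivity
  have e1 : (Y.L : ℝ) = exp (4 * log q) := by
    have : (Y.L : ℝ) = (q : ℝ) ^ 4 := by
      rw [h.L]
      push_cast
      ring
    rw [this, pow_eq_exp hq]
    norm_num
  have e2 : (stn Y : ℝ) ^ 2 ≤ exp (14 + 20 * log q) := by
    have : exp (14 + 20 * log q) = exp (7 + 10 * log q) ^ 2 := by
      rw [← Real.exp_nat_mul]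
      congr 1
      push_cast
      ring
    rw [this]
    gcongr
  have e3 : ((Y.kap + smax Y * Y.t1 : ℕ) : ℝ) ≤ 0.2518 * (q : ℝ) ^ 2 + q / 2 + 1 / 4 := by
    have a1 : (Y.kap : ℝ) ≤ (q : ℝ) ^ 2 / 4 + q / 2 + 1 / 4 := by
      rw [h.kap]
      push_cast
      have : (((q + 1) / 2 : ℕ) : ℝ) ≤ ((q : ℝ) + 1) / 2 := by
        have := @Nat.cast_div_le ℝ _ _ _ (q + 1) 2
        push_cast at this
        exact this
      calc ((((q + 1) / 2 : ℕ) : ℝ)) ^ 2 ≤ (((q : ℝ) + 1) / 2) ^ 2 := by gcongr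
        _ = _ := by ring
    have a2 : (Y.t1 : ℝ) ≤ (q : ℝ) ^ 2 / 202500 := by
      rw [h.t1]
      exact Nat.floor_le (by positivity)
    have a3 : (smax Y : ℝ) = 363 := by
      unfold smax
      rw [h.tm]
      norm_num
    push_cast
    rw [a3]
    have a4 : 0 ≤ (q : ℝ) ^ 2 := by positivity
    linarith
  have e4 : rw Y ^ (Y.kap + smax Y * Y.t1) ≤
      exp (0.2518 * (ℓ * log (4 / 3) / log (3 / 2)) + 0.5036 * (ℓ * log (4 / 3) / log 2) +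
        0.5 * q) := by
    rw [pow_eq_exp hr]
    apply Real.exp_le_exp.2
    have b1 : ((Y.kap + smax Y * Y.t1 : ℕ) : ℝ) * log (rw Y) ≤
        (0.2518 * (q : ℝ) ^ 2 + q / 2 + 1 / 4) * log (4 / 3) := by
      apply mul_le_mul e3 h11.2
      · exact Real.log_nonneg (by linarith)
      · positivity
    have b2 : (q : ℝ) * log (4 / 3) ≤ 0.2878 * q := by nlinarith
    calc _ ≤ _ := b1
      _ = 0.2518 * ((q : ℝ) ^ 2 * log (4 / 3)) + ((q : ℝ) * log (4 / 3)) / 2 +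
          log (4 / 3) / 4 := by ring
      _ ≤ _ := by linarith
  have hg : 0 ≤ Y.gt := by
    rw [h.gt]
    positivity
  unfold fti
  calc (stn Y : ℝ) ^ 2 * Y.L * Y.gt * Y.K ^ (Y.bs + Y.am) * rw Y ^ (Y.kap + smax Y * Y.t1) *
        (rw Y)⁻¹ ^ (Y.k - Y.jb)
      ≤ exp (14 + 20 * log q) * exp (4 * log q) * exp (ℓ / 40) * exp (0.00054 * ℓ) *
        exp (0.2518 * (ℓ * log (4 / 3) / log (3 / 2)) + 0.5036 * (ℓ * log (4 / 3) / log 2) +
        0.5 * q) * exp (-(ℓ * log (4 / 3) / log (3 / 2))) := by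
        rw [e1, h.gt]
        gcongr
    _ = exp (14 + 20 * log q + 4 * log q + ℓ / 40 + 0.00054 * ℓ +
        (0.2518 * (ℓ * log (4 / 3) / log (3 / 2)) + 0.5036 * (ℓ * log (4 / 3) / log 2) +
        0.5 * q) + -(ℓ * log (4 / 3) / log (3 / 2))) := by
        simp only [Real.exp_add]
    _ ≤ _ := by
        apply Real.exp_le_exp.2
        linarith

theorem PF.st3 (h : PF ε ℓ q Y Q) : fti Y ≤ 1 := by
  have h1 := h.fti_le
  have h2 := h.ulow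
  have h3 := h.vup
  have h4 := h.ℓ0
  refine h1.trans ?_
  rw [← Real.exp_zero]
  apply Real.exp_le_exp.2
  linarith

theorem PF.ffr0 (h : PF ε ℓ q Y Q) : 0 ≤ ffr Y := by
  have h9 := h.K0
  have h10 := h.rw0
  have hK : 0 ≤ Y.K ^ (Y.bs + Y.am) := by
    have : 0 ≤ Y.K := by linarith
    positivity
  have hr : 0 ≤ rw Y := by linarith
  have hri : 0 ≤ (rw Y)⁻¹ ^ (Y.k - Y.jb) := by positivity
  unfold ffr
  positivity

theorem PF.st3' (h : PF ε ℓ q Y Q) : ffr Y * fti Y ≤ 1 := by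
  have h1 := h.fti_le
  have h1' := h.ffr_le
  have h2 := h.ulow
  have h3 := h.vup
  have h4 := h.ℓ0
  have h5 := h.ffr0
  calc ffr Y * fti Y ≤ ffr Y * exp (0.0263 * ℓ - 0.7482 * (ℓ * log (4 / 3) / log (3 / 2)) +
      0.5036 * (ℓ * log (4 / 3) / log 2)) := mul_le_mul_of_nonneg_left h1 h5
    _ ≤ exp (1.0006 * ℓ - ℓ * log (4 / 3) / log (3 / 2)) *
      exp (0.0263 * ℓ - 0.7482 * (ℓ * log (4 / 3) / log (3 / 2)) +
      0.5036 * (ℓ * log (4 / 3) / log 2)) := mul_le_mul_of_nonneg_right h1' (exp_pos _).le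
    _ ≤ 1 := by
      rw [← Real.exp_add, ← Real.exp_zero]
      apply Real.exp_le_exp.2
      linarith

theorem PF.st3'' (h : PF ε ℓ q Y Q) :
    (#Y.F : ℝ) * (Y.ρG * (2 ^ (smax Y + 1) * (1 + ffr Y) ^ 3)) ≤ 1 / 1024 := by
  have h1 := h.ffr_le
  have h2 := h.ulow
  have h4 := h.ℓ0
  have h5 := h.ffr0
  have h6 := h.F
  have h7 := log2_lt
  have e1 : 1 + ffr Y ≤ exp (log 2 + 0.2924 * ℓ) := by
    have a1 : ffr Y ≤ exp (0.2924 * ℓ) := by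
      refine h1.trans ?_
      apply Real.exp_le_exp.2
      linarith
    have a2 : 1 ≤ exp (0.2924 * ℓ) := Real.one_le_exp (by linarith)
    rw [Real.exp_add, Real.exp_log (by norm_num)]
    linarith
  have e2 : (1 + ffr Y) ^ 3 ≤ exp (3 * (log 2 + 0.2924 * ℓ)) := by
    have : exp (3 * (log 2 + 0.2924 * ℓ)) = exp (log 2 + 0.2924 * ℓ) ^ 3 := by
      rw [← Real.exp_nat_mul]
      congr 1
    rw [this]
    gcongr
  have e3 : (2 : ℝ) ^ (smax Y + 1) = exp (364 * log 2) := by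
    have : smax Y + 1 = 364 := by
      unfold smax
      rw [h.tm]
    rw [this, pow_eq_exp (by norm_num)]
    norm_num
  have e4 : (1 : ℝ) / 1024 = exp (-(10 * log 2)) := by
    rw [Real.exp_neg]
    have : exp (10 * log 2) = (2 : ℝ) ^ 10 := by
      rw [pow_eq_exp (by norm_num)]
      norm_num
    rw [this]
    norm_num
  rw [e3, e4, h.ρG]
  calc (#Y.F : ℝ) * (exp (-(21 / 5) * ℓ) * (exp (364 * log 2) * (1 + ffr Y) ^ 3))
      ≤ exp (3 * ℓ) * (exp (-(21 / 5) * ℓ) * (exp (364 * log 2) *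
        exp (3 * (log 2 + 0.2924 * ℓ)))) := by
        gcongr
    _ = exp (3 * ℓ + (-(21 / 5) * ℓ + (364 * log 2 + 3 * (log 2 + 0.2924 * ℓ)))) := by
        rw [Real.exp_add, Real.exp_add, Real.exp_add]
    _ ≤ _ := by
        apply Real.exp_le_exp.2
        linarith

end Pool.H33.MB2
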