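import Pool.Agent.H33.MB2.NumDefs

/-!
# MB2 NUF2: start values of the pairs, closed cycles, joins of pairs

Notation: `x = log (4/3)`, `z = log (3/2)`, `t = log 2`, `u = ℓ x / z`, `v = ℓ x / t`.  Facts: `u ≥ (17/24) ℓ`, `v ≤ (22/53) ℓ` (`log_ratio1`, `log_ratio2`);
`K^(bs + am) ≤ exp (q^2/10000)` (`Kpow`, `q5`), `q^2 ≤ 5.4 ℓ` (`qq`), so `≤ exp (0.00054 ℓ)`; `q ≤ ℓ/1000`, `log q ≤ q/20000`, `κH q ≤ ℓ/400`, `H1 ≤ κH q`,
`smax = 363` (`tm = 180`), `q^2 x ≤ u + 2 v + 4 q x` (`F2`).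
* `st4`: `2 k - kap - 2 jb` (truncated, but `2 (k - jb) ≥ 2 ℓ/z ≥ kap`): `2 (k - jb)(x - δ) ≥ 2 u` (`kj`, `δk`, `1.8 * 0.2873 ≥ 0.01`) and
  `kap (x - δ) ≤ kap x ≤ (q^2/4 + q/2 + 1/4) x ≤ (u + 2 v)/4 + q`.  Total log:
  `3 ℓ + 8 log q - 1.98 ℓ + 0.0011 ℓ - 2 u + (u + 2 v)/4 + q ≤ (1.02 + 0.0011 + 0.0011 - 1.75 * 17/24 + 0.5 * 22/53) ℓ < -0.009 ℓ`.
* `gc`: `-4.2 ℓ + 180 ℓ/40 - 363 H1 x ≥ 0.3 ℓ - 363 * 0.2878 ℓ/400 > 0` (`= 0.3 - 0.2612`).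
* `cp`: `log` of the left side `≤ 0.00054 ℓ - jm (t - δ) ≤ 0.00054 ℓ - 2 ℓ + εq/100` (`jm1`, `jm ≤ jb ≤ k`, `δk`); the right side is
  `-1.98 ℓ - 2 H1 log rw ≥ -1.98 ℓ - 0.58 ℓ/400`.
-/

set_option linter.unusedSectionVars false

namespace Pool.H33.MB2

open Finset Real

variable {X Γ : Type*} [DecidableEq X] {ε ℓ : ℝ} {q : ℕ} {Y : Sys X Γ} {Q : Num2}

theorem PF.smx (h : PF ε ℓ q Y Q) : smax Y = 363 := by
  unfold smax
  rw [h.tm]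

/-- `κH q ≤ ℓ / 400`, so `H1 ≤ ℓ / 400`. -/
theorem PF.H1ℓ (h : PF ε ℓ q Y Q) : (Y.H1 : ℝ) ≤ ℓ / 400 := by
  have h1 := h.H1b
  have h2 := h.q7
  linarith

theorem PF.E2 (h : PF ε ℓ q Y Q) (n : ℕ) :
    Y.K ^ (n * (Y.bs + Y.am)) ≤ exp (n * (0.00054 * ℓ)) := by
  have h1 := h.q5
  have h2 := h.qq.2
  rw [h.Kpow]
  refine Real.exp_le_exp.2 ?_
  push_cast
  have e1 : ((Y.bs : ℝ) + Y.am) * log Y.K ≤ 0.00054 * ℓ := by linarith
  calc (n : ℝ) * ((Y.bs : ℝ) + Y.am) * log Y.K = n * (((Y.bs : ℝ) + Y.am) * log Y.K) := by ring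
    _ ≤ n * (0.00054 * ℓ) := by gcongr

/-- `log q ≤ ℓ / 10^7`. -/
theorem PF.lqℓ (h : PF ε ℓ q Y Q) : log q ≤ ℓ / 10000000 := by
  have h1 := h.q3
  have h2 := h.q9
  have h3 := mul_le_mul_of_nonneg_right h.ε1 (Nat.cast_nonneg (α := ℝ) q)
  linarith

theorem PF.st4 (h : PF ε ℓ q Y Q) :
    (#Y.F : ℝ) * (Y.k ^ 2 * Y.L * (Y.ρC * (Y.K ^ (2 * (Y.bs + Y.am)) *
      (rw Y)⁻¹ ^ (2 * Y.k - Y.kap - 2 * Y.jb)))) ≤ 1 / 1024 := by
  have hℓ := h.ℓ0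
  have hq := h.q0
  have hε := h.ε1
  have hε0 := h.ε0
  have hw := h.rw0
  have hwp : 0 < rw Y := by linarith
  have hx := h.lrw
  have hx1 := log43_le
  have hx2 := log43_ge
  have h4 := h.E2 2
  have hlq := h.lqℓ
  have hkj := h.kj
  have hδk := h.δk
  have hF1 := h.F1
  have hF2 := h.F2
  have hz := log32_ge
  have hz2 := log32_le
  have ht := log2_gt
  have ht2 := log2_lt
  have hr1 := log_ratio1
  have hr2 := log_ratio2
  have hq9 := h.q9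
  have hq2 := h.q2
  have hδ0 := h.δ0
  have hzp : 0 < log (3 / 2) := by linarith
  have htp : 0 < log 2 := by linarith
  have hF := h.F
  have hq' : (0 : ℝ) < q := by linarith
  have hjk := h.jk
  -- the truncated subtraction
  have hkap : (Y.kap : ℝ) ≤ (q : ℝ) ^ 2 / 4 + q / 2 + 1 / 4 := by
    rw [h.kap]
    have e1 : (((q + 1) / 2 : ℕ) : ℝ) ≤ ((q : ℝ) + 1) / 2 := by
      have := @Nat.cast_div_le ℝ _ _ _ (q + 1) 2
      push_cast at this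
      exact this
    push_cast
    calc (((q + 1) / 2 : ℕ) : ℝ) ^ 2 ≤ (((q : ℝ) + 1) / 2) ^ 2 := by gcongr
      _ = _ := by ring
  have hu0 : 2.46 * ℓ ≤ ℓ / log (3 / 2) := by
    rw [le_div_iff₀ hzp]
    have : 2.46 * ℓ * log (3 / 2) ≤ 2.46 * ℓ * 0.4058 := by gcongr
    linarith
  have hkl : (Y.kap : ℝ) + 2 * Y.jb ≤ 2 * Y.k := by
    have := h.qq.2
    linarith
  have hcast : ((2 * Y.k - Y.kap - 2 * Y.jb : ℕ) : ℝ) = 2 * ((Y.k : ℝ) - Y.jb) - Y.kap := by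
    have e1 : Y.kap + 2 * Y.jb ≤ 2 * Y.k := by exact_mod_cast hkl
    have e2 : 2 * Y.k - Y.kap - 2 * Y.jb + (Y.kap + 2 * Y.jb) = 2 * Y.k := by omega
    have e3 : ((2 * Y.k - Y.kap - 2 * Y.jb : ℕ) : ℝ) + ((Y.kap : ℝ) + 2 * Y.jb) = 2 * Y.k := by
      exact_mod_cast e2
    linarith
  set x := log (4 / 3) with hxd
  set z := log (3 / 2) with hzd
  set t := log 2 with htd
  set u := ℓ * x / z with hud
  set v := ℓ * x / t with hvd
  have hu : 17 / 24 * ℓ ≤ u := by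
    rw [hud, le_div_iff₀ hzp]
    have := mul_le_mul_of_nonneg_left hr1 (show (0 : ℝ) ≤ ℓ by linarith)
    linarith
  have hv : v ≤ 22 / 53 * ℓ := by
    rw [hvd, div_le_iff₀ htp]
    have := mul_le_mul_of_nonneg_left hr2 (show (0 : ℝ) ≤ ℓ by linarith)
    linarith
  have hz' : ℓ / z * x = u := by rw [hud]; ring
  have ht' : ℓ / t * x = v := by rw [hvd]; ring
  -- lower bound of the exponent
  have g1 : 2 * u ≤ 2 * ((Y.k : ℝ) - Y.jb) * log (rw Y) := by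
    have e0 : 0 ≤ (Y.k : ℝ) - Y.jb := by
      rw [← h.kjc]
      exact Nat.cast_nonneg _
    have e1 : ((Y.k : ℝ) - Y.jb) * (x - Y.δ) ≤ ((Y.k : ℝ) - Y.jb) * log (rw Y) := by
      have := hx.1
      gcongr
    have e2 : (ℓ / z + 1.8 * (ε * q)) * x ≤ ((Y.k : ℝ) - Y.jb) * x := by gcongr
    have e3 : ((Y.k : ℝ) - Y.jb) * Y.δ ≤ Y.δ * Y.k := by
      have := mul_nonneg (Nat.cast_nonneg (α := ℝ) Y.jb) hδ0.le
      linarith
    have e4 : ε * q * 0.2873 ≤ ε * q * x := by gcongr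
    have e5 : 0 < ε * q := by positivity
    have e6 : (ℓ / z + 1.8 * (ε * q)) * x = u + 1.8 * (ε * q * x) := by
      rw [← hz']
      ring
    have e7 : ((Y.k : ℝ) - Y.jb) * (x - Y.δ) = ((Y.k : ℝ) - Y.jb) * x - ((Y.k : ℝ) - Y.jb) * Y.δ := by
      ring
    have e8 : 2 * ((Y.k : ℝ) - Y.jb) * log (rw Y) = 2 * (((Y.k : ℝ) - Y.jb) * log (rw Y)) := by ring
    rw [e8]
    rw [e6] at e2
    rw [e7] at e1
    linarith
  have g2 : (Y.kap : ℝ) * log (rw Y) ≤ (u + 2 * v) / 4 + q := by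
    have e0 : 0 ≤ log (rw Y) := Real.log_nonneg (by linarith)
    have e1 : (Y.kap : ℝ) * log (rw Y) ≤ ((q : ℝ) ^ 2 / 4 + q / 2 + 1 / 4) * x := by
      have := hx.2
      gcongr
    have e2 : (q : ℝ) ^ 2 * x ≤ (ℓ / z + 2 * ℓ / t + 4 * q) * x := by
      have : 0 < x := by linarith
      gcongr
    have e3 : (ℓ / z + 2 * ℓ / t + 4 * q) * x = u + 2 * v + 4 * q * x := by
      rw [← hz', ← ht']
      ring
    have e4 : (q : ℝ) * x ≤ q * 0.2878 := by gcongr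
    have e5 : ((q : ℝ) ^ 2 / 4 + q / 2 + 1 / 4) * x = (q : ℝ) ^ 2 * x / 4 + q * x / 2 + x / 4 := by
      ring
    rw [e3] at e2
    rw [e5] at e1
    linarith
  -- sizes
  have hkL : (Y.k : ℝ) ^ 2 * Y.L = exp (8 * log q) := by
    have : (Y.L : ℝ) = (q : ℝ) ^ 4 := by
      rw [h.L]
      push_cast
      ring
    rw [this, h.kq]
    have e : exp (8 * log q) = (q : ℝ) ^ 8 := by
      rw [pow_eq_exp hq' 8]
      norm_num
    rw [e]
    ring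
  have hrw : (rw Y)⁻¹ ^ (2 * Y.k - Y.kap - 2 * Y.jb) ≤ exp (-(2 * u) + ((u + 2 * v) / 4 + q)) := by
    rw [inv_pow_eq_exp hwp, hcast]
    refine Real.exp_le_exp.2 ?_
    have : (2 * ((Y.k : ℝ) - Y.jb) - Y.kap) * log (rw Y) =
        2 * ((Y.k : ℝ) - Y.jb) * log (rw Y) - Y.kap * log (rw Y) := by ring
    rw [this]
    linarith
  have hK := h.K0
  rw [hkL, h.ρC]
  calc (#Y.F : ℝ) * (exp (8 * log q) * (exp (-(99 / 50) * ℓ) * (Y.K ^ (2 * (Y.bs + Y.am)) *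
        (rw Y)⁻¹ ^ (2 * Y.k - Y.kap - 2 * Y.jb))))
      ≤ exp (3 * ℓ) * (exp (8 * log q) * (exp (-(99 / 50) * ℓ) * (exp ((2 : ℕ) * (0.00054 * ℓ)) *
        exp (-(2 * u) + ((u + 2 * v) / 4 + q))))) := by
        have : 0 ≤ (rw Y)⁻¹ ^ (2 * Y.k - Y.kap - 2 * Y.jb) := by positivity
        gcongr
    _ = exp (3 * ℓ + (8 * log q + (-(99 / 50) * ℓ + (((2 : ℕ) : ℝ) * (0.00054 * ℓ) +
        (-(2 * u) + ((u + 2 * v) / 4 + q)))))) := by
        simp only [← Real.exp_add]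
    _ ≤ exp (-(0.009 * ℓ)) := by
        refine Real.exp_le_exp.2 ?_
        push_cast
        linarith
    _ ≤ 1 / 1024 := by
        have e6 : 0.009 * ℓ ≤ exp (0.009 * ℓ) := by
          have := Real.add_one_le_exp (0.009 * ℓ)
          linarith
        rw [Real.exp_neg, ← one_div]
        apply one_div_le_one_div_of_le (by norm_num)
        linarith

theorem PF.gc (h : PF ε ℓ q Y Q) :
    1 / 16 < Y.ρG * Y.gt ^ Y.tm * (rw Y)⁻¹ ^ (Y.H1 * smax Y) := by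
  have hℓ := h.ℓ0
  have hw := h.rw0
  have hwp : 0 < rw Y := by linarith
  have h1 := h.lrw.2
  have h2 := log43_le
  have h3 := h.H1ℓ
  rw [h.ρG, h.gt, h.tm, ← Real.exp_nat_mul, inv_pow_eq_exp hwp, ← Real.exp_add, ← Real.exp_add,
    h.smx]
  push_cast
  have e1 : (Y.H1 : ℝ) * 363 * log (rw Y) ≤ ℓ / 400 * 363 * 0.2878 := by
    have : log (rw Y) ≤ 0.2878 := by linarith
    have h0 : 0 ≤ log (rw Y) := Real.log_nonneg (by linarith)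
    gcongr
  have e2 : 1 ≤ exp (-(21 / 5) * ℓ + 180 * (ℓ / 40) + -((Y.H1 : ℝ) * 363 * log (rw Y))) :=
    Real.one_le_exp (by linarith)
  linarith

theorem PF.cp (h : PF ε ℓ q Y Q) :
    Y.K ^ (Y.bs + Y.am) / (2 - Y.δ) ^ Y.jm ≤ Y.ρC * (rw Y)⁻¹ ^ (2 * Y.H1) := by
  have hℓ := h.ℓ0
  have hq := h.q0
  have hε := h.ε1
  have hε0 := h.ε0
  have hw := h.rw0
  have hwp : 0 < rw Y := by linarith
  have h1 := h.lrw.2
  have h2 := log43_le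
  have h3 := h.H1ℓ
  have h4 := h.E2 1
  have h5 := h.l2.1
  have h6 := h.jm1
  have h7 := h.δk
  have h8 := h.δ1
  have h9 := log2_gt
  have h10 := h.q9
  have h11 := h.δ0
  have h2p : 0 < 2 - Y.δ := by linarith
  rw [one_mul, Nat.cast_one, one_mul] at h4
  rw [h.ρC, inv_pow_eq_exp hwp, ← Real.exp_add, pow_eq_exp h2p, div_le_iff₀ (Real.exp_pos _),
    ← Real.exp_add]
  refine h4.trans (Real.exp_le_exp.2 ?_)
  push_cast
  have e1 : 2 * (Y.H1 : ℝ) * log (rw Y) ≤ 2 * (ℓ / 400) * 0.2878 := by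
    have : log (rw Y) ≤ 0.2878 := by linarith
    have h0 : 0 ≤ log (rw Y) := Real.log_nonneg (by linarith)
    gcongr
  have e2 : (Y.jm : ℝ) * (log 2 - Y.δ) ≤ Y.jm * log (2 - Y.δ) := by gcongr
  have e3 : 2 * ℓ ≤ Y.jm * log 2 := by
    have e4 : 2 * ℓ / log 2 ≤ Y.jm := by
      have : 0 ≤ ε * q := by positivity
      linarith
    rwa [div_le_iff₀ (by linarith)] at e4
  have e5 : (Y.jm : ℝ) * Y.δ ≤ ε * q / 100 := by
    have e6 : (Y.jm : ℝ) ≤ Y.k := by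
      have e7 : Y.jm ≤ Y.k := by
        have := h.jk
        have := h.jb
        omega
      exact_mod_cast e7
    calc (Y.jm : ℝ) * Y.δ ≤ Y.k * Y.δ := by gcongr
      _ = Y.δ * Y.k := by ring
      _ = _ := h7
  have e6 := mul_le_mul_of_nonneg_right h.ε1 (Nat.cast_nonneg (α := ℝ) q)
  linarith

end Pool.H33.MB2
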