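import Pool.Agent.H33.MB2.NumDefs

/-!
# MB2 NUG: the natural numbers

* `k = q^2 ≥ 1`, `L = q^4 ≥ 1`, `t1 = ⌊q^2/202500⌋ ≥ 1` (`q ≥ 1000`: `q^2/202500 ≥ 4`), `t1 < k`.
* `jk`: `k - jb ≥ ℓ/z + 1.8 εq` (`kj`) and `h6 ≤ εq/12`.
* `h6 ≤ εq/12 ≤ 40 q/(3ε) ≤ n1 ≤ H1`.
* `hMc`: `Mc + nb + Cg + 1 ≤ Mc + εq/100 + 4 Cg + 3` (`nbb`) `≤ εq/20 + εq/100 - 1 ≤ εq/12 - 1 ≤ h6` (`q6`, `Nat.lt_floor_add_one`).
* `hH1`, `hjm`, `ham`: equalities (`PF.H1`, `PF.jb`, `PF.am`, `PF.tm`).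
* `jm ≥ εq/20 > 0`; `jb ≥ jm + 1 + nb`, `nb ≥ Cg ≥ 180`.
* `gt = exp (ℓ/40) ≥ 1`; `K δ = 8`: `800 q/ε * (ε/(100 q)) = 8`; `τ = δ/200`.
-/

set_option linter.unusedSectionVars false

namespace Pool.H33.MB2

open Finset Real

variable {X Γ : Type*} [DecidableEq X] {ε ℓ : ℝ} {q : ℕ} {Y : Sys X Γ} {Q : Num2}

theorem PF.kδ (h : PF ε ℓ q Y Q) : 0 < Y.δ ∧ Y.δ ≤ 1 / 100 ∧ Y.K * Y.δ = 8 ∧ 1 ≤ Y.gt ∧
    0 < Q.τ ∧ 200 * Q.τ ≤ Y.δ := by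
  have hq := h.q0
  have hε := h.ε0
  have hℓ := h.ℓ0
  refine ⟨h.δ0, by linarith [h.δ1], ?_, ?_, ?_, ?_⟩
  · rw [h.K, h.δ]
    field_simp
    norm_num
  · rw [h.gt]
    exact Real.one_le_exp (by linarith)
  · rw [h.τ]
    have := h.δ0
    positivity
  · rw [h.τ]
    linarith

theorem PF.nat1 (h : PF ε ℓ q Y Q) : 1 ≤ Y.k ∧ 1 ≤ Y.L ∧ 1 ≤ Y.t1 ∧ 1 ≤ Y.tm ∧ Y.t1 < Y.k := by
  have hq := h.q1
  have hq0 := h.q0
  refine ⟨?_, ?_, ?_, ?_, ?_⟩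
  · rw [h.k]
    exact Nat.one_le_pow _ _ (by omega)
  · rw [h.L]
    exact Nat.one_le_pow _ _ (Nat.pow_pos (by omega))
  · rw [h.t1]
    apply Nat.le_floor
    rw [le_div_iff₀ (by norm_num)]
    push_cast
    nlinarith
  · rw [h.tm]
    norm_num
  · have e1 : (Y.t1 : ℝ) ≤ (q : ℝ) ^ 2 / 202500 := by
      rw [h.t1]
      exact Nat.floor_le (by positivity)
    have e2 : (Y.t1 : ℝ) < Y.k := by
      rw [h.kq]
      nlinarith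
    exact_mod_cast e2

theorem PF.nat2 (h : PF ε ℓ q Y Q) : Y.jb + Y.h6 < Y.k ∧ Y.h6 ≤ Y.H1 ∧
    Mc Y + nb Y Q + Cg Y + 1 ≤ Y.h6 := by
  have hq := h.q0
  have hε := h.ε0
  have hε1 := h.ε1
  have hq2 := h.q2
  have e1 : (Y.h6 : ℝ) ≤ ε * q / 12 := by
    rw [h.h6]
    exact Nat.floor_le (by positivity)
  refine ⟨?_, ?_, ?_⟩
  · have h1 := h.kj
    have h2 : 0 ≤ ℓ / log (3 / 2) := by
      have := h.ℓ0
      have := log32_ge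
      positivity
    have : (Y.jb : ℝ) + Y.h6 < Y.k := by linarith
    exact_mod_cast this
  · have e2 : 40 / (3 * ε) * q < (Q.n1 : ℝ) := by
      rw [h.n1]
      push_cast
      exact Nat.lt_floor_add_one _
    have e3 : ε * q / 12 ≤ 40 / (3 * ε) * q := by
      have : ε / 12 ≤ 40 / (3 * ε) := by
        rw [div_le_div_iff₀ (by norm_num) (by positivity)]
        nlinarith
      calc ε * q / 12 = ε / 12 * q := by ring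
        _ ≤ _ := by gcongr
    have e4 : Y.h6 ≤ Q.n1 := by
      have : (Y.h6 : ℝ) ≤ Q.n1 := by linarith
      exact_mod_cast this
    rw [h.H1]
    nlinarith
  · have e2 : ε * q / 12 < (Y.h6 : ℝ) + 1 := by
      rw [h.h6]
      exact Nat.lt_floor_add_one _
    have e3 := h.nbb
    have e4 := h.q6
    have : (Mc Y : ℝ) + nb Y Q + Cg Y + 1 ≤ Y.h6 := by nlinarith
    exact_mod_cast this

theorem PF.nat3 (h : PF ε ℓ q Y Q) : (Cg Y + 1) * Q.n1 + nb Y Q + Cg Y ≤ Y.H1 ∧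
    Y.jm + 1 + nb Y Q ≤ Y.jb ∧ 1 ≤ Y.jm ∧ 3 ≤ Y.jb ∧ Y.tm * Y.cA ≤ Y.am := by
  have hq := h.q0
  have hε := h.ε0
  have hq2 := h.q2
  have hℓ := h.ℓ0
  have e1 : 1 ≤ Y.jm := by
    have h1 := h.jm1
    have h2 : 0 ≤ 2 * ℓ / log 2 := by
      have := log2_gt
      positivity
    have : (0 : ℝ) < Y.jm := by linarith
    exact_mod_cast this
  have e2 : 180 ≤ nb Y Q := by
    have : 180 ≤ Cg Y := by exact_mod_cast h.Cg1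
    unfold nb
    omega
  refine ⟨h.H1.ge, h.jb.ge, e1, ?_, ?_⟩
  · rw [h.jb]
    omega
  · rw [h.tm, h.am]

end Pool.H33.MB2
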