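import Pool.Agent.H33.MB2.NumC
import Pool.Agent.H33.MB2.NumD
import Pool.Agent.H33.MB2.NumE
import Pool.Agent.H33.MB2.NumF
import Pool.Agent.H33.MB2.NumF2
import Pool.Agent.H33.MB2.NumG

/-!
# The hypotheses on the numbers hold
-/

set_option linter.unusedSectionVars false

namespace Pool.H33.MB2

open Finset Real

variable {X Γ : Type*} [DecidableEq X] {ε ℓ : ℝ} {q : ℕ} {Y : Sys X Γ} {Q : Num2}

theorem numH_of_PF (h : PF ε ℓ q Y Q) : NumH Y Q := by
  have hw := h.rw0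
  have hc := h.rc0
  have h1 : 1 ≤ rw Y := by linarith [hw.1]
  have h2 : rw Y ≤ rc Y := rw_le_rc
  obtain ⟨g1, g2, g3, g4, g5, g6⟩ := h.kδ
  obtain ⟨p1, p2, p3⟩ := h.pos
  obtain ⟨n1, n2, n3, n4, n5⟩ := h.nat1
  obtain ⟨n6, n7, n8⟩ := h.nat2
  obtain ⟨n9, n10, n11, n12, n13⟩ := h.nat3
  exact {
    δpos := g1
    δle := g2
    Kδ := g3
    a1one := fun u hu => by rw [h.a1]; exact av_one hu
    a1pos := fun u => by rw [h.a1]; exact av_pos h1 h2 _ _ _
    a1anti := fun u => by rw [h.a1, h.a1]; exact av_anti h1 h2 _ _ _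
    a1rc := fun u => by rw [h.a1, h.a1]; exact av_rc_le h1 h2 _ _ _
    a1rw := fun u hu => by rw [h.a1, h.a1]; exact av_rw_le h1 h2 hu
    a2one := fun u hu => by rw [h.a2]; exact av_one hu
    a2pos := fun u => by rw [h.a2]; exact av_pos h1 h2 _ _ _
    a2anti := fun u => by rw [h.a2, h.a2]; exact av_anti h1 h2 _ _ _
    a2rc := fun u => by rw [h.a2, h.a2]; exact av_rc_le h1 h2 _ _ _
    a2rw := fun u hu => by rw [h.a2, h.a2]; exact av_rw_le h1 h2 hu
    c1pos := p1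
    ρ2pos := p2
    ρpos := by rw [h.ρ]; exact exp_pos _
    ρPpos := by rw [h.ρP]; exact exp_pos _
    ρCpos := by rw [h.ρC]; exact exp_pos _
    ρGpos := by rw [h.ρG]; exact exp_pos _
    gt1 := g4
    M1c := h.M1_ge.2
    M11 := h.M1_ge.1
    G1 := h.c1_ge.1
    hG := h.hG
    βpos := p3
    hβ := h.hβ
    k1 := n1
    L1' := n2
    t11 := n3
    tm1 := n4
    tk := n5
    jk := n6
    h6H := n7
    hMc := n8
    hH1 := n9
    hjm := n10
    jm1 := n11
    jb3 := n12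
    ham := n13
    x1 := h.x1
    x2 := h.x2
    xG := h.xG
    ps := h.ps
    ps2 := h.ps2
    gc := h.gc
    cp := h.cp
    sm := h.sm
    τpos := g5
    τδ := g6
    t1τ := h.t1τ
    t2τ := h.t2τ
    st1 := h.st1
    st2 := h.st2
    st3 := h.st3
    st3' := h.st3'
    st3'' := h.st3''
    st4 := h.st4 }

end Pool.H33.MB2
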