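import Pool.Agent.H33.MB2.Engine
import Pool.Agent.H33.MB2.NumFin
import Pool.Agent.H33.MB2.NumEx

/-!
# Main theorem: Breaker stops every `q ≥ √f(N) + (log N)^(-1/20)`
-/

set_option linter.unusedSectionVars false

namespace Pool.H33.MB2

open Finset Real Filter
open Pool.H68.MB (board coreFam lattices MakerWins lat f core_mem)

/-- `q` is large enough for `ε = a^(-2)`, `q = a^20`. -/
structure Big1 (a : ℝ) (q : ℕ) : Prop where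
  b1 : 405000 ≤ q
  b2 : 100000 ≤ (a ^ 2)⁻¹ * q
  b3 : log q ≤ (a ^ 2)⁻¹ * q / 20000
  b4 : (Mc0 (m0 (a ^ 2)⁻¹) : ℝ) + 4 * Cg0 + 4 ≤ (a ^ 2)⁻¹ * q / 20
  b5 : 2400 * κH0 (a ^ 2)⁻¹ ≤ q
  b6 : 5 / 2 * ((m0 (a ^ 2)⁻¹ + 1) * (a ^ 2)⁻¹ / 10 + 1) * 3 + 3 ≤ (q : ℝ)

theorem m0_le {a : ℝ} (ha : 1 ≤ a) :
    (m0 (a ^ 2)⁻¹ : ℝ) ≤ 4801 * (Cg0 + 1) * a ^ 4 := by
  have ha0 : 0 < a := by linarith
  have hB : (1 : ℝ) ≤ (Cg0 : ℝ) + 1 := by
    have : (0 : ℝ) ≤ Cg0 := Nat.cast_nonneg _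
    linarith
  have ha2 : 1 ≤ a ^ 2 := one_le_pow₀ ha
  have hk : 0 < κ20 (a ^ 2)⁻¹ := by unfold κ20; positivity
  have hH : 0 < κH0 (a ^ 2)⁻¹ := by unfold κH0; positivity
  have h1 : (m0 (a ^ 2)⁻¹ : ℝ) ≤
      (1 / κ20 (a ^ 2)⁻¹ + κH0 (a ^ 2)⁻¹ + 1) / (9 / 200 * (a ^ 2)⁻¹) + 1 :=
    (Nat.ceil_lt_add_one (by positivity)).le
  have e1 : 1 / κ20 (a ^ 2)⁻¹ = 200 * ((Cg0 : ℝ) + 1) * a ^ 2 := by
    unfold κ20
    field_simp
  have e2 : κH0 (a ^ 2)⁻¹ = 40 / 3 * (((Cg0 : ℝ) + 1) * a ^ 2) + 1 := by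
    unfold κH0
    field_simp
  have e3 : (1 : ℝ) ≤ ((Cg0 : ℝ) + 1) * a ^ 2 := by nlinarith
  have e4 : (1 / κ20 (a ^ 2)⁻¹ + κH0 (a ^ 2)⁻¹ + 1) / (9 / 200 * (a ^ 2)⁻¹) =
      (200 / 9) * a ^ 2 * (1 / κ20 (a ^ 2)⁻¹ + κH0 (a ^ 2)⁻¹ + 1) := by
    field_simp
  rw [e4, e1, e2] at h1
  have e5 : (200 / 9) * a ^ 2 * (200 * ((Cg0 : ℝ) + 1) * a ^ 2 +
      (40 / 3 * (((Cg0 : ℝ) + 1) * a ^ 2) + 1) + 1) ≤
      (200 / 9) * a ^ 2 * (216 * (((Cg0 : ℝ) + 1) * a ^ 2)) := by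
    gcongr
    linarith
  have e6 : (200 / 9) * a ^ 2 * (216 * (((Cg0 : ℝ) + 1) * a ^ 2)) =
      4800 * (((Cg0 : ℝ) + 1) * a ^ 4) := by ring
  have e7 : (1 : ℝ) ≤ ((Cg0 : ℝ) + 1) * a ^ 4 := by
    have : 1 ≤ a ^ 4 := one_le_pow₀ ha
    nlinarith
  linarith

theorem big1 {a : ℝ} {q : ℕ} (hq : (q : ℝ) = a ^ 20)
    (ha : 400000 * ((Cg0 : ℝ) + 1) ^ 3 ≤ a) : Big1 a q := by
  set B : ℝ := (Cg0 : ℝ) + 1 with hB
  have hB1 : 1 ≤ B := by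
    have : (0 : ℝ) ≤ Cg0 := Nat.cast_nonneg _
    linarith
  have hB3 : 1 ≤ B ^ 3 := one_le_pow₀ hB1
  have hBB : B ≤ B ^ 3 := by
    calc B = B ^ 1 := (pow_one B).symm
      _ ≤ B ^ 3 := pow_le_pow_right₀ hB1 (by norm_num)
  have ha4 : 400000 ≤ a := by nlinarith
  have ha0 : 0 < a := by linarith
  have ha1 : 1 ≤ a := by linarith
  have hp : ∀ i j : ℕ, i ≤ j → a ^ i ≤ a ^ j := fun i j h => pow_le_pow_right₀ ha1 h
  have hm := m0_le ha1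
  rw [← hB] at hm
  have eq1 : (a ^ 2)⁻¹ * (q : ℝ) = a ^ 18 := by
    rw [hq]
    field_simp
  have h5 : B ^ 3 * a ^ 4 * 400000 ≤ a ^ 18 := by
    calc B ^ 3 * a ^ 4 * 400000 = 400000 * B ^ 3 * a ^ 4 := by ring
      _ ≤ a * a ^ 4 := by gcongr
      _ = a ^ 5 := by ring
      _ ≤ a ^ 18 := hp 5 18 (by norm_num)
  have h6 : B * a ^ 2 * 400000 ≤ a ^ 20 := by
    calc B * a ^ 2 * 400000 ≤ B ^ 3 * a ^ 4 * 400000 := by
          have := hp 2 4 (by norm_num)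
          gcongr
      _ ≤ a ^ 18 := h5
      _ ≤ a ^ 20 := hp 18 20 (by norm_num)
  have h7 : 1 ≤ B * a ^ 2 := by
    have : 1 ≤ a ^ 2 := one_le_pow₀ ha1
    nlinarith
  refine ⟨?_, ?_, ?_, ?_, ?_, ?_⟩
  · have : (405000 : ℝ) ≤ q := by
      rw [hq]
      calc (405000 : ℝ) ≤ 400000 * 400000 := by norm_num
        _ ≤ a * a := by gcongr
        _ = a ^ 2 := by ring
        _ ≤ a ^ 20 := hp 2 20 (by norm_num)
    exact_mod_cast this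
  · rw [eq1]
    calc (100000 : ℝ) ≤ a := by linarith
      _ = a ^ 1 := (pow_one a).symm
      _ ≤ a ^ 18 := hp 1 18 (by norm_num)
  · rw [eq1, hq, Real.log_pow]
    have e1 : log a ≤ a := (Real.log_le_sub_one_of_pos ha0).trans (by linarith)
    have e2 : a * 400000 ≤ a ^ 18 := by
      calc a * 400000 ≤ a * a := by gcongr
        _ = a ^ 2 := by ring
        _ ≤ a ^ 18 := hp 2 18 (by norm_num)
    push_cast
    linarith
  · rw [eq1]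
    have e1 : (Mc0 (m0 (a ^ 2)⁻¹) : ℝ) =
        B + (B ^ 2 + 1) * (m0 (a ^ 2)⁻¹ : ℝ) + 2 * B ^ 2 * ((m0 (a ^ 2)⁻¹ : ℝ) + 1) := by
      unfold Mc0
      push_cast
      rw [← hB]
    rw [e1]
    have hm0 : (0 : ℝ) ≤ (m0 (a ^ 2)⁻¹ : ℝ) := Nat.cast_nonneg _
    set m : ℝ := (m0 (a ^ 2)⁻¹ : ℝ) with hmd
    have hB2 : 1 ≤ B ^ 2 := one_le_pow₀ hB1
    have e2 : (B ^ 2 + 1) * m ≤ 2 * B ^ 2 * m := by nlinarith
    have e3 : B ^ 2 * m ≤ 4801 * (B ^ 3 * a ^ 4) := by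
      have := mul_le_mul_of_nonneg_left hm (show (0 : ℝ) ≤ B ^ 2 by linarith)
      calc B ^ 2 * m ≤ B ^ 2 * (4801 * B * a ^ 4) := this
        _ = 4801 * (B ^ 3 * a ^ 4) := by ring
    have e4 : B ^ 2 ≤ B ^ 3 * a ^ 4 := by
      have g1 : 1 ≤ a ^ 4 := one_le_pow₀ ha1
      have g2 : B ^ 2 ≤ B ^ 3 := pow_le_pow_right₀ hB1 (by norm_num)
      calc B ^ 2 = B ^ 2 * 1 := by ring
        _ ≤ B ^ 3 * a ^ 4 := mul_le_mul g2 g1 zero_le_one (by linarith)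
    have e5 : B ≤ B ^ 3 * a ^ 4 := by
      have : B ≤ B ^ 2 := by nlinarith
      linarith
    have e6 : (Cg0 : ℝ) = B - 1 := by rw [hB]; ring
    rw [e6]
    have e7 : 2 * B ^ 2 * (m + 1) = 2 * (B ^ 2 * m) + 2 * B ^ 2 := by ring
    have e8 : 2 * B ^ 2 * m = 2 * (B ^ 2 * m) := by ring
    rw [e7]
    rw [e8] at e2
    linarith
  · have e2 : κH0 (a ^ 2)⁻¹ = 40 / 3 * (B * a ^ 2) + 1 := by
      unfold κH0
      rw [← hB]
      field_simp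
    rw [e2, hq]
    linarith
  · have e1 : ((m0 (a ^ 2)⁻¹ : ℝ) + 1) * (a ^ 2)⁻¹ ≤ 4802 * (B * a ^ 2) := by
      have e3 : (m0 (a ^ 2)⁻¹ : ℝ) + 1 ≤ 4802 * (B * a ^ 4) := by
        have : (1 : ℝ) ≤ B * a ^ 4 := by
          have : 1 ≤ a ^ 4 := one_le_pow₀ ha1
          nlinarith
        linarith
      calc ((m0 (a ^ 2)⁻¹ : ℝ) + 1) * (a ^ 2)⁻¹ ≤ 4802 * (B * a ^ 4) * (a ^ 2)⁻¹ := by gcongr
        _ = 4802 * (B * a ^ 2) := by field_simp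
    rw [hq]
    have e2 : ((m0 (a ^ 2)⁻¹ : ℝ) + 1) * (a ^ 2)⁻¹ / 10 ≤ 4802 * (B * a ^ 2) / 10 := by gcongr
    linarith

/-- All conditions hold for large `a`. -/
theorem large_a : ∃ a0 : ℝ, ∀ a : ℝ, a0 ≤ a → ∀ q : ℕ, (q : ℝ) = a ^ 20 →
    2 ≤ a ∧ Big1 a q ∧ ∃ (P : Gk.GP) (η : ℝ) (S r : ℕ), Gk.GH P η S ∧ P.q = q ∧ 1 ≤ r ∧
      (P.bs : ℝ) * log (800 / (a ^ 2)⁻¹ * q) ≤ (a ^ 2)⁻¹ * q / 2000 ∧
      ((P.bs : ℝ) + 180 * (((cz + 1) ^ 4 * (cz + 3) ^ 2 * cellB P r : ℕ) : ℝ)) *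
        log (800 / (a ^ 2)⁻¹ * q) ≤ (q : ℝ) ^ 2 / 10000 := by
  set C1 : ℝ := 180 * ((cz + 1) ^ 4 * (cz + 3) ^ 2 : ℕ) with hC1
  have hC1p : 0 ≤ C1 := by rw [hC1]; positivity
  set c : ℝ := 1 / 10000 / (2000 + 40000 * C1) with hc
  have hc0 : 0 < c := by rw [hc]; positivity
  have hlo : ∀ d : ℝ, 0 < d → ∀ᶠ a : ℝ in atTop, log a ≤ d * a := by
    intro d hd
    have h2 := Real.isLittleO_log_id_atTop.bound hd
    filter_upwards [h2, eventually_ge_atTop 0] with a h h0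
    simp only [id, Real.norm_eq_abs] at h
    rw [abs_of_nonneg h0] at h
    exact (le_abs_self _).trans h
  have hA : ∀ᶠ a : ℝ in atTop, 2 ≤ a ∧ 400000 * ((Cg0 : ℝ) + 1) ^ 3 ≤ a ∧
      log 48 + 40 * log a < a / 4 ∧ log 800 + 22 * log a ≤ c * a ∧ 4000000 * c ≤ a := by
    filter_upwards [hlo (1 / 320) (by norm_num), hlo (c / 44) (by positivity),
      eventually_ge_atTop 2, eventually_gt_atTop (8 * log 48),
      eventually_ge_atTop (2 * log 800 / c), eventually_ge_atTop (400000 * ((Cg0 : ℝ) + 1) ^ 3),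
      eventually_ge_atTop (4000000 * c)] with a h1 h2 h3 h4 h5 h6 h7
    rw [div_le_iff₀ hc0] at h5
    refine ⟨h3, h6, by linarith, by linarith, h7⟩
  obtain ⟨a0, ha0⟩ := eventually_atTop.1 hA
  refine ⟨a0, fun a ha q hq => ?_⟩
  obtain ⟨h2, h3, h48, hl, hc4⟩ := ha0 a ha
  have hap : 0 < a := by linarith
  have ha1 : 1 ≤ a := by linarith
  have eC : 800 / (a ^ 2)⁻¹ = 800 * a ^ 2 := by field_simp
  refine ⟨h2, big1 hq h3, ?_⟩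
  have e1 : (1 : ℝ) ≤ 800 / (a ^ 2)⁻¹ := by
    rw [eC]
    have : 1 ≤ a ^ 2 := one_le_pow₀ ha1
    linarith
  obtain ⟨P, η, S, r, hGH, hPq, hr, hb1, hb2⟩ := Gk.gk_at (σ1 := (a ^ 2)⁻¹ / 2000)
    (σ2 := 1 / 10000) h2 hq h48 e1 hC1p hc0 (by
      have : (a ^ 2)⁻¹ / 2000 * a ^ 3 = a / 2000 := by field_simp
      rw [this]
      linarith) (by
      rw [hc]
      field_simp
      exact le_rfl) (by
      rw [eC, hq, Real.log_mul (by positivity) (by positivity),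
        Real.log_mul (by norm_num) (by positivity), Real.log_pow, Real.log_pow]
      push_cast
      linarith)
  refine ⟨P, η, S, r, hGH, hPq, hr, hb1.trans (le_of_eq (by ring)), ?_⟩
  have e : ((P.bs : ℝ) + 180 * (((cz + 1) ^ 4 * (cz + 3) ^ 2 * cellB P r : ℕ) : ℝ)) =
      (P.bs : ℝ) + C1 * Gk.cellv P r := by
    have : Gk.cellv P r = cellB P r := rfl
    rw [this, hC1]
    push_cast
    ring
  rw [e]
  exact hb2.trans (le_of_eq (by ring))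

/-- The core statement for `q` in the critical window. -/
theorem window : ∃ a0 : ℝ, ∀ (N q : ℕ) (a : ℝ), 1 ≤ N → a0 ≤ a → (q : ℝ) = a ^ 20 →
    √(f N) + (a ^ 2)⁻¹ ≤ q → (q : ℝ) ≤ √(f N) + 2 →
    ¬ MakerWins (board N) (↑(coreFam N q 1) : Set (Finset (ℕ × ℕ))) ∅ ∅ := by
  obtain ⟨a0, ha0⟩ := large_a
  refine ⟨a0, fun N q a hN ha hqa h1 h2 => ?_⟩
  obtain ⟨ha2, ⟨g1, g2, g3, g4, g5, g6⟩, P, η, S, r, hGH, hPq, hr, hb1, hb2⟩ := ha0 a ha q hqa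
  have hap : 0 < a := by linarith
  set ε : ℝ := (a ^ 2)⁻¹ with hε
  have hε0 : 0 < ε := by rw [hε]; positivity
  have hε1 : ε ≤ 1 := inv_le_one_of_one_le₀ (one_le_pow₀ (by linarith))
  have hN1 : (1 : ℝ) ≤ N := by exact_mod_cast hN
  have hℓ0 : 0 ≤ log N := Real.log_nonneg hN1
  have hf : f N = log N / log (3 / 2) + 2 * log N / log 2 := by
    unfold f Real.logb
    ring
  have hf0 : 0 ≤ f N := by
    rw [hf]
    have := log2_gt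
    have := log32_ge
    positivity
  have hs := Real.sq_sqrt hf0
  have hs0 := Real.sqrt_nonneg (f N)
  have hq0' : (405000 : ℝ) ≤ q := by exact_mod_cast g1
  have F1 : log N / log (3 / 2) + 2 * log N / log 2 + 2 * ε * q - ε ^ 2 ≤ (q : ℝ) ^ 2 := by
    rw [← hf]
    have h3 : √(f N) ≤ q - ε := by linarith
    have h4 : √(f N) ^ 2 ≤ (q - ε) ^ 2 := by gcongr
    nlinarith
  have F2 : (q : ℝ) ^ 2 ≤ log N / log (3 / 2) + 2 * log N / log 2 + 4 * q := by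
    rw [← hf]
    have h3 : (q : ℝ) - 2 ≤ √(f N) := by linarith
    have h4 : ((q : ℝ) - 2) ^ 2 ≤ √(f N) ^ 2 := by
      have : (0 : ℝ) ≤ (q : ℝ) - 2 := by linarith
      gcongr
    nlinarith
  have hPF := pf_mk (bs := P.bs) (cA := (cz + 1) ^ 4 * (cz + 3) ^ 2 * cellB P r) hε0 hε1 hN F1 F2
    (by omega) g2 g3 hb1 hb2 g4 g5 g6
  have hq2 : 2 ≤ q := by omega
  have hz0 : (0 : ℝ) < zt := by unfold zt; norm_num
  have hzq : 2 ≤ zt * q := by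
    unfold zt
    linarith
  have ht : zt * (q : ℝ) ^ 2 ≤
      (prm ε (log N) N q P.bs ((cz + 1) ^ 4 * (cz + 3) ^ 2 * cellB P r)).t1 + 1 := by
    change zt * (q : ℝ) ^ 2 ≤ (⌊(q : ℝ) ^ 2 / 202500⌋₊ : ℝ) + 1
    have h3 := Nat.lt_floor_add_one ((q : ℝ) ^ 2 / 202500)
    unfold zt
    linarith
  have hFam := famH_lat (N := N) (P := prm ε (log N) N q P.bs
    ((cz + 1) ^ 4 * (cz + 3) ^ 2 * cellB P r)) hq2 hz0 hzq ht rfl rfl rfl rfl rfl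
  have hGeo := geoH_lat (N := N) (P := prm ε (log N) N q P.bs
    ((cz + 1) ^ 4 * (cz + 3) ^ 2 * cellB P r)) hq2 hGH hPq hr hz0 hzq ht rfl le_rfl
  exact no_win hFam (numH_of_PF hPF) hGeo

/-- `√f(N) ≥ b` and `log N ≥ b`, `√f(N) ≥ √(log N)` for large `N`. -/
theorem f_large (b : ℝ) : ∃ N0 : ℕ, ∀ N : ℕ, N0 ≤ N → b ≤ √(f N) ∧ 1 ≤ log N ∧
    √(log N) ≤ √(f N) := by
  have h1 : Tendsto (fun N : ℕ => log (N : ℝ)) atTop atTop :=
    Real.tendsto_log_atTop.comp tendsto_natCast_atTop_atTop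
  have h2 := h1.eventually_ge_atTop (max (b ^ 2) 1)
  obtain ⟨N0, hN0⟩ := eventually_atTop.1 h2
  refine ⟨max N0 1, fun N hN => ?_⟩
  simp only [max_le_iff] at hN
  have hN1 : (1 : ℝ) ≤ N := by exact_mod_cast hN.2
  have hℓ0 : 0 ≤ log N := Real.log_nonneg hN1
  have h3 := hN0 N hN.1
  simp only [max_le_iff] at h3
  have h4 := log2_lt
  have h5 := log2_gt
  have h6 := log32_ge
  have hf : f N = log N / log (3 / 2) + 2 * (log N / log 2) := by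
    unfold f Real.logb
    ring
  have h7 : 0 ≤ log N / log (3 / 2) := by positivity
  have h8 : log N ≤ log N / log 2 := by
    rw [le_div_iff₀ (by linarith)]
    nlinarith
  have h9 : log N ≤ f N := by
    rw [hf]
    linarith
  exact ⟨Real.le_sqrt_of_sq_le (h3.1.trans h9), h3.2, Real.sqrt_le_sqrt h9⟩

/-- **Main theorem.**  For all sufficiently large `N` Breaker prevents Maker from owning a `q x q`
aligned square lattice whenever `q ≥ √f(N) + (log N)^(-1/20)`. -/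
theorem sharp_upper : ∃ N0 : ℕ, ∀ N : ℕ, N0 ≤ N → ∀ q : ℕ,
    √(f N) + (log N) ^ (-(1 / 20) : ℝ) ≤ q → ¬ MakerWins (board N) (lattices N q) ∅ ∅ := by
  obtain ⟨a0, hq0⟩ := window
  obtain ⟨N0, hN0⟩ := f_large (max (a0 ^ 20) 2)
  refine ⟨max N0 1, fun N hN q hq hw => ?_⟩
  simp only [max_le_iff] at hN
  obtain ⟨h1, hl1, hsl⟩ := hN0 N hN.1
  have hl0 : 0 < log N := by linarith
  set e : ℝ := (log N) ^ (-(1 / 20) : ℝ) with he
  have he0 : 0 < e := Real.rpow_pos_of_pos hl0 _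
  have he1 : e ≤ 1 := Real.rpow_le_one_of_one_le_of_nonpos hl1 (by norm_num)
  have h2 : a0 ^ 20 ≤ √(f N) := (le_max_left _ _).trans h1
  have h2' : (2 : ℝ) ≤ √(f N) := (le_max_right _ _).trans h1
  have h3 : √(f N) + e ≤ (⌈√(f N) + e⌉₊ : ℝ) := Nat.le_ceil _
  have h4 : (⌈√(f N) + e⌉₊ : ℝ) < √(f N) + e + 1 := Nat.ceil_lt_add_one (by positivity)
  have h5 : ⌈√(f N) + e⌉₊ ≤ q := Nat.ceil_le.2 hq
  set q' := ⌈√(f N) + e⌉₊ with hq'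
  have hq'2 : (2 : ℝ) ≤ q' := by linarith
  have hq'0 : (0 : ℝ) < q' := by linarith
  have h7 : 2 ≤ q' := by exact_mod_cast hq'2
  set a : ℝ := (q' : ℝ) ^ (1 / 20 : ℝ) with ha
  have ha0 : 0 < a := Real.rpow_pos_of_pos hq'0 _
  have ha20 : (q' : ℝ) = a ^ 20 := by
    rw [ha, ← Real.rpow_natCast, ← Real.rpow_mul hq'0.le]
    norm_num
  have h6 : a0 ≤ a := by
    by_contra hc
    push Not at hc
    have h8 : a ^ 20 < a0 ^ 20 := by gcongr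
    rw [← ha20] at h8
    linarith
  have h8 : (a ^ 2)⁻¹ ≤ e := by
    have h9 : √(log N) ≤ q' := by linarith
    have h10 : log N = √(log N) ^ 2 := (Real.sq_sqrt hl0.le).symm
    have hs0 : 0 < √(log N) := Real.sqrt_pos.2 hl0
    have h11 : e = √(log N) ^ (-(1 / 10) : ℝ) := by
      rw [he]
      nth_rewrite 1 [h10]
      rw [← Real.rpow_natCast, ← Real.rpow_mul hs0.le]
      norm_num
    have h12 : (a ^ 2)⁻¹ = (q' : ℝ) ^ (-(1 / 10) : ℝ) := by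
      rw [ha, ← Real.rpow_natCast, ← Real.rpow_mul hq'0.le, ← Real.rpow_neg hq'0.le]
      norm_num
    rw [h11, h12]
    exact Real.rpow_le_rpow_of_nonpos hs0 h9 (by norm_num)
  refine hq0 N q' a hN.2 h6 ha20 (by linarith) (by linarith) (MakerWins.mono ?_ hw)
  intro A hA
  obtain ⟨x, y, d, hd, hAe, hsub⟩ := hA
  have hs : lat q' x y d ⊆ A := by
    rw [hAe]
    intro p hp
    obtain ⟨i, j, hi, hj, rfl⟩ := Pool.H68.MB.Lt.mem_lat.1 hp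
    exact Pool.H68.MB.Lt.mem_lat.2 ⟨i, j, by omega, by omega, rfl⟩
  obtain ⟨A', hA', hs'⟩ := core_mem (w := 1) (m := q') (q := q') (N := N) le_rfl h7 rfl
    (show lat q' x y d ∈ lattices N q' from ⟨x, y, d, hd, rfl, hs.trans hsub⟩)
  exact ⟨A', hA', hs'.trans hs⟩

end Pool.H33.MB2
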