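import Mathlib

/-!
# Windows of one grid: definitions

Points and windows of one grid are indexed by `ℤ × ℤ`; the window `w` is `cell q w`.
-/

namespace Pool.H33.MB2.Gk

open Finset
open scoped Classical

/-- The window with corner `w`. -/
noncomputable def cell (q : ℕ) (w : ℤ × ℤ) : Finset (ℤ × ℤ) := Ico w.1 (w.1 + q) ×ˢ Ico w.2 (w.2 + q)

/-- A logged reply (`T` is the corner of the target). -/
structure GE where
  y : ℤ × ℤ
  T : ℤ × ℤ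
  x : ℤ × ℤ

/-- Parameters. -/
structure GP where
  q : ℕ
  D0 : ℕ
  us : ℕ
  Gm : ℕ
  bs : ℕ
  lam : ℝ

/-- The reply is deep in the target. -/
def deep (P : GP) (e : GE) : Prop :=
  P.D0 ≤ e.x.1 - e.T.1 ∧ e.x.1 - e.T.1 + P.D0 < P.q ∧
    P.D0 ≤ e.x.2 - e.T.2 ∧ e.x.2 - e.T.2 + P.D0 < P.q

/-- Number of logged points in the window. -/
noncomputable def cnt (P : GP) (lg : List GE) (w : ℤ × ℤ) : ℕ :=
  lg.countP (fun e => decide (e.y ∈ cell P.q w))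

/-- Number of logged points with a shallow reply in the window. -/
noncomputable def gsn (P : GP) (lg : List GE) (w : ℤ × ℤ) : ℕ :=
  lg.countP (fun e => decide (¬ deep P e ∧ e.y ∈ cell P.q w))

/-- Number of unclaimed points of the window. -/
noncomputable def unc (P : GP) (M B : Finset (ℤ × ℤ)) (w : ℤ × ℤ) : ℕ :=
  #(cell P.q w \ (M ∪ B))

/-- The alive windows with many unclaimed points. -/
noncomputable def bigW (P : GP) (Wn M B : Finset (ℤ × ℤ)) : Finset (ℤ × ℤ) :=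
  Wn.filter (fun w => Disjoint (cell P.q w) B ∧ P.us < unc P M B w)

/-- Distance of windows. -/
def dst (w w' : ℤ × ℤ) : ℕ := max (w.1 - w'.1).natAbs (w.2 - w'.2).natAbs

/-- The local potential. -/
noncomputable def Psi (P : GP) (Wn : Finset (ℤ × ℤ)) (lg : List GE) (M B : Finset (ℤ × ℤ))
    (A0 : ℤ × ℤ) : ℝ :=
  ∑ w ∈ bigW P Wn M B, (1 / 2 : ℝ) ^ (dst w A0 / P.q) * P.lam ^ gsn P lg w

/-- The invariants of one grid. -/
structure GOK (P : GP) (Wn : Finset (ℤ × ℤ)) (lg : List GE) (M B : Finset (ℤ × ℤ)) : Prop where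
  ent : ∀ e ∈ lg, e.T ∈ Wn ∧ e.y ∈ cell P.q e.T ∧ e.y ∈ M ∧ e.x ∈ B
  pw : lg.Pairwise (fun e' e => e'.y ≠ e.y ∧ e.x ∉ cell P.q e'.T)
  sh : ∀ l1 e l2, lg = l1 ++ e :: l2 → ¬ deep P e →
    cnt P l1 e.T + unc P M B e.T ≤ 4 * P.D0 * P.q
  od : ∀ l1 e l2, lg = l1 ++ e :: l2 → cnt P l2 e.T ≤ P.bs
  psi : ∀ A0 ∈ Wn, Psi P Wn lg M B A0 ≤ 48 * (P.q : ℝ) ^ 2
  sm : ∀ w ∈ Wn, Disjoint (cell P.q w) B →
    P.us < unc P M B w ∨ gsn P lg w + unc P M B w ≤ P.Gm + 1 + P.us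

/-- Hypotheses on the parameters. -/
structure GH (P : GP) (η : ℝ) (S : ℕ) : Prop where
  q1 : 1 ≤ P.q
  η0 : 0 < η
  S1 : 1 ≤ S
  lam : P.lam = 1 + η / 2
  hS : 8 * η * (P.q / S + 1) ≤ 1
  us : P.us = 4 * S ^ 2
  Gm : 48 * (P.q : ℝ) ^ 2 < P.lam ^ (P.Gm + 1)
  bs : P.bs = P.Gm + 1 + P.us + (2 * P.q / (P.D0 + 1) + 1) ^ 2

end Pool.H33.MB2.Gk
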