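import Pool.Agent.H33.MB2.GkDefs

/-!
# MB2 GKDO: dominance lemma and separated windows

* `dominance`.  For `y ∈ E` let `w` be a window containing `y` with `#(E ∩ cell w) ≤ b`.  As `y ∈ cell q c` and both squares have side `q`:
  if `w.1 ≤ c.1` then `cell w` contains all first coordinates of `cell c` that are `≤ y.1`, and if `w.1 ≥ c.1` all those `≥ y.1`;
  the same for the second coordinate.  So `cell w ∩ cell c` contains one of the four quadrants
  `{p ∈ cell c : p.1 ≤ y.1 (or ≥), p.2 ≤ y.2 (or ≥)}`, and this quadrant contains at most `b` points of `E`.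
  Let `E'` be the set of the `y ∈ E` with one fixed type, say `≤, ≤` (at most `b` points of `E`, hence of `E'`, in the lower left
  quadrant of `y`).  Claim `#E' ≤ 2 (q / r + 1) (b + r^2)`.  Blocks: `I = (p.1 - c.1) / r`, `J = (p.2 - c.2) / r`, both in
  `[0, q / r]`.  For each value `t = I - J` (at most `2 (q/r) + 1` values) consider the points of `E'` with this `t`; take one, `y`, with
  maximal `I` (so maximal `J`).  The others with the same `(I, J)` are in one `r × r` block: at most `r^2` points in total; all points with smaller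
  `I` (and so smaller `J`) lie in the lower left quadrant of `y`: at most `b`.  So at most `b + r^2` points for each `t`.
  The other types by reflection (for `≤, ≥` use `I + J`).  Sum over the four types: `8 (q / r + 1) (b + r^2)`.
* `separated`.  Map `w ↦ ((w.1 - c.1 + q) / (D0 + 1), (w.2 - c.2 + q) / (D0 + 1))` (floor division, `w.1 - c.1 + q ∈ [1, 2q - 1]`): the
  values are in `[0, 2 q / (D0 + 1)]^2`, and the map is injective on `𝒯`: if both quotients agree the differences are `≤ D0`.
-/

namespace Pool.H33.MB2.Gk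

open Finset
open scoped Classical

private theorem gd_div {a b r : ℕ} (h : a / r < b / r) : a < b := by
  by_contra hab
  push Not at hab
  exact absurd (Nat.div_le_div_right (c := r) hab) (by omega)

private theorem gd_fib {ι : Type*} (E : Finset ι) (f g : ι → ℕ) (q r b : ℕ) (hr : 1 ≤ r)
    (hg : ∀ p ∈ E, g p < q)
    (hinj : ∀ p ∈ E, ∀ p' ∈ E, f p = f p' → g p = g p' → p = p')
    (hb : ∀ y ∈ E, #(E.filter (fun p => f p ≤ f y ∧ g p ≤ g y)) ≤ b) (t : ℕ) :
    #(E.filter (fun p => f p / r + (q / r - g p / r) = t)) ≤ b + r ^ 2 := by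
  by_cases hne : (E.filter (fun p => f p / r + (q / r - g p / r) = t)).Nonempty
  swap
  · rw [not_nonempty_iff_eq_empty] at hne
    rw [hne, card_empty]
    exact Nat.zero_le _
  obtain ⟨y, hy, hmax⟩ := exists_max_image _ (fun p => f p / r) hne
  rw [mem_filter] at hy
  have hsub : E.filter (fun p => f p / r + (q / r - g p / r) = t) ⊆
      E.filter (fun p => f p ≤ f y ∧ g p ≤ g y) ∪
        E.filter (fun p => f p / r = f y / r ∧ g p / r = g y / r) := by
    intro p hp
    have h1 := hmax p hp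
    rw [mem_filter] at hp
    have h2 := hy.2
    have h3 := hp.2
    have h4 : g p / r ≤ q / r := Nat.div_le_div_right (hg p hp.1).le
    have h5 : g y / r ≤ q / r := Nat.div_le_div_right (hg y hy.1).le
    rw [mem_union, mem_filter, mem_filter]
    by_cases h6 : f p / r = f y / r
    · right
      refine ⟨hp.1, h6, ?_⟩
      omega
    · left
      have h7 : f p / r < f y / r := lt_of_le_of_ne h1 h6
      have h8 : g p / r < g y / r := by omega
      exact ⟨hp.1, (gd_div h7).le, (gd_div h8).le⟩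
  have hblock : #(E.filter (fun p => f p / r = f y / r ∧ g p / r = g y / r)) ≤ r ^ 2 := by
    have h1 : #(E.filter (fun p => f p / r = f y / r ∧ g p / r = g y / r)) ≤
        #(range r ×ˢ range r) := by
      refine card_le_card_of_injOn (fun p => (f p % r, g p % r)) ?_ ?_
      · intro p _
        rw [mem_coe, mem_product, mem_range, mem_range]
        exact ⟨Nat.mod_lt _ (by omega), Nat.mod_lt _ (by omega)⟩
      · intro p hp p' hp' h
        rw [mem_coe, mem_filter] at hp hp'
        have h1 : f p % r = f p' % r := congrArg Prod.fst h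
        have h2 : g p % r = g p' % r := congrArg Prod.snd h
        refine hinj p hp.1 p' hp'.1 ?_ ?_
        · rw [← Nat.div_add_mod (f p) r, ← Nat.div_add_mod (f p') r, h1, hp.2.1, hp'.2.1]
        · rw [← Nat.div_add_mod (g p) r, ← Nat.div_add_mod (g p') r, h2, hp.2.2, hp'.2.2]
    rw [card_product, card_range, ← sq] at h1
    exact h1
  exact (card_le_card hsub).trans ((card_union_le _ _).trans (Nat.add_le_add (hb y hy.1) hblock))

private theorem gd_one {ι : Type*} (E : Finset ι) (f g : ι → ℕ) (q r b : ℕ) (hr : 1 ≤ r)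
    (hf : ∀ p ∈ E, f p < q) (hg : ∀ p ∈ E, g p < q)
    (hinj : ∀ p ∈ E, ∀ p' ∈ E, f p = f p' → g p = g p' → p = p')
    (hb : ∀ y ∈ E, #(E.filter (fun p => f p ≤ f y ∧ g p ≤ g y)) ≤ b) :
    #E ≤ 2 * (q / r + 1) * (b + r ^ 2) := by
  have h1 := card_le_mul_card_image (f := fun p => f p / r + (q / r - g p / r)) E (b + r ^ 2)
    (fun t _ => gd_fib E f g q r b hr hg hinj hb t)
  have h2 : #(E.image (fun p => f p / r + (q / r - g p / r))) ≤ 2 * (q / r + 1) := by
    have h3 : E.image (fun p => f p / r + (q / r - g p / r)) ⊆ range (2 * (q / r + 1)) := by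
      intro t ht
      obtain ⟨p, hp, rfl⟩ := mem_image.1 ht
      rw [mem_range]
      have h4 : f p / r ≤ q / r := Nat.div_le_div_right (hf p hp).le
      generalize f p / r = x at h4 ⊢
      generalize g p / r = y
      generalize q / r = z at h4 ⊢
      omega
    have := card_le_card h3
    rwa [card_range] at this
  calc #E ≤ (b + r ^ 2) * #(E.image (fun p => f p / r + (q / r - g p / r))) := h1
    _ ≤ (b + r ^ 2) * (2 * (q / r + 1)) := Nat.mul_le_mul_left _ h2
    _ = _ := Nat.mul_comm _ _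

private theorem gd_type (E : Finset (ℤ × ℤ)) (f g : ℤ × ℤ → ℕ) (q r b : ℕ) (hr : 1 ≤ r)
    (hf : ∀ p ∈ E, f p < q) (hg : ∀ p ∈ E, g p < q)
    (hinj : ∀ p ∈ E, ∀ p' ∈ E, f p = f p' → g p = g p' → p = p') :
    #(E.filter (fun y => #(E.filter (fun p => f p ≤ f y ∧ g p ≤ g y)) ≤ b)) ≤
      2 * (q / r + 1) * (b + r ^ 2) := by
  refine gd_one _ f g q r b hr (fun p hp => hf p (mem_filter.1 hp).1)
    (fun p hp => hg p (mem_filter.1 hp).1)
    (fun p hp p' hp' => hinj p (mem_filter.1 hp).1 p' (mem_filter.1 hp').1) ?_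
  intro y hy
  refine le_trans (card_le_card ?_) (mem_filter.1 hy).2
  exact filter_subset_filter _ (filter_subset _ _)

theorem dominance {q r b : ℕ} (hr : 1 ≤ r) (c : ℤ × ℤ) (E : Finset (ℤ × ℤ))
    (hE : E ⊆ cell q c) (hT : ∀ y ∈ E, ∃ w, y ∈ cell q w ∧ #(E ∩ cell q w) ≤ b) :
    #E ≤ 8 * (q / r + 1) * (b + r ^ 2) := by
  have hm : ∀ p ∈ E, c.1 ≤ p.1 ∧ p.1 < c.1 + q ∧ c.2 ≤ p.2 ∧ p.2 < c.2 + q := by
    intro p hp
    have := hE hp
    unfold cell at this
    rw [mem_product, mem_Ico, mem_Ico] at this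
    exact ⟨this.1.1, this.1.2, this.2.1, this.2.2⟩
  obtain ⟨f1, hf1⟩ : ∃ f : ℤ × ℤ → ℕ, ∀ p, f p = (p.1 - c.1).toNat := ⟨_, fun _ => rfl⟩
  obtain ⟨f2, hf2⟩ : ∃ f : ℤ × ℤ → ℕ, ∀ p, f p = (c.1 + q - 1 - p.1).toNat := ⟨_, fun _ => rfl⟩
  obtain ⟨g1, hg1⟩ : ∃ f : ℤ × ℤ → ℕ, ∀ p, f p = (p.2 - c.2).toNat := ⟨_, fun _ => rfl⟩
  obtain ⟨g2, hg2⟩ : ∃ f : ℤ × ℤ → ℕ, ∀ p, f p = (c.2 + q - 1 - p.2).toNat := ⟨_, fun _ => rfl⟩
  have h11 := gd_type E f1 g1 q r b hr (fun p hp => by rw [hf1]; have := hm p hp; omega)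
    (fun p hp => by rw [hg1]; have := hm p hp; omega) (by
      intro p hp p' hp' h1 h2
      rw [hf1, hf1] at h1
      rw [hg1, hg1] at h2
      have a1 := hm p hp
      have a2 := hm p' hp'
      exact Prod.ext (by omega) (by omega))
  have h12 := gd_type E f1 g2 q r b hr (fun p hp => by rw [hf1]; have := hm p hp; omega)
    (fun p hp => by rw [hg2]; have := hm p hp; omega) (by
      intro p hp p' hp' h1 h2
      rw [hf1, hf1] at h1
      rw [hg2, hg2] at h2
      have a1 := hm p hp
      have a2 := hm p' hp'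
      exact Prod.ext (by omega) (by omega))
  have h21 := gd_type E f2 g1 q r b hr (fun p hp => by rw [hf2]; have := hm p hp; omega)
    (fun p hp => by rw [hg1]; have := hm p hp; omega) (by
      intro p hp p' hp' h1 h2
      rw [hf2, hf2] at h1
      rw [hg1, hg1] at h2
      have a1 := hm p hp
      have a2 := hm p' hp'
      exact Prod.ext (by omega) (by omega))
  have h22 := gd_type E f2 g2 q r b hr (fun p hp => by rw [hf2]; have := hm p hp; omega)
    (fun p hp => by rw [hg2]; have := hm p hp; omega) (by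
      intro p hp p' hp' h1 h2
      rw [hf2, hf2] at h1
      rw [hg2, hg2] at h2
      have a1 := hm p hp
      have a2 := hm p' hp'
      exact Prod.ext (by omega) (by omega))
  have hcov : E ⊆ (E.filter (fun y => #(E.filter (fun p => f1 p ≤ f1 y ∧ g1 p ≤ g1 y)) ≤ b) ∪
      E.filter (fun y => #(E.filter (fun p => f1 p ≤ f1 y ∧ g2 p ≤ g2 y)) ≤ b)) ∪
      (E.filter (fun y => #(E.filter (fun p => f2 p ≤ f2 y ∧ g1 p ≤ g1 y)) ≤ b) ∪
      E.filter (fun y => #(E.filter (fun p => f2 p ≤ f2 y ∧ g2 p ≤ g2 y)) ≤ b)) := by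
    intro y hy
    obtain ⟨w, hyw, hwb⟩ := hT y hy
    have hy1 := hm y hy
    have hyw' := hyw
    unfold cell at hyw'
    rw [mem_product, mem_Ico, mem_Ico] at hyw'
    have key : ∀ F G : ℤ × ℤ → ℕ, (∀ p ∈ E, F p ≤ F y → G p ≤ G y → p ∈ cell q w) →
        y ∈ E.filter (fun y => #(E.filter (fun p => F p ≤ F y ∧ G p ≤ G y)) ≤ b) := by
      intro F G h
      rw [mem_filter]
      refine ⟨hy, le_trans (card_le_card ?_) hwb⟩
      intro p hp
      rw [mem_filter] at hp
      rw [mem_inter]
      exact ⟨hp.1, h p hp.1 hp.2.1 hp.2.2⟩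
    rw [mem_union, mem_union, mem_union]
    rcases le_total w.1 c.1 with h1 | h1 <;> rcases le_total w.2 c.2 with h2 | h2
    · left; left
      refine key f1 g1 (fun p hp hF hG => ?_)
      have hp1 := hm p hp
      rw [hf1, hf1] at hF
      rw [hg1, hg1] at hG
      unfold cell
      rw [mem_product, mem_Ico, mem_Ico]
      omega
    · left; right
      refine key f1 g2 (fun p hp hF hG => ?_)
      have hp1 := hm p hp
      rw [hf1, hf1] at hF
      rw [hg2, hg2] at hG
      unfold cell
      rw [mem_product, mem_Ico, mem_Ico]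
      omega
    · right; left
      refine key f2 g1 (fun p hp hF hG => ?_)
      have hp1 := hm p hp
      rw [hf2, hf2] at hF
      rw [hg1, hg1] at hG
      unfold cell
      rw [mem_product, mem_Ico, mem_Ico]
      omega
    · right; right
      refine key f2 g2 (fun p hp hF hG => ?_)
      have hp1 := hm p hp
      rw [hf2, hf2] at hF
      rw [hg2, hg2] at hG
      unfold cell
      rw [mem_product, mem_Ico, mem_Ico]
      omega
  have h1 := (card_le_card hcov).trans ((card_union_le _ _).trans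
    (Nat.add_le_add (card_union_le _ _) (card_union_le _ _)))
  have h2 : 8 * (q / r + 1) * (b + r ^ 2) = 2 * (q / r + 1) * (b + r ^ 2) +
      2 * (q / r + 1) * (b + r ^ 2) + (2 * (q / r + 1) * (b + r ^ 2) +
      2 * (q / r + 1) * (b + r ^ 2)) := by ring
  rw [h2]
  exact h1.trans (Nat.add_le_add (Nat.add_le_add h11 h12) (Nat.add_le_add h21 h22))

private theorem gd_quot {a b m : ℕ} (hm : 1 ≤ m) (h : a / m = b / m) : a < b + m := by
  have h1 := Nat.div_add_mod a m
  have h2 := Nat.div_add_mod b m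
  have h3 := Nat.mod_lt a (show 0 < m by omega)
  rw [h] at h1
  omega

theorem separated {q D0 : ℕ} (c : ℤ × ℤ) (𝒯 : Finset (ℤ × ℤ))
    (hn : ∀ w ∈ 𝒯, (w.1 - c.1).natAbs < q ∧ (w.2 - c.2).natAbs < q)
    (hs : ∀ w ∈ 𝒯, ∀ w' ∈ 𝒯, w ≠ w' → D0 < dst w w') : #𝒯 ≤ (2 * q / (D0 + 1) + 1) ^ 2 := by
  have h1 : #𝒯 ≤ #(range (2 * q / (D0 + 1) + 1) ×ˢ range (2 * q / (D0 + 1) + 1)) := by
    refine card_le_card_of_injOn
      (fun w => ((w.1 - c.1 + q).toNat / (D0 + 1), (w.2 - c.2 + q).toNat / (D0 + 1))) ?_ ?_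
    · intro w hw
      have h := hn w hw
      rw [mem_coe, mem_product, mem_range, mem_range]
      constructor
      · exact Nat.lt_succ_of_le (Nat.div_le_div_right (by omega))
      · exact Nat.lt_succ_of_le (Nat.div_le_div_right (by omega))
    · intro w hw w' hw' h
      rw [mem_coe] at hw hw'
      by_contra hne
      have h1 := hs w hw w' hw' hne
      have a1 := hn w hw
      have a2 := hn w' hw'
      have e1 : (w.1 - c.1 + q).toNat / (D0 + 1) = (w'.1 - c.1 + q).toNat / (D0 + 1) :=
        congrArg Prod.fst h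
      have e2 : (w.2 - c.2 + q).toNat / (D0 + 1) = (w'.2 - c.2 + q).toNat / (D0 + 1) :=
        congrArg Prod.snd h
      have b1 := gd_quot (by omega) e1
      have b2 := gd_quot (by omega) e1.symm
      have b3 := gd_quot (by omega) e2
      have b4 := gd_quot (by omega) e2.symm
      unfold dst at h1
      omega
  rw [card_product, card_range, ← sq] at h1
  exact h1

end Pool.H33.MB2.Gk
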