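import Pool.Agent.H33.MB2.GkDefs

/-!
# MB2 GKNI: the invariants hold at the start

`Psi` with `gsn = 0`: `Σ_{w ∈ Wn} (1/2)^(dst w A0 / q) ≤ Σ_r (number of w with dst / q = r) 2^(-r) ≤
Σ_r (2 (r+1) q)^2 2^(-r) = 4 q^2 * 12`.  (The number of `w` with `dst w A0 < (r+1) q` is at most `(2 (r+1) q)^2`;
`Σ_{r ≥ 0} (r+1)^2 / 2^r = 12`: for partial sums prove by induction `Σ_{r < n} (r+1)^2 / 2^r = 12 - (2 n^2 + 8 n + 12) / 2^n`.)
`sm`: `gsn = 0`: if not `us < unc` then `unc ≤ us`.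
-/

namespace Pool.H33.MB2.Gk

open Finset
open scoped Classical

variable {P : GP} {η : ℝ} {S : ℕ} {Wn : Finset (ℤ × ℤ)} {lg : List GE} {M B : Finset (ℤ × ℤ)}

private theorem gn_sum (n : ℕ) : ∑ r ∈ range n, ((r : ℝ) + 1) ^ 2 * (1 / 2) ^ r =
    12 - (2 * (n : ℝ) ^ 2 + 8 * n + 12) * (1 / 2) ^ n := by
  induction n with
  | zero => simp
  | succ n ih =>
    rw [sum_range_succ, ih]
    push_cast
    rw [pow_succ]
    ring

private theorem gn_card (F : Finset (ℤ × ℤ)) (A0 : ℤ × ℤ) (q r : ℕ) (hq : 1 ≤ q) :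
    (#(F.filter (fun w => dst w A0 / q = r)) : ℝ) ≤ 4 * (q : ℝ) ^ 2 * ((r : ℝ) + 1) ^ 2 := by
  have hsub : F.filter (fun w => dst w A0 / q = r) ⊆
      Ioo (A0.1 - ((r + 1) * q : ℕ)) (A0.1 + ((r + 1) * q : ℕ)) ×ˢ
        Ioo (A0.2 - ((r + 1) * q : ℕ)) (A0.2 + ((r + 1) * q : ℕ)) := by
    intro w hw
    rw [mem_filter] at hw
    have h1 : dst w A0 < (r + 1) * q := by
      have := Nat.lt_succ_iff.2 (le_of_eq hw.2)
      exact (Nat.div_lt_iff_lt_mul (by omega)).1 this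
    unfold dst at h1
    have h2 := lt_of_le_of_lt (le_max_left _ _) h1
    have h3 := lt_of_le_of_lt (le_max_right _ _) h1
    rw [mem_product, mem_Ioo, mem_Ioo]
    generalize ((r + 1) * q) = m at *
    omega
  have h1 := card_le_card hsub
  rw [card_product, Int.card_Ioo, Int.card_Ioo] at h1
  have h2 : (A0.1 + (((r + 1) * q : ℕ) : ℤ) - (A0.1 - (((r + 1) * q : ℕ) : ℤ)) - 1).toNat ≤
      2 * ((r + 1) * q) := by
    generalize ((r + 1) * q) = m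
    omega
  have h3 : (A0.2 + (((r + 1) * q : ℕ) : ℤ) - (A0.2 - (((r + 1) * q : ℕ) : ℤ)) - 1).toNat ≤
      2 * ((r + 1) * q) := by
    generalize ((r + 1) * q) = m
    omega
  have h4 := h1.trans (Nat.mul_le_mul h2 h3)
  have h5 : (#(F.filter (fun w => dst w A0 / q = r)) : ℝ) ≤
      ((2 * ((r + 1) * q) * (2 * ((r + 1) * q)) : ℕ) : ℝ) := by exact_mod_cast h4
  refine h5.trans (le_of_eq ?_)
  push_cast
  ring

/-- sum over windows -/
theorem gn_bound (F : Finset (ℤ × ℤ)) (A0 : ℤ × ℤ) (q : ℕ) (hq : 1 ≤ q) :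
    ∑ w ∈ F, (1 / 2 : ℝ) ^ (dst w A0 / q) ≤ 48 * (q : ℝ) ^ 2 := by
  obtain ⟨n, hn⟩ : ∃ n : ℕ, ∀ w ∈ F, dst w A0 / q < n := by
    refine ⟨F.sup (fun w => dst w A0 / q) + 1, fun w hw => ?_⟩
    exact Nat.lt_succ_of_le (le_sup (f := fun w => dst w A0 / q) hw)
  have h1 : ∑ w ∈ F, (1 / 2 : ℝ) ^ (dst w A0 / q) =
      ∑ r ∈ range n, ∑ w ∈ F.filter (fun w => dst w A0 / q = r), (1 / 2 : ℝ) ^ (dst w A0 / q) :=
    (sum_fiberwise_of_maps_to (fun w hw => mem_range.2 (hn w hw)) _).symm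
  rw [h1]
  have h2 : ∀ r ∈ range n, ∑ w ∈ F.filter (fun w => dst w A0 / q = r),
      (1 / 2 : ℝ) ^ (dst w A0 / q) ≤ 4 * (q : ℝ) ^ 2 * (((r : ℝ) + 1) ^ 2 * (1 / 2) ^ r) := by
    intro r _
    have h3 : ∑ w ∈ F.filter (fun w => dst w A0 / q = r), (1 / 2 : ℝ) ^ (dst w A0 / q) =
        ∑ w ∈ F.filter (fun w => dst w A0 / q = r), (1 / 2 : ℝ) ^ r := by
      refine sum_congr rfl (fun w hw => ?_)
      rw [(mem_filter.1 hw).2]
    rw [h3, sum_const, nsmul_eq_mul, ← mul_assoc]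
    exact mul_le_mul_of_nonneg_right (gn_card F A0 q r hq) (by positivity)
  refine (sum_le_sum h2).trans ?_
  rw [← mul_sum, gn_sum]
  have h4 : 0 ≤ (2 * (n : ℝ) ^ 2 + 8 * n + 12) * (1 / 2) ^ n := by positivity
  have h5 : 0 ≤ (q : ℝ) ^ 2 := by positivity
  nlinarith

theorem gk_nil (H : GH P η S) (Wn : Finset (ℤ × ℤ)) : GOK P Wn [] ∅ ∅ where
  ent := by simp
  pw := List.Pairwise.nil
  sh := by
    intro l1 e l2 h
    simp at h
  od := by
    intro l1 e l2 h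
    simp at h
  psi := by
    intro A0 _
    unfold Psi
    have h1 : ∀ w, P.lam ^ gsn P [] w = 1 := fun w => by simp [gsn]
    simp only [h1, mul_one]
    exact gn_bound _ A0 P.q H.q1
  sm := by
    intro w _ _
    by_cases h : P.us < unc P ∅ ∅ w
    · exact Or.inl h
    · right
      have h1 : gsn P [] w = 0 := by simp [gsn]
      omega

end Pool.H33.MB2.Gk
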