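import Pool.Agent.H33.MB2.GkDom

/-!
# MB2 GKON: consequences of the invariants of one grid

* If the reply of `e` is deep then every window `w` with `dst w e.T ≤ D0` contains `e.x`.
* `gk_deep`: the deep entries `e ∈ lg` with `e.y ∈ cell c`: their targets satisfy `(e.T.1 - c.1).natAbs < q` etc. (`e.y ∈ cell e.T ∩ cell c`),
  and for two of them (`e'` newer) `e.x ∉ cell e'.T` (`pw`), so `dst e.T e'.T > D0`; in particular the targets
  are different.  `separated` bounds their number by `(2 q / (D0 + 1) + 1)^2`.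
* `gk_gsn`: for `w ∈ Wn` alive: if `w` is big then `lam^(gsn w) ≤ Psi w ≤ 48 q^2 < lam^(Gm+1)` (the term of `w` itself, `dst w w = 0`), so
  `gsn w ≤ Gm` (`lam ≥ 1`); otherwise `sm`.  So `gsn w ≤ Gm + 1 + us` in all cases.
* `gk_os`: `cnt w ≤ gsn w + (number of deep entries in cell w)`.
-/

namespace Pool.H33.MB2.Gk

open Finset
open scoped Classical

variable {P : GP} {η : ℝ} {S : ℕ} {Wn : Finset (ℤ × ℤ)} {lg : List GE} {M B : Finset (ℤ × ℤ)}

theorem go_dst_comm (w w' : ℤ × ℤ) : dst w w' = dst w' w := by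
  unfold dst
  rw [← Int.natAbs_neg (w.1 - w'.1), ← Int.natAbs_neg (w.2 - w'.2), neg_sub, neg_sub]

theorem go_mem_cell {q : ℕ} {w x : ℤ × ℤ} : x ∈ cell q w ↔
    (w.1 ≤ x.1 ∧ x.1 < w.1 + q) ∧ (w.2 ≤ x.2 ∧ x.2 < w.2 + q) := by
  unfold cell
  rw [mem_product, mem_Ico, mem_Ico]

theorem go_deep_near {e : GE} (he : deep P e) {w : ℤ × ℤ} (hw : dst w e.T ≤ P.D0) :
    e.x ∈ cell P.q w := by
  unfold deep at he
  unfold dst at hw
  rw [go_mem_cell]
  omega

theorem gk_deep (h : GOK P Wn lg M B) (c : ℤ × ℤ) :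
    lg.countP (fun e => decide (deep P e ∧ e.y ∈ cell P.q c)) ≤ (2 * P.q / (P.D0 + 1) + 1) ^ 2 := by
  rw [List.countP_eq_length_filter]
  obtain ⟨L, hL⟩ : ∃ L, L = lg.filter (fun e => decide (deep P e ∧ e.y ∈ cell P.q c)) := ⟨_, rfl⟩
  rw [← hL]
  have hmem : ∀ e ∈ L, e ∈ lg ∧ deep P e ∧ e.y ∈ cell P.q c := by
    intro e he
    rw [hL, List.mem_filter, decide_eq_true_iff] at he
    exact ⟨he.1, he.2.1, he.2.2⟩
  have hpw0 : L.Pairwise (fun e' e => e'.y ≠ e.y ∧ e.x ∉ cell P.q e'.T) := by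
    rw [hL]
    exact h.pw.filter _
  have hpw : (L.map GE.T).Pairwise (fun w' w => P.D0 < dst w' w) := by
    rw [List.pairwise_map]
    refine List.Pairwise.imp_of_mem ?_ hpw0
    intro e' e _ he hee
    by_contra hlt
    exact hee.2 (go_deep_near (hmem e he).2.1 (not_lt.1 hlt))
  have hnd : (L.map GE.T).Nodup := by
    refine List.Pairwise.imp ?_ hpw
    intro w' w hww hne
    rw [hne] at hww
    unfold dst at hww
    simp at hww
  have hcard : #((L.map GE.T).toFinset) = L.length := by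
    rw [List.toFinset_card_of_nodup hnd, List.length_map]
  rw [← hcard]
  refine separated c _ ?_ ?_
  · intro w hw
    rw [List.mem_toFinset, List.mem_map] at hw
    obtain ⟨e, he, rfl⟩ := hw
    obtain ⟨h1, _, h3⟩ := hmem e he
    have h4 := (h.ent e h1).2.1
    rw [go_mem_cell] at h3 h4
    omega
  · intro w hw w' hw' hne
    rw [List.mem_toFinset] at hw hw'
    have hsymm : Std.Symm (fun w' w : ℤ × ℤ => P.D0 < dst w' w) :=
      ⟨fun a b hab => by rw [go_dst_comm]; exact hab⟩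
    exact hpw.forall hw hw' hne

theorem gk_gsn (H : GH P η S) (h : GOK P Wn lg M B) {w : ℤ × ℤ} (hw : w ∈ Wn)
    (ha : Disjoint (cell P.q w) B) : gsn P lg w ≤ P.Gm + 1 + P.us ∧
      (P.us < unc P M B w → gsn P lg w ≤ P.Gm) := by
  have hlam : 1 < P.lam := by
    rw [H.lam]
    linarith [H.η0]
  have h2 : P.us < unc P M B w → gsn P lg w ≤ P.Gm := by
    intro hbig
    have hmem : w ∈ bigW P Wn M B := by
      unfold bigW
      rw [mem_filter]
      exact ⟨hw, ha, hbig⟩
    have h3 := h.psi w hw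
    have h4 : P.lam ^ gsn P lg w ≤ Psi P Wn lg M B w := by
      unfold Psi
      have h5 : P.lam ^ gsn P lg w = (1 / 2 : ℝ) ^ (dst w w / P.q) * P.lam ^ gsn P lg w := by
        unfold dst
        simp
      rw [h5]
      exact single_le_sum (f := fun w' => (1 / 2 : ℝ) ^ (dst w' w / P.q) * P.lam ^ gsn P lg w')
        (fun w' _ => by positivity) hmem
    have h5 : P.lam ^ gsn P lg w < P.lam ^ (P.Gm + 1) := lt_of_le_of_lt (h4.trans h3) H.Gm
    have h6 := (pow_lt_pow_iff_right₀ hlam).1 h5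
    omega
  refine ⟨?_, h2⟩
  rcases h.sm w hw ha with h3 | h3
  · have := h2 h3
    omega
  · omega

theorem go_cnt_le (lg : List GE) (w : ℤ × ℤ) : cnt P lg w ≤ gsn P lg w +
    lg.countP (fun e => decide (deep P e ∧ e.y ∈ cell P.q w)) := by
  unfold cnt gsn
  induction lg with
  | nil => simp
  | cons e lg ih =>
    rw [List.countP_cons, List.countP_cons, List.countP_cons]
    by_cases h1 : e.y ∈ cell P.q w <;> by_cases h2 : deep P e <;> simp [h1, h2] at ih ⊢ <;> omega

theorem gk_os (H : GH P η S) (h : GOK P Wn lg M B) {w : ℤ × ℤ} (hw : w ∈ Wn)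
    (ha : Disjoint (cell P.q w) B) : cnt P lg w ≤ P.bs := by
  have h1 := go_cnt_le (P := P) lg w
  have h2 := (gk_gsn H h hw ha).1
  have h3 := gk_deep h w
  rw [H.bs]
  exact h1.trans (Nat.add_le_add h2 h3)

end Pool.H33.MB2.Gk
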