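import Pool.Agent.H33.MB2.Rates

/-!
# MB2 GOJ: the invariants after a join

`A ∈ F` alive, `A ∉ s.J`.  Notes.
* `lb` changes only for `C ≠ A`, `C ∉ s.J`, at points `v ∈ C ∩ nbox s A` with `gen A C` where it was `none`.  So `lb A`
  and `lb D` for `D ∈ s.J` are unchanged, `lev` of the joined sets (including `A`) is unchanged.
* `lb`: the new causes are `A ∈ J'`, `v ∈ nbox s A = box' A`.  For an old cause `D ∈ s.J` (so `D ≠ A`), `box' D = box D`.
* `bx` for `A`: definition of `nbox`.
* `hit`: old joined set `D`: by `g.hit` `lb C v ≠ none`, and it stays (or `C = A`, excluded as `C ∉ J'`).  For `A`: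
  if `lb C v` was `none` it is now `some A` (`C ≠ A` since `gen A A` is impossible).
* `rel`: `D ∈ s.J`, `v ∈ box D`, `v ∈ nbox s A`, so `s.lb A v = none`: `rel_unj` (symmetric version too).
* `old`: for the head `A`: `¬ newc' A` means no alive `D ∈ s.J` is arithmetic to `A`; for the tail `newc'` agrees
  with `newc` on `s.J` (`A ∉ s.J`): `List.Pairwise.imp_of_mem`.
* `good`, `cert`, `dirty` for `A` are the hypotheses (`cln' A ↔ clean Y s A`; if `¬ clean Y s A` there is `D ∈ s.J` with
  `arith D A`); `s1' A = b1 Y s A`, `s2' A = b2 Y s A`, `ss' A = sv Y s A` in the clean case.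
* `s1b`: `b1_le`.  `ssn`: `sv_nonneg`.
-/

set_option linter.unusedSectionVars false

namespace Pool.H33.MB2

open Finset
open scoped Classical

variable {X Γ : Type*} [DecidableEq X] {Y : Sys X Γ} {Q : Num2}
  {Lg : List (Entry X) → Finset X → Finset X → Prop} {s : State X}

private theorem join_lb_eq (A C : Finset X) (v : X) : (join Y s A).lb C v =
    if s.lb C v = none ∧ C ≠ A ∧ C ∉ s.J ∧ v ∈ C ∧ v ∈ nbox s A ∧ gen Y A C
    then some A else s.lb C v := rfl

private theorem join_lb_old {A C : Finset X} (h : C = A ∨ C ∈ s.J) (v : X) :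
    (join Y s A).lb C v = s.lb C v := by
  rw [join_lb_eq, if_neg]
  rintro ⟨-, h1, h2, -⟩
  exact h.elim h1 h2

private theorem join_lb_ne {A C : Finset X} {v : X} (h : s.lb C v ≠ none) :
    (join Y s A).lb C v = s.lb C v := by
  rw [join_lb_eq, if_neg]
  rintro ⟨h1, -⟩
  exact h h1

private theorem join_box_self (A : Finset X) : (join Y s A).box A = nbox s A := if_pos rfl

private theorem join_box_ne {A C : Finset X} (h : C ≠ A) : (join Y s A).box C = s.box C := if_neg h

private theorem join_lev {A C : Finset X} (h : C = A ∨ C ∈ s.J) : lev (join Y s A) C = lev s C := by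
  unfold lev
  congr 1
  refine filter_congr fun v _ => ?_
  rw [join_lb_old h]
  rfl

private theorem mem_nbox {A : Finset X} {v : X} : v ∈ nbox s A ↔ v ∈ A ∧ v ∉ s.M ∧ s.lb A v = none := by
  simp [nbox]

theorem good_join (hN : NumH Y Q) (g : Good Y Lg s) {A : Finset X} (hA : A ∈ Y.F)
    (hAJ : A ∉ s.J) (hne : (nbox s A).Nonempty) (hlv : lev s A ≤ Y.jb + Y.H1)
    (hgood : clean Y s A → ¬ (Y.jb + Y.h6 < lev s A + 2) → Y.G ≤ b1 Y s A)
    (hcert : clean Y s A → Y.jb + Y.h6 < lev s A + 2 → Y.β ≤ b2 Y s A ∧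
      ∃ c : Finset (X × Finset X), Mc Y ≤ #c ∧
        (∀ l ∈ c, l.1 ∈ A ∧ gen Y A l.2 ∧ l.1 ∈ l.2 ∧ l.2 ∈ s.ripe ∧ Y.G ≤ sv Y s A l) ∧
        ∀ l ∈ c, ∀ l' ∈ c, l.1 = l'.1 → l = l') :
    Good Y Lg (join Y s A) := by
  have hJ : (join Y s A).J = A :: s.J := rfl
  have hneJ : ∀ {D}, D ∈ s.J → D ≠ A := fun hD h => hAJ (h ▸ hD)
  refine
    { MS := g.MS
      BS := g.BS
      MB := g.MB
      nodup := List.nodup_cons.2 ⟨hAJ, g.nodup⟩
      JF := ?_
      Jr := ?_
      rF := ?_
      lb := ?_
      bx := ?_
      bne := ?_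
      hit := ?_
      rel := ?_
      lv := ?_
      old := ?_
      good := ?_
      cert := ?_
      dirty := ?_
      s1n := ?_
      s1b := ?_
      s2n := ?_
      ssn := ?_
      log := g.log
      logJ := fun e he => List.mem_cons_of_mem _ (g.logJ e he) }
  · intro D hD
    rcases List.mem_cons.1 hD with rfl | hD
    · exact hA
    · exact g.JF D hD
  · intro D hD
    rcases List.mem_cons.1 hD with rfl | hD
    · exact mem_insert_self _ _
    · exact mem_insert_of_mem (g.Jr D hD)
  · exact insert_subset hA g.rF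
  · intro C v D h
    rw [join_lb_eq] at h
    split_ifs at h with hc
    · obtain ⟨-, -, -, h1, h2, h3⟩ := hc
      have hD : A = D := Option.some.inj h
      subst hD
      exact ⟨List.mem_cons_self, by rw [join_box_self]; exact h2, h1, h3⟩
    · obtain ⟨h1, h2, h3, h4⟩ := g.lb C v D h
      exact ⟨List.mem_cons_of_mem _ h1, by rw [join_box_ne (hneJ h1)]; exact h2, h3, h4⟩
  · intro D hD
    rcases List.mem_cons.1 hD with rfl | hD
    · rw [join_box_self]
      refine ⟨filter_subset _ _, fun v hv => ?_, fun v hv hM hl => ?_⟩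
      · rw [join_lb_old (Or.inl rfl)]
        exact (mem_nbox.1 hv).2.2
      · rw [join_lb_old (Or.inl rfl)] at hl
        exact mem_nbox.2 ⟨hv, hM, hl⟩
    · rw [join_box_ne (hneJ hD)]
      obtain ⟨h1, h2, h3⟩ := g.bx D hD
      refine ⟨h1, fun v hv => ?_, fun v hv hM hl => ?_⟩
      · rw [join_lb_old (Or.inr hD)]
        exact h2 v hv
      · rw [join_lb_old (Or.inr hD)] at hl
        exact h3 v hv hM hl
  · intro D hD
    rcases List.mem_cons.1 hD with rfl | hD
    · rw [join_box_self]
      exact hne
    · rw [join_box_ne (hneJ hD)]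
      exact g.bne D hD
  · intro D hD C hC v hvC hvD hg
    rw [hJ, List.mem_cons, not_or] at hC
    rcases List.mem_cons.1 hD with rfl | hD
    · rw [join_box_self] at hvD
      rw [join_lb_eq]
      split_ifs with hc
      · exact Option.some_ne_none _
      · intro h0
        exact hc ⟨h0, hC.1, hC.2, hvC, hvD, hg⟩
    · rw [join_box_ne (hneJ hD)] at hvD
      have h1 := g.hit D hD C hC.2 v hvC hvD hg
      rw [join_lb_ne h1]
      exact h1
  · intro D hD0 D' hD0' v hv hv'
    rcases List.mem_cons.1 hD0 with hDA | hD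
    · rcases List.mem_cons.1 hD0' with hDA' | hD'
      · exact Or.inl (hDA.trans hDA'.symm)
      · rw [hDA, join_box_self] at hv
        rw [join_box_ne (hneJ hD')] at hv'
        obtain ⟨h1, -, h2⟩ := mem_nbox.1 hv
        rw [hDA]
        rcases rel_unj g hD' hv' hAJ h1 h2 with h3 | h3
        · exact Or.inr (Or.inl h3.symm)
        · exact Or.inr (Or.inr (arith_symm h3))
    · rw [join_box_ne (hneJ hD)] at hv
      rcases List.mem_cons.1 hD0' with hDA' | hD'
      · rw [hDA', join_box_self] at hv'
        obtain ⟨h1, -, h2⟩ := mem_nbox.1 hv'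
        rw [hDA']
        exact Or.inr (rel_unj g hD hv hAJ h1 h2)
      · rw [join_box_ne (hneJ hD')] at hv'
        exact g.rel D hD D' hD' v hv hv'
  · intro D hD
    rcases List.mem_cons.1 hD with rfl | hD
    · rw [join_lev (Or.inl rfl)]
      exact hlv
    · rw [join_lev (Or.inr hD)]
      exact g.lv D hD
  · rw [hJ, List.pairwise_cons]
    refine ⟨fun D hD hnc hal har => ?_, ?_⟩
    · apply hnc
      change if A = A then ∃ D ∈ s.J, alive s D ∧ arith Y D A else s.newc A
      rw [if_pos rfl]
      exact ⟨D, hD, hal, har⟩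
    · refine g.old.imp_of_mem fun {C D} hC hD h hnc => ?_
      refine h fun hn => hnc ?_
      change if C = A then ∃ D ∈ s.J, alive s D ∧ arith Y D A else s.newc C
      rw [if_neg (hneJ hC)]
      exact hn
  · intro D hD hcl hbd
    change (if D = A then clean Y s A else s.cln D) at hcl
    change ¬ (if D = A then Y.jb + Y.h6 < lev s A + 2 else s.bad D) at hbd
    change Y.G ≤ if D = A then (if clean Y s A then b1 Y s A else 0) else s.s1 D
    rcases List.mem_cons.1 hD with rfl | hD
    · rw [if_pos rfl] at hcl hbd ⊢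
      rw [if_pos hcl]
      exact hgood hcl hbd
    · rw [if_neg (hneJ hD)] at hcl hbd ⊢
      exact g.good D hD hcl hbd
  · intro D hD hcl hbd
    change (if D = A then clean Y s A else s.cln D) at hcl
    change (if D = A then Y.jb + Y.h6 < lev s A + 2 else s.bad D) at hbd
    rcases List.mem_cons.1 hD with rfl | hD
    · rw [if_pos rfl] at hcl hbd
      obtain ⟨h1, c, h2, h3, h4⟩ := hcert hcl hbd
      refine ⟨?_, c, h2, fun l hl => ?_, h4⟩
      · change Y.β ≤ if D = D then (if clean Y s D then b2 Y s D else 0) else s.s2 D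
        rw [if_pos rfl, if_pos hcl]
        exact h1
      · obtain ⟨k1, k2, k3, k4, k5⟩ := h3 l hl
        refine ⟨k1, k2, k3, mem_insert_of_mem k4, ?_⟩
        change Y.G ≤ (if D = D then sv Y s D else s.ss D) l
        rw [if_pos rfl]
        exact k5
    · rw [if_neg (hneJ hD)] at hcl hbd
      obtain ⟨h1, c, h2, h3, h4⟩ := g.cert D hD hcl hbd
      refine ⟨?_, c, h2, fun l hl => ?_, h4⟩
      · change Y.β ≤ if D = A then (if clean Y s A then b2 Y s A else 0) else s.s2 D
        rw [if_neg (hneJ hD)]
        exact h1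
      · obtain ⟨k1, k2, k3, k4, k5⟩ := h3 l hl
        refine ⟨k1, k2, k3, mem_insert_of_mem k4, ?_⟩
        change Y.G ≤ (if D = A then sv Y s A else s.ss D) l
        rw [if_neg (hneJ hD)]
        exact k5
  · intro D hD hcl
    change ¬ (if D = A then clean Y s A else s.cln D) at hcl
    rcases List.mem_cons.1 hD with rfl | hD
    · rw [if_pos rfl] at hcl
      unfold clean at hcl
      push Not at hcl
      obtain ⟨E, hE, h1⟩ := hcl
      exact ⟨E, List.mem_cons_of_mem _ hE, h1⟩
    · rw [if_neg (hneJ hD)] at hcl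
      obtain ⟨E, hE, h1⟩ := g.dirty D hD hcl
      exact ⟨E, List.mem_cons_of_mem _ hE, h1⟩
  · intro C
    change 0 ≤ if C = A then (if clean Y s A then b1 Y s A else 0) else s.s1 C
    split_ifs
    · exact (b1_pos hN _).le
    · exact le_rfl
    · exact g.s1n C
  · intro C
    change (if C = A then (if clean Y s A then b1 Y s A else 0) else s.s1 C) ≤ _
    split_ifs
    · exact b1_le hN _
    · exact mul_nonneg hN.c1pos.le (pow_nonneg (K_pos hN).le _)
    · exact g.s1b C
  · intro C
    change 0 ≤ if C = A then (if clean Y s A then b2 Y s A else 0) else s.s2 C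
    split_ifs
    · exact (b2_pos hN _).le
    · exact le_rfl
    · exact g.s2n C
  · intro C l
    change 0 ≤ (if C = A then sv Y s A else s.ss C) l
    split_ifs
    · exact sv_nonneg hN g A l
    · exact g.ssn C l

/-- Almost joined sets stay ripe. -/
theorem nr_join (hnr : NR Y s) (A : Finset X) : NR Y (join Y s A) := by
  rintro C ⟨h1, h2, h3, h4⟩
  have h5 : lev s C ≤ lev (join Y s A) C := by
    unfold lev
    refine card_le_card fun v hv => ?_
    rw [mem_filter] at hv ⊢
    refine ⟨hv.1, hv.2.imp id fun h => ?_⟩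
    rw [join_lb_ne h]
    exact h
  refine mem_insert_of_mem (hnr C ⟨h1, h2, fun h => h3 (List.mem_cons_of_mem _ h), h5.trans h4⟩)

/-- The relation to the last stable state is kept. -/
theorem mid_join {s0 : State X} {y z : X} (g : Good Y Lg s) (hm : Mid Y s0 s y z) {A : Finset X}
    (hA : A ∈ Y.F) (hal : alive s A) (hAJ : A ∉ s.J) : Mid Y s0 (join Y s A) y z := by
  have hA0 : A ∉ s0.J := fun h => hAJ (hm.J A h)
  refine
    { M := hm.M
      B := hm.B
      lbm := ?_
      J := fun C hC => List.mem_cons_of_mem _ (hm.J C hC)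
      nearJ := ?_
      lbn := ?_ }
  · intro C v h
    have h1 := hm.lbm C v h
    have h2 : s.lb C v ≠ none := by rw [h1]; exact h
    rw [join_lb_ne h2, h1]
  · intro C hC hC0 hbd
    change ¬ (if C = A then Y.jb + Y.h6 < lev s A + 2 else s.bad C) at hbd
    rcases List.mem_cons.1 hC with rfl | hC
    · rw [if_pos rfl, not_lt] at hbd
      refine ⟨hA, Disjoint.mono_right hm.B hal, hC0, ?_⟩
      refine le_trans ?_ hbd
      have h1 : C.filter (fun v => v ∉ s0.M ∨ s0.lb C v ≠ none) ⊆
          C.filter (fun v => v ∉ s.M ∨ s.lb C v ≠ none) ∪ {y, z} := by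
        intro v hv
        rw [mem_filter] at hv
        rw [mem_union, mem_filter, mem_insert, mem_singleton]
        by_cases hyz : v = y ∨ v = z
        · exact Or.inr hyz
        · rw [not_or] at hyz
          refine Or.inl ⟨hv.1, hv.2.imp (fun h h' => ?_) fun h => ?_⟩
          · rw [hm.M, mem_insert, mem_insert] at h'
            rcases h' with h' | h' | h'
            · exact hyz.1 h'
            · exact hyz.2 h'
            · exact h h'
          · rw [hm.lbm C v h]
            exact h
      unfold lev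
      refine (card_le_card h1).trans ((card_union_le _ _).trans ?_)
      have h2 : #({y, z} : Finset X) ≤ 2 := card_le_two
      omega
    · have hCA : C ≠ A := fun h => hAJ (h ▸ hC)
      rw [if_neg hCA] at hbd
      exact hm.nearJ C hC hC0 hbd
  · intro C v D h h0
    rw [join_lb_eq] at h
    split_ifs at h with hc
    · obtain ⟨-, -, -, h1, h2, h3⟩ := hc
      have hD : A = D := Option.some.inj h
      subst hD
      obtain ⟨k1, k2, k3⟩ := mem_nbox.1 h2
      refine ⟨List.mem_cons_self, hA0, ?_, k2, gen_symm h3, k1⟩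
      by_contra hn
      have h4 := hm.lbm A v hn
      rw [k3] at h4
      exact hn h4.symm
    · obtain ⟨k1, k2, k3, k4, k5, k6⟩ := hm.lbn C v D h h0
      exact ⟨List.mem_cons_of_mem _ k1, k2, k3, k4, k5, k6⟩

end Pool.H33.MB2
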