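import Pool.Agent.H33.MB2.Rates

/-!
# MB2 GOM: the invariants after a move

Only `M` (claims), `B` (Breaker), `B` and `log` (reply), `ripe` (ripening) change.
* `lv`: levels do not increase when `M` grows.  `bx`: `v ∉ M'` implies `v ∉ M`.
* `log`: by `GeoH.mono` (claims, Breaker's point); for `reply` it is a hypothesis.
* `old`: `alive` gets harder.  `cert`: `ripe` grows.  `Jr`: `ripe` grows.
* `MB`: the new points are free.
* everything else does not mention the changed fields (`List.Pairwise.imp` for `old`).
-/

set_option linter.unusedSectionVars false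

namespace Pool.H33.MB2

open Finset
open scoped Classical

variable {X Γ : Type*} [DecidableEq X] {Y : Sys X Γ} {Q : Num2}
  {Lg : List (Entry X) → Finset X → Finset X → Prop} {s : State X}

theorem lev_afterM_le (s : State X) (y z : X) (A : Finset X) : lev (afterM s y z) A ≤ lev s A := by
  unfold lev
  refine card_le_card ?_
  intro v hv
  rw [mem_filter] at hv ⊢
  refine ⟨hv.1, ?_⟩
  rcases hv.2 with h | h
  · left
    intro hM
    exact h (mem_insert_of_mem (mem_insert_of_mem hM))
  · exact Or.inr h

theorem good_afterM (hG : GeoH Y Lg) (g : Good Y Lg s) {y z : X} (hy : y ∈ free Y s)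
    (hz : z ∈ free Y s) : Good Y Lg (afterM s y z) where
  MS := by
    intro p hp
    have hp' : p ∈ insert y (insert z s.M) := hp
    rw [mem_insert, mem_insert] at hp'
    rcases hp' with rfl | rfl | h
    · exact (mem_free.1 hy).1
    · exact (mem_free.1 hz).1
    · exact g.MS h
  BS := g.BS
  MB := by
    rw [Finset.disjoint_left]
    intro p hp
    have hp' : p ∈ insert y (insert z s.M) := hp
    rw [mem_insert, mem_insert] at hp'
    rcases hp' with rfl | rfl | h
    · exact (mem_free.1 hy).2.2
    · exact (mem_free.1 hz).2.2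
    · exact (Finset.disjoint_left.1 g.MB) h
  nodup := g.nodup
  JF := g.JF
  Jr := g.Jr
  rF := g.rF
  lb := g.lb
  bx := by
    intro A hA
    obtain ⟨h1, h2, h3⟩ := g.bx A hA
    exact ⟨h1, h2, fun v hv hM hl =>
      h3 v hv (fun h => hM (mem_insert_of_mem (mem_insert_of_mem h))) hl⟩
  bne := g.bne
  hit := g.hit
  rel := g.rel
  lv := fun A hA => (lev_afterM_le s y z A).trans (g.lv A hA)
  old := g.old
  good := g.good
  cert := g.cert
  dirty := g.dirty
  s1n := g.s1n
  s1b := g.s1b
  s2n := g.s2n
  ssn := g.ssn
  log := hG.mono _ _ _ _ _ g.log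
    (fun p hp => mem_insert_of_mem (mem_insert_of_mem hp)) (Subset.refl _)
  logJ := g.logJ

theorem good_addB (hG : GeoH Y Lg) (g : Good Y Lg s) {x : X} (hx : x ∈ free Y s) :
    Good Y Lg (addB s x) where
  MS := g.MS
  BS := by
    intro p hp
    have hp' : p ∈ insert x s.B := hp
    rw [mem_insert] at hp'
    rcases hp' with rfl | h
    · exact (mem_free.1 hx).1
    · exact g.BS h
  MB := by
    rw [Finset.disjoint_left]
    intro p hp hp'
    have hp'' : p ∈ insert x s.B := hp'
    rw [mem_insert] at hp''
    rcases hp'' with rfl | h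
    · exact (mem_free.1 hx).2.1 hp
    · exact (Finset.disjoint_left.1 g.MB) hp h
  nodup := g.nodup
  JF := g.JF
  Jr := g.Jr
  rF := g.rF
  lb := g.lb
  bx := g.bx
  bne := g.bne
  hit := g.hit
  rel := g.rel
  lv := g.lv
  old := by
    refine List.Pairwise.imp ?_ g.old
    intro A D h h1 h2
    exact h h1 (Disjoint.mono_right (subset_insert x s.B) h2)
  good := g.good
  cert := g.cert
  dirty := g.dirty
  s1n := g.s1n
  s1b := g.s1b
  s2n := g.s2n
  ssn := g.ssn
  log := hG.mono _ _ _ _ _ g.log (Subset.refl _) (subset_insert x s.B)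
  logJ := g.logJ

theorem good_reply (hG : GeoH Y Lg) (g : Good Y Lg s) {y z : X} (hy : y ∈ free Y s)
    (hz : z ∈ free Y s) {A : Finset X} (hA : A ∈ s.J) {x : X} (hx : x ∈ free Y (afterM s y z))
    (hL : Lg (⟨y, A, x⟩ :: s.log) (insert y (insert z s.M)) (insert x s.B)) :
    Good Y Lg (reply (afterM s y z) ⟨y, A, x⟩) := by
  have g' := good_addB hG (good_afterM hG g hy hz) hx
  exact
    { MS := g'.MS
      BS := g'.BS
      MB := g'.MB
      nodup := g'.nodup
      JF := g'.JF
      Jr := g'.Jr
      rF := g'.rF
      lb := g'.lb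
      bx := g'.bx
      bne := g'.bne
      hit := g'.hit
      rel := g'.rel
      lv := g'.lv
      old := g'.old
      good := g'.good
      cert := g'.cert
      dirty := g'.dirty
      s1n := g'.s1n
      s1b := g'.s1b
      s2n := g'.s2n
      ssn := g'.ssn
      log := hL
      logJ := by
        intro e he
        have he' : e ∈ (⟨y, A, x⟩ : Entry X) :: s.log := he
        rcases List.mem_cons.1 he' with rfl | h
        · exact hA
        · exact g.logJ e h }

theorem good_ripen (g : Good Y Lg s) : Good Y Lg (ripen Y s) where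
  MS := g.MS
  BS := g.BS
  MB := g.MB
  nodup := g.nodup
  JF := g.JF
  Jr := fun A hA => mem_union_left _ (g.Jr A hA)
  rF := by
    intro A hA
    have hA' : A ∈ s.ripe ∪ Y.F.filter (near Y s) := hA
    rw [mem_union, mem_filter] at hA'
    rcases hA' with h | h
    · exact g.rF h
    · exact h.1
  lb := g.lb
  bx := g.bx
  bne := g.bne
  hit := g.hit
  rel := g.rel
  lv := g.lv
  old := g.old
  good := g.good
  cert := by
    intro A hA h1 h2
    obtain ⟨h3, c, h4, h5, h6⟩ := g.cert A hA h1 h2
    refine ⟨h3, c, h4, fun l hl => ?_, h6⟩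
    obtain ⟨a1, a2, a3, a4, a5⟩ := h5 l hl
    exact ⟨a1, a2, a3, mem_union_left _ a4, a5⟩
  dirty := g.dirty
  s1n := g.s1n
  s1b := g.s1b
  s2n := g.s2n
  ssn := g.ssn
  log := g.log
  logJ := g.logJ

theorem nr_ripen (s : State X) : NR Y (ripen Y s) := by
  intro A hA
  have h : near Y s A := hA
  exact mem_union_right _ (mem_filter.2 ⟨h.1, h⟩)

/-- The starting state. -/
theorem good_start (hN : NumH Y Q) (hG : GeoH Y Lg) : Good Y Lg (start : State X) where
  MS := empty_subset _
  BS := empty_subset _
  MB := disjoint_empty_left _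
  nodup := List.nodup_nil
  JF := fun A hA => absurd hA List.not_mem_nil
  Jr := fun A hA => absurd hA List.not_mem_nil
  rF := empty_subset _
  lb := fun C v A h => by
    have h' : (none : Option (Finset X)) = some A := h
    exact absurd h' (by simp)
  bx := fun A hA => absurd hA List.not_mem_nil
  bne := fun A hA => absurd hA List.not_mem_nil
  hit := fun A hA => absurd hA List.not_mem_nil
  rel := fun A hA => absurd hA List.not_mem_nil
  lv := fun A hA => absurd hA List.not_mem_nil
  old := List.Pairwise.nil
  good := fun A hA => absurd hA List.not_mem_nil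
  cert := fun A hA => absurd hA List.not_mem_nil
  dirty := fun A hA => absurd hA List.not_mem_nil
  s1n := fun A => le_rfl
  s1b := fun A => by
    have h1 := hN.c1pos
    have h2 := K_pos hN
    have h3 : 0 ≤ Y.c1 * Y.K ^ Y.bs := by positivity
    exact h3
  s2n := fun A => le_rfl
  ssn := fun A l => le_rfl
  log := hG.nil
  logJ := fun A hA => absurd hA List.not_mem_nil

theorem stable_start (hF : FamH Y) (hN : NumH Y Q) : stable Y (start : State X) := by
  intro A hA _ _
  have hlev : ∀ C : Finset X, lev (start : State X) C = #C := by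
    intro C
    unfold lev
    rw [filter_true_of_mem]
    intro v _
    exact Or.inl (notMem_empty v)
  have hnear : ∀ C : Finset X, ¬ near Y (start : State X) C := by
    intro C h
    have h1 := h.2.2.2
    rw [hlev, hF.card C h.1] at h1
    have := hN.jk
    omega
  have huh : uh Y (start : State X) A = #A := by
    unfold uh
    rw [filter_true_of_mem]
    intro v _
    refine ⟨notMem_empty v, rfl, ?_⟩
    rintro ⟨C, h, -⟩
    exact hnear C h
  rw [huh, hF.card A hA]
  have := hN.jk
  omega

end Pool.H33.MB2
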