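import Pool.Agent.H33.MB2.Rates

/-!
# MB2 GSB: the sum of the values at a point is bounded

Let `v` be free, `𝒜 = {C ∈ F : v ∈ C, lb C v = none, alive, C ∉ J, clean}`, so `gs Y s v = Σ_{C ∈ 𝒜} b1 Y s C`; each
`b1 Y s C ≤ c1 K^bs` (`b1_le`).  Suppose `gs Y s v > M1`.  For `n ≤ nP` let `e_n` be the sum of `∏_{C ∈ 𝒞} b1 Y s C` over the
`𝒞 ⊆ 𝒜` with `#𝒞 = n` whose members pairwise meet only in `v`.  `e_0 = 1`.
Claim: `(n + 1) e_{n+1} ≥ e_n * (M1 / 2)` for `n < nP`.  Double count the pairs `(𝒞, C)` with `#𝒞 = n`, `C ∈ 𝒜 \ 𝒞`,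
`insert C 𝒞` admissible: the sum of the products over these pairs is `(n + 1) e_{n+1}`, and for given `𝒞` the sum of `b1 C`
over the `C ∈ 𝒜` that are not allowed is at most `n k L c1 K^bs ≤ M1 / 2` (`hN.ps2`): such a `C` contains `v` and
a point `p ≠ v` of some member of `𝒞` (at most `n k` choices of `p`, `L` sets each by `codeg`; a member
`C ∈ 𝒞` itself is of this kind since `k ≥ 2`).
So `e_{nP} ≥ (M1 / 2)^nP / nP!`.  The stars `(v, 𝒞)` lie in `psI Y` (`mem_psI`) and `psW Y s (v, 𝒞) = ρP ∏ b1`, so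
`Phi Y s ≥ ρP e_{nP} > 1/16` by `hN.ps`: contradiction.  (`Phi Y s ≥ Σ_{T ∈ psI} psW Y s T`: `Finset.sum_disjSum` and
nonnegativity.)
-/

set_option linter.unusedSectionVars false

namespace Pool.H33.MB2

open Finset
open scoped Classical

variable {X Γ : Type*} [DecidableEq X] {Y : Sys X Γ} {Q : Num2}
  {Lg : List (Entry X) → Finset X → Finset X → Prop} {s : State X}

/-- the pairwise compatible sets of size `n` -/
noncomputable def gsbAdm {ι : Type*} (A : Finset ι) (R : ι → ι → Prop) (n : ℕ) :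
    Finset (Finset ι) :=
  (A.powersetCard n).filter (fun C => ∀ i ∈ C, ∀ j ∈ C, i ≠ j → R i j)

theorem mem_gsbAdm {ι : Type*} (A : Finset ι) (R : ι → ι → Prop) (n : ℕ) (C : Finset ι) :
    C ∈ gsbAdm A R n ↔ C ⊆ A ∧ #C = n ∧ ∀ i ∈ C, ∀ j ∈ C, i ≠ j → R i j := by
  unfold gsbAdm
  simp only [mem_filter, mem_powersetCard, and_assoc]

/-- one step of the count of pairwise compatible sets -/
theorem gsb_step {ι : Type*} [DecidableEq ι] (A : Finset ι) (w : ι → ℝ) (hw : ∀ i ∈ A, 0 ≤ w i)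
    (R : ι → ι → Prop) (hR : ∀ i j, R i j → R j i) (hirr : ∀ i ∈ A, ¬ R i i) (M μ : ℝ)
    (hM : M ≤ ∑ i ∈ A, w i)
    (hμ : ∀ i ∈ A, ∀ D : Finset ι, D ⊆ A → (∀ j ∈ D, ¬ R i j) → ∑ j ∈ D, w j ≤ μ) (n : ℕ) :
    (∑ C ∈ gsbAdm A R n, ∏ i ∈ C, w i) * (M - n * μ) ≤
    (n + 1) * ∑ C ∈ gsbAdm A R (n + 1), ∏ i ∈ C, w i := by
  have hmem := mem_gsbAdm A R
  -- left side
  have hleft : ∀ C ∈ gsbAdm A R n, (∏ i ∈ C, w i) * (M - n * μ) ≤
      ∑ c ∈ A.filter (fun c => ∀ i ∈ C, R i c), (∏ i ∈ C, w i) * w c := by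
    intro C hC
    rw [hmem] at hC
    have hp : 0 ≤ ∏ i ∈ C, w i := prod_nonneg fun i hi => hw i (hC.1 hi)
    rw [← Finset.mul_sum]
    apply mul_le_mul_of_nonneg_left _ hp
    have h1 : ∑ c ∈ A, w c = ∑ c ∈ A.filter (fun c => ∀ i ∈ C, R i c), w c +
        ∑ c ∈ A.filter (fun c => ¬ ∀ i ∈ C, R i c), w c :=
      (Finset.sum_filter_add_sum_filter_not A (fun c => ∀ i ∈ C, R i c) w).symm
    have h2 : ∑ c ∈ A.filter (fun c => ¬ ∀ i ∈ C, R i c), w c ≤ n * μ := by
      have h3 : A.filter (fun c => ¬ ∀ i ∈ C, R i c) ⊆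
          C.biUnion (fun i => A.filter (fun j => ¬ R i j)) := by
        intro c hc
        rw [mem_filter] at hc
        obtain ⟨hcA, hc⟩ := hc
        push Not at hc
        obtain ⟨i, hi, hic⟩ := hc
        rw [mem_biUnion]
        exact ⟨i, hi, mem_filter.2 ⟨hcA, hic⟩⟩
      calc ∑ c ∈ A.filter (fun c => ¬ ∀ i ∈ C, R i c), w c
          ≤ ∑ c ∈ C.biUnion (fun i => A.filter (fun j => ¬ R i j)), w c := by
            apply sum_le_sum_of_subset_of_nonneg h3
            intro c hc _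
            rw [mem_biUnion] at hc
            obtain ⟨i, _, hc⟩ := hc
            exact hw c (mem_filter.1 hc).1
        _ ≤ ∑ i ∈ C, ∑ c ∈ A.filter (fun j => ¬ R i j), w c := by
            have : ∀ (D : Finset ι), D ⊆ A →
                ∑ c ∈ D.biUnion (fun i => A.filter (fun j => ¬ R i j)), w c ≤
                ∑ i ∈ D, ∑ c ∈ A.filter (fun j => ¬ R i j), w c := by
              intro D
              induction D using Finset.induction_on with
              | empty => intro _; simp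
              | insert a D ha ih =>
                intro hD
                rw [biUnion_insert, sum_insert ha]
                have hnn : ∀ c ∈ (A.filter (fun j => ¬ R a j)) ∩
                    D.biUnion (fun i => A.filter (fun j => ¬ R i j)), 0 ≤ w c := by
                  intro c hc
                  exact hw c (mem_filter.1 (mem_inter.1 hc).1).1
                have h4 := sum_union_inter (s₁ := A.filter (fun j => ¬ R a j))
                  (s₂ := D.biUnion (fun i => A.filter (fun j => ¬ R i j))) (f := w)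
                have h5 := sum_nonneg hnn
                have h6 := ih (fun x hx => hD (mem_insert_of_mem hx))
                linarith
            exact this C hC.1
        _ ≤ ∑ i ∈ C, μ := sum_le_sum fun i hi => hμ i (hC.1 hi) _ (filter_subset _ _)
            (fun j hj => (mem_filter.1 hj).2)
        _ = n * μ := by rw [sum_const, hC.2.1, nsmul_eq_mul]
    linarith
  -- right side
  have hright : (n + 1) * ∑ C ∈ gsbAdm A R (n + 1), ∏ i ∈ C, w i =
      ∑ D ∈ gsbAdm A R (n + 1), ∑ _c ∈ D, ∏ i ∈ D, w i := by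
    rw [Finset.mul_sum]
    apply sum_congr rfl
    intro D hD
    rw [hmem] at hD
    rw [sum_const, hD.2.1, nsmul_eq_mul]
    push_cast
    ring
  rw [hright, Finset.sum_mul]
  refine le_trans (sum_le_sum hleft) (le_of_eq ?_)
  rw [Finset.sum_sigma', Finset.sum_sigma']
  refine Finset.sum_nbij' (fun x => ⟨insert x.2 x.1, x.2⟩) (fun x => ⟨x.1.erase x.2, x.2⟩)
    ?_ ?_ ?_ ?_ ?_
  · rintro ⟨C, c⟩ h
    rw [mem_sigma] at h ⊢
    simp only [mem_filter] at h ⊢
    obtain ⟨hC, hcA, hc⟩ := h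
    rw [hmem] at hC
    have hcC : c ∉ C := fun h => hirr c hcA (hc c h)
    refine ⟨?_, mem_insert_self _ _⟩
    rw [hmem]
    refine ⟨insert_subset hcA hC.1, ?_, ?_⟩
    · rw [card_insert_of_notMem hcC, hC.2.1]
    · intro i hi j hj hij
      rcases mem_insert.1 hi with hi' | hi'
      · rcases mem_insert.1 hj with hj' | hj'
        · exact absurd (hi'.trans hj'.symm) hij
        · rw [hi']; exact hR _ _ (hc j hj')
      · rcases mem_insert.1 hj with hj' | hj'
        · rw [hj']; exact hc i hi'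
        · exact hC.2.2 i hi' j hj' hij
  · rintro ⟨D, c⟩ h
    rw [mem_sigma] at h ⊢
    simp only [mem_filter] at h ⊢
    obtain ⟨hD, hc⟩ := h
    rw [hmem] at hD
    refine ⟨?_, hD.1 hc, ?_⟩
    · rw [hmem]
      refine ⟨(erase_subset _ _).trans hD.1, ?_, ?_⟩
      · rw [card_erase_of_mem hc, hD.2.1]; omega
      · intro i hi j hj hij
        exact hD.2.2 i (mem_of_mem_erase hi) j (mem_of_mem_erase hj) hij
    · intro i hi
      exact hD.2.2 i (mem_of_mem_erase hi) c hc (ne_of_mem_erase hi)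
  · rintro ⟨C, c⟩ h
    rw [mem_sigma] at h
    simp only [mem_filter] at h
    obtain ⟨hC, hcA, hc⟩ := h
    have hcC : c ∉ C := fun h => hirr c hcA (hc c h)
    simp only
    rw [erase_insert hcC]
  · rintro ⟨D, c⟩ h
    rw [mem_sigma] at h
    simp only
    rw [insert_erase h.2]
  · rintro ⟨C, c⟩ h
    rw [mem_sigma] at h
    simp only [mem_filter] at h
    obtain ⟨hC, hcA, hc⟩ := h
    have hcC : c ∉ C := fun h => hirr c hcA (hc c h)
    simp only
    rw [prod_insert hcC]
    ring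

/-- two sets through `v` which meet only in `v` -/
def gsbR (v : X) (C C' : Finset X) : Prop := C ∩ C' = {v}

theorem gs_bound (hF : FamH Y) (hN : NumH Y Q) (g : Good Y Lg s) (hΦ : Phi Y s ≤ 1 / 16) {v : X}
    (hv : v ∈ free Y s) : gs Y s v ≤ Y.M1 := by
  by_contra hcon
  push Not at hcon
  rw [mem_free] at hv
  set A : Finset (Finset X) := Y.F.filter
    (fun C => v ∈ C ∧ s.lb C v = none ∧ alive s C ∧ C ∉ s.J ∧ clean Y s C) with hA
  set c : ℝ := Y.c1 * Y.K ^ Y.bs with hc
  have hKpos := K_pos hN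
  have hc0 : 0 < c := mul_pos hN.c1pos (pow_pos hKpos _)
  have hM1 : 0 < Y.M1 := lt_of_lt_of_le one_pos hN.M11
  have hk2 : 2 ≤ Y.k := by
    have := hN.t11
    have := hN.tk
    omega
  have hmemA : ∀ C ∈ A, C ∈ Y.F ∧ v ∈ C ∧ s.lb C v = none ∧ alive s C ∧ C ∉ s.J ∧
      clean Y s C := by
    intro C hC
    rw [hA, mem_filter] at hC
    exact hC
  have hirr : ∀ C ∈ A, ¬ gsbR v C C := by
    intro C hC h
    unfold gsbR at h
    rw [inter_self] at h
    have h1 := hF.card C (hmemA C hC).1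
    rw [h, card_singleton] at h1
    omega
  have hμ : ∀ C ∈ A, ∀ D : Finset (Finset X), D ⊆ A → (∀ C' ∈ D, ¬ gsbR v C C') →
      ∑ C' ∈ D, b1 Y s C' ≤ Y.k * Y.L * c := by
    intro C hC D hD hDR
    have hsub : D ⊆
        (C.erase v).biUnion (fun p => Y.F.filter (fun C' => v ∈ C' ∧ p ∈ C')) := by
      intro C' hC'
      have hC'A := hD hC'
      have hne := hDR C' hC'
      have hm := hmemA C hC
      have hm' := hmemA C' hC'A
      have : ∃ p, p ∈ C ∩ C' ∧ p ≠ v := by
        by_contra h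
        push Not at h
        apply hne
        unfold gsbR
        exact eq_singleton_iff_unique_mem.2 ⟨mem_inter.2 ⟨hm.2.1, hm'.2.1⟩, h⟩
      obtain ⟨p, hp, hpv⟩ := this
      rw [mem_inter] at hp
      rw [mem_biUnion]
      exact ⟨p, mem_erase.2 ⟨hpv, hp.1⟩, mem_filter.2 ⟨hm'.1, hm'.2.1, hp.2⟩⟩
    have hcard : #D ≤ Y.k * Y.L := by
      calc #D ≤
            #((C.erase v).biUnion (fun p => Y.F.filter (fun C' => v ∈ C' ∧ p ∈ C'))) :=
            card_le_card hsub
        _ ≤ #(C.erase v) * Y.L := by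
            apply card_biUnion_le_card_mul
            intro p hp
            exact hF.codeg v p (ne_of_mem_erase hp).symm
        _ ≤ Y.k * Y.L := by
            apply Nat.mul_le_mul_right
            rw [← hF.card C (hmemA C hC).1]
            exact card_le_card (erase_subset _ _)
    calc ∑ C' ∈ D, b1 Y s C'
        ≤ ∑ C' ∈ D, c := sum_le_sum fun C' _ => b1_le hN C'
      _ = #D * c := by rw [sum_const, nsmul_eq_mul]
      _ ≤ ((Y.k * Y.L : ℕ) : ℝ) * c := by
          apply mul_le_mul_of_nonneg_right _ hc0.le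
          exact_mod_cast hcard
      _ = Y.k * Y.L * c := by push_cast; ring
  set e : ℕ → ℝ := fun n => ∑ 𝒞 ∈ gsbAdm A (gsbR v) n, ∏ C ∈ 𝒞, b1 Y s C with he
  have hen : ∀ n, 0 ≤ e n := by
    intro n
    apply sum_nonneg
    intro 𝒞 _
    exact prod_nonneg fun C _ => (b1_pos hN C).le
  have hstep : ∀ n, n < Q.nP → e n * (Y.M1 / 2) ≤ (n + 1) * e (n + 1) := by
    intro n hn
    have h1 := gsb_step A (b1 Y s) (fun C _ => (b1_pos hN C).le) (gsbR v)
      (fun C C' h => by unfold gsbR at h ⊢; rw [inter_comm]; exact h) hirr Y.M1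
      (Y.k * Y.L * c) hcon.le hμ n
    refine le_trans ?_ h1
    apply mul_le_mul_of_nonneg_left _ (hen n)
    have h2 : (n : ℝ) * (Y.k * Y.L * c) ≤ Q.nP * (Y.k * Y.L * c) := by
      apply mul_le_mul_of_nonneg_right _ (by positivity)
      exact_mod_cast hn.le
    have h3 := hN.ps2
    rw [← hc] at h3
    have h4 : (Q.nP : ℝ) * (Y.k * Y.L * c) ≤ Y.M1 / 2 := by
      rw [← mul_assoc] at h3
      linarith
    linarith
  have hpow : ∀ n, n ≤ Q.nP → (Y.M1 / 2) ^ n / n.factorial ≤ e n := by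
    intro n
    induction n with
    | zero =>
      intro _
      have : e 0 = 1 := by
        rw [he]
        simp only
        have h0 : gsbAdm A (gsbR v) 0 = {∅} := by
          ext C
          rw [mem_gsbAdm, mem_singleton, card_eq_zero]
          constructor
          · exact fun h => h.2.1
          · rintro rfl
            simp
        rw [h0]
        simp
      rw [this]; simp
    | succ n ih =>
      intro hn
      have h1 := ih (by omega)
      have h2 := hstep n (by omega)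
      have h3 : (0 : ℝ) < n + 1 := by positivity
      have h4 : (Y.M1 / 2) ^ (n + 1) / (n + 1).factorial =
          ((Y.M1 / 2) ^ n / n.factorial * (Y.M1 / 2)) / (n + 1) := by
        rw [Nat.factorial_succ, pow_succ]
        push_cast
        field_simp
      rw [h4, div_le_iff₀ h3]
      calc (Y.M1 / 2) ^ n / n.factorial * (Y.M1 / 2) ≤ e n * (Y.M1 / 2) := by gcongr
        _ ≤ (n + 1) * e (n + 1) := h2
        _ = e (n + 1) * (n + 1) := mul_comm _ _
  -- the stars
  have hstars : Y.ρP * e Q.nP ≤ ∑ T ∈ psI Y, psW Y s T := by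
    have h1 : Y.ρP * e Q.nP = ∑ T ∈ (gsbAdm A (gsbR v) Q.nP).image (fun 𝒞 => ((v, 𝒞) : PSt X)),
        psW Y s T := by
      rw [sum_image (by
        intro a _ b _ h
        exact (Prod.mk.inj h).2), he, Finset.mul_sum]
      apply sum_congr rfl
      intro 𝒞 h𝒞
      rw [mem_gsbAdm] at h𝒞
      unfold psW
      rw [if_pos]
      refine ⟨hv.2.1, hv.2.2, ?_⟩
      intro C hC
      have := hmemA C (h𝒞.1 hC)
      exact ⟨this.2.2.1, this.2.2.2.1, this.2.2.2.2.1, this.2.2.2.2.2⟩
    rw [h1]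
    apply sum_le_sum_of_subset_of_nonneg
    · intro T hT
      rw [mem_image] at hT
      obtain ⟨𝒞, h𝒞, rfl⟩ := hT
      rw [mem_gsbAdm] at h𝒞
      rw [mem_psI]
      refine ⟨hv.1, fun C hC => (hmemA C (h𝒞.1 hC)).1, ?_, ?_⟩
      · intro C hC
        exact (hmemA C (h𝒞.1 hC)).2.1
      · exact h𝒞.2.2
    · intro T _ _
      exact psW_nonneg hN T
  have hPhi : ∑ T ∈ psI Y, psW Y s T ≤ Phi Y s := by
    unfold Phi bigI
    rw [sum_disjSum, sum_disjSum, sum_disjSum]
    have h1 := Sm_nonneg (s := s) hN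
    have h2 : 0 ≤ ∑ T ∈ mpI Y, W Y s (Sum.inl T) := sum_nonneg fun T _ => W_nonneg hN g _
    have h3 : 0 ≤ ∑ T ∈ gcI Y, W Y s (Sum.inr (Sum.inr (Sum.inl T))) :=
      sum_nonneg fun T _ => W_nonneg hN g _
    have h4 : 0 ≤ ∑ T ∈ cpI Y, W Y s (Sum.inr (Sum.inr (Sum.inr T))) :=
      sum_nonneg fun T _ => W_nonneg hN g _
    have h5 : ∑ T ∈ psI Y, W Y s (Sum.inr (Sum.inl T)) = ∑ T ∈ psI Y, psW Y s T := rfl
    linarith
  have h1 := hpow Q.nP le_rfl
  have h2 := hN.ps
  have h3 : Y.ρP * ((Y.M1 / 2) ^ Q.nP / (Q.nP).factorial) ≤ Y.ρP * e Q.nP :=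
    mul_le_mul_of_nonneg_left h1 hN.ρPpos.le
  have h4 : Y.ρP * ((Y.M1 / 2) ^ Q.nP / (Q.nP).factorial) =
      Y.ρP * (Y.M1 / 2) ^ Q.nP / (Q.nP).factorial := by ring
  rw [h4] at h3
  linarith

end Pool.H33.MB2
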