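import Pool.Agent.H33.MB2.Defs

/-!
# Hypotheses: family, geometry of the replies, numbers; invariants of the state
-/

namespace Pool.H33.MB2

open Finset
open scoped Classical

variable {X Γ : Type*} [DecidableEq X]

/-- Hypotheses on the family of winning sets. -/
structure FamH (Y : Sys X Γ) : Prop where
  sub : ∀ A ∈ Y.F, A ⊆ Y.S
  card : ∀ A ∈ Y.F, #A = Y.k
  deg : ∀ p, #(Y.F.filter (fun A => p ∈ A)) ≤ Y.D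
  codeg : ∀ p q, p ≠ q → #(Y.F.filter (fun A => p ∈ A ∧ q ∈ A)) ≤ Y.L
  ownc : ∀ p, ∀ A ∈ Y.F, #(Y.F.filter (fun C => p ∈ C ∧ Y.gr C = Y.gr A)) ≤ Y.k
  kap : ∀ A ∈ Y.F, ∀ C ∈ Y.F, Y.gr A ≠ Y.gr C → #(A ∩ C) ≤ Y.kap
  hits : ∀ H ∈ Y.F, ∀ D ∈ Y.F,
    #(H.filter (fun v => ∃ C ∈ Y.F, gen Y H C ∧ v ∈ C ∧ close Y D C)) ≤ Y.cE

/-- Hypotheses on the replies: `Lg log M B` says that the log `log` is admissible when Maker owns `M`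
and Breaker owns `B`. -/
structure GeoH (Y : Sys X Γ) (Lg : List (Entry X) → Finset X → Finset X → Prop) : Prop where
  nil : Lg [] ∅ ∅
  mono : ∀ lg M B M' B', Lg lg M B → M ⊆ M' → B ⊆ B' → Lg lg M' B'
  rep : ∀ lg M B M' y T, Lg lg M B → M ⊆ M' → M' ⊆ Y.S → Disjoint M' B → y ∈ M' → y ∉ M →
    T ∈ Y.F → y ∈ T → Disjoint T B → (T \ M').Nonempty →
    ∃ x ∈ Y.S \ (M' ∪ B), Lg (⟨y, T, x⟩ :: lg) M' (insert x B)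
  os_le : ∀ lg M B, Lg lg M B → ∀ A ∈ Y.F, Disjoint A B →
    lg.countP (fun e => decide (e.y ∈ A ∧ Y.gr e.T = Y.gr A)) ≤ Y.bs
  ars_le : ∀ lg M B, Lg lg M B → ∀ A ∈ Y.F, ∀ 𝒟 : Finset (Finset X), 𝒟 ⊆ Y.F →
    (∀ e ∈ lg, e.y ∈ A → arith Y e.T A → ∃ D ∈ 𝒟, close Y D e.T) →
    lg.countP (fun e => decide (e.y ∈ A ∧ arith Y e.T A)) ≤ #𝒟 * Y.cA

/-- Extra numbers. -/
structure Num2 where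
  n1 : ℕ
  n2 : ℕ
  nP : ℕ
  τ : ℝ

/-- The bound for the number of hits with a closed cycle. -/
def Cg (Y : Sys X Γ) : ℕ := Y.tm + Y.cE * smax Y + 1

/-- The degree bound of the conflict graph. -/
def Dl (Y : Sys X Γ) : ℕ := (Cg Y + 1) ^ 2

/-- The size of the certificates of the bad sets. -/
def Mc (Y : Sys X Γ) : ℕ := Cg Y + 1 + (Dl Y + 1) * Y.m + 2 * Dl Y * (Y.m + 1)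

/-- Bound for the number of clean bad hits. -/
def nb1 (Y : Sys X Γ) (Q : Num2) : ℕ := 2 * (Cg Y + 1) * Q.n2

/-- Bound for the number of bad hits. -/
def nb (Y : Sys X Γ) (Q : Num2) : ℕ := nb1 Y Q + Cg Y

/-- Size bound of a union of stars. -/
def stn (Y : Sys X Γ) : ℕ := (smax Y + 1) * (Y.k + Y.k ^ 3 * Y.L)

/-- Start factor of a free set. -/
noncomputable def ffr (Y : Sys X Γ) : ℝ :=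
  stn Y * Y.D * Y.K ^ (Y.bs + Y.am) * rw Y * (rw Y)⁻¹ ^ (Y.k - Y.jb)

/-- Start factor of a tight set. -/
noncomputable def fti (Y : Sys X Γ) : ℝ :=
  (stn Y) ^ 2 * Y.L * Y.gt * Y.K ^ (Y.bs + Y.am) * rw Y ^ (Y.kap + smax Y * Y.t1) *
    (rw Y)⁻¹ ^ (Y.k - Y.jb)

/-- Hypotheses on the numbers. -/
structure NumH (Y : Sys X Γ) (Q : Num2) : Prop where
  δpos : 0 < Y.δ
  δle : Y.δ ≤ 1 / 100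
  Kδ : Y.K * Y.δ = 8
  a1one : ∀ u, u ≤ Y.jb → Y.a1 u = 1
  a1pos : ∀ u, 0 < Y.a1 u
  a1anti : ∀ u, Y.a1 (u + 1) ≤ Y.a1 u
  a1rc : ∀ u, Y.a1 u ≤ rc Y * Y.a1 (u + 1)
  a1rw : ∀ u, u < Y.jb + Y.L1 → Y.a1 u ≤ rw Y * Y.a1 (u + 1)
  a2one : ∀ u, u ≤ Y.jb → Y.a2 u = 1
  a2pos : ∀ u, 0 < Y.a2 u
  a2anti : ∀ u, Y.a2 (u + 1) ≤ Y.a2 u
  a2rc : ∀ u, Y.a2 u ≤ rc Y * Y.a2 (u + 1)
  a2rw : ∀ u, u < Y.jb + Y.L2 → Y.a2 u ≤ rw Y * Y.a2 (u + 1)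
  c1pos : 0 < Y.c1
  ρ2pos : 0 < Y.ρ2
  ρpos : 0 < Y.ρ
  ρPpos : 0 < Y.ρP
  ρCpos : 0 < Y.ρC
  ρGpos : 0 < Y.ρG
  gt1 : 1 ≤ Y.gt
  M1c : Y.c1 * Y.K ^ Y.bs ≤ Y.M1
  M11 : 1 ≤ Y.M1
  G1 : 1 ≤ Y.G
  hG : Y.G ≤ Y.c1 * Y.a1 (Y.jb + Y.h6)
  βpos : 0 < Y.β
  hβ : Y.β ≤ Y.ρ2 * Y.a2 (Y.jb + Y.H1)
  k1 : 1 ≤ Y.k
  L1' : 1 ≤ Y.L
  t11 : 1 ≤ Y.t1
  tm1 : 1 ≤ Y.tm
  tk : Y.t1 < Y.k
  jk : Y.jb + Y.h6 < Y.k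
  h6H : Y.h6 ≤ Y.H1
  hMc : Mc Y + nb Y Q + Cg Y + 1 ≤ Y.h6
  hH1 : (Cg Y + 1) * Q.n1 + nb Y Q + Cg Y ≤ Y.H1
  hjm : Y.jm + 1 + nb Y Q ≤ Y.jb
  jm1 : 1 ≤ Y.jm
  jb3 : 3 ≤ Y.jb
  ham : Y.tm * Y.cA ≤ Y.am
  x1 : 1 / 16 < Y.ρ * Y.G ^ Q.n1
  x2 : 1 / 16 < Y.ρ * (Y.β * Y.G ^ Y.m) ^ Q.n2
  xG : 1 ≤ Y.β * Y.G ^ Y.m
  ps : 1 / 16 < Y.ρP * (Y.M1 / 2) ^ Q.nP / (Q.nP).factorial
  ps2 : (Q.nP : ℝ) * (Y.k * Y.L * (Y.c1 * Y.K ^ Y.bs)) ≤ Y.M1 / 2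
  gc : 1 / 16 < Y.ρG * Y.gt ^ Y.tm * (rw Y)⁻¹ ^ (Y.H1 * smax Y)
  cp : Y.K ^ (Y.bs + Y.am) / (2 - Y.δ) ^ Y.jm ≤ Y.ρC * (rw Y)⁻¹ ^ (2 * Y.H1)
  sm : (2 * Y.k ^ 3 * Y.L * #Y.S : ℝ) * (Y.K ^ Y.bs / (2 - Y.δ) ^ Y.jm) ≤ 1 / 64
  τpos : 0 < Q.τ
  τδ : 200 * Q.τ ≤ Y.δ
  t1τ : (Y.k : ℝ) ^ 4 * Y.L * (Y.c1 * Y.K ^ Y.bs * Y.a1 (Y.jb + Y.L1 + 1)) ≤ Q.τ
  t2τ : (Y.k : ℝ) ^ 4 * Y.L * (Y.ρ2 * Y.K ^ Y.bs * Y.a2 (Y.jb + Y.L2 + 1) *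
    ((1 + Y.k * Y.M1) ^ Y.m * (1 + Y.M1))) ≤ Q.τ
  st1 : (#Y.F : ℝ) * (Y.ρ * Real.exp (Y.k * (Y.D * (Y.c1 * Y.K ^ Y.bs * Y.a1 Y.k +
    Y.ρ2 * Y.K ^ Y.bs * Y.a2 Y.k *
      Real.exp (Y.k * (Y.D * (Y.c1 * Y.K ^ Y.bs * Y.a1 Y.k))))))) ≤ 1 / 1024
  st2 : (#Y.S : ℝ) * (Y.ρP * Real.exp (Y.D * (Y.c1 * Y.K ^ Y.bs * Y.a1 Y.k))) ≤ 1 / 1024
  st3 : fti Y ≤ 1
  st3' : ffr Y * fti Y ≤ 1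
  st3'' : (#Y.F : ℝ) * (Y.ρG * (2 ^ (smax Y + 1) * (1 + ffr Y) ^ 3)) ≤ 1 / 1024
  st4 : (#Y.F : ℝ) * (Y.k ^ 2 * Y.L * (Y.ρC * (Y.K ^ (2 * (Y.bs + Y.am)) *
    (rw Y)⁻¹ ^ (2 * Y.k - Y.kap - 2 * Y.jb)))) ≤ 1 / 1024

/-- Structural invariants of the state. -/
structure Good (Y : Sys X Γ) (Lg : List (Entry X) → Finset X → Finset X → Prop) (s : State X) :
    Prop where
  MS : s.M ⊆ Y.S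
  BS : s.B ⊆ Y.S
  MB : Disjoint s.M s.B
  nodup : s.J.Nodup
  JF : ∀ A ∈ s.J, A ∈ Y.F
  Jr : ∀ A ∈ s.J, A ∈ s.ripe
  rF : s.ripe ⊆ Y.F
  lb : ∀ C v A, s.lb C v = some A → A ∈ s.J ∧ v ∈ s.box A ∧ v ∈ C ∧ gen Y A C
  bx : ∀ A ∈ s.J, s.box A ⊆ A ∧ (∀ v ∈ s.box A, s.lb A v = none) ∧
    ∀ v ∈ A, v ∉ s.M → s.lb A v = none → v ∈ s.box A
  bne : ∀ A ∈ s.J, (s.box A).Nonempty
  hit : ∀ A ∈ s.J, ∀ C, C ∉ s.J → ∀ v ∈ C, v ∈ s.box A → gen Y A C → s.lb C v ≠ none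
  rel : ∀ A ∈ s.J, ∀ A' ∈ s.J, ∀ v, v ∈ s.box A → v ∈ s.box A' →
    A = A' ∨ Y.gr A = Y.gr A' ∨ arith Y A A'
  lv : ∀ A ∈ s.J, lev s A ≤ Y.jb + Y.H1
  old : s.J.Pairwise (fun A D => ¬ s.newc A → alive s D → ¬ arith Y D A)
  good : ∀ A ∈ s.J, s.cln A → ¬ s.bad A → Y.G ≤ s.s1 A
  cert : ∀ A ∈ s.J, s.cln A → s.bad A → Y.β ≤ s.s2 A ∧
    ∃ c : Finset (X × Finset X), Mc Y ≤ #c ∧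
      (∀ l ∈ c, l.1 ∈ A ∧ gen Y A l.2 ∧ l.1 ∈ l.2 ∧ l.2 ∈ s.ripe ∧ Y.G ≤ s.ss A l) ∧
      ∀ l ∈ c, ∀ l' ∈ c, l.1 = l'.1 → l = l'
  dirty : ∀ A ∈ s.J, ¬ s.cln A → ∃ D ∈ s.J, arith Y D A
  s1n : ∀ A, 0 ≤ s.s1 A
  s1b : ∀ A, s.s1 A ≤ Y.c1 * Y.K ^ Y.bs
  s2n : ∀ A, 0 ≤ s.s2 A
  ssn : ∀ A l, 0 ≤ s.ss A l
  log : Lg s.log s.M s.B
  logJ : ∀ e ∈ s.log, e.T ∈ s.J

/-- The almost joined sets are ripe. -/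
def NR (Y : Sys X Γ) (s : State X) : Prop := ∀ A, near Y s A → A ∈ s.ripe

/-- `s` is reached from the stable state `s0` by Maker's claims `y`, `z`, a reply and some joins. -/
structure Mid (Y : Sys X Γ) (s0 s : State X) (y z : X) : Prop where
  M : s.M = insert y (insert z s0.M)
  B : s0.B ⊆ s.B
  lbm : ∀ A v, s0.lb A v ≠ none → s.lb A v = s0.lb A v
  J : ∀ A ∈ s0.J, A ∈ s.J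
  nearJ : ∀ C ∈ s.J, C ∉ s0.J → ¬ s.bad C → near Y s0 C
  lbn : ∀ A v C, s.lb A v = some C → s0.lb A v = none →
    C ∈ s.J ∧ C ∉ s0.J ∧ s0.lb C v = none ∧ v ∉ s.M ∧ gen Y A C ∧ v ∈ C

end Pool.H33.MB2
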