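import Pool.Agent.H33.MB2.JoGc

/-!
# MB2 JOCP: joins, arithmetic pairs and the joined sets

`s' = join Y s A`, `A ∉ s.J`.
* `cpW Y s' p ≤ cpW Y s p` (`UW_join`; the condition gets harder); activity `act Y s' → act Y s`.
* `Sm Y s' = Sm Y s + smW Y s' A`: for `D ∈ s.J` (`D ≠ A`): `smW Y s' D = smW Y s D` (box, newc, strikes, `M`, `B` same);
  `(A :: s.J).toFinset = insert A s.J.toFinset`.
* If no alive `D ∈ s.J` is arithmetic to `A` (so `¬ s'.newc A`): `smW Y s' A ≤ K^bs / (2 - δ)^jm = wJ` as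
  `#(nbox s A) ≥ jm` and `nbox s A` has no point of `M`.
* If `D ∈ s.J` is alive and `arith Y D A`: the pair `(D, A)` has `cpW Y s' = 0` (both joined) and
  `cpW Y s (D, A) = ρC * UW Y s {D, A} ≥ ρC * rw⁻¹ ^ (2 H1) ≥ K^(bs+am) / (2-δ)^jm ≥ smW Y s' A` (`hN.cp`): apply `UW_remove` twice
  (`UW ∅ = 1`), or directly: `ulev s {D, A} ≤ lev s D + lev s A ≤ 2 jb + 2 H1` and all `kb ≥ 1`.
  `(D, A) ∈ cpI`.
-/

set_option linter.unusedSectionVars false

namespace Pool.H33.MB2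

open Finset
open scoped Classical

variable {X Γ : Type*} [DecidableEq X] {Y : Sys X Γ} {Q : Num2}
  {Lg : List (Entry X) → Finset X → Finset X → Prop} {s : State X}

theorem jo_cp (hN : NumH Y Q) (A : Finset X) (p : Finset X × Finset X) :
    cpW Y (join Y s A) p ≤ cpW Y s p := by
  by_cases hc : alive (join Y s A) p.1 ∧ alive (join Y s A) p.2 ∧
      ¬ (p.1 ∈ (join Y s A).J ∧ p.2 ∈ (join Y s A).J)
  · have hc' : alive s p.1 ∧ alive s p.2 ∧ ¬ (p.1 ∈ s.J ∧ p.2 ∈ s.J) := by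
      refine ⟨hc.1, hc.2.1, fun h => hc.2.2 ?_⟩
      exact ⟨List.mem_cons_of_mem A h.1, List.mem_cons_of_mem A h.2⟩
    unfold cpW
    rw [if_pos hc, if_pos hc', UW_join]
  · have h0 : cpW Y (join Y s A) p = 0 := by
      unfold cpW
      rw [if_neg hc]
    rw [h0]
    exact cpW_nonneg hN p

theorem joa_cp {A : Finset X} {p : X} {T : Finset X × Finset X}
    (h : act Y (join Y s A) p (.inr (.inr (.inr T)))) : act Y s p (.inr (.inr (.inr T))) := by
  obtain ⟨⟨C, hC, h2, h3⟩, -⟩ := h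
  refine ⟨⟨C, hC, h2, ?_⟩, trivial⟩
  have h5 : (if s.lb C p = none ∧ C ≠ A ∧ C ∉ s.J ∧ p ∈ C ∧ p ∈ nbox s A ∧ gen Y A C
    then some A else s.lb C p) = none := h3
  split_ifs at h5
  exact h5

private theorem jc_sm (A : Finset X) (hAJ : A ∉ s.J) :
    Sm Y (join Y s A) = Sm Y s + smW Y (join Y s A) A := by
  unfold Sm
  have h1 : (join Y s A).J.toFinset = insert A s.J.toFinset := by
    show (A :: s.J).toFinset = _
    rw [List.toFinset_cons]
  have h2 : A ∉ s.J.toFinset := by rw [List.mem_toFinset]; exact hAJ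
  rw [h1, sum_insert h2, add_comm]
  congr 1
  refine sum_congr rfl (fun D hD => ?_)
  have hDA : D ≠ A := fun h => h2 (h ▸ hD)
  unfold smW
  have e1 : (join Y s A).box D = s.box D := by
    show (if D = A then nbox s A else s.box D) = _
    rw [if_neg hDA]
  have e2 : ((join Y s A).newc D) = (s.newc D) := by
    show (if D = A then _ else s.newc D) = _
    rw [if_neg hDA]
  have e3 : (join Y s A).M = s.M := rfl
  have e4 : alive (join Y s A) D ↔ alive s D := Iff.rfl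
  have e5 : os Y (join Y s A) D = os Y s D := rfl
  have e6 : ars Y (join Y s A) D = ars Y s D := rfl
  rw [e1, e3, e5, e6]
  simp only [e2, e4]

private theorem jc_new (A : Finset X) (hal : alive s A) :
    smW Y (join Y s A) A = kb Y Y.bs (os Y s A) *
      (if ∃ D ∈ s.J, alive s D ∧ arith Y D A then kb Y Y.am (ars Y s A) else 1) /
      (2 - Y.δ) ^ #(nbox s A) := by
  unfold smW
  have e1 : (join Y s A).box A = nbox s A := by
    show (if A = A then nbox s A else s.box A) = _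
    rw [if_pos rfl]
  have e2 : ((join Y s A).newc A) = (∃ D ∈ s.J, alive s D ∧ arith Y D A) := by
    show (if A = A then _ else s.newc A) = _
    rw [if_pos rfl]
  have e3 : (join Y s A).M = s.M := rfl
  have e4 : alive (join Y s A) A := hal
  have e5 : os Y (join Y s A) A = os Y s A := rfl
  have e6 : ars Y (join Y s A) A = ars Y s A := rfl
  have e7 : nbox s A \ s.M = nbox s A := by
    refine sdiff_eq_self_of_disjoint ?_
    rw [disjoint_left]
    intro v hv
    exact (mem_filter.1 hv).2.1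
  rw [if_pos e4, e1, e3, e5, e6, e7]
  simp only [e2]

private theorem jc_bound (hN : NumH Y Q) {n : ℕ} (hn : Y.jm ≤ n) {a b : ℝ} (ha : 0 ≤ a)
    (hab : a ≤ b) : a / (2 - Y.δ) ^ n ≤ b / (2 - Y.δ) ^ Y.jm := by
  have h1 := hN.δle
  have h2 : (1 : ℝ) ≤ 2 - Y.δ := by linarith
  have h3 : (2 - Y.δ) ^ Y.jm ≤ (2 - Y.δ) ^ n := pow_le_pow_right₀ h2 hn
  have h4 : 0 < (2 - Y.δ) ^ Y.jm := by positivity
  exact div_le_div₀ (ha.trans hab) hab h4 h3

/-- The joined sets and the arithmetic pairs together gain at most `wJ`. -/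
theorem jo_smcp (hN : NumH Y Q) (g : Good Y Lg s) {A : Finset X} (hA : A ∈ Y.F) (hal : alive s A)
    (hAJ : A ∉ s.J) (hb : Y.jm ≤ #(nbox s A))
    (h1 : ∀ C ∈ Y.F, alive s C → os Y s C ≤ Y.bs) (h2 : ∀ C ∈ Y.F, ars Y s C ≤ Y.am)
    (h3 : lev s A ≤ Y.jb + Y.H1) :
    Sm Y (join Y s A) + ∑ p ∈ cpI Y, cpW Y (join Y s A) p ≤
      Sm Y s + ∑ p ∈ cpI Y, cpW Y s p + wJ Y := by
  have hK := K_pos hN
  have hδ := hN.δle
  rw [jc_sm A hAJ, jc_new A hal]
  by_cases hex : ∃ D ∈ s.J, alive s D ∧ arith Y D A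
  · rw [if_pos hex]
    obtain ⟨D, hD, hDa, hDA⟩ := hex
    have hne : D ≠ A := fun h => hAJ (h ▸ hD)
    have hmem : (D, A) ∈ cpI Y := mem_cpI.2 ⟨g.JF D hD, hA, hDA⟩
    have hsum : ∑ p ∈ cpI Y, cpW Y (join Y s A) p + cpW Y s (D, A) ≤ ∑ p ∈ cpI Y, cpW Y s p := by
      rw [← add_sum_erase _ _ hmem, ← add_sum_erase _ _ hmem]
      have h0 : cpW Y (join Y s A) (D, A) = 0 := by
        unfold cpW
        rw [if_neg]
        rintro ⟨-, -, h⟩
        exact h ⟨List.mem_cons_of_mem A hD, List.mem_cons_self⟩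
      rw [h0]
      have h4 : ∑ p ∈ (cpI Y).erase (D, A), cpW Y (join Y s A) p
          ≤ ∑ p ∈ (cpI Y).erase (D, A), cpW Y s p := sum_le_sum (fun p _ => jo_cp hN A p)
      linarith
    have hcp : cpW Y s (D, A) = Y.ρC * UW Y s {D, A} := by
      unfold cpW
      rw [if_pos]
      exact ⟨hDa, hal, fun h => hAJ h.2⟩
    have hr := rw_ge hN
    have hr0 : 0 ≤ (rw Y)⁻¹ := inv_nonneg.2 (by linarith)
    have hUW : (rw Y)⁻¹ ^ (2 * Y.H1) ≤ UW Y s {D, A} := by
      have u1 := UW_remove (s := s) hN (mem_insert_self D {A}) (h1 D (g.JF D hD) hDa)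
        (h2 D (g.JF D hD)) (g.lv D hD)
      have e1 : (insert D {A} : Finset (Finset X)).erase D = {A} := by
        rw [erase_insert]
        rw [mem_singleton]
        exact hne
      rw [e1] at u1
      have u2 := UW_remove (s := s) hN (mem_singleton_self A) (h1 A hA hal) (h2 A hA) h3
      have e2 : ({A} : Finset (Finset X)).erase A = ∅ := by
        rw [erase_singleton]
      have e3 : UW Y s (∅ : Finset (Finset X)) = 1 := by
        unfold UW ulev
        simp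
      rw [e2, e3, mul_one] at u2
      calc (rw Y)⁻¹ ^ (2 * Y.H1) = (rw Y)⁻¹ ^ Y.H1 * (rw Y)⁻¹ ^ Y.H1 := by
            rw [two_mul, pow_add]
        _ ≤ (rw Y)⁻¹ ^ Y.H1 * UW Y s {A} := mul_le_mul_of_nonneg_left u2 (pow_nonneg hr0 _)
        _ ≤ _ := u1
    have hnew : kb Y Y.bs (os Y s A) * kb Y Y.am (ars Y s A) / (2 - Y.δ) ^ #(nbox s A)
        ≤ cpW Y s (D, A) := by
      rw [hcp]
      refine le_trans ?_ (hN.cp.trans (mul_le_mul_of_nonneg_left hUW hN.ρCpos.le))
      refine jc_bound hN hb (mul_nonneg (kb_pos hN _ _).le (kb_pos hN _ _).le) ?_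
      rw [pow_add]
      exact mul_le_mul (kb_le hN _ _) (kb_le hN _ _) (kb_pos hN _ _).le (by positivity)
    have hw : 0 ≤ wJ Y := by
      unfold wJ
      have : (0 : ℝ) < 2 - Y.δ := by linarith
      positivity
    linarith
  · rw [if_neg hex, mul_one]
    have hnew : kb Y Y.bs (os Y s A) / (2 - Y.δ) ^ #(nbox s A) ≤ wJ Y :=
      jc_bound hN hb (kb_pos hN _ _).le (kb_le hN _ _)
    have hsum : ∑ p ∈ cpI Y, cpW Y (join Y s A) p ≤ ∑ p ∈ cpI Y, cpW Y s p :=
      sum_le_sum (fun p _ => jo_cp hN A p)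
    linarith

end Pool.H33.MB2
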