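import Pool.Agent.H33.MB2.JoMp

/-!
# MB2 JOGC: ripening and joins: macro tuples

Key lemma `UW_remove`: let `A ∈ 𝒳` with `os s A ≤ bs`, `ars s A ≤ am`, `lev s A ≤ jb + H1`.  Then
`rw⁻¹ ^ H1 * UW (𝒳.erase A) ≤ UW 𝒳`.
Proof: the factor of `A` is at least 1 (`one_le_kb`).  `ulev s 𝒳 ≤ ulev s (𝒳.erase A) + lev s A`: a point `v` of the union
of `𝒳` which is not progress for `𝒳`: if `v` lies in some `C ∈ 𝒳.erase A` it is not progress for `𝒳.erase A`; otherwise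
`v ∈ A` and (`v ∉ M` or `lb A v ≠ none`).  So
`ulev 𝒳 - n jb ≤ (ulev (𝒳.erase A) - (n-1) jb) + H1` (truncated subtractions, `n = #𝒳 ≥ 1`), and `rw⁻¹ ≤ 1`.
Iterating: for a finite set `ℛ ⊆ 𝒳` of such sets `rw⁻¹ ^ (H1 * #ℛ) * UW (𝒳 \ ℛ) ≤ UW 𝒳`.
* Ripening (`ripen`): the new ripe sets `C` of `T.2` are near, so alive, `lev s C ≤ jb + h6 ≤ jb + H1`; the strikes are bounded
  by the hypotheses.  `T.2.toFinset \ ripe' = (T.2.toFinset \ ripe) \ ℛ`.  (If `gcW Y s' T ≠ 0` then all `C ∈ T.2` are ripe in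
  `s'` or alive; near sets are alive in `s`, so `gcW Y s T` is not 0.)
* Join: `ripe' = insert A ripe`; `UW Y s' 𝒳 = UW Y s 𝒳` (`ulev` unchanged: `lb` changes only at points not claimed by Maker; strikes
  same).  If `A ∈ T.2`, `A ∉ ripe`: `UW_remove` with `A`.  Otherwise the same value.  `A` is alive.
* activity: the non-ripe sets get fewer, `actN s' C p → actN s C p`.
-/

set_option linter.unusedSectionVars false

namespace Pool.H33.MB2

open Finset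
open scoped Classical

variable {X Γ : Type*} [DecidableEq X] {Y : Sys X Γ} {Q : Num2}
  {Lg : List (Entry X) → Finset X → Finset X → Prop} {s : State X}

private theorem jg_ulev {𝒳 : Finset (Finset X)} {A : Finset X} :
    ulev s 𝒳 ≤ ulev s (𝒳.erase A) + lev s A := by
  unfold ulev lev
  refine le_trans (card_le_card ?_) (card_union_le _ _)
  intro v hv
  obtain ⟨hv1, hv2⟩ := mem_filter.1 hv
  obtain ⟨C, hC, hvC⟩ := mem_biUnion.1 hv1
  have hvC' : v ∈ C := hvC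
  by_cases hCA : C = A
  · subst hCA
    refine mem_union_right _ (mem_filter.2 ⟨hvC', ?_⟩)
    by_contra hcon
    push Not at hcon
    exact hv2 ⟨hcon.1, C, hC, hvC', hcon.2⟩
  · refine mem_union_left _ (mem_filter.2 ⟨mem_biUnion.2 ⟨C, mem_erase.2 ⟨hCA, hC⟩, hvC⟩, ?_⟩)
    rintro ⟨h1, D, hD, h2, h3⟩
    exact hv2 ⟨h1, D, mem_of_mem_erase hD, h2, h3⟩

private theorem jg_rwi (hN : NumH Y Q) : 0 < (rw Y)⁻¹ ∧ (rw Y)⁻¹ ≤ 1 := by
  have h := rw_ge hN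
  refine ⟨inv_pos.2 (by linarith), inv_le_one_of_one_le₀ (by linarith)⟩

theorem UW_remove (hN : NumH Y Q) {𝒳 : Finset (Finset X)} {A : Finset X} (hA : A ∈ 𝒳)
    (h1 : os Y s A ≤ Y.bs) (h2 : ars Y s A ≤ Y.am) (h3 : lev s A ≤ Y.jb + Y.H1) :
    (rw Y)⁻¹ ^ Y.H1 * UW Y s (𝒳.erase A) ≤ UW Y s 𝒳 := by
  obtain ⟨hr0, hr1⟩ := jg_rwi hN
  have hu := jg_ulev (s := s) (𝒳 := 𝒳) (A := A)
  have hc : #(𝒳.erase A) + 1 = #𝒳 := card_erase_add_one hA
  have he : ulev s 𝒳 - #𝒳 * Y.jb ≤ (ulev s (𝒳.erase A) - #(𝒳.erase A) * Y.jb) + Y.H1 := by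
    rw [← hc, add_mul, one_mul]
    generalize #(𝒳.erase A) * Y.jb = w
    omega
  have hf : 1 ≤ kb Y Y.bs (os Y s A) * kb Y Y.am (ars Y s A) :=
    one_le_mul_of_one_le_of_one_le (one_le_kb hN h1) (one_le_kb hN h2)
  have hP : 0 ≤ ∏ C ∈ 𝒳.erase A, kb Y Y.bs (os Y s C) * kb Y Y.am (ars Y s C) :=
    prod_nonneg (fun C _ => mul_nonneg (kb_pos hN _ _).le (kb_pos hN _ _).le)
  unfold UW
  rw [← mul_prod_erase 𝒳 _ hA]
  generalize (∏ C ∈ 𝒳.erase A, kb Y Y.bs (os Y s C) * kb Y Y.am (ars Y s C)) = P at hP ⊢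
  generalize kb Y Y.bs (os Y s A) * kb Y Y.am (ars Y s A) = f at hf ⊢
  have hpow : (rw Y)⁻¹ ^ ((ulev s (𝒳.erase A) - #(𝒳.erase A) * Y.jb) + Y.H1)
      ≤ (rw Y)⁻¹ ^ (ulev s 𝒳 - #𝒳 * Y.jb) := pow_le_pow_of_le_one hr0.le hr1 he
  have hp0 : 0 ≤ (rw Y)⁻¹ ^ (ulev s 𝒳 - #𝒳 * Y.jb) := pow_nonneg hr0.le _
  calc (rw Y)⁻¹ ^ Y.H1 * (P * (rw Y)⁻¹ ^ (ulev s (𝒳.erase A) - #(𝒳.erase A) * Y.jb))
      = P * (rw Y)⁻¹ ^ ((ulev s (𝒳.erase A) - #(𝒳.erase A) * Y.jb) + Y.H1) := by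
        rw [pow_add]
        ring
    _ ≤ P * (rw Y)⁻¹ ^ (ulev s 𝒳 - #𝒳 * Y.jb) := mul_le_mul_of_nonneg_left hpow hP
    _ ≤ f * (P * (rw Y)⁻¹ ^ (ulev s 𝒳 - #𝒳 * Y.jb)) := by
        have := mul_nonneg hP hp0
        nlinarith
    _ = f * P * (rw Y)⁻¹ ^ (ulev s 𝒳 - #𝒳 * Y.jb) := by ring

private theorem jg_iter (hN : NumH Y Q) {𝒳 : Finset (Finset X)} (ℛ : Finset (Finset X)) :
    ℛ ⊆ 𝒳 → (∀ A ∈ ℛ, os Y s A ≤ Y.bs ∧ ars Y s A ≤ Y.am ∧ lev s A ≤ Y.jb + Y.H1) →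
    (rw Y)⁻¹ ^ (Y.H1 * #ℛ) * UW Y s (𝒳 \ ℛ) ≤ UW Y s 𝒳 := by
  obtain ⟨hr0, hr1⟩ := jg_rwi hN
  induction ℛ using Finset.induction_on with
  | empty =>
    intro _ _
    simp
  | insert A ℛ hA ih =>
    intro hsub h
    have h1 := ih ((subset_insert A ℛ).trans hsub) (fun C hC => h C (mem_insert_of_mem hC))
    obtain ⟨a1, a2, a3⟩ := h A (mem_insert_self A ℛ)
    have hmem : A ∈ 𝒳 \ ℛ := mem_sdiff.2 ⟨hsub (mem_insert_self A ℛ), hA⟩
    have h2 := UW_remove hN hmem a1 a2 a3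
    have he : 𝒳 \ insert A ℛ = (𝒳 \ ℛ).erase A := by
      ext C
      simp only [mem_sdiff, mem_insert, mem_erase]
      tauto
    rw [he, card_insert_of_notMem hA, mul_add, mul_one, pow_add, mul_assoc]
    exact (mul_le_mul_of_nonneg_left h2 (pow_nonneg hr0.le _)).trans h1

private theorem jg_aux (hN : NumH Y Q) (U R R' : Finset (Finset X)) (hsub : R ⊆ R')
    (h : ∀ A ∈ U, A ∈ R' → A ∉ R →
      os Y s A ≤ Y.bs ∧ ars Y s A ≤ Y.am ∧ lev s A ≤ Y.jb + Y.H1) :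
    (rw Y)⁻¹ ^ (Y.H1 * #(U ∩ R')) * UW Y s (U \ R')
      ≤ (rw Y)⁻¹ ^ (Y.H1 * #(U ∩ R)) * UW Y s (U \ R) := by
  obtain ⟨hr0, hr1⟩ := jg_rwi hN
  have h1 := jg_iter (s := s) hN (𝒳 := U \ R) ((U ∩ R') \ R) (by
    intro A hA
    obtain ⟨a1, a2⟩ := mem_sdiff.1 hA
    exact mem_sdiff.2 ⟨(mem_inter.1 a1).1, a2⟩) (by
    intro A hA
    obtain ⟨a1, a2⟩ := mem_sdiff.1 hA
    exact h A (mem_inter.1 a1).1 (mem_inter.1 a1).2 a2)
  have e1 : (U \ R) \ ((U ∩ R') \ R) = U \ R' := by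
    ext A
    simp only [mem_sdiff, mem_inter]
    have := @hsub A
    tauto
  have e2 : #(U ∩ R') = #(U ∩ R) + #((U ∩ R') \ R) := by
    rw [← card_union_of_disjoint]
    · congr 1
      ext A
      simp only [mem_sdiff, mem_inter, mem_union]
      have := @hsub A
      tauto
    · rw [disjoint_left]
      intro A hA hA'
      exact (mem_sdiff.1 hA').2 (mem_inter.1 hA).2
  rw [e1] at h1
  rw [e2, mul_add, pow_add, mul_assoc]
  exact mul_le_mul_of_nonneg_left h1 (pow_nonneg hr0.le _)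

private theorem jg_lb {A C : Finset X} {v : X} (hv : v ∈ s.M) :
    (join Y s A).lb C v = s.lb C v := by
  show (if s.lb C v = none ∧ C ≠ A ∧ C ∉ s.J ∧ v ∈ C ∧ v ∈ nbox s A ∧ gen Y A C
    then some A else s.lb C v) = s.lb C v
  rw [if_neg]
  rintro ⟨-, -, -, -, h, -⟩
  exact (mem_filter.1 h).2.1 hv

theorem UW_join (A : Finset X) (𝒳 : Finset (Finset X)) : UW Y (join Y s A) 𝒳 = UW Y s 𝒳 := by
  have h : ∀ v, prog (join Y s A) 𝒳 v ↔ prog s 𝒳 v := by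
    intro v
    constructor
    · rintro ⟨h1, C, hC, h2, h3⟩
      have h1' : v ∈ s.M := h1
      rw [jg_lb h1'] at h3
      exact ⟨h1', C, hC, h2, h3⟩
    · rintro ⟨h1, C, hC, h2, h3⟩
      refine ⟨h1, C, hC, h2, ?_⟩
      rw [jg_lb h1]
      exact h3
  have hu : ulev (join Y s A) 𝒳 = ulev s 𝒳 := by
    unfold ulev
    congr 1
    ext v
    simp only [mem_filter, h]
  unfold UW
  rw [hu]
  rfl

theorem rip_gc (hN : NumH Y Q) (h1 : ∀ A ∈ Y.F, alive s A → os Y s A ≤ Y.bs)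
    (h2 : ∀ A ∈ Y.F, ars Y s A ≤ Y.am) (T : GCt X) : gcW Y (ripen Y s) T ≤ gcW Y s T := by
  by_cases hc : ∀ A ∈ T.2, A ∈ (ripen Y s).ripe ∨ alive (ripen Y s) A
  · have hc' : ∀ A ∈ T.2, A ∈ s.ripe ∨ alive s A := by
      intro A hA
      rcases hc A hA with h | h
      · rcases mem_union.1 h with h' | h'
        · exact Or.inl h'
        · exact Or.inr (mem_filter.1 h').2.2.1
      · exact Or.inr h
    unfold gcW
    rw [if_pos hc, if_pos hc', mul_assoc, mul_assoc (Y.ρG * Y.gt ^ ntight Y T.1 T.2)]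
    have hgt := hN.gt1
    refine mul_le_mul_of_nonneg_left ?_ (mul_nonneg hN.ρGpos.le (pow_nonneg (by linarith) _))
    have hU : UW Y (ripen Y s) (T.2.toFinset \ (ripen Y s).ripe)
        = UW Y s (T.2.toFinset \ (ripen Y s).ripe) := rfl
    rw [hU]
    refine jg_aux hN _ _ _ subset_union_left ?_
    intro A _ hA hA'
    rcases mem_union.1 hA with h' | h'
    · exact absurd h' hA'
    · obtain ⟨n1, n2, n3, n4⟩ := (mem_filter.1 h').2
      exact ⟨h1 A n1 n2, h2 A n1, n4.trans (Nat.add_le_add_left hN.h6H _)⟩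
  · have h0 : gcW Y (ripen Y s) T = 0 := by
      unfold gcW
      rw [if_neg hc]
    rw [h0]
    exact gcW_nonneg hN T

theorem ripa_gc {p : X} {T : GCt X} (h : act Y (ripen Y s) p (.inr (.inr (.inl T)))) :
    act Y s p (.inr (.inr (.inl T))) := by
  obtain ⟨⟨A, hA, h1, h2⟩, -⟩ := h
  exact ⟨⟨A, hA, fun h3 => h1 (mem_union_left _ h3), h2⟩, trivial⟩

theorem jo_gc (hN : NumH Y Q) {A : Finset X} (hA : A ∈ Y.F) (hal : alive s A)
    (h1 : os Y s A ≤ Y.bs) (h2 : ars Y s A ≤ Y.am) (h3 : lev s A ≤ Y.jb + Y.H1) (T : GCt X) :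
    gcW Y (join Y s A) T ≤ gcW Y s T := by
  by_cases hc : ∀ C ∈ T.2, C ∈ (join Y s A).ripe ∨ alive (join Y s A) C
  · have hc' : ∀ C ∈ T.2, C ∈ s.ripe ∨ alive s C := by
      intro C hC
      rcases hc C hC with h | h
      · rcases mem_insert.1 h with h' | h'
        · rw [h']
          exact Or.inr hal
        · exact Or.inl h'
      · exact Or.inr h
    unfold gcW
    rw [if_pos hc, if_pos hc', mul_assoc, mul_assoc (Y.ρG * Y.gt ^ ntight Y T.1 T.2)]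
    have hgt := hN.gt1
    refine mul_le_mul_of_nonneg_left ?_ (mul_nonneg hN.ρGpos.le (pow_nonneg (by linarith) _))
    rw [UW_join]
    refine jg_aux hN _ _ _ (subset_insert A s.ripe) ?_
    intro C _ hC hC'
    rcases mem_insert.1 hC with h' | h'
    · rw [h']
      exact ⟨h1, h2, h3⟩
    · exact absurd h' hC'
  · have h0 : gcW Y (join Y s A) T = 0 := by
      unfold gcW
      rw [if_neg hc]
    rw [h0]
    exact gcW_nonneg hN T

theorem joa_gc {A : Finset X} {p : X} {T : GCt X}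
    (h : act Y (join Y s A) p (.inr (.inr (.inl T)))) : act Y s p (.inr (.inr (.inl T))) := by
  obtain ⟨⟨C, hC, h1, h2, h3⟩, -⟩ := h
  refine ⟨⟨C, hC, fun h4 => h1 (mem_insert_of_mem h4), h2, ?_⟩, trivial⟩
  have h5 : (if s.lb C p = none ∧ C ≠ A ∧ C ∉ s.J ∧ p ∈ C ∧ p ∈ nbox s A ∧ gen Y A C
    then some A else s.lb C p) = none := h3
  split_ifs at h5
  exact h5

end Pool.H33.MB2
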