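import Pool.Agent.H33.MB2.Rates

/-!
# MB2 JOMP: a join and the micro tuples and stars

`s' = join Y s A`, `A ∉ s.J`, `A ∈ F` alive.  `M`, `B`, `log` do not change; `lev s' C = lev s C` for all `C` (the new lost
points `v ∈ nbox s A` are not claimed, so they were counted before), `os` same, so `b1`, `b2` of all sets same.
`clean Y s' C → clean Y s C`, `C ∉ s'.J → C ∉ s.J`.  `s'.lb C v = s.lb C v` if `s.lb C v ≠ none`.
* `sv Y s' D l ≤ sv Y s D l` for `D ∉ s.J`, `D ≠ A`:
  - `s'.lb D l.1 = some l.2`: if `s.lb D l.1 = some l.2` the value is `s.s1 l.2` and `l.2 ∈ s.J` (`g.lb`) so `l.2 ≠ A` and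
    `s'.s1 l.2 = s.s1 l.2`.  Otherwise it is new: `l.2 = A`, `s.lb D l.1 = none`, `l.1 ∈ nbox s A` so `l.1` is unclaimed by Maker and
    `s.lb A l.1 = none`, value `s'.s1 A = if clean Y s A then b1 Y s A else 0`; before: if `clean Y s A` then
    `att Y s D A l.1` (needs `l.1 ∉ s.B`: `l.1 ∈ A` and `alive s A`), so equal; else 0.
  - `att Y s' ..` implies `att Y s ..`: same value.
* For a root `E ∉ s'.J` (so `E ≠ A`, `E ∉ s.J`) the same for `ev`: frozen old: unchanged (`s2`, `ss` of `e.1.2 ∈ s.J`).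
  New frozen: `e.1.2 = A`: value `s2' A * ∏ ss' A l = b2 Y s A * ∏ sv Y s A l` (or `b1`), the old value.
  Attached in `s'` with type 2: the leaves do not increase (previous item with `D = e.1.2 ∉ s'.J`).
* activity in `s'` implies activity in `s` (with the same witnesses; `actN s' C p → actN s C p`; levels same).
* stars: the condition gets harder and the values are the same.
-/

set_option linter.unusedSectionVars false

namespace Pool.H33.MB2

open Finset
open scoped Classical

variable {X Γ : Type*} [DecidableEq X] {Y : Sys X Γ} {Q : Num2}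
  {Lg : List (Entry X) → Finset X → Finset X → Prop} {s : State X}

theorem jomp_none {A C : Finset X} {v : X} (h : (join Y s A).lb C v = none) :
    s.lb C v = none := by
  by_contra hne
  simp only [join] at h
  rw [if_neg (fun hc => hne hc.1)] at h
  exact hne h

theorem jomp_some {A C D : Finset X} {v : X} (h : (join Y s A).lb C v = some D) :
    s.lb C v = some D ∨ (s.lb C v = none ∧ D = A ∧ v ∈ nbox s A) := by
  simp only [join] at h
  split_ifs at h with hc
  · exact Or.inr ⟨hc.1, (Option.some.inj h).symm, hc.2.2.2.2.1⟩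
  · exact Or.inl h

theorem lev_join (s : State X) (A C : Finset X) : lev (join Y s A) C = lev s C := by
  unfold lev
  congr 1
  apply Finset.filter_congr
  intro v _
  show (v ∉ s.M ∨ (join Y s A).lb C v ≠ none) ↔ (v ∉ s.M ∨ s.lb C v ≠ none)
  constructor
  · rintro (h | h)
    · exact Or.inl h
    · rcases hlb : (join Y s A).lb C v with _ | D
      · exact absurd hlb h
      · rcases jomp_some hlb with h1 | ⟨_, _, h1⟩
        · right
          rw [h1]
          simp
        · left
          unfold nbox at h1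
          exact (Finset.mem_filter.1 h1).2.1
  · rintro (h | h)
    · exact Or.inl h
    · right
      intro h1
      exact h (jomp_none h1)

theorem jomp_b1 (A C : Finset X) : b1 Y (join Y s A) C = b1 Y s C := by
  unfold b1
  rw [lev_join]
  rfl

theorem jomp_b2 (A C : Finset X) : b2 Y (join Y s A) C = b2 Y s C := by
  unfold b2
  rw [lev_join]
  rfl

theorem jomp_clean {A C : Finset X} (h : clean Y (join Y s A) C) : clean Y s C :=
  fun D hD => h D (List.mem_cons_of_mem _ hD)

theorem jomp_notJ {A C : Finset X} (h : C ∉ (join Y s A).J) : C ∉ s.J :=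
  fun hC => h (List.mem_cons_of_mem _ hC)

theorem jomp_att {A D C : Finset X} {v : X} (h : att Y (join Y s A) D C v) : att Y s D C v := by
  obtain ⟨h1, h2, h3, h4, h5, h6, h7⟩ := h
  exact ⟨h1, h2, jomp_none h3, jomp_none h4, h5, jomp_notJ h6, jomp_clean h7⟩

theorem jomp_s1 (A C : Finset X) : (join Y s A).s1 C =
    if C = A then (if clean Y s A then b1 Y s A else 0) else s.s1 C := rfl

theorem jomp_s2 (A C : Finset X) : (join Y s A).s2 C =
    if C = A then (if clean Y s A then b2 Y s A else 0) else s.s2 C := rfl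

theorem jomp_ss (A C : Finset X) : (join Y s A).ss C =
    if C = A then sv Y s A else s.ss C := rfl

theorem jomp_s1n (hN : NumH Y Q) (g : Good Y Lg s) (A C : Finset X) :
    0 ≤ (join Y s A).s1 C := by
  rw [jomp_s1]
  split_ifs
  · exact (b1_pos hN _).le
  · exact le_rfl
  · exact g.s1n C

theorem jomp_s2n (hN : NumH Y Q) (g : Good Y Lg s) (A C : Finset X) :
    0 ≤ (join Y s A).s2 C := by
  rw [jomp_s2]
  split_ifs
  · exact (b2_pos hN _).le
  · exact le_rfl
  · exact g.s2n C

theorem jomp_ssn (hN : NumH Y Q) (g : Good Y Lg s) (A C : Finset X) (l : X × Finset X) :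
    0 ≤ (join Y s A).ss C l := by
  rw [jomp_ss]
  split_ifs
  · exact sv_nonneg hN g A l
  · exact g.ssn C l

theorem jomp_svn (hN : NumH Y Q) (g : Good Y Lg s) (A D : Finset X) (l : X × Finset X) :
    0 ≤ sv Y (join Y s A) D l := by
  unfold sv
  split_ifs
  · exact jomp_s1n hN g A _
  · exact (b1_pos hN _).le
  · exact le_rfl

theorem jomp_evn (hN : NumH Y Q) (g : Good Y Lg s) (A E : Finset X) (e : El X) :
    0 ≤ ev Y (join Y s A) E e := by
  unfold ev
  split_ifs
  · exact mul_nonneg (jomp_s2n hN g A _) (prod_nonneg fun l _ => jomp_ssn hN g A _ _)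
  · exact jomp_s1n hN g A _
  · exact mul_nonneg (b2_pos hN _).le (prod_nonneg fun l _ => jomp_svn hN g A _ _)
  · exact (b1_pos hN _).le
  · exact le_rfl

theorem jomp_newatt {A D : Finset X} {v : X} (hal : alive s A) (hAJ : A ∉ s.J)
    (hcl : clean Y s A) (h0 : s.lb D v = none) (hv : v ∈ nbox s A) : att Y s D A v := by
  unfold nbox at hv
  obtain ⟨hvA, hvM, hvl⟩ := Finset.mem_filter.1 hv
  exact ⟨hvM, fun hB => Finset.disjoint_left.1 hal hvA hB, h0, hvl, hal, hAJ, hcl⟩

theorem jomp_sv (hN : NumH Y Q) (g : Good Y Lg s) {A : Finset X} (hal : alive s A)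
    (hAJ : A ∉ s.J) (D : Finset X) (l : X × Finset X) :
    sv Y (join Y s A) D l ≤ sv Y s D l := by
  by_cases h1 : (join Y s A).lb D l.1 = some l.2
  · have hL : sv Y (join Y s A) D l = (join Y s A).s1 l.2 := by
      unfold sv
      rw [if_pos h1]
    rw [hL]
    rcases jomp_some h1 with h2 | ⟨h2, h3, h4⟩
    · have hJ : l.2 ∈ s.J := (g.lb _ _ _ h2).1
      have hne : l.2 ≠ A := fun h => hAJ (h ▸ hJ)
      rw [jomp_s1, if_neg hne]
      unfold sv
      rw [if_pos h2]
    · rw [jomp_s1, if_pos h3]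
      by_cases hcl : clean Y s A
      · rw [if_pos hcl]
        have hatt := jomp_newatt hal hAJ hcl h2 h4
        unfold sv
        rw [if_neg (by rw [h2]; simp), h3, if_pos hatt]
      · rw [if_neg hcl]
        exact sv_nonneg hN g D l
  · by_cases h2 : att Y (join Y s A) D l.2 l.1
    · have hL : sv Y (join Y s A) D l = b1 Y s l.2 := by
        unfold sv
        rw [if_neg h1, if_pos h2, jomp_b1]
      have hatt := jomp_att h2
      rw [hL]
      unfold sv
      rw [if_neg (by rw [hatt.2.2.1]; simp), if_pos hatt]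
    · have hL : sv Y (join Y s A) D l = 0 := by
        unfold sv
        rw [if_neg h1, if_neg h2]
      rw [hL]
      exact sv_nonneg hN g D l

theorem jomp_ev (hN : NumH Y Q) (g : Good Y Lg s) {A : Finset X} (hal : alive s A)
    (hAJ : A ∉ s.J) (E : Finset X) (e : El X) :
    ev Y (join Y s A) E e ≤ ev Y s E e := by
  by_cases h1 : (join Y s A).lb E e.1.1 = some e.1.2
  · have hL : ev Y (join Y s A) E e = if e.2.1 then (join Y s A).s2 e.1.2 *
        ∏ l ∈ e.2.2, (join Y s A).ss e.1.2 l else (join Y s A).s1 e.1.2 := by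
      unfold ev
      rw [if_pos h1]
    rw [hL]
    rcases jomp_some h1 with h2 | ⟨h2, h3, h4⟩
    · have hJ : e.1.2 ∈ s.J := (g.lb _ _ _ h2).1
      have hne : e.1.2 ≠ A := fun h => hAJ (h ▸ hJ)
      rw [jomp_s1, if_neg hne, jomp_s2, if_neg hne, jomp_ss, if_neg hne]
      unfold ev
      rw [if_pos h2]
    · rw [jomp_s1, if_pos h3, jomp_s2, if_pos h3, jomp_ss, if_pos h3]
      by_cases hcl : clean Y s A
      · rw [if_pos hcl, if_pos hcl]
        have hatt := jomp_newatt hal hAJ hcl h2 h4
        have hR : ev Y s E e = if e.2.1 then b2 Y s A * ∏ l ∈ e.2.2, sv Y s A l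
            else b1 Y s A := by
          unfold ev
          rw [if_neg (by rw [h2]; simp), h3, if_pos hatt]
        rw [hR]
      · rw [if_neg hcl, if_neg hcl]
        have h0 := ev_nonneg (s := s) hN g E e
        split_ifs
        · rw [zero_mul]
          exact h0
        · exact h0
  · by_cases h2 : att Y (join Y s A) E e.1.2 e.1.1
    · have hL : ev Y (join Y s A) E e = if e.2.1 then b2 Y s e.1.2 *
          ∏ l ∈ e.2.2, sv Y (join Y s A) e.1.2 l else b1 Y s e.1.2 := by
        unfold ev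
        rw [if_neg h1, if_pos h2, jomp_b1, jomp_b2]
      have hatt := jomp_att h2
      have hR : ev Y s E e = if e.2.1 then b2 Y s e.1.2 * ∏ l ∈ e.2.2, sv Y s e.1.2 l
          else b1 Y s e.1.2 := by
        unfold ev
        rw [if_neg (by rw [hatt.2.2.1]; simp), if_pos hatt]
      rw [hL, hR]
      split_ifs
      · apply mul_le_mul_of_nonneg_left _ (b2_pos hN _).le
        exact prod_le_prod (fun l _ => jomp_svn hN g A _ _) fun l _ => jomp_sv hN g hal hAJ _ _
      · exact le_rfl
    · have hL : ev Y (join Y s A) E e = 0 := by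
        unfold ev
        rw [if_neg h1, if_neg h2]
      rw [hL]
      exact ev_nonneg hN g E e

theorem jo_mp (hN : NumH Y Q) (g : Good Y Lg s) {A : Finset X} (hA : A ∈ Y.F) (hal : alive s A)
    (hAJ : A ∉ s.J) (T : MPt X) : mpW Y (join Y s A) T ≤ mpW Y s T := by
  by_cases h : alive (join Y s A) T.1 ∧ T.1 ∉ (join Y s A).J
  · have h' : alive s T.1 ∧ T.1 ∉ s.J := ⟨h.1, jomp_notJ h.2⟩
    unfold mpW
    rw [if_pos h, if_pos h']
    apply mul_le_mul_of_nonneg_left _ hN.ρpos.le
    exact prod_le_prod (fun e _ => jomp_evn hN g A _ _) fun e _ => jomp_ev hN g hal hAJ _ _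
  · have hL : mpW Y (join Y s A) T = 0 := by
      unfold mpW
      rw [if_neg h]
    rw [hL]
    exact mpW_nonneg hN g T

theorem joa_mp {A : Finset X} {p : X} {T : MPt X} (h : act Y (join Y s A) p (.inl T)) :
    act Y s p (.inl T) := by
  obtain ⟨h1, h2, e, he, h3, h4⟩ := h
  refine ⟨h1, jomp_notJ h2, e, he, jomp_att h3, ?_⟩
  rcases h4 with ⟨h5, h6, h7, -⟩ | ⟨l, hl, h5, h6, h7, -⟩
  · exact Or.inl ⟨⟨h5.1, jomp_none h5.2⟩, h6, h7, trivial⟩
  · exact Or.inr ⟨l, hl, jomp_att h5, ⟨h6.1, jomp_none h6.2⟩, h7, trivial⟩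

theorem jo_ps (hN : NumH Y Q) (A : Finset X) (T : PSt X) : psW Y (join Y s A) T ≤ psW Y s T := by
  by_cases h : T.1 ∉ (join Y s A).M ∧ T.1 ∉ (join Y s A).B ∧ ∀ C ∈ T.2,
      (join Y s A).lb C T.1 = none ∧ alive (join Y s A) C ∧ C ∉ (join Y s A).J ∧
        clean Y (join Y s A) C
  · have h' : T.1 ∉ s.M ∧ T.1 ∉ s.B ∧ ∀ C ∈ T.2, s.lb C T.1 = none ∧ alive s C ∧ C ∉ s.J ∧
        clean Y s C :=
      ⟨h.1, h.2.1, fun C hC => ⟨jomp_none (h.2.2 C hC).1, (h.2.2 C hC).2.1,
        jomp_notJ (h.2.2 C hC).2.2.1, jomp_clean (h.2.2 C hC).2.2.2⟩⟩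
    unfold psW
    rw [if_pos h, if_pos h']
    refine le_of_eq ?_
    congr 1
    exact prod_congr rfl fun C _ => jomp_b1 A C
  · have hL : psW Y (join Y s A) T = 0 := by
      unfold psW
      rw [if_neg h]
    rw [hL]
    exact psW_nonneg hN T

theorem joa_ps {A : Finset X} {p : X} {T : PSt X} (h : act Y (join Y s A) p (.inr (.inl T))) :
    act Y s p (.inr (.inl T)) := by
  obtain ⟨h1, C, hC, h2, -⟩ := h
  exact ⟨h1, C, hC, ⟨h2.1, jomp_none h2.2⟩, trivial⟩

end Pool.H33.MB2
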