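import Pool.Agent.H33.MB2.Rates

/-!
# MB2 ZED: size of the new box; number of joined sets

* `box_size`.  Let `U` be the set of the `v ∈ A` with `v ∉ s0.M`, `s0.lb A v = none`, `¬ heat Y s0 A v`; `#U = uh Y s0 A > jb`
  by stability (`A ∉ s0.J` since `s0.J ⊆ s.J`; `alive s0 A` since `s0.B ⊆ s.B`).  Let `v ∈ U`, `v ≠ y`, `v ≠ z`.  Then `v ∉ s.M`.
  If `s.lb A v = none` then `v ∈ nbox s A`.  If `s.lb A v = some C`: by `hm.lbn` `C ∈ s.J`, `C ∉ s0.J`, `s0.lb C v = none`, `v ∈ C`,
  `gen A C`.  If `¬ s.bad C` then `near Y s0 C` by `hm.nearJ`, so `heat Y s0 A v`, a contradiction.  So `s.bad C`.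
  Hence `jb + 1 ≤ #U ≤ #(nbox s A) + 2 + #(bad hits)`.
* `card_J`.  For a fixed `p` the number of `A ∈ s.J` with `p ∈ s.box A` is at most `k + k L ≤ 2 k^2 L`: fix one such `A0`;
  by `g.rel` every other `A` has `gr A = gr A0` (at most `k` by `ownc`) or `arith A0 A`, and then it
  contains `p` and a second point of `A0` (`k` choices, `L` sets each by `codeg`).  Every box is nonempty (`bne`) and
  contained in `Y.S` (`bx`, `hF.sub`), so `#J = Σ_{A ∈ J} 1 ≤ Σ_{p ∈ S} #{A ∈ J : p ∈ box A} ≤ #S * 2 k^2 L ≤ 2 k^3 L #S`.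
  (`s.J.Nodup`, so `s.J.length = #s.J.toFinset`.)
-/

set_option linter.unusedSectionVars false

namespace Pool.H33.MB2

open Finset
open scoped Classical

variable {X Γ : Type*} [DecidableEq X] {Y : Sys X Γ} {Q : Num2}
  {Lg : List (Entry X) → Finset X → Finset X → Prop} {s : State X}

theorem box_size {s0 : State X} {y z : X} (hm : Mid Y s0 s y z) (hst : stable Y s0)
    {A : Finset X} (hA : A ∈ Y.F) (hal : alive s A) (hAJ : A ∉ s.J) :
    Y.jb ≤ #(nbox s A) + 1 + #(A.filter (fun v => ∃ C, s.lb A v = some C ∧ s.bad C)) := by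
  have hal0 : alive s0 A := disjoint_of_subset_right hm.B hal
  have hAJ0 : A ∉ s0.J := fun h => hAJ (hm.J A h)
  have h1 := hst A hA hal0 hAJ0
  unfold uh at h1
  have h2 : A.filter (fun v => v ∉ s0.M ∧ s0.lb A v = none ∧ ¬ heat Y s0 A v) ⊆
      ({y, z} : Finset X) ∪ (nbox s A ∪
        A.filter (fun v => ∃ C, s.lb A v = some C ∧ s.bad C)) := by
    intro v hv
    rw [mem_filter] at hv
    obtain ⟨hvA, hvM, hvl, hvh⟩ := hv
    rw [mem_union, mem_union]
    by_cases hvy : v = y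
    · left
      simp [hvy]
    by_cases hvz : v = z
    · left
      simp [hvz]
    right
    have hvM' : v ∉ s.M := by
      rw [hm.M, mem_insert, mem_insert]
      tauto
    rcases hl : s.lb A v with _ | C
    · left
      unfold nbox
      rw [mem_filter]
      exact ⟨hvA, hvM', hl⟩
    · right
      rw [mem_filter]
      refine ⟨hvA, C, hl, ?_⟩
      obtain ⟨h3, h4, h5, h6, h7, h8⟩ := hm.lbn A v C hl hvl
      by_contra hb
      exact hvh ⟨C, hm.nearJ C h3 h4 hb, h7, h8, h5⟩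
  have h3 := card_le_card h2
  have h4 := card_union_le ({y, z} : Finset X) (nbox s A ∪
        A.filter (fun v => ∃ C, s.lb A v = some C ∧ s.bad C))
  have h5 := card_union_le (nbox s A) (A.filter (fun v => ∃ C, s.lb A v = some C ∧ s.bad C))
  have h6 : #({y, z} : Finset X) ≤ 2 := card_le_two
  omega

theorem card_J (hF : FamH Y) (hN : NumH Y Q) (g : Good Y Lg s) :
    s.J.length ≤ 2 * Y.k ^ 3 * Y.L * #Y.S := by
  have hk := hN.k1
  have hL := hN.L1'
  have h1 : s.J.length = #s.J.toFinset := (List.toFinset_card_of_nodup g.nodup).symm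
  have h2 : s.J.toFinset ⊆ Y.S.biUnion (fun p => s.J.toFinset.filter (fun A => p ∈ s.box A)) := by
    intro A hA
    have hAJ := List.mem_toFinset.1 hA
    obtain ⟨p, hp⟩ := g.bne A hAJ
    rw [mem_biUnion]
    refine ⟨p, hF.sub A (g.JF A hAJ) ((g.bx A hAJ).1 hp), ?_⟩
    rw [mem_filter]
    exact ⟨hA, hp⟩
  have h3 : ∀ p ∈ Y.S, #(s.J.toFinset.filter (fun A => p ∈ s.box A)) ≤ 2 * Y.k ^ 2 * Y.L := by
    intro p _
    rcases (s.J.toFinset.filter (fun A => p ∈ s.box A)).eq_empty_or_nonempty with h4 | h4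
    · rw [h4, card_empty]
      exact Nat.zero_le _
    · obtain ⟨A0, hA0⟩ := h4
      rw [mem_filter, List.mem_toFinset] at hA0
      obtain ⟨hA0J, hpA0⟩ := hA0
      have hA0F := g.JF A0 hA0J
      have hp0 := (g.bx A0 hA0J).1 hpA0
      have h5 : s.J.toFinset.filter (fun A => p ∈ s.box A) ⊆
          Y.F.filter (fun C => p ∈ C ∧ Y.gr C = Y.gr A0) ∪
            A0.biUnion (fun q => if p = q then ∅ else Y.F.filter (fun A => p ∈ A ∧ q ∈ A)) := by
        intro A hA
        rw [mem_filter, List.mem_toFinset] at hA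
        obtain ⟨hAJ, hpA⟩ := hA
        have hAF := g.JF A hAJ
        have hp := (g.bx A hAJ).1 hpA
        rw [mem_union]
        rcases g.rel A0 hA0J A hAJ p hpA0 hpA with h6 | h6 | h6
        · left
          rw [mem_filter, ← h6]
          exact ⟨hA0F, hp0, rfl⟩
        · left
          rw [mem_filter]
          exact ⟨hAF, hp, h6.symm⟩
        · right
          obtain ⟨-, h7⟩ := h6
          obtain ⟨q, hq, hqp⟩ := exists_mem_ne (by omega : 1 < #(A0 ∩ A)) p
          rw [mem_inter] at hq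
          rw [mem_biUnion]
          refine ⟨q, hq.1, ?_⟩
          rw [if_neg (Ne.symm hqp), mem_filter]
          exact ⟨hAF, hp, hq.2⟩
      have h6 := card_le_card h5
      have h7 := card_union_le (Y.F.filter (fun C => p ∈ C ∧ Y.gr C = Y.gr A0))
        (A0.biUnion (fun q => if p = q then ∅ else Y.F.filter (fun A => p ∈ A ∧ q ∈ A)))
      have h8 := hF.ownc p A0 hA0F
      have h9 : #(A0.biUnion (fun q => if p = q then ∅ else
          Y.F.filter (fun A => p ∈ A ∧ q ∈ A))) ≤ #A0 * Y.L := by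
        apply card_biUnion_le_card_mul
        intro q _
        by_cases hpq : p = q
        · rw [if_pos hpq, card_empty]
          exact Nat.zero_le _
        · rw [if_neg hpq]
          exact hF.codeg p q hpq
      rw [hF.card A0 hA0F] at h9
      have h10 : Y.k ≤ Y.k ^ 2 * Y.L := by nlinarith [Nat.mul_le_mul hk hL]
      have h11 : Y.k * Y.L ≤ Y.k ^ 2 * Y.L := by nlinarith [Nat.mul_le_mul hk hL]
      have h12 : 2 * Y.k ^ 2 * Y.L = Y.k ^ 2 * Y.L + Y.k ^ 2 * Y.L := by ring
      omega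
  have h4 : #s.J.toFinset ≤ #Y.S * (2 * Y.k ^ 2 * Y.L) :=
    (card_le_card h2).trans (card_biUnion_le_card_mul _ _ _ h3)
  rw [h1]
  refine h4.trans ?_
  have h5 : #Y.S * (2 * Y.k ^ 2 * Y.L) = 1 * (2 * Y.k ^ 2 * Y.L * #Y.S) := by ring
  have h6 : 2 * Y.k ^ 3 * Y.L * #Y.S = Y.k * (2 * Y.k ^ 2 * Y.L * #Y.S) := by ring
  rw [h5, h6]
  exact Nat.mul_le_mul_right _ hk

end Pool.H33.MB2
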