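import Pool.Agent.H33.MB2.XTwo
import Pool.Agent.H33.MB2.Zed
import Pool.Agent.H33.MB2.JoCp
import Pool.Agent.H33.MB2.GoodJn
import Pool.Agent.H33.MB2.Gsb
import Pool.Agent.H33.MB2.Ars
import Pool.Agent.H33.MB2.BigF

/-!
# One join
-/

set_option linter.unusedSectionVars false

namespace Pool.H33.MB2

open Finset
open scoped Classical

variable {X Γ : Type*} [DecidableEq X] {Y : Sys X Γ} {Q : Num2}
  {Lg : List (Entry X) → Finset X → Finset X → Prop} {s : State X}

/-- The hits of `A` by clean bad sets. -/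
noncomputable def bcl (s : State X) (A : Finset X) : Finset X :=
  A.filter (fun v => ∃ C, s.lb A v = some C ∧ s.bad C ∧ s.cln C)

/-- The hits of `A` by dirty ripe sets. -/
noncomputable def dir (Y : Sys X Γ) (s : State X) (A : Finset X) : Finset X :=
  A.filter (fun v => ∃ C ∈ s.ripe, gen Y A C ∧ v ∈ C ∧ ∃ D ∈ s.J, arith Y D C)

/-- The certified hits of `A`. -/
noncomputable def cer (Y : Sys X Γ) (s : State X) (A : Finset X) : Finset X :=
  A.filter (fun v => ∃ C, cand Y s A (v, C))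

theorem sp_cover (hN : NumH Y Q) (hG : GeoH Y Lg) (g : Good Y Lg s) (hnr : NR Y s)
    {A : Finset X} (hal : alive s A) : Sp Y s A ⊆ bcl s A ∪ (dir Y s A ∪ cer Y s A) := by
  intro v hv
  rw [Sp, mem_filter] at hv
  obtain ⟨hvA, hv⟩ := hv
  simp only [mem_union, bcl, dir, cer, mem_filter, hvA, true_and]
  by_cases hlb : s.lb A v = none
  · obtain ⟨hvM, C, hC, hgen, hvC, hlC⟩ : v ∉ s.M ∧ heat Y s A v := by
      rcases hv with h | h
      · exact absurd hlb h
      · exact h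
    have hr := hnr C hC
    by_cases hcl : clean Y s C
    · refine Or.inr (Or.inr ⟨C, hvA, hgen, hvC, hr, ?_⟩)
      have hatt : att Y s A C v :=
        ⟨hvM, fun h => disjoint_left.1 hal hvA h, hlb, hlC, hC.2.1, hC.2.2.1, hcl⟩
      have h1 : sv Y s A (v, C) = b1 Y s C := by
        unfold sv
        simp only
        rw [if_neg (by rw [hlb]; simp), if_pos hatt]
      rw [h1]
      refine hN.hG.trans ?_
      unfold b1
      have h2 : Y.a1 (Y.jb + Y.h6) ≤ Y.a1 (lev s C) := a1_anti hN hC.2.2.2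
      have h3 : 1 ≤ kb Y Y.bs (os Y s C) := one_le_kb hN (os_bound hG g hC.1 hC.2.1)
      have h4 := hN.c1pos
      have h5 := hN.a1pos (Y.jb + Y.h6)
      calc Y.c1 * Y.a1 (Y.jb + Y.h6) = Y.c1 * 1 * Y.a1 (Y.jb + Y.h6) := by ring
        _ ≤ Y.c1 * kb Y Y.bs (os Y s C) * Y.a1 (lev s C) := by gcongr
    · unfold clean at hcl
      push Not at hcl
      exact Or.inr (Or.inl ⟨C, hr, hgen, hvC, hcl⟩)
  · obtain ⟨C, hC⟩ := Option.ne_none_iff_exists'.1 hlb
    obtain ⟨hCJ, hvb, -, hgen⟩ := g.lb A v C hC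
    have hvC := (g.bx C hCJ).1 hvb
    have hr := g.Jr C hCJ
    by_cases hcl : s.cln C
    · by_cases hb : s.bad C
      · exact Or.inl ⟨C, hC, hb, hcl⟩
      · refine Or.inr (Or.inr ⟨C, hvA, gen_symm hgen, hvC, hr, ?_⟩)
        have h1 : sv Y s A (v, C) = s.s1 C := by
          unfold sv
          simp only
          rw [if_pos hC]
        rw [h1]
        exact g.good C hCJ hcl hb
    · exact Or.inr (Or.inl ⟨C, hr, gen_symm hgen, hvC, g.dirty C hCJ hcl⟩)

theorem bad_le (hF : FamH Y) (hN : NumH Y Q) (g : Good Y Lg s) (hΦ : Phi Y s ≤ 1 / 16)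
    {A : Finset X} (hA : A ∈ Y.F) (hal : alive s A) (hAJ : A ∉ s.J) :
    #(A.filter (fun v => ∃ C, s.lb A v = some C ∧ s.bad C)) ≤ nb Y Q := by
  have h1 := x2_bound hF hN g hΦ hA hal hAJ
  have h2 := dirty_bound hF hN g hΦ hA
  have h3 : A.filter (fun v => ∃ C, s.lb A v = some C ∧ s.bad C) ⊆ bcl s A ∪ dir Y s A := by
    intro v hv
    rw [mem_filter] at hv
    obtain ⟨hvA, C, hC, hb⟩ := hv
    obtain ⟨hCJ, hvb, -, hgen⟩ := g.lb A v C hC
    simp only [mem_union, bcl, dir, mem_filter, hvA, true_and]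
    by_cases hcl : s.cln C
    · exact Or.inl ⟨C, hC, hb, hcl⟩
    · exact Or.inr ⟨C, g.Jr C hCJ, gen_symm hgen, (g.bx C hCJ).1 hvb, g.dirty C hCJ hcl⟩
  have h4 := (card_le_card h3).trans (card_union_le _ _)
  unfold nb
  unfold bcl dir at h4
  omega

theorem wJ_nonneg (hN : NumH Y Q) : 0 ≤ wJ Y := by
  have h1 := K_pos hN
  have h2 := hN.δle
  have h3 : 0 < 2 - Y.δ := by linarith
  unfold wJ
  positivity

theorem act_join_W {A : Finset X} {p : X} {T : Big X} (h : act Y (join Y s A) p T) :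
    act Y s p T := by
  rcases T with T | T | T | T
  · exact joa_mp h
  · exact joa_ps h
  · exact joa_gc h
  · exact joa_cp h

/-- Result of a join. -/
structure JoinRes (Y : Sys X Γ) (Lg : List (Entry X) → Finset X → Finset X → Prop)
    (s0 s s' : State X) (y z : X) : Prop where
  good : Good Y Lg s'
  nr : NR Y s'
  mid : Mid Y s0 s' y z
  phi : ∀ p, phi Y s' p ≤ phi Y s p
  Phi : Phi Y s' ≤ Phi Y s + wJ Y

theorem join_step (hF : FamH Y) (hN : NumH Y Q) (hG : GeoH Y Lg) {s0 : State X} {y z : X}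
    (hst : stable Y s0) (g : Good Y Lg s) (hnr : NR Y s) (hm : Mid Y s0 s y z)
    (hΦ : Phi Y s ≤ 1 / 16) {A : Finset X} (hA : A ∈ Y.F) (hal : alive s A) (hAJ : A ∉ s.J)
    (hu : uh Y s A ≤ Y.jb) : JoinRes Y Lg s0 s (join Y s A) y z := by
  have h1 := x2_bound hF hN g hΦ hA hal hAJ
  have h2 := dirty_bound hF hN g hΦ hA
  have h3 := x1_bound hF hN g hΦ hA hal hAJ
  have hcov := sp_cover hN hG g hnr hal
  have h4 : #(Sp Y s A) ≤ nb1 Y Q + (Cg Y + #(cer Y s A)) := by
    refine (card_le_card hcov).trans ((card_union_le _ _).trans ?_)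
    have h5 : #(dir Y s A) ≤ Cg Y := h2.le
    have h6 : #(bcl s A) ≤ nb1 Y Q := h1
    have := card_union_le (dir Y s A) (cer Y s A)
    omega
  have h5 := lev_eq (Y := Y) (s := s) A
  have hH1 := hN.hH1
  have hMc := hN.hMc
  have hlv : lev s A ≤ Y.jb + Y.H1 := by
    have : #(cer Y s A) ≤ (Cg Y + 1) * Q.n1 := h3
    unfold nb at hH1
    omega
  have hbad := bad_le hF hN g hΦ hA hal hAJ
  have hbox := box_size hm hst hA hal hAJ
  have hjm := hN.hjm
  have hb : Y.jm ≤ #(nbox s A) := by omega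
  have hne : (nbox s A).Nonempty := by
    rw [← card_pos]
    have := hN.jm1
    omega
  have hos : ∀ C ∈ Y.F, alive s C → os Y s C ≤ Y.bs := fun C hC hC' => os_bound hG g hC hC'
  have hars : ∀ C ∈ Y.F, ars Y s C ≤ Y.am := fun C hC => ars_bound hF hN hG g hΦ hC
  have hkb : 1 ≤ kb Y Y.bs (os Y s A) := one_le_kb hN (hos A hA hal)
  have hgj : Good Y Lg (join Y s A) := by
    refine good_join hN g hA hAJ hne hlv ?_ ?_
    · intro _ hb
      push Not at hb
      refine hN.hG.trans ?_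
      have h2 : Y.a1 (Y.jb + Y.h6) ≤ Y.a1 (lev s A) := a1_anti hN (by omega)
      have h4 := hN.c1pos
      have h5 := hN.a1pos (Y.jb + Y.h6)
      unfold b1
      calc Y.c1 * Y.a1 (Y.jb + Y.h6) = Y.c1 * 1 * Y.a1 (Y.jb + Y.h6) := by ring
        _ ≤ Y.c1 * kb Y Y.bs (os Y s A) * Y.a1 (lev s A) := by gcongr
    · intro _ hb
      constructor
      · refine hN.hβ.trans ?_
        have h2 : Y.a2 (Y.jb + Y.H1) ≤ Y.a2 (lev s A) := a2_anti hN hlv
        have h4 := hN.ρ2pos
        have h5 := hN.a2pos (Y.jb + Y.H1)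
        unfold b2
        calc Y.ρ2 * Y.a2 (Y.jb + Y.H1) = Y.ρ2 * 1 * Y.a2 (Y.jb + Y.H1) := by ring
          _ ≤ Y.ρ2 * kb Y Y.bs (os Y s A) * Y.a2 (lev s A) := by gcongr
      · have hcc : ∀ v, ∃ C, v ∈ cer Y s A → cand Y s A (v, C) := by
          intro v
          by_cases hv : v ∈ cer Y s A
          · have := (mem_filter.1 hv).2
            obtain ⟨C, hC⟩ := this
            exact ⟨C, fun _ => hC⟩
          · exact ⟨∅, fun h => absurd h hv⟩
        choose Cf hCf using hcc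
        refine ⟨(cer Y s A).image (fun v => (v, Cf v)), ?_, ?_, ?_⟩
        · rw [card_image_of_injective _ (fun a b h => (Prod.mk.inj h).1)]
          unfold nb at hMc
          omega
        · intro l hl
          obtain ⟨v, hv, rfl⟩ := mem_image.1 hl
          exact hCf v hv
        · intro l hl l' hl' he
          obtain ⟨v, hv, rfl⟩ := mem_image.1 hl
          obtain ⟨v', hv', rfl⟩ := mem_image.1 hl'
          simp only at he
          rw [he]
  have hWle : ∀ T : MPt X ⊕ PSt X ⊕ GCt X, True := fun _ => trivial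
  have hsmcp := jo_smcp hN g hA hal hAJ hb hos hars hlv
  refine ⟨hgj, nr_join hnr A, mid_join g hm hA hal hAJ, ?_, ?_⟩
  · intro p
    rw [phi_eq, phi_eq]
    refine sum_le_sum fun T _ => ?_
    by_cases h : act Y (join Y s A) p T
    · rw [if_pos h, if_pos (act_join_W h)]
      rcases T with T | T | T | T
      · exact jo_mp hN g hA hal hAJ T
      · exact jo_ps hN A T
      · exact jo_gc hN hA hal (hos A hA hal) (hars A hA) hlv T
      · exact jo_cp hN A T
    · rw [if_neg h]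
      split_ifs
      · exact W_nonneg hN g T
      · exact le_rfl
  · have e : ∀ s : State X, Phi Y s = (Sm Y s + ∑ p ∈ cpI Y, cpW Y s p) +
        (∑ T ∈ mpI Y, mpW Y s T + (∑ T ∈ psI Y, psW Y s T + ∑ T ∈ gcI Y, gcW Y s T)) := by
      intro s
      unfold Phi bigI
      rw [sum_disjSum, sum_disjSum, sum_disjSum]
      simp only [W]
      ring
    rw [e, e]
    have i1 : ∑ T ∈ mpI Y, mpW Y (join Y s A) T ≤ ∑ T ∈ mpI Y, mpW Y s T :=
      sum_le_sum fun T _ => jo_mp hN g hA hal hAJ T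
    have i2 : ∑ T ∈ psI Y, psW Y (join Y s A) T ≤ ∑ T ∈ psI Y, psW Y s T :=
      sum_le_sum fun T _ => jo_ps hN A T
    have i3 : ∑ T ∈ gcI Y, gcW Y (join Y s A) T ≤ ∑ T ∈ gcI Y, gcW Y s T :=
      sum_le_sum fun T _ => jo_gc hN hA hal (hos A hA hal) (hars A hA) hlv T
    linarith

end Pool.H33.MB2
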