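import Pool.Agent.H68.MB.LatRel
import Pool.Agent.H33.MB2.GkDefs

/-!
# MB2 LTA: lattices: parameters, grid, position

`parq q A`: the parameters `(a, b, d)` of a lattice (unique for `q ≥ 2`: `(a, b)` is the smallest point, `(a + d, b)` is in the lattice).
`grq`: the grid `(a % d, b % d, d)`; `posq`: the position `(a / d, b / d)`; `crd d p`: coordinates of a point of a grid with gap `d`.
* `mem_lat_iff`: `p = (a + i d, b + j d)` with `i, j < q` iff `p.1 % d = a % d`, `p.1 / d = a / d + i` etc.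
* `fam_ownc`: `C ∋ p` with grid `g` is determined by `crd p - posq C ∈ [0, q)^2`.
* `fam_kap`: different grids.  Equal gaps: the residues differ, so the lattices are disjoint.  Gaps `d < d'` (or reversed):
  `A ∩ C ⊆ (X ∩ X') ×ˢ (Y ∩ Y')` (`LR.lat_inter_subset`), and two common first coordinates differ by a multiple of
  `lcm d d' ≥ 2 d` (a multiple of `d` which is at least `d' > d`), so `#(X ∩ X') ≤ (q - 1) / 2 + 1 = (q + 1) / 2`.
  (`LR.card_inter_le` gives only `q / 2 + 1`; redo the argument with `(x - x_min) / (2 d) ≤ (q - 1) / 2`.)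
-/

namespace Pool.H33.MB2

open Finset
open scoped Classical
open Pool.H68.MB (lat board coreFam)

/-- The parameters of a lattice. -/
noncomputable def parq (q : ℕ) (A : Finset (ℕ × ℕ)) : ℕ × ℕ × ℕ :=
  if h : ∃ t : ℕ × ℕ × ℕ, 1 ≤ t.2.2 ∧ A = lat q t.1 t.2.1 t.2.2 then h.choose else (0, 0, 0)

/-- The grid of a lattice. -/
noncomputable def grq (q : ℕ) (A : Finset (ℕ × ℕ)) : ℕ × ℕ × ℕ :=
  ((parq q A).1 % (parq q A).2.2, (parq q A).2.1 % (parq q A).2.2, (parq q A).2.2)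

/-- The position of a lattice in its grid. -/
noncomputable def posq (q : ℕ) (A : Finset (ℕ × ℕ)) : ℤ × ℤ :=
  (((parq q A).1 / (parq q A).2.2 : ℕ), ((parq q A).2.1 / (parq q A).2.2 : ℕ))

/-- Coordinates in a grid with gap `d`. -/
def crd (d : ℕ) (p : ℕ × ℕ) : ℤ × ℤ := ((p.1 / d : ℕ), (p.2 / d : ℕ))

/-- `p` is a point of the grid `g`. -/
def inG (g : ℕ × ℕ × ℕ) (p : ℕ × ℕ) : Prop := p.1 % g.2.2 = g.1 ∧ p.2 % g.2.2 = g.2.1

theorem lat_unique {q a b d a' b' d' : ℕ} (hq : 2 ≤ q) (hd : 1 ≤ d) (hd' : 1 ≤ d')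
    (h : lat q a b d = lat q a' b' d') : a = a' ∧ b = b' ∧ d = d' := by
  have key : ∀ {a b d a' b' d' : ℕ}, lat q a b d = lat q a' b' d' → 1 ≤ d →
      ∃ i j k l, a = a' + i * d' ∧ b = b' + j * d' ∧ a + d = a' + k * d' ∧ b = b' + l * d' := by
    intro a b d a' b' d' h hd
    have h1 : (a, b) ∈ lat q a b d := Pool.H68.MB.Lt.mem_lat.2 ⟨0, 0, by omega, by omega, by simp⟩
    have h2 : (a + d, b) ∈ lat q a b d :=
      Pool.H68.MB.Lt.mem_lat.2 ⟨1, 0, by omega, by omega, by simp⟩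
    rw [h] at h1 h2
    obtain ⟨i, j, _, _, e1⟩ := Pool.H68.MB.Lt.mem_lat.1 h1
    obtain ⟨k, l, _, _, e2⟩ := Pool.H68.MB.Lt.mem_lat.1 h2
    rw [Prod.mk.injEq] at e1 e2
    exact ⟨i, j, k, l, e1.1, e1.2, e2.1, e2.2⟩
  obtain ⟨i, j, k, l, h1, h2, h3, h4⟩ := key h hd
  obtain ⟨i', j', k', l', h1', h2', h3', h4'⟩ := key h.symm hd'
  have ha : a = a' := le_antisymm (by rw [h1']; exact Nat.le_add_right _ _)
    (by rw [h1]; exact Nat.le_add_right _ _)
  have hb : b = b' := le_antisymm (by rw [h2']; exact Nat.le_add_right _ _)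
    (by rw [h2]; exact Nat.le_add_right _ _)
  refine ⟨ha, hb, ?_⟩
  subst ha
  have e1 : d = k * d' := by omega
  have e2 : d' = k' * d := by omega
  have k1 : 1 ≤ k := by
    rcases Nat.eq_zero_or_pos k with h0 | h0
    · rw [h0, zero_mul] at e1; omega
    · exact h0
  have k2 : 1 ≤ k' := by
    rcases Nat.eq_zero_or_pos k' with h0 | h0
    · rw [h0, zero_mul] at e2; omega
    · exact h0
  have l1 : d' ≤ d := by
    calc d' = 1 * d' := (one_mul _).symm
      _ ≤ k * d' := Nat.mul_le_mul_right _ k1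
      _ = d := e1.symm
  have l2 : d ≤ d' := by
    calc d = 1 * d := (one_mul _).symm
      _ ≤ k' * d := Nat.mul_le_mul_right _ k2
      _ = d' := e2.symm
  omega

theorem parq_lat {q a b d : ℕ} (hq : 2 ≤ q) (hd : 1 ≤ d) : parq q (lat q a b d) = (a, b, d) := by
  have h : ∃ t : ℕ × ℕ × ℕ, 1 ≤ t.2.2 ∧ lat q a b d = lat q t.1 t.2.1 t.2.2 :=
    ⟨(a, b, d), hd, rfl⟩
  unfold parq
  rw [dif_pos h]
  obtain ⟨h1, h2⟩ := h.choose_spec
  obtain ⟨e1, e2, e3⟩ := lat_unique hq hd h1 h2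
  exact Prod.ext e1.symm (Prod.ext e2.symm e3.symm)

theorem lta_one {q a d x : ℕ} (hd : 1 ≤ d) : (∃ i, i < q ∧ x = a + i * d) ↔
    x % d = a % d ∧ a / d ≤ x / d ∧ x / d < a / d + q := by
  constructor
  · rintro ⟨i, hi, rfl⟩
    rw [Nat.add_mul_mod_self_right, Nat.add_mul_div_right _ _ (by omega)]
    exact ⟨rfl, by omega, by omega⟩
  · rintro ⟨h1, h2, h3⟩
    refine ⟨x / d - a / d, by omega, ?_⟩
    have e1 := Nat.div_add_mod x d
    have e2 := Nat.div_add_mod a d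
    rw [Nat.sub_mul, mul_comm (x / d) d, mul_comm (a / d) d]
    have e3 : d * (a / d) ≤ d * (x / d) := Nat.mul_le_mul_left _ h2
    omega

theorem mem_lat_iff {q a b d : ℕ} (hd : 1 ≤ d) {p : ℕ × ℕ} :
    p ∈ lat q a b d ↔ inG (a % d, b % d, d) p ∧ crd d p ∈ Gk.cell q ((a / d : ℕ), (b / d : ℕ)) := by
  have h1 : p ∈ lat q a b d ↔ (∃ i, i < q ∧ p.1 = a + i * d) ∧ ∃ j, j < q ∧ p.2 = b + j * d := by
    rw [Pool.H68.MB.Lt.mem_lat]
    constructor
    · rintro ⟨i, j, hi, hj, rfl⟩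
      exact ⟨⟨i, hi, rfl⟩, ⟨j, hj, rfl⟩⟩
    · rintro ⟨⟨i, hi, h⟩, ⟨j, hj, h'⟩⟩
      exact ⟨i, j, hi, hj, Prod.ext h h'⟩
  rw [h1, lta_one hd, lta_one hd]
  unfold inG crd Gk.cell
  rw [mem_product, mem_Ico, mem_Ico]
  dsimp only
  constructor
  · rintro ⟨⟨h2, h3, h4⟩, ⟨h5, h6, h7⟩⟩
    refine ⟨⟨h2, h5⟩, ⟨?_, ?_⟩, ⟨?_, ?_⟩⟩
    · exact_mod_cast h3
    · exact_mod_cast h4
    · exact_mod_cast h6
    · exact_mod_cast h7
  · rintro ⟨⟨h2, h5⟩, ⟨h3, h4⟩, ⟨h6, h7⟩⟩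
    refine ⟨⟨h2, ?_, ?_⟩, ⟨h5, ?_, ?_⟩⟩
    · exact_mod_cast h3
    · exact_mod_cast h4
    · exact_mod_cast h6
    · exact_mod_cast h7

theorem crd_inj {g : ℕ × ℕ × ℕ} {p p' : ℕ × ℕ} (h : inG g p) (h' : inG g p')
    (he : crd g.2.2 p = crd g.2.2 p') : p = p' := by
  unfold crd at he
  rw [Prod.mk.injEq] at he
  have e1 : p.1 / g.2.2 = p'.1 / g.2.2 := by exact_mod_cast he.1
  have e2 : p.2 / g.2.2 = p'.2 / g.2.2 := by exact_mod_cast he.2
  refine Prod.ext ?_ ?_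
  · rw [← Nat.div_add_mod p.1 g.2.2, ← Nat.div_add_mod p'.1 g.2.2, e1, h.1, h'.1]
  · rw [← Nat.div_add_mod p.2 g.2.2, ← Nat.div_add_mod p'.2 g.2.2, e2, h.2, h'.2]

theorem fam_par {N q : ℕ} (hq : 2 ≤ q) {A : Finset (ℕ × ℕ)} (hA : A ∈ coreFam N q 1) :
    ∃ a b d, 1 ≤ d ∧ A = lat q a b d ∧ parq q A = (a, b, d) := by
  obtain ⟨a, b, d, -, -, hd, -, -, -, rfl⟩ := Pool.H68.MB.mem_coreFam.1 hA
  exact ⟨a, b, d, hd.1, rfl, parq_lat hq hd.1⟩

theorem fam_mem {N q : ℕ} (hq : 2 ≤ q) {A : Finset (ℕ × ℕ)} (hA : A ∈ coreFam N q 1)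
    {p : ℕ × ℕ} : p ∈ A ↔ inG (grq q A) p ∧ crd (grq q A).2.2 p ∈ Gk.cell q (posq q A) := by
  obtain ⟨a, b, d, hd, hAe, hp⟩ := fam_par hq hA
  have h1 : grq q A = (a % d, b % d, d) := by
    unfold grq
    rw [hp]
  have h2 : posq q A = (((a / d : ℕ) : ℤ), ((b / d : ℕ) : ℤ)) := by
    unfold posq
    rw [hp]
  rw [h1, h2, hAe]
  exact mem_lat_iff hd

theorem fam_inj {N q : ℕ} (hq : 2 ≤ q) {A A' : Finset (ℕ × ℕ)} (hA : A ∈ coreFam N q 1)
    (hA' : A' ∈ coreFam N q 1) (h : grq q A = grq q A') (h' : posq q A = posq q A') : A = A' := by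
  ext p
  rw [fam_mem hq hA, fam_mem hq hA', h, h']

theorem fam_ownc {N q : ℕ} (hq : 2 ≤ q) (p : ℕ × ℕ) (A : Finset (ℕ × ℕ)) :
    #((coreFam N q 1).filter (fun C => p ∈ C ∧ grq q C = grq q A)) ≤ q ^ 2 := by
  have h1 : #((coreFam N q 1).filter (fun C => p ∈ C ∧ grq q C = grq q A)) ≤
      #(range q ×ˢ range q) := by
    have hbd : ∀ C ∈ (coreFam N q 1).filter (fun C => p ∈ C ∧ grq q C = grq q A),
        C ∈ coreFam N q 1 ∧ grq q C = grq q A ∧
        (posq q C).1 ≤ (crd (grq q A).2.2 p).1 ∧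
        (crd (grq q A).2.2 p).1 < (posq q C).1 + q ∧
        (posq q C).2 ≤ (crd (grq q A).2.2 p).2 ∧
        (crd (grq q A).2.2 p).2 < (posq q C).2 + q := by
      intro C hC
      rw [mem_filter] at hC
      obtain ⟨h1, h2, h3⟩ := hC
      have h4 := ((fam_mem hq h1).1 h2).2
      rw [h3] at h4
      unfold Gk.cell at h4
      rw [mem_product, mem_Ico, mem_Ico] at h4
      exact ⟨h1, h3, h4.1.1, h4.1.2, h4.2.1, h4.2.2⟩
    refine card_le_card_of_injOn
      (fun C => (((crd (grq q A).2.2 p).1 - (posq q C).1).toNat,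
        ((crd (grq q A).2.2 p).2 - (posq q C).2).toNat)) ?_ ?_
    · intro C hC
      obtain ⟨-, -, h3, h4, h5, h6⟩ := hbd C hC
      rw [mem_coe, mem_product, mem_range, mem_range]
      constructor
      · simp only; omega
      · simp only; omega
    · intro C hC C' hC' he
      obtain ⟨h1, h2, h3, h4, h5, h6⟩ := hbd C hC
      obtain ⟨h1', h2', h3', h4', h5', h6'⟩ := hbd C' hC'
      simp only [Prod.mk.injEq] at he
      refine fam_inj hq h1 h1' (h2.trans h2'.symm) (Prod.ext ?_ ?_)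
      · omega
      · omega
  rw [card_product, card_range] at h1
  rw [sq]
  exact h1

theorem kap_one {q a d a' d' : ℕ} (hd : 1 ≤ d) (hlt : d < d') :
    #(Pool.H68.MB.LR.ap q a d ∩ Pool.H68.MB.LR.ap q a' d') ≤ (q + 1) / 2 := by
  rw [← card_range ((q + 1) / 2)]
  refine card_le_card_of_injOn (fun x => (x - a) / d / 2) ?_ ?_
  · intro x hx
    rw [mem_coe, mem_inter, Pool.H68.MB.LR.mem_ap] at hx
    obtain ⟨⟨i, hi, hxi⟩, -⟩ := hx
    rw [mem_coe, mem_range]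
    have : (x - a) / d = i := by
      rw [hxi, Nat.add_sub_cancel_left, Nat.mul_div_cancel _ (by omega)]
    simp only [this]
    omega
  · intro x hx y hy hxy
    rw [mem_coe, mem_inter, Pool.H68.MB.LR.mem_ap, Pool.H68.MB.LR.mem_ap] at hx hy
    obtain ⟨⟨i, hi, hxi⟩, ⟨i', hi', hxi'⟩⟩ := hx
    obtain ⟨⟨j, hj, hyj⟩, ⟨j', hj', hyj'⟩⟩ := hy
    have e1 : (x - a) / d = i := by
      rw [hxi, Nat.add_sub_cancel_left, Nat.mul_div_cancel _ (by omega)]
    have e2 : (y - a) / d = j := by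
      rw [hyj, Nat.add_sub_cancel_left, Nat.mul_div_cancel _ (by omega)]
    simp only [e1, e2] at hxy
    have hz : ∀ {i j i' j' : ℕ}, a + i * d = a' + i' * d' → a + j * d = a' + j' * d' →
        j ≠ i + 1 := by
      intro i j i' j' h1 h2 h3
      subst h3
      have h4 : (i + 1) * d = i * d + d := by ring
      have h5 : j' * d' = i' * d' + d := by omega
      have h6 : i' < j' := by
        by_contra hcon
        have := Nat.mul_le_mul_right d' (not_lt.1 hcon)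
        omega
      have h7 := Nat.mul_le_mul_right d' (Nat.succ_le_of_lt h6)
      have h8 : i'.succ * d' = i' * d' + d' := by rw [Nat.succ_mul]
      omega
    have h1 := hz (hxi.symm.trans hxi') (hyj.symm.trans hyj')
    have h2 := hz (hyj.symm.trans hyj') (hxi.symm.trans hxi')
    have h3 : i = j := by omega
    rw [hxi, hyj, h3]

theorem fam_kap {N q : ℕ} (hq : 2 ≤ q) {A C : Finset (ℕ × ℕ)} (hA : A ∈ coreFam N q 1)
    (hC : C ∈ coreFam N q 1) (h : grq q A ≠ grq q C) : #(A ∩ C) ≤ ((q + 1) / 2) ^ 2 := by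
  obtain ⟨a, b, d, hd, hAe, hp⟩ := fam_par hq hA
  obtain ⟨a', b', d', hd', hCe, hp'⟩ := fam_par hq hC
  have h1 : grq q A = (a % d, b % d, d) := by
    unfold grq
    rw [hp]
  have h2 : grq q C = (a' % d', b' % d', d') := by
    unfold grq
    rw [hp']
  rw [h1, h2] at h
  rw [hAe, hCe]
  have h3 := card_le_card (Pool.H68.MB.LR.lat_inter_subset q a b d a' b' d')
  rw [card_product] at h3
  refine h3.trans ?_
  rw [sq]
  rcases lt_trichotomy d d' with hlt | heq | hgt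
  · exact Nat.mul_le_mul (kap_one hd hlt) (kap_one hd hlt)
  · subst heq
    have hz : ∀ {a a' : ℕ}, a % d ≠ a' % d →
        #(Pool.H68.MB.LR.ap q a d ∩ Pool.H68.MB.LR.ap q a' d) = 0 := by
      intro a a' hne
      rw [card_eq_zero, eq_empty_iff_forall_notMem]
      intro x hx
      rw [mem_inter, Pool.H68.MB.LR.mem_ap, Pool.H68.MB.LR.mem_ap] at hx
      obtain ⟨⟨i, hi, hxi⟩, ⟨i', hi', hxi'⟩⟩ := hx
      apply hne
      rw [← Nat.add_mul_mod_self_right a i d, ← Nat.add_mul_mod_self_right a' i' d, ← hxi, hxi']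
    by_cases hab : a % d = a' % d
    · have hb : b % d ≠ b' % d := by
        intro hb
        exact h (by rw [hab, hb])
      rw [hz hb, mul_zero]
      exact Nat.zero_le _
    · rw [hz hab, zero_mul]
      exact Nat.zero_le _
  · rw [inter_comm (Pool.H68.MB.LR.ap q a d), inter_comm (Pool.H68.MB.LR.ap q b d)]
    exact Nat.mul_le_mul (kap_one hd' hgt) (kap_one hd' hgt)

end Pool.H33.MB2
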