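import Pool.Agent.H33.MB2.NumDefs

/-!
# MB2 NUA: the size functions

`av r1 r2 jb L u = r1⁻¹ ^ min (u - jb) L * r2⁻¹ ^ (u - jb - L)`, truncated subtraction, `1 ≤ r1 ≤ r2`.
If `u < jb` nothing changes from `u` to `u + 1`; if `jb ≤ u < jb + L` the first exponent grows by one; if `jb + L ≤ u` the second one.
`av_rc_le`: the ratio is 1, `r1` or `r2`.  `av_ge`: `min a L + (a - L) = a`, `r1⁻¹ ≥ r2⁻¹`.  `av_warm`: `n ≤ L`.
`av_cold`: `u = jb + L + 1`: the value is `r1⁻¹ ^ L * r2⁻¹ ≤ r1⁻¹ ^ L`.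
-/

set_option linter.unusedSectionVars false

namespace Pool.H33.MB2

open Finset Real

variable {X Γ : Type*} [DecidableEq X] {ε ℓ : ℝ} {q : ℕ} {Y : Sys X Γ} {Q : Num2}

theorem av_one {r1 r2 : ℝ} {jb L u : ℕ} (h : u ≤ jb) : av r1 r2 jb L u = 1 := by
  unfold av
  have h1 : u - jb = 0 := by omega
  rw [h1]
  simp

theorem av_pos {r1 r2 : ℝ} (h1 : 1 ≤ r1) (h2 : r1 ≤ r2) (jb L u : ℕ) : 0 < av r1 r2 jb L u := by
  unfold av
  have : 0 < r1 := by linarith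
  have : 0 < r2 := by linarith
  positivity

theorem av_anti {r1 r2 : ℝ} (h1 : 1 ≤ r1) (h2 : r1 ≤ r2) (jb L u : ℕ) :
    av r1 r2 jb L (u + 1) ≤ av r1 r2 jb L u := by
  unfold av
  have h3 : 0 < r1 := by linarith
  have h4 : 0 < r2 := by linarith
  have h5 : r1⁻¹ ≤ 1 := inv_le_one_of_one_le₀ h1
  have h6 : r2⁻¹ ≤ 1 := inv_le_one_of_one_le₀ (h1.trans h2)
  have h7 : r1⁻¹ ^ min (u + 1 - jb) L ≤ r1⁻¹ ^ min (u - jb) L :=
    pow_le_pow_of_le_one (by positivity) h5 (by omega)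
  have h8 : r2⁻¹ ^ (u + 1 - jb - L) ≤ r2⁻¹ ^ (u - jb - L) :=
    pow_le_pow_of_le_one (by positivity) h6 (by omega)
  gcongr

theorem av_rc_le {r1 r2 : ℝ} (h1 : 1 ≤ r1) (h2 : r1 ≤ r2) (jb L u : ℕ) :
    av r1 r2 jb L u ≤ r2 * av r1 r2 jb L (u + 1) := by
  have h3 : 0 < r1 := by linarith
  have h4 : 0 < r2 := by linarith
  rcases lt_or_ge u (jb + L) with hu | hu
  · rcases lt_or_ge u jb with hv | hv
    · have e1 : u - jb = 0 := by omega
      have e2 : u + 1 - jb = 0 := by omega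
      unfold av
      rw [e1, e2]
      simp
      linarith
    · unfold av
      have e1 : min (u + 1 - jb) L = min (u - jb) L + 1 := by omega
      have e2 : u + 1 - jb - L = u - jb - L := by omega
      rw [e1, e2, pow_succ]
      have e3 : r2 * (r1⁻¹ ^ min (u - jb) L * r1⁻¹ * r2⁻¹ ^ (u - jb - L)) =
          (r2 * r1⁻¹) * (r1⁻¹ ^ min (u - jb) L * r2⁻¹ ^ (u - jb - L)) := by ring
      rw [e3]
      have e4 : 1 ≤ r2 * r1⁻¹ := by
        rw [← div_eq_mul_inv, one_le_div h3]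
        exact h2
      have e5 : 0 ≤ r1⁻¹ ^ min (u - jb) L * r2⁻¹ ^ (u - jb - L) := by positivity
      nlinarith
  · unfold av
    have e1 : min (u + 1 - jb) L = min (u - jb) L := by omega
    have e2 : u + 1 - jb - L = (u - jb - L) + 1 := by omega
    rw [e1, e2, pow_succ]
    have e3 : r2 * (r1⁻¹ ^ min (u - jb) L * (r2⁻¹ ^ (u - jb - L) * r2⁻¹)) =
        (r2 * r2⁻¹) * (r1⁻¹ ^ min (u - jb) L * r2⁻¹ ^ (u - jb - L)) := by ring
    rw [e3, mul_inv_cancel₀ h4.ne', one_mul]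

theorem av_rw_le {r1 r2 : ℝ} (h1 : 1 ≤ r1) (h2 : r1 ≤ r2) {jb L u : ℕ} (hu : u < jb + L) :
    av r1 r2 jb L u ≤ r1 * av r1 r2 jb L (u + 1) := by
  have h3 : 0 < r1 := by linarith
  have h4 : 0 < r2 := by linarith
  rcases lt_or_ge u jb with hv | hv
  · have e1 : u - jb = 0 := by omega
    have e2 : u + 1 - jb = 0 := by omega
    unfold av
    rw [e1, e2]
    simp
    linarith
  · unfold av
    have e1 : min (u + 1 - jb) L = min (u - jb) L + 1 := by omega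
    have e2 : u + 1 - jb - L = u - jb - L := by omega
    rw [e1, e2, pow_succ]
    have e3 : r1 * (r1⁻¹ ^ min (u - jb) L * r1⁻¹ * r2⁻¹ ^ (u - jb - L)) =
        (r1 * r1⁻¹) * (r1⁻¹ ^ min (u - jb) L * r2⁻¹ ^ (u - jb - L)) := by ring
    rw [e3, mul_inv_cancel₀ h3.ne', one_mul]

theorem av_ge {r1 r2 : ℝ} (h1 : 1 ≤ r1) (h2 : r1 ≤ r2) (jb L n : ℕ) :
    r2⁻¹ ^ n ≤ av r1 r2 jb L (jb + n) := by
  have h3 : 0 < r1 := by linarith
  have h4 : 0 < r2 := by linarith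
  unfold av
  have e1 : jb + n - jb = n := by omega
  rw [e1]
  have e2 : r2⁻¹ ^ n = r2⁻¹ ^ min n L * r2⁻¹ ^ (n - L) := by
    rw [← pow_add]
    congr 1
    omega
  rw [e2]
  have e3 : r2⁻¹ ≤ r1⁻¹ := inv_anti₀ h3 h2
  have e4 : r2⁻¹ ^ min n L ≤ r1⁻¹ ^ min n L := pow_le_pow_left₀ (by positivity) e3 _
  gcongr

theorem av_warm (r1 r2 : ℝ) {jb L n : ℕ} (hn : n ≤ L) : av r1 r2 jb L (jb + n) = r1⁻¹ ^ n := by
  unfold av
  have e1 : jb + n - jb = n := by omega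
  have e2 : n - L = 0 := by omega
  rw [e1, e2, min_eq_left hn]
  simp

theorem av_cold {r1 r2 : ℝ} (h1 : 1 ≤ r1) (h2 : r1 ≤ r2) (jb L : ℕ) :
    av r1 r2 jb L (jb + L + 1) ≤ r1⁻¹ ^ L := by
  have h3 : 0 < r1 := by linarith
  have h4 : 0 < r2 := by linarith
  have h6 : r2⁻¹ ≤ 1 := inv_le_one_of_one_le₀ (h1.trans h2)
  unfold av
  have e1 : min (jb + L + 1 - jb) L = L := by omega
  have e2 : jb + L + 1 - jb - L = 1 := by omega
  rw [e1, e2, pow_one]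
  exact mul_le_of_le_one_right (by positivity) h6

theorem av_far {r1 r2 : ℝ} (h1 : 1 ≤ r1) (h2 : r1 ≤ r2) {jb L k : ℕ} (hk : jb + L ≤ k) :
    av r1 r2 jb L k = (r2 / r1) ^ L * r2⁻¹ ^ (k - jb) := by
  have h3 : 0 < r1 := by linarith
  have h4 : 0 < r2 := by linarith
  unfold av
  have e1 : min (k - jb) L = L := by omega
  have e2 : k - jb = L + (k - jb - L) := by omega
  rw [e1]
  conv_rhs => rw [e2]
  rw [pow_add, div_eq_mul_inv, mul_pow]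
  have e3 : r2 ^ L * r2⁻¹ ^ L = 1 := by
    rw [← mul_pow, mul_inv_cancel₀ h4.ne', one_pow]
  calc r1⁻¹ ^ L * r2⁻¹ ^ (k - jb - L) = (r2 ^ L * r2⁻¹ ^ L) * (r1⁻¹ ^ L * r2⁻¹ ^ (k - jb - L)) := by
        rw [e3, one_mul]
    _ = _ := by ring

end Pool.H33.MB2
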