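import Mathlib

/-!
# Numerical facts on logarithms
-/

namespace Pool.H33.MB2

open Real

theorem log2_gt : 0.6931 ≤ log 2 := by
  have := Real.log_two_gt_d9
  linarith

theorem log2_lt : log 2 ≤ 0.6932 := by
  have := Real.log_two_lt_d9
  linarith

theorem log3_le : 41 * log 3 ≤ 65 * log 2 := by
  have h1 : (41 : ℝ) * log 3 = log (3 ^ 41) := by
    rw [Real.log_pow]; norm_num
  have h2 : (65 : ℝ) * log 2 = log (2 ^ 65) := by
    rw [Real.log_pow]; norm_num
  rw [h1, h2]
  exact Real.log_le_log (by norm_num) (by norm_num)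

theorem log3_ge : 84 * log 2 ≤ 53 * log 3 := by
  have h1 : (53 : ℝ) * log 3 = log (3 ^ 53) := by
    rw [Real.log_pow]; norm_num
  have h2 : (84 : ℝ) * log 2 = log (2 ^ 84) := by
    rw [Real.log_pow]; norm_num
  rw [h1, h2]
  exact Real.log_le_log (by norm_num) (by norm_num)

theorem log43_eq : log (4 / 3) = 2 * log 2 - log 3 := by
  rw [Real.log_div (by norm_num) (by norm_num), show (4 : ℝ) = 2 ^ 2 by norm_num, Real.log_pow]
  norm_num

theorem log32_eq : log (3 / 2) = log 3 - log 2 := by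
  rw [Real.log_div (by norm_num) (by norm_num)]

theorem log43_ge : 0.2873 ≤ log (4 / 3) := by
  have h1 := log3_le
  have h2 := log2_gt
  rw [log43_eq]
  linarith

theorem log43_le : log (4 / 3) ≤ 0.2878 := by
  have h1 := log3_ge
  have h2 := log2_lt
  rw [log43_eq]
  linarith

theorem log32_ge : 0.4053 ≤ log (3 / 2) := by
  have h1 := log3_ge
  have h2 := log2_gt
  rw [log32_eq]
  linarith

theorem log32_le : log (3 / 2) ≤ 0.4058 := by
  have h1 := log3_le
  have h2 := log2_lt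
  rw [log32_eq]
  linarith

/-- `ln (4/3) / ln (3/2) ≥ 17 / 24`. -/
theorem log_ratio1 : 17 * log (3 / 2) ≤ 24 * log (4 / 3) := by
  have h1 := log3_le
  rw [log43_eq, log32_eq]
  linarith

/-- `ln (4/3) / ln 2 ≤ 22 / 53`. -/
theorem log_ratio2 : 53 * log (4 / 3) ≤ 22 * log 2 := by
  have h1 := log3_ge
  rw [log43_eq]
  linarith

/-- `ln (c - δ) ≥ ln c - δ` for `c ≥ 4/3`, `δ ≤ 1/100`. -/
theorem log_sub_ge {c δ : ℝ} (hc : 4 / 3 ≤ c) (h0 : 0 ≤ δ) (h1 : δ ≤ 1 / 100) :
    log c - δ ≤ log (c - δ) := by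
  have hc0 : 0 < c := by linarith
  have h2 : 0 < c - δ := by linarith
  have h3 : log (c / (c - δ)) ≤ c / (c - δ) - 1 := Real.log_le_sub_one_of_pos (by positivity)
  rw [Real.log_div hc0.ne' h2.ne'] at h3
  have h4 : c / (c - δ) - 1 ≤ δ := by
    rw [div_sub_one h2.ne', div_le_iff₀ h2]
    nlinarith
  linarith

end Pool.H33.MB2
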