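import Pool.Agent.H33.MB2.Basic
import Pool.Agent.H33.MB2.NumLog

/-!
# The numerical facts from which the hypotheses on the numbers follow

`ℓ = ln N`, `q` the side of the lattices, `√f + ε ≤ q ≤ √f + ε + 1`.
-/

set_option linter.unusedSectionVars false

namespace Pool.H33.MB2

open Finset Real

variable {X Γ : Type*} [DecidableEq X]

/-- The size function of the values. -/
noncomputable def av (r1 r2 : ℝ) (jb L u : ℕ) : ℝ := r1⁻¹ ^ min (u - jb) L * r2⁻¹ ^ (u - jb - L)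

/-- The constant of `H1`. -/
noncomputable def κH (Y : Sys X Γ) (ε : ℝ) : ℝ := (Cg Y + 1) * (40 / (3 * ε)) + 1

/-- The constant of `n2`. -/
noncomputable def κ2 (Y : Sys X Γ) (ε : ℝ) : ℝ := ε / (200 * (Cg Y + 1))

/-- The facts on the parameters. -/
structure PF (ε ℓ : ℝ) (q : ℕ) (Y : Sys X Γ) (Q : Num2) : Prop where
  ε0 : 0 < ε
  ε1 : ε ≤ 1
  F1 : ℓ / log (3 / 2) + 2 * ℓ / log 2 + 2 * ε * q - ε ^ 2 ≤ (q : ℝ) ^ 2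
  F2 : (q : ℝ) ^ 2 ≤ ℓ / log (3 / 2) + 2 * ℓ / log 2 + 4 * q
  q1 : 1000 ≤ q
  q2 : 100000 ≤ ε * q
  q3 : log q ≤ ε * q / 20000
  q4 : Y.bs * log Y.K ≤ ε * q / 2000
  q5 : ((Y.bs : ℝ) + Y.am) * log Y.K ≤ (q : ℝ) ^ 2 / 10000
  q6 : (Mc Y : ℝ) + 4 * Cg Y + 4 ≤ ε * q / 20
  q7 : 400 * κH Y ε * q ≤ ℓ
  q8 : 5 / 2 * ((Y.m + 1) * ε / 10 + 1) * q + 1 ≤ 2 * ℓ
  q9 : 1000 * q ≤ ℓ
  k : Y.k = q ^ 2
  L : Y.L = (q ^ 2) ^ 2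
  D : (Y.D : ℝ) = exp ℓ * (q : ℝ) ^ 2
  F : (#Y.F : ℝ) ≤ exp (3 * ℓ)
  S : (#Y.S : ℝ) = exp (2 * ℓ)
  kap : Y.kap = ((q + 1) / 2) ^ 2
  δ : Y.δ = ε / (100 * q)
  K : Y.K = 800 * q / ε
  tm : Y.tm = 180
  t1 : Y.t1 = ⌊(q : ℝ) ^ 2 / 202500⌋₊
  n1 : Q.n1 = ⌊40 / (3 * ε) * q⌋₊ + 1
  n2 : Q.n2 = ⌊κ2 Y ε * q⌋₊ + 1
  nP : Q.nP = Q.n1
  τ : Q.τ = Y.δ / 200
  m : 1 / κ2 Y ε + κH Y ε + 1 ≤ 9 / 200 * ε * Y.m
  jm1 : 2 * ℓ / log 2 + ε * q / 20 ≤ Y.jm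
  jm2 : (Y.jm : ℝ) ≤ 2 * ℓ / log 2 + ε * q / 20 + 1
  jb : Y.jb = Y.jm + 1 + nb Y Q
  h6 : Y.h6 = ⌊ε * q / 12⌋₊
  H1 : Y.H1 = (Cg Y + 1) * Q.n1 + nb Y Q + Cg Y
  L1 : Y.L1 = ⌈ε * q / 2⌉₊
  L2 : Y.L2 = ⌈5 / 2 * ((Y.m + 1) * ε / 10 + 1) * q⌉₊
  G : Y.G = exp (3 * ε / 40 * q)
  c1 : Y.c1 = Y.G * (4 / 3) ^ Y.h6
  ρ2 : Y.ρ2 = (rw Y / rc Y) ^ Y.L2
  β : Y.β = Y.ρ2 * (2 / 3) ^ Y.H1
  M1 : Y.M1 = 2 * (Q.nP * (Y.k * Y.L * (Y.c1 * Y.K ^ Y.bs)))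
  ρ : Y.ρ = exp (-(16 / 5) * ℓ)
  ρP : Y.ρP = exp (-(11 / 5) * ℓ)
  ρC : Y.ρC = exp (-(99 / 50) * ℓ)
  ρG : Y.ρG = exp (-(21 / 5) * ℓ)
  gt : Y.gt = exp (ℓ / 40)
  am : Y.am = 180 * Y.cA
  a1 : ∀ u, Y.a1 u = av (rw Y) (rc Y) Y.jb Y.L1 u
  a2 : ∀ u, Y.a2 u = av (rw Y) (rc Y) Y.jb Y.L2 u

variable {ε ℓ : ℝ} {q : ℕ} {Y : Sys X Γ} {Q : Num2}

theorem PF.q0 (h : PF ε ℓ q Y Q) : (1000 : ℝ) ≤ q := by exact_mod_cast h.q1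

theorem PF.δq (h : PF ε ℓ q Y Q) : Y.δ * q = ε / 100 := by
  have := h.q0
  rw [h.δ]
  field_simp

theorem PF.δ0 (h : PF ε ℓ q Y Q) : 0 < Y.δ := by
  have := h.q0
  have := h.ε0
  rw [h.δ]
  positivity

/-- `δ ≤ 10^(-5)`. -/
theorem PF.δ1 (h : PF ε ℓ q Y Q) : Y.δ ≤ 1 / 100000 := by
  have h1 := h.q0
  have h2 := h.ε1
  have h3 := h.ε0
  rw [h.δ, div_le_div_iff₀ (by positivity) (by norm_num)]
  nlinarith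

theorem PF.lrw (h : PF ε ℓ q Y Q) : log (4 / 3) - Y.δ ≤ log (rw Y) ∧ log (rw Y) ≤ log (4 / 3) := by
  have h1 := h.δ0
  have h2 := h.δ1
  unfold rw
  refine ⟨log_sub_ge le_rfl h1.le (by linarith), Real.log_le_log (by linarith) (by linarith)⟩

theorem PF.lrc (h : PF ε ℓ q Y Q) : log (3 / 2) - Y.δ ≤ log (rc Y) ∧ log (rc Y) ≤ log (3 / 2) := by
  have h1 := h.δ0
  have h2 := h.δ1
  unfold rc
  refine ⟨log_sub_ge (by norm_num) h1.le (by linarith), Real.log_le_log (by linarith) (by linarith)⟩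

theorem PF.l2 (h : PF ε ℓ q Y Q) : log 2 - Y.δ ≤ log (2 - Y.δ) ∧ log (2 - Y.δ) ≤ log 2 := by
  have h1 := h.δ0
  have h2 := h.δ1
  refine ⟨log_sub_ge (by norm_num) h1.le (by linarith), Real.log_le_log (by linarith) (by linarith)⟩

theorem PF.rw0 (h : PF ε ℓ q Y Q) : 13 / 10 ≤ rw Y ∧ rw Y ≤ 4 / 3 := by
  have h1 := h.δ0
  have h2 := h.δ1
  unfold rw
  constructor <;> linarith

theorem PF.rc0 (h : PF ε ℓ q Y Q) : 14 / 10 ≤ rc Y ∧ rc Y ≤ 3 / 2 := by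
  have h1 := h.δ0
  have h2 := h.δ1
  unfold rc
  constructor <;> linarith

/-- `K ≥ 800000` and `log K ≥ 0`. -/
theorem PF.K0 (h : PF ε ℓ q Y Q) : 800000 ≤ Y.K := by
  have h1 := h.q0
  have h2 := h.ε1
  have h3 := h.ε0
  rw [h.K, le_div_iff₀ h3]
  nlinarith

theorem PF.Kpow (h : PF ε ℓ q Y Q) (n : ℕ) : Y.K ^ n = exp (n * log Y.K) := by
  have := h.K0
  rw [mul_comm, Real.exp_mul, Real.exp_log (by linarith), Real.rpow_natCast]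

/-- A power of a positive number. -/
theorem pow_eq_exp {a : ℝ} (ha : 0 < a) (n : ℕ) : a ^ n = exp (n * log a) := by
  rw [mul_comm, Real.exp_mul, Real.exp_log ha, Real.rpow_natCast]

theorem inv_pow_eq_exp {a : ℝ} (ha : 0 < a) (n : ℕ) : a⁻¹ ^ n = exp (-(n * log a)) := by
  rw [pow_eq_exp (inv_pos.2 ha), Real.log_inv]
  ring_nf

theorem PF.ℓ0 (h : PF ε ℓ q Y Q) : 1000000 ≤ ℓ := by
  have := h.q9
  have := h.q0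
  linarith

/-- Lower and upper bound of `q^2` in terms of `ℓ`. -/
theorem PF.qq (h : PF ε ℓ q Y Q) : 5.3 * ℓ ≤ (q : ℝ) ^ 2 ∧ (q : ℝ) ^ 2 ≤ 5.4 * ℓ := by
  have h1 := h.F1
  have h2 := h.F2
  have h3 := h.ℓ0
  have h4 := log32_ge
  have h5 := log32_le
  have h6 := log2_gt
  have h7 := log2_lt
  have h8 := h.ε0
  have h9 := h.ε1
  have h10 := h.q0
  have h11 := h.q9
  have e1 : ℓ / log (3 / 2) ≤ ℓ / 0.4053 := by gcongr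
  have e2 : ℓ / 0.4058 ≤ ℓ / log (3 / 2) := by gcongr
  have e3 : 2 * ℓ / log 2 ≤ 2 * ℓ / 0.6931 := by gcongr
  have e4 : 2 * ℓ / 0.6932 ≤ 2 * ℓ / log 2 := by gcongr
  have e5 : ε ^ 2 ≤ 2 * ε * q := by nlinarith
  constructor
  · have : ℓ / 0.4058 + 2 * ℓ / 0.6932 ≥ 5.3 * ℓ := by
      rw [ge_iff_le, div_add_div _ _ (by norm_num) (by norm_num), le_div_iff₀ (by norm_num)]
      nlinarith
    linarith
  · have : ℓ / 0.4053 + 2 * ℓ / 0.6931 ≤ 5.38 * ℓ := by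
      rw [div_add_div _ _ (by norm_num) (by norm_num), div_le_iff₀ (by norm_num)]
      nlinarith
    linarith

theorem PF.Cg1 (h : PF ε ℓ q Y Q) : (180 : ℝ) ≤ Cg Y := by
  have : 180 ≤ Cg Y := by
    unfold Cg
    rw [h.tm]
    omega
  exact_mod_cast this

/-- Bound for `nb`. -/
theorem PF.nbb (h : PF ε ℓ q Y Q) : (nb Y Q : ℝ) ≤ ε * q / 100 + 3 * Cg Y + 2 := by
  have h1 := h.ε0
  have h2 := h.q0
  have h3 := h.Cg1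
  have e0 : 0 ≤ κ2 Y ε * q := by unfold κ2; positivity
  have e1 : (Q.n2 : ℝ) ≤ κ2 Y ε * q + 1 := by
    rw [h.n2]
    push_cast
    linarith [Nat.floor_le e0]
  have e2 : (nb Y Q : ℝ) = 2 * (Cg Y + 1) * Q.n2 + Cg Y := by
    unfold nb nb1
    push_cast
    ring
  have e3 : 2 * ((Cg Y : ℝ) + 1) * (κ2 Y ε * q) = ε * q / 100 := by
    unfold κ2
    field_simp
    ring
  rw [e2]
  have e4 : 2 * ((Cg Y : ℝ) + 1) * Q.n2 ≤ 2 * ((Cg Y : ℝ) + 1) * (κ2 Y ε * q + 1) := by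
    gcongr
  nlinarith

theorem PF.nbb' (h : PF ε ℓ q Y Q) : (nb Y Q : ℝ) ≤ ε * q * 0.06 := by
  have h1 := h.nbb
  have h2 := h.q6
  have h3 : (0 : ℝ) ≤ Mc Y := Nat.cast_nonneg _
  have h4 := h.Cg1
  nlinarith [h.q2]

/-- `jb ≤ 2 log_2 N + 0.12 ε q`. -/
theorem PF.jbb (h : PF ε ℓ q Y Q) : (Y.jb : ℝ) ≤ 2 * ℓ / log 2 + 0.12 * (ε * q) := by
  have h1 := h.nbb'
  have h2 := h.jm2
  have h3 := h.q2
  rw [h.jb]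
  push_cast
  linarith

theorem PF.kq (h : PF ε ℓ q Y Q) : (Y.k : ℝ) = (q : ℝ) ^ 2 := by
  rw [h.k]
  push_cast
  ring

/-- `k - jb ≥ log_{3/2} N + 1.8 ε q`. -/
theorem PF.kj (h : PF ε ℓ q Y Q) : ℓ / log (3 / 2) + 1.8 * (ε * q) ≤ (Y.k : ℝ) - Y.jb := by
  have h1 := h.jbb
  have h2 := h.F1
  have h3 := h.q2
  have h4 := h.ε0
  have h5 := h.ε1
  rw [h.kq]
  have e1 : ε ^ 2 ≤ 1 := by nlinarith
  linarith

theorem PF.jk (h : PF ε ℓ q Y Q) : Y.jb ≤ Y.k := by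
  have h1 := h.kj
  have h2 := h.q2
  have h3 := h.ℓ0
  have h4 := log32_ge
  have h5 : 0 ≤ ℓ / log (3 / 2) := by positivity
  have : (Y.jb : ℝ) ≤ Y.k := by linarith
  exact_mod_cast this

/-- `k - jb` as a real number. -/
theorem PF.kjc (h : PF ε ℓ q Y Q) : ((Y.k - Y.jb : ℕ) : ℝ) = (Y.k : ℝ) - Y.jb := by
  rw [Nat.cast_sub h.jk]

/-- `δ n ≤ ε q / 100` for `n ≤ k`. -/
theorem PF.δk (h : PF ε ℓ q Y Q) : Y.δ * Y.k = ε * q / 100 := by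
  rw [h.kq, sq, ← mul_assoc, h.δq]
  ring

theorem PF.H1b (h : PF ε ℓ q Y Q) : (Y.H1 : ℝ) ≤ κH Y ε * q := by
  have h1 := h.nbb'
  have h2 := h.q6
  have h3 := h.ε0
  have h4 := h.ε1
  have h5 := h.q0
  have h6 := h.Cg1
  have h7 : (0 : ℝ) ≤ Mc Y := Nat.cast_nonneg _
  have e0 : 0 ≤ 40 / (3 * ε) * q := by positivity
  have e1 : (Q.n1 : ℝ) ≤ 40 / (3 * ε) * q + 1 := by
    rw [h.n1]
    push_cast
    linarith [Nat.floor_le e0]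
  rw [h.H1]
  push_cast
  unfold κH
  have e2 : ((Cg Y : ℝ) + 1) * Q.n1 ≤ ((Cg Y : ℝ) + 1) * (40 / (3 * ε) * q + 1) := by gcongr
  have e3 : ε * q ≤ q := by nlinarith
  nlinarith

end Pool.H33.MB2
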