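import Pool.Agent.H33.MB2.NumA
import Pool.Agent.H33.MB2.NumDefs

/-!
# MB2 NUB: the values

* `G = exp (..) ≥ 1`, `c1 = G (4/3)^h6 ≥ 1`, `ρ2 = (rw / rc)^L2 > 0`, `β > 0`.
* `M1 = 2 nP k L c1 K^bs ≥ c1 K^bs` as `nP = n1 ≥ 1`, `k, L ≥ 1`; `K ≥ 1`.
* `hG`: `h6 ≤ L1` (`⌊εq/12⌋ ≤ ⌈εq/2⌉`), so `a1 (jb + h6) = rw⁻¹ ^ h6` (`av_warm`), and `(4/3)^h6 * rw⁻¹ ^ h6 ≥ 1` (`rw ≤ 4/3`).
* `hβ`: `a2 (jb + H1) ≥ rc⁻¹ ^ H1 ≥ (2/3)^H1` (`av_ge`, `rc ≤ 3/2`).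
* `c1_le`: `log c1 = 3εq/40 + h6 log (4/3) ≤ 0.075 εq + (εq/12) * 0.2878 ≤ 0.099 εq`.
* `M1_le`: `nP = n1 ≤ 40 q/(3ε) + 1 ≤ q^2` (`εq ≥ 10^5`), so `2 nP k L ≤ 2 q^8` and `M1 ≤ exp (log 2 + 8 log q + 0.099 εq + εq/2000)`.
-/

set_option linter.unusedSectionVars false

namespace Pool.H33.MB2

open Finset Real

variable {X Γ : Type*} [DecidableEq X] {ε ℓ : ℝ} {q : ℕ} {Y : Sys X Γ} {Q : Num2}

theorem PF.c1_ge (h : PF ε ℓ q Y Q) : 1 ≤ Y.G ∧ Y.G ≤ Y.c1 := by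
  have h1 := h.q0
  have h2 := h.ε0
  have e1 : 1 ≤ Y.G := by
    rw [h.G]
    exact Real.one_le_exp (by positivity)
  refine ⟨e1, ?_⟩
  rw [h.c1]
  have e2 : (1 : ℝ) ≤ (4 / 3) ^ Y.h6 := one_le_pow₀ (by norm_num)
  nlinarith

theorem PF.c1_le (h : PF ε ℓ q Y Q) : Y.c1 ≤ exp (0.099 * (ε * q)) := by
  have h1 := h.q0
  have h2 := h.ε0
  have h3 := log43_le
  have h4 := log43_ge
  rw [h.c1, h.G, pow_eq_exp (by norm_num : (0 : ℝ) < 4 / 3), ← Real.exp_add]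
  refine Real.exp_le_exp.2 ?_
  have e1 : (Y.h6 : ℝ) ≤ ε * q / 12 := by
    rw [h.h6]
    exact Nat.floor_le (by positivity)
  have e2 : (Y.h6 : ℝ) * log (4 / 3) ≤ ε * q / 12 * 0.2878 := by gcongr
  have e3 : 0 < ε * q := by positivity
  nlinarith

theorem PF.pos (h : PF ε ℓ q Y Q) : 0 < Y.c1 ∧ 0 < Y.ρ2 ∧ 0 < Y.β := by
  have h1 := h.c1_ge
  have h2 : 0 < Y.ρ2 := by
    have h3 := h.rw0
    have h4 := h.rc0
    rw [h.ρ2]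
    have : 0 < rw Y := by linarith
    have : 0 < rc Y := by linarith
    positivity
  refine ⟨by linarith, h2, ?_⟩
  rw [h.β]
  positivity

theorem PF.M1_ge (h : PF ε ℓ q Y Q) : 1 ≤ Y.M1 ∧ Y.c1 * Y.K ^ Y.bs ≤ Y.M1 := by
  have h1 := h.c1_ge
  have h2 := h.K0
  have h3 : 1 ≤ Y.K ^ Y.bs := one_le_pow₀ (by linarith)
  have h4 : 1 ≤ Y.c1 * Y.K ^ Y.bs := by nlinarith
  have h5 : (1 : ℝ) ≤ Q.nP := by
    rw [h.nP, h.n1]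
    push_cast
    have : (0 : ℝ) ≤ (⌊40 / (3 * ε) * q⌋₊ : ℝ) := Nat.cast_nonneg _
    linarith
  have h6 : (1 : ℝ) ≤ Y.k := by
    rw [h.kq]
    have := h.q0
    nlinarith
  have h7 : (1 : ℝ) ≤ Y.L := by
    have : 1 ≤ Y.L := by
      rw [h.L]
      exact Nat.one_le_pow _ _ (Nat.pow_pos (by have := h.q1; omega))
    exact_mod_cast this
  have h8 : 1 ≤ (Y.k : ℝ) * Y.L := by nlinarith
  have h9 : Y.c1 * Y.K ^ Y.bs ≤ Y.k * Y.L * (Y.c1 * Y.K ^ Y.bs) := by nlinarith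
  have h10 : Y.k * Y.L * (Y.c1 * Y.K ^ Y.bs) ≤ Q.nP * (Y.k * Y.L * (Y.c1 * Y.K ^ Y.bs)) := by
    nlinarith
  rw [h.M1]
  constructor <;> linarith

theorem PF.M1_le (h : PF ε ℓ q Y Q) :
    Y.M1 ≤ exp (log 2 + 8 * log q + 0.099 * (ε * q) + ε * q / 2000) := by
  have hq := h.q0
  have hε := h.ε0
  have h1 := h.c1_le
  have h2 := h.Kpow Y.bs
  have h3 := h.q4
  have h4 : Y.K ^ Y.bs ≤ exp (ε * q / 2000) := by
    rw [h2]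
    exact Real.exp_le_exp.2 h3
  have hc := h.pos.1
  have h5 : (Q.nP : ℝ) ≤ (q : ℝ) ^ 2 := by
    rw [h.nP, h.n1]
    push_cast
    have e1 : (⌊40 / (3 * ε) * q⌋₊ : ℝ) ≤ 40 / (3 * ε) * q := Nat.floor_le (by positivity)
    have e2 : 40 / (3 * ε) ≤ (q : ℝ) / 2 := by
      rw [div_le_iff₀ (by positivity)]
      have := h.q2
      nlinarith
    nlinarith
  have h6 : (Y.L : ℝ) = (q : ℝ) ^ 4 := by
    rw [h.L]
    push_cast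
    ring
  have h7 : exp (log 2 + 8 * log q + 0.099 * (ε * q) + ε * q / 2000) =
      2 * (q : ℝ) ^ 8 * (exp (0.099 * (ε * q)) * exp (ε * q / 2000)) := by
    have hq' : (0 : ℝ) < q := by linarith
    rw [Real.exp_add, Real.exp_add, Real.exp_add, Real.exp_log (by norm_num),
      pow_eq_exp hq' 8]
    push_cast
    ring
  rw [h7, h.M1, h.kq, h6]
  have e1 : Y.c1 * Y.K ^ Y.bs ≤ exp (0.099 * (ε * q)) * exp (ε * q / 2000) := by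
    have := h.K0
    gcongr
  have e0 : 0 ≤ Y.c1 * Y.K ^ Y.bs := by
    have := h.K0
    positivity
  calc 2 * ((Q.nP : ℝ) * ((q : ℝ) ^ 2 * (q : ℝ) ^ 4 * (Y.c1 * Y.K ^ Y.bs)))
      ≤ 2 * ((q : ℝ) ^ 2 * ((q : ℝ) ^ 2 * (q : ℝ) ^ 4 *
        (exp (0.099 * (ε * q)) * exp (ε * q / 2000)))) := by gcongr
    _ = _ := by ring

theorem PF.hG (h : PF ε ℓ q Y Q) : Y.G ≤ Y.c1 * Y.a1 (Y.jb + Y.h6) := by
  have hq := h.q0
  have hε := h.ε0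
  have hc := h.c1_ge
  have hw := h.rw0
  have e1 : Y.h6 ≤ Y.L1 := by
    rw [h.h6, h.L1]
    refine (Nat.floor_le_floor (show ε * q / 12 ≤ ε * q / 2 by nlinarith [mul_pos hε (show (0 : ℝ) < q by linarith)])).trans ?_
    exact Nat.floor_le_ceil _
  rw [h.a1, av_warm _ _ e1, h.c1, mul_assoc, ← mul_pow]
  have e2 : 1 ≤ 4 / 3 * (rw Y)⁻¹ := by
    have : 0 < rw Y := by linarith
    rw [← div_eq_mul_inv, one_le_div this]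
    exact hw.2
  have e3 := one_le_pow₀ e2 (n := Y.h6)
  nlinarith

theorem PF.hβ (h : PF ε ℓ q Y Q) : Y.β ≤ Y.ρ2 * Y.a2 (Y.jb + Y.H1) := by
  have hw := h.rw0
  have hc := h.rc0
  have h1 := h.pos.2.1
  rw [h.β, h.a2]
  have e1 : (rc Y)⁻¹ ^ Y.H1 ≤ av (rw Y) (rc Y) Y.jb Y.L2 (Y.jb + Y.H1) :=
    av_ge (by linarith) rw_le_rc _ _ _
  have e2 : (2 / 3 : ℝ) ^ Y.H1 ≤ (rc Y)⁻¹ ^ Y.H1 := by
    refine pow_le_pow_left₀ (by norm_num) ?_ _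
    have : 0 < rc Y := by linarith
    rw [show (2 / 3 : ℝ) = (3 / 2)⁻¹ by norm_num]
    exact inv_anti₀ this hc.2
  have := e2.trans e1
  gcongr

end Pool.H33.MB2
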