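import Pool.Agent.H33.MB2.NumB

/-!
# MB2 NUC: the certificates are heavy

Write `G = exp (cg q)`, `cg = 3 ε / 40`.
* `x1`: `n1 ≥ 40 q / (3 ε) = q / cg` (`Nat.lt_floor_add_one`), so `G^n1 ≥ exp (q^2)`, `q^2 ≥ 5.3 ℓ`, `ρ = exp (-3.2 ℓ)`.
* `x2`, `xG`: `log β = L2 (log rw - log rc) - H1 log (3/2) ≥ -0.12 L2 - 0.41 H1` (`lrw`, `lrc`: `log rc - log rw ≤ log (3/2) - log (4/3) + δ ≤ 0.12`),
  `L2 ≤ 5/2 ((m+1) ε/10 + 1) q + 1`, `H1 ≤ κH q` (`H1b`).  So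
  `log (β G^m) ≥ q (0.075 ε m - 0.03 ε (m + 1) - 0.3 - 0.41 κH) - 0.12 ≥ q (0.045 ε m - 0.03 ε - 0.3 - 0.41 κH - 0.01) ≥ q / κ2`
  by `PF.m` (`0.045 ε m ≥ 1/κ2 + κH + 1`).  So `β G^m ≥ exp (q / κ2) ≥ 1` and, as `n2 ≥ κ2 q`, `(β G^m)^n2 ≥ exp (q^2)`.
* `ps`: `M1 / 2 = nP * (k L c1 K^bs)`, `nP! ≤ nP^nP` (`Nat.factorial_le_pow`), so
  `(M1/2)^nP / nP! ≥ (k L c1 K^bs)^nP ≥ G^n1 ≥ exp (q^2)`; `ρP = exp (-2.2 ℓ)`.
* `ps2`: equality.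
-/

set_option linter.unusedSectionVars false

namespace Pool.H33.MB2

open Finset Real

variable {X Γ : Type*} [DecidableEq X] {ε ℓ : ℝ} {q : ℕ} {Y : Sys X Γ} {Q : Num2}

theorem PF.n1g (h : PF ε ℓ q Y Q) : exp ((q : ℝ) ^ 2) ≤ Y.G ^ Q.n1 := by
  have hq := h.q0
  have hε := h.ε0
  have e2 : 40 / (3 * ε) * q < (Q.n1 : ℝ) := by
    rw [h.n1]
    push_cast
    exact Nat.lt_floor_add_one _
  rw [h.G, ← Real.exp_nat_mul]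
  refine Real.exp_le_exp.2 ?_
  have e3 : 40 / (3 * ε) * q * (3 * ε / 40 * q) = (q : ℝ) ^ 2 := by
    field_simp
  have e4 : 40 / (3 * ε) * q * (3 * ε / 40 * q) ≤ Q.n1 * (3 * ε / 40 * q) := by gcongr
  linarith

theorem PF.x1 (h : PF ε ℓ q Y Q) : 1 / 16 < Y.ρ * Y.G ^ Q.n1 := by
  have h1 := h.n1g
  have h2 := h.qq
  have h3 := h.ℓ0
  rw [h.ρ]
  have e1 : exp (-(16 / 5) * ℓ) * exp ((q : ℝ) ^ 2) ≤ exp (-(16 / 5) * ℓ) * Y.G ^ Q.n1 := by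
    gcongr
  rw [← Real.exp_add] at e1
  have e2 : 1 ≤ exp (-(16 / 5) * ℓ + (q : ℝ) ^ 2) := Real.one_le_exp (by linarith)
  linarith

theorem PF.βG (h : PF ε ℓ q Y Q) : exp (q / κ2 Y ε) ≤ Y.β * Y.G ^ Y.m := by
  have hq := h.q0
  have hε := h.ε0
  have hε1 := h.ε1
  have hw := h.rw0
  have hc := h.rc0
  have hδ := h.δ1
  have h1 := h.lrw
  have h2 := h.lrc
  have h3 := log43_ge
  have h4 := log32_le
  have h5 := log32_ge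
  have hwp : 0 < rw Y := by linarith
  have hcp : 0 < rc Y := by linarith
  have hH := h.H1b
  have hm := h.m
  have hκ : 1 ≤ κH Y ε := by
    unfold κH
    have := h.Cg1
    have : 0 ≤ ((Cg Y : ℝ) + 1) * (40 / (3 * ε)) := by positivity
    linarith
  have hL2 : (Y.L2 : ℝ) ≤ 5 / 2 * ((Y.m + 1) * ε / 10 + 1) * q + 1 := by
    rw [h.L2]
    exact (Nat.ceil_lt_add_one (by positivity)).le
  rw [h.β, h.ρ2, h.G, pow_eq_exp (by positivity : 0 < rw Y / rc Y), Real.log_div hwp.ne' hcp.ne',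
    pow_eq_exp (by norm_num : (0 : ℝ) < 2 / 3), ← Real.exp_nat_mul, ← Real.exp_add,
    ← Real.exp_add]
  refine Real.exp_le_exp.2 ?_
  have e0 : log (2 / 3) = -log (3 / 2) := by
    rw [← Real.log_inv]
    norm_num
  rw [e0]
  have e1 : -0.12 ≤ log (rw Y) - log (rc Y) := by linarith
  have e2 : (Y.L2 : ℝ) * (-0.12) ≤ Y.L2 * (log (rw Y) - log (rc Y)) := by gcongr
  have e3 : (Y.H1 : ℝ) * log (3 / 2) ≤ κH Y ε * q * 0.41 := by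
    have : log (3 / 2) ≤ 0.41 := by linarith
    gcongr
  have e4 : (1 / κ2 Y ε + κH Y ε + 1) * q ≤ 9 / 200 * ε * Y.m * q := by gcongr
  have e5 : (1 / κ2 Y ε + κH Y ε + 1) * q = q / κ2 Y ε + κH Y ε * q + q := by ring
  have e6 : 1 * (q : ℝ) ≤ κH Y ε * q := by gcongr
  have e7 : ε * q ≤ q := by nlinarith
  have e8 : (Y.m : ℝ) * (3 * ε / 40 * q) = 3 / 40 * (ε * Y.m * q) := by ring
  have e9 : 5 / 2 * (((Y.m : ℝ) + 1) * ε / 10 + 1) * q =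
      1 / 4 * (ε * Y.m * q) + 1 / 4 * (ε * q) + 5 / 2 * q := by ring
  rw [e9] at hL2
  rw [e5] at e4
  have e10 : (9 / 200 * ε * Y.m * q : ℝ) = 9 / 200 * (ε * Y.m * q) := by ring
  rw [e10] at e4
  rw [e8]
  linarith

theorem PF.xG (h : PF ε ℓ q Y Q) : 1 ≤ Y.β * Y.G ^ Y.m := by
  have hq := h.q0
  have hκ : 0 < κ2 Y ε := by
    unfold κ2
    have := h.ε0
    have := h.Cg1
    positivity
  exact (Real.one_le_exp (by positivity)).trans h.βG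

theorem PF.x2 (h : PF ε ℓ q Y Q) : 1 / 16 < Y.ρ * (Y.β * Y.G ^ Y.m) ^ Q.n2 := by
  have hq := h.q0
  have h2 := h.qq
  have h3 := h.ℓ0
  have hκ : 0 < κ2 Y ε := by
    unfold κ2
    have := h.ε0
    have := h.Cg1
    positivity
  have e1 : κ2 Y ε * q < (Q.n2 : ℝ) := by
    rw [h.n2]
    push_cast
    exact Nat.lt_floor_add_one _
  have e2 : exp ((q : ℝ) ^ 2) ≤ (Y.β * Y.G ^ Y.m) ^ Q.n2 := by
    have e3 : exp (q / κ2 Y ε) ^ Q.n2 ≤ (Y.β * Y.G ^ Y.m) ^ Q.n2 :=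
      pow_le_pow_left₀ (Real.exp_pos _).le h.βG _
    refine le_trans ?_ e3
    rw [← Real.exp_nat_mul]
    refine Real.exp_le_exp.2 ?_
    have e4 : κ2 Y ε * q * (q / κ2 Y ε) ≤ Q.n2 * (q / κ2 Y ε) := by gcongr
    have e5 : κ2 Y ε * q * (q / κ2 Y ε) = (q : ℝ) ^ 2 := by field_simp
    linarith
  rw [h.ρ]
  have e3 : exp (-(16 / 5) * ℓ) * exp ((q : ℝ) ^ 2) ≤
      exp (-(16 / 5) * ℓ) * (Y.β * Y.G ^ Y.m) ^ Q.n2 := by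
    gcongr
  rw [← Real.exp_add] at e3
  have e4 : 1 ≤ exp (-(16 / 5) * ℓ + (q : ℝ) ^ 2) := Real.one_le_exp (by linarith)
  linarith

theorem PF.ps (h : PF ε ℓ q Y Q) : 1 / 16 < Y.ρP * (Y.M1 / 2) ^ Q.nP / (Q.nP).factorial := by
  have h1 := h.n1g
  have h2 := h.qq
  have h3 := h.ℓ0
  have hK := h.K0
  have hc := h.c1_ge
  have e1 : Y.M1 / 2 = Q.nP * (Y.k * Y.L * (Y.c1 * Y.K ^ Y.bs)) := by
    rw [h.M1]
    ring
  have h6 : (1 : ℝ) ≤ Y.k := by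
    rw [h.kq]
    have := h.q0
    nlinarith
  have h7 : (1 : ℝ) ≤ Y.L := by
    have : 1 ≤ Y.L := by
      rw [h.L]
      exact Nat.one_le_pow _ _ (Nat.pow_pos (by have := h.q1; omega))
    exact_mod_cast this
  have h8 : 1 ≤ (Y.k : ℝ) * Y.L := by nlinarith
  have h9 : 1 ≤ Y.K ^ Y.bs := one_le_pow₀ (by linarith)
  have h10 : Y.G ≤ Y.k * Y.L * (Y.c1 * Y.K ^ Y.bs) := by
    have e2 : Y.c1 ≤ Y.c1 * Y.K ^ Y.bs := by nlinarith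
    have e3 : Y.c1 * Y.K ^ Y.bs ≤ Y.k * Y.L * (Y.c1 * Y.K ^ Y.bs) := by nlinarith
    linarith
  have hf : (0 : ℝ) < (Q.nP).factorial := by exact_mod_cast Nat.factorial_pos _
  have hG0 : 0 ≤ Y.G := by linarith
  have e4 : Y.G ^ Q.nP ≤ (Y.M1 / 2) ^ Q.nP / (Q.nP).factorial := by
    rw [e1, mul_pow, le_div_iff₀ hf]
    have e5 : ((Q.nP).factorial : ℝ) ≤ (Q.nP : ℝ) ^ Q.nP := by
      exact_mod_cast Nat.factorial_le_pow _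
    have e6 : Y.G ^ Q.nP ≤ (Y.k * Y.L * (Y.c1 * Y.K ^ Y.bs)) ^ Q.nP :=
      pow_le_pow_left₀ hG0 h10 _
    have e60 : 0 ≤ (Y.k * Y.L * (Y.c1 * Y.K ^ Y.bs)) ^ Q.nP := (pow_nonneg hG0 _).trans e6
    calc Y.G ^ Q.nP * ((Q.nP).factorial : ℝ) ≤
          (Y.k * Y.L * (Y.c1 * Y.K ^ Y.bs)) ^ Q.nP * (Q.nP : ℝ) ^ Q.nP :=
          mul_le_mul e6 e5 hf.le e60
      _ = _ := by ring
  rw [← h.nP] at h1
  rw [mul_div_assoc, h.ρP]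
  have e7 : exp (-(11 / 5) * ℓ) * exp ((q : ℝ) ^ 2) ≤
      exp (-(11 / 5) * ℓ) * ((Y.M1 / 2) ^ Q.nP / (Q.nP).factorial) := by
    have := h1.trans e4
    gcongr
  rw [← Real.exp_add] at e7
  have e8 : 1 ≤ exp (-(11 / 5) * ℓ + (q : ℝ) ^ 2) := Real.one_le_exp (by linarith)
  linarith

theorem PF.ps2 (h : PF ε ℓ q Y Q) :
    (Q.nP : ℝ) * (Y.k * Y.L * (Y.c1 * Y.K ^ Y.bs)) ≤ Y.M1 / 2 := by
  rw [h.M1]
  linarith

end Pool.H33.MB2
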