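import Pool.Agent.H33.MB2.TurnA

/-!
# MB2 TURC: one hot and one cold point

`y` hot, `z` not hot (`sp z = 0`, no alive box contains `z`).  `cz`, `wz`: weight of the surviving structures which are cold active at `z`, resp. active but not
cold at `z`; `phr z = cz + wz`.
* `hc_G`: `Sm s1 - Sm s ≤ (1 - δ) sp y`.  For `T ∈ sur` the growth `rf_y rf_z - 1` is: active at `y` only: `≤ 1/2 - δ ≤ 1 - δ`;
  cold at `z` only: `1/2 - δ`; active, not cold at `z` only: `1/3 - δ`; active at `y` and at `z`: `≤ rc^2 - 1 ≤ 5/4 - 2 δ ≤ (1 - δ) + (1/3 - δ)`.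
* `hc_H`: `s2 = reply s1 ⟨y, A, x⟩`.  `T` active at `y`: `W s2 T ≤ W s1 T / K ≤ (9/4) W s T / K` (`st_W`, `cl_W`), so
  `W s2 T - W s T ≤ -(1 - 4/K) W s T`.  Joined sets with `y` in the box: `smW s2 ≤ smW s1 / K ≤ 2 smW s / K` (`st_sm`, `cl_sm`;
  `z` is in no alive box).  The other structures: `W s2 T ≤ W s1 T` (`reply_W`, `addB_W`), growth at `z` only.  Note
  `phr y ≤ Σ_{act y} W s T`; structures not surviving only lose weight.
* `hc_phi`: for `p` free in `s2`: structures active at `p` in `s2` are active in `s` (`reply_act`, `acts_W`, `act_W'`).  Those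
  active at `y` do not grow (`9/4 ≤ K`).  The others grow by `rf_z - 1`: cold at `z`: at most `1/2` times
  `Σ_{T ∈ sur, cold at z, active at p} W s T ≤ 6 τ (κ + phr p) ≤ 12 τ κ` (`tiny_W`, `phr_le'`, `hκ'`; `p ≠ z`, `p` free in `s1`);
  not cold at `z`: at most `(1/3 - δ) wz`.
-/

set_option linter.unusedSectionVars false

namespace Pool.H33.MB2

open Finset
open scoped Classical

variable {X Γ : Type*} [DecidableEq X] {Y : Sys X Γ} {Q : Num2}
  {Lg : List (Entry X) → Finset X → Finset X → Prop} {s : State X}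

/-- Surviving cold weight at `p`. -/
noncomputable def cw (Y : Sys X Γ) (s : State X) (y z p : X) : ℝ :=
  ∑ T ∈ (sur Y s y z).filter (cact Y s p), W Y s T

/-- Surviving warm weight at `p`. -/
noncomputable def ww (Y : Sys X Γ) (s : State X) (y z p : X) : ℝ :=
  ∑ T ∈ (sur Y s y z).filter (fun T => act Y s p T ∧ ¬ cact Y s p T), W Y s T

theorem phr_eq (y z p : X) : phr Y s y z p = cw Y s y z p + ww Y s y z p := by
  unfold phr cw ww
  rw [sum_filter, sum_filter, sum_filter, ← sum_add_distrib]
  refine sum_congr rfl fun T _ => ?_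
  by_cases h : cact Y s p T
  · rw [if_pos (cact_act h), if_pos h, if_neg (fun h' => h'.2 h), add_zero]
  · by_cases h' : act Y s p T
    · rw [if_pos h', if_neg h, if_pos ⟨h', h⟩, zero_add]
    · rw [if_neg h', if_neg h, if_neg (fun h'' => h' h''.1), zero_add]

/-- weights of joined sets after the claims, `z` not hot -/
theorem turc_sm (hN : NumH Y Q) {y z : X} (hyz : y ≠ z) (hy : y ∈ free Y s) (hz : z ∈ free Y s)
    (hcz : ¬ hot s z) {A : Finset X} (hA : A ∈ s.J) :
    smW Y (afterM s y z) A ≤ (if y ∈ s.box A then 2 - Y.δ else 1) * smW Y s A := by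
  refine (cl_sm hN hyz hy hz A).trans ?_
  by_cases h : z ∈ s.box A
  · have h1 : smW Y s A = 0 := by
      unfold smW
      rw [if_neg]
      intro h2
      exact hcz ⟨A, hA, h2, h⟩
    rw [h1, mul_zero, mul_zero]
  · rw [if_neg h, mul_one]

theorem turc_rr (hN : NumH Y Q) : rc Y * rc Y ≤ 9 / 4 := by
  have h1 := rc_le hN
  have h2 := rw_ge hN
  have h3 := rw_le_rc (Y := Y)
  nlinarith

theorem turc_W9 (hF : FamH Y) (hN : NumH Y Q) (g : Good Y Lg s) {y z : X} (hyz : y ≠ z)
    (hy : y ∈ free Y s) (hz : z ∈ free Y s) {T : Big X} (hT : T ∈ bigI Y) :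
    W Y (afterM s y z) T / Y.K ≤ 4 / Y.K * W Y s T := by
  have h1 := cl_W hF hN g hyz hy hz hT
  have h2 := W_nonneg hN g T
  have h3 := rf_le (s := s) hN y T
  have h4 := rf_le (s := s) hN z T
  have h5 := rf_ge (s := s) hN y T
  have h6 := rf_ge (s := s) hN z T
  have h7 := turc_rr hN
  have hK := K_pos hN
  have h8 : rf Y s y T * rf Y s z T ≤ rc Y * rc Y :=
    mul_le_mul h3 h4 (by linarith) (by linarith)
  have h9 : rf Y s y T * rf Y s z T * W Y s T ≤ 4 * W Y s T :=
    mul_le_mul_of_nonneg_right (by linarith) h2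
  rw [div_mul_eq_mul_div]
  exact div_le_div_of_nonneg_right (h1.trans h9) hK.le

/-- growth if `T` is not active at `y` -/
theorem turc_Wz (hF : FamH Y) (hN : NumH Y Q) (g : Good Y Lg s) {y z : X} (hyz : y ≠ z)
    (hy : y ∈ free Y s) (hz : z ∈ free Y s) {T : Big X} (hT : T ∈ bigI Y)
    (ha : ¬ act Y s y T) :
    W Y (afterM s y z) T ≤ W Y s T + (1 / 2 - Y.δ) * (if cact Y s z T then W Y s T else 0) +
      (1 / 3 - Y.δ) * (if act Y s z T ∧ ¬ cact Y s z T then W Y s T else 0) := by
  have h1 := cl_W hF hN g hyz hy hz hT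
  have h2 : rf Y s y T = 1 := if_neg ha
  rw [h2, one_mul] at h1
  refine h1.trans (le_of_eq ?_)
  unfold rf
  by_cases h : cact Y s z T
  · rw [if_pos (cact_act h), if_pos h, if_pos h, if_neg (fun h' => h'.2 h)]
    unfold rc
    ring
  · by_cases h' : act Y s z T
    · rw [if_pos h', if_neg h, if_neg h, if_pos ⟨h', h⟩]
      unfold rw
      ring
    · rw [if_neg h', if_neg h, if_neg (fun h'' => h' h''.1)]
      ring

theorem turc_cw (y z : X) : cw Y s y z z =
    ∑ T ∈ bigI Y, if W Y (afterM s y z) T ≠ 0 then (if cact Y s z T then W Y s T else 0)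
      else 0 := by
  unfold cw sur
  rw [sum_filter, sum_filter]

theorem turc_ww (y z : X) : ww Y s y z z =
    ∑ T ∈ bigI Y, if W Y (afterM s y z) T ≠ 0 then
      (if act Y s z T ∧ ¬ cact Y s z T then W Y s T else 0) else 0 := by
  unfold ww sur
  rw [sum_filter, sum_filter]

theorem turc_phr (y z : X) : phr Y s y z y =
    ∑ T ∈ bigI Y, if W Y (afterM s y z) T ≠ 0 then (if act Y s y T then W Y s T else 0)
      else 0 := by
  unfold phr sur
  rw [sum_filter, sum_filter]

theorem turc_sp (p : X) : sp Y s p =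
    ∑ A ∈ s.J.toFinset, if p ∈ s.box A then smW Y s A else 0 := by
  unfold sp
  rw [sum_filter]

theorem hc_G (hF : FamH Y) (hN : NumH Y Q) (g : Good Y Lg s) {y z : X} (hyz : y ≠ z)
    (hy : y ∈ free Y s) (hz : z ∈ free Y s) (hcz : ¬ hot s z) :
    Phi Y (afterM s y z) ≤ Phi Y s + (1 - Y.δ) * (sp Y s y + phr Y s y z y) +
      (1 / 2 - Y.δ) * cw Y s y z z + (1 / 3 - Y.δ) * ww Y s y z z := by
  have hδ0 := hN.δpos
  have hδ1 := hN.δle
  have hS : Sm Y (afterM s y z) ≤ Sm Y s + (1 - Y.δ) * sp Y s y := by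
    rw [turc_sp, mul_sum]
    unfold Sm
    rw [← sum_add_distrib]
    refine sum_le_sum fun A hA => ?_
    refine (turc_sm hN hyz hy hz hcz (List.mem_toFinset.1 hA)).trans (le_of_eq ?_)
    split_ifs <;> ring
  have hB : ∑ T ∈ bigI Y, W Y (afterM s y z) T ≤ ∑ T ∈ bigI Y, W Y s T +
      (1 - Y.δ) * phr Y s y z y + (1 / 2 - Y.δ) * cw Y s y z z +
      (1 / 3 - Y.δ) * ww Y s y z z := by
    rw [turc_phr, turc_cw, turc_ww, mul_sum, mul_sum, mul_sum, ← sum_add_distrib,
      ← sum_add_distrib, ← sum_add_distrib]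
    refine sum_le_sum fun T hT => ?_
    have h0 := W_nonneg hN g T
    by_cases hW : W Y (afterM s y z) T ≠ 0
    · rw [if_pos hW, if_pos hW, if_pos hW]
      by_cases ha : act Y s y T
      · have h1 := cl_W hF hN g hyz hy hz hT
        rw [if_pos ha]
        have h3 := rf_le (s := s) hN y T
        have h5 := rf_ge (s := s) hN y T
        have h6 := rf_ge (s := s) hN z T
        have h4 : rf Y s y T * rf Y s z T * W Y s T ≤ rc Y * rf Y s z T * W Y s T :=
          mul_le_mul_of_nonneg_right (mul_le_mul_of_nonneg_right h3 (by linarith)) h0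
        refine h1.trans (h4.trans ?_)
        by_cases h : cact Y s z T
        · have h7 : rf Y s z T = rc Y := by
            unfold rf
            rw [if_pos (cact_act h), if_pos h]
          rw [h7, if_pos h, if_neg (fun h' => h'.2 h)]
          unfold rc
          nlinarith [mul_nonneg (mul_nonneg hδ0.le hδ0.le) h0, mul_nonneg hδ0.le h0,
            mul_nonneg (mul_nonneg hδ0.le (by linarith : (0 : ℝ) ≤ 1 / 100 - Y.δ)) h0]
        · by_cases h' : act Y s z T
          · have h7 : rf Y s z T = rw Y := by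
              unfold rf
              rw [if_pos h', if_neg h]
            rw [h7, if_neg h, if_pos ⟨h', h⟩]
            unfold rc rw
            nlinarith [mul_nonneg (mul_nonneg hδ0.le hδ0.le) h0, mul_nonneg hδ0.le h0,
              mul_nonneg (mul_nonneg hδ0.le (by linarith : (0 : ℝ) ≤ 1 / 100 - Y.δ)) h0]
          · have h7 : rf Y s z T = 1 := if_neg h'
            rw [h7, if_neg h, if_neg (fun h'' => h' h''.1)]
            unfold rc
            nlinarith
      · rw [if_neg ha, mul_zero, add_zero]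
        exact turc_Wz hF hN g hyz hy hz hT ha
    · rw [if_neg hW, if_neg hW, if_neg hW]
      rw [not_not] at hW
      rw [hW]
      linarith
  unfold Phi
  linarith

/-- after the reply the weights are at most those after the claims -/
theorem turc_W2 (hN : NumH Y Q) (hG : GeoH Y Lg) (g : Good Y Lg s) {y z : X}
    (hy : y ∈ free Y s) (hz : z ∈ free Y s) (A : Finset X) (x : X) (T : Big X) :
    W Y (reply (afterM s y z) ⟨y, A, x⟩) T ≤ W Y (afterM s y z) T := by
  have g1 := good_afterM hG g hy hz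
  exact (reply_W hN g1 ⟨y, A, x⟩ T).trans (addB_W hN g1 x T)

theorem hc_H (hF : FamH Y) (hN : NumH Y Q) (hG : GeoH Y Lg) (g : Good Y Lg s) {y z : X}
    (hyz : y ≠ z) (hy : y ∈ free Y s) (hz : z ∈ free Y s) (hcz : ¬ hot s z) {A : Finset X}
    (ht : tgt s y = some A) (x : X) :
    Phi Y (reply (afterM s y z) ⟨y, A, x⟩) ≤ Phi Y s -
      (1 - 4 / Y.K) * (sp Y s y + phr Y s y z y) +
      (1 / 2 - Y.δ) * cw Y s y z z + (1 / 3 - Y.δ) * ww Y s y z z := by
  have hδ0 := hN.δpos
  have hδ1 := hN.δle
  have hK := K_pos hN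
  have hS : Sm Y (reply (afterM s y z) ⟨y, A, x⟩) ≤ Sm Y s - (1 - 4 / Y.K) * sp Y s y := by
    rw [turc_sp, mul_sum]
    unfold Sm
    rw [← sum_sub_distrib]
    refine sum_le_sum fun C hC => ?_
    have hC' : C ∈ s.J := List.mem_toFinset.1 hC
    have h0 := smW_nonneg (s := s) hN C
    have h1 := turc_sm hN hyz hy hz hcz hC'
    by_cases hyC : y ∈ s.box C
    · rw [if_pos hyC] at h1 ⊢
      have h2 := st_sm hN g hy hz ht x hC' hyC
      have h3 : smW Y (afterM s y z) C / Y.K ≤ 4 / Y.K * smW Y s C := by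
        rw [div_mul_eq_mul_div]
        exact div_le_div_of_nonneg_right (by nlinarith) hK.le
      have h4 := h2.trans h3
      linarith
    · rw [if_neg hyC] at h1 ⊢
      have h2 := (smW_reply (s := afterM s y z) hN ⟨y, A, x⟩ C).trans
        (smW_addB (s := afterM s y z) hN x C)
      linarith
  have hB : ∑ T ∈ bigI Y, W Y (reply (afterM s y z) ⟨y, A, x⟩) T ≤ ∑ T ∈ bigI Y, W Y s T -
      (1 - 4 / Y.K) * phr Y s y z y + (1 / 2 - Y.δ) * cw Y s y z z +
      (1 / 3 - Y.δ) * ww Y s y z z := by
    rw [turc_phr, turc_cw, turc_ww, mul_sum, mul_sum, mul_sum, ← sum_sub_distrib,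
      ← sum_add_distrib, ← sum_add_distrib]
    refine sum_le_sum fun T hT => ?_
    have h0 := W_nonneg hN g T
    have h2 := turc_W2 hN hG g hy hz A x T
    by_cases hW : W Y (afterM s y z) T ≠ 0
    · rw [if_pos hW, if_pos hW, if_pos hW]
      by_cases ha : act Y s y T
      · have h3 := (st_W hF hN g hy hz ht x hT ha).trans (turc_W9 hF hN g hyz hy hz hT)
        rw [if_pos ha]
        have h4 : 0 ≤ (1 / 2 - Y.δ) * (if cact Y s z T then W Y s T else 0) := by
          refine mul_nonneg (by linarith) ?_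
          split_ifs
          · exact h0
          · exact le_rfl
        have h5 : 0 ≤ (1 / 3 - Y.δ) *
            (if act Y s z T ∧ ¬ cact Y s z T then W Y s T else 0) := by
          refine mul_nonneg (by linarith) ?_
          split_ifs
          · exact h0
          · exact le_rfl
        linarith
      · rw [if_neg ha, mul_zero, sub_zero]
        exact h2.trans (turc_Wz hF hN g hyz hy hz hT ha)
    · rw [if_neg hW, if_neg hW, if_neg hW]
      rw [not_not] at hW
      rw [hW] at h2
      linarith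
  unfold Phi
  linarith

theorem hc_phi (hF : FamH Y) (hN : NumH Y Q) (hG : GeoH Y Lg) (g : Good Y Lg s)
    (hgs : ∀ v ∈ free Y s, gs Y s v ≤ Y.M1) {y z : X} (hyz : y ≠ z) (hy : y ∈ free Y s)
    (hz : z ∈ free Y s) {A : Finset X} (ht : tgt s y = some A) (x : X) {κ : ℝ} (hκ0 : 0 ≤ κ)
    (hκ : ∀ p ∈ free Y (afterM s y z), Rt Y (afterM s y z) p ≤ κ)
    (hκ' : ∀ p ∈ free Y (afterM s y z), phi Y (afterM s y z) p ≤ κ) {p : X}
    (hp : p ∈ free Y (afterM s y z)) :
    phi Y (reply (afterM s y z) ⟨y, A, x⟩) p ≤ phi Y s p + 6 * Q.τ * κ +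
      (1 / 3 - Y.δ) * ww Y s y z z := by
  have hδ0 := hN.δpos
  have hδ1 := hN.δle
  have hK := K_pos hN
  have hK8 := K_ge hN
  have hτ := hN.τpos
  have hpf := free_afterM.1 hp
  have ht1 := tiny_W hF hN hG g hgs hy hz hz hpf.1 (Ne.symm hpf.2.2) hκ0 hκ hκ'
  have ht2 := phr_le' hF hN hG g hy hz p
  have ht3 := hκ' p hp
  have ht4 : 6 * Q.τ * (κ + phr Y s y z p) ≤ 6 * Q.τ * (κ + κ) :=
    mul_le_mul_of_nonneg_left (by linarith) (by positivity)
  have hmain : phi Y (reply (afterM s y z) ⟨y, A, x⟩) p ≤ phi Y s p +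
      1 / 2 * ∑ T ∈ (sur Y s y z).filter (fun T => cact Y s z T ∧ act Y s p T), W Y s T +
      (1 / 3 - Y.δ) * ww Y s y z z := by
    rw [phi_eq, phi_eq, turc_ww]
    unfold sur
    rw [filter_filter, sum_filter, mul_sum, mul_sum, ← sum_add_distrib, ← sum_add_distrib]
    refine sum_le_sum fun T hT => ?_
    have h0 := W_nonneg hN g T
    have h2 := turc_W2 hN hG g hy hz A x T
    have hc1 : 0 ≤ (if act Y s p T then W Y s T else 0) := by
      split_ifs
      · exact h0
      · exact le_rfl
    have hc2 : 0 ≤ 1 / 2 * (if W Y (afterM s y z) T ≠ 0 ∧ cact Y s z T ∧ act Y s p T then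
        W Y s T else 0) := by
      refine mul_nonneg (by norm_num) ?_
      split_ifs
      · exact h0
      · exact le_rfl
    have hc3 : 0 ≤ (1 / 3 - Y.δ) * (if W Y (afterM s y z) T ≠ 0 then
        (if act Y s z T ∧ ¬ cact Y s z T then W Y s T else 0) else 0) := by
      refine mul_nonneg (by linarith) ?_
      split_ifs
      · exact h0
      · exact le_rfl
      · exact le_rfl
    by_cases hac : act Y (reply (afterM s y z) ⟨y, A, x⟩) p T
    · have hap : act Y s p T := act_W' y z (acts_W (reply_act.1 hac))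
      rw [if_pos hac, if_pos hap]
      by_cases hW : W Y (afterM s y z) T ≠ 0
      · by_cases ha : act Y s y T
        · have h3 := (st_W hF hN g hy hz ht x hT ha).trans (turc_W9 hF hN g hyz hy hz hT)
          have h4 : 4 / Y.K * W Y s T ≤ 1 * W Y s T := by
            refine mul_le_mul_of_nonneg_right ?_ h0
            rw [div_le_one hK]
            linarith
          linarith
        · have h3 := h2.trans (turc_Wz hF hN g hyz hy hz hT ha)
          have h4 : (if W Y (afterM s y z) T ≠ 0 ∧ cact Y s z T ∧ act Y s p T then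
              W Y s T else 0) = (if cact Y s z T then W Y s T else 0) := by
            by_cases h : cact Y s z T
            · rw [if_pos h, if_pos ⟨hW, h, hap⟩]
            · rw [if_neg h, if_neg (fun h' => h h'.2.1)]
          rw [if_pos hW, h4]
          have h5 : 0 ≤ (if cact Y s z T then W Y s T else 0) := by
            split_ifs
            · exact h0
            · exact le_rfl
          nlinarith [mul_nonneg hδ0.le h5]
      · rw [not_not] at hW
        rw [hW] at h2
        linarith
    · rw [if_neg hac]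
      linarith
  linarith

end Pool.H33.MB2
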