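import Pool.Agent.H33.MB2.TurnA

/-!
# MB2 TURD: two hot points

Reply to `y`, `s2 = reply s1 ⟨y, A, x⟩`.
* Structures active at `y`: `W s2 T ≤ W s1 T / K ≤ (9/4) W s T / K`; joined sets with `y` in the box:
  `smW s2 ≤ smW s1 / K ≤ 4 smW s / K`.  So each loses at least `(1 - 4/K)` of its weight.
* Structures not active at `y`: growth at `z` only: `rf_z - 1 ≤ 1/2 - δ`, joined sets: `1 - δ`.
* `phi`: structures active at `p` in `s2` are active in `s`; those active at `y` do not grow (`K ≥ 9/4`), the others grow by at most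
  `(1/2 - δ)` if active at `z` and surviving.
-/

set_option linter.unusedSectionVars false

namespace Pool.H33.MB2

open Finset
open scoped Classical

variable {X Γ : Type*} [DecidableEq X] {Y : Sys X Γ} {Q : Num2}
  {Lg : List (Entry X) → Finset X → Finset X → Prop} {s : State X}

theorem td_W (hF : FamH Y) (hN : NumH Y Q) (hG : GeoH Y Lg) (g : Good Y Lg s) {y z : X}
    (hyz : y ≠ z) (hy : y ∈ free Y s) (hz : z ∈ free Y s) {A : Finset X}
    (ht : tgt s y = some A) (x : X) {T : Big X} (hT : T ∈ bigI Y) :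
    W Y (reply (afterM s y z) ⟨y, A, x⟩) T ≤ W Y s T -
      (1 - 4 / Y.K) * (if T ∈ (sur Y s y z).filter (act Y s y) then W Y s T else 0) +
      (1 / 2 - Y.δ) * (if T ∈ (sur Y s y z).filter (act Y s z) then W Y s T else 0) := by
  have g1 := good_afterM hG g hy hz
  have hW := W_nonneg hN g T
  have hK := K_ge hN
  have hK0 := K_pos hN
  have hδ := hN.δpos
  have hδ' := hN.δle
  have hrc := rc_le hN
  have hrep : W Y (reply (afterM s y z) ⟨y, A, x⟩) T ≤ W Y (afterM s y z) T :=
    (reply_W hN g1 ⟨y, A, x⟩ T).trans (addB_W hN g1 x T)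
  by_cases hs : W Y (afterM s y z) T = 0
  · have hn : T ∉ sur Y s y z := by
      intro h
      unfold sur at h
      exact (mem_filter.1 h).2 hs
    rw [if_neg (fun h => hn (mem_filter.1 h).1), if_neg (fun h => hn (mem_filter.1 h).1)]
    rw [hs] at hrep
    linarith
  · have hm : T ∈ sur Y s y z := by
      unfold sur
      exact mem_filter.2 ⟨hT, hs⟩
    have hcl := cl_W hF hN g hyz hy hz hT
    have r1 := rf_ge (s := s) hN y T
    have r2 := rf_ge (s := s) hN z T
    have r3 := rf_le (s := s) hN y T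
    have r4 := rf_le (s := s) hN z T
    by_cases hay : act Y s y T
    · rw [if_pos (mem_filter.2 ⟨hm, hay⟩)]
      have h1 := st_W hF hN g hy hz ht x hT hay
      have h2 : rf Y s y T * rf Y s z T ≤ 4 := by nlinarith
      have h3 : W Y (afterM s y z) T ≤ 4 * W Y s T :=
        hcl.trans (mul_le_mul_of_nonneg_right h2 hW)
      have h4 : W Y (afterM s y z) T / Y.K ≤ 4 / Y.K * W Y s T := by
        rw [div_mul_eq_mul_div]
        exact div_le_div_of_nonneg_right h3 hK0.le
      have h5 : 0 ≤ (1 / 2 - Y.δ) * (if T ∈ (sur Y s y z).filter (act Y s z) then W Y s T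
          else 0) := by
        refine mul_nonneg (by linarith) ?_
        split_ifs
        · exact hW
        · exact le_rfl
      linarith
    · rw [if_neg (fun h => hay (mem_filter.1 h).2)]
      have h6 : rf Y s y T = 1 := by
        unfold rf
        rw [if_neg hay]
      rw [h6, one_mul] at hcl
      by_cases haz : act Y s z T
      · rw [if_pos (mem_filter.2 ⟨hm, haz⟩)]
        have h7 : rf Y s z T ≤ 3 / 2 - Y.δ := r4
        nlinarith
      · rw [if_neg (fun h => haz (mem_filter.1 h).2)]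
        have h7 : rf Y s z T = 1 := by
          unfold rf
          rw [if_neg haz]
        rw [h7] at hcl
        linarith

theorem td_sum {F' : Finset (Big X)} (h : F' ⊆ bigI Y) :
    ∑ T ∈ bigI Y, (if T ∈ F' then W Y s T else 0) = ∑ T ∈ F', W Y s T := by
  rw [sum_ite_mem, inter_eq_right.2 h]

theorem td_sub (y z p : X) : (sur Y s y z).filter (act Y s p) ⊆ bigI Y := by
  refine (filter_subset _ _).trans ?_
  unfold sur
  exact filter_subset _ _

theorem td_sm (hN : NumH Y Q) (g : Good Y Lg s) {y z : X}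
    (hyz : y ≠ z) (hy : y ∈ free Y s) (hz : z ∈ free Y s) {A : Finset X}
    (ht : tgt s y = some A) (x : X) {D : Finset X} (hD : D ∈ s.J) :
    smW Y (reply (afterM s y z) ⟨y, A, x⟩) D ≤ smW Y s D -
      (1 - 4 / Y.K) * (if y ∈ s.box D then smW Y s D else 0) +
      (1 - Y.δ) * (if z ∈ s.box D then smW Y s D else 0) := by
  have hW := smW_nonneg (s := s) hN D
  have hK := K_ge hN
  have hK0 := K_pos hN
  have hδ := hN.δpos
  have hδ' := hN.δle
  have hrep : smW Y (reply (afterM s y z) ⟨y, A, x⟩) D ≤ smW Y (afterM s y z) D :=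
    (smW_reply hN ⟨y, A, x⟩ D).trans (smW_addB hN x D)
  have hcl := cl_sm hN hyz hy hz D
  by_cases hay : y ∈ s.box D
  · rw [if_pos hay]
    rw [if_pos hay] at hcl
    have h1 := st_sm hN g hy hz ht x hD hay
    have h2 : (2 - Y.δ) * (if z ∈ s.box D then 2 - Y.δ else 1) ≤ 4 := by
      split_ifs
      · nlinarith
      · linarith
    have h3 : smW Y (afterM s y z) D ≤ 4 * smW Y s D :=
      hcl.trans (mul_le_mul_of_nonneg_right h2 hW)
    have h4 : smW Y (afterM s y z) D / Y.K ≤ 4 / Y.K * smW Y s D := by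
      rw [div_mul_eq_mul_div]
      exact div_le_div_of_nonneg_right h3 hK0.le
    have h5 : 0 ≤ (1 - Y.δ) * (if z ∈ s.box D then smW Y s D else 0) := by
      refine mul_nonneg (by linarith) ?_
      split_ifs
      · exact hW
      · exact le_rfl
    linarith
  · rw [if_neg hay]
    rw [if_neg hay, one_mul] at hcl
    by_cases haz : z ∈ s.box D
    · rw [if_pos haz]
      rw [if_pos haz] at hcl
      linarith
    · rw [if_neg haz]
      rw [if_neg haz] at hcl
      linarith

theorem hh_H (hF : FamH Y) (hN : NumH Y Q) (hG : GeoH Y Lg) (g : Good Y Lg s) {y z : X}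
    (hyz : y ≠ z) (hy : y ∈ free Y s) (hz : z ∈ free Y s) {A : Finset X}
    (ht : tgt s y = some A) (x : X) :
    Phi Y (reply (afterM s y z) ⟨y, A, x⟩) ≤ Phi Y s -
      (1 - 4 / Y.K) * (sp Y s y + phr Y s y z y) +
      (1 - Y.δ) * sp Y s z + (1 / 2 - Y.δ) * phr Y s y z z := by
  have h7 : Phi Y (reply (afterM s y z) ⟨y, A, x⟩) =
      ∑ D ∈ s.J.toFinset, smW Y (reply (afterM s y z) ⟨y, A, x⟩) D +
      ∑ T ∈ bigI Y, W Y (reply (afterM s y z) ⟨y, A, x⟩) T := rfl
  have h8 : Phi Y s = ∑ D ∈ s.J.toFinset, smW Y s D + ∑ T ∈ bigI Y, W Y s T := rfl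
  have h1 : ∑ D ∈ s.J.toFinset, smW Y (reply (afterM s y z) ⟨y, A, x⟩) D ≤
      ∑ D ∈ s.J.toFinset, (smW Y s D -
        (1 - 4 / Y.K) * (if y ∈ s.box D then smW Y s D else 0) +
        (1 - Y.δ) * (if z ∈ s.box D then smW Y s D else 0)) :=
    sum_le_sum fun D hD => td_sm hN g hyz hy hz ht x (List.mem_toFinset.1 hD)
  rw [sum_add_distrib, sum_sub_distrib, ← mul_sum, ← mul_sum, ← sum_filter, ← sum_filter] at h1
  have h2 : ∑ T ∈ bigI Y, W Y (reply (afterM s y z) ⟨y, A, x⟩) T ≤
      ∑ T ∈ bigI Y, (W Y s T -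
      (1 - 4 / Y.K) * (if T ∈ (sur Y s y z).filter (act Y s y) then W Y s T else 0) +
      (1 / 2 - Y.δ) * (if T ∈ (sur Y s y z).filter (act Y s z) then W Y s T else 0)) :=
    sum_le_sum fun T hT => td_W hF hN hG g hyz hy hz ht x hT
  rw [sum_add_distrib, sum_sub_distrib, ← mul_sum, ← mul_sum, td_sum (td_sub y z y),
    td_sum (td_sub y z z)] at h2
  have e1 : sp Y s y = ∑ D ∈ s.J.toFinset.filter (fun D => y ∈ s.box D), smW Y s D := rfl
  have e2 : sp Y s z = ∑ D ∈ s.J.toFinset.filter (fun D => z ∈ s.box D), smW Y s D := rfl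
  have e3 : phr Y s y z y = ∑ T ∈ (sur Y s y z).filter (act Y s y), W Y s T := rfl
  have e4 : phr Y s y z z = ∑ T ∈ (sur Y s y z).filter (act Y s z), W Y s T := rfl
  rw [← e1, ← e2] at h1
  rw [← e3, ← e4] at h2
  rw [h7, h8]
  linarith

theorem hh_phi (hF : FamH Y) (hN : NumH Y Q) (hG : GeoH Y Lg) (g : Good Y Lg s) {y z : X}
    (hyz : y ≠ z) (hy : y ∈ free Y s) (hz : z ∈ free Y s) {A : Finset X}
    (ht : tgt s y = some A) (x p : X) :
    phi Y (reply (afterM s y z) ⟨y, A, x⟩) p ≤ phi Y s p + (1 / 2 - Y.δ) * phr Y s y z z := by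
  have hδ := hN.δpos
  have hδ' := hN.δle
  have hK := K_ge hN
  have hK0 := K_pos hN
  rw [phi_eq, phi_eq]
  have e4 : phr Y s y z z = ∑ T ∈ (sur Y s y z).filter (act Y s z), W Y s T := rfl
  rw [e4, ← td_sum (td_sub y z z), mul_sum, ← sum_add_distrib]
  refine sum_le_sum fun T hT => ?_
  have hW := W_nonneg hN g T
  have h1 := td_W hF hN hG g hyz hy hz ht x hT
  have h5 : 0 ≤ (1 / 2 - Y.δ) * (if T ∈ (sur Y s y z).filter (act Y s z) then W Y s T
      else 0) := by
    refine mul_nonneg (by linarith) ?_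
    split_ifs
    · exact hW
    · exact le_rfl
  have h6 : 0 ≤ (1 - 4 / Y.K) * (if T ∈ (sur Y s y z).filter (act Y s y) then W Y s T
      else 0) := by
    refine mul_nonneg ?_ ?_
    · have : 4 / Y.K ≤ 1 := by
        rw [div_le_one hK0]
        linarith
      linarith
    split_ifs
    · exact hW
    · exact le_rfl
  by_cases ha : act Y (reply (afterM s y z) ⟨y, A, x⟩) p T
  · have ha' : act Y s p T := act_W' y z (acts_W (reply_act.1 ha))
    rw [if_pos ha, if_pos ha']
    linarith
  · rw [if_neg ha]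
    have h8 : 0 ≤ (if act Y s p T then W Y s T else 0) := by
      split_ifs
      · exact hW
      · exact le_rfl
    linarith

end Pool.H33.MB2
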