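import Pool.Agent.H33.MB2.TurnB
import Pool.Agent.H33.MB2.TurnC
import Pool.Agent.H33.MB2.TurnD
import Pool.Agent.H33.MB2.Ars

/-!
# One turn
-/

set_option linter.unusedSectionVars false

namespace Pool.H33.MB2

open Finset
open scoped Classical

variable {X Γ : Type*} [DecidableEq X] {Y : Sys X Γ} {Q : Num2}
  {Lg : List (Entry X) → Finset X → Finset X → Prop} {s : State X}

/-- An alive joined set has at least four unclaimed box points. -/
theorem four_le (hF : FamH Y) (hN : NumH Y Q) (hG : GeoH Y Lg) (g : Good Y Lg s)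
    (hΦ' : Phi Y s ≤ 1 / 16) {A : Finset X} (hA : A ∈ s.J)
    (hal : alive s A) : 4 ≤ #(s.box A \ s.M) := by
  have h1 := smW_le_Phi hN g hA
  have h2 : smW Y s A = kb Y Y.bs (os Y s A) * (if s.newc A then kb Y Y.am (ars Y s A) else 1) /
      (2 - Y.δ) ^ #(s.box A \ s.M) := by
    unfold smW
    rw [if_pos hal]
  have hAF := g.JF A hA
  have h3 : 1 ≤ kb Y Y.bs (os Y s A) := one_le_kb hN (os_bound hG g hAF hal)
  have h4 : 1 ≤ (if s.newc A then kb Y Y.am (ars Y s A) else 1) := by
    split_ifs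
    · exact one_le_kb hN (ars_bound hF hN hG g hΦ' hAF)
    · exact le_rfl
  have hδ := hN.δpos
  have hδ' := hN.δle
  by_contra hc
  push Not at hc
  have h5 : #(s.box A \ s.M) ≤ 3 := by omega
  have h6 : (2 - Y.δ) ^ #(s.box A \ s.M) ≤ 8 := by
    calc (2 - Y.δ) ^ #(s.box A \ s.M) ≤ 2 ^ #(s.box A \ s.M) :=
          pow_le_pow_left₀ (by linarith) (by linarith) _
      _ ≤ 2 ^ 3 := pow_le_pow_right₀ (by norm_num) h5
      _ = 8 := by norm_num
  have h7 : 0 < (2 - Y.δ) ^ #(s.box A \ s.M) := by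
    have : 0 < 2 - Y.δ := by linarith
    positivity
  have h8 : 1 ≤ kb Y Y.bs (os Y s A) * (if s.newc A then kb Y Y.am (ars Y s A) else 1) :=
    one_le_mul_of_one_le_of_one_le h3 h4
  have h9 : 1 / 8 ≤ smW Y s A := by
    rw [h2, div_le_div_iff₀ (by norm_num) h7]
    nlinarith
  linarith

/-- Result of a turn. -/
structure TurnRes (Y : Sys X Γ) (Lg : List (Entry X) → Finset X → Finset X → Prop)
    (s s2 : State X) (y z x : X) (v : ℝ) : Prop where
  good : Good Y Lg s2
  M : s2.M = insert y (insert z s.M)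
  B : s2.B = insert x s.B
  J : s2.J = s.J
  lb : s2.lb = s.lb
  bad : s2.bad = s.bad
  val : ∃ l : ℝ, 0 ≤ l ∧ (∀ p ∈ free Y s2, phi Y s2 p ≤ l) ∧ Phi Y s2 + l ≤ v

theorem free_reply {e : Entry X} {p : X} :
    p ∈ free Y (reply s e) ↔ p ∈ free Y s ∧ p ≠ e.x := by
  simp only [mem_free, reply, mem_insert, not_or]
  tauto

theorem phi_addB_le (hN : NumH Y Q) (g : Good Y Lg s) (x p : X) :
    phi Y (addB s x) p ≤ phi Y s p := by
  rw [phi_eq, phi_eq]
  refine sum_le_sum fun T _ => ?_
  by_cases h : act Y (addB s x) p T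
  · rw [if_pos h, if_pos (acts_W h)]
    exact addB_W hN g x T
  · rw [if_neg h]
    split_ifs
    · exact W_nonneg hN g T
    · exact le_rfl

/-- The reply to the hot point `y` if its price is large. -/
theorem turn_H (hF : FamH Y) (hN : NumH Y Q) (hG : GeoH Y Lg) (g : Good Y Lg s)
    (hΦ : Phi Y s ≤ 1 / 16) {y z : X} (hy : y ∈ free Y s) (hz : z ∈ free Y s)
    {A : Finset X} (ht : tgt s y = some A) {v : ℝ}
    (hv : ∀ x ∈ free Y (afterM s y z), ∃ l : ℝ, 0 ≤ l ∧
      (∀ p ∈ free Y (afterM s y z), phi Y (reply (afterM s y z) ⟨y, A, x⟩) p ≤ l) ∧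
      Phi Y (reply (afterM s y z) ⟨y, A, x⟩) + l ≤ v) :
    ∃ x ∈ free Y (afterM s y z), ∃ s2, TurnRes Y Lg s s2 y z x v := by
  obtain ⟨hAJ, hal, hyA⟩ := tgt_spec ht
  have h4 := four_le hF hN hG g hΦ hAJ hal
  have hbx := (g.bx A hAJ).1
  have hne : (A \ insert y (insert z s.M)).Nonempty := by
    rw [nonempty_iff_ne_empty]
    intro h0
    have h5 : s.box A \ s.M ⊆ {y, z} := by
      intro p hp
      rw [mem_sdiff] at hp
      have h6 : p ∉ A \ insert y (insert z s.M) := by rw [h0]; simp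
      rw [mem_sdiff] at h6
      push Not at h6
      have := h6 (hbx hp.1)
      simp only [mem_insert, mem_singleton] at this ⊢
      tauto
    have := card_le_card h5
    have := card_le_two (a := y) (b := z)
    omega
  rw [mem_free] at hy hz
  have hsub : s.M ⊆ insert y (insert z s.M) := (subset_insert _ _).trans (subset_insert _ _)
  obtain ⟨x, hx, hL⟩ := hG.rep s.log s.M s.B (insert y (insert z s.M)) y A g.log hsub
    (insert_subset hy.1 (insert_subset hz.1 g.MS))
    (by
      rw [disjoint_insert_left, disjoint_insert_left]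
      exact ⟨hy.2.2, hz.2.2, g.MB⟩)
    (mem_insert_self _ _) hy.2.1 (g.JF A hAJ) (hbx hyA) hal hne
  have hx' : x ∈ free Y (afterM s y z) := hx
  refine ⟨x, hx', reply (afterM s y z) ⟨y, A, x⟩, ?_⟩
  refine ⟨good_reply hG g (mem_free.2 hy) (mem_free.2 hz) hAJ hx' hL, rfl, rfl, rfl, rfl, rfl, ?_⟩
  obtain ⟨l, hl0, hl, hle⟩ := hv x hx'
  exact ⟨l, hl0, fun p hp => hl p (free_reply.1 hp).1, hle⟩

theorem turn_step (hF : FamH Y) (hN : NumH Y Q) (hG : GeoH Y Lg) (g : Good Y Lg s)
    (hΦ : Phi Y s ≤ 1 / 16) (hgs : ∀ v ∈ free Y s, gs Y s v ≤ Y.M1) {y z : X} (hyz : y ≠ z)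
    (hy : y ∈ free Y s) (hz : z ∈ free Y s) (hfree : (free Y (afterM s y z)).Nonempty) {l : ℝ}
    (hl0 : 0 ≤ l) (hl : ∀ p ∈ free Y s, phi Y s p ≤ l) :
    ∃ x ∈ free Y (afterM s y z), ∃ s2, TurnRes Y Lg s s2 y z x (Phi Y s + l) := by
  have g1 := good_afterM hG g hy hz
  have hδ := hN.δpos
  have hδ' := hN.δle
  have hτ := hN.τpos
  have hτδ := hN.τδ
  have hK := K_ge hN
  have h4K : 4 / Y.K = Y.δ / 2 := by
    rw [div_eq_div_iff (by linarith) (by norm_num)]
    linarith [hN.Kδ]
  -- the best greedy reply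
  obtain ⟨p0, hp0, hmax⟩ := exists_max_image (free Y (afterM s y z))
    (fun p => Phi Y (afterM s y z) - Phi Y (addB (afterM s y z) p)) hfree
  set κ := Phi Y (afterM s y z) - Phi Y (addB (afterM s y z) p0) with hκdef
  have hκp : ∀ p ∈ free Y (afterM s y z), phi Y (afterM s y z) p ≤ κ := by
    intro p hp
    have h1 := kill_phi hF hN g1 p
    have h2 := hmax p hp
    linarith
  have hκR : ∀ p ∈ free Y (afterM s y z), Rt Y (afterM s y z) p ≤ κ := by
    intro p hp
    have h1 := kill_Rt hF hN g1 p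
    have h2 := hmax p hp
    linarith
  have hκ0 : 0 ≤ κ := (phi_nonneg hN g1 p0).trans (hκp p0 hp0)
  have gB : Good Y Lg (addB (afterM s y z) p0) := good_addB hG g1 hp0
  -- greedy replies
  have G1 : Phi Y (afterM s y z) ≤ Phi Y s + l →
      ∃ x ∈ free Y (afterM s y z), ∃ s2, TurnRes Y Lg s s2 y z x (Phi Y s + l) := by
    intro h
    refine ⟨p0, hp0, addB (afterM s y z) p0, gB, rfl, rfl, rfl, rfl, rfl, κ, hκ0, ?_, ?_⟩
    · intro p hp
      exact (phi_addB_le hN g1 p0 p).trans (hκp p (free_addB.1 hp).1)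
    · linarith
  have nsy := sp_nonneg (s := s) hN y
  have nsz := sp_nonneg (s := s) hN z
  have nFy : 0 ≤ phr Y s y z y := sum_nonneg fun T _ => W_nonneg hN g T
  have nFz : 0 ≤ phr Y s y z z := sum_nonneg fun T _ => W_nonneg hN g T
  have hFy : phr Y s y z y ≤ l := (phr_le hN g y z y).trans (hl y hy)
  have hFz : phr Y s y z z ≤ l := (phr_le hN g y z z).trans (hl z hz)
  by_cases hbig : 4 * (sp Y s y + phr Y s y z y + (sp Y s z + phr Y s y z z)) < κ
  · refine ⟨p0, hp0, addB (afterM s y z) p0, gB, rfl, rfl, rfl, rfl, rfl,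
      l + 5 / 8 * (phr Y s y z y + phr Y s y z z), by positivity, ?_, ?_⟩
    · intro p hp
      have hp' := (free_addB.1 hp).1
      have h1 := phi_addB_le hN g1 p0 p
      have h2 := crude_phi hF hN g hyz hy hz p
      have h3 := hl p (free_afterM.1 hp').1
      linarith
    · have h1 := crude_Phi hF hN g hyz hy hz
      linarith
  push Not at hbig
  -- one hot point, one cold point
  have HC : ∀ y z : X, y ≠ z → y ∈ free Y s → z ∈ free Y s → hot s y → ¬ hot s z → ∀ κ : ℝ, 0 ≤ κ →
      (∀ p ∈ free Y (afterM s y z), phi Y (afterM s y z) p ≤ κ) →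
      (∀ p ∈ free Y (afterM s y z), Rt Y (afterM s y z) p ≤ κ) →
      κ ≤ 4 * (sp Y s y + phr Y s y z y + (sp Y s z + phr Y s y z z)) →
      (∃ x ∈ free Y (afterM s y z), ∃ s2, TurnRes Y Lg s s2 y z x (Phi Y s + l)) ∨
        Phi Y (afterM s y z) ≤ Phi Y s + l := by
    intro y z hyz hy hz hhy hcz κ hκ0 hκp hκR hbig
    have nsy := sp_nonneg (s := s) hN y
    have nFy : 0 ≤ phr Y s y z y := sum_nonneg fun T _ => W_nonneg hN g T
    have hFz : phr Y s y z z ≤ l := (phr_le hN g y z z).trans (hl z hz)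
    have hspz : sp Y s z = 0 := sp_zero hcz
    have ncz : 0 ≤ cw Y s y z z := sum_nonneg fun T _ => W_nonneg hN g T
    have nwz : 0 ≤ ww Y s y z z := sum_nonneg fun T _ => W_nonneg hN g T
    have heq := phr_eq (Y := Y) (s := s) y z z
    rw [hspz, zero_add] at hbig
    by_cases hP : sp Y s y + phr Y s y z y ≤ 1 / 2 * cw Y s y z z + 2 / 3 * ww Y s y z z
    · right
      have h1 := hc_G hF hN g hyz hy hz hcz
      nlinarith
    · left
      push Not at hP
      obtain ⟨A, ht⟩ := hot_tgt hhy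
      refine turn_H hF hN hG g hΦ hy hz ht fun x hx => ?_
      refine ⟨l + 6 * Q.τ * κ + (1 / 3 - Y.δ) * ww Y s y z z, ?_, ?_, ?_⟩
      · have : 0 ≤ (1 / 3 - Y.δ) * ww Y s y z z := mul_nonneg (by linarith) nwz
        have : 0 ≤ 6 * Q.τ * κ := by positivity
        linarith
      · intro p hp
        have h1 := hc_phi hF hN hG g hgs hyz hy hz ht x hκ0 hκR hκp hp
        have h2 := hl p (free_afterM.1 hp).1
        linarith
      · have h1 := hc_H hF hN hG g hyz hy hz hcz ht x
        rw [h4K] at h1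
        have h2 : 6 * Q.τ * κ ≤ 24 * Q.τ * (sp Y s y + phr Y s y z y + (cw Y s y z z +
            ww Y s y z z)) := by
          rw [heq] at hbig
          nlinarith
        set P := sp Y s y + phr Y s y z y with hPdef
        have h3 : 24 * Q.τ * (P + (cw Y s y z z + ww Y s y z z)) ≤
            Y.δ / 8 * (P + (cw Y s y z z + ww Y s y z z)) :=
          mul_le_mul_of_nonneg_right (by linarith) (by positivity)
        nlinarith [mul_nonneg hδ.le ncz, mul_nonneg hδ.le nwz,
          mul_nonneg (show (0 : ℝ) ≤ 1 - Y.δ / 2 - Y.δ / 8 by linarith)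
            (show 0 ≤ P - (1 / 2 * cw Y s y z z + 2 / 3 * ww Y s y z z) by linarith)]
  by_cases hhy : hot s y
  · by_cases hhz : hot s z
    · -- two hot points
      have HH : ∀ y z : X, y ≠ z → y ∈ free Y s → z ∈ free Y s → hot s y →
          sp Y s z + phr Y s y z z ≤ sp Y s y + phr Y s y z y →
          ∃ x ∈ free Y (afterM s y z), ∃ s2, TurnRes Y Lg s s2 y z x (Phi Y s + l) := by
        intro y z hyz hy hz hhy hle
        obtain ⟨A, ht⟩ := hot_tgt hhy
        have nsz := sp_nonneg (s := s) hN z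
        have nFz : 0 ≤ phr Y s y z z := sum_nonneg fun T _ => W_nonneg hN g T
        refine turn_H hF hN hG g hΦ hy hz ht fun x hx => ?_
        refine ⟨l + (1 / 2 - Y.δ) * phr Y s y z z, ?_, ?_, ?_⟩
        · have : 0 ≤ (1 / 2 - Y.δ) * phr Y s y z z := mul_nonneg (by linarith) nFz
          linarith
        · intro p hp
          have h1 := hh_phi hF hN hG g hyz hy hz ht x p
          have h2 := hl p (free_afterM.1 hp).1
          linarith
        · have h1 := hh_H hF hN hG g hyz hy hz ht x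
          rw [h4K] at h1
          nlinarith [mul_nonneg hδ.le nsz, mul_nonneg hδ.le nFz]
      rcases le_total (sp Y s z + phr Y s y z z) (sp Y s y + phr Y s y z y) with hle | hle
      · exact HH y z hyz hy hz hhy hle
      · have e1 : ∀ p, phr Y s z y p = phr Y s y z p := by
          intro p
          unfold phr sur
          rw [afterM_comm]
        obtain ⟨x, hx, s2, h⟩ := HH z y hyz.symm hz hy hhz (by rw [e1, e1]; exact hle)
        rw [afterM_comm] at hx
        refine ⟨x, hx, s2, h.good, ?_, h.B, h.J, h.lb, h.bad, h.val⟩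
        rw [h.M, insert_comm]
    · rcases HC y z hyz hy hz hhy hhz κ hκ0 hκp hκR hbig with h | h
      · exact h
      · exact G1 h
  · by_cases hhz : hot s z
    · have e1 : ∀ p, phr Y s z y p = phr Y s y z p := by
        intro p
        unfold phr sur
        rw [afterM_comm]
      have := HC z y hyz.symm hz hy hhz hhy κ hκ0 (by rw [afterM_comm]; exact hκp)
        (by rw [afterM_comm]; exact hκR) (by rw [e1, e1]; linarith)
      rcases this with ⟨x, hx, s2, h⟩ | h
      · rw [afterM_comm] at hx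
        refine ⟨x, hx, s2, h.good, ?_, h.B, h.J, h.lb, h.bad, h.val⟩
        rw [h.M, insert_comm]
      · rw [afterM_comm] at h
        exact G1 h
    · refine G1 ?_
      rw [sp_zero hhy, sp_zero hhz, zero_add, zero_add] at hbig
      have h1 := turn_cc hF hN hG g hgs hyz hy hz hhy hhz hκ0 hκR hκp hbig
      linarith

end Pool.H33.MB2
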