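import Pool.Agent.H33.MB2.JoinStep
import Pool.Agent.H33.MB2.Turn

/-!
# Stabilisation and the whole game
-/

set_option linter.unusedSectionVars false

namespace Pool.H33.MB2

open Finset
open scoped Classical
open Pool.H68.MB (MakerWins)

variable {X Γ : Type*} [DecidableEq X] {Y : Sys X Γ} {Q : Num2}
  {Lg : List (Entry X) → Finset X → Finset X → Prop} {s : State X}

/-- The total weight of the joined sets at their joins is small. -/
theorem card_wJ (hF : FamH Y) (hN : NumH Y Q) (g : Good Y Lg s) :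
    (s.J.length : ℝ) * wJ Y ≤ 1 / 64 := by
  have h1 := card_J hF hN g
  have h2 := hN.sm
  have h3 := wJ_nonneg hN
  refine le_trans (mul_le_mul_of_nonneg_right ?_ h3) h2
  exact_mod_cast h1

theorem rip_phi (hN : NumH Y Q) (g : Good Y Lg s)
    (h1 : ∀ A ∈ Y.F, alive s A → os Y s A ≤ Y.bs) (h2 : ∀ A ∈ Y.F, ars Y s A ≤ Y.am) (p : X) :
    phi Y (ripen Y s) p ≤ phi Y s p := by
  rw [phi_eq, phi_eq]
  refine sum_le_sum fun T _ => ?_
  rcases T with T | T | T | T
  · exact le_rfl
  · exact le_rfl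
  · by_cases h : act Y (ripen Y s) p (.inr (.inr (.inl T)))
    · rw [if_pos h, if_pos (ripa_gc h)]
      exact rip_gc hN h1 h2 T
    · rw [if_neg h]
      split_ifs
      · exact gcW_nonneg hN T
      · exact le_rfl
  · exact le_rfl

theorem rip_Phi (hN : NumH Y Q)
    (h1 : ∀ A ∈ Y.F, alive s A → os Y s A ≤ Y.bs) (h2 : ∀ A ∈ Y.F, ars Y s A ≤ Y.am) :
    Phi Y (ripen Y s) ≤ Phi Y s := by
  have h3 : ∑ T ∈ bigI Y, W Y (ripen Y s) T ≤ ∑ T ∈ bigI Y, W Y s T := by
    refine sum_le_sum fun T _ => ?_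
    rcases T with T | T | T | T
    · exact le_rfl
    · exact le_rfl
    · exact rip_gc hN h1 h2 T
    · exact le_rfl
  have h4 : Sm Y (ripen Y s) = Sm Y s := rfl
  unfold Phi
  rw [h4]
  linarith

/-- The value bound. -/
def VB (Y : Sys X Γ) (s : State X) : Prop :=
  ∃ l : ℝ, 0 ≤ l ∧ (∀ p ∈ free Y s, phi Y s p ≤ l) ∧
    Phi Y s + l ≤ 1 / 64 + s.J.length * wJ Y

theorem VB_le (hF : FamH Y) (hN : NumH Y Q) (g : Good Y Lg s) (h : VB Y s) :
    Phi Y s ≤ 1 / 16 := by
  obtain ⟨l, hl0, -, hl⟩ := h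
  have := card_wJ hF hN g
  linarith

/-- Stabilisation by joins. -/
theorem stabilise (hF : FamH Y) (hN : NumH Y Q) (hG : GeoH Y Lg) {s0 : State X} {y z : X}
    (hst : stable Y s0) : ∀ (n : ℕ) (s : State X), #(Y.F.filter (fun A => A ∉ s.J)) ≤ n →
      Good Y Lg s → NR Y s → Mid Y s0 s y z → VB Y s →
      ∃ s', Good Y Lg s' ∧ stable Y s' ∧ s'.M = s.M ∧ s'.B = s.B ∧ VB Y s' := by
  intro n
  induction n with
  | zero =>
    intro s hn g _ _ hv
    refine ⟨s, g, ?_, rfl, rfl, hv⟩
    intro A hA _ hAJ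
    have : A ∈ Y.F.filter (fun A => A ∉ s.J) := mem_filter.2 ⟨hA, hAJ⟩
    rw [Nat.le_zero, card_eq_zero] at hn
    rw [hn] at this
    simp at this
  | succ n ih =>
    intro s hn g hnr hm hv
    by_cases hs : stable Y s
    · exact ⟨s, g, hs, rfl, rfl, hv⟩
    · unfold stable at hs
      push Not at hs
      obtain ⟨A, hA, hal, hAJ, hu⟩ := hs
      have hΦ := VB_le hF hN g hv
      have R := join_step hF hN hG hst g hnr hm hΦ hA hal hAJ hu
      have hv' : VB Y (join Y s A) := by
        obtain ⟨l, hl0, hl, hle⟩ := hv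
        refine ⟨l, hl0, fun p hp => (R.phi p).trans (hl p hp), ?_⟩
        have h1 : (join Y s A).J.length = s.J.length + 1 := by simp [join]
        rw [h1]
        push_cast
        have := R.Phi
        linarith
      have hc : #(Y.F.filter (fun C => C ∉ (join Y s A).J)) ≤ n := by
        have : #(Y.F.filter (fun C => C ∉ (join Y s A).J)) < #(Y.F.filter (fun C => C ∉ s.J)) := by
          apply card_lt_card
          rw [ssubset_iff_of_subset]
          · refine ⟨A, mem_filter.2 ⟨hA, hAJ⟩, ?_⟩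
            simp [join]
          · intro C hC
            rw [mem_filter] at hC ⊢
            refine ⟨hC.1, fun h => hC.2 ?_⟩
            simp [join, h]
        omega
      obtain ⟨s', h1, h2, h3, h4, h5⟩ := ih (join Y s A) hc R.good R.nr R.mid hv'
      exact ⟨s', h1, h2, h3, h4, h5⟩

/-- The start invariant. -/
structure Inv (Y : Sys X Γ) (Lg : List (Entry X) → Finset X → Finset X → Prop) (s : State X) :
    Prop where
  good : Good Y Lg s
  st : stable Y s
  vb : VB Y s

/-- One round. -/
theorem round (hF : FamH Y) (hN : NumH Y Q) (hG : GeoH Y Lg) (I : Inv Y Lg s) {y z : X}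
    (hyz : y ≠ z) (hy : y ∈ free Y s) (hz : z ∈ free Y s)
    (hfree : (free Y (afterM s y z)).Nonempty) :
    ∃ x ∈ free Y (afterM s y z), ∃ s', Inv Y Lg s' ∧ s'.M = insert y (insert z s.M) ∧
      s'.B = insert x s.B := by
  have hΦ := VB_le hF hN I.good I.vb
  obtain ⟨l, hl0, hl, hle⟩ := I.vb
  obtain ⟨x, hx, s2, R⟩ := turn_step hF hN hG I.good hΦ
    (fun v hv => gs_bound hF hN I.good hΦ hv) hyz hy hz hfree hl0 hl
  obtain ⟨l2, hl20, hl2, hle2⟩ := R.val
  have hv2 : VB Y s2 := by
    refine ⟨l2, hl20, hl2, ?_⟩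
    rw [R.J]
    linarith
  have hΦ2 := VB_le hF hN R.good hv2
  have h1 : ∀ A ∈ Y.F, alive s2 A → os Y s2 A ≤ Y.bs := fun C hC hC' => os_bound hG R.good hC hC'
  have h2 : ∀ A ∈ Y.F, ars Y s2 A ≤ Y.am := fun C hC => ars_bound hF hN hG R.good hΦ2 hC
  have hv3 : VB Y (ripen Y s2) := by
    refine ⟨l2, hl20, fun p hp => (rip_phi hN R.good h1 h2 p).trans (hl2 p hp), ?_⟩
    have h3 := rip_Phi hN h1 h2
    have h4 : (ripen Y s2).J = s.J := R.J
    rw [h4]
    linarith
  have hmid : Mid Y s (ripen Y s2) y z := by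
    have e1 : (ripen Y s2).lb = s.lb := R.lb
    have e2 : (ripen Y s2).J = s.J := R.J
    refine ⟨R.M, ?_, ?_, ?_, ?_, ?_⟩
    · change s.B ⊆ s2.B
      rw [R.B]
      exact subset_insert _ _
    · intro A v _
      rw [e1]
    · intro A hA
      rw [e2]
      exact hA
    · intro C hC hC'
      rw [e2] at hC
      exact absurd hC hC'
    · intro A v C h3 h4
      rw [e1, h4] at h3
      simp at h3
  obtain ⟨s', g1, g2, g3, g4, g5⟩ := stabilise hF hN hG I.st _ (ripen Y s2) le_rfl
    (good_ripen R.good) (nr_ripen s2) hmid hv3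
  refine ⟨x, hx, s', ⟨g1, g2, g5⟩, ?_, ?_⟩
  · rw [g3]
    exact R.M
  · rw [g4]
    exact R.B

/-- An alive set has at least three unclaimed points. -/
theorem three_le (hF : FamH Y) (hN : NumH Y Q) (hG : GeoH Y Lg) (I : Inv Y Lg s)
    {A : Finset X} (hA : A ∈ Y.F) (hal : alive s A) : 3 ≤ #(A \ s.M) := by
  have hΦ := VB_le hF hN I.good I.vb
  by_cases hAJ : A ∈ s.J
  · have h1 := four_le hF hN hG I.good hΦ hAJ hal
    have h2 : s.box A \ s.M ⊆ A \ s.M := sdiff_subset_sdiff (I.good.bx A hAJ).1 (Subset.refl _)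
    have := card_le_card h2
    omega
  · have h1 := I.st A hA hal hAJ
    have h2 : A.filter (fun v => v ∉ s.M ∧ s.lb A v = none ∧ ¬ heat Y s A v) ⊆ A \ s.M := by
      intro v hv
      rw [mem_filter] at hv
      exact mem_sdiff.2 ⟨hv.1, hv.2.1⟩
    have h3 := card_le_card h2
    have h4 := hN.jb3
    unfold uh at h1
    omega

/-- From a position satisfying the invariant Maker cannot win. -/
theorem no_win_aux (hF : FamH Y) (hN : NumH Y Q) (hG : GeoH Y Lg) {M B : Finset X}
    (h : MakerWins Y.S (↑Y.F : Set (Finset X)) M B) :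
    ∀ (s : State X), s.M = M → s.B = B → Inv Y Lg s → False := by
  have key : ∀ (s : State X), Inv Y Lg s → ∀ (A U : Finset X), A ∈ Y.F →
      A ⊆ U ∪ s.M → #U ≤ 2 → Disjoint U s.B → False := by
    intro s hI A U hA hAU hU hUB
    have hd : alive s A := by
      unfold alive
      rw [disjoint_left]
      intro p hp hpB
      rcases mem_union.1 (hAU hp) with h1 | h1
      · exact disjoint_left.1 hUB h1 hpB
      · exact disjoint_left.1 hI.good.MB h1 hpB
    have h3 := three_le hF hN hG hI hA hd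
    have h4 : A \ s.M ⊆ U := by
      intro p hp
      rw [mem_sdiff] at hp
      rcases mem_union.1 (hAU hp.1) with h1 | h1
      · exact h1
      · exact absurd h1 hp.2
    have h5 := card_le_card h4
    omega
  induction h with
  | owned A hA hAM =>
    rintro s rfl rfl hI
    refine key s hI A ∅ hA ?_ (by simp) (by simp)
    rw [empty_union]
    exact hAM
  | last y hy A hA hAM =>
    rintro s rfl rfl hI
    refine key s hI A {y} hA ?_ (by simp) ?_
    · intro p hp
      have := hAM hp
      simpa [or_comm] using this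
    · have h1 : y ∈ Y.S \ (s.M ∪ s.B) := by rw [hy]; simp
      simp only [mem_sdiff, mem_union, not_or] at h1
      simpa using h1.2.2
  | finish y z hyz hy hz A hA hAM =>
    rintro s rfl rfl hI
    simp only [mem_sdiff, mem_union, not_or] at hy hz
    refine key s hI A {y, z} hA ?_ card_le_two ?_
    · intro p hp
      have := hAM hp
      simp only [mem_insert] at this
      simp only [mem_union, mem_insert, mem_singleton]
      tauto
    · rw [disjoint_left]
      intro p hp
      simp only [mem_insert, mem_singleton] at hp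
      rcases hp with rfl | rfl
      · exact hy.2.2
      · exact hz.2.2
  | move y z hyz hy hz hfree _ ih =>
    rintro s rfl rfl hI
    obtain ⟨x, hx, s', hI', h1, h2⟩ := round hF hN hG hI hyz hy hz hfree
    exact ih x hx s' h1 h2 hI'

end Pool.H33.MB2
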