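import Pool.Agent.H33.MB2.Basic

/-!
# Growth rates, restricted prices, root weights; simple facts on the moves
-/

set_option linter.unusedSectionVars false

namespace Pool.H33.MB2

open Finset
open scoped Classical

variable {X Γ : Type*} [DecidableEq X] (Y : Sys X Γ) (s : State X)

/-- Growth bound of the structure `T` when Maker claims `p`. -/
noncomputable def rf (p : X) (T : Big X) : ℝ :=
  if act Y s p T then (if cact Y s p T then rc Y else rw Y) else 1

/-- Total weight of the structures whose root is hit by `p`. -/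
noncomputable def Rt (p : X) : ℝ :=
  ∑ T ∈ (mpI Y).filter (fun T => p ∈ T.1), mpW Y s T +
    ∑ T ∈ (psI Y).filter (fun T => T.1 = p), psW Y s T

/-- The structures which survive Maker's claims `y`, `z`. -/
noncomputable def sur (y z : X) : Finset (Big X) :=
  (bigI Y).filter (fun T => W Y (afterM s y z) T ≠ 0)

/-- The price of `p` restricted to the surviving structures. -/
noncomputable def phr (y z p : X) : ℝ := ∑ T ∈ (sur Y s y z).filter (act Y s p), W Y s T

/-- The weight of a newly joined set. -/
noncomputable def wJ : ℝ := Y.K ^ Y.bs / (2 - Y.δ) ^ Y.jm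

/-- The special points of `A`. -/
noncomputable def Sp (A : Finset X) : Finset X :=
  A.filter (fun v => s.lb A v ≠ none ∨ (v ∉ s.M ∧ heat Y s A v))

variable {Y s} {Q : Num2} {Lg : List (Entry X) → Finset X → Finset X → Prop}

theorem rf_ge (hN : NumH Y Q) (p : X) (T : Big X) : 1 ≤ rf Y s p T := by
  have h1 := rw_ge hN
  have h2 := rw_le_rc (Y := Y)
  unfold rf
  split_ifs <;> linarith

theorem rf_le (hN : NumH Y Q) (p : X) (T : Big X) : rf Y s p T ≤ rc Y := by
  have h1 := rw_ge hN
  have h2 := rw_le_rc (Y := Y)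
  unfold rf
  split_ifs <;> linarith

theorem cact_act {p : X} {T : Big X} (h : cact Y s p T) : act Y s p T := by
  rcases T with T | T | T | T
  · obtain ⟨h1, h2, e, he, h3, h4⟩ := h
    refine ⟨h1, h2, e, he, h3, ?_⟩
    rcases h4 with ⟨h5, h6, h7, -⟩ | ⟨l, hl, h5, h6, h7, -⟩
    · exact Or.inl ⟨h5, h6, h7, trivial⟩
    · exact Or.inr ⟨l, hl, h5, h6, h7, trivial⟩
  · obtain ⟨h1, C, hC, h2, -⟩ := h
    exact ⟨h1, C, hC, h2, trivial⟩
  · exact ⟨h.1, trivial⟩
  · exact ⟨h.1, trivial⟩

theorem not_cact_gc {p : X} {T : GCt X} : ¬ cact Y s p (.inr (.inr (.inl T))) := by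
  rintro ⟨-, h⟩
  simp [coldlv] at h

theorem not_cact_cp {p : X} {T : Finset X × Finset X} : ¬ cact Y s p (.inr (.inr (.inr T))) := by
  rintro ⟨-, h⟩
  simp [coldlv] at h

theorem afterM_comm (s : State X) (y z : X) : afterM s y z = afterM s z y := by
  unfold afterM
  rw [insert_comm]

theorem free_afterM {y z p : X} : p ∈ free Y (afterM s y z) ↔ p ∈ free Y s ∧ p ≠ y ∧ p ≠ z := by
  simp only [mem_free, afterM, mem_insert, not_or]
  tauto

theorem free_addB {x p : X} : p ∈ free Y (addB s x) ↔ p ∈ free Y s ∧ p ≠ x := by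
  simp only [mem_free, addB, mem_insert, not_or]
  tauto

theorem tgt_spec {p : X} {A : Finset X} (h : tgt s p = some A) :
    A ∈ s.J ∧ alive s A ∧ p ∈ s.box A := by
  have h1 := List.mem_of_getLast? h
  rw [List.mem_filter] at h1
  exact ⟨h1.1, by simpa using h1.2⟩

theorem hot_tgt {p : X} (h : hot s p) : ∃ A, tgt s p = some A := by
  obtain ⟨A, hA, h1, h2⟩ := h
  unfold tgt
  have h3 : A ∈ s.J.filter (fun A => decide (alive s A ∧ p ∈ s.box A)) := by
    rw [List.mem_filter]
    exact ⟨hA, by simpa using ⟨h1, h2⟩⟩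
  have h4 : s.J.filter (fun A => decide (alive s A ∧ p ∈ s.box A)) ≠ [] := by
    intro h0
    rw [h0] at h3
    simp at h3
  exact ⟨_, List.getLast?_eq_some_getLast h4⟩

/-- A non-joined set with an unlost point in the box of a joined set is related to it. -/
theorem rel_unj (g : Good Y Lg s) {A C : Finset X} {v : X} (hA : A ∈ s.J) (hv : v ∈ s.box A)
    (hC : C ∉ s.J) (hvC : v ∈ C) (hl : s.lb C v = none) : Y.gr A = Y.gr C ∨ arith Y A C := by
  by_cases h : Y.gr A = Y.gr C
  · exact Or.inl h
  · rcases gen_or_arith h ((g.bx A hA).1 hv) hvC with h1 | h1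
    · exact absurd hl (g.hit A hA C hC v hvC hv h1)
    · exact Or.inr h1

/-- The level equals the reduced size plus the number of special points. -/
theorem lev_eq (A : Finset X) : lev s A = uh Y s A + #(Sp Y s A) := by
  unfold lev uh Sp
  rw [← card_union_of_disjoint]
  · congr 1
    ext v
    simp only [mem_filter, mem_union]
    tauto
  · rw [disjoint_left]
    intro v hv hv'
    simp only [mem_filter] at hv hv'
    tauto

end Pool.H33.MB2
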