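import Pool.Agent.H33.MB2.TinyBase

/-!
# MB2 TIA1: cold element, same set

Let `τ1 = c1 K^bs a1 (jb+L1+1)`, `τ2 = ρ2 K^bs a2 (jb+L2+1)`.  For `T` in the sum choose `e` with `colA` and `x ∈ e.1.2`, and
let `T' = (T.1, T.2.erase e)`: valid, surviving, `mpW Y s T = ev Y s T.1 e * mpW Y s T'` (`mpW_erase`, `surv_erase`).  `e = ((v, B), κ', S)`:
`B ∈ F` contains `u ≠ x` (at most `L` sets), `v ∈ B` (`k` points), `v` is free in `s1` (`surv_att`), `v ∈ T'.1`.
`ev Y s T.1 e = b1 Y s B ≤ τ1` for type 1 (`S = ∅`), and `= b2 Y s B * ∏_{l ∈ S} sv Y s B l ≤ τ2 * ∏` for type 2, where `S ⊆ leafI Y B`,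
`#S ≤ m`, so by `leaf_sum` the sum over `S` is at most `(1 + k M1)^m`.  `T ↦ (B, v, κ', S, T')` is injective.  So the sum is at most
`L * k * (τ1 + τ2 (1 + k M1)^m) * κ` (`root_sum`), which is at most `2 τ κ` (`t1τ`, `t2τ`, `k ≥ 1`, `M1 ≥ 1`).
-/

set_option linter.unusedSectionVars false

namespace Pool.H33.MB2

open Finset
open scoped Classical

variable {X Γ : Type*} [DecidableEq X] {Y : Sys X Γ} {Q : Num2}
  {Lg : List (Entry X) → Finset X → Finset X → Prop} {s : State X}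

theorem tia1_valid {y z : X} {T : MPt X} (hT : T ∈ mpS Y s y z) :
    ValidMP Y T ∧ mpW Y (afterM s y z) T ≠ 0 := by
  unfold mpS at hT
  rw [mem_filter] at hT
  refine ⟨?_, hT.2⟩
  have h := hT.1
  unfold mpI at h
  rw [mem_filter] at h
  exact h.2

/-- the chosen element is valid and its link is free after the claims -/
theorem tia1_mem (hF : FamH Y) {y z u : X} {T : MPt X} (hT : T ∈ mpS Y s y z) {e : El X}
    (h : colA Y s u T e) : e.1.1 ∈ free Y (afterM s y z) ∧ ValidEl Y T.1 e := by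
  obtain ⟨hv, hs⟩ := tia1_valid hT
  have h1 := hv.2.1 e h.1
  have h2 := (surv_att hv hs h.1 h.2.1).1
  refine ⟨?_, h1⟩
  rw [mem_free]
  exact ⟨hF.sub _ hv.1 h1.hE, h2.1, h2.2.1⟩

theorem tia1_ev_false {E : Finset X} {p : X × Finset X} {S : Finset (X × Finset X)}
    (ha : att Y s E p.2 p.1) : ev Y s E (p, false, S) = b1 Y s p.2 := by
  unfold ev
  have h1 : ¬ s.lb E p.1 = some p.2 := by
    rw [ha.2.2.1]
    simp
  rw [if_neg h1, if_pos ha]
  simp

theorem tia1_ev_true {E : Finset X} {p : X × Finset X} {S : Finset (X × Finset X)}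
    (ha : att Y s E p.2 p.1) :
    ev Y s E (p, true, S) = b2 Y s p.2 * ∏ l ∈ S, sv Y s p.2 l := by
  unfold ev
  have h1 : ¬ s.lb E p.1 = some p.2 := by
    rw [ha.2.2.1]
    simp
  rw [if_neg h1, if_pos ha]
  simp

/-- removing a fixed element -/
theorem tia1_fib (hF : FamH Y) (hN : NumH Y Q) (hG : GeoH Y Lg) (g : Good Y Lg s)
    {y z : X} (hy : y ∈ free Y s) (hz : z ∈ free Y s) {κ : ℝ}
    (hκ : ∀ p ∈ free Y (afterM s y z), Rt Y (afterM s y z) p ≤ κ) (e0 : El X) (c : ℝ)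
    (hc : 0 ≤ c) (𝒯 : Finset (MPt X)) (hv : e0.1.1 ∈ free Y (afterM s y z))
    (h : ∀ T ∈ 𝒯, T ∈ mpS Y s y z ∧ e0 ∈ T.2 ∧ ev Y s T.1 e0 ≤ c) :
    ∑ T ∈ 𝒯, mpW Y s T ≤ c * κ := by
  have hinj : Set.InjOn (fun T : MPt X => ((T.1, T.2.erase e0) : MPt X)) 𝒯 := by
    intro T hT T' hT' hTT
    have h1 := (h T hT).2.1
    have h2 := (h T' hT').2.1
    rw [Prod.mk.injEq] at hTT
    refine Prod.ext hTT.1 ?_
    rw [← insert_erase h1, ← insert_erase h2, hTT.2]
  calc ∑ T ∈ 𝒯, mpW Y s T ≤ ∑ T ∈ 𝒯, c * mpW Y s (T.1, T.2.erase e0) := by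
        refine sum_le_sum (fun T hT => ?_)
        rw [mpW_erase s (h T hT).2.1]
        exact mul_le_mul_of_nonneg_right (h T hT).2.2 (mpW_nonneg hN g _)
    _ = c * ∑ T' ∈ 𝒯.image (fun T : MPt X => ((T.1, T.2.erase e0) : MPt X)), mpW Y s T' := by
        rw [sum_image hinj, mul_sum]
    _ ≤ c * ∑ T' ∈ (mpS Y s y z).filter (fun T => e0.1.1 ∈ T.1), mpW Y s T' := by
        refine mul_le_mul_of_nonneg_left ?_ hc
        refine sum_le_sum_of_subset_of_nonneg ?_ (fun T' _ _ => mpW_nonneg hN g _)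
        intro T' hT'
        rw [mem_image] at hT'
        obtain ⟨T, hT, rfl⟩ := hT'
        obtain ⟨hm, he, -⟩ := h T hT
        obtain ⟨hval, hsur⟩ := tia1_valid hm
        rw [mem_filter]
        refine ⟨?_, (hval.2.1 e0 he).hE⟩
        unfold mpS
        rw [mem_filter]
        exact ⟨(mem_mpI hF).2 (valid_erase hval e0), (surv_erase hsur he).1⟩
    _ ≤ c * κ := mul_le_mul_of_nonneg_left (root_sum hF hN hG g hy hz hκ hv) hc

theorem tiny_a1 (hF : FamH Y) (hN : NumH Y Q) (hG : GeoH Y Lg) (g : Good Y Lg s)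
    (hgs : ∀ v ∈ free Y s, gs Y s v ≤ Y.M1) {y z : X} (hy : y ∈ free Y s) (hz : z ∈ free Y s)
    {u x : X} (hu : u ∈ free Y s) (hx : x ∈ free Y s) (hux : u ≠ x) {κ : ℝ} (hκ0 : 0 ≤ κ)
    (hκ : ∀ p ∈ free Y (afterM s y z), Rt Y (afterM s y z) p ≤ κ)
    (hκ' : ∀ p ∈ free Y (afterM s y z), phi Y (afterM s y z) p ≤ κ) :
    ∑ T ∈ (mpS Y s y z).filter (fun T => ∃ e, colA Y s u T e ∧ x ∈ e.1.2), mpW Y s T ≤
      2 * Q.τ * κ := by
  have hK := K_pos hN
  have hc1 := hN.c1pos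
  have hρ2 := hN.ρ2pos
  set τ1 : ℝ := Y.c1 * Y.K ^ Y.bs * Y.a1 (Y.jb + Y.L1 + 1) with hτ1
  set τ2 : ℝ := Y.ρ2 * Y.K ^ Y.bs * Y.a2 (Y.jb + Y.L2 + 1) with hτ2
  have hτ10 : 0 ≤ τ1 := by have := hN.a1pos (Y.jb + Y.L1 + 1); positivity
  have hτ20 : 0 ≤ τ2 := by have := hN.a2pos (Y.jb + Y.L2 + 1); positivity
  set R : ℝ := (1 + Y.k * Y.M1) ^ Y.m with hR
  have hM1 := hN.M11
  have hR1 : 1 ≤ R := one_le_pow₀ (by nlinarith [Nat.cast_nonneg (α := ℝ) Y.k])
  set 𝒯 := (mpS Y s y z).filter (fun T => ∃ e, colA Y s u T e ∧ x ∈ e.1.2) with h𝒯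
  have hex : ∀ T ∈ 𝒯, ∃ e, colA Y s u T e ∧ x ∈ e.1.2 := fun T hT => (mem_filter.1 hT).2
  have hne : Nonempty (El X) := ⟨((u, ∅), false, ∅)⟩
  choose! e he using hex
  have hmp : ∀ T ∈ 𝒯, T ∈ mpS Y s y z := fun T hT => (mem_filter.1 hT).1
  set Fu := Y.F.filter (fun A => u ∈ A ∧ x ∈ A) with hFu
  set P := (free Y (afterM s y z) ×ˢ Fu).filter (fun p => p.1 ∈ p.2) with hP
  have hmap : ∀ T ∈ 𝒯, (e T).1 ∈ P := by
    intro T hT
    obtain ⟨h1, h2⟩ := tia1_mem hF (hmp T hT) (he T hT).1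
    rw [hP, mem_filter, mem_product]
    exact ⟨⟨h1, mem_filter.2 ⟨h2.hB, (he T hT).1.2.2.1.1, (he T hT).2⟩⟩, h2.hv⟩
  have hfib : ∀ p ∈ P, ∑ T ∈ 𝒯.filter (fun T => (e T).1 = p), mpW Y s T ≤
      (τ1 + τ2 * R) * κ := by
    intro p hp
    rw [hP, mem_filter, mem_product] at hp
    obtain ⟨⟨hp1, hp2⟩, hp3⟩ := hp
    rw [hFu, mem_filter] at hp2
    rw [← sum_filter_add_sum_filter_not (𝒯.filter (fun T => (e T).1 = p))
      (fun T => (e T).2.1 = false), add_mul]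
    refine add_le_add ?_ ?_
    · refine tia1_fib hF hN hG g hy hz hκ (p, false, ∅) τ1 hτ10 _ hp1 ?_
      intro T hT
      rw [mem_filter, mem_filter] at hT
      obtain ⟨⟨hT1, hT2⟩, hT3⟩ := hT
      obtain ⟨h1, h2⟩ := tia1_mem hF (hmp T hT1) (he T hT1).1
      have heq : e T = (p, false, ∅) := by
        rw [← hT2, ← hT3, ← h2.h1 hT3]
      have hcol := (he T hT1).1
      rw [heq] at hcol
      refine ⟨hmp T hT1, hcol.1, ?_⟩
      rw [tia1_ev_false hcol.2.1]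
      exact b1_cold hN hcol.2.2.2.2.2
    · have hmap2 : ∀ T ∈ (𝒯.filter (fun T => (e T).1 = p)).filter
          (fun T => ¬ (e T).2.1 = false), (e T).2.2 ∈
          (leafI Y p.2).powerset.filter (fun S => #S ≤ Y.m) := by
        intro T hT
        rw [mem_filter, mem_filter] at hT
        obtain ⟨⟨hT1, hT2⟩, hT3⟩ := hT
        obtain ⟨h1, h2⟩ := tia1_mem hF (hmp T hT1) (he T hT1).1
        rw [mem_filter, mem_powerset, ← hT2]
        refine ⟨fun l hl => ?_, h2.hm⟩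
        obtain ⟨a1, a2, a3, a4, -, -⟩ := h2.hl l hl
        unfold leafI
        rw [mem_filter, mem_product]
        exact ⟨⟨hF.sub _ a1 a4, a1⟩, a3, a4⟩
      rw [← sum_fiberwise_of_maps_to hmap2]
      have hleaf := leaf_sum hF hN g hgs hp2.1
      calc _ ≤ ∑ S ∈ (leafI Y p.2).powerset.filter (fun S => #S ≤ Y.m),
            (τ2 * ∏ l ∈ S, sv Y s p.2 l) * κ := by
            refine sum_le_sum (fun S hS => ?_)
            have hsv : 0 ≤ ∏ l ∈ S, sv Y s p.2 l :=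
              prod_nonneg (fun l _ => sv_nonneg hN g _ _)
            refine tia1_fib hF hN hG g hy hz hκ (p, true, S) _ (mul_nonneg hτ20 hsv) _ hp1 ?_
            intro T hT
            rw [mem_filter, mem_filter, mem_filter] at hT
            obtain ⟨⟨⟨hT1, hT2⟩, hT3⟩, hT4⟩ := hT
            have hT3' : (e T).2.1 = true := by
              cases h : (e T).2.1
              · exact absurd h hT3
              · rfl
            have heq : e T = (p, true, S) := by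
              rw [← hT2, ← hT3', ← hT4]
            have hcol := (he T hT1).1
            rw [heq] at hcol
            refine ⟨hmp T hT1, hcol.1, ?_⟩
            rw [tia1_ev_true hcol.2.1]
            exact mul_le_mul_of_nonneg_right (b2_cold hN hcol.2.2.2.2.2) hsv
        _ = (∑ S ∈ (leafI Y p.2).powerset.filter (fun S => #S ≤ Y.m),
            ∏ l ∈ S, sv Y s p.2 l) * (τ2 * κ) := by
            rw [sum_mul]
            exact sum_congr rfl (fun S _ => by ring)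
        _ ≤ R * (τ2 * κ) := mul_le_mul_of_nonneg_right hleaf (mul_nonneg hτ20 hκ0)
        _ = τ2 * R * κ := by ring
  rw [← sum_fiberwise_of_maps_to hmap]
  have hcardP : (#P : ℝ) ≤ Y.k * Y.L := by
    have h1 : P ⊆ Fu.biUnion (fun B => B.image (fun v => (v, B))) := by
      intro p hp
      rw [hP, mem_filter, mem_product] at hp
      rw [mem_biUnion]
      exact ⟨p.2, hp.1.2, mem_image.2 ⟨p.1, hp.2, rfl⟩⟩
    have h2 : #P ≤ #Fu * Y.k := by
      refine (card_le_card h1).trans (card_biUnion_le_card_mul _ _ _ (fun B hB => ?_))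
      refine card_image_le.trans ?_
      rw [hF.card B (mem_filter.1 hB).1]
    have h3 : #Fu ≤ Y.L := hF.codeg u x hux
    have h4 : #P ≤ Y.k * Y.L := by
      calc #P ≤ #Fu * Y.k := h2
        _ ≤ Y.L * Y.k := Nat.mul_le_mul_right _ h3
        _ = Y.k * Y.L := Nat.mul_comm _ _
    exact_mod_cast h4
  have hcc : 0 ≤ (τ1 + τ2 * R) * κ := by positivity
  calc _ ≤ ∑ p ∈ P, (τ1 + τ2 * R) * κ := sum_le_sum hfib
    _ = #P * ((τ1 + τ2 * R) * κ) := by rw [sum_const, nsmul_eq_mul]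
    _ ≤ (Y.k * Y.L) * ((τ1 + τ2 * R) * κ) := mul_le_mul_of_nonneg_right hcardP hcc
    _ = (Y.k * Y.L * τ1 + Y.k * Y.L * (τ2 * R)) * κ := by ring
    _ ≤ 2 * Q.τ * κ := by
      refine mul_le_mul_of_nonneg_right ?_ hκ0
      have hk1 : (1 : ℝ) ≤ Y.k := by exact_mod_cast hN.k1
      have hk4 : (Y.k : ℝ) ≤ (Y.k : ℝ) ^ 4 := le_self_pow₀ hk1 (by norm_num)
      have hL0 : (0 : ℝ) ≤ Y.L := Nat.cast_nonneg _
      have e1 : (Y.k : ℝ) * Y.L * τ1 ≤ Q.τ := by
        refine le_trans ?_ hN.t1τ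
        rw [← hτ1]
        gcongr
      have e2 : (Y.k : ℝ) * Y.L * (τ2 * R) ≤ Q.τ := by
        refine le_trans ?_ hN.t2τ
        rw [← hτ2, ← hR]
        have h5 : τ2 * R ≤ τ2 * (R * (1 + Y.M1)) := by
          refine mul_le_mul_of_nonneg_left ?_ hτ20
          nlinarith
        calc (Y.k : ℝ) * Y.L * (τ2 * R) ≤ (Y.k : ℝ) * Y.L * (τ2 * (R * (1 + Y.M1))) :=
              mul_le_mul_of_nonneg_left h5 (by positivity)
          _ ≤ (Y.k : ℝ) ^ 4 * Y.L * (τ2 * (R * (1 + Y.M1))) := by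
              have : 0 ≤ τ2 * (R * (1 + Y.M1)) := by positivity
              gcongr
      linarith

end Pool.H33.MB2
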