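import Pool.Agent.H33.MB2.TinyA1

/-!
# MB2 TIA2: cold element, the other point in a leaf

For `T` choose `e = ((v, B), κ', S)` and `l = (v', C) ∈ S` with `colA`, `att Y s B C v'`, `actN s C x`.
`κ' = true` (there is a leaf).  `T' = (T.1, T.2.erase e)`, `mpW Y s T = b2 Y s B * b1 Y s C * ∏_{S.erase l} sv Y s B * mpW Y s T'`.
Sum over: `C ∋ x` with `s.lb C x = none`, alive, not joined, clean: `Σ b1 Y s C ≤ gs Y s x ≤ M1`; `v' ∈ C` (`k` points);
`B ∋ v', u`, `v' ≠ u` (since `l.1 ≠ u`): `L` sets, `b2 Y s B ≤ τ2`; `S.erase l`: `≤ (1 + k M1)^m` (`leaf_sum`); `v ∈ B`: `k` points;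
`T'` with `v ∈ T'.1`: `≤ κ` (`root_sum`).  Total `≤ M1 * k * L * τ2 * (1 + k M1)^m * k * κ ≤ τ κ` (`t2τ`).
`T ↦ (C, v', B, S.erase l, v, T')` is injective.
-/

set_option linter.unusedSectionVars false

namespace Pool.H33.MB2

open Finset
open scoped Classical

variable {X Γ : Type*} [DecidableEq X] {Y : Sys X Γ} {Q : Num2}
  {Lg : List (Entry X) → Finset X → Finset X → Prop} {s : State X}

theorem tiny_a2 (hF : FamH Y) (hN : NumH Y Q) (hG : GeoH Y Lg) (g : Good Y Lg s)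
    (hgs : ∀ v ∈ free Y s, gs Y s v ≤ Y.M1) {y z : X} (hy : y ∈ free Y s) (hz : z ∈ free Y s)
    {u x : X} (hu : u ∈ free Y s) (hx : x ∈ free Y s) (hux : u ≠ x) {κ : ℝ} (hκ0 : 0 ≤ κ)
    (hκ : ∀ p ∈ free Y (afterM s y z), Rt Y (afterM s y z) p ≤ κ)
    (hκ' : ∀ p ∈ free Y (afterM s y z), phi Y (afterM s y z) p ≤ κ) :
    ∑ T ∈ (mpS Y s y z).filter (fun T => ∃ e, colA Y s u T e ∧ ∃ l ∈ e.2.2,
      att Y s e.1.2 l.2 l.1 ∧ actN s l.2 x), mpW Y s T ≤ Q.τ * κ := by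
  have hK := K_pos hN
  have hρ2 := hN.ρ2pos
  set τ2 : ℝ := Y.ρ2 * Y.K ^ Y.bs * Y.a2 (Y.jb + Y.L2 + 1) with hτ2
  have hτ20 : 0 ≤ τ2 := by have := hN.a2pos (Y.jb + Y.L2 + 1); positivity
  set R : ℝ := (1 + Y.k * Y.M1) ^ Y.m with hR
  have hM1 := hN.M11
  have hR1 : 1 ≤ R := one_le_pow₀ (by nlinarith [Nat.cast_nonneg (α := ℝ) Y.k])
  set 𝒯 := (mpS Y s y z).filter (fun T => ∃ e, colA Y s u T e ∧ ∃ l ∈ e.2.2,
      att Y s e.1.2 l.2 l.1 ∧ actN s l.2 x) with h𝒯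
  have hex : ∀ T ∈ 𝒯, ∃ q : El X × (X × Finset X), colA Y s u T q.1 ∧ q.2 ∈ q.1.2.2 ∧
      att Y s q.1.1.2 q.2.2 q.2.1 ∧ actN s q.2.2 x := by
    intro T hT
    obtain ⟨e, he, l, hl, h1, h2⟩ := (mem_filter.1 hT).2
    exact ⟨(e, l), he, hl, h1, h2⟩
  have hne : Nonempty (El X × (X × Finset X)) := ⟨(((u, ∅), false, ∅), (u, ∅))⟩
  choose! q hq using hex
  have hmp : ∀ T ∈ 𝒯, T ∈ mpS Y s y z := fun T hT => (mem_filter.1 hT).1
  have hmap : ∀ T ∈ 𝒯, (q T).2.2 ∈ Y.F.filter (fun C => x ∈ C ∧ s.lb C x = none ∧ alive s C ∧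
      C ∉ s.J ∧ clean Y s C) := by
    intro T hT
    obtain ⟨h1, h2, h3, h4⟩ := hq T hT
    obtain ⟨-, h5⟩ := tia1_mem hF (hmp T hT) h1
    rw [mem_filter]
    exact ⟨(h5.hl _ h2).1, h4.1, h4.2, h3.2.2.2.2.1, h3.2.2.2.2.2.1, h3.2.2.2.2.2.2⟩
  rw [← sum_fiberwise_of_maps_to hmap]
  have hC : ∀ C ∈ Y.F.filter (fun C => x ∈ C ∧ s.lb C x = none ∧ alive s C ∧
      C ∉ s.J ∧ clean Y s C), ∑ T ∈ 𝒯.filter (fun T => (q T).2.2 = C), mpW Y s T ≤
      b1 Y s C * (Y.k * (Y.L * Y.k) * (τ2 * R * κ)) := by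
    intro C hC
    have hCF : C ∈ Y.F := (mem_filter.1 hC).1
    have hb1 : 0 ≤ b1 Y s C := (b1_pos hN C).le
    set P := (C ×ˢ (free Y (afterM s y z) ×ˢ Y.F)).filter (fun p => p.1 ≠ u ∧ u ∈ p.2.2 ∧
      p.1 ∈ p.2.2 ∧ p.2.1 ∈ p.2.2) with hP
    have hmapP : ∀ T ∈ 𝒯.filter (fun T => (q T).2.2 = C), ((q T).2.1, (q T).1.1) ∈ P := by
      intro T hT
      rw [mem_filter] at hT
      obtain ⟨hT1, hT2⟩ := hT
      obtain ⟨h1, h2, h3, h4⟩ := hq T hT1
      obtain ⟨h6, h5⟩ := tia1_mem hF (hmp T hT1) h1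
      obtain ⟨a1, a2, a3, a4, -, -⟩ := h5.hl _ h2
      rw [hP, mem_filter, mem_product, mem_product]
      refine ⟨⟨?_, h6, h5.hB⟩, h1.2.2.2.2.1 _ h2, h1.2.2.1.1, a3, h5.hv⟩
      rw [← hT2]
      exact a4
    have hfib : ∀ p ∈ P, ∑ T ∈ (𝒯.filter (fun T => (q T).2.2 = C)).filter
        (fun T => ((q T).2.1, (q T).1.1) = p), mpW Y s T ≤ b1 Y s C * (τ2 * R * κ) := by
      intro p hp
      rw [hP, mem_filter, mem_product, mem_product] at hp
      obtain ⟨⟨hp1, hp2, hp3⟩, hp4, hp5, hp6, hp7⟩ := hp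
      have hmap2 : ∀ T ∈ (𝒯.filter (fun T => (q T).2.2 = C)).filter
          (fun T => ((q T).2.1, (q T).1.1) = p), (q T).1.2.2.erase (p.1, C) ∈
          (leafI Y p.2.2).powerset.filter (fun S => #S ≤ Y.m) := by
        intro T hT
        rw [mem_filter, mem_filter] at hT
        obtain ⟨⟨hT1, hT2⟩, hT3⟩ := hT
        obtain ⟨h1, h2, h3, h4⟩ := hq T hT1
        obtain ⟨h6, h5⟩ := tia1_mem hF (hmp T hT1) h1
        rw [mem_filter, mem_powerset, ← hT3]
        refine ⟨fun l hl => ?_, (card_le_card (erase_subset _ _)).trans h5.hm⟩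
        obtain ⟨a1, a2, a3, a4, -, -⟩ := h5.hl l (mem_of_mem_erase hl)
        unfold leafI
        rw [mem_filter, mem_product]
        exact ⟨⟨hF.sub _ a1 a4, a1⟩, a3, a4⟩
      rw [← sum_fiberwise_of_maps_to hmap2]
      have hleaf := leaf_sum hF hN g hgs hp3
      calc _ ≤ ∑ S ∈ (leafI Y p.2.2).powerset.filter (fun S => #S ≤ Y.m),
            (τ2 * (b1 Y s C * ∏ l ∈ S, sv Y s p.2.2 l)) * κ := by
            refine sum_le_sum (fun S hS => ?_)
            have hsv : 0 ≤ ∏ l ∈ S, sv Y s p.2.2 l :=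
              prod_nonneg (fun l _ => sv_nonneg hN g _ _)
            refine tia1_fib hF hN hG g hy hz hκ (p.2, true, insert (p.1, C) S) _
              (mul_nonneg hτ20 (mul_nonneg hb1 hsv)) _ hp2 ?_
            intro T hT
            rw [mem_filter, mem_filter, mem_filter] at hT
            obtain ⟨⟨⟨hT1, hT2⟩, hT3⟩, hT4⟩ := hT
            obtain ⟨h1, h2, h3, h4⟩ := hq T hT1
            obtain ⟨h6, h5⟩ := tia1_mem hF (hmp T hT1) h1
            have hl0 : (q T).2 = (p.1, C) := by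
              rw [← hT3, ← hT2]
            have hnot : (p.1, C) ∉ S := by
              rw [← hT4]
              exact notMem_erase _ _
            have hS : (q T).1.2.2 = insert (p.1, C) S := by
              rw [← hT4, ← hl0, insert_erase h2]
            have htrue : (q T).1.2.1 = true := by
              cases h : (q T).1.2.1
              · have h7 := h5.h1 h
                rw [h7] at h2
                simp at h2
              · rfl
            have heq : (q T).1 = (p.2, true, insert (p.1, C) S) := by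
              rw [← hS, ← htrue, ← hT3]
            have hatt : att Y s p.2.2 C p.1 := by
              rw [hl0, heq] at h3
              exact h3
            rw [heq] at h1
            refine ⟨hmp T hT1, h1.1, ?_⟩
            rw [tia1_ev_true h1.2.1, prod_insert hnot]
            have hsv0 : sv Y s p.2.2 (p.1, C) = b1 Y s C := by
              unfold sv
              have h8 : ¬ s.lb p.2.2 p.1 = some C := by
                rw [hatt.2.2.1]
                simp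
              rw [if_neg h8, if_pos hatt]
            rw [hsv0]
            exact mul_le_mul_of_nonneg_right (b2_cold hN h1.2.2.2.2.2) (mul_nonneg hb1 hsv)
        _ = (∑ S ∈ (leafI Y p.2.2).powerset.filter (fun S => #S ≤ Y.m),
            ∏ l ∈ S, sv Y s p.2.2 l) * (b1 Y s C * (τ2 * κ)) := by
            rw [sum_mul]
            exact sum_congr rfl (fun S _ => by ring)
        _ ≤ R * (b1 Y s C * (τ2 * κ)) :=
            mul_le_mul_of_nonneg_right hleaf (mul_nonneg hb1 (mul_nonneg hτ20 hκ0))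
        _ = b1 Y s C * (τ2 * R * κ) := by ring
    rw [← sum_fiberwise_of_maps_to hmapP]
    have hcardP : (#P : ℝ) ≤ Y.k * (Y.L * Y.k) := by
      have h1 : P ⊆ (C.erase u).biUnion (fun v' => (Y.F.filter (fun B => u ∈ B ∧ v' ∈ B)).biUnion
          (fun B => B.image (fun v => (v', (v, B))))) := by
        rintro ⟨v', v, B⟩ hp
        rw [hP, mem_filter, mem_product, mem_product] at hp
        obtain ⟨⟨hp1, hp2, hp3⟩, hp4, hp5, hp6, hp7⟩ := hp
        rw [mem_biUnion]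
        refine ⟨v', mem_erase.2 ⟨hp4, hp1⟩, ?_⟩
        rw [mem_biUnion]
        exact ⟨B, mem_filter.2 ⟨hp3, hp5, hp6⟩, mem_image.2 ⟨v, hp7, rfl⟩⟩
      have h2 : #P ≤ #(C.erase u) * (Y.L * Y.k) := by
        refine (card_le_card h1).trans (card_biUnion_le_card_mul _ _ _ (fun v' hv' => ?_))
        have hne' : u ≠ v' := (mem_erase.1 hv').1.symm
        refine (card_biUnion_le_card_mul _ _ Y.k (fun B hB => ?_)).trans
          (Nat.mul_le_mul_right _ (hF.codeg u v' hne'))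
        refine card_image_le.trans ?_
        rw [hF.card B (mem_filter.1 hB).1]
      have h3 : #(C.erase u) ≤ Y.k := by
        rw [← hF.card C hCF]
        exact card_le_card (erase_subset _ _)
      have h4 : #P ≤ Y.k * (Y.L * Y.k) := h2.trans (Nat.mul_le_mul_right _ h3)
      exact_mod_cast h4
    have hcc : 0 ≤ b1 Y s C * (τ2 * R * κ) := by positivity
    calc _ ≤ ∑ p ∈ P, b1 Y s C * (τ2 * R * κ) := sum_le_sum hfib
      _ = #P * (b1 Y s C * (τ2 * R * κ)) := by rw [sum_const, nsmul_eq_mul]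
      _ ≤ (Y.k * (Y.L * Y.k)) * (b1 Y s C * (τ2 * R * κ)) :=
        mul_le_mul_of_nonneg_right hcardP hcc
      _ = b1 Y s C * (Y.k * (Y.L * Y.k) * (τ2 * R * κ)) := by ring
  have hkL : 0 ≤ (Y.k : ℝ) * (Y.L * Y.k) * (τ2 * R * κ) := by positivity
  calc _ ≤ ∑ C ∈ Y.F.filter (fun C => x ∈ C ∧ s.lb C x = none ∧ alive s C ∧
      C ∉ s.J ∧ clean Y s C), b1 Y s C * (Y.k * (Y.L * Y.k) * (τ2 * R * κ)) := sum_le_sum hC
    _ = gs Y s x * (Y.k * (Y.L * Y.k) * (τ2 * R * κ)) := by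
      rw [← sum_mul]
      rfl
    _ ≤ Y.M1 * (Y.k * (Y.L * Y.k) * (τ2 * R * κ)) :=
      mul_le_mul_of_nonneg_right (hgs x hx) hkL
    _ = (Y.k ^ 2 * Y.L * (τ2 * (R * Y.M1))) * κ := by ring
    _ ≤ Q.τ * κ := by
      refine mul_le_mul_of_nonneg_right ?_ hκ0
      refine le_trans ?_ hN.t2τ
      rw [← hτ2, ← hR]
      have hk1 : (1 : ℝ) ≤ Y.k := by exact_mod_cast hN.k1
      have hk4 : (Y.k : ℝ) ^ 2 ≤ (Y.k : ℝ) ^ 4 := pow_le_pow_right₀ hk1 (by norm_num)
      have hL0 : (0 : ℝ) ≤ Y.L := Nat.cast_nonneg _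
      have h5 : τ2 * (R * Y.M1) ≤ τ2 * (R * (1 + Y.M1)) := by
        refine mul_le_mul_of_nonneg_left ?_ hτ20
        nlinarith
      have h6 : 0 ≤ τ2 * (R * (1 + Y.M1)) := by positivity
      calc (Y.k : ℝ) ^ 2 * Y.L * (τ2 * (R * Y.M1)) ≤
            (Y.k : ℝ) ^ 2 * Y.L * (τ2 * (R * (1 + Y.M1))) :=
              mul_le_mul_of_nonneg_left h5 (by positivity)
        _ ≤ (Y.k : ℝ) ^ 4 * Y.L * (τ2 * (R * (1 + Y.M1))) := by gcongr

end Pool.H33.MB2
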