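import Pool.Agent.H33.MB2.TinyBase
import Pool.Agent.H33.MB2.TinyA1

/-!
# MB2 TIA3: cold element, the other point in another element

As `tiny_a1`, but now `T' = (T.1, T.2.erase e)` is active at `x`; given `T'` (root `E = T'.1`): `v ∈ E` (`k` points),
`B` contains `v ≠ u` (`L` sets), type and leaves as in `tiny_a1`.  Total
`≤ k L (τ1 + τ2 (1 + k M1)^m) * Σ_{T' surviving, active at x} mpW Y s T' ≤ 2 τ Σ`.
-/

set_option linter.unusedSectionVars false

namespace Pool.H33.MB2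

open Finset
open scoped Classical

variable {X Γ : Type*} [DecidableEq X] {Y : Sys X Γ} {Q : Num2}
  {Lg : List (Entry X) → Finset X → Finset X → Prop} {s : State X}

/-- adding a fixed element to a fixed tuple -/
theorem tia3_fib (hN : NumH Y Q) (g : Good Y Lg s) (T' : MPt X) (e0 : El X) (c : ℝ)
    (hc : 0 ≤ c) (𝒯 : Finset (MPt X))
    (h : ∀ T ∈ 𝒯, e0 ∈ T.2 ∧ ((T.1, T.2.erase e0) : MPt X) = T' ∧ ev Y s T.1 e0 ≤ c) :
    ∑ T ∈ 𝒯, mpW Y s T ≤ c * mpW Y s T' := by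
  have h0 : 0 ≤ c * mpW Y s T' := mul_nonneg hc (mpW_nonneg hN g _)
  have huniq : ∀ T ∈ 𝒯, T = (T'.1, insert e0 T'.2) := by
    intro T hT
    obtain ⟨h1, h2, -⟩ := h T hT
    rw [← h2]
    exact Prod.ext rfl (insert_erase h1).symm
  rcases 𝒯.eq_empty_or_nonempty with h1 | ⟨T, hT⟩
  · rw [h1, sum_empty]
    exact h0
  · have h2 : 𝒯 = {T} := by
      refine eq_singleton_iff_unique_mem.2 ⟨hT, fun T1 hT1 => ?_⟩
      rw [huniq T1 hT1, huniq T hT]
    rw [h2, sum_singleton]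
    obtain ⟨h3, h4, h5⟩ := h T hT
    rw [mpW_erase s h3, h4]
    exact mul_le_mul_of_nonneg_right h5 (mpW_nonneg hN g _)

theorem tiny_a3 (hF : FamH Y) (hN : NumH Y Q) (hG : GeoH Y Lg) (g : Good Y Lg s)
    (hgs : ∀ v ∈ free Y s, gs Y s v ≤ Y.M1) {y z : X} (hy : y ∈ free Y s) (hz : z ∈ free Y s)
    {u x : X} (hu : u ∈ free Y s) (hx : x ∈ free Y s) (hux : u ≠ x) {κ : ℝ} (hκ0 : 0 ≤ κ)
    (hκ : ∀ p ∈ free Y (afterM s y z), Rt Y (afterM s y z) p ≤ κ)
    (hκ' : ∀ p ∈ free Y (afterM s y z), phi Y (afterM s y z) p ≤ κ) :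
    ∑ T ∈ (mpS Y s y z).filter (fun T => ∃ e, colA Y s u T e ∧
      act Y s x (.inl (T.1, T.2.erase e))), mpW Y s T ≤
      2 * Q.τ * ∑ T ∈ (mpS Y s y z).filter (fun T => act Y s x (.inl T)), mpW Y s T := by
  have hK := K_pos hN
  have hc1 := hN.c1pos
  have hρ2 := hN.ρ2pos
  set τ1 : ℝ := Y.c1 * Y.K ^ Y.bs * Y.a1 (Y.jb + Y.L1 + 1) with hτ1
  set τ2 : ℝ := Y.ρ2 * Y.K ^ Y.bs * Y.a2 (Y.jb + Y.L2 + 1) with hτ2
  have hτ10 : 0 ≤ τ1 := by have := hN.a1pos (Y.jb + Y.L1 + 1); positivity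
  have hτ20 : 0 ≤ τ2 := by have := hN.a2pos (Y.jb + Y.L2 + 1); positivity
  set R : ℝ := (1 + Y.k * Y.M1) ^ Y.m with hR
  have hM1 := hN.M11
  have hR1 : 1 ≤ R := one_le_pow₀ (by nlinarith [Nat.cast_nonneg (α := ℝ) Y.k])
  set 𝒯 := (mpS Y s y z).filter (fun T => ∃ e, colA Y s u T e ∧
      act Y s x (.inl (T.1, T.2.erase e))) with h𝒯
  set 𝒜 := (mpS Y s y z).filter (fun T => act Y s x (.inl T)) with h𝒜
  have hex : ∀ T ∈ 𝒯, ∃ e, colA Y s u T e ∧ act Y s x (.inl (T.1, T.2.erase e)) :=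
    fun T hT => (mem_filter.1 hT).2
  have hne : Nonempty (El X) := ⟨((u, ∅), false, ∅)⟩
  choose! e he using hex
  have hmp : ∀ T ∈ 𝒯, T ∈ mpS Y s y z := fun T hT => (mem_filter.1 hT).1
  have hmapA : ∀ T ∈ 𝒯, ((T.1, T.2.erase (e T)) : MPt X) ∈ 𝒜 := by
    intro T hT
    obtain ⟨hval, hsur⟩ := tia1_valid (hmp T hT)
    rw [h𝒜, mem_filter]
    refine ⟨?_, (he T hT).2⟩
    unfold mpS
    rw [mem_filter]
    exact ⟨(mem_mpI hF).2 (valid_erase hval (e T)), (surv_erase hsur (he T hT).1.1).1⟩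
  rw [← sum_fiberwise_of_maps_to hmapA, mul_sum]
  refine sum_le_sum fun T' hT' => ?_
  have hT'F : T'.1 ∈ Y.F := (tia1_valid (mem_filter.1 hT').1).1.1
  have hW0 : 0 ≤ mpW Y s T' := mpW_nonneg hN g _
  set P := (T'.1 ×ˢ Y.F).filter (fun p => p.1 ∈ p.2 ∧ u ∈ p.2 ∧ p.1 ≠ u) with hP
  have hmap : ∀ T ∈ 𝒯.filter (fun T => ((T.1, T.2.erase (e T)) : MPt X) = T'), (e T).1 ∈ P := by
    intro T hT
    rw [mem_filter] at hT
    obtain ⟨hT, hTT⟩ := hT
    obtain ⟨h1, h2⟩ := tia1_mem hF (hmp T hT) (he T hT).1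
    rw [hP, mem_filter, mem_product]
    have hE : (e T).1.1 ∈ T'.1 := by
      rw [← hTT]
      exact h2.hE
    exact ⟨⟨hE, h2.hB⟩, h2.hv, (he T hT).1.2.2.1.1, (he T hT).1.2.2.2.1.symm⟩
  have hfib : ∀ p ∈ P, ∑ T ∈ (𝒯.filter (fun T => ((T.1, T.2.erase (e T)) : MPt X) = T')).filter
      (fun T => (e T).1 = p), mpW Y s T ≤ (τ1 + τ2 * R) * mpW Y s T' := by
    intro p hp
    rw [hP, mem_filter, mem_product] at hp
    obtain ⟨⟨hp1, hp2⟩, hp3, hp4, hp5⟩ := hp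
    rw [← sum_filter_add_sum_filter_not ((𝒯.filter (fun T =>
      ((T.1, T.2.erase (e T)) : MPt X) = T')).filter (fun T => (e T).1 = p))
      (fun T => (e T).2.1 = false), add_mul]
    refine add_le_add ?_ ?_
    · refine tia3_fib hN g T' (p, false, ∅) τ1 hτ10 _ ?_
      intro T hT
      rw [mem_filter, mem_filter, mem_filter] at hT
      obtain ⟨⟨⟨hT1, hTT⟩, hT2⟩, hT3⟩ := hT
      obtain ⟨h1, h2⟩ := tia1_mem hF (hmp T hT1) (he T hT1).1
      have heq : e T = (p, false, ∅) := by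
        rw [← hT2, ← hT3, ← h2.h1 hT3]
      have hcol := (he T hT1).1
      rw [heq] at hcol hTT
      refine ⟨hcol.1, hTT, ?_⟩
      rw [tia1_ev_false hcol.2.1]
      exact b1_cold hN hcol.2.2.2.2.2
    · have hmap2 : ∀ T ∈ ((𝒯.filter (fun T =>
          ((T.1, T.2.erase (e T)) : MPt X) = T')).filter (fun T => (e T).1 = p)).filter
          (fun T => ¬ (e T).2.1 = false), (e T).2.2 ∈
          (leafI Y p.2).powerset.filter (fun S => #S ≤ Y.m) := by
        intro T hT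
        rw [mem_filter, mem_filter, mem_filter] at hT
        obtain ⟨⟨⟨hT1, hTT⟩, hT2⟩, hT3⟩ := hT
        obtain ⟨h1, h2⟩ := tia1_mem hF (hmp T hT1) (he T hT1).1
        rw [mem_filter, mem_powerset, ← hT2]
        refine ⟨fun l hl => ?_, h2.hm⟩
        obtain ⟨a1, a2, a3, a4, -, -⟩ := h2.hl l hl
        unfold leafI
        rw [mem_filter, mem_product]
        exact ⟨⟨hF.sub _ a1 a4, a1⟩, a3, a4⟩
      rw [← sum_fiberwise_of_maps_to hmap2]
      have hleaf := leaf_sum hF hN g hgs hp2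
      calc _ ≤ ∑ S ∈ (leafI Y p.2).powerset.filter (fun S => #S ≤ Y.m),
            (τ2 * ∏ l ∈ S, sv Y s p.2 l) * mpW Y s T' := by
            refine sum_le_sum (fun S hS => ?_)
            have hsv : 0 ≤ ∏ l ∈ S, sv Y s p.2 l :=
              prod_nonneg (fun l _ => sv_nonneg hN g _ _)
            refine tia3_fib hN g T' (p, true, S) _ (mul_nonneg hτ20 hsv) _ ?_
            intro T hT
            rw [mem_filter, mem_filter, mem_filter, mem_filter] at hT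
            obtain ⟨⟨⟨⟨hT1, hTT⟩, hT2⟩, hT3⟩, hT4⟩ := hT
            have hT3' : (e T).2.1 = true := by
              cases h : (e T).2.1
              · exact absurd h hT3
              · rfl
            have heq : e T = (p, true, S) := by
              rw [← hT2, ← hT3', ← hT4]
            have hcol := (he T hT1).1
            rw [heq] at hcol hTT
            refine ⟨hcol.1, hTT, ?_⟩
            rw [tia1_ev_true hcol.2.1]
            exact mul_le_mul_of_nonneg_right (b2_cold hN hcol.2.2.2.2.2) hsv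
        _ = (∑ S ∈ (leafI Y p.2).powerset.filter (fun S => #S ≤ Y.m),
            ∏ l ∈ S, sv Y s p.2 l) * (τ2 * mpW Y s T') := by
            rw [sum_mul]
            exact sum_congr rfl (fun S _ => by ring)
        _ ≤ R * (τ2 * mpW Y s T') := mul_le_mul_of_nonneg_right hleaf (mul_nonneg hτ20 hW0)
        _ = τ2 * R * mpW Y s T' := by ring
  rw [← sum_fiberwise_of_maps_to hmap]
  have hcardP : (#P : ℝ) ≤ Y.k * Y.L := by
    have h1 : P ⊆ (T'.1.filter (fun v => v ≠ u)).biUnion (fun v =>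
        (Y.F.filter (fun A => v ∈ A ∧ u ∈ A)).image (fun B => (v, B))) := by
      intro p hp
      rw [hP, mem_filter, mem_product] at hp
      rw [mem_biUnion]
      exact ⟨p.1, mem_filter.2 ⟨hp.1.1, hp.2.2.2⟩,
        mem_image.2 ⟨p.2, mem_filter.2 ⟨hp.1.2, hp.2.1, hp.2.2.1⟩, rfl⟩⟩
    have h2 : #P ≤ #(T'.1.filter (fun v => v ≠ u)) * Y.L := by
      refine (card_le_card h1).trans (card_biUnion_le_card_mul _ _ _ (fun v hv => ?_))
      exact card_image_le.trans (hF.codeg v u (mem_filter.1 hv).2)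
    have h3 : #(T'.1.filter (fun v => v ≠ u)) ≤ Y.k := by
      refine (card_filter_le _ _).trans ?_
      rw [hF.card _ hT'F]
    have h4 : #P ≤ Y.k * Y.L := h2.trans (Nat.mul_le_mul_right _ h3)
    exact_mod_cast h4
  have hcc : 0 ≤ (τ1 + τ2 * R) * mpW Y s T' := by positivity
  calc _ ≤ ∑ p ∈ P, (τ1 + τ2 * R) * mpW Y s T' := sum_le_sum hfib
    _ = #P * ((τ1 + τ2 * R) * mpW Y s T') := by rw [sum_const, nsmul_eq_mul]
    _ ≤ (Y.k * Y.L) * ((τ1 + τ2 * R) * mpW Y s T') := mul_le_mul_of_nonneg_right hcardP hcc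
    _ = (Y.k * Y.L * τ1 + Y.k * Y.L * (τ2 * R)) * mpW Y s T' := by ring
    _ ≤ 2 * Q.τ * mpW Y s T' := by
      refine mul_le_mul_of_nonneg_right ?_ hW0
      have hk1 : (1 : ℝ) ≤ Y.k := by exact_mod_cast hN.k1
      have hk4 : (Y.k : ℝ) ≤ (Y.k : ℝ) ^ 4 := le_self_pow₀ hk1 (by norm_num)
      have hL0 : (0 : ℝ) ≤ Y.L := Nat.cast_nonneg _
      have e1 : (Y.k : ℝ) * Y.L * τ1 ≤ Q.τ := by
        refine le_trans ?_ hN.t1τ
        rw [← hτ1]
        gcongr
      have e2 : (Y.k : ℝ) * Y.L * (τ2 * R) ≤ Q.τ := by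
        refine le_trans ?_ hN.t2τ
        rw [← hτ2, ← hR]
        have h5 : τ2 * R ≤ τ2 * (R * (1 + Y.M1)) := by
          refine mul_le_mul_of_nonneg_left ?_ hτ20
          nlinarith
        calc (Y.k : ℝ) * Y.L * (τ2 * R) ≤ (Y.k : ℝ) * Y.L * (τ2 * (R * (1 + Y.M1))) :=
              mul_le_mul_of_nonneg_left h5 (by positivity)
          _ ≤ (Y.k : ℝ) ^ 4 * Y.L * (τ2 * (R * (1 + Y.M1))) := by
              have : 0 ≤ τ2 * (R * (1 + Y.M1)) := by positivity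
              gcongr
      linarith

end Pool.H33.MB2
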