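import Pool.Agent.H33.MB2.TinyBase

/-!
# MB2 TIB1: cold leaf, same set

For `T` choose `e`, `l = (v', C)` with `colB` and `x ∈ C`; `T' = cutl T e l`: valid, surviving, `mpW Y s T = b1 Y s C * mpW Y s T'`,
`b1 Y s C ≤ τ1` (`b1_cold`).  `C` contains `u ≠ x` (`L` sets), `v' ∈ C` (`k` points), and `T'` is active at `v'`: the shortened element
is attached, `v' ∈ e.1.2`, `s.lb e.1.2 v' = none` (from `att`), `v' ≠ e.1.1` (`ValidEl.hl`), `v'` is not the link of another leaf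
(`ValidEl.hd`: the leaves are disjoint and contain their links).  `v'` is free in `s1` (`surv_att`), so the sum over `T'` is at most `κ`
(`act_sum`).  `T ↦ (l, T')` is injective (`cutl_inj`).  Total `≤ L k τ1 κ ≤ τ κ`.
-/

set_option linter.unusedSectionVars false

namespace Pool.H33.MB2

open Finset
open scoped Classical

variable {X Γ : Type*} [DecidableEq X] {Y : Sys X Γ} {Q : Num2}
  {Lg : List (Entry X) → Finset X → Finset X → Prop} {s : State X}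

theorem tb1_inj {α β γ : Type*} (P : Finset α) (R : Finset (γ × β)) (f : α → γ × β)
    (hf : ∀ a ∈ P, ∀ b ∈ P, f a = f b → a = b) (hR : ∀ a ∈ P, f a ∈ R) (w : α → ℝ) (w' : β → ℝ)
    {c : ℝ} (hc : 0 ≤ c) (hw : ∀ r ∈ R, 0 ≤ w' r.2) (hle : ∀ a ∈ P, w a ≤ c * w' (f a).2) :
    ∑ a ∈ P, w a ≤ c * ∑ r ∈ R, w' r.2 := by
  calc ∑ a ∈ P, w a ≤ ∑ a ∈ P, c * w' (f a).2 := sum_le_sum hle
    _ = c * ∑ a ∈ P, w' (f a).2 := by rw [mul_sum]
    _ = c * ∑ r ∈ P.image f, w' r.2 := by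
        rw [sum_image (fun a ha b hb h => hf a ha b hb h)]
    _ ≤ c * ∑ r ∈ R, w' r.2 := by
        refine mul_le_mul_of_nonneg_left (sum_le_sum_of_subset_of_nonneg ?_ ?_) hc
        · intro r hr
          obtain ⟨a, ha, rfl⟩ := mem_image.1 hr
          exact hR a ha
        · intro r hr _
          exact hw r hr

/-- facts on a tuple with an attached leaf -/
theorem tb1_act (hF : FamH Y) {y z : X} {T : MPt X} (hT : ValidMP Y T)
    (h : mpW Y (afterM s y z) T ≠ 0) {u : X} {e : El X} {l : X × Finset X}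
    (hB : colB Y s u T e l) : l.1 ∈ free Y (afterM s y z) ∧ act Y s l.1 (.inl (cutl T e l)) := by
  obtain ⟨he, ha, hl, hb, -, -, -⟩ := hB
  obtain ⟨-, h2⟩ := surv_att hT h he ha
  have h3 := h2 l hl hb
  have hv := hT.2.1 e he
  obtain ⟨l1, l2, l3, l4, l5, l6⟩ := hv.hl l hl
  have h4 : alive (afterM s y z) T.1 ∧ T.1 ∉ (afterM s y z).J := by
    by_contra hc
    apply h
    unfold mpW
    rw [if_neg hc]
  refine ⟨mem_free.2 ⟨hF.sub _ hv.hB l3, h3.1, h3.2.1⟩, h4.1, h4.2, _, mem_insert_self _ _, ha, ?_⟩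
  left
  refine ⟨⟨l3, hb.2.2.1⟩, l5, ?_, trivial⟩
  intro l' hl' hll
  have hl'2 := mem_of_mem_erase hl'
  have hne : l' ≠ l := (mem_erase.1 hl').1
  have hd := hv.hd l' hl'2 l hl hne
  obtain ⟨-, -, -, m4, -, -⟩ := hv.hl l' hl'2
  rw [disjoint_left] at hd
  exact hd m4 (by rw [hll]; exact l4)

theorem tiny_b1 (hF : FamH Y) (hN : NumH Y Q) (hG : GeoH Y Lg) (g : Good Y Lg s)
    (hgs : ∀ v ∈ free Y s, gs Y s v ≤ Y.M1) {y z : X} (hy : y ∈ free Y s) (hz : z ∈ free Y s)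
    {u x : X} (hu : u ∈ free Y s) (hx : x ∈ free Y s) (hux : u ≠ x) {κ : ℝ} (hκ0 : 0 ≤ κ)
    (hκ : ∀ p ∈ free Y (afterM s y z), Rt Y (afterM s y z) p ≤ κ)
    (hκ' : ∀ p ∈ free Y (afterM s y z), phi Y (afterM s y z) p ≤ κ) :
    ∑ T ∈ (mpS Y s y z).filter (fun T => ∃ e l, colB Y s u T e l ∧ x ∈ l.2), mpW Y s T ≤
      Q.τ * κ := by
  have hX : Nonempty X := ⟨x⟩
  set P := (mpS Y s y z).filter (fun T => ∃ e l, colB Y s u T e l ∧ x ∈ l.2) with hP
  have hex : ∀ T ∈ P, ∃ e l, colB Y s u T e l ∧ x ∈ l.2 := fun T hT => (mem_filter.1 hT).2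
  choose! e l hel using hex
  have hV : ∀ T ∈ P, ValidMP Y T ∧ mpW Y (afterM s y z) T ≠ 0 := by
    intro T hT
    have h1 := (mem_filter.1 hT).1
    unfold mpS at h1
    rw [mem_filter, mem_mpI hF] at h1
    exact h1
  set τ1 : ℝ := Y.c1 * Y.K ^ Y.bs * Y.a1 (Y.jb + Y.L1 + 1) with hτ1
  have hK := K_pos hN
  have hτ1p : 0 < τ1 := mul_pos (mul_pos hN.c1pos (pow_pos hK _)) (hN.a1pos _)
  set Ls : Finset (X × Finset X) := (Y.F.filter (fun C => u ∈ C ∧ x ∈ C)).biUnion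
    (fun C => C.image (fun v => (v, C))) with hLs
  have hLcard : #Ls ≤ Y.k * Y.L := by
    calc #Ls ≤ ∑ C ∈ Y.F.filter (fun C => u ∈ C ∧ x ∈ C), #(C.image (fun v => (v, C))) :=
          card_biUnion_le
      _ ≤ ∑ C ∈ Y.F.filter (fun C => u ∈ C ∧ x ∈ C), Y.k := by
          refine sum_le_sum fun C hC => ?_
          exact card_image_le.trans (hF.card C (mem_filter.1 hC).1).le
      _ = #(Y.F.filter (fun C => u ∈ C ∧ x ∈ C)) * Y.k := by rw [sum_const, smul_eq_mul]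
      _ ≤ Y.L * Y.k := Nat.mul_le_mul_right _ (hF.codeg u x hux)
      _ = Y.k * Y.L := mul_comm _ _
  set Lf := Ls.filter (fun l => l.1 ∈ free Y (afterM s y z)) with hLf
  have hmain := tb1_inj P ((Lf ×ˢ mpS Y s y z).filter (fun r => act Y s r.1.1 (.inl r.2)))
    (fun T => (l T, cutl T (e T) (l T)))
    (by
      intro T hT T' hT' h
      rw [Prod.mk.injEq] at h
      obtain ⟨h1, h2⟩ := h
      have hB := (hel T hT).1
      have hB' := (hel T' hT').1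
      rw [← h1] at h2 hB'
      exact cutl_inj (hV T hT).1 (hV T' hT').1 hB.1 hB.2.2.1 hB'.1 hB'.2.2.1 h2)
    (by
      intro T hT
      have hB := (hel T hT).1
      obtain ⟨hv, hw⟩ := hV T hT
      obtain ⟨h1, h2⟩ := tb1_act hF hv hw hB
      obtain ⟨b1, b2, b3, b4, b5, b6, b7⟩ := hB
      obtain ⟨l1, l2, l3, l4, l5, l6⟩ := (hv.2.1 _ b1).hl _ b3
      rw [mem_filter, mem_product]
      refine ⟨⟨?_, ?_⟩, h2⟩
      · rw [hLf, mem_filter]
        refine ⟨?_, h1⟩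
        rw [hLs, mem_biUnion]
        refine ⟨(l T).2, mem_filter.2 ⟨l1, b5.1, (hel T hT).2⟩, ?_⟩
        rw [mem_image]
        exact ⟨(l T).1, l4, rfl⟩
      · unfold mpS
        rw [mem_filter, mem_mpI hF]
        exact ⟨valid_cutl hv b1 b3, surv_cutl hv hw b1 b3 b2 b4⟩)
    (fun T => mpW Y s T) (fun T => mpW Y s T) hτ1p.le (fun r _ => mpW_nonneg hN g _)
    (by
      intro T hT
      obtain ⟨b1, b2, b3, b4, b5, b6, b7⟩ := (hel T hT).1
      obtain ⟨hv, hw⟩ := hV T hT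
      show mpW Y s T ≤ τ1 * mpW Y s (cutl T (e T) (l T))
      rw [mpW_cutl hv b1 b3 b2 b4]
      exact mul_le_mul_of_nonneg_right (b1_cold hN b7) (mpW_nonneg hN g _))
  have hsum : ∑ r ∈ (Lf ×ˢ mpS Y s y z).filter (fun r => act Y s r.1.1 (.inl r.2)),
      mpW Y s r.2 ≤ (Y.k * Y.L : ℝ) * κ := by
    rw [sum_filter, sum_product]
    calc ∑ l ∈ Lf, ∑ T ∈ mpS Y s y z, (if act Y s (l, T).1.1 (.inl (l, T).2)
          then mpW Y s (l, T).2 else 0)
        ≤ ∑ _l ∈ Lf, κ := by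
          refine sum_le_sum fun l hl => ?_
          rw [← sum_filter]
          exact act_sum hF hN hG g hy hz hκ' (mem_filter.1 hl).2
      _ = #Lf * κ := by rw [sum_const, nsmul_eq_mul]
      _ ≤ (Y.k * Y.L : ℝ) * κ := by
          refine mul_le_mul_of_nonneg_right ?_ hκ0
          have : #Lf ≤ Y.k * Y.L := (card_le_card (filter_subset _ _)).trans hLcard
          exact_mod_cast this
  have hk1 : (1 : ℝ) ≤ Y.k := by exact_mod_cast hN.k1
  have hk4 : (Y.k : ℝ) ≤ (Y.k : ℝ) ^ 4 := le_self_pow₀ hk1 (by norm_num)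
  have hLn : (0 : ℝ) ≤ Y.L := Nat.cast_nonneg _
  calc ∑ T ∈ P, mpW Y s T ≤ τ1 * ∑ r ∈ (Lf ×ˢ mpS Y s y z).filter
        (fun r => act Y s r.1.1 (.inl r.2)), mpW Y s r.2 := hmain
    _ ≤ τ1 * ((Y.k * Y.L : ℝ) * κ) := mul_le_mul_of_nonneg_left hsum hτ1p.le
    _ = ((Y.k : ℝ) * Y.L * τ1) * κ := by ring
    _ ≤ ((Y.k : ℝ) ^ 4 * Y.L * τ1) * κ := by
        refine mul_le_mul_of_nonneg_right ?_ hκ0
        exact mul_le_mul_of_nonneg_right (mul_le_mul_of_nonneg_right hk4 hLn) hτ1p.le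
    _ ≤ Q.τ * κ := mul_le_mul_of_nonneg_right hN.t1τ hκ0

end Pool.H33.MB2
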