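import Pool.Agent.H33.MB2.TinyBase

/-!
# MB2 TIB2: cold leaf, the other point elsewhere

For `T` choose `e`, `l = (v', C)` with `colB` such that `T' = cutl T e l` is active at `x`.  Given `T'`: `v'` lies in `e'.1.2` for some
`e' ∈ T'.2`; `#T'.2 ≤ k` (the links are distinct points of `T'.1`), so at most `k^2` choices of `v'`; `C` contains `v' ≠ u` (`L`
sets).  `mpW Y s T = b1 Y s C * mpW Y s T' ≤ τ1 * mpW Y s T'`.  `T ↦ (l, T')` is injective (`cutl_inj`).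
Total `≤ k^2 L τ1 Σ ≤ τ Σ`.
-/

set_option linter.unusedSectionVars false

namespace Pool.H33.MB2

open Finset
open scoped Classical

variable {X Γ : Type*} [DecidableEq X] {Y : Sys X Γ} {Q : Num2}
  {Lg : List (Entry X) → Finset X → Finset X → Prop} {s : State X}

theorem tb2_inj {α β γ : Type*} (P : Finset α) (R : Finset (γ × β)) (f : α → γ × β)
    (hf : ∀ a ∈ P, ∀ b ∈ P, f a = f b → a = b) (hR : ∀ a ∈ P, f a ∈ R) (w : α → ℝ) (w' : β → ℝ)
    {c : ℝ} (hc : 0 ≤ c) (hw : ∀ r ∈ R, 0 ≤ w' r.2) (hle : ∀ a ∈ P, w a ≤ c * w' (f a).2) :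
    ∑ a ∈ P, w a ≤ c * ∑ r ∈ R, w' r.2 := by
  calc ∑ a ∈ P, w a ≤ ∑ a ∈ P, c * w' (f a).2 := sum_le_sum hle
    _ = c * ∑ a ∈ P, w' (f a).2 := by rw [mul_sum]
    _ = c * ∑ r ∈ P.image f, w' r.2 := by
        rw [sum_image (fun a ha b hb h => hf a ha b hb h)]
    _ ≤ c * ∑ r ∈ R, w' r.2 := by
        refine mul_le_mul_of_nonneg_left (sum_le_sum_of_subset_of_nonneg ?_ ?_) hc
        · intro r hr
          obtain ⟨a, ha, rfl⟩ := mem_image.1 hr
          exact hR a ha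
        · intro r hr _
          exact hw r hr

/-- the number of elements of a valid tuple -/
theorem tb2_card (hF : FamH Y) {T : MPt X} (hT : ValidMP Y T) : #T.2 ≤ Y.k := by
  have h1 : #(T.2.image (fun e => e.1.1)) = #T.2 := by
    apply card_image_of_injOn
    intro e he e' he' h
    by_contra hne
    have hd := hT.2.2 e he e' he' hne
    rw [disjoint_left] at hd
    have h2 : e.1.1 ∈ supp e := mem_union_left _ (hT.2.1 e he).hv
    have h3 : e'.1.1 ∈ supp e' := mem_union_left _ (hT.2.1 e' he').hv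
    have h' : e.1.1 = e'.1.1 := h
    rw [← h'] at h3
    exact hd h2 h3
  rw [← h1, ← hF.card T.1 hT.1]
  apply card_le_card
  intro v hv
  obtain ⟨e, he, rfl⟩ := mem_image.1 hv
  exact (hT.2.1 e he).hE

/-- the possible leaves -/
noncomputable def tb2_NL (Y : Sys X Γ) (u : X) (T : MPt X) : Finset (X × Finset X) :=
  ((T.2.biUnion (fun e => e.1.2)).filter (fun v => v ≠ u)).biUnion
    (fun v => (Y.F.filter (fun C => v ∈ C ∧ u ∈ C)).image (fun C => (v, C)))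

theorem tb2_NLcard (hF : FamH Y) {T : MPt X} (hT : ValidMP Y T) (u : X) :
    #(tb2_NL Y u T) ≤ Y.k ^ 2 * Y.L := by
  have h1 : #(T.2.biUnion (fun e => e.1.2)) ≤ Y.k ^ 2 := by
    calc #(T.2.biUnion (fun e => e.1.2)) ≤ ∑ e ∈ T.2, #e.1.2 := card_biUnion_le
      _ = ∑ e ∈ T.2, Y.k := sum_congr rfl fun e he => hF.card _ (hT.2.1 e he).hB
      _ = #T.2 * Y.k := by rw [sum_const, smul_eq_mul]
      _ ≤ Y.k * Y.k := Nat.mul_le_mul_right _ (tb2_card hF hT)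
      _ = Y.k ^ 2 := by ring
  unfold tb2_NL
  calc #(((T.2.biUnion (fun e => e.1.2)).filter (fun v => v ≠ u)).biUnion
        (fun v => (Y.F.filter (fun C => v ∈ C ∧ u ∈ C)).image (fun C => (v, C))))
      ≤ ∑ v ∈ (T.2.biUnion (fun e => e.1.2)).filter (fun v => v ≠ u),
        #((Y.F.filter (fun C => v ∈ C ∧ u ∈ C)).image (fun C => (v, C))) := card_biUnion_le
    _ ≤ ∑ v ∈ (T.2.biUnion (fun e => e.1.2)).filter (fun v => v ≠ u), Y.L := by
        refine sum_le_sum fun v hv => ?_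
        exact card_image_le.trans (hF.codeg v u (mem_filter.1 hv).2)
    _ = #((T.2.biUnion (fun e => e.1.2)).filter (fun v => v ≠ u)) * Y.L := by
        rw [sum_const, smul_eq_mul]
    _ ≤ Y.k ^ 2 * Y.L :=
        Nat.mul_le_mul_right _ ((card_le_card (filter_subset _ _)).trans h1)

theorem tiny_b2 (hF : FamH Y) (hN : NumH Y Q) (hG : GeoH Y Lg) (g : Good Y Lg s)
    (hgs : ∀ v ∈ free Y s, gs Y s v ≤ Y.M1) {y z : X} (hy : y ∈ free Y s) (hz : z ∈ free Y s)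
    {u x : X} (hu : u ∈ free Y s) (hx : x ∈ free Y s) (hux : u ≠ x) {κ : ℝ} (hκ0 : 0 ≤ κ)
    (hκ : ∀ p ∈ free Y (afterM s y z), Rt Y (afterM s y z) p ≤ κ)
    (hκ' : ∀ p ∈ free Y (afterM s y z), phi Y (afterM s y z) p ≤ κ) :
    ∑ T ∈ (mpS Y s y z).filter (fun T => ∃ e l, colB Y s u T e l ∧
      act Y s x (.inl (cutl T e l))), mpW Y s T ≤
      Q.τ * ∑ T ∈ (mpS Y s y z).filter (fun T => act Y s x (.inl T)), mpW Y s T := by
  have hX : Nonempty X := ⟨x⟩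
  set P := (mpS Y s y z).filter (fun T => ∃ e l, colB Y s u T e l ∧
      act Y s x (.inl (cutl T e l))) with hP
  have hex : ∀ T ∈ P, ∃ e l, colB Y s u T e l ∧ act Y s x (.inl (cutl T e l)) :=
    fun T hT => (mem_filter.1 hT).2
  choose! e l hel using hex
  have hV : ∀ T ∈ P, ValidMP Y T ∧ mpW Y (afterM s y z) T ≠ 0 := by
    intro T hT
    have h1 := (mem_filter.1 hT).1
    unfold mpS at h1
    rw [mem_filter, mem_mpI hF] at h1
    exact h1
  set τ1 : ℝ := Y.c1 * Y.K ^ Y.bs * Y.a1 (Y.jb + Y.L1 + 1) with hτ1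
  have hK := K_pos hN
  have hτ1p : 0 < τ1 := mul_pos (mul_pos hN.c1pos (pow_pos hK _)) (hN.a1pos _)
  set R0 := (mpS Y s y z).filter (fun T => act Y s x (.inl T)) with hR0
  have hmain := tb2_inj P (((Y.S ×ˢ Y.F) ×ˢ R0).filter (fun r => r.1 ∈ tb2_NL Y u r.2))
    (fun T => (l T, cutl T (e T) (l T)))
    (by
      intro T hT T' hT' h
      rw [Prod.mk.injEq] at h
      obtain ⟨h1, h2⟩ := h
      have hB := (hel T hT).1
      have hB' := (hel T' hT').1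
      rw [← h1] at h2 hB'
      exact cutl_inj (hV T hT).1 (hV T' hT').1 hB.1 hB.2.2.1 hB'.1 hB'.2.2.1 h2)
    (by
      intro T hT
      obtain ⟨hv, hw⟩ := hV T hT
      obtain ⟨b1, b2, b3, b4, b5, b6, b7⟩ := (hel T hT).1
      obtain ⟨l1, l2, l3, l4, l5, l6⟩ := (hv.2.1 _ b1).hl _ b3
      rw [mem_filter, mem_product, mem_product]
      refine ⟨⟨⟨hF.sub _ l1 l4, l1⟩, ?_⟩, ?_⟩
      · rw [hR0, mem_filter]
        refine ⟨?_, (hel T hT).2⟩
        unfold mpS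
        rw [mem_filter, mem_mpI hF]
        exact ⟨valid_cutl hv b1 b3, surv_cutl hv hw b1 b3 b2 b4⟩
      · unfold tb2_NL
        rw [mem_biUnion]
        refine ⟨(l T).1, ?_, ?_⟩
        · rw [mem_filter, mem_biUnion]
          exact ⟨⟨_, mem_insert_self _ _, l3⟩, b6.symm⟩
        · rw [mem_image]
          exact ⟨(l T).2, mem_filter.2 ⟨l1, l4, b5.1⟩, rfl⟩)
    (fun T => mpW Y s T) (fun T => mpW Y s T) hτ1p.le (fun r _ => mpW_nonneg hN g _)
    (by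
      intro T hT
      obtain ⟨b1, b2, b3, b4, b5, b6, b7⟩ := (hel T hT).1
      obtain ⟨hv, hw⟩ := hV T hT
      show mpW Y s T ≤ τ1 * mpW Y s (cutl T (e T) (l T))
      rw [mpW_cutl hv b1 b3 b2 b4]
      exact mul_le_mul_of_nonneg_right (b1_cold hN b7) (mpW_nonneg hN g _))
  have hsum : ∑ r ∈ ((Y.S ×ˢ Y.F) ×ˢ R0).filter (fun r => r.1 ∈ tb2_NL Y u r.2),
      mpW Y s r.2 ≤ ((Y.k : ℝ) ^ 2 * Y.L) * ∑ T ∈ R0, mpW Y s T := by
    rw [sum_filter, sum_product_right, mul_sum]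
    refine sum_le_sum fun T hT => ?_
    have hTv : ValidMP Y T := by
      have h1 := (mem_filter.1 hT).1
      unfold mpS at h1
      rw [mem_filter, mem_mpI hF] at h1
      exact h1.1
    rw [← sum_filter]
    simp only
    rw [sum_const, nsmul_eq_mul]
    refine mul_le_mul_of_nonneg_right ?_ (mpW_nonneg hN g _)
    have h2 : #((Y.S ×ˢ Y.F).filter (fun l => l ∈ tb2_NL Y u T)) ≤ Y.k ^ 2 * Y.L := by
      refine (card_le_card ?_).trans (tb2_NLcard hF hTv u)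
      intro l hl
      exact (mem_filter.1 hl).2
    exact_mod_cast h2
  have hk1 : (1 : ℝ) ≤ Y.k := by exact_mod_cast hN.k1
  have hk4 : (Y.k : ℝ) ^ 2 ≤ (Y.k : ℝ) ^ 4 := pow_le_pow_right₀ hk1 (by norm_num)
  have hLn : (0 : ℝ) ≤ Y.L := Nat.cast_nonneg _
  have hR0n : 0 ≤ ∑ T ∈ R0, mpW Y s T := sum_nonneg fun T _ => mpW_nonneg hN g T
  calc ∑ T ∈ P, mpW Y s T ≤ τ1 * ∑ r ∈ ((Y.S ×ˢ Y.F) ×ˢ R0).filter
        (fun r => r.1 ∈ tb2_NL Y u r.2), mpW Y s r.2 := hmain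
    _ ≤ τ1 * (((Y.k : ℝ) ^ 2 * Y.L) * ∑ T ∈ R0, mpW Y s T) :=
        mul_le_mul_of_nonneg_left hsum hτ1p.le
    _ = ((Y.k : ℝ) ^ 2 * Y.L * τ1) * ∑ T ∈ R0, mpW Y s T := by ring
    _ ≤ ((Y.k : ℝ) ^ 4 * Y.L * τ1) * ∑ T ∈ R0, mpW Y s T := by
        refine mul_le_mul_of_nonneg_right ?_ hR0n
        exact mul_le_mul_of_nonneg_right (mul_le_mul_of_nonneg_right hk4 hLn) hτ1p.le
    _ ≤ Q.τ * ∑ T ∈ R0, mpW Y s T := mul_le_mul_of_nonneg_right hN.t1τ hR0n

end Pool.H33.MB2
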