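import Pool.Agent.H33.MB2.TinyDefs

/-!
# MB2 TICU: removing an element or a leaf of a micro tuple

* `mpW_erase`: `Finset.mul_prod_erase`; if the root is dead or joined both sides are 0.
* `mpW_cutl`: `e.2.1 = true` since `e.2.2` is nonempty (`ValidEl.h1`); `att Y s T.1 ..` gives `s.lb T.1 e.1.1 = none`, so
  `ev Y s T.1 e = b2 Y s e.1.2 * ∏ sv`, similarly `sv Y s e.1.2 l = b1 Y s l.2`.  The shortened element is not in
  `T.2.erase e`: its support contains `e.1.1` (`ValidEl.hv`), and supports of different elements of `T.2` are disjoint.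
* `cutl_inj`: `T.1 = T'.1`.  The element of `cutl T e l` whose support contains `l.1` is the shortened `e` (`l.1 ∈ e.1.2`; the others are
  elements of `T.2`, different from `e`, with disjoint support); for `T'` it is the shortened `e'`; so these agree, hence
  `e = e'` (insert `l` again) and then `T.2 = T'.2`.
-/

set_option linter.unusedSectionVars false

namespace Pool.H33.MB2

open Finset
open scoped Classical

variable {X Γ : Type*} [DecidableEq X] {Y : Sys X Γ} {Q : Num2}
  {Lg : List (Entry X) → Finset X → Finset X → Prop} {s : State X}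

theorem valid_erase {T : MPt X} (hT : ValidMP Y T) (e : El X) : ValidMP Y (T.1, T.2.erase e) := by
  refine ⟨hT.1, fun e' he' => hT.2.1 e' (mem_of_mem_erase he'), fun e' he' e'' he'' hne => ?_⟩
  exact hT.2.2 e' (mem_of_mem_erase he') e'' (mem_of_mem_erase he'') hne

theorem mpW_erase (s : State X) {T : MPt X} {e : El X} (he : e ∈ T.2) :
    mpW Y s T = ev Y s T.1 e * mpW Y s (T.1, T.2.erase e) := by
  unfold mpW
  by_cases h : alive s T.1 ∧ T.1 ∉ s.J
  · have h' : alive s (T.1, T.2.erase e).1 ∧ (T.1, T.2.erase e).1 ∉ s.J := h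
    rw [if_pos h, if_pos h']
    show Y.ρ * ∏ e ∈ T.2, ev Y s T.1 e = ev Y s T.1 e * (Y.ρ * ∏ e ∈ T.2.erase e, ev Y s T.1 e)
    rw [← mul_prod_erase T.2 (fun e => ev Y s T.1 e) he]
    ring
  · have h' : ¬ (alive s (T.1, T.2.erase e).1 ∧ (T.1, T.2.erase e).1 ∉ s.J) := h
    rw [if_neg h, if_neg h', mul_zero]

/-- The shortened element. -/
def shEl (e : El X) (l : X × Finset X) : El X := (e.1, e.2.1, e.2.2.erase l)

theorem valid_shEl {E : Finset X} {e : El X} (h : ValidEl Y E e) (l : X × Finset X) :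
    ValidEl Y E (shEl e l) where
  hB := h.hB
  hg := h.hg
  hE := h.hE
  hv := h.hv
  h1 := fun h0 => by
    show e.2.2.erase l = ∅
    rw [h.h1 h0]
    rfl
  hm := (card_erase_le).trans h.hm
  hl := fun l' hl' => h.hl l' (mem_of_mem_erase hl')
  hd := fun l' hl' l'' hl'' hne => h.hd l' (mem_of_mem_erase hl') l'' (mem_of_mem_erase hl'') hne

theorem supp_shEl (e : El X) (l : X × Finset X) : supp (shEl e l) ⊆ supp e := by
  unfold supp shEl
  refine union_subset_union (Subset.refl _) ?_
  exact biUnion_subset_biUnion_of_subset_left _ (erase_subset _ _)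

theorem mem_supp_self {E : Finset X} {e : El X} (h : ValidEl Y E e) : e.1.1 ∈ supp e :=
  mem_union_left _ h.hv

theorem shEl_notMem {T : MPt X} (hT : ValidMP Y T) {e : El X} (he : e ∈ T.2) (l : X × Finset X) :
    shEl e l ∉ T.2.erase e := by
  intro h
  have h1 := mem_of_mem_erase h
  have h2 : shEl e l ≠ e := ne_of_mem_erase h
  have h3 := hT.2.2 _ h1 _ he h2
  have h4 : e.1.1 ∈ supp (shEl e l) := mem_union_left _ (hT.2.1 e he).hv
  exact disjoint_left.1 h3 h4 (mem_supp_self (hT.2.1 e he))

theorem valid_cutl {T : MPt X} (hT : ValidMP Y T) {e : El X} (he : e ∈ T.2) {l : X × Finset X}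
    (hl : l ∈ e.2.2) : ValidMP Y (cutl T e l) := by
  have key : ∀ e' ∈ T.2.erase e, Disjoint (supp (shEl e l)) (supp e') := fun e' he' =>
    (hT.2.2 e he e' (mem_of_mem_erase he') (ne_of_mem_erase he').symm).mono_left (supp_shEl e l)
  refine ⟨hT.1, fun e' he' => ?_, fun e' he' e'' he'' hne => ?_⟩
  · rcases mem_insert.1 he' with rfl | h
    · exact valid_shEl (hT.2.1 e he) l
    · exact hT.2.1 e' (mem_of_mem_erase h)
  · rcases mem_insert.1 he' with rfl | h
    · rcases mem_insert.1 he'' with rfl | h'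
      · exact absurd rfl hne
      · exact key e'' h'
    · rcases mem_insert.1 he'' with rfl | h'
      · exact (key e' h).symm
      · exact hT.2.2 e' (mem_of_mem_erase h) e'' (mem_of_mem_erase h') hne

/-- Removing an attached leaf of an attached element. -/
theorem mpW_cutl {T : MPt X} (hT : ValidMP Y T) {e : El X} (he : e ∈ T.2) {l : X × Finset X}
    (hl : l ∈ e.2.2) (ha : att Y s T.1 e.1.2 e.1.1) (hb : att Y s e.1.2 l.2 l.1) :
    mpW Y s T = b1 Y s l.2 * mpW Y s (cutl T e l) := by
  have hev : ev Y s T.1 e = b1 Y s l.2 * ev Y s T.1 (shEl e l) := by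
    have h1 : e.2.1 = true := by
      rcases h : e.2.1 with _ | _
      · rw [(hT.2.1 e he).h1 h] at hl
        exact absurd hl (notMem_empty _)
      · rfl
    have h2 : ¬ s.lb T.1 e.1.1 = some e.1.2 := by
      rw [ha.2.2.1]
      simp
    have h3 : sv Y s e.1.2 l = b1 Y s l.2 := by
      unfold sv
      have h4 : ¬ s.lb e.1.2 l.1 = some l.2 := by
        rw [hb.2.2.1]
        simp
      rw [if_neg h4, if_pos hb]
    have h5 : ev Y s T.1 e = b2 Y s e.1.2 * ∏ l ∈ e.2.2, sv Y s e.1.2 l := by
      unfold ev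
      rw [if_neg h2, if_pos ha, if_pos h1]
    have h6 : ev Y s T.1 (shEl e l) = b2 Y s e.1.2 * ∏ l ∈ e.2.2.erase l, sv Y s e.1.2 l := by
      unfold ev shEl
      simp only
      rw [if_neg h2, if_pos ha, if_pos h1]
    rw [h5, h6, ← mul_prod_erase e.2.2 (fun l => sv Y s e.1.2 l) hl]
    simp only [h3]
    ring
  rw [mpW_erase s he, hev]
  have h7 : shEl e l ∈ (cutl T e l).2 := mem_insert_self _ _
  have h8 : (cutl T e l).2.erase (shEl e l) = T.2.erase e := by
    show (insert (shEl e l) (T.2.erase e)).erase (shEl e l) = T.2.erase e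
    exact erase_insert (shEl_notMem hT he l)
  rw [mpW_erase s h7, h8]
  show b1 Y s l.2 * ev Y s T.1 (shEl e l) * mpW Y s (T.1, T.2.erase e) =
    b1 Y s l.2 * (ev Y s T.1 (shEl e l) * mpW Y s (T.1, T.2.erase e))
  ring

/-- A tuple is determined by the leaf and the tuple without it. -/
theorem cutl_inj {T T' : MPt X} (hT : ValidMP Y T) (hT' : ValidMP Y T') {e e' : El X}
    {l : X × Finset X} (he : e ∈ T.2) (hl : l ∈ e.2.2) (he' : e' ∈ T'.2) (hl' : l ∈ e'.2.2)
    (h : cutl T e l = cutl T' e' l) : T = T' := by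
  have h1' : (cutl T e l).1 = (cutl T' e' l).1 := by rw [h]
  have h2' : (cutl T e l).2 = (cutl T' e' l).2 := by rw [h]
  have h1 : T.1 = T'.1 := h1'
  have h2 : insert (shEl e l) (T.2.erase e) = insert (shEl e' l) (T'.2.erase e') := h2'
  -- the element containing `l.1`
  have hkey : ∀ {T : MPt X} (_ : ValidMP Y T) {e : El X} (_ : e ∈ T.2) (_ : l ∈ e.2.2)
      (f : El X), f ∈ insert (shEl e l) (T.2.erase e) → l.1 ∈ supp f → f = shEl e l := by
    intro T hT e he hl f hf hlf
    rcases mem_insert.1 hf with h | h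
    · exact h
    · exfalso
      have h3 := hT.2.2 e he f (mem_of_mem_erase h) (ne_of_mem_erase h).symm
      exact disjoint_left.1 h3 (mem_union_left _ ((hT.2.1 e he).hl l hl).2.2.1) hlf
  have h3 : shEl e' l = shEl e l := by
    refine hkey hT he hl _ ?_ (mem_union_left _ ((hT'.2.1 e' he').hl l hl').2.2.1)
    rw [h2]
    exact mem_insert_self _ _
  have h4 : e' = e := by
    have h5' : (shEl e' l).1 = (shEl e l).1 := by rw [h3]
    have h6' : (shEl e' l).2.1 = (shEl e l).2.1 := by rw [h3]
    have h7' : (shEl e' l).2.2 = (shEl e l).2.2 := by rw [h3]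
    have h5 : e'.1 = e.1 := h5'
    have h6 : e'.2.1 = e.2.1 := h6'
    have h7 : e'.2.2.erase l = e.2.2.erase l := h7'
    have h8 : e'.2.2 = e.2.2 := by
      rw [← insert_erase hl', h7, insert_erase hl]
    exact Prod.ext h5 (Prod.ext h6 h8)
  subst h4
  have h5 : T.2.erase e' = T'.2.erase e' := by
    rw [← erase_insert (shEl_notMem hT he l), h2, erase_insert (shEl_notMem hT' he' l)]
  have h6 : T.2 = T'.2 := by
    rw [← insert_erase he, h5, insert_erase he']
  exact Prod.ext h1 h6

end Pool.H33.MB2
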