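import Pool.Agent.H33.MB2.TinyDefs

/-!
# MB2 TILF: sums over the leaves; values of cold sets

* `leaf_sum`.  For nonnegative `f` on a finite set `I`, `Σ_{S ⊆ I, #S ≤ m} ∏_{l ∈ S} f l ≤ (1 + Σ_I f)^m`
  (the sum over `#S = j` is at most `(Σ f)^j / j! ≤ C(m, j) (Σ f)^j` for `j ≤ m`; or by induction on `m`: a nonempty set
  `S` of size at most `m + 1` is `insert l S'` with `#S' ≤ m`, so the sum for `m + 1` is at most `1 + (Σ f) * (sum for m)`).
  Here `I = {(v, C) : v ∈ B, v ∈ C, C ∈ F}` and `f = sv Y s B`.  `Σ_I f ≤ k M1`: for fixed `v ∈ B`: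
  if `s.lb B v = some C0` only `C = C0` has a nonzero value, `s.s1 C0 ≤ c1 K^bs ≤ M1` (`g.s1b`, `hN.M1c`);
  if `s.lb B v = none` the value is `b1 Y s C` if `att Y s B C v`, so if one is nonzero `v` is free and the sum is at most
  `gs Y s v ≤ M1`.
* `b1_cold`, `b2_cold`: `kb_le`, `a1_anti`, `a2_anti`.
-/

set_option linter.unusedSectionVars false

namespace Pool.H33.MB2

open Finset
open scoped Classical

variable {X Γ : Type*} [DecidableEq X] {Y : Sys X Γ} {Q : Num2}
  {Lg : List (Entry X) → Finset X → Finset X → Prop} {s : State X}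

theorem tilf_zero {ι : Type*} [DecidableEq ι] (f : ι → ℝ) (I : Finset ι) :
    ∑ S ∈ I.powerset, (if #S ≤ 0 then ∏ l ∈ S, f l else 0) = 1 := by
  rw [Finset.sum_eq_single ∅]
  · simp
  · intro S _ hS
    rw [if_neg]
    rw [Nat.le_zero, Finset.card_eq_zero]
    exact hS
  · intro h
    exact absurd (Finset.empty_mem_powerset I) h

theorem tilf_ite {ι : Type*} [DecidableEq ι] (f : ι → ℝ) (I : Finset ι)
    (hf : ∀ i ∈ I, 0 ≤ f i) (m : ℕ) :
    ∑ S ∈ I.powerset, (if #S ≤ m then ∏ l ∈ S, f l else 0) ≤ (1 + ∑ i ∈ I, f i) ^ m := by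
  induction I using Finset.induction_on generalizing m with
  | empty =>
    rw [Finset.powerset_empty, Finset.sum_singleton]
    simp
  | insert a I ha ih =>
    rcases m with _ | m
    · rw [tilf_zero, pow_zero]
    · have hf' : ∀ i ∈ I, 0 ≤ f i := fun i hi => hf i (Finset.mem_insert_of_mem hi)
      have hfa : 0 ≤ f a := hf a (Finset.mem_insert_self _ _)
      have hF : 0 ≤ ∑ i ∈ I, f i := Finset.sum_nonneg hf'
      rw [Finset.sum_powerset_insert ha]
      have h1 : ∑ t ∈ I.powerset, (if #(insert a t) ≤ m + 1 then ∏ l ∈ insert a t, f l else 0) =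
          f a * ∑ S ∈ I.powerset, (if #S ≤ m then ∏ l ∈ S, f l else 0) := by
        rw [Finset.mul_sum]
        refine Finset.sum_congr rfl fun t ht => ?_
        have hat : a ∉ t := fun h => ha (Finset.mem_powerset.1 ht h)
        rw [Finset.card_insert_of_notMem hat, Finset.prod_insert hat]
        by_cases h : #t ≤ m
        · rw [if_pos (by omega), if_pos h]
        · rw [if_neg (by omega), if_neg h, mul_zero]
      rw [h1, Finset.sum_insert ha]
      have h2 := ih hf' (m + 1)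
      have h3 := mul_le_mul_of_nonneg_left (ih hf' m) hfa
      have h4 : (1 + ∑ i ∈ I, f i) ^ m ≤ (1 + (f a + ∑ i ∈ I, f i)) ^ m :=
        pow_le_pow_left₀ (by linarith) (by linarith) m
      have h5 : (1 + (f a + ∑ i ∈ I, f i)) * (1 + ∑ i ∈ I, f i) ^ m ≤
          (1 + (f a + ∑ i ∈ I, f i)) * (1 + (f a + ∑ i ∈ I, f i)) ^ m :=
        mul_le_mul_of_nonneg_left h4 (by linarith)
      calc _ ≤ (1 + ∑ i ∈ I, f i) ^ (m + 1) + f a * (1 + ∑ i ∈ I, f i) ^ m := add_le_add h2 h3
        _ = (1 + (f a + ∑ i ∈ I, f i)) * (1 + ∑ i ∈ I, f i) ^ m := by ring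
        _ ≤ _ := h5
        _ = _ := by ring

theorem tilf_inner (hF : FamH Y) (hN : NumH Y Q) (g : Good Y Lg s)
    (hgs : ∀ v ∈ free Y s, gs Y s v ≤ Y.M1) {B : Finset X} (hB : B ∈ Y.F) {v : X} (hv : v ∈ B) :
    ∑ C ∈ Y.F, (if v ∈ C then sv Y s B (v, C) else 0) ≤ Y.M1 := by
  have hM1 := hN.M11
  rcases hlb : s.lb B v with _ | C0
  · by_cases hfree : v ∉ s.M ∧ v ∉ s.B
    · have hvf : v ∈ free Y s := mem_free.2 ⟨hF.sub B hB hv, hfree⟩
      refine le_trans ?_ (hgs v hvf)
      unfold gs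
      rw [Finset.sum_filter]
      refine Finset.sum_le_sum fun C _ => ?_
      by_cases hvC : v ∈ C
      · rw [if_pos hvC]
        unfold sv
        simp only [hlb]
        rw [if_neg (by simp)]
        by_cases hatt : att Y s B C v
        · rw [if_pos hatt, if_pos ⟨hvC, hatt.2.2.2⟩]
        · rw [if_neg hatt]
          split_ifs
          · exact (b1_pos hN _).le
          · exact le_rfl
      · rw [if_neg hvC]
        split_ifs
        · exact (b1_pos hN _).le
        · exact le_rfl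
    · have h0 : ∑ C ∈ Y.F, (if v ∈ C then sv Y s B (v, C) else 0) = 0 := by
        refine Finset.sum_eq_zero fun C _ => ?_
        split_ifs with hvC
        · unfold sv
          simp only [hlb]
          rw [if_neg (by simp), if_neg]
          intro hatt
          exact hfree ⟨hatt.1, hatt.2.1⟩
        · rfl
      rw [h0]
      linarith
  · have h1 : ∑ C ∈ Y.F, (if v ∈ C then sv Y s B (v, C) else 0) ≤
        ∑ C ∈ Y.F, (if C = C0 then s.s1 C0 else 0) := by
      refine Finset.sum_le_sum fun C _ => ?_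
      have hsv : sv Y s B (v, C) = if C = C0 then s.s1 C0 else 0 := by
        unfold sv
        simp only [hlb]
        by_cases hC : C = C0
        · rw [hC, if_pos rfl, if_pos rfl]
        · rw [if_neg (fun h => hC (Option.some.inj h).symm), if_neg hC, if_neg]
          intro hatt
          have := hatt.2.2.1
          rw [hlb] at this
          exact absurd this (by simp)
      rw [hsv]
      split_ifs
      · exact le_rfl
      · exact le_rfl
      · exact g.s1n C0
      · exact le_rfl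
    refine h1.trans ?_
    rw [Finset.sum_ite_eq']
    split_ifs
    · exact (g.s1b C0).trans hN.M1c
    · linarith

theorem tilf_sum (hF : FamH Y) (hN : NumH Y Q) (g : Good Y Lg s)
    (hgs : ∀ v ∈ free Y s, gs Y s v ≤ Y.M1) {B : Finset X} (hB : B ∈ Y.F) :
    ∑ l ∈ leafI Y B, sv Y s B l ≤ Y.k * Y.M1 := by
  unfold leafI
  rw [Finset.sum_filter, Finset.sum_product]
  have h1 : ∀ v ∈ Y.S, ∑ C ∈ Y.F, (if ((v, C) : X × Finset X).1 ∈ B ∧
      ((v, C) : X × Finset X).1 ∈ ((v, C) : X × Finset X).2 then sv Y s B (v, C) else 0) ≤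
      if v ∈ B then Y.M1 else 0 := by
    intro v _
    by_cases hv : v ∈ B
    · rw [if_pos hv]
      refine le_trans (le_of_eq ?_) (tilf_inner hF hN g hgs hB hv)
      refine Finset.sum_congr rfl fun C _ => ?_
      simp only [hv, true_and]
    · rw [if_neg hv]
      refine le_of_eq (Finset.sum_eq_zero fun C _ => ?_)
      rw [if_neg]
      exact fun h => hv h.1
  refine (Finset.sum_le_sum h1).trans ?_
  rw [← Finset.sum_filter, Finset.sum_const, nsmul_eq_mul]
  have h2 : Y.S.filter (fun v => v ∈ B) = B := by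
    ext v
    rw [Finset.mem_filter]
    exact ⟨fun h => h.2, fun h => ⟨hF.sub B hB h, h⟩⟩
  rw [h2, hF.card B hB]

theorem leaf_sum (hF : FamH Y) (hN : NumH Y Q) (g : Good Y Lg s)
    (hgs : ∀ v ∈ free Y s, gs Y s v ≤ Y.M1) {B : Finset X} (hB : B ∈ Y.F) :
    ∑ S ∈ (leafI Y B).powerset.filter (fun S => #S ≤ Y.m), ∏ l ∈ S, sv Y s B l ≤
      (1 + Y.k * Y.M1) ^ Y.m := by
  rw [Finset.sum_filter]
  have h0 : 0 ≤ ∑ l ∈ leafI Y B, sv Y s B l := Finset.sum_nonneg fun l _ => sv_nonneg hN g B l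
  refine (tilf_ite (sv Y s B) (leafI Y B) (fun l _ => sv_nonneg hN g B l) Y.m).trans ?_
  have h1 := tilf_sum hF hN g hgs hB
  exact pow_le_pow_left₀ (by linarith) (by linarith) _

theorem b1_cold (hN : NumH Y Q) {C : Finset X} (h : coldlv Y false (lev s C)) :
    b1 Y s C ≤ Y.c1 * Y.K ^ Y.bs * Y.a1 (Y.jb + Y.L1 + 1) := by
  have h0 : Y.jb + Y.L1 + 1 ≤ lev s C := by
    unfold coldlv at h
    simpa using h
  have h1 := hN.c1pos
  have h2 := kb_le hN Y.bs (os Y s C)
  have h3 := a1_anti hN h0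
  have h4 := kb_pos hN Y.bs (os Y s C)
  have h5 := hN.a1pos (lev s C)
  unfold b1
  exact mul_le_mul (mul_le_mul_of_nonneg_left h2 h1.le) h3 h5.le
    (mul_nonneg h1.le (h4.le.trans h2))

theorem b2_cold (hN : NumH Y Q) {C : Finset X} (h : coldlv Y true (lev s C)) :
    b2 Y s C ≤ Y.ρ2 * Y.K ^ Y.bs * Y.a2 (Y.jb + Y.L2 + 1) := by
  have h0 : Y.jb + Y.L2 + 1 ≤ lev s C := by
    unfold coldlv at h
    simpa using h
  have h1 := hN.ρ2pos
  have h2 := kb_le hN Y.bs (os Y s C)
  have h3 := a2_anti hN h0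
  have h4 := kb_pos hN Y.bs (os Y s C)
  have h5 := hN.a2pos (lev s C)
  unfold b2
  exact mul_le_mul (mul_le_mul_of_nonneg_left h2 h1.le) h3 h5.le
    (mul_nonneg h1.le (h4.le.trans h2))

end Pool.H33.MB2
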