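import Pool.Agent.H33.MB2.ClMp
import Pool.Agent.H33.MB2.GoodMv
import Pool.Agent.H33.MB2.TinyLeaf
import Pool.Agent.H33.MB2.TinyCut

/-!
# MB2 TINB: surviving micro tuples

* `surv_*`: a product is nonzero, so each factor is; `lb`, `J`, `alive`, `clean` do not change by Maker's claims.  If `ev` in `s1` is nonzero
  and `att Y s` holds (so `s.lb T.1 e.1.1 = none`) then `att Y s1` holds.  For `surv_cutl` use `mpW_cutl` in the state `s1` (with `surv_att`).
* `root_sum`: `Σ mpW Y s T' ≤ Σ mpW Y s1 T' ≤ Rt Y s1 v` over the surviving `T'` with `v ∈ T'.1` (`mono_mp`, `mem_mpI`, nonnegativity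
  for `s1`: `good_afterM`).
* `act_sum`: the same for the price: `Σ_{T' surviving, active at v in s} mpW Y s T' ≤ phi Y s1 v` (`act_mp`; `bigI` is a disjoint sum).
-/

set_option linter.unusedSectionVars false

namespace Pool.H33.MB2

open Finset
open scoped Classical

variable {X Γ : Type*} [DecidableEq X] {Y : Sys X Γ} {Q : Num2}
  {Lg : List (Entry X) → Finset X → Finset X → Prop} {s : State X}

/-- Parts of a surviving tuple survive. -/
theorem surv_erase {y z : X} {T : MPt X} (h : mpW Y (afterM s y z) T ≠ 0) {e : El X}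
    (he : e ∈ T.2) : mpW Y (afterM s y z) (T.1, T.2.erase e) ≠ 0 ∧
      ev Y (afterM s y z) T.1 e ≠ 0 := by
  rw [mpW_erase (afterM s y z) he] at h
  exact ⟨right_ne_zero_of_mul h, left_ne_zero_of_mul h⟩

/-- In a surviving tuple the attached elements and leaves are attached after the claims. -/
theorem surv_att {y z : X} {T : MPt X} (hT : ValidMP Y T) (h : mpW Y (afterM s y z) T ≠ 0)
    {e : El X} (he : e ∈ T.2) (ha : att Y s T.1 e.1.2 e.1.1) :
    att Y (afterM s y z) T.1 e.1.2 e.1.1 ∧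
      ∀ l ∈ e.2.2, att Y s e.1.2 l.2 l.1 → att Y (afterM s y z) e.1.2 l.2 l.1 := by
  have h1 := (surv_erase h he).2
  have h2 : ¬ (afterM s y z).lb T.1 e.1.1 = some e.1.2 := by
    show ¬ s.lb T.1 e.1.1 = some e.1.2
    rw [ha.2.2.1]
    simp
  unfold ev at h1
  rw [if_neg h2] at h1
  by_cases h3 : att Y (afterM s y z) T.1 e.1.2 e.1.1
  · refine ⟨h3, fun l hl hb => ?_⟩
    rw [if_pos h3] at h1
    have h4 : e.2.1 = true := by
      rcases h : e.2.1 with _ | _
      · rw [(hT.2.1 e he).h1 h] at hl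
        exact absurd hl (notMem_empty _)
      · rfl
    rw [if_pos h4] at h1
    have h5 := prod_ne_zero_iff.1 (right_ne_zero_of_mul h1) l hl
    unfold sv at h5
    have h6 : ¬ (afterM s y z).lb e.1.2 l.1 = some l.2 := by
      show ¬ s.lb e.1.2 l.1 = some l.2
      rw [hb.2.2.1]
      simp
    rw [if_neg h6] at h5
    by_contra h7
    rw [if_neg h7] at h5
    exact h5 rfl
  · rw [if_neg h3] at h1
    exact absurd rfl h1

theorem surv_cutl {y z : X} {T : MPt X} (hT : ValidMP Y T) (h : mpW Y (afterM s y z) T ≠ 0)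
    {e : El X} (he : e ∈ T.2) {l : X × Finset X} (hl : l ∈ e.2.2)
    (ha : att Y s T.1 e.1.2 e.1.1) (hb : att Y s e.1.2 l.2 l.1) :
    mpW Y (afterM s y z) (cutl T e l) ≠ 0 := by
  obtain ⟨h1, h2⟩ := surv_att hT h he ha
  rw [mpW_cutl hT he hl h1 (h2 l hl hb)] at h
  exact right_ne_zero_of_mul h

theorem root_sum (hF : FamH Y) (hN : NumH Y Q) (hG : GeoH Y Lg) (g : Good Y Lg s) {y z : X}
    (hy : y ∈ free Y s) (hz : z ∈ free Y s) {κ : ℝ}
    (hκ : ∀ p ∈ free Y (afterM s y z), Rt Y (afterM s y z) p ≤ κ) {v : X}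
    (hv : v ∈ free Y (afterM s y z)) :
    ∑ T ∈ (mpS Y s y z).filter (fun T => v ∈ T.1), mpW Y s T ≤ κ := by
  refine le_trans ?_ (hκ v hv)
  have g1 := good_afterM hG g hy hz
  have h1 : ∑ T ∈ (mpS Y s y z).filter (fun T => v ∈ T.1), mpW Y s T ≤
      ∑ T ∈ (mpS Y s y z).filter (fun T => v ∈ T.1), mpW Y (afterM s y z) T := by
    refine sum_le_sum fun T hT => ?_
    have hT1 := (mem_filter.1 (mem_filter.1 hT).1)
    exact mono_mp hN g y z ((mem_mpI hF).1 hT1.1) hT1.2
  have h2 : ∑ T ∈ (mpS Y s y z).filter (fun T => v ∈ T.1), mpW Y (afterM s y z) T ≤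
      ∑ T ∈ (mpI Y).filter (fun T => v ∈ T.1), mpW Y (afterM s y z) T := by
    refine sum_le_sum_of_subset_of_nonneg ?_ fun T _ _ => mpW_nonneg hN g1 T
    exact filter_subset_filter _ (filter_subset _ _)
  have h3 : 0 ≤ ∑ T ∈ (psI Y).filter (fun T => T.1 = v), psW Y (afterM s y z) T :=
    sum_nonneg fun T _ => psW_nonneg hN T
  unfold Rt
  linarith

theorem act_sum (hF : FamH Y) (hN : NumH Y Q) (hG : GeoH Y Lg) (g : Good Y Lg s) {y z : X}
    (hy : y ∈ free Y s) (hz : z ∈ free Y s) {κ : ℝ}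
    (hκ : ∀ p ∈ free Y (afterM s y z), phi Y (afterM s y z) p ≤ κ) {v : X}
    (hv : v ∈ free Y (afterM s y z)) :
    ∑ T ∈ (mpS Y s y z).filter (fun T => act Y s v (.inl T)), mpW Y s T ≤ κ := by
  refine le_trans ?_ (hκ v hv)
  have g1 := good_afterM hG g hy hz
  have h1 : ∑ T ∈ (mpS Y s y z).filter (fun T => act Y s v (.inl T)), mpW Y s T ≤
      ∑ T ∈ (mpS Y s y z).filter (fun T => act Y s v (.inl T)), mpW Y (afterM s y z) T := by
    refine sum_le_sum fun T hT => ?_
    have hT1 := (mem_filter.1 (mem_filter.1 hT).1)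
    exact mono_mp hN g y z ((mem_mpI hF).1 hT1.1) hT1.2
  refine h1.trans ?_
  have h2 : ∑ T ∈ (mpS Y s y z).filter (fun T => act Y s v (.inl T)), mpW Y (afterM s y z) T =
      ∑ T ∈ ((mpS Y s y z).filter (fun T => act Y s v (.inl T))).map
        (⟨Sum.inl, Sum.inl_injective⟩ : MPt X ↪ Big X), W Y (afterM s y z) T := by
    rw [sum_map]
    rfl
  rw [h2]
  unfold phi
  refine sum_le_sum_of_subset_of_nonneg ?_ fun T _ _ => W_nonneg hN g1 T
  intro T hT
  rw [mem_map] at hT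
  obtain ⟨T', hT', rfl⟩ := hT
  rw [mem_filter] at hT'
  have hT1 := mem_filter.1 hT'.1
  have hval := (mem_mpI hF).1 hT1.1
  rw [mem_filter]
  exact ⟨mem_bigI_mp.2 hT1.1, act_mp hN g y z hval hT1.2 hT'.2⟩

end Pool.H33.MB2
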