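import Pool.Agent.H33.MB2.Rates

/-!
# Definitions for the tiny lemma of micro tuples
-/

set_option linter.unusedSectionVars false

namespace Pool.H33.MB2

open Finset
open scoped Classical

variable {X Γ : Type*} [DecidableEq X] {Y : Sys X Γ} {Q : Num2}
  {Lg : List (Entry X) → Finset X → Finset X → Prop} {s : State X}

/-- The possible leaves of `B`. -/
noncomputable def leafI (Y : Sys X Γ) (B : Finset X) : Finset (X × Finset X) :=
  (Y.S ×ˢ Y.F).filter (fun l => l.1 ∈ B ∧ l.1 ∈ l.2)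

/-- The element `e` of `T` is attached and cold at `u` through its own set. -/
def colA (Y : Sys X Γ) (s : State X) (u : X) (T : MPt X) (e : El X) : Prop :=
  e ∈ T.2 ∧ att Y s T.1 e.1.2 e.1.1 ∧ actN s e.1.2 u ∧ u ≠ e.1.1 ∧ (∀ l ∈ e.2.2, l.1 ≠ u) ∧
    coldlv Y e.2.1 (lev s e.1.2)

/-- The leaf `l` of the element `e` of `T` is attached and cold at `u`. -/
def colB (Y : Sys X Γ) (s : State X) (u : X) (T : MPt X) (e : El X) (l : X × Finset X) : Prop :=
  e ∈ T.2 ∧ att Y s T.1 e.1.2 e.1.1 ∧ l ∈ e.2.2 ∧ att Y s e.1.2 l.2 l.1 ∧ actN s l.2 u ∧ u ≠ l.1 ∧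
    coldlv Y false (lev s l.2)

/-- Remove the leaf `l` of the element `e`. -/
def cutl (T : MPt X) (e : El X) (l : X × Finset X) : MPt X :=
  (T.1, insert (e.1, e.2.1, e.2.2.erase l) (T.2.erase e))

/-- The surviving micro tuples. -/
noncomputable def mpS (Y : Sys X Γ) (s : State X) (y z : X) : Finset (MPt X) :=
  (mpI Y).filter (fun T => mpW Y (afterM s y z) T ≠ 0)

end Pool.H33.MB2
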