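import Pool.Agent.H33.MB2.TinyA1
import Pool.Agent.H33.MB2.TinyA2
import Pool.Agent.H33.MB2.TinyA3
import Pool.Agent.H33.MB2.TinyB1
import Pool.Agent.H33.MB2.TinyB2

/-!
# MB2 TIMP: the tiny lemma for micro tuples

Case distinction: `T` surviving, cold active at `u`, active at `x`.  Let `e` be the element cold active at `u` and `e'` the element
active at `x`.
* `e` cold through its own set (`colA`): if `e' ≠ e`: `(T.1, T.2.erase e)` is active at `x` (`tiny_a3`).  If `e' = e`: `x ∈ e.1.2` (`tiny_a1`) or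
  `x` is active for an attached leaf (`tiny_a2`).
* `e` cold through the leaf `l` (`colB`): if `e' ≠ e`: `cutl T e l` is active at `x` (`tiny_b2`).  If `e' = e`: `x` active for
  `e.1.2`: then `cutl T e l` is active at `x` through the shortened element (`tiny_b2`); `x` active for a leaf `l' ≠ l`: `tiny_b2`;
  for `l' = l`: `tiny_b1`.
-/

set_option linter.unusedSectionVars false

namespace Pool.H33.MB2

open Finset
open scoped Classical

variable {X Γ : Type*} [DecidableEq X] {Y : Sys X Γ} {Q : Num2}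
  {Lg : List (Entry X) → Finset X → Finset X → Prop} {s : State X}

theorem tiny_mp (hF : FamH Y) (hN : NumH Y Q) (hG : GeoH Y Lg) (g : Good Y Lg s)
    (hgs : ∀ v ∈ free Y s, gs Y s v ≤ Y.M1) {y z : X} (hy : y ∈ free Y s) (hz : z ∈ free Y s)
    {u x : X} (hu : u ∈ free Y s) (hx : x ∈ free Y s) (hux : u ≠ x) {κ : ℝ} (hκ0 : 0 ≤ κ)
    (hκ : ∀ p ∈ free Y (afterM s y z), Rt Y (afterM s y z) p ≤ κ)
    (hκ' : ∀ p ∈ free Y (afterM s y z), phi Y (afterM s y z) p ≤ κ) :
    ∑ T ∈ (mpS Y s y z).filter (fun T => cact Y s u (.inl T) ∧ act Y s x (.inl T)), mpW Y s T ≤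
      5 * Q.τ * (κ + ∑ T ∈ (mpS Y s y z).filter (fun T => act Y s x (.inl T)), mpW Y s T) := by
  have hnn : ∀ T, 0 ≤ mpW Y s T := fun T => mpW_nonneg hN g T
  have h1 := tiny_a1 hF hN hG g hgs hy hz hu hx hux hκ0 hκ hκ'
  have h2 := tiny_a2 hF hN hG g hgs hy hz hu hx hux hκ0 hκ hκ'
  have h3 := tiny_a3 hF hN hG g hgs hy hz hu hx hux hκ0 hκ hκ'
  have h4 := tiny_b1 hF hN hG g hgs hy hz hu hx hux hκ0 hκ hκ'
  have h5 := tiny_b2 hF hN hG g hgs hy hz hu hx hux hκ0 hκ hκ'
  set P1 := (mpS Y s y z).filter (fun T => ∃ e, colA Y s u T e ∧ x ∈ e.1.2) with hP1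
  set P2 := (mpS Y s y z).filter (fun T => ∃ e, colA Y s u T e ∧ ∃ l ∈ e.2.2,
      att Y s e.1.2 l.2 l.1 ∧ actN s l.2 x) with hP2
  set P3 := (mpS Y s y z).filter (fun T => ∃ e, colA Y s u T e ∧
      act Y s x (.inl (T.1, T.2.erase e))) with hP3
  set P4 := (mpS Y s y z).filter (fun T => ∃ e l, colB Y s u T e l ∧ x ∈ l.2) with hP4
  set P5 := (mpS Y s y z).filter (fun T => ∃ e l, colB Y s u T e l ∧
      act Y s x (.inl (cutl T e l))) with hP5
  have hsub : (mpS Y s y z).filter (fun T => cact Y s u (.inl T) ∧ act Y s x (.inl T)) ⊆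
      P1 ∪ (P2 ∪ (P3 ∪ (P4 ∪ P5))) := by
    intro T hT
    rw [mem_filter] at hT
    obtain ⟨hTS, hc, ha⟩ := hT
    obtain ⟨ha1, ha2, e, he, hatt, hce⟩ := hc
    obtain ⟨-, -, e', he', hatt', hae⟩ := ha
    simp only [mem_union]
    rcases hce with ⟨c1, c2, c3, c4⟩ | ⟨l, hl, c1, c2, c3, c4⟩
    · have hcolA : colA Y s u T e := ⟨he, hatt, c1, c2, c3, c4⟩
      by_cases hee : e' = e
      · subst hee
        rcases hae with ⟨d1, d2, d3, -⟩ | ⟨l, hl, d1, d2, d3, -⟩
        · left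
          exact mem_filter.2 ⟨hTS, e', hcolA, d1.1⟩
        · right; left
          exact mem_filter.2 ⟨hTS, e', hcolA, l, hl, d1, d2⟩
      · right; right; left
        refine mem_filter.2 ⟨hTS, e, hcolA, ha1, ha2, e', mem_erase.2 ⟨hee, he'⟩, hatt', hae⟩
    · have hcolB : colB Y s u T e l := ⟨he, hatt, hl, c1, c2, c3, c4⟩
      by_cases hee : e' = e
      · subst hee
        rcases hae with ⟨d1, d2, d3, -⟩ | ⟨l', hl', d1, d2, d3, -⟩
        · right; right; right; right
          refine mem_filter.2 ⟨hTS, e', l, hcolB, ha1, ha2, _, mem_insert_self _ _, hatt', ?_⟩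
          left
          exact ⟨d1, d2, fun l' hl' => d3 l' (mem_of_mem_erase hl'), trivial⟩
        · by_cases hll : l' = l
          · subst hll
            right; right; right; left
            exact mem_filter.2 ⟨hTS, e', l', hcolB, d2.1⟩
          · right; right; right; right
            refine mem_filter.2 ⟨hTS, e', l, hcolB, ha1, ha2, _, mem_insert_self _ _, hatt', ?_⟩
            right
            exact ⟨l', mem_erase.2 ⟨hll, hl'⟩, d1, d2, d3, trivial⟩
      · right; right; right; right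
        refine mem_filter.2 ⟨hTS, e, l, hcolB, ha1, ha2, e',
          mem_insert_of_mem (mem_erase.2 ⟨hee, he'⟩), hatt', hae⟩
  have hun : ∀ A B : Finset (MPt X), ∑ T ∈ A ∪ B, mpW Y s T ≤
      ∑ T ∈ A, mpW Y s T + ∑ T ∈ B, mpW Y s T := by
    intro A B
    rw [← sum_union_inter]
    have := sum_nonneg (s := A ∩ B) (f := fun T => mpW Y s T) (fun T _ => hnn T)
    linarith
  have h6 := sum_le_sum_of_subset_of_nonneg hsub (f := fun T => mpW Y s T) (fun T _ _ => hnn T)
  have h7 := hun P1 (P2 ∪ (P3 ∪ (P4 ∪ P5)))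
  have h8 := hun P2 (P3 ∪ (P4 ∪ P5))
  have h9 := hun P3 (P4 ∪ P5)
  have h10 := hun P4 P5
  have h11 : 0 ≤ ∑ T ∈ (mpS Y s y z).filter (fun T => act Y s x (.inl T)), mpW Y s T :=
    sum_nonneg fun T _ => hnn T
  have hτ := hN.τpos
  have h12 : 0 ≤ Q.τ * κ := mul_nonneg hτ.le hκ0
  have h13 : 0 ≤ Q.τ * ∑ T ∈ (mpS Y s y z).filter (fun T => act Y s x (.inl T)), mpW Y s T :=
    mul_nonneg hτ.le h11
  nlinarith [h6, h7, h8, h9, h10, h1, h2, h3, h4, h5, h12, h13]

end Pool.H33.MB2
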