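import Pool.Agent.H33.MB2.BigF

/-!
# MB2 TURA: kills and crude growth bounds

* `kill_phi`: `Phi (addB s p) ≤ Phi s - phi s p`: `Sm` does not increase (`smW_addB`, `J` same), each `W` does not increase
  (`addB_W`), the structures active at `p` get weight 0 (`kill_W`).
* `kill_Rt`: the same with `root_mp`, `root_ps`.
* `sp_zero`: if `p` is not hot every `A ∈ s.J` with `p ∈ s.box A` is dead, so `smW Y s A = 0`.
* `phr_le`: a partial sum of nonnegative terms.  `phr_le'`: for a free `p` of `s1` a structure surviving and active at `p` in `s` is active at `p` in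
  `s1` (`act_W`) and `W Y s T ≤ W Y s1 T` (`mono_W`).
* `crude_Phi`: `Sm s1 - Sm s ≤ Σ_A (ρ_y ρ_z - 1) smW`, where `ρ_p = 2 - δ` if `p ∈ box A`, else 1 (`cl_sm`);
  `ρ_y ρ_z - 1 ≤ 3 ≤ 3/2 + 3/2` if both, `≤ 1 ≤ 3/2` if one: total `≤ 3/2 (sp y + sp z)`.
  For `T` with `W s1 T = 0` the difference `W s1 T - W s T ≤ 0`; for `T ∈ sur`: `W s1 T - W s T ≤ (rf_y rf_z - 1) W s T`
  (`cl_W`), `rf ≤ 3/2`, `rf = 1` if not active: `≤ 5/4` if active at both, `≤ 1/2` if at one: total
  `≤ 5/8 (phr y + phr z)`.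
* `crude_phi`: `phi s1 x = Σ_{act s1 x} W s1 T`; such `T` with nonzero weight are in `sur` and active at `x` in `s` (`act_W'`); the increase is
  at most `Σ_{T ∈ sur} (rf_y rf_z - 1) W s T`.
-/

set_option linter.unusedSectionVars false

namespace Pool.H33.MB2

open Finset
open scoped Classical

variable {X Γ : Type*} [DecidableEq X] {Y : Sys X Γ} {Q : Num2}
  {Lg : List (Entry X) → Finset X → Finset X → Prop} {s : State X}

theorem tura_Sm (hN : NumH Y Q) (p : X) : Sm Y (addB s p) ≤ Sm Y s :=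
  sum_le_sum fun A _ => smW_addB hN p A

theorem kill_phi (hF : FamH Y) (hN : NumH Y Q) (g : Good Y Lg s) (p : X) :
    Phi Y (addB s p) + phi Y s p ≤ Phi Y s := by
  have h1 := tura_Sm (s := s) hN p
  have h2 : ∑ T ∈ bigI Y, W Y (addB s p) T + phi Y s p ≤ ∑ T ∈ bigI Y, W Y s T := by
    rw [phi_eq, ← sum_add_distrib]
    refine sum_le_sum fun T hT => ?_
    by_cases ha : act Y s p T
    · rw [if_pos ha, kill_W hF p hT ha, zero_add]
    · rw [if_neg ha, add_zero]
      exact addB_W hN g p T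
  unfold Phi
  linarith

theorem tura_split (s : State X) : ∑ T ∈ bigI Y, W Y s T =
    ∑ T ∈ mpI Y, mpW Y s T + (∑ T ∈ psI Y, psW Y s T +
      (∑ T ∈ gcI Y, gcW Y s T + ∑ T ∈ cpI Y, cpW Y s T)) := by
  simp only [bigI, sum_disjSum, W]

theorem kill_Rt (hF : FamH Y) (hN : NumH Y Q) (g : Good Y Lg s) (p : X) :
    Phi Y (addB s p) + Rt Y s p ≤ Phi Y s := by
  have h1 := tura_Sm (s := s) hN p
  have h2 : ∑ T ∈ mpI Y, mpW Y (addB s p) T + ∑ T ∈ (mpI Y).filter (fun T => p ∈ T.1), mpW Y s T ≤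
      ∑ T ∈ mpI Y, mpW Y s T := by
    rw [sum_filter, ← sum_add_distrib]
    refine sum_le_sum fun T _ => ?_
    by_cases ha : p ∈ T.1
    · rw [if_pos ha, root_mp ha, zero_add]
    · rw [if_neg ha, add_zero]
      exact addB_mp hN g p T
  have h3 : ∑ T ∈ psI Y, psW Y (addB s p) T + ∑ T ∈ (psI Y).filter (fun T => T.1 = p), psW Y s T ≤
      ∑ T ∈ psI Y, psW Y s T := by
    rw [sum_filter, ← sum_add_distrib]
    refine sum_le_sum fun T _ => ?_
    by_cases ha : T.1 = p
    · rw [if_pos ha, root_ps ha, zero_add]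
    · rw [if_neg ha, add_zero]
      exact addB_ps hN p T
  have h4 : ∑ T ∈ gcI Y, gcW Y (addB s p) T ≤ ∑ T ∈ gcI Y, gcW Y s T :=
    sum_le_sum fun T _ => addB_gc hN p T
  have h5 : ∑ T ∈ cpI Y, cpW Y (addB s p) T ≤ ∑ T ∈ cpI Y, cpW Y s T :=
    sum_le_sum fun T _ => addB_cp hN p T
  unfold Phi Rt
  rw [tura_split, tura_split]
  linarith

theorem sp_zero {p : X} (h : ¬ hot s p) : sp Y s p = 0 := by
  unfold sp
  refine sum_eq_zero fun A hA => ?_
  rw [mem_filter, List.mem_toFinset] at hA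
  unfold smW
  rw [if_neg]
  intro ha
  exact h ⟨A, hA.1, ha, hA.2⟩

theorem phr_le (hN : NumH Y Q) (g : Good Y Lg s) (y z p : X) : phr Y s y z p ≤ phi Y s p := by
  unfold phr phi
  refine sum_le_sum_of_subset_of_nonneg ?_ fun T _ _ => W_nonneg hN g T
  intro T hT
  rw [mem_filter, sur, mem_filter] at hT
  exact mem_filter.2 ⟨hT.1.1, hT.2⟩

theorem phr_le' (hF : FamH Y) (hN : NumH Y Q) (hG : GeoH Y Lg) (g : Good Y Lg s) {y z : X}
    (hy : y ∈ free Y s) (hz : z ∈ free Y s) (p : X) :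
    phr Y s y z p ≤ phi Y (afterM s y z) p := by
  have g' := good_afterM hG g hy hz
  unfold phr phi
  calc ∑ T ∈ (sur Y s y z).filter (act Y s p), W Y s T ≤
      ∑ T ∈ (sur Y s y z).filter (act Y s p), W Y (afterM s y z) T := by
        refine sum_le_sum fun T hT => ?_
        rw [mem_filter, sur, mem_filter] at hT
        exact mono_W hF hN g y z hT.1.1 hT.1.2
    _ ≤ ∑ T ∈ (bigI Y).filter (act Y (afterM s y z) p), W Y (afterM s y z) T := by
        refine sum_le_sum_of_subset_of_nonneg ?_ fun T _ _ => W_nonneg hN g' T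
        intro T hT
        rw [mem_filter, sur, mem_filter] at hT
        exact mem_filter.2 ⟨hT.1.1, act_W hF hN g y z hT.1.1 hT.1.2 hT.2⟩

/-- The term of `phr`. -/
noncomputable def turaP (Y : Sys X Γ) (s : State X) (y z p : X) (T : Big X) : ℝ :=
  if W Y (afterM s y z) T ≠ 0 then (if act Y s p T then W Y s T else 0) else 0

theorem turaP_nonneg (hN : NumH Y Q) (g : Good Y Lg s) (y z p : X) (T : Big X) :
    0 ≤ turaP Y s y z p T := by
  unfold turaP
  split_ifs
  · exact W_nonneg hN g T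
  · exact le_rfl
  · exact le_rfl

theorem phr_eq_turaP (y z p : X) : phr Y s y z p = ∑ T ∈ bigI Y, turaP Y s y z p T := by
  unfold phr sur turaP
  rw [sum_filter, sum_filter]

theorem tura_term (hF : FamH Y) (hN : NumH Y Q) (g : Good Y Lg s) {y z : X} (hyz : y ≠ z)
    (hy : y ∈ free Y s) (hz : z ∈ free Y s) {T : Big X} (hT : T ∈ bigI Y)
    (h : W Y (afterM s y z) T ≠ 0) :
    W Y (afterM s y z) T ≤ W Y s T + 5 / 8 * (turaP Y s y z y T + turaP Y s y z z T) := by
  have h1 := cl_W hF hN g hyz hy hz hT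
  have h0 := W_nonneg hN g T
  have hrw := rw_ge hN
  have hrc := rc_le hN
  have hwc := rw_le_rc (Y := Y)
  have hry : rf Y s y T ≤ if act Y s y T then 3 / 2 else 1 := by
    unfold rf
    split_ifs <;> linarith
  have hrz : rf Y s z T ≤ if act Y s z T then 3 / 2 else 1 := by
    unfold rf
    split_ifs <;> linarith
  have hy1 := rf_ge hN y T (s := s)
  have hz1 := rf_ge hN z T (s := s)
  unfold turaP
  rw [if_pos h, if_pos h]
  have h2 : rf Y s y T * rf Y s z T ≤
      (if act Y s y T then 3 / 2 else 1) * (if act Y s z T then 3 / 2 else 1) :=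
    mul_le_mul hry hrz (by linarith) (by split_ifs <;> norm_num)
  have h3 := mul_le_mul_of_nonneg_right h2 h0
  refine (h1.trans h3).trans ?_
  split_ifs <;> linarith

theorem crude_Phi (hF : FamH Y) (hN : NumH Y Q) (g : Good Y Lg s) {y z : X} (hyz : y ≠ z)
    (hy : y ∈ free Y s) (hz : z ∈ free Y s) :
    Phi Y (afterM s y z) ≤ Phi Y s + 3 / 2 * (sp Y s y + sp Y s z) +
      5 / 8 * (phr Y s y z y + phr Y s y z z) := by
  have h1 : Sm Y (afterM s y z) ≤ Sm Y s + 3 / 2 * (sp Y s y + sp Y s z) := by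
    unfold Sm sp
    rw [sum_filter, sum_filter, ← sum_add_distrib, mul_sum, ← sum_add_distrib]
    refine sum_le_sum fun A _ => ?_
    have h2 := cl_sm hN hyz hy hz A
    have h0 := smW_nonneg (s := s) hN A
    have hδ := hN.δpos
    have hδ' := hN.δle
    have h3 : (if y ∈ s.box A then 2 - Y.δ else 1) * (if z ∈ s.box A then 2 - Y.δ else 1) ≤
        (if y ∈ s.box A then 2 else 1) * (if z ∈ s.box A then (2 : ℝ) else 1) := by
      refine mul_le_mul ?_ ?_ ?_ ?_ <;> split_ifs <;> linarith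
    refine (h2.trans (mul_le_mul_of_nonneg_right h3 h0)).trans ?_
    split_ifs <;> linarith
  have h2 : ∑ T ∈ bigI Y, W Y (afterM s y z) T ≤ ∑ T ∈ bigI Y, W Y s T +
      5 / 8 * (phr Y s y z y + phr Y s y z z) := by
    rw [phr_eq_turaP, phr_eq_turaP, ← sum_add_distrib, mul_sum, ← sum_add_distrib]
    refine sum_le_sum fun T hT => ?_
    by_cases h : W Y (afterM s y z) T = 0
    · rw [h]
      have h3 := W_nonneg hN g T
      have h4 := turaP_nonneg hN g y z y T
      have h5 := turaP_nonneg hN g y z z T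
      positivity
    · exact tura_term hF hN g hyz hy hz hT h
  unfold Phi
  linarith

theorem crude_phi (hF : FamH Y) (hN : NumH Y Q) (g : Good Y Lg s) {y z : X} (hyz : y ≠ z)
    (hy : y ∈ free Y s) (hz : z ∈ free Y s) (x : X) :
    phi Y (afterM s y z) x ≤ phi Y s x + 5 / 8 * (phr Y s y z y + phr Y s y z z) := by
  rw [phi_eq, phi_eq, phr_eq_turaP, phr_eq_turaP, ← sum_add_distrib, mul_sum, ← sum_add_distrib]
  refine sum_le_sum fun T hT => ?_
  have h3 := W_nonneg hN g T
  have h4 := turaP_nonneg hN g y z y T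
  have h5 := turaP_nonneg hN g y z z T
  by_cases ha : act Y (afterM s y z) x T
  · rw [if_pos ha, if_pos (act_W' y z ha)]
    by_cases h : W Y (afterM s y z) T = 0
    · rw [h]
      positivity
    · exact tura_term hF hN g hyz hy hz hT h
  · rw [if_neg ha]
    split_ifs <;> positivity

end Pool.H33.MB2
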