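import Pool.Agent.H33.MB2.TurnA

/-!
# MB2 TURB: two cold points

`y`, `z` not hot, so `sp y = sp z = 0` and `Sm s1 ≤ Sm s` (no alive box contains `y` or `z`; `cl_sm` and dead sets have weight 0).
For `T ∈ sur`: `W s1 T - W s T ≤ (rf_y rf_z - 1) W s T` and, with `δ ≤ 1/100`:
active at one point only: `≤ rc - 1 = 1/2 - δ`; at both, cold at both: `rc^2 - 1 ≤ 1 - 2 δ + 1/4`; otherwise
`rc * rw - 1 ≤ 1 - 2 δ`.  So `Σ ≤ (1/2 - δ) (phr y + phr z) + 1/4 D` with `D = Σ_{T ∈ sur, cold at y and z} W s T`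
`≤ Σ_{T ∈ sur, cold at z, active at y} W s T ≤ 6 τ (κ + phr y)` (`tiny_W` with `u = z`, `x = y`; `cact_act`).
As `κ ≤ 4 (phr y + phr z)`: `1/4 D ≤ 15/2 τ (phr y + phr z) ≤ δ (phr y + phr z)`.
Structures outside `sur` only lose weight.
-/

set_option linter.unusedSectionVars false

namespace Pool.H33.MB2

open Finset
open scoped Classical

variable {X Γ : Type*} [DecidableEq X] {Y : Sys X Γ} {Q : Num2}
  {Lg : List (Entry X) → Finset X → Finset X → Prop} {s : State X}

theorem tb_rate (hN : NumH Y Q) {y z : X} (T : Big X) :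
    rf Y s y T * rf Y s z T ≤ 1 + ((1 / 2 - Y.δ) * ((if act Y s y T then 1 else 0) +
      (if act Y s z T then 1 else 0)) + 1 / 4 * (if cact Y s z T ∧ act Y s y T then 1 else 0)) := by
  have hδ := hN.δpos
  have hδ1 := hN.δle
  by_cases hay : act Y s y T
  · by_cases haz : act Y s z T
    · by_cases hcz : cact Y s z T
      · rw [if_pos hay, if_pos haz, if_pos ⟨hcz, hay⟩]
        have h1 := rf_le (s := s) hN y T
        have h2 := rf_le (s := s) hN z T
        have h3 := rf_ge (s := s) hN y T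
        have h4 := rf_ge (s := s) hN z T
        have h5 : rf Y s y T * rf Y s z T ≤ rc Y * rc Y :=
          mul_le_mul h1 h2 (by linarith) (by linarith)
        have h6 : rc Y = 3 / 2 - Y.δ := rfl
        rw [h6] at h5
        nlinarith
      · have h2 : rf Y s z T = rw Y := by
          unfold rf
          rw [if_pos haz, if_neg hcz]
        have h1 := rf_le (s := s) hN y T
        have h3 := rf_ge (s := s) hN y T
        have h7 := rw_ge hN
        rw [if_pos hay, if_pos haz, if_neg (fun h => hcz h.1), h2]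
        have h5 : rf Y s y T * rw Y ≤ rc Y * rw Y :=
          mul_le_mul_of_nonneg_right h1 (by linarith)
        have h6 : rc Y = 3 / 2 - Y.δ := rfl
        have h8 : rw Y = 4 / 3 - Y.δ := rfl
        rw [h6, h8] at h5
        rw [h8]
        nlinarith
    · have h2 : rf Y s z T = 1 := by
        unfold rf
        rw [if_neg haz]
      have hcz : ¬ cact Y s z T := fun h => haz (cact_act h)
      have h1 := rf_le (s := s) hN y T
      have h6 : rc Y = 3 / 2 - Y.δ := rfl
      rw [if_pos hay, if_neg haz, if_neg (fun h => hcz h.1), h2]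
      rw [h6] at h1
      linarith
  · have h3 : rf Y s y T = 1 := by
      unfold rf
      rw [if_neg hay]
    by_cases haz : act Y s z T
    · have h1 := rf_le (s := s) hN z T
      have h6 : rc Y = 3 / 2 - Y.δ := rfl
      rw [if_neg hay, if_pos haz, if_neg (fun h => hay h.2), h3]
      rw [h6] at h1
      linarith
    · have h2 : rf Y s z T = 1 := by
        unfold rf
        rw [if_neg haz]
      rw [if_neg hay, if_neg haz, if_neg (fun h => hay h.2), h3, h2]
      linarith

theorem tb_sm (hN : NumH Y Q) {y z : X} (hyz : y ≠ z) (hy : y ∈ free Y s)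
    (hz : z ∈ free Y s) (hcy : ¬ hot s y) (hcz : ¬ hot s z) :
    Sm Y (afterM s y z) ≤ Sm Y s := by
  unfold Sm
  apply sum_le_sum
  intro A hA
  have hAJ : A ∈ s.J := List.mem_toFinset.1 hA
  by_cases hal : alive s A
  · have h1 := cl_sm hN hyz hy hz A
    rw [if_neg (fun h => hcy ⟨A, hAJ, hal, h⟩), if_neg (fun h => hcz ⟨A, hAJ, hal, h⟩), one_mul,
      one_mul] at h1
    exact h1
  · have h1 : ¬ alive (afterM s y z) A := hal
    have h2 : smW Y (afterM s y z) A = 0 := by
      unfold smW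
      rw [if_neg h1]
    rw [h2]
    exact smW_nonneg hN A

theorem turn_cc (hF : FamH Y) (hN : NumH Y Q) (hG : GeoH Y Lg) (g : Good Y Lg s)
    (hgs : ∀ v ∈ free Y s, gs Y s v ≤ Y.M1) {y z : X} (hyz : y ≠ z) (hy : y ∈ free Y s)
    (hz : z ∈ free Y s) (hcy : ¬ hot s y) (hcz : ¬ hot s z) {κ : ℝ} (hκ0 : 0 ≤ κ)
    (hκ : ∀ p ∈ free Y (afterM s y z), Rt Y (afterM s y z) p ≤ κ)
    (hκ' : ∀ p ∈ free Y (afterM s y z), phi Y (afterM s y z) p ≤ κ)
    (hκ4 : κ ≤ 4 * (phr Y s y z y + phr Y s y z z)) :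
    Phi Y (afterM s y z) ≤ Phi Y s + 1 / 2 * (phr Y s y z y + phr Y s y z z) := by
  have hδ := hN.δpos
  have hτ := hN.τpos
  have hτδ := hN.τδ
  have hsm := tb_sm hN hyz hy hz hcy hcz
  have htiny := tiny_W hF hN hG g hgs hy hz hz hy hyz.symm hκ0 hκ hκ'
  have hpy : 0 ≤ phr Y s y z y := sum_nonneg fun T _ => W_nonneg hN g T
  have hpz : 0 ≤ phr Y s y z z := sum_nonneg fun T _ => W_nonneg hN g T
  have e1 : ∑ T ∈ bigI Y, W Y (afterM s y z) T = ∑ T ∈ sur Y s y z, W Y (afterM s y z) T := by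
    unfold sur
    symm
    apply sum_filter_ne_zero
  have e2 : ∑ T ∈ sur Y s y z, W Y s T ≤ ∑ T ∈ bigI Y, W Y s T :=
    sum_le_sum_of_subset_of_nonneg (filter_subset _ _) fun T _ _ => W_nonneg hN g T
  have e3 : ∑ T ∈ sur Y s y z, W Y (afterM s y z) T ≤ ∑ T ∈ sur Y s y z,
      (W Y s T + ((1 / 2 - Y.δ) * ((if act Y s y T then W Y s T else 0) +
        (if act Y s z T then W Y s T else 0)) +
        1 / 4 * (if cact Y s z T ∧ act Y s y T then W Y s T else 0))) := by
    apply sum_le_sum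
    intro T hT
    have hT' : T ∈ bigI Y := (mem_filter.1 hT).1
    have h1 := cl_W hF hN g hyz hy hz hT'
    have h2 := mul_le_mul_of_nonneg_right (tb_rate (s := s) hN (y := y) (z := z) T)
      (W_nonneg hN g T)
    refine h1.trans (h2.trans (le_of_eq ?_))
    split_ifs <;> ring
  rw [sum_add_distrib, sum_add_distrib, ← mul_sum, ← mul_sum, sum_add_distrib, ← sum_filter,
    ← sum_filter, ← sum_filter] at e3
  have h5 : ∑ T ∈ (sur Y s y z).filter (fun T => act Y s y T), W Y s T = phr Y s y z y := rfl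
  have h6 : ∑ T ∈ (sur Y s y z).filter (fun T => act Y s z T), W Y s T = phr Y s y z z := rfl
  rw [h5, h6] at e3
  have h7 : Phi Y (afterM s y z) = Sm Y (afterM s y z) + ∑ T ∈ bigI Y, W Y (afterM s y z) T := rfl
  have h8 : Phi Y s = Sm Y s + ∑ T ∈ bigI Y, W Y s T := rfl
  rw [h7, h8, e1]
  have h9 : 6 * Q.τ * (κ + phr Y s y z y) ≤ 30 * Q.τ * (phr Y s y z y + phr Y s y z z) := by
    have h10 : κ + phr Y s y z y ≤ 5 * (phr Y s y z y + phr Y s y z z) := by linarith
    have h11 := mul_le_mul_of_nonneg_left h10 (by positivity : 0 ≤ 6 * Q.τ)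
    linarith
  have h12 : 30 * Q.τ * (phr Y s y z y + phr Y s y z z) ≤
      4 * Y.δ * (phr Y s y z y + phr Y s y z z) := by
    apply mul_le_mul_of_nonneg_right _ (by linarith)
    linarith
  linarith

end Pool.H33.MB2
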