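import Pool.Agent.H33.MB2.Closing
import Pool.Agent.H33.MB2.Extract

/-!
# MB2 XONE: the number of certified hits; a fixed ripe set meets few hits

* `x1_bound`.  Let `V` be the set on the left and suppose `#V > (Cg + 1) n1`.  Choose `C_v` for `v ∈ V` (`cand Y s A (v, C_v)`).
  For `v0 ∈ V` the number of `v ∈ V`, `v ≠ v0`, with `¬ Disjoint C_v C_{v0}` is `< Cg`: `closing` with `E = H = A`,
  `l0 = [C_{v0}]` (valid: `v0 ∈ A ∩ C_{v0}`), first alternative: `C_v` contains `v ∈ A` and a point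
  `p` of `C_{v0}`; `p ≠ v` because `A ∩ C_{v0} = {v0}`.  By `indep` there is `W ⊆ V`, `#V ≤ Cg #W`, with the `C_v` pairwise disjoint;
  `#W ≥ n1`.  Let `T = (A, {((v, C_v), false, ∅) : v ∈ W})`: a valid micro tuple (`supp = C_v`), and
  `ev Y s A ((v, C_v), false, ∅) = sv Y s A (v, C_v) ≥ G` (unfold both), so
  `mpW Y s T = ρ ∏ ≥ ρ G^#W ≥ ρ G^n1 > 1/16`, contradicting `W_le_Phi`.
* `few_meet`.  `B`, `Z` ripe and disjoint, `c` a set of leaves of `B` which all meet `Z`.
  - If `close Y B Z`: `Z ⊆ stars Y B []` (`close_subset_stars`); `closing` with `E = H = B`, `l0 = []`: `l.2` contains `l.1 ∈ B` and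
    a point of `Z`, different since `B`, `Z` are disjoint.  So `#c < Cg`.
  - If all `l ∈ c` have `close Y Z l.2`: `#c ≤ cE ≤ Cg` by `hF.hits` (`H = B`, `D = Z`; `l ↦ l.1` is injective on `c`).
  - Otherwise take `a ∈ c` with `¬ close Y Z a.2`.  `l0 = [Z, a.2]` is valid for the root `B` (`a.1 ∈ B ∩ a.2`; `Z` meets `a.2`; `Z` is not
    close to `a.2`; `Z ≠ a.2` since `a.1 ∈ B`).  `closing` for the leaves of `c.erase a`: fewer than `Cg`.
-/

set_option linter.unusedSectionVars false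

namespace Pool.H33.MB2

open Finset
open scoped Classical

variable {X Γ : Type*} [DecidableEq X] {Y : Sys X Γ} {Q : Num2}
  {Lg : List (Entry X) → Finset X → Finset X → Prop} {s : State X}

/-- `l` is a certified hit of `A`. -/
def cand (Y : Sys X Γ) (s : State X) (A : Finset X) (l : X × Finset X) : Prop :=
  l.1 ∈ A ∧ gen Y A l.2 ∧ l.1 ∈ l.2 ∧ l.2 ∈ s.ripe ∧ Y.G ≤ sv Y s A l

private theorem xo_close (hF : FamH Y) (hN : NumH Y Q) (g : Good Y Lg s) (hΦ : Phi Y s ≤ 1 / 16)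
    {B Z : Finset X} (hB : B ∈ Y.F) {l0 : List (Finset X)} (hl : ValidL Y B l0)
    (hr : ∀ A ∈ l0, A ∈ s.ripe) (hlen : l0.length ≤ 3) (hZs : Z ⊆ stars Y B l0)
    (hBZ : Disjoint B Z)
    (c : Finset (X × Finset X)) (hc : ∀ l ∈ c, l.1 ∈ B ∧ gen Y B l.2 ∧ l.1 ∈ l.2 ∧ l.2 ∈ s.ripe)
    (hinj : ∀ l ∈ c, ∀ l' ∈ c, l.1 = l'.1 → l = l') (hm : ∀ l ∈ c, ¬ Disjoint l.2 Z) :
    #c < Cg Y := by
  have hex : ∀ v : X, ∃ C : Finset X, v ∈ c.image Prod.fst → (v, C) ∈ c := by
    intro v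
    by_cases hv : v ∈ c.image Prod.fst
    · obtain ⟨l, hl1, hl2⟩ := mem_image.1 hv
      refine ⟨l.2, fun _ => ?_⟩
      rw [← hl2]
      exact hl1
    · exact ⟨∅, fun h => absurd h hv⟩
  choose Xf hXf using hex
  have h1 : #(c.image Prod.fst) = #c := by
    apply card_image_of_injOn
    intro l hl1 l' hl2 h
    exact hinj l hl1 l' hl2 h
  rw [← h1]
  refine closing hF hN g hΦ hB hl hr hlen (H := B) (Or.inl rfl) (c.image Prod.fst) Xf Xf ?_ ?_
  · intro v hv
    obtain ⟨h2, h3, h4, h5⟩ := hc _ (hXf v hv)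
    exact ⟨h5, h3, h2, h4⟩
  · intro v hv
    left
    obtain ⟨h2, h3, h4, h5⟩ := hc _ (hXf v hv)
    have h6 := hm _ (hXf v hv)
    obtain ⟨p, hp1, hp2⟩ := not_disjoint_iff.1 h6
    have hpv : v ≠ p := by
      intro h
      subst h
      exact disjoint_left.1 hBZ h2 hp2
    have h7 : ({v, p} : Finset X) ⊆ Xf v ∩ stars Y B l0 := by
      intro w hw
      rw [mem_insert, mem_singleton] at hw
      rw [mem_inter]
      rcases hw with rfl | rfl
      · exact ⟨h4, subset_stars Y B l0 (Or.inl rfl) h2⟩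
      · exact ⟨hp1, hZs hp2⟩
    have h8 := card_le_card h7
    rw [card_pair hpv] at h8
    exact h8

theorem x1_bound (hF : FamH Y) (hN : NumH Y Q) (g : Good Y Lg s) (hΦ : Phi Y s ≤ 1 / 16)
    {A : Finset X} (hA : A ∈ Y.F) (hal : alive s A) (hAJ : A ∉ s.J) :
    #(A.filter (fun v => ∃ C, cand Y s A (v, C))) ≤ (Cg Y + 1) * Q.n1 := by
  by_contra hcon
  push Not at hcon
  obtain ⟨V, hV⟩ : ∃ V, V = A.filter (fun v => ∃ C, cand Y s A (v, C)) := ⟨_, rfl⟩
  rw [← hV] at hcon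
  have hex : ∀ v : X, ∃ C : Finset X, v ∈ V → cand Y s A (v, C) := by
    intro v
    by_cases hv : v ∈ V
    · rw [hV, mem_filter] at hv
      obtain ⟨-, C, hC⟩ := hv
      exact ⟨C, fun _ => hC⟩
    · exact ⟨∅, fun h => absurd h hv⟩
  choose Cf hCf using hex
  have hdeg : ∀ v ∈ V, #(V.filter (fun u => u ≠ v ∧
      (¬ Disjoint (Cf v) (Cf u) ∨ ¬ Disjoint (Cf u) (Cf v)))) < Cg Y := by
    intro v hv
    obtain ⟨a1, a2, a3, a4, a5⟩ := hCf v hv
    dsimp only at a1 a2 a3 a4 a5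
    refine closing hF hN g hΦ hA (l0 := [Cf v]) ?_ ?_ ?_ (H := A) (Or.inl rfl) _ Cf Cf ?_ ?_
    · refine ⟨trivial, List.not_mem_nil, g.rF a4, ?_, ?_, ?_⟩
      · apply card_pos.2
        exact ⟨v, mem_inter.2 ⟨a3, subset_stars Y A [] (Or.inl rfl) a1⟩⟩
      · intro Z hZ
        exact absurd hZ List.not_mem_nil
      · intro Z hZ
        exact absurd hZ List.not_mem_nil
    · intro C hC
      rw [List.mem_singleton] at hC
      rw [hC]
      exact a4
    · simp
    · intro u hu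
      rw [mem_filter] at hu
      obtain ⟨b1, b2, b3, b4, b5⟩ := hCf u hu.1
      exact ⟨b4, b2, b1, b3⟩
    · intro u hu
      left
      rw [mem_filter] at hu
      obtain ⟨hu1, huv, hu2⟩ := hu
      obtain ⟨b1, b2, b3, b4, b5⟩ := hCf u hu1
      dsimp only at b1 b2 b3 b4 b5
      have hnd : ¬ Disjoint (Cf u) (Cf v) := by
        rcases hu2 with h | h
        · exact fun h2 => h h2.symm
        · exact h
      obtain ⟨p, hp1, hp2⟩ := not_disjoint_iff.1 hnd
      have hup : u ≠ p := by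
        intro h
        apply huv
        rw [← h] at hp2
        exact gen_eq a2 b1 hp2 a1 a3
      have h7 : ({u, p} : Finset X) ⊆ Cf u ∩ stars Y A [Cf v] := by
        intro w hw
        rw [mem_insert, mem_singleton] at hw
        rw [mem_inter]
        rcases hw with rfl | rfl
        · exact ⟨b3, subset_stars Y A _ (Or.inl rfl) b1⟩
        · exact ⟨hp1, subset_stars Y A _ (Or.inr List.mem_cons_self) hp2⟩
      have h8 := card_le_card h7
      rw [card_pair hup] at h8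
      exact h8
  obtain ⟨W, hWV, hWc, hWr⟩ := indep V (fun v u => ¬ Disjoint (Cf v) (Cf u)) (Cg Y) (by
    intro v hv
    have h0 := hdeg v hv
    convert h0)
  have hWn : Q.n1 ≤ #W := by
    by_contra h
    push Not at h
    have h2 : Cg Y * #W ≤ Cg Y * Q.n1 := Nat.mul_le_mul_left _ h.le
    have h3 : (Cg Y + 1) * Q.n1 = Cg Y * Q.n1 + Q.n1 := by ring
    omega
  obtain ⟨ef, hef⟩ : ∃ ef : X → El X, ef = fun v => ((v, Cf v), false, ∅) := ⟨_, rfl⟩
  have hefi : Function.Injective ef := by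
    intro a b h
    rw [hef] at h
    simp only [Prod.mk.injEq] at h
    exact h.1.1
  have hsupp : ∀ v, supp (ef v) = Cf v := by
    intro v
    rw [hef]
    unfold supp
    simp
  have hvalid : ValidMP Y (A, W.image ef) := by
    refine ⟨hA, ?_, ?_⟩
    · intro e he
      obtain ⟨v, hv, rfl⟩ := mem_image.1 he
      obtain ⟨a1, a2, a3, a4, a5⟩ := hCf v (hWV hv)
      rw [hef]
      exact ⟨g.rF a4, a2, a1, a3, fun _ => rfl, by simp, by simp, by simp⟩
    · intro e he e' he' hne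
      obtain ⟨v, hv, rfl⟩ := mem_image.1 he
      obtain ⟨u, hu, rfl⟩ := mem_image.1 he'
      have hvu : v ≠ u := fun h => hne (by rw [h])
      rw [hsupp, hsupp]
      have := hWr v hv u hu hvu
      push Not at this
      exact this
  have h1 := W_le_Phi hN g (mem_bigI_mp.2 ((mem_mpI hF).2 hvalid))
  have h2 : mpW Y s (A, W.image ef) ≤ 1 / 16 := le_trans h1 hΦ
  have h3 : mpW Y s (A, W.image ef) = Y.ρ * ∏ v ∈ W, sv Y s A (v, Cf v) := by
    unfold mpW
    rw [if_pos ⟨hal, hAJ⟩]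
    show Y.ρ * ∏ e ∈ W.image ef, ev Y s A e = _
    rw [prod_image (fun a _ b _ h => hefi h)]
    congr 1
    apply prod_congr rfl
    intro v _
    rw [hef]
    unfold ev sv
    simp
  have h4 : Y.G ^ #W ≤ ∏ v ∈ W, sv Y s A (v, Cf v) := by
    rw [← prod_const]
    apply prod_le_prod
    · intro v _
      linarith [hN.G1]
    · intro v hv
      exact (hCf v (hWV hv)).2.2.2.2
  have h5 : Y.G ^ Q.n1 ≤ Y.G ^ #W := pow_le_pow_right₀ hN.G1 hWn
  have h6 := hN.x1
  have h7 : Y.ρ * Y.G ^ Q.n1 ≤ Y.ρ * ∏ v ∈ W, sv Y s A (v, Cf v) :=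
    mul_le_mul_of_nonneg_left (h5.trans h4) hN.ρpos.le
  linarith

theorem few_meet (hF : FamH Y) (hN : NumH Y Q) (g : Good Y Lg s) (hΦ : Phi Y s ≤ 1 / 16)
    {B Z : Finset X} (hB : B ∈ s.ripe) (hZ : Z ∈ s.ripe) (hBZ : Disjoint B Z)
    (c : Finset (X × Finset X)) (hc : ∀ l ∈ c, l.1 ∈ B ∧ gen Y B l.2 ∧ l.1 ∈ l.2 ∧ l.2 ∈ s.ripe)
    (hinj : ∀ l ∈ c, ∀ l' ∈ c, l.1 = l'.1 → l = l') (hm : ∀ l ∈ c, ¬ Disjoint l.2 Z) :
    #c ≤ Cg Y := by
  have hBF := g.rF hB
  have hZF := g.rF hZ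
  by_cases h1 : close Y B Z
  · exact (xo_close hF hN g hΦ hBF (l0 := []) trivial (by simp) (by simp)
      (close_subset_stars (Or.inl rfl) hZF h1) hBZ c hc hinj hm).le
  by_cases h2 : ∀ l ∈ c, close Y Z l.2
  · have h3 : c.image Prod.fst ⊆
        B.filter (fun v => ∃ C ∈ Y.F, gen Y B C ∧ v ∈ C ∧ close Y Z C) := by
      intro v hv
      obtain ⟨l, hl1, rfl⟩ := mem_image.1 hv
      obtain ⟨a1, a2, a3, a4⟩ := hc l hl1
      rw [mem_filter]
      exact ⟨a1, l.2, g.rF a4, a2, a3, h2 l hl1⟩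
    have h4 := (card_le_card h3).trans (hF.hits B hBF Z hZF)
    have h5 : #(c.image Prod.fst) = #c := by
      apply card_image_of_injOn
      intro l hl1 l' hl2 h
      exact hinj l hl1 l' hl2 h
    rw [h5] at h4
    have h6 : Y.cE ≤ Y.cE * smax Y := Nat.le_mul_of_pos_right _ (by unfold smax; omega)
    unfold Cg
    omega
  · push Not at h2
    obtain ⟨a, ha, hcl⟩ := h2
    obtain ⟨a1, a2, a3, a4⟩ := hc a ha
    obtain ⟨p, hp1, hp2⟩ := not_disjoint_iff.1 (hm a ha)
    have hcl2 : ¬ close Y a.2 Z := by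
      unfold close at hcl ⊢
      rw [inter_comm]
      exact hcl
    have hval : ValidL Y B [Z, a.2] := by
      refine ⟨⟨trivial, List.not_mem_nil, g.rF a4, ?_, ?_, ?_⟩, ?_, hZF, ?_, ?_, ?_⟩
      · apply card_pos.2
        exact ⟨a.1, mem_inter.2 ⟨a3, subset_stars Y B [] (Or.inl rfl) a1⟩⟩
      · intro Z hZ
        exact absurd hZ List.not_mem_nil
      · intro Z hZ
        exact absurd hZ List.not_mem_nil
      · rw [List.mem_singleton]
        intro h
        rw [← h] at a3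
        exact disjoint_left.1 hBZ a1 a3
      · apply card_pos.2
        exact ⟨p, mem_inter.2 ⟨hp2, subset_stars Y B _ (Or.inr List.mem_cons_self) hp1⟩⟩
      · intro C hC hCc
        rw [List.mem_singleton] at hC
        rw [hC] at hCc
        exact absurd hCc hcl2
      · intro C hC C' _ hCc
        rw [List.mem_singleton] at hC
        rw [hC] at hCc
        exact absurd hCc hcl2
    have h3 := xo_close hF hN g hΦ hBF (l0 := [Z, a.2]) hval (by
        intro C hC
        rw [List.mem_cons, List.mem_singleton] at hC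
        rcases hC with rfl | rfl
        · exact hZ
        · exact a4) (by simp)
      (subset_stars Y B _ (Or.inr List.mem_cons_self)) hBZ (c.erase a)
      (fun l hl => hc l (mem_of_mem_erase hl))
      (fun l hl l' hl' h => hinj l (mem_of_mem_erase hl) l' (mem_of_mem_erase hl') h)
      (fun l hl => hm l (mem_of_mem_erase hl))
    rw [card_erase_of_mem ha] at h3
    omega

end Pool.H33.MB2
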