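import Pool.Agent.H33.MB2.XTwoA

/-!
# MB2 XTWO: the number of clean bad hits

Let `I` be the set on the left of `x2_bound`, `B_v` the cause of `v ∈ I` (`s.lb A v = some B_v`); by `g.lb`
`B_v ∈ s.J`, `gen B_v A`, `v ∈ A ∩ B_v`, and `B_v` is ripe (`g.Jr`).  `g.cert` gives `c_v` (`#c_v ≥ Mc`).
Suppose `#I > 2 (Cg + 1) n2`.
1. `indep` with `¬ Disjoint B_v B_u`: for fixed `u` fewer than `Cg` such `v ≠ u` (`closing`, `E = H = A`, `l0 = [B_u]`, first
   alternative: `B_v` contains `v ∈ A` and a point of `B_u`; it is not `v` because `A ∩ B_u = {u}`).  So `I' ⊆ I` with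
   `#I ≤ Cg #I'`, the `B_v` (`v ∈ I'`) pairwise disjoint.
2. `c'_v = {l ∈ c_v : l.1 ≠ v, Disjoint l.2 A}`.  At most one `l` has `l.1 = v`; fewer than `Cg` of the others meet `A`: `closing` with
   root `A`, `l0 = [B_v]`, `H = B_v`: `l.2` contains `l.1 ∈ B_v` and a point of `A`, different (`A ∩ B_v = {v}`, `l.1 ≠ v`).
   So `#c'_v ≥ Mc - Cg ≥ (Dl + 1) m + 2 Dl (m + 1)` (`Mc = Cg + 1 + ...`).  Now `XD Y s A I' B c'` holds.
3. `extract` (`Δ = Dl`, `cand = c'`, `r (v, l) (u, b) := ¬ Disjoint l.2 b.2`, `pre (v, l) := ∃ u ∈ I', u ≠ v ∧ ¬ Disjoint l.2 B_u`):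
   `hdeg` is `xdeg`; `hpre` is the sum of `xpre` over `u ∈ I'`.  It gives `W ⊆ I'`, `#I' ≤ 2 #W`, and `S_v ⊆ c'_v`, `#S_v = m`, so
   `#W ≥ n2` (`#I > 2 (Cg + 1) n2`, `#I ≤ Cg #I'`).
4. `T = (A, {((v, B_v), true, S_v) : v ∈ W})` is a valid micro tuple (different leaves of one class are disjoint by the second
   property of `S`, leaves of different classes too; `l.2` is disjoint from `B_u` for `u ≠ v` by `¬ pre`; the `B_v` are disjoint);
   `ev = s.s2 B_v * ∏ s.ss B_v l ≥ β G^m` (`s.lb A v = some B_v`, `g.cert`);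
   `mpW Y s T ≥ ρ (β G^m)^n2 > 1/16` (`xG`, `x2`), but it is at most `Phi ≤ 1/16` (`W_le_Phi`, `mem_mpI`): contradiction.
-/

set_option linter.unusedSectionVars false

namespace Pool.H33.MB2

open Finset
open scoped Classical

variable {X Γ : Type*} [DecidableEq X] {Y : Sys X Γ} {Q : Num2}
  {Lg : List (Entry X) → Finset X → Finset X → Prop} {s : State X}

/-- the set attached to the first coordinate of a leaf -/
theorem xtwo_leaf (L : Finset (X × Finset X)) (hinj : ∀ l ∈ L, ∀ l' ∈ L, l.1 = l'.1 → l = l') :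
    ∃ Xf : X → Finset X, ∀ l ∈ L, Xf l.1 = l.2 := by
  refine ⟨fun x => if h : ∃ l ∈ L, l.1 = x then (Classical.choose h).2 else ∅, ?_⟩
  intro l hl
  have h : ∃ l' ∈ L, l'.1 = l.1 := ⟨l, hl, rfl⟩
  beta_reduce
  rw [dif_pos h]
  have h1 := Classical.choose_spec h
  rw [hinj _ h1.1 l hl h1.2]

theorem xtwo_pair {S : Finset X} {v p : X} (hv : v ∈ S) (hp : p ∈ S) (h : p ≠ v) : 2 ≤ #S := by
  have h4 : ({v, p} : Finset X) ⊆ S := by
    intro w hw
    simp only [mem_insert, mem_singleton] at hw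
    rcases hw with rfl | rfl
    · exact hv
    · exact hp
  have h5 := card_le_card h4
  rw [card_pair h.symm] at h5
  exact h5

/-- few of the sets `Bf v` meet a fixed one -/
theorem xtwo_one (hF : FamH Y) (hN : NumH Y Q) (g : Good Y Lg s) (hΦ : Phi Y s ≤ 1 / 16)
    {A : Finset X} (hA : A ∈ Y.F) (I : Finset X) (Bf : X → Finset X)
    (hB : ∀ v ∈ I, v ∈ A ∧ v ∈ Bf v ∧ Bf v ∈ s.ripe ∧ gen Y A (Bf v)) (u : X) (hu : u ∈ I) :
    #(I.filter (fun v => v ≠ u ∧ (¬ Disjoint (Bf u) (Bf v) ∨ ¬ Disjoint (Bf v) (Bf u)))) < Cg Y := by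
  obtain ⟨hu1, hu2, hu3, hu4⟩ := hB u hu
  refine closing hF hN g hΦ (E := A) (l0 := [Bf u]) hA ?_ ?_ (by simp) (H := A) (Or.inl rfl) _ Bf Bf
    ?_ ?_
  · refine ⟨trivial, by simp, g.rF hu3, ?_, by simp, by simp⟩
    exact card_pos.2 ⟨u, mem_inter.2 ⟨hu2, subset_stars Y A [] (Or.inl rfl) hu1⟩⟩
  · intro Z hZ
    rw [List.mem_singleton] at hZ
    rw [hZ]
    exact hu3
  · intro v hv
    rw [mem_filter] at hv
    obtain ⟨h1, h2, h3, h4⟩ := hB v hv.1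
    exact ⟨h3, h4, h1, h2⟩
  · intro v hv
    rw [mem_filter] at hv
    obtain ⟨h1, h2, h3, h4⟩ := hB v hv.1
    left
    have hnd : ¬ Disjoint (Bf v) (Bf u) := by
      rcases hv.2.2 with h | h
      · exact fun h' => h h'.symm
      · exact h
    rw [not_disjoint_iff] at hnd
    obtain ⟨p, hp1, hp2⟩ := hnd
    apply xtwo_pair (v := v) (p := p)
    · exact mem_inter.2 ⟨h2, subset_stars Y A _ (Or.inl rfl) h1⟩
    · exact mem_inter.2 ⟨hp1, subset_stars Y A [Bf u] (Or.inr (by simp)) hp2⟩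
    · rintro rfl
      exact hv.2.1 (gen_eq hu4 h1 hp2 hu1 hu2)

/-- few leaves of `B` meet `A` -/
theorem xtwo_two (hF : FamH Y) (hN : NumH Y Q) (g : Good Y Lg s) (hΦ : Phi Y s ≤ 1 / 16)
    {A : Finset X} (hA : A ∈ Y.F) {B : Finset X} {v : X} (hv : v ∈ A) (hvB : v ∈ B)
    (hB : B ∈ s.ripe) (hAB : gen Y A B) (c : Finset (X × Finset X))
    (hc : ∀ l ∈ c, l.1 ∈ B ∧ gen Y B l.2 ∧ l.1 ∈ l.2 ∧ l.2 ∈ s.ripe)
    (hinj : ∀ l ∈ c, ∀ l' ∈ c, l.1 = l'.1 → l = l') :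
    #(c.filter (fun l => l.1 ≠ v ∧ ¬ Disjoint l.2 A)) < Cg Y := by
  set L := c.filter (fun l => l.1 ≠ v ∧ ¬ Disjoint l.2 A) with hL
  have hLc : ∀ l ∈ L, l ∈ c := fun l hl => (mem_filter.1 hl).1
  obtain ⟨Xf, hXf⟩ := xtwo_leaf L (fun l hl l' hl' h => hinj l (hLc l hl) l' (hLc l' hl') h)
  have hcard : #(L.image Prod.fst) = #L := by
    apply card_image_of_injOn
    intro l hl l' hl' h
    exact hinj l (hLc l hl) l' (hLc l' hl') h
  rw [← hcard]
  refine closing hF hN g hΦ (E := A) (l0 := [B]) hA ?_ ?_ (by simp) (H := B) (Or.inr (by simp)) _ Xf Xf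
    ?_ ?_
  · refine ⟨trivial, by simp, g.rF hB, ?_, by simp, by simp⟩
    exact card_pos.2 ⟨v, mem_inter.2 ⟨hvB, subset_stars Y A [] (Or.inl rfl) hv⟩⟩
  · intro Z hZ
    rw [List.mem_singleton] at hZ
    rw [hZ]
    exact hB
  · intro x hx
    obtain ⟨l, hl, rfl⟩ := mem_image.1 hx
    obtain ⟨h1, h2, h3, h4⟩ := hc l (hLc l hl)
    rw [hXf l hl]
    exact ⟨h4, h2, h1, h3⟩
  · intro x hx
    obtain ⟨l, hl, rfl⟩ := mem_image.1 hx
    obtain ⟨h1, h2, h3, h4⟩ := hc l (hLc l hl)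
    have hl2 := (mem_filter.1 hl).2
    left
    rw [hXf l hl]
    have hnd := hl2.2
    rw [not_disjoint_iff] at hnd
    obtain ⟨p, hp1, hp2⟩ := hnd
    apply xtwo_pair (v := l.1) (p := p)
    · exact mem_inter.2 ⟨h3, subset_stars Y A [B] (Or.inr (by simp)) h1⟩
    · exact mem_inter.2 ⟨hp1, subset_stars Y A [B] (Or.inl rfl) hp2⟩
    · intro h
      apply hl2.1
      rw [h] at hp2
      exact gen_eq hAB hp2 h1 hv hvB

/-- the leaves which can be used -/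
theorem xtwo_card {c : Finset (X × Finset X)} {A : Finset X} {v : X} (N : ℕ)
    (hinj : ∀ l ∈ c, ∀ l' ∈ c, l.1 = l'.1 → l = l')
    (h : #(c.filter (fun l => l.1 ≠ v ∧ ¬ Disjoint l.2 A)) < N) :
    #c ≤ #(c.filter (fun l => l.1 ≠ v ∧ Disjoint l.2 A)) + N := by
  have h1 : c ⊆ c.filter (fun l => l.1 ≠ v ∧ Disjoint l.2 A) ∪
      (c.filter (fun l => l.1 ≠ v ∧ ¬ Disjoint l.2 A) ∪ c.filter (fun l => l.1 = v)) := by
    intro l hl
    simp only [mem_union, mem_filter]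
    tauto
  have h2 : #(c.filter (fun l => l.1 = v)) ≤ 1 := by
    rw [card_le_one]
    intro l hl l' hl'
    rw [mem_filter] at hl hl'
    exact hinj l hl.1 l' hl'.1 (hl.2.trans hl'.2.symm)
  have h3 := card_le_card h1
  have h4 := card_union_le (c.filter (fun l => l.1 ≠ v ∧ Disjoint l.2 A))
    (c.filter (fun l => l.1 ≠ v ∧ ¬ Disjoint l.2 A) ∪ c.filter (fun l => l.1 = v))
  have h5 := card_union_le (c.filter (fun l => l.1 ≠ v ∧ ¬ Disjoint l.2 A))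
    (c.filter (fun l => l.1 = v))
  omega

/-- the final micro tuple -/
theorem xtwo_mp (hF : FamH Y) (hN : NumH Y Q) (g : Good Y Lg s) (hΦ : Phi Y s ≤ 1 / 16)
    {A : Finset X} (hA : A ∈ Y.F) (hal : alive s A) (hAJ : A ∉ s.J) (W : Finset X)
    (Bf : X → Finset X) (S : X → Finset (X × Finset X))
    (hB : ∀ v ∈ W, v ∈ A ∧ v ∈ Bf v ∧ Bf v ∈ s.ripe ∧ gen Y A (Bf v))
    (hlb : ∀ v ∈ W, s.lb A v = some (Bf v)) (hβ : ∀ v ∈ W, Y.β ≤ s.s2 (Bf v))
    (hS : ∀ v ∈ W, #(S v) = Y.m)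
    (hl : ∀ v ∈ W, ∀ l ∈ S v, l.2 ∈ Y.F ∧ gen Y (Bf v) l.2 ∧ l.1 ∈ Bf v ∧ l.1 ∈ l.2 ∧ l.1 ≠ v ∧
      Disjoint l.2 A)
    (hss : ∀ v ∈ W, ∀ l ∈ S v, Y.G ≤ s.ss (Bf v) l)
    (hBd : ∀ v ∈ W, ∀ u ∈ W, v ≠ u → Disjoint (Bf v) (Bf u))
    (hBl : ∀ v ∈ W, ∀ u ∈ W, v ≠ u → ∀ l ∈ S v, Disjoint l.2 (Bf u))
    (hll : ∀ v ∈ W, ∀ u ∈ W, ∀ l ∈ S v, ∀ b ∈ S u, (v, l) ≠ (u, b) → Disjoint l.2 b.2) :
    #W < Q.n2 := by
  by_contra hcon
  push Not at hcon
  set el : X → El X := fun v => ((v, Bf v), true, S v) with hel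
  have hinj : Set.InjOn el (W : Set X) := by
    intro v _ u _ h
    have h1 : ((v, Bf v), true, S v) = ((u, Bf u), true, S u) := h
    rw [Prod.mk.injEq, Prod.mk.injEq] at h1
    exact h1.1.1
  have hval : ValidMP Y (A, W.image el) := by
    refine ⟨hA, ?_, ?_⟩
    · intro e he
      obtain ⟨v, hv, rfl⟩ := mem_image.1 he
      obtain ⟨h1, h2, h3, h4⟩ := hB v hv
      exact
        { hB := g.rF h3
          hg := h4
          hE := h1
          hv := h2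
          h1 := fun h => by simp [hel] at h
          hm := (hS v hv).le
          hl := fun l hlS => hl v hv l hlS
          hd := fun l hlS l' hlS' hne => hll v hv v hv l hlS l' hlS' (fun h => hne (by
            rw [Prod.mk.injEq] at h
            exact h.2)) }
    · intro e he e' he' hne
      obtain ⟨v, hv, rfl⟩ := mem_image.1 he
      obtain ⟨u, hu, rfl⟩ := mem_image.1 he'
      have hvu : v ≠ u := fun h => hne (by rw [h])
      show Disjoint (Bf v ∪ (S v).biUnion Prod.snd) (Bf u ∪ (S u).biUnion Prod.snd)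
      rw [disjoint_union_left, disjoint_union_right, disjoint_union_right]
      refine ⟨⟨hBd v hv u hu hvu, ?_⟩, ?_, ?_⟩
      · rw [disjoint_biUnion_right]
        intro l hlS
        exact (hBl u hu v hv hvu.symm l hlS).symm
      · rw [disjoint_biUnion_left]
        intro l hlS
        exact hBl v hv u hu hvu l hlS
      · rw [disjoint_biUnion_left]
        intro l hlS
        rw [disjoint_biUnion_right]
        intro b hbS
        exact hll v hv u hu l hlS b hbS (fun h => hvu (by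
          rw [Prod.mk.injEq] at h
          exact h.1))
  have h1 := W_le_Phi hN g (mem_bigI_mp.2 ((mem_mpI hF).2 hval))
  have h2 : mpW Y s (A, W.image el) ≤ 1 / 16 := le_trans h1 hΦ
  have h3 : mpW Y s (A, W.image el) = Y.ρ * ∏ v ∈ W, ev Y s A (el v) := by
    unfold mpW
    rw [if_pos ⟨hal, hAJ⟩]
    show Y.ρ * ∏ e ∈ W.image el, ev Y s A e = _
    rw [prod_image hinj]
  have hβ0 := hN.βpos
  have hG1 := hN.G1
  have hG0 : 0 ≤ Y.G := by linarith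
  have h4 : ∀ v ∈ W, Y.β * Y.G ^ Y.m ≤ ev Y s A (el v) := by
    intro v hv
    have e1 : ev Y s A (el v) = s.s2 (Bf v) * ∏ l ∈ S v, s.ss (Bf v) l := by
      unfold ev
      rw [if_pos (show s.lb A (el v).1.1 = some (el v).1.2 from hlb v hv)]
      rfl
    rw [e1]
    apply mul_le_mul (hβ v hv) _ (pow_nonneg hG0 _) (g.s2n _)
    rw [← hS v hv, ← prod_const]
    exact prod_le_prod (fun _ _ => hG0) (fun l hlS => hss v hv l hlS)
  have h5 : (Y.β * Y.G ^ Y.m) ^ #W ≤ ∏ v ∈ W, ev Y s A (el v) := by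
    rw [← prod_const]
    exact prod_le_prod (fun _ _ => mul_nonneg hβ0.le (pow_nonneg hG0 _)) h4
  have h6 : (Y.β * Y.G ^ Y.m) ^ Q.n2 ≤ (Y.β * Y.G ^ Y.m) ^ #W :=
    pow_le_pow_right₀ hN.xG hcon
  have h7 := hN.x2
  have hρ := hN.ρpos
  have h8 : Y.ρ * (Y.β * Y.G ^ Y.m) ^ Q.n2 ≤ Y.ρ * ∏ v ∈ W, ev Y s A (el v) :=
    mul_le_mul_of_nonneg_left (h6.trans h5) hρ.le
  linarith

theorem x2_bound (hF : FamH Y) (hN : NumH Y Q) (g : Good Y Lg s) (hΦ : Phi Y s ≤ 1 / 16)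
    {A : Finset X} (hA : A ∈ Y.F) (hal : alive s A) (hAJ : A ∉ s.J) :
    #(A.filter (fun v => ∃ C, s.lb A v = some C ∧ s.bad C ∧ s.cln C)) ≤ nb1 Y Q := by
  by_contra hcon
  push Not at hcon
  set I := A.filter (fun v => ∃ C, s.lb A v = some C ∧ s.bad C ∧ s.cln C) with hI
  set Bf : X → Finset X := fun v => (s.lb A v).getD ∅ with hBf
  have hlb : ∀ v ∈ I, s.lb A v = some (Bf v) ∧ s.bad (Bf v) ∧ s.cln (Bf v) := by
    intro v hv
    obtain ⟨C, h1, h2, h3⟩ := (mem_filter.1 hv).2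
    have e1 : Bf v = C := by
      rw [hBf]
      simp only
      rw [h1]
      rfl
    rw [e1]
    exact ⟨h1, h2, h3⟩
  have hJ : ∀ v ∈ I, Bf v ∈ s.J := fun v hv => (g.lb A v _ (hlb v hv).1).1
  have hB : ∀ v ∈ I, v ∈ A ∧ v ∈ Bf v ∧ Bf v ∈ s.ripe ∧ gen Y A (Bf v) := by
    intro v hv
    obtain ⟨h1, h2, h3, h4⟩ := g.lb A v _ (hlb v hv).1
    exact ⟨h3, (g.bx _ h1).1 h2, g.Jr _ h1, gen_symm h4⟩
  have hcert : ∀ v : X, ∃ c : Finset (X × Finset X), v ∈ I → Mc Y ≤ #c ∧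
      (∀ l ∈ c, l.1 ∈ Bf v ∧ gen Y (Bf v) l.2 ∧ l.1 ∈ l.2 ∧ l.2 ∈ s.ripe ∧
        Y.G ≤ s.ss (Bf v) l) ∧
      ∀ l ∈ c, ∀ l' ∈ c, l.1 = l'.1 → l = l' := by
    intro v
    by_cases hv : v ∈ I
    · obtain ⟨-, c, hc⟩ := g.cert (Bf v) (hJ v hv) (hlb v hv).2.2 (hlb v hv).2.1
      exact ⟨c, fun _ => hc⟩
    · exact ⟨∅, fun h => absurd h hv⟩
  choose c hc using hcert
  have hβ : ∀ v ∈ I, Y.β ≤ s.s2 (Bf v) := fun v hv =>
    (g.cert (Bf v) (hJ v hv) (hlb v hv).2.2 (hlb v hv).2.1).1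
  -- step 1
  obtain ⟨I', hI'I, hI'c, hI'd⟩ := indep I (fun u v => ¬ Disjoint (Bf u) (Bf v)) (Cg Y)
    (fun u hu => by
      refine lt_of_le_of_lt (card_le_card ?_) (xtwo_one hF hN g hΦ hA I Bf hB u hu)
      intro x hx
      simp only [mem_filter] at hx ⊢
      exact hx)
  have hd : ∀ v ∈ I', ∀ u ∈ I', v ≠ u → Disjoint (Bf v) (Bf u) := by
    intro v hv u hu hvu
    exact not_not.1 (hI'd v hv u hu hvu)
  -- step 2
  set c' : X → Finset (X × Finset X) := fun v =>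
    (c v).filter (fun l => l.1 ≠ v ∧ Disjoint l.2 A) with hc'
  have hc'c : ∀ v ∈ I, Mc Y ≤ #(c' v) + Cg Y := by
    intro v hv
    obtain ⟨h1, h2, h3⟩ := hc v hv
    obtain ⟨k1, k2, k3, k4⟩ := hB v hv
    have h4 := xtwo_two hF hN g hΦ hA k1 k2 k3 k4 (c v)
      (fun l hl => ⟨(h2 l hl).1, (h2 l hl).2.1, (h2 l hl).2.2.1, (h2 l hl).2.2.2.1⟩) h3
    exact h1.trans (xtwo_card (Cg Y) h3 h4)
  have D : XD Y s A I' Bf c' :=
    { hB := fun v hv => hB v (hI'I hv)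
      hd := hd
      hc := by
        intro v hv l hl
        have hl2 := mem_filter.1 hl
        obtain ⟨h1, h2, h3⟩ := hc v (hI'I hv)
        obtain ⟨k1, k2, k3, k4, k5⟩ := h2 l hl2.1
        exact ⟨k1, k2, k3, k4, hl2.2.1, hl2.2.2⟩
      hi := by
        intro v hv l hl l' hl' h
        exact (hc v (hI'I hv)).2.2 l (mem_filter.1 hl).1 l' (mem_filter.1 hl').1 h }
  -- step 3
  obtain ⟨W, hWI, hWc, S, hS1, hS2⟩ := extract I' c'
    (fun a b => ¬ Disjoint a.2.2 b.2.2) (fun a b h h' => h h'.symm)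
    (fun a => ∃ u ∈ I', u ≠ a.1 ∧ ¬ Disjoint a.2.2 (Bf u)) (Dl Y) Y.m
    ((Dl Y + 1) * Y.m + 2 * Dl Y * (Y.m + 1)) (by unfold Dl; exact Nat.one_le_iff_ne_zero.2 (by positivity))
    (by
      intro v hv l hl hnp
      have hp : ∀ u ∈ I', u ≠ v → Disjoint l.2 (Bf u) := by
        intro u hu huv
        by_contra h
        exact hnp ⟨u, hu, huv, h⟩
      refine le_trans (card_le_card ?_) (xdeg hF hN g hΦ hA D hv hl hp)
      intro x hx
      simp only [mem_filter] at hx ⊢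
      exact ⟨hx.1, hx.2.2.1, hx.2.2.2⟩)
    (by
      refine le_trans (card_le_card (t := I'.biUnion (fun u =>
        (I'.sigma c').filter (fun x => x.1 ≠ u ∧ ¬ Disjoint x.2.2 (Bf u)))) ?_) ?_
      · intro x hx
        simp only [mem_filter] at hx
        obtain ⟨hx1, u, hu, hux, hnd⟩ := hx
        simp only [mem_biUnion, mem_filter]
        exact ⟨u, hu, hx1, hux.symm, hnd⟩
      · rw [mul_comm]
        exact card_biUnion_le_card_mul _ _ _ (fun u hu => xpre hF hN g hΦ hA D hu))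
    (by
      intro v hv
      have h1 := hc'c v (hI'I hv)
      unfold Mc at h1
      omega)
    le_rfl
  -- step 4
  have hWc' : #W < Q.n2 := by
    apply xtwo_mp hF hN g hΦ hA hal hAJ W Bf S
    · exact fun v hv => hB v (hI'I (hWI hv))
    · exact fun v hv => (hlb v (hI'I (hWI hv))).1
    · exact fun v hv => hβ v (hI'I (hWI hv))
    · exact fun v hv => (hS1 v hv).2.1
    · intro v hv l hl
      have h1 := D.hc v (hWI hv) l ((hS1 v hv).1 hl)
      exact ⟨g.rF h1.2.2.2.1, h1.2.1, h1.1, h1.2.2.1, h1.2.2.2.2.1, h1.2.2.2.2.2⟩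
    · intro v hv l hl
      have h1 := (mem_filter.1 ((hS1 v hv).1 hl)).1
      exact ((hc v (hI'I (hWI hv))).2.1 l h1).2.2.2.2
    · exact fun v hv u hu => hd v (hWI hv) u (hWI hu)
    · intro v hv u hu hvu l hl
      by_contra h
      exact (hS1 v hv).2.2 l hl ⟨u, hWI hu, hvu.symm, h⟩
    · intro v hv u hu l hl b hb hne
      exact not_not.1 (hS2 v hv u hu l hl b hb hne)
  have h1 : #I ≤ Cg Y * (2 * #W) := hI'c.trans (Nat.mul_le_mul_left _ hWc)
  have h2 : Cg Y * (2 * #W) ≤ Cg Y * (2 * Q.n2) :=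
    Nat.mul_le_mul_left _ (Nat.mul_le_mul_left _ hWc'.le)
  have h3 : nb1 Y Q = Cg Y * (2 * Q.n2) + 2 * Q.n2 := by
    unfold nb1
    ring
  omega

end Pool.H33.MB2
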