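import Pool.Agent.H33.MB2.XOne

/-!
# MB2 XTWA: conflict degrees for the extraction of micro tuples

`A ∈ F`; classes `v ∈ I ⊆ A` with pairwise disjoint ripe sets `Bf v ∋ v` (`gen A (Bf v)`), and leaves `c v` of `Bf v` which are disjoint
from `A`.
* `xpre`.  Fix `u ∈ I`.  The number of `v ∈ I`, `v ≠ u`, which have some `l ∈ c v` with `¬ Disjoint l.2 (Bf u)` is `< Cg`:
  `closing` with `E = H = A`, `l0 = [Bf u]` (`ValidL`: `u ∈ A ∩ Bf u`, `subset_stars`), `Xf v = Bf v`, `Yf v = l.2` for one such `l`, second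
  alternative: `p = l.1 ∈ Bf v ∩ l.2`, `p ≠ v`; `l.2` contains `l.1 ∈ Bf v` and a point of `Bf u ⊆ stars`, different since
  `Bf u ∩ Bf v = ∅`.  For each such `v` at most `Cg` leaves by `few_meet` (`B = Bf v`, `Z = Bf u`).  Total `≤ Cg * Cg ≤ Dl = (Cg + 1)^2`.
* `xdeg`.  Same class: the `l ∈ c u`, `l ≠ b`, with `¬ Disjoint b.2 l.2` are fewer than `Cg`: `closing` with `E = H = Bf u`, `l0 = [b.2]`, points
  `l.1`, `Xf` the inverse of the injection `l ↦ l.1`, first alternative: `l.2` contains `l.1 ∈ Bf u` and a point of `b.2`; if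
  it were equal to `l.1` then `l.1 ∈ Bf u ∩ b.2 = {b.1}`, so `l = b` by `hi`.
  Other classes `v ≠ u`: `Disjoint b.2 (Bf v)` by `hp`.  The number of such `v` (with some `l ∈ c v`, `¬ Disjoint b.2 l.2`) is `< Cg`:
  `closing`, `E = H = A`, `l0 = [b.2, Bf u]` (valid: `b.1 ∈ Bf u ∩ b.2`, `gr (Bf u) ≠ gr b.2`), `Xf v = Bf v`, `Yf v = l.2`, second alternative:
  `l.2` contains `l.1 ∈ Bf v` and a point of `b.2`, different since `b.2 ∩ Bf v = ∅`.  For each `v` at most `Cg` leaves by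
  `few_meet` (`B = Bf v`, `Z = b.2`).  Total `≤ (Cg - 1) + (Cg - 1) * Cg ≤ Dl`.
-/

set_option linter.unusedSectionVars false

namespace Pool.H33.MB2

open Finset
open scoped Classical

variable {X Γ : Type*} [DecidableEq X] {Y : Sys X Γ} {Q : Num2}
  {Lg : List (Entry X) → Finset X → Finset X → Prop} {s : State X}

/-- Classes and leaves. -/
structure XD (Y : Sys X Γ) (s : State X) (A I : Finset X) (Bf : X → Finset X)
    (c : X → Finset (X × Finset X)) : Prop where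
  hB : ∀ v ∈ I, v ∈ A ∧ v ∈ Bf v ∧ Bf v ∈ s.ripe ∧ gen Y A (Bf v)
  hd : ∀ v ∈ I, ∀ u ∈ I, v ≠ u → Disjoint (Bf v) (Bf u)
  hc : ∀ v ∈ I, ∀ l ∈ c v, l.1 ∈ Bf v ∧ gen Y (Bf v) l.2 ∧ l.1 ∈ l.2 ∧ l.2 ∈ s.ripe ∧ l.1 ≠ v ∧
    Disjoint l.2 A
  hi : ∀ v ∈ I, ∀ l ∈ c v, ∀ l' ∈ c v, l.1 = l'.1 → l = l'

private theorem two_pts {S : Finset X} {p q : X} (hp : p ∈ S) (hq : q ∈ S) (h : p ≠ q) :
    2 ≤ #S := one_lt_card.2 ⟨p, hp, q, hq, h⟩

private theorem valid_one {E B : Finset X} (hB : B ∈ Y.F) {v : X} (hE : v ∈ E) (hv : v ∈ B) :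
    ValidL Y E [B] :=
  ⟨trivial, by simp, hB, card_pos.2 ⟨v, mem_inter.2 ⟨hv, subset_stars Y E [] (Or.inl rfl) hE⟩⟩,
    by simp, by simp⟩

theorem xpre (hF : FamH Y) (hN : NumH Y Q) (g : Good Y Lg s) (hΦ : Phi Y s ≤ 1 / 16)
    {A I : Finset X} (hA : A ∈ Y.F) {Bf : X → Finset X} {c : X → Finset (X × Finset X)}
    (D : XD Y s A I Bf c) {u : X} (hu : u ∈ I) :
    #((I.sigma c).filter (fun x => x.1 ≠ u ∧ ¬ Disjoint x.2.2 (Bf u))) ≤ Dl Y := by
  set V : Finset X := I.filter (fun v => v ≠ u ∧ ∃ l ∈ c v, ¬ Disjoint l.2 (Bf u)) with hV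
  obtain ⟨huA, huB, hur, hug⟩ := D.hB u hu
  have hch : ∀ v, ∃ l : X × Finset X, v ∈ V → l ∈ c v ∧ ¬ Disjoint l.2 (Bf u) := by
    intro v
    by_cases hv : v ∈ V
    · obtain ⟨-, l, hl, hd⟩ := (mem_filter.1 hv).2
      exact ⟨l, fun _ => ⟨hl, hd⟩⟩
    · exact ⟨(v, ∅), fun h => absurd h hv⟩
  choose lf hlf using hch
  have hVc : #V < Cg Y := by
    refine closing hF hN g hΦ (E := A) (l0 := [Bf u]) hA (valid_one (g.rF hur) huA huB)
      (by simpa using hur) (by simp) (H := A) (Or.inl rfl) V Bf (fun v => (lf v).2)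
      (fun v hv => ?_) (fun v hv => Or.inr ?_)
    · obtain ⟨h1, h2, h3, h4⟩ := D.hB v (mem_filter.1 hv).1
      exact ⟨h3, h4, h1, h2⟩
    · obtain ⟨hvI, hvu, -⟩ := mem_filter.1 hv
      obtain ⟨hl, hd⟩ := hlf v hv
      obtain ⟨h1, h2, h3, h4, h5, -⟩ := D.hc v hvI _ hl
      refine ⟨h4, h2.1, ⟨(lf v).1, mem_inter.2 ⟨h1, h3⟩, h5⟩, ?_⟩
      obtain ⟨q, hq1, hq2⟩ := not_disjoint_iff.1 hd
      refine two_pts (p := (lf v).1) (q := q) (mem_inter.2 ⟨h3, mem_union_right _ h1⟩)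
        (mem_inter.2 ⟨hq1, mem_union_left _ (subset_stars Y A [Bf u] (Or.inr (by simp)) hq2)⟩) ?_
      rintro rfl
      exact disjoint_left.1 (D.hd v hvI u hu hvu) h1 hq2
  set F : X → Finset (X × Finset X) := fun v => (c v).filter (fun l => ¬ Disjoint l.2 (Bf u))
    with hFd
  have hFc : ∀ v ∈ V, #(F v) ≤ Cg Y := by
    intro v hv
    obtain ⟨hvI, hvu, -⟩ := mem_filter.1 hv
    refine few_meet hF hN g hΦ (D.hB v hvI).2.2.1 hur (D.hd v hvI u hu hvu) (F v) ?_ ?_ ?_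
    · intro l hl
      obtain ⟨h1, h2, h3, h4, -, -⟩ := D.hc v hvI l (mem_filter.1 hl).1
      exact ⟨h1, h2, h3, h4⟩
    · intro l hl l' hl' h
      exact D.hi v hvI l (mem_filter.1 hl).1 l' (mem_filter.1 hl').1 h
    · intro l hl
      exact (mem_filter.1 hl).2
  have hsub : (I.sigma c).filter (fun x => x.1 ≠ u ∧ ¬ Disjoint x.2.2 (Bf u)) ⊆ V.sigma F := by
    rintro ⟨v, l⟩ hx
    obtain ⟨hx1, hx2, hx3⟩ := mem_filter.1 hx
    obtain ⟨hvI, hl⟩ := mem_sigma.1 hx1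
    exact mem_sigma.2 ⟨mem_filter.2 ⟨hvI, hx2, l, hl, hx3⟩, mem_filter.2 ⟨hl, hx3⟩⟩
  have h1 := card_le_card hsub
  have h2 : #(V.sigma F) ≤ #V * Cg Y := by
    rw [card_sigma]
    have := sum_le_card_nsmul V (fun v => #(F v)) _ hFc
    simpa using this
  have h3 : #V * Cg Y ≤ Cg Y * Cg Y := Nat.mul_le_mul_right _ hVc.le
  have h4 : Cg Y * Cg Y ≤ Dl Y := by
    unfold Dl
    nlinarith
  omega

theorem xdeg (hF : FamH Y) (hN : NumH Y Q) (g : Good Y Lg s) (hΦ : Phi Y s ≤ 1 / 16)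
    {A I : Finset X} (hA : A ∈ Y.F) {Bf : X → Finset X} {c : X → Finset (X × Finset X)}
    (D : XD Y s A I Bf c) {u : X} (hu : u ∈ I) {b : X × Finset X} (hb : b ∈ c u)
    (hp : ∀ v ∈ I, v ≠ u → Disjoint b.2 (Bf v)) :
    #((I.sigma c).filter (fun x => (x.1, x.2) ≠ (u, b) ∧ ¬ Disjoint b.2 x.2.2)) ≤ Dl Y := by
  obtain ⟨huA, huB, hur, hug⟩ := D.hB u hu
  obtain ⟨hb1, hb2, hb3, hb4, hb5, hb6⟩ := D.hc u hu b hb
  -- the same class
  set T1 : Finset (X × Finset X) := (c u).filter (fun l => l ≠ b ∧ ¬ Disjoint b.2 l.2) with hT1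
  have hT1c : #T1 < Cg Y := by
    have hinj : Set.InjOn (fun l : X × Finset X => l.1) (T1 : Set (X × Finset X)) := by
      intro l hl l' hl' h
      exact D.hi u hu l (mem_filter.1 hl).1 l' (mem_filter.1 hl').1 h
    rw [← card_image_of_injOn hinj]
    have hch : ∀ p, ∃ l : X × Finset X, p ∈ T1.image (fun l => l.1) → l ∈ T1 ∧ l.1 = p := by
      intro p
      by_cases hp : p ∈ T1.image (fun l => l.1)
      · obtain ⟨l, hl, hlp⟩ := mem_image.1 hp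
        exact ⟨l, fun _ => ⟨hl, hlp⟩⟩
      · exact ⟨(p, ∅), fun h => absurd h hp⟩
    choose lf hlf using hch
    refine closing hF hN g hΦ (E := Bf u) (l0 := [b.2]) (g.rF hur) (valid_one (g.rF hb4) hb1 hb3)
      (by simpa using hb4) (by simp) (H := Bf u) (Or.inl rfl) _ (fun p => (lf p).2)
      (fun _ => ∅) (fun p hp => ?_) (fun p hp => Or.inl ?_)
    · obtain ⟨hl, hlp⟩ := hlf p hp
      obtain ⟨h1, h2, h3, h4, -, -⟩ := D.hc u hu _ (mem_filter.1 hl).1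
      refine ⟨h4, h2, ?_, ?_⟩
      · rw [← hlp]; exact h1
      · rw [hlp] at h3
        exact h3
    · obtain ⟨hl, hlp⟩ := hlf p hp
      obtain ⟨hlc, hlb, hld⟩ := mem_filter.1 hl
      obtain ⟨h1, h2, h3, h4, -, -⟩ := D.hc u hu _ hlc
      obtain ⟨q, hq1, hq2⟩ := not_disjoint_iff.1 hld
      refine two_pts (p := (lf p).1) (q := q)
        (mem_inter.2 ⟨h3, subset_stars Y (Bf u) [b.2] (Or.inl rfl) h1⟩)
        (mem_inter.2 ⟨hq2, subset_stars Y (Bf u) [b.2] (Or.inr (by simp)) hq1⟩) ?_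
      rintro rfl
      exact hlb (D.hi u hu _ hlc b hb (gen_eq hb2 h1 hq1 hb1 hb3))
  -- the other classes
  set V : Finset X := I.filter (fun v => v ≠ u ∧ ∃ l ∈ c v, ¬ Disjoint b.2 l.2) with hV
  have hch : ∀ v, ∃ l : X × Finset X, v ∈ V → l ∈ c v ∧ ¬ Disjoint b.2 l.2 := by
    intro v
    by_cases hv : v ∈ V
    · obtain ⟨-, l, hl, hd⟩ := (mem_filter.1 hv).2
      exact ⟨l, fun _ => ⟨hl, hd⟩⟩
    · exact ⟨(v, ∅), fun h => absurd h hv⟩
  choose lf hlf using hch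
  have hvalid : ValidL Y A [b.2, Bf u] := by
    refine ⟨valid_one (g.rF hur) huA huB, ?_, g.rF hb4,
      card_pos.2 ⟨b.1, mem_inter.2 ⟨hb3, subset_stars Y A [Bf u] (Or.inr (by simp)) hb1⟩⟩, ?_, ?_⟩
    · intro h
      rw [List.mem_singleton] at h
      exact hb2.1 (by rw [h])
    · intro Z hZ _
      rw [List.mem_singleton] at hZ
      subst hZ
      exact hb2.1
    · intro Z hZ Z' hZ' _ _
      rw [List.mem_singleton] at hZ hZ'
      rw [hZ, hZ']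
  have hVc : #V < Cg Y := by
    refine closing hF hN g hΦ (E := A) (l0 := [b.2, Bf u]) hA hvalid
      (by
        intro Z hZ
        rcases List.mem_cons.1 hZ with rfl | hZ
        · exact hb4
        · rw [List.mem_singleton] at hZ
          rw [hZ]
          exact hur) (by simp) (H := A) (Or.inl rfl) V Bf (fun v => (lf v).2)
      (fun v hv => ?_) (fun v hv => Or.inr ?_)
    · obtain ⟨h1, h2, h3, h4⟩ := D.hB v (mem_filter.1 hv).1
      exact ⟨h3, h4, h1, h2⟩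
    · obtain ⟨hvI, hvu, -⟩ := mem_filter.1 hv
      obtain ⟨hl, hd⟩ := hlf v hv
      obtain ⟨h1, h2, h3, h4, h5, -⟩ := D.hc v hvI _ hl
      refine ⟨h4, h2.1, ⟨(lf v).1, mem_inter.2 ⟨h1, h3⟩, h5⟩, ?_⟩
      obtain ⟨q, hq1, hq2⟩ := not_disjoint_iff.1 hd
      refine two_pts (p := (lf v).1) (q := q) (mem_inter.2 ⟨h3, mem_union_right _ h1⟩)
        (mem_inter.2 ⟨hq2, mem_union_left _
          (subset_stars Y A [b.2, Bf u] (Or.inr (by simp)) hq1)⟩) ?_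
      rintro rfl
      exact disjoint_left.1 (hp v hvI hvu) hq1 h1
  set F : X → Finset (X × Finset X) := fun v => (c v).filter (fun l => ¬ Disjoint b.2 l.2)
    with hFd
  have hFc : ∀ v ∈ V, #(F v) ≤ Cg Y := by
    intro v hv
    obtain ⟨hvI, hvu, -⟩ := mem_filter.1 hv
    refine few_meet hF hN g hΦ (D.hB v hvI).2.2.1 hb4 (hp v hvI hvu).symm (F v) ?_ ?_ ?_
    · intro l hl
      obtain ⟨h1, h2, h3, h4, -, -⟩ := D.hc v hvI l (mem_filter.1 hl).1
      exact ⟨h1, h2, h3, h4⟩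
    · intro l hl l' hl' h
      exact D.hi v hvI l (mem_filter.1 hl).1 l' (mem_filter.1 hl').1 h
    · intro l hl h
      exact (mem_filter.1 hl).2 h.symm
  have hsub : (I.sigma c).filter (fun x => (x.1, x.2) ≠ (u, b) ∧ ¬ Disjoint b.2 x.2.2) ⊆
      ({u} : Finset X).sigma (fun _ => T1) ∪ V.sigma F := by
    rintro ⟨v, l⟩ hx
    obtain ⟨hx1, hx2, hx3⟩ := mem_filter.1 hx
    obtain ⟨hvI, hl⟩ := mem_sigma.1 hx1
    by_cases hvu : v = u
    · refine mem_union_left _ (mem_sigma.2 ⟨mem_singleton.2 hvu, ?_⟩)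
      subst hvu
      refine mem_filter.2 ⟨hl, ?_, hx3⟩
      intro h
      exact hx2 (Prod.ext rfl h)
    · exact mem_union_right _
        (mem_sigma.2 ⟨mem_filter.2 ⟨hvI, hvu, l, hl, hx3⟩, mem_filter.2 ⟨hl, hx3⟩⟩)
  have h1 := card_le_card hsub
  have h1' := card_union_le (({u} : Finset X).sigma (fun _ => T1)) (V.sigma F)
  have h1'' : #(({u} : Finset X).sigma (fun _ => T1)) = #T1 := by simp [card_sigma]
  have h2 : #(V.sigma F) ≤ #V * Cg Y := by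
    rw [card_sigma]
    have := sum_le_card_nsmul V (fun v => #(F v)) _ hFc
    simpa using this
  have h3 : #V * Cg Y ≤ Cg Y * Cg Y := Nat.mul_le_mul_right _ hVc.le
  have h4 : Cg Y + Cg Y * Cg Y ≤ Dl Y := by
    unfold Dl
    nlinarith
  omega

end Pool.H33.MB2
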